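import Pool.Agent.AP157.Semi

/-!
# Interface of the semiflow: order, strong positivity, Lipschitz dependence, invariance, constants
-/

set_option autoImplicit false

open MeasureTheory Real Set Filter Topology
open scoped ENNReal

namespace Pool.Agent.AP157

open Pool.Agent.X297.KP

noncomputable section

variable {N : ℕ} {f : ℝ → ℝ} {M : ℝ}

theorem S_mono (hf : Nl f M) {g g' : E N → ℝ} (hg : Dat g) (hg' : Dat g')
    (h : ∀ x, g x ≤ g' x) (t : ℝ) (x : E N) : S f M t g x ≤ S f M t g' x := by
  by_cases ht : t ≤ 0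
  · unfold S
    rw [if_pos ht, if_pos ht]
    exact h x
  · push Not at ht
    rw [S_pos_eq ht, S_pos_eq ht]
    apply ENNReal.toReal_mono (uu_ne_top hf hg' ht x)
    exact comp_mono hf (ofR_meas hg') (fun y => ENNReal.ofReal_le_ofReal (h y))
      (uu_meas hf (ofR_meas hg)) (uu_meas hf (ofR_meas hg'))
      (fun t ht x => uu_le hf (ofR_le hg) ht x)
      (fun t ht x => (uu_fix hf (ofR_meas hg) t x).le)
      (fun t ht x => (uu_fix hf (ofR_meas hg') t x).ge) t ht x

/-- Comparison with an error in the data. -/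
theorem S_err (hf : Nl f M) {g g' : E N → ℝ} (hg : Dat g) (hg' : Dat g')
    {D : E N → ℝ} (hD : Measurable D) (hD0 : ∀ y, 0 ≤ D y) {C : ℝ} (hC : ∀ y, D y ≤ C)
    (h : ∀ x, g x ≤ g' x + D x) {t : ℝ} (ht : 0 < t) (x : E N) :
    S f M t g x ≤ S f M t g' x + Real.exp (2 * M * t) * P t D x := by
  have key := comp hf (ofR_meas hg') hD.ennreal_ofReal
    (g := fun y => ENNReal.ofReal (g y)) (fun y => by
      rw [← ENNReal.ofReal_add (hg'.mem y).1 (hD0 y)]
      exact ENNReal.ofReal_le_ofReal (h y))
      (uu_meas hf (ofR_meas hg)) (uu_meas hf (ofR_meas hg'))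
      (fun t ht x => uu_le hf (ofR_le hg) ht x)
      (fun t ht x => (uu_fix hf (ofR_meas hg) t x).le)
      (fun t ht x => (uu_fix hf (ofR_meas hg') t x).ge) t ht x
  rw [← P_ofReal ht hD hD0 hC, ← ofR_S hf hg ht, ← ofR_S hf hg' ht,
    ← ENNReal.ofReal_mul (Real.exp_nonneg _), ← ENNReal.ofReal_add (S_mem hf hg' t x).1
      (mul_nonneg (Real.exp_nonneg _) (P_nonneg ht hD0 x))] at key
  exact (ENNReal.ofReal_le_ofReal_iff (add_nonneg (S_mem hf hg' t x).1
      (mul_nonneg (Real.exp_nonneg _) (P_nonneg ht hD0 x)))).mp key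

theorem S_const_eq (hf : Nl f M) {p : ℝ} (hp : p ∈ Icc (0:ℝ) 1) (hfp : f p = 0) (t : ℝ) (x : E N) :
    S f M t (fun _ => p) x = p := by
  by_cases ht : t ≤ 0
  · unfold S
    rw [if_pos ht]
  push Not at ht
  have hM0 := hf.nn
  have hd : Dat (N := N) (fun _ => p) := ⟨measurable_const, fun _ => hp⟩
  have hP : ∀ t, 0 < t → ∀ x : E N, Phi f M (fun _ => ENNReal.ofReal p)
      (fun _ _ => ENNReal.ofReal p) t x = ENNReal.ofReal p := by
    intro t ht x
    unfold Phi
    have e1 : Gt f M (ENNReal.ofReal p) = ENNReal.ofReal M * ENNReal.ofReal p := by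
      unfold Gt
      have hc : cl (ENNReal.ofReal p) = p := by
        unfold cl
        rw [min_eq_left (by rw [ENNReal.ofReal_le_one]; exact hp.2), ENNReal.toReal_ofReal hp.1]
      rw [hc, hfp, zero_add, ENNReal.ofReal_mul hM0]
    simp only [e1]
    rw [lintegral_mul_const' _ _ ENNReal.ofReal_ne_top, lint_heatK ht, one_mul]
    have e2 : ∫⁻ s in Ioo 0 t, ENNReal.ofReal (Real.exp (-(M * (t - s)))) *
        ∫⁻ y : E N, ENNReal.ofReal (heatK (t - s) (x - y)) *
          (ENNReal.ofReal M * ENNReal.ofReal p) =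
        (∫⁻ s in Ioo 0 t, ENNReal.ofReal (M * Real.exp (-(M * (t - s))))) * ENNReal.ofReal p := by
      rw [← lintegral_mul_const' _ _ ENNReal.ofReal_ne_top]
      apply setLIntegral_congr_fun measurableSet_Ioo
      intro s hs
      have hts : 0 < t - s := by linarith [hs.2]
      simp only
      rw [lintegral_mul_const' _ _ (ENNReal.mul_ne_top ENNReal.ofReal_ne_top
        ENNReal.ofReal_ne_top), lint_heatK hts, ENNReal.ofReal_mul hM0]
      ring
    rw [e2, lint_ftc' (g := fun s => M * Real.exp (-(M * (t - s))))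
      (G := fun s => Real.exp (-(M * (t - s)))) (by fun_prop) ht.le (fun s _ _ => by positivity)
      (fun s => by
        have := ((((hasDerivAt_id' s).const_sub t).const_mul M).fun_neg).exp
        refine this.congr_deriv ?_
        ring), ← add_mul, ← ENNReal.ofReal_add (by positivity)]
    · simp
    · simp
      positivity
  have hm : Measurable (Function.uncurry (fun (_ : ℝ) (_ : E N) => ENNReal.ofReal p)) :=
    measurable_const
  have hp1 : ENNReal.ofReal p ≤ 1 := by rw [ENNReal.ofReal_le_one]; exact hp.2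
  have hmc : Measurable (fun _ : E N => ENNReal.ofReal p) := measurable_const
  have h1 : uu f M (fun _ : E N => ENNReal.ofReal p) t x = ENNReal.ofReal p := by
    apply le_antisymm
    · exact comp_mono hf hmc (fun _ => le_rfl) (uu_meas hf hmc) hm
        (fun t ht x => uu_le hf (fun _ => hp1) ht x)
        (fun t ht x => (uu_fix hf hmc t x).le)
        (fun t ht x => (hP t ht x).le) t ht x
    · exact comp_mono hf hmc (fun _ => le_rfl) hm (uu_meas hf hmc)
        (fun t ht x => hp1) (fun t ht x => (hP t ht x).ge)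
        (fun t ht x => (uu_fix hf hmc t x).ge) t ht x
  rw [S_pos_eq ht, h1, ENNReal.toReal_ofReal hp.1]

theorem S_one (hf : Nl f M) (t : ℝ) (x : E N) : S f M t (fun _ => 1) x = 1 :=
  S_const_eq hf ⟨zero_le_one, le_rfl⟩ hf.one t x

theorem dat_one : Dat (N := N) (fun _ => 1) := ⟨measurable_const, fun _ => ⟨zero_le_one, le_rfl⟩⟩

theorem dat_const {p : ℝ} (hp : p ∈ Icc (0:ℝ) 1) : Dat (N := N) (fun _ => p) :=
  ⟨measurable_const, fun _ => hp⟩

/-- Invariance under translations. -/
theorem S_trans (hf : Nl f M) {g : E N → ℝ} (hg : Dat g) (t : ℝ) (h x : E N) :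
    S f M t (fun y => g (y + h)) x = S f M t g (x + h) := by
  by_cases ht : t ≤ 0
  · unfold S
    rw [if_pos ht, if_pos ht]
  · push Not at ht
    rw [S_pos_eq ht, S_pos_eq ht]
    congr 1
    exact uu_comp hf (T := fun y => y + h) (measurePreserving_add_right volume h)
      (fun x y => by simp) (ofR_meas hg) t x

/-- Invariance under linear isometries. -/
theorem S_iso (hf : Nl f M) {g : E N → ℝ} (hg : Dat g) (t : ℝ) (T : E N ≃ₗᵢ[ℝ] E N) (x : E N) :
    S f M t (fun y => g (T y)) x = S f M t g (T x) := by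
  by_cases ht : t ≤ 0
  · unfold S
    rw [if_pos ht, if_pos ht]
  · push Not at ht
    rw [S_pos_eq ht, S_pos_eq ht]
    congr 1
    exact uu_comp hf (T := fun y => T y) T.measurePreserving
      (fun x y => by rw [← map_sub]; exact T.norm_map _) (ofR_meas hg) t x

theorem dat_trans {g : E N → ℝ} (hg : Dat g) (h : E N) : Dat (fun y => g (y + h)) :=
  ⟨hg.meas.comp (by fun_prop), fun x => hg.mem _⟩

theorem P_sub {t : ℝ} (ht : 0 < t) {g g' : E N → ℝ} (hg : Measurable g) (hg' : Measurable g')
    {C : ℝ} (hC : ∀ y, |g y| ≤ C) (hC' : ∀ y, |g' y| ≤ C) (x : E N) :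
    P t (fun y => g y - g' y) x = P t g x - P t g' x := by
  unfold P
  rw [← integral_sub (P_int ht hg hC x) (P_int ht hg' hC' x)]
  congr 1
  funext y
  ring

theorem P_add {t : ℝ} (ht : 0 < t) {g g' : E N → ℝ} (hg : Measurable g) (hg' : Measurable g')
    {C : ℝ} (hC : ∀ y, |g y| ≤ C) (hC' : ∀ y, |g' y| ≤ C) (x : E N) :
    P t (fun y => g y + g' y) x = P t g x + P t g' x := by
  unfold P
  rw [← integral_add (P_int ht hg hC x) (P_int ht hg' hC' x)]
  congr 1
  funext y
  ring

theorem P_const_mul {t : ℝ} (c : ℝ) (g : E N → ℝ) (x : E N) :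
    P t (fun y => c * g y) x = c * P t g x := by
  unfold P
  rw [← integral_const_mul]
  congr 1
  funext y
  ring

/-- The integrand of the shifted Duhamel formula is integrable. -/
theorem duh_int (hf : Nl f M) {g : E N → ℝ} (hg : Dat g) {t : ℝ} (ht : 0 < t) (x : E N) :
    IntervalIntegrable (fun s => Real.exp (-(M * (t - s))) *
        P (t - s) (fun y => Fe f M (S f M s g y)) x) volume 0 t := by
  have hM0 := hf.nn
  have hFm : Measurable (Function.uncurry (fun s y => Fe f M (S f M s g y))) :=
    (Fe_cont hf).measurable.comp (S_meas hf hg)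
  have hFs : ∀ s, Measurable (fun y => Fe f M (S f M s g y)) := fun s =>
    hFm.comp (f := fun y : E N => (s, y)) (by fun_prop)
  have hPm : StronglyMeasurable (fun s => P (t - s) (fun y => Fe f M (S f M s g y)) x) := by
    apply StronglyMeasurable.integral_prod_right
      (f := fun s y => heatK (t - s) (x - y) * Fe f M (S f M s g y))
    apply Measurable.stronglyMeasurable
    apply Measurable.mul
    · exact heatK_meas.comp (f := fun q : ℝ × E N => (t - q.1, x - q.2)) (by fun_prop)
    · exact hFm
  rw [intervalIntegrable_iff_integrableOn_Ioo_of_le ht.le]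
  apply Measure.integrableOn_of_bounded (M := M) (by simp)
  · exact ((by fun_prop : Measurable (fun s : ℝ => Real.exp (-(M * (t - s)))))
      |>.aestronglyMeasurable).mul hPm.aestronglyMeasurable
  · filter_upwards [ae_restrict_mem measurableSet_Ioo] with s hs
    have hts : 0 < t - s := by linarith [hs.2]
    have hP0 : 0 ≤ P (t - s) (fun y => Fe f M (S f M s g y)) x :=
      P_nonneg hts (fun y => Fe_nonneg hf _) x
    have hPle : P (t - s) (fun y => Fe f M (S f M s g y)) x ≤ M :=
      P_le hts (hFs s) (C := M) (fun y => by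
        rw [abs_of_nonneg (Fe_nonneg hf _)]; exact Fe_le hf _) (fun y => Fe_le hf _) x
    rw [norm_mul, Real.norm_eq_abs, Real.norm_eq_abs, abs_of_nonneg (Real.exp_nonneg _),
      abs_of_nonneg hP0]
    have h3 : Real.exp (-(M * (t - s))) ≤ 1 := by
      apply Real.exp_le_one_iff.mpr
      have : 0 ≤ M * (t - s) := mul_nonneg hM0 (by linarith [hs.2])
      linarith
    calc _ ≤ 1 * M := mul_le_mul h3 hPle hP0 zero_le_one
      _ = M := one_mul M

theorem Fe_S_meas (hf : Nl f M) {g : E N → ℝ} (hg : Dat g) (s : ℝ) :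
    Measurable (fun y => Fe f M (S f M s g y)) :=
  (Fe_cont hf).measurable.comp (S_dat hf hg s).meas

theorem Fe_abs (hf : Nl f M) (a : ℝ) : |Fe f M a| ≤ M := by
  rw [abs_of_nonneg (Fe_nonneg hf _)]; exact Fe_le hf _

/-- Duhamel's formula for a difference. -/
theorem duh_sub (hf : Nl f M) {g g' : E N → ℝ} (hg : Dat g) (hg' : Dat g') {t : ℝ} (ht : 0 < t)
    (x : E N) :
    S f M t g x - S f M t g' x = Real.exp (-(M * t)) * P t (fun y => g y - g' y) x +
      ∫ s in (0:ℝ)..t, Real.exp (-(M * (t - s))) *
        P (t - s) (fun y => Fe f M (S f M s g y) - Fe f M (S f M s g' y)) x := by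
  rw [duhamel hf hg ht, duhamel hf hg' ht, P_sub ht hg.meas hg'.meas (C := 1)
    (fun y => abs_le.mpr ⟨by linarith [(hg.mem y).1], (hg.mem y).2⟩)
    (fun y => abs_le.mpr ⟨by linarith [(hg'.mem y).1], (hg'.mem y).2⟩)]
  have e : ∫ s in (0:ℝ)..t, Real.exp (-(M * (t - s))) *
        P (t - s) (fun y => Fe f M (S f M s g y) - Fe f M (S f M s g' y)) x =
      (∫ s in (0:ℝ)..t, Real.exp (-(M * (t - s))) *
        P (t - s) (fun y => Fe f M (S f M s g y)) x) -
      ∫ s in (0:ℝ)..t, Real.exp (-(M * (t - s))) *
        P (t - s) (fun y => Fe f M (S f M s g' y)) x := by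
    rw [← intervalIntegral.integral_sub (duh_int hf hg ht x) (duh_int hf hg' ht x)]
    apply intervalIntegral.integral_congr_ae
    have hne : ∀ᵐ s : ℝ, s ≠ t := by
      simp [ae_iff]
    filter_upwards [hne] with s hst hs
    rw [uIoc_of_le ht.le] at hs
    have hts : 0 < t - s := by
      have := lt_of_le_of_ne hs.2 hst
      linarith
    rw [P_sub hts (Fe_S_meas hf hg s) (Fe_S_meas hf hg' s) (fun y => Fe_abs hf _)
      (fun y => Fe_abs hf _)]
    ring
  rw [e]
  ring

/-- Strong positivity. -/
theorem S_pos (hf : Nl f M) {g g' : E N → ℝ} (hg : Dat g) (hg' : Dat g')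
    (h : ∀ x, g x ≤ g' x) {t : ℝ} (ht : 0 < t) (x : E N) :
    Real.exp (-(M * t)) * P t (fun y => g' y - g y) x ≤ S f M t g' x - S f M t g x := by
  rw [duh_sub hf hg' hg ht]
  have : 0 ≤ ∫ s in (0:ℝ)..t, Real.exp (-(M * (t - s))) *
        P (t - s) (fun y => Fe f M (S f M s g' y) - Fe f M (S f M s g y)) x := by
    rw [intervalIntegral.integral_of_le ht.le, integral_Ioc_eq_integral_Ioo]
    apply setIntegral_nonneg measurableSet_Ioo
    intro s hs
    have hts : 0 < t - s := by linarith [hs.2]
    apply mul_nonneg (Real.exp_nonneg _)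
    apply P_nonneg hts
    intro y
    have := Fe_mono hf (S_mono hf hg hg' h s y)
    linarith
  linarith

theorem exp_int (hf : Nl f M) {t : ℝ} :
    ∫ s in (0:ℝ)..t, Real.exp (-(M * (t - s))) = (1 - Real.exp (-(M * t))) / M := by
  have hM := hf.pos
  have h1 : ∀ s : ℝ, HasDerivAt (fun s => Real.exp (-(M * (t - s))) / M)
      (Real.exp (-(M * (t - s)))) s := by
    intro s
    have := (((((hasDerivAt_id' s).const_sub t).const_mul M).fun_neg).exp).div_const M
    refine this.congr_deriv ?_
    field_simp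
  rw [intervalIntegral.integral_eq_sub_of_hasDerivAt (fun s _ => h1 s)
    ((by fun_prop : Continuous (fun s : ℝ => Real.exp (-(M * (t - s))))).intervalIntegrable _ _)]
  simp
  ring

/-- Upper bound for a difference from pointwise bounds of the data and the nonlinear terms. -/
theorem duh_bound (hf : Nl f M) {g g' : E N → ℝ} (hg : Dat g) (hg' : Dat g') {t : ℝ} (ht : 0 < t)
    (x : E N) {q b1 b2 τ : ℝ} (hq : ∀ y, g y - g' y ≤ q) {W : Set (E N)} (hW : MeasurableSet W)
    (hb2 : 0 ≤ b2)
    (hF : ∀ s ∈ Ioo (0:ℝ) t, ∀ y, Fe f M (S f M s g y) - Fe f M (S f M s g' y) ≤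
      b1 + b2 * W.indicator 1 y)
    (hτ : ∀ r ∈ Ioo (0:ℝ) t, P r (W.indicator 1) x ≤ τ) :
    S f M t g x - S f M t g' x ≤
      Real.exp (-(M * t)) * q + (b1 + b2 * τ) * ((1 - Real.exp (-(M * t))) / M) := by
  have hWm : Measurable (W.indicator (1 : E N → ℝ)) := measurable_one.indicator hW
  have hWb : ∀ y, |W.indicator (1 : E N → ℝ) y| ≤ 1 := by
    intro y
    by_cases hy : y ∈ W <;> simp [hy]
  rw [duh_sub hf hg hg' ht]
  apply add_le_add
  · apply mul_le_mul_of_nonneg_left _ (Real.exp_nonneg _)
    apply P_le ht (hg.meas.sub hg'.meas) (C := 1) _ hq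
    intro y
    rw [Pi.sub_apply, abs_le]
    constructor <;> linarith [(hg.mem y).1, (hg.mem y).2, (hg'.mem y).1, (hg'.mem y).2]
  · rw [← exp_int hf, ← intervalIntegral.integral_const_mul]
    apply intervalIntegral.integral_mono_on_of_le_Ioo ht.le
    · have h1 := (duh_int hf hg ht x).sub (duh_int hf hg' ht x)
      refine h1.congr_ae ?_
      have hne : ∀ᵐ s : ℝ, s ≠ t := by
        simp [ae_iff]
      rw [Filter.EventuallyEq, ae_restrict_iff' measurableSet_uIoc]
      filter_upwards [hne] with s hst hs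
      rw [uIoc_of_le ht.le] at hs
      have hts : 0 < t - s := by
        have := lt_of_le_of_ne hs.2 hst
        linarith
      rw [P_sub hts (Fe_S_meas hf hg s) (Fe_S_meas hf hg' s) (fun y => Fe_abs hf _)
        (fun y => Fe_abs hf _)]
      ring
    · apply Continuous.intervalIntegrable
      fun_prop
    · intro s hs
      have hts : 0 < t - s := by linarith [hs.2]
      rw [mul_comm (b1 + b2 * τ)]
      apply mul_le_mul_of_nonneg_left _ (Real.exp_nonneg _)
      have hc : ∀ y, |b1 + b2 * W.indicator (1 : E N → ℝ) y| ≤ |b1| + b2 := by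
        intro y
        refine (abs_add_le _ _).trans ?_
        rw [abs_mul, abs_of_nonneg hb2]
        have := mul_le_mul_of_nonneg_left (hWb y) hb2
        linarith
      calc P (t - s) (fun y => Fe f M (S f M s g y) - Fe f M (S f M s g' y)) x
          ≤ P (t - s) (fun y => b1 + b2 * W.indicator (1 : E N → ℝ) y) x := by
            apply P_mono hts ((Fe_S_meas hf hg s).sub (Fe_S_meas hf hg' s))
              (measurable_const.add (hWm.const_mul b2)) (C := max (2 * M) (|b1| + b2))
            · intro y
              refine le_trans ?_ (le_max_left _ _)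
              rw [Pi.sub_apply, abs_le]
              have h1 := Fe_nonneg hf (S f M s g y)
              have h2 := Fe_le hf (S f M s g y)
              have h3 := Fe_nonneg hf (S f M s g' y)
              have h4 := Fe_le hf (S f M s g' y)
              constructor <;> linarith [hf.nn]
            · intro y
              exact (hc y).trans (le_max_right _ _)
            · exact hF s hs
        _ = b1 + b2 * P (t - s) (W.indicator 1) x := by
            rw [P_add hts measurable_const (hWm.const_mul b2) (C := max |b1| b2)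
              (fun _ => le_max_left _ _) (fun y => by
                rw [abs_mul, abs_of_nonneg hb2]
                refine le_trans ?_ (le_max_right _ _)
                have := mul_le_mul_of_nonneg_left (hWb y) hb2
                linarith), P_const hts, P_const_mul]
        _ ≤ b1 + b2 * τ := by
            have := mul_le_mul_of_nonneg_left (hτ (t - s) ⟨hts, by linarith [hs.1]⟩) hb2
            linarith

/-- A constant solution is a zero of `f`. -/
theorem zero_of_const (hf : Nl f M) {p : ℝ} (hp : p ∈ Icc (0:ℝ) 1) {t : ℝ} (ht : 0 < t) (x : E N)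
    (h : ∀ s, 0 < s → s ≤ t → ∀ y : E N, S f M s (fun _ => p) y = p) : f p = 0 := by
  have hM := hf.pos
  have hd := duhamel hf (dat_const (N := N) hp) ht x
  rw [h t ht le_rfl x, P_const ht] at hd
  have e : ∫ s in (0:ℝ)..t, Real.exp (-(M * (t - s))) *
        P (t - s) (fun y => Fe f M (S f M s (fun _ => p) y)) x =
      (f p + M * p) * ((1 - Real.exp (-(M * t))) / M) := by
    rw [← exp_int hf, ← intervalIntegral.integral_const_mul]
    apply intervalIntegral.integral_congr_ae
    have hne : ∀ᵐ s : ℝ, s ≠ t := by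
      simp [ae_iff]
    filter_upwards [hne] with s hst hs
    rw [uIoc_of_le ht.le] at hs
    have hts : 0 < t - s := by
      have := lt_of_le_of_ne hs.2 hst
      linarith
    have e1 : (fun y : E N => Fe f M (S f M s (fun _ => p) y)) = fun _ => f p + M * p := by
      funext y
      rw [h s hs.1 hs.2 y, Fe_eq hp]
    rw [e1, P_const hts]
    ring
  rw [e] at hd
  have h1 : Real.exp (-(M * t)) < 1 := by
    rw [Real.exp_lt_one_iff]
    have : 0 < M * t := by positivity
    linarith
  have h2 : f p * (1 - Real.exp (-(M * t))) = 0 := by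
    field_simp at hd
    linarith
  rcases mul_eq_zero.mp h2 with h3 | h3
  · exact h3
  · linarith

end

end Pool.Agent.AP157
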