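import Pool.Agent.AP157.Defs

/-!
# Heat kernel estimates

Hints.  `heatK t x` is the Gaussian kernel (see Kernel.lean), `P t g x = ∫ y, heatK t (x - y) * g y`.
P_tail: `heatK t u = 2^(N/2) * exp(-‖u‖^2/(8t)) * heatK (2t) u`, and `‖x-y‖ ≥ A` on `W`; then `∫ heatK (2t) = 1`.
heat_moment: same identity and `s * exp(-s^2/(8t)) ≤ C √t`, so `heatK t y * ‖y‖ ≤ 2^(N/2) C √t * heatK (2t) y`.
P_lip: `heatK t (x-y) - heatK t (x'-y)`: along the segment the derivative in `x` is bounded by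
`‖u‖/(2t) heatK t u ≤ (C/√t) heatK (2t) u`; either use the mean value theorem and Fubini
(`P t g x - P t g x' = ∫_0^1 d/dr P t g (x' + r (x-x')) dr`), or show that `P t g` is differentiable along lines with
derivative bounded by `C B ‖x-x'‖/√t` (`hasDerivAt_integral_of_dominated_loc_of_deriv_le`, with a bound such as the sup over
a bounded shift of the Gaussian) and apply `Convex.norm_image_sub_le_of_norm_hasDerivWithin_le`.
heat_lower: the kernel is continuous and positive; explicit bound `(4π b)^(-N/2) exp(-R^2/(4a))`.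
-/

set_option autoImplicit false

open MeasureTheory Real Set Filter Topology
open scoped ENNReal

namespace Pool.Agent.AP157

open Pool.Agent.X297.KP

noncomputable section

variable {N : ℕ} {f : ℝ → ℝ} {M : ℝ} {z : Set (E N) → ℝ → E N → ℝ} {α δ ω : ℝ}

/-! ## Auxiliary lemmas -/

theorem kern_two {t : ℝ} (ht : 0 < t) (u : E N) :
    heatK t u = 2 ^ ((N : ℝ) / 2) * Real.exp (-(‖u‖ ^ 2 / (8 * t))) * heatK (2 * t) u := by
  unfold heatK
  have h1 : (4 * π * t) ^ (-((N : ℝ) / 2)) =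
      2 ^ ((N : ℝ) / 2) * (4 * π * (2 * t)) ^ (-((N : ℝ) / 2)) := by
    have h2 : 4 * π * (2 * t) = 2 * (4 * π * t) := by ring
    have h3 : (2 * (4 * π * t)) ^ (-((N : ℝ) / 2)) =
        2 ^ (-((N : ℝ) / 2)) * (4 * π * t) ^ (-((N : ℝ) / 2)) :=
      Real.mul_rpow (by norm_num) (by positivity)
    have h4 : (2 : ℝ) ^ ((N : ℝ) / 2) * 2 ^ (-((N : ℝ) / 2)) = 1 := by
      rw [← Real.rpow_add (by norm_num)]
      simp
    rw [h2, h3, ← mul_assoc, h4, one_mul]
  have h3 : Real.exp (-(‖u‖ ^ 2 / (4 * t))) =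
      Real.exp (-(‖u‖ ^ 2 / (8 * t))) * Real.exp (-(‖u‖ ^ 2 / (4 * (2 * t)))) := by
    rw [← Real.exp_add]
    congr 1
    field_simp
    ring
  rw [h1, h3]
  ring

theorem kern_exp {t : ℝ} (ht : 0 < t) (s : ℝ) :
    s * Real.exp (-(s ^ 2 / (8 * t))) ≤ 2 * √t := by
  have hst : 0 < √t := Real.sqrt_pos.2 ht
  have hsq : √t ^ 2 = t := Real.sq_sqrt ht.le
  have h1 : s ^ 2 / (8 * t) + 1 ≤ Real.exp (s ^ 2 / (8 * t)) := Real.add_one_le_exp _
  rw [Real.exp_neg, ← div_eq_mul_inv, div_le_iff₀ (Real.exp_pos _)]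
  have h2 : s ≤ 2 * √t * (s ^ 2 / (8 * t) + 1) := by
    have h3 : 2 * √t * (s ^ 2 / (8 * t) + 1) = s ^ 2 / (4 * √t) + 2 * √t := by
      nth_rewrite 2 [← hsq]
      field_simp
      ring
    rw [h3]
    have h4 : s ^ 2 / (4 * √t) + 2 * √t - s = (s / (2 * √t) - 1) ^ 2 * √t + √t := by
      field_simp
      ring
    have h5 : 0 ≤ (s / (2 * √t) - 1) ^ 2 * √t + √t := by positivity
    linarith
  calc s ≤ 2 * √t * (s ^ 2 / (8 * t) + 1) := h2
    _ ≤ 2 * √t * Real.exp (s ^ 2 / (8 * t)) := by gcongr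

theorem kern_mid {t : ℝ} (ht : 0 < t) (x x' y : E N) :
    (Real.exp (-(‖x - x'‖ ^ 2 / (16 * t))) * heatK t ((1 / 2 : ℝ) • (x + x') - y)) ^ 2
      = heatK t (x - y) * heatK t (x' - y) := by
  unfold heatK
  obtain ⟨p, hp⟩ : ∃ p, p = x - y := ⟨_, rfl⟩
  obtain ⟨q, hq⟩ : ∃ q, q = x' - y := ⟨_, rfl⟩
  have hxx : x - x' = p - q := by rw [hp, hq]; abel
  have hm : (1 / 2 : ℝ) • (x + x') - y = (1 / 2 : ℝ) • (p + q) := by
    rw [hp, hq]
    module
  rw [hxx, hm, ← hp, ← hq]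
  have e1 : Real.exp (-(‖p - q‖ ^ 2 / (16 * t))) ^ 2 *
      Real.exp (-(‖(1 / 2 : ℝ) • (p + q)‖ ^ 2 / (4 * t))) ^ 2 =
      Real.exp (-(‖p‖ ^ 2 / (4 * t))) * Real.exp (-(‖q‖ ^ 2 / (4 * t))) := by
    rw [← Real.exp_nat_mul, ← Real.exp_nat_mul, ← Real.exp_add, ← Real.exp_add]
    congr 1
    rw [norm_smul, mul_pow, norm_add_sq_real, norm_sub_sq_real, Real.norm_eq_abs, sq_abs]
    push_cast
    field_simp
    ring
  calc _ = ((4 * π * t) ^ (-((N : ℝ) / 2))) ^ 2 * (Real.exp (-(‖p - q‖ ^ 2 / (16 * t))) ^ 2 *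
      Real.exp (-(‖(1 / 2 : ℝ) • (p + q)‖ ^ 2 / (4 * t))) ^ 2) := by ring
    _ = _ := by rw [e1]; ring

theorem kern_amgm {p q w lam : ℝ} (hp : 0 ≤ p) (hq : 0 ≤ q) (hw : 0 ≤ w) (h : w ^ 2 = p * q)
    (hl : 0 < lam) :
    |p - q| ≤ lam / 2 * (p + q - 2 * w) + 1 / (2 * lam) * (p + q + 2 * w) := by
  obtain ⟨a, ha0, ha⟩ : ∃ a : ℝ, 0 ≤ a ∧ p = a ^ 2 := ⟨√p, Real.sqrt_nonneg _, (Real.sq_sqrt hp).symm⟩
  obtain ⟨b, hb0, hb⟩ : ∃ b : ℝ, 0 ≤ b ∧ q = b ^ 2 := ⟨√q, Real.sqrt_nonneg _, (Real.sq_sqrt hq).symm⟩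
  have hwab : w = a * b := by
    have h1 : w ^ 2 = (a * b) ^ 2 := by rw [h, ha, hb]; ring
    exact (pow_left_inj₀ hw (mul_nonneg ha0 hb0) two_ne_zero).1 h1
  subst ha hb hwab
  have h1 : |a ^ 2 - b ^ 2| = |a - b| * (a + b) := by
    have : a ^ 2 - b ^ 2 = (a - b) * (a + b) := by ring
    rw [this, abs_mul, abs_of_nonneg (add_nonneg ha0 hb0)]
  have h2 : lam / 2 * (a ^ 2 + b ^ 2 - 2 * (a * b)) + 1 / (2 * lam) * (a ^ 2 + b ^ 2 + 2 * (a * b))
      - |a - b| * (a + b) = 1 / (2 * lam) * (lam * |a - b| - (a + b)) ^ 2 := by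
    have h3 : |a - b| ^ 2 = (a - b) ^ 2 := sq_abs _
    have h4 : (lam * |a - b| - (a + b)) ^ 2 = lam ^ 2 * |a - b| ^ 2 - 2 * lam * |a - b| * (a + b)
        + (a + b) ^ 2 := by ring
    rw [h4, h3]
    field_simp
    ring
  have h5 : 0 ≤ 1 / (2 * lam) * (lam * |a - b| - (a + b)) ^ 2 := by positivity
  rw [h1]
  linarith

theorem P_tail {t : ℝ} (ht : 0 < t) (x : E N) {A : ℝ} (hA : 0 ≤ A) {W : Set (E N)}
    (hW : MeasurableSet W) (h : ∀ y ∈ W, A ≤ ‖x - y‖) :
    P t (W.indicator 1) x ≤ 2 ^ ((N : ℝ) / 2) * Real.exp (-(A ^ 2 / (8 * t))) := by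
  have h2t : 0 < 2 * t := by positivity
  have e1 : ∫ y : E N, 2 ^ ((N : ℝ) / 2) * Real.exp (-(A ^ 2 / (8 * t))) * heatK (2 * t) (x - y)
      = 2 ^ ((N : ℝ) / 2) * Real.exp (-(A ^ 2 / (8 * t))) := by
    rw [integral_const_mul, heatK_int1' h2t, mul_one]
  rw [← e1]
  unfold P
  apply integral_mono
  · apply P_int ht (measurable_one.indicator hW) (C := 1)
    intro y
    by_cases hy : y ∈ W
    · simp [Set.indicator_of_mem hy]
    · simp [Set.indicator_of_notMem hy]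
  · exact (heatK_integrable' h2t x).const_mul _
  · intro y
    simp only
    by_cases hy : y ∈ W
    · rw [Set.indicator_of_mem hy, Pi.one_apply, mul_one, kern_two ht]
      have h3 : A ^ 2 ≤ ‖x - y‖ ^ 2 := pow_le_pow_left₀ hA (h y hy) 2
      have h4 : Real.exp (-(‖x - y‖ ^ 2 / (8 * t))) ≤ Real.exp (-(A ^ 2 / (8 * t))) := by
        apply Real.exp_le_exp.2
        apply neg_le_neg
        gcongr
      have h5 := heatK_nonneg h2t (x - y)
      gcongr
    · rw [Set.indicator_of_notMem hy, mul_zero]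
      have h5 := heatK_nonneg h2t (x - y)
      positivity

theorem heat_moment : ∃ C : ℝ, 0 < C ∧ ∀ t : ℝ, 0 < t →
    Integrable (fun y : E N => heatK t y * ‖y‖) ∧ ∫ y : E N, heatK t y * ‖y‖ ≤ C * √t := by
  refine ⟨2 ^ ((N : ℝ) / 2) * 2, by positivity, ?_⟩
  intro t ht
  have h2t : 0 < 2 * t := by positivity
  have hle : ∀ y : E N, heatK t y * ‖y‖ ≤ 2 ^ ((N : ℝ) / 2) * 2 * √t * heatK (2 * t) y := by
    intro y
    rw [kern_two ht]
    have h1 := kern_exp ht ‖y‖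
    have h5 := heatK_nonneg h2t y
    have h6 : (0 : ℝ) ≤ 2 ^ ((N : ℝ) / 2) := by positivity
    calc 2 ^ ((N : ℝ) / 2) * Real.exp (-(‖y‖ ^ 2 / (8 * t))) * heatK (2 * t) y * ‖y‖
        = 2 ^ ((N : ℝ) / 2) * (‖y‖ * Real.exp (-(‖y‖ ^ 2 / (8 * t)))) * heatK (2 * t) y := by ring
      _ ≤ 2 ^ ((N : ℝ) / 2) * (2 * √t) * heatK (2 * t) y := by gcongr
      _ = _ := by ring
  have hint : Integrable (fun y : E N => 2 ^ ((N : ℝ) / 2) * 2 * √t * heatK (2 * t) y) :=
    (heatK_integrable h2t).const_mul _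
  have hint2 : Integrable (fun y : E N => heatK t y * ‖y‖) := by
    refine hint.mono' ?_ ?_
    · exact ((heatK_cont (N := N) (t := t)).mul continuous_norm).aestronglyMeasurable
    · refine Eventually.of_forall fun y => ?_
      rw [Real.norm_eq_abs, abs_of_nonneg (mul_nonneg (heatK_nonneg ht y) (norm_nonneg y))]
      exact hle y
  refine ⟨hint2, ?_⟩
  calc ∫ y : E N, heatK t y * ‖y‖ ≤ ∫ y : E N, 2 ^ ((N : ℝ) / 2) * 2 * √t * heatK (2 * t) y :=
        integral_mono hint2 hint hle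
    _ = 2 ^ ((N : ℝ) / 2) * 2 * √t := by rw [integral_const_mul, heatK_int1 h2t, mul_one]

theorem P_lip : ∃ C : ℝ, 0 < C ∧ ∀ (t : ℝ) (g : E N → ℝ) (B : ℝ), 0 < t → Measurable g →
    (∀ y, |g y| ≤ B) → ∀ x x', |P t g x - P t g x'| ≤ C * B * ‖x - x'‖ / √t := by
  refine ⟨1, one_pos, ?_⟩
  intro t g B ht hg hB x x'
  by_cases hxx : x = x'
  · subst hxx
    simp
  have hB0 : 0 ≤ B := (abs_nonneg _).trans (hB x)
  have hh : 0 < ‖x - x'‖ := norm_pos_iff.2 (sub_ne_zero.2 hxx)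
  have hst : 0 < √t := Real.sqrt_pos.2 ht
  have hsq : √t ^ 2 = t := Real.sq_sqrt ht.le
  set lam : ℝ := 4 * √t / ‖x - x'‖ with hlam
  have hl : 0 < lam := by positivity
  set m : E N := (1 / 2 : ℝ) • (x + x') with hm
  set ρ : ℝ := Real.exp (-(‖x - x'‖ ^ 2 / (16 * t))) with hρ
  have hρ0 : 0 ≤ ρ := (Real.exp_pos _).le
  have hρ1 : ρ ≤ 1 := Real.exp_le_one_iff.2 (by
    have : 0 ≤ ‖x - x'‖ ^ 2 / (16 * t) := by positivity
    linarith)
  have hρ2 : 1 - ρ ≤ ‖x - x'‖ ^ 2 / (16 * t) := by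
    have := Real.add_one_le_exp (-(‖x - x'‖ ^ 2 / (16 * t)))
    rw [← hρ] at this
    linarith
  have i1 := heatK_integrable' ht x
  have i2 := heatK_integrable' ht x'
  have i3 := (heatK_integrable' ht m).const_mul ρ
  have hsub : P t g x - P t g x' = ∫ y, (heatK t (x - y) - heatK t (x' - y)) * g y := by
    unfold P
    rw [← integral_sub (P_int ht hg hB x) (P_int ht hg hB x')]
    apply integral_congr_ae
    exact Eventually.of_forall fun y => by simp only; ring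
  have hpt : ∀ y, |(heatK t (x - y) - heatK t (x' - y)) * g y| ≤
      B * (lam / 2 * (heatK t (x - y) + heatK t (x' - y) - 2 * (ρ * heatK t (m - y))) +
        1 / (2 * lam) * (heatK t (x - y) + heatK t (x' - y) + 2 * (ρ * heatK t (m - y)))) := by
    intro y
    rw [abs_mul, mul_comm B]
    have h1 := kern_amgm (heatK_nonneg ht (x - y)) (heatK_nonneg ht (x' - y))
      (mul_nonneg hρ0 (heatK_nonneg ht (m - y))) (kern_mid ht x x' y) hl
    exact mul_le_mul h1 (hB y) (abs_nonneg _) ((abs_nonneg _).trans h1)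
  have hintR : Integrable (fun y => B * (lam / 2 * (heatK t (x - y) + heatK t (x' - y) -
      2 * (ρ * heatK t (m - y))) +
        1 / (2 * lam) * (heatK t (x - y) + heatK t (x' - y) + 2 * (ρ * heatK t (m - y))))) :=
    ((((i1.add i2).sub (i3.const_mul 2)).const_mul _).add
      (((i1.add i2).add (i3.const_mul 2)).const_mul _)).const_mul _
  have hval : ∫ y, B * (lam / 2 * (heatK t (x - y) + heatK t (x' - y) -
      2 * (ρ * heatK t (m - y))) +
        1 / (2 * lam) * (heatK t (x - y) + heatK t (x' - y) + 2 * (ρ * heatK t (m - y))))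
      = B * (lam / 2 * (1 + 1 - 2 * ρ) + 1 / (2 * lam) * (1 + 1 + 2 * ρ)) := by
    have j1 := i1.add i2
    have j3 := i3.const_mul 2
    rw [integral_const_mul, integral_add, integral_const_mul, integral_const_mul, integral_sub,
      integral_add, integral_add, integral_add, integral_const_mul, integral_const_mul,
      heatK_int1' ht, heatK_int1' ht, heatK_int1' ht]
    · ring
    all_goals first
      | exact i1
      | exact i2
      | exact j1
      | exact j3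
      | exact (j1.sub j3).const_mul _
      | exact (j1.add j3).const_mul _
  rw [hsub]
  calc |∫ y, (heatK t (x - y) - heatK t (x' - y)) * g y|
      ≤ ∫ y, |(heatK t (x - y) - heatK t (x' - y)) * g y| := abs_integral_le_integral_abs
    _ ≤ ∫ y, B * (lam / 2 * (heatK t (x - y) + heatK t (x' - y) - 2 * (ρ * heatK t (m - y))) +
        1 / (2 * lam) * (heatK t (x - y) + heatK t (x' - y) + 2 * (ρ * heatK t (m - y)))) := by
        apply integral_mono_of_nonneg (Eventually.of_forall fun y => abs_nonneg _) hintR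
        exact Eventually.of_forall hpt
    _ = B * (lam / 2 * (1 + 1 - 2 * ρ) + 1 / (2 * lam) * (1 + 1 + 2 * ρ)) := hval
    _ ≤ 1 * B * ‖x - x'‖ / √t := by
        have k1 : lam / 2 * (1 + 1 - 2 * ρ) ≤ ‖x - x'‖ / (4 * √t) := by
          have : lam / 2 * (1 + 1 - 2 * ρ) = lam * (1 - ρ) := by ring
          rw [this]
          calc lam * (1 - ρ) ≤ lam * (‖x - x'‖ ^ 2 / (16 * t)) := by gcongr
            _ = ‖x - x'‖ / (4 * √t) := by
              rw [hlam]
              nth_rewrite 2 [← hsq]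
              field_simp
              norm_num
        have k2 : 1 / (2 * lam) * (1 + 1 + 2 * ρ) ≤ ‖x - x'‖ / (2 * √t) := by
          have k3 : 1 / (2 * lam) * (1 + 1 + 2 * ρ) ≤ 1 / (2 * lam) * 4 := by
            gcongr
            linarith
          refine k3.trans (le_of_eq ?_)
          rw [hlam]
          field_simp
        have k4 : lam / 2 * (1 + 1 - 2 * ρ) + 1 / (2 * lam) * (1 + 1 + 2 * ρ)
            ≤ ‖x - x'‖ / √t := by
          have k5 : ‖x - x'‖ / (4 * √t) + ‖x - x'‖ / (2 * √t) = 3 / 4 * (‖x - x'‖ / √t) := by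
            field_simp
            norm_num
          have k6 : 0 ≤ ‖x - x'‖ / √t := by positivity
          linarith
        calc B * (lam / 2 * (1 + 1 - 2 * ρ) + 1 / (2 * lam) * (1 + 1 + 2 * ρ))
            ≤ B * (‖x - x'‖ / √t) := by gcongr
          _ = 1 * B * ‖x - x'‖ / √t := by ring

theorem heat_lower {a b : ℝ} (ha : 0 < a) (hab : a ≤ b) (R : ℝ) : ∃ c : ℝ, 0 < c ∧
    ∀ t ∈ Icc a b, ∀ y : E N, ‖y‖ ≤ R → c ≤ heatK t y := by
  have hb : 0 < b := ha.trans_le hab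
  refine ⟨(4 * π * b) ^ (-((N : ℝ) / 2)) * Real.exp (-(R ^ 2 / (4 * a))), by positivity, ?_⟩
  intro t ht y hy
  have ht0 : 0 < t := ha.trans_le ht.1
  unfold heatK
  have h1 : (4 * π * b) ^ (-((N : ℝ) / 2)) ≤ (4 * π * t) ^ (-((N : ℝ) / 2)) := by
    apply Real.rpow_le_rpow_of_nonpos (by positivity)
    · have := ht.2
      gcongr
    · have : (0 : ℝ) ≤ (N : ℝ) / 2 := by positivity
      linarith
  have h2 : Real.exp (-(R ^ 2 / (4 * a))) ≤ Real.exp (-(‖y‖ ^ 2 / (4 * t))) := by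
    apply Real.exp_le_exp.2
    apply neg_le_neg
    have h3 : ‖y‖ ^ 2 ≤ R ^ 2 := pow_le_pow_left₀ (norm_nonneg y) hy 2
    have h4 := ht.1
    calc ‖y‖ ^ 2 / (4 * t) ≤ R ^ 2 / (4 * t) := by gcongr
      _ ≤ R ^ 2 / (4 * a) := by gcongr
  gcongr

end

end Pool.Agent.AP157
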