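import Pool.Agent.AP157.Defs
import Pool.Agent.X297.KP.Exist

/-!
# The semiflow and the unshifted Duhamel formula

-/

set_option autoImplicit false

open MeasureTheory Real Set Filter Topology
open scoped ENNReal

namespace Pool.Agent.AP157

open Pool.Agent.X297.KP

noncomputable section

variable {N : ℕ} {f : ℝ → ℝ} {M : ℝ} {z : Set (E N) → ℝ → E N → ℝ} {α δ ω : ℝ}

/-- The limit satisfies Duhamel's formula with the factor `M` on both sides. -/
theorem mild_uu_eq (hf : Nl f M)
    {U : E N → ℝ≥0∞} (hU : Measurable U) {t : ℝ} (ht : 0 < t) (x : E N) :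
    uu f M U t x + ∫⁻ s in Ioo 0 t, ∫⁻ y, ENNReal.ofReal (heatK (t - s) (x - y)) *
        (ENNReal.ofReal M * uu f M U s y) =
      (∫⁻ y, ENNReal.ofReal (heatK t (x - y)) * U y) +
      ∫⁻ s in Ioo 0 t, ∫⁻ y, ENNReal.ofReal (heatK (t - s) (x - y)) *
        Gt f M (uu f M U s y) := by
  have hM0 := hf.nn
  set φ : ℝ → E N → ℝ≥0∞ := fun s y => Gt f M (uu f M U s y) with hφd
  have hφ : Measurable (Function.uncurry φ) := (Gt_cont hf).measurable.comp (uu_meas hf hU)
  set Q : ℝ → E N → ℝ≥0∞ := fun t x => ∫⁻ y, ENNReal.ofReal (heatK t (x - y)) *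
    U y with hQ
  have hQm : Measurable (Function.uncurry Q) := meas_conv0 hU
  have hin : ∀ s y, ENNReal.ofReal M * uu f M U s y =
      ENNReal.ofReal (M * Real.exp (-(M * s))) * Q s y +
      ∫⁻ r in Ioo 0 s, ENNReal.ofReal (M * Real.exp (-(M * (s - r)))) *
          ∫⁻ z, ENNReal.ofReal (heatK (s - r) (y - z)) * φ r z := by
    intro s y
    rw [uu_fix hf hU s y]
    have h1 : ENNReal.ofReal M * (∫⁻ r in Ioo 0 s, ENNReal.ofReal (Real.exp (-(M * (s - r)))) *
          ∫⁻ z, ENNReal.ofReal (heatK (s - r) (y - z)) * Gt f M (uu f M U r z)) =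
        ∫⁻ r in Ioo 0 s, ENNReal.ofReal (M * Real.exp (-(M * (s - r)))) *
          ∫⁻ z, ENNReal.ofReal (heatK (s - r) (y - z)) * φ r z := by
      rw [← lintegral_const_mul' _ _ ENNReal.ofReal_ne_top]
      congr 1
      funext r
      rw [ENNReal.ofReal_mul hM0, mul_assoc]
    unfold Phi
    rw [mul_add, h1, ENNReal.ofReal_mul hM0, mul_assoc]
  have e1 : ∫⁻ s in Ioo 0 t, ∫⁻ y, ENNReal.ofReal (heatK (t - s) (x - y)) *
        (ENNReal.ofReal M * uu f M U s y) =
      ENNReal.ofReal (1 - Real.exp (-(M * t))) * Q t x +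
      ∫⁻ r in Ioo 0 t, ENNReal.ofReal (1 - Real.exp (-(M * (t - r)))) *
        ∫⁻ z, ENNReal.ofReal (heatK (t - r) (x - z)) * φ r z := by
    rw [← Pool.Agent.X297.KP.resolvent hφ hM0 x]
    have hc : ∫⁻ s in Ioo 0 t, ENNReal.ofReal (M * Real.exp (-(M * s))) * Q t x =
        ENNReal.ofReal (1 - Real.exp (-(M * t))) * Q t x := by
      rw [lintegral_mul_const _ (by fun_prop),
        lint_ftc' (g := fun s => M * Real.exp (-(M * s)))
          (G := fun s => -Real.exp (-(M * s))) (by fun_prop) ht.le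
          (fun s _ _ => by positivity) (fun s => by
            have := ((((hasDerivAt_id' s).const_mul M).fun_neg).exp).fun_neg
            refine this.congr_deriv ?_
            ring)]
      congr 2
      simp
      ring
    rw [← hc, ← lintegral_add_left (by fun_prop)]
    apply setLIntegral_congr_fun measurableSet_Ioo
    intro s hs
    have hts : 0 < t - s := by linarith [hs.2]
    have a1 : Measurable (fun y : E N => ENNReal.ofReal (heatK (t - s) (x - y))) := by
      have := heatK_cont (N := N) (t := t - s)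
      fun_prop
    have a2 : Measurable (fun y : E N => Q s y) :=
      hQm.comp (f := fun y : E N => (s, y)) (by fun_prop)
    simp only
    simp_rw [hin s, mul_add]
    have a3 : Measurable (fun y : E N => ENNReal.ofReal (heatK (t - s) (x - y)) *
        (ENNReal.ofReal (M * Real.exp (-(M * s))) * Q s y)) := a1.mul (a2.const_mul _)
    rw [lintegral_add_left a3]
    congr 1
    have e2 : ∀ y : E N, ENNReal.ofReal (heatK (t - s) (x - y)) *
        (ENNReal.ofReal (M * Real.exp (-(M * s))) * Q s y) =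
        ENNReal.ofReal (M * Real.exp (-(M * s))) *
        (ENNReal.ofReal (heatK (t - s) (x - y)) * Q s y) := by
      intro y; ring
    simp_rw [e2]
    rw [lintegral_const_mul' _ _ ENNReal.ofReal_ne_top, hQ, conv_conv hU hts hs.1]
    rw [show t - s + s = t by ring]
  rw [e1]
  have e3 : uu f M U t x = ENNReal.ofReal (Real.exp (-(M * t))) * Q t x +
      ∫⁻ s in Ioo 0 t, ENNReal.ofReal (Real.exp (-(M * (t - s)))) *
      ∫⁻ y, ENNReal.ofReal (heatK (t - s) (x - y)) * φ s y := uu_fix hf hU t x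
  rw [e3]
  have hCm : Measurable (fun r => ∫⁻ z, ENNReal.ofReal (heatK (t - r) (x - z)) * φ r z) :=
    (meas_inner hφ).comp (f := fun r : ℝ => ((t, x), r)) (by fun_prop)
  have e4 : (∫⁻ s in Ioo 0 t, ENNReal.ofReal (Real.exp (-(M * (t - s)))) *
      ∫⁻ y, ENNReal.ofReal (heatK (t - s) (x - y)) * φ s y) +
      (∫⁻ r in Ioo 0 t, ENNReal.ofReal (1 - Real.exp (-(M * (t - r)))) *
        ∫⁻ z, ENNReal.ofReal (heatK (t - r) (x - z)) * φ r z) =
      ∫⁻ s in Ioo 0 t, ∫⁻ y, ENNReal.ofReal (heatK (t - s) (x - y)) * φ s y := by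
    have a4 : Measurable (fun s : ℝ => ENNReal.ofReal (Real.exp (-(M * (t - s)))) *
      ∫⁻ y, ENNReal.ofReal (heatK (t - s) (x - y)) * φ s y) := by
      apply Measurable.mul (by fun_prop) hCm
    rw [← lintegral_add_left a4]
    apply setLIntegral_congr_fun measurableSet_Ioo
    intro s hs
    have hts : 0 < t - s := by linarith [hs.2]
    simp only
    rw [← add_mul, ← ENNReal.ofReal_add (by positivity) (by
      have : Real.exp (-(M * (t - s))) ≤ 1 := Real.exp_le_one_iff.mpr (by
        have : 0 ≤ M * (t - s) := by positivity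
        linarith)
      linarith)]
    simp
  have e5 : ENNReal.ofReal (Real.exp (-(M * t))) * Q t x +
      ENNReal.ofReal (1 - Real.exp (-(M * t))) * Q t x = Q t x := by
    rw [← add_mul, ← ENNReal.ofReal_add (by positivity) (by
      have : Real.exp (-(M * t)) ≤ 1 := Real.exp_le_one_iff.mpr (by
        have : 0 ≤ M * t := by positivity
        linarith)
      linarith)]
    simp
  calc _ = (ENNReal.ofReal (Real.exp (-(M * t))) * Q t x +
        ENNReal.ofReal (1 - Real.exp (-(M * t))) * Q t x) +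
        ((∫⁻ s in Ioo 0 t, ENNReal.ofReal (Real.exp (-(M * (t - s)))) *
      ∫⁻ y, ENNReal.ofReal (heatK (t - s) (x - y)) * φ s y) +
      (∫⁻ r in Ioo 0 t, ENNReal.ofReal (1 - Real.exp (-(M * (t - r)))) *
        ∫⁻ z, ENNReal.ofReal (heatK (t - r) (x - z)) * φ r z)) := by ring
    _ = _ := by rw [e5, e4]

/-- Measurability in time of a convolution. -/
theorem mild_sm {h : ℝ → E N → ℝ} (hh : Measurable (Function.uncurry h)) (t : ℝ) (x : E N) :
    StronglyMeasurable (fun s => P (t - s) (h s) x) := by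
  apply StronglyMeasurable.integral_prod_right
    (f := fun s y => heatK (t - s) (x - y) * h s y)
  apply Measurable.stronglyMeasurable
  apply Measurable.mul
  · exact heatK_meas.comp (f := fun q : ℝ × E N => (t - q.1, x - q.2)) (by fun_prop)
  · exact hh

theorem mild_slice {h : ℝ → E N → ℝ} (hh : Measurable (Function.uncurry h)) (s : ℝ) :
    Measurable (h s) :=
  hh.comp (f := fun y : E N => (s, y)) (by fun_prop)

theorem mild_int {h : ℝ → E N → ℝ} (hh : Measurable (Function.uncurry h)) {C : ℝ}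
    (hC : ∀ s y, |h s y| ≤ C) {t : ℝ} (ht : 0 < t) (x : E N) :
    IntervalIntegrable (fun s => P (t - s) (h s) x) volume 0 t := by
  rw [intervalIntegrable_iff_integrableOn_Ioo_of_le ht.le]
  apply Measure.integrableOn_of_bounded (M := C) (by simp)
  · exact (mild_sm hh t x).aestronglyMeasurable
  · filter_upwards [ae_restrict_mem measurableSet_Ioo] with s hs
    have hts : 0 < t - s := by linarith [hs.2]
    rw [Real.norm_eq_abs]
    exact P_abs_le hts (mild_slice hh s) (hC s) x

theorem mild_ofReal {h : ℝ → E N → ℝ} (hh : Measurable (Function.uncurry h)) {C : ℝ}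
    (h0 : ∀ s y, 0 ≤ h s y) (hC : ∀ s y, h s y ≤ C) {t : ℝ} (ht : 0 < t) (x : E N) :
    ENNReal.ofReal (∫ s in (0:ℝ)..t, P (t - s) (h s) x) =
      ∫⁻ s in Ioo 0 t, ∫⁻ y, ENNReal.ofReal (heatK (t - s) (x - y)) * ENNReal.ofReal (h s y) := by
  have hC' : ∀ s y, |h s y| ≤ C := fun s y => by rw [abs_of_nonneg (h0 s y)]; exact hC s y
  have hi := mild_int hh hC' ht x
  rw [intervalIntegrable_iff_integrableOn_Ioo_of_le ht.le] at hi
  rw [intervalIntegral.integral_of_le ht.le, integral_Ioc_eq_integral_Ioo,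
    ofReal_integral_eq_lintegral_ofReal hi]
  · apply setLIntegral_congr_fun measurableSet_Ioo
    intro s hs
    have hts : 0 < t - s := by linarith [hs.2]
    exact P_ofReal hts (mild_slice hh s) (h0 s) (hC s) x
  · filter_upwards [ae_restrict_mem measurableSet_Ioo] with s hs
    have hts : 0 < t - s := by linarith [hs.2]
    exact P_nonneg hts (h0 s) x

theorem mild_nonneg {h : ℝ → E N → ℝ} (h0 : ∀ s y, 0 ≤ h s y) {t : ℝ} (ht : 0 < t) (x : E N) :
    0 ≤ ∫ s in (0:ℝ)..t, P (t - s) (h s) x := by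
  rw [intervalIntegral.integral_of_le ht.le, integral_Ioc_eq_integral_Ioo]
  apply setIntegral_nonneg measurableSet_Ioo
  intro s hs
  have hts : 0 < t - s := by linarith [hs.2]
  exact P_nonneg hts (h0 s) x

theorem mild_congr {F H : ℝ → ℝ} {t : ℝ} (ht : 0 < t) (h : ∀ s, 0 < s → s < t → F s = H s) :
    ∫ s in (0:ℝ)..t, F s = ∫ s in (0:ℝ)..t, H s := by
  apply intervalIntegral.integral_congr_ae
  have hne : ∀ᵐ s : ℝ, s ≠ t := by
    simp [ae_iff]
  filter_upwards [hne] with s hst hs
  rw [uIoc_of_le ht.le] at hs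
  exact h s hs.1 (lt_of_le_of_ne hs.2 hst)

/-- The semiflow solves the unshifted equation, real version with `M` on both sides. -/
theorem mild_S_eq (hf : Nl f M) {g : E N → ℝ} (hg : Dat g) {t : ℝ} (ht : 0 < t) (x : E N) :
    S f M t g x + ∫ s in (0:ℝ)..t, P (t - s) (fun y => M * S f M s g y) x =
      P t g x + ∫ s in (0:ℝ)..t, P (t - s) (fun y => Fe f M (S f M s g y)) x := by
  have hM0 := hf.nn
  have hSm := S_meas hf hg
  have hm1 : Measurable (Function.uncurry (fun s y => M * S f M s g y)) := hSm.const_mul M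
  have hm2 : Measurable (Function.uncurry (fun s y => Fe f M (S f M s g y))) :=
    (Fe_cont hf).measurable.comp hSm
  have h1 : ∀ s y, 0 ≤ M * S f M s g y := fun s y => mul_nonneg hM0 (S_mem hf hg s y).1
  have h1' : ∀ s y, M * S f M s g y ≤ M := fun s y =>
    mul_le_of_le_one_right hM0 (S_mem hf hg s y).2
  have h2 : ∀ s y, 0 ≤ Fe f M (S f M s g y) := fun s y => Fe_nonneg hf _
  have h2' : ∀ s y, Fe f M (S f M s g y) ≤ M := fun s y => Fe_le hf _
  have e1 := mild_ofReal hm1 h1 h1' ht x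
  have e2 := mild_ofReal hm2 h2 h2' ht x
  have n1 := mild_nonneg h1 ht x
  have n2 := mild_nonneg h2 ht x
  have n3 : 0 ≤ P t g x := P_nonneg ht (fun y => (hg.mem y).1) x
  have n4 := (S_mem hf hg t x).1
  have key := mild_uu_eq hf (ofR_meas hg) ht x
  rw [← ofR_S hf hg ht x] at key
  have k1 : ∫⁻ s in Ioo 0 t, ∫⁻ y, ENNReal.ofReal (heatK (t - s) (x - y)) *
        (ENNReal.ofReal M * uu f M (fun y => ENNReal.ofReal (g y)) s y) =
      ∫⁻ s in Ioo 0 t, ∫⁻ y, ENNReal.ofReal (heatK (t - s) (x - y)) *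
        ENNReal.ofReal (M * S f M s g y) := by
    apply setLIntegral_congr_fun measurableSet_Ioo
    intro s hs
    simp only
    apply lintegral_congr
    intro y
    rw [ENNReal.ofReal_mul hM0, ofR_S hf hg hs.1 y]
  have k2 : ∫⁻ s in Ioo 0 t, ∫⁻ y, ENNReal.ofReal (heatK (t - s) (x - y)) *
        Gt f M (uu f M (fun y => ENNReal.ofReal (g y)) s y) =
      ∫⁻ s in Ioo 0 t, ∫⁻ y, ENNReal.ofReal (heatK (t - s) (x - y)) *
        ENNReal.ofReal (Fe f M (S f M s g y)) := by
    apply setLIntegral_congr_fun measurableSet_Ioo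
    intro s hs
    simp only
    apply lintegral_congr
    intro y
    congr 1
    unfold Gt
    rw [← ofR_S hf hg hs.1]
    have hc : cl (ENNReal.ofReal (S f M s g y)) = S f M s g y := by
      unfold cl
      rw [min_eq_left (by rw [ENNReal.ofReal_le_one]; exact (S_mem hf hg s y).2),
        ENNReal.toReal_ofReal (S_mem hf hg s y).1]
    rw [hc, Fe_eq (S_mem hf hg s y)]
  rw [k1, k2, ← e1, ← e2, ← P_ofReal ht hg.meas (fun y => (hg.mem y).1) (fun y => (hg.mem y).2),
    ← ENNReal.ofReal_add n4 n1, ← ENNReal.ofReal_add n3 n2] at key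
  have := congrArg ENNReal.toReal key
  rwa [ENNReal.toReal_ofReal (add_nonneg n4 n1), ENNReal.toReal_ofReal (add_nonneg n3 n2)] at this

/-- The nonlinearity, extended continuously. -/
def mild_e (f : ℝ → ℝ) (a : ℝ) : ℝ := f (max 0 (min 1 a))

theorem mild_e_eq {a : ℝ} (ha : a ∈ Icc (0:ℝ) 1) : mild_e f a = f a := by
  unfold mild_e
  rw [clamp_eq ha]

theorem mild_e_cont (hf : Nl f M) : Continuous (mild_e f) :=
  hf.cont.comp_continuous (by fun_prop) clamp_mem

theorem mild_e_abs (hf : Nl f M) (a : ℝ) : |mild_e f a| ≤ M := by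
  have h := hf.lip _ (clamp_mem a) 0 ⟨le_rfl, zero_le_one⟩
  rw [hf.zero, sub_zero, sub_zero, abs_of_nonneg (clamp_mem a).1] at h
  unfold mild_e
  have h2 := mul_le_of_le_one_right hf.nn (clamp_mem a).2
  linarith

/-- `u` is a mild solution of `∂_t u = Δu + f(u)` with datum `g`, and values in `[0,1]`. -/
structure Sol (f : ℝ → ℝ) (g : E N → ℝ) (u : ℝ → E N → ℝ) : Prop where
  meas : Measurable (Function.uncurry u)
  mem : ∀ t, 0 < t → ∀ x, u t x ∈ Icc (0:ℝ) 1
  duhamel : ∀ t, 0 < t → ∀ x, u t x = (∫ y, heatK t (x - y) * g y) +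
    ∫ s in (0:ℝ)..t, ∫ y, heatK (t - s) (x - y) * f (u s y)

theorem S_sol (hf : Nl f M) {g : E N → ℝ} (hg : Dat g) : Sol f g (fun t => S f M t g) := by
  refine ⟨S_meas hf hg, fun t _ x => S_mem hf hg t x, ?_⟩
  intro t ht x
  have hM0 := hf.nn
  have hSm := S_meas hf hg
  have hm1 : Measurable (Function.uncurry (fun s y => M * S f M s g y)) := hSm.const_mul M
  have hm2 : Measurable (Function.uncurry (fun s y => Fe f M (S f M s g y))) :=
    (Fe_cont hf).measurable.comp hSm
  have b1 : ∀ s y, |M * S f M s g y| ≤ M := fun s y => by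
    rw [abs_of_nonneg (mul_nonneg hM0 (S_mem hf hg s y).1)]
    exact mul_le_of_le_one_right hM0 (S_mem hf hg s y).2
  have b2 : ∀ s y, |Fe f M (S f M s g y)| ≤ M := fun s y => Fe_abs hf _
  have e3 : ∫ s in (0:ℝ)..t, ∫ y, heatK (t - s) (x - y) * f (S f M s g y) =
      (∫ s in (0:ℝ)..t, P (t - s) (fun y => Fe f M (S f M s g y)) x) -
      ∫ s in (0:ℝ)..t, P (t - s) (fun y => M * S f M s g y) x := by
    rw [← intervalIntegral.integral_sub (mild_int hm2 b2 ht x) (mild_int hm1 b1 ht x)]
    apply mild_congr ht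
    intro s hs0 hst
    have hts : 0 < t - s := by linarith
    rw [← P_sub hts (mild_slice hm2 s) (mild_slice hm1 s) (b2 s) (b1 s)]
    unfold P
    congr 1
    funext y
    show heatK (t - s) (x - y) * f (S f M s g y) =
      heatK (t - s) (x - y) * (Fe f M (S f M s g y) - M * S f M s g y)
    rw [Fe_eq (S_mem hf hg s y)]
    ring
  have key := mild_S_eq hf hg ht x
  show S f M t g x = P t g x + ∫ s in (0:ℝ)..t, ∫ y, heatK (t - s) (x - y) * f (S f M s g y)
  rw [e3]
  linarith

/-- Duhamel's formula with the extended nonlinearity. -/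
theorem mild_duh {g : E N → ℝ} {u : ℝ → E N → ℝ} (hu : Sol f g u)
    {t : ℝ} (ht : 0 < t) (x : E N) :
    u t x = P t g x + ∫ s in (0:ℝ)..t, P (t - s) (fun y => mild_e f (u s y)) x := by
  rw [hu.duhamel t ht x]
  unfold P
  congr 1
  apply mild_congr ht
  intro s hs0 _
  congr 1
  funext y
  show heatK (t - s) (x - y) * f (u s y) = heatK (t - s) (x - y) * mild_e f (u s y)
  rw [mild_e_eq (hu.mem s hs0 y)]

theorem sol_eq (hf : Nl f M) {g : E N → ℝ} (hg : Dat g) {u : ℝ → E N → ℝ} (hu : Sol f g u)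
    {t : ℝ} (ht : 0 < t) (x : E N) : u t x = S f M t g x := by
  have hM0 := hf.nn
  have hS := S_sol hf hg
  set v : ℝ → E N → ℝ := fun t => S f M t g with hv
  have hmu : Measurable (Function.uncurry (fun s y => mild_e f (u s y))) :=
    (mild_e_cont hf).measurable.comp hu.meas
  have hmv : Measurable (Function.uncurry (fun s y => mild_e f (v s y))) :=
    (mild_e_cont hf).measurable.comp hS.meas
  have bu : ∀ s y, |mild_e f (u s y)| ≤ M := fun s y => mild_e_abs hf _
  have bv : ∀ s y, |mild_e f (v s y)| ≤ M := fun s y => mild_e_abs hf _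
  have h : ∀ t, 0 < t → ∀ x, ‖u t x - v t x‖ₑ ≤
      (∫⁻ y, ENNReal.ofReal (heatK t (x - y)) * (fun _ : E N => (0 : ℝ≥0∞)) y) +
      ∫⁻ s in Ioo 0 t, ∫⁻ y, ENNReal.ofReal (heatK (t - s) (x - y)) *
        (ENNReal.ofReal M * ‖u s y - v s y‖ₑ) := by
    intro t ht x
    have e1 : u t x - v t x =
        ∫ s in (0:ℝ)..t, ∫ y, heatK (t - s) (x - y) * (mild_e f (u s y) - mild_e f (v s y)) := by
      rw [mild_duh hu ht x, mild_duh hS ht x, add_sub_add_left_eq_sub,
        ← intervalIntegral.integral_sub (mild_int hmu bu ht x) (mild_int hmv bv ht x)]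
      apply mild_congr ht
      intro s hs0 hst
      have hts : 0 < t - s := by linarith
      rw [← P_sub hts (mild_slice hmu s) (mild_slice hmv s) (bu s) (bv s)]
      rfl
    rw [e1]
    simp only [mul_zero, lintegral_zero, zero_add]
    rw [intervalIntegral.integral_of_le ht.le, integral_Ioc_eq_integral_Ioo]
    refine (enorm_integral_le_lintegral_enorm _).trans ?_
    apply setLIntegral_mono' measurableSet_Ioo
    intro s hs
    have hts : 0 < t - s := by linarith [hs.2]
    refine (enorm_integral_le_lintegral_enorm _).trans ?_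
    apply lintegral_mono
    intro y
    simp only
    rw [enorm_mul, Real.enorm_eq_ofReal (heatK_nonneg hts _)]
    gcongr
    rw [mild_e_eq (hu.mem s hs.1 _), mild_e_eq (hS.mem s hs.1 _)]
    have := hf.lip _ (hu.mem s hs.1 y) _ (hS.mem s hs.1 y)
    rw [← Real.enorm_eq_ofReal hM0, ← enorm_mul]
    rw [← ofReal_norm, ← ofReal_norm]
    apply ENNReal.ofReal_le_ofReal
    rw [norm_mul, Real.norm_eq_abs, Real.norm_eq_abs, Real.norm_eq_abs, abs_of_nonneg hM0]
    exact this
  have h1 := gronwall (d := fun t x => ‖u t x - v t x‖ₑ) (by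
    intro t ht x
    rw [← ofReal_norm, ← ENNReal.ofReal_one]
    apply ENNReal.ofReal_le_ofReal
    rw [Real.norm_eq_abs, abs_le]
    have h1 := hu.mem t ht x
    have h2 := hS.mem t ht x
    constructor <;> linarith [h1.1, h1.2, h2.1, h2.2]) measurable_const hM0 h t ht x
  simp only [mul_zero, lintegral_zero, nonpos_iff_eq_zero, enorm_eq_zero] at h1
  exact sub_eq_zero.mp h1

theorem S_le_P (hf : Nl f M) {g : E N → ℝ} (hg : Dat g) {a : ℝ} (h0 : ∀ q ∈ Icc (0:ℝ) a, f q ≤ 0)
    {t : ℝ} (ht : 0 < t) (h : ∀ s, 0 < s → s ≤ t → ∀ y, S f M s g y ≤ a) (x : E N) :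
    S f M t g x ≤ P t g x := by
  have h1 := (S_sol hf hg).duhamel t ht x
  have h2 : ∫ s in (0:ℝ)..t, ∫ y, heatK (t - s) (x - y) * f (S f M s g y) ≤ 0 := by
    rw [intervalIntegral.integral_of_le ht.le, integral_Ioc_eq_integral_Ioo]
    apply setIntegral_nonpos measurableSet_Ioo
    intro s hs
    have hts : 0 < t - s := by linarith [hs.2]
    apply integral_nonpos
    intro y
    exact mul_nonpos_of_nonneg_of_nonpos (heatK_nonneg hts _)
      (h0 _ ⟨(S_mem hf hg s y).1, h s hs.1 hs.2.le y⟩)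
  have h3 : (∫ y, heatK t (x - y) * g y) = P t g x := rfl
  rw [h3] at h1
  linarith

end

end Pool.Agent.AP157
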