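import Pool.Agent.AP157.Prob
import Pool.Agent.AP157.Mild
import Pool.Agent.AP157.Kern

/-!
# A classical solution is the solution given by the semiflow

Integration by parts against the heat kernel with a cut-off gives Duhamel's formula on `[a,b]`,
`0 < a < b < t`; then `b → t` (continuity) and `a → 0` (convergence in `L¹_loc`, Gaussian tails).
-/

set_option autoImplicit false

open MeasureTheory Real Set Filter Topology
open scoped ENNReal

namespace Pool.Agent.AP157

open Pool.Agent.X297.KP

noncomputable section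

variable {N : ℕ} {f : ℝ → ℝ} {M : ℝ}

/-- pure second derivative in the direction `v` -/
def class_D2 (v : E N) (g : E N → ℝ) (y : E N) : ℝ :=
  fderiv ℝ (fun z => fderiv ℝ g z v) y v

/-- the sum of the pure second derivatives in the coordinate directions -/
def class_lap (g : E N → ℝ) (y : E N) : ℝ :=
  ∑ i, class_D2 (EuclideanSpace.basisFun (Fin N) ℝ i) g y

theorem class_D2_eq {g : E N → ℝ} (hg : ContDiff ℝ 2 g) (v : E N) (y : E N) :
    class_D2 v g y = iteratedFDeriv ℝ 2 g y ![v, v] := by
  rw [iteratedFDeriv_two_apply]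
  unfold class_D2
  have h1 : DifferentiableAt ℝ (fderiv ℝ g) y :=
    (hg.fderiv_right (m := 1) (by norm_num)).differentiable (by norm_num) y
  have h := (h1.hasFDerivAt).clm_apply (hasFDerivAt_const v y)
  rw [h.fderiv]
  simp

theorem class_lap_eq {g : E N → ℝ} (hg : ContDiff ℝ 2 g) (y : E N) :
    class_lap g y = (Laplacian.laplacian g : E N → ℝ) y := by
  rw [InnerProductSpace.laplacian_eq_iteratedFDeriv_orthonormalBasis g
    (EuclideanSpace.basisFun (Fin N) ℝ)]
  unfold class_lap
  exact Finset.sum_congr rfl fun i _ => class_D2_eq hg _ y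

theorem class_D_cd {g : E N → ℝ} (hg : ContDiff ℝ 2 g) (v : E N) :
    ContDiff ℝ 1 (fun z => fderiv ℝ g z v) :=
  (hg.fderiv_right (m := 1) (by norm_num)).clm_apply contDiff_const

theorem class_D2_cont {g : E N → ℝ} (hg : ContDiff ℝ 2 g) (v : E N) :
    Continuous (class_D2 v g) := by
  have := (class_D_cd hg v).continuous_fderiv (by norm_num)
  unfold class_D2
  fun_prop

theorem class_lap_cont {g : E N → ℝ} (hg : ContDiff ℝ 2 g) : Continuous (class_lap g) := by
  unfold class_lap
  exact continuous_finsetSum _ fun i _ => class_D2_cont hg _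

theorem class_D_supp {g : E N → ℝ} (hg : HasCompactSupport g) (v : E N) :
    HasCompactSupport (fun z => fderiv ℝ g z v) := hg.fderiv_apply ℝ v

theorem class_D2_supp {g : E N → ℝ} (hg : HasCompactSupport g) (v : E N) :
    HasCompactSupport (class_D2 v g) := class_D_supp (class_D_supp hg v) v

/-- integration by parts -/
theorem class_ibp2 {ψ w : E N → ℝ} (hψ : ContDiff ℝ 2 ψ) (hc : HasCompactSupport ψ)
    (hw : ContDiff ℝ 2 w) (v : E N) :
    ∫ y, ψ y * class_D2 v w y = ∫ y, class_D2 v ψ y * w y := by
  have c1 := (class_D_cd hψ v)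
  have c2 := (class_D_cd hw v)
  have s1 := class_D_supp hc v
  have s2 := class_D2_supp hc v
  have d1 := class_D2_cont hψ v
  have d2 := class_D2_cont hw v
  have e1 : ∫ y, ψ y * fderiv ℝ (fun z => fderiv ℝ w z v) y v =
      -∫ y, fderiv ℝ ψ y v * (fun z => fderiv ℝ w z v) y := by
    apply integral_mul_fderiv_eq_neg_fderiv_mul_of_integrable
    · exact (c1.continuous.mul c2.continuous).integrable_of_hasCompactSupport s1.mul_right
    · exact (hψ.continuous.mul d2).integrable_of_hasCompactSupport hc.mul_right
    · exact (hψ.continuous.mul c2.continuous).integrable_of_hasCompactSupport hc.mul_right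
    · exact fun y _ => hψ.differentiable (by norm_num) y
    · exact fun y _ => c2.differentiable (by norm_num) y
  have e2 : ∫ y, (fun z => fderiv ℝ ψ z v) y * fderiv ℝ w y v =
      -∫ y, fderiv ℝ (fun z => fderiv ℝ ψ z v) y v * w y := by
    apply integral_mul_fderiv_eq_neg_fderiv_mul_of_integrable
    · exact (d1.mul hw.continuous).integrable_of_hasCompactSupport s2.mul_right
    · exact (c1.continuous.mul c2.continuous).integrable_of_hasCompactSupport s1.mul_right
    · exact (c1.continuous.mul hw.continuous).integrable_of_hasCompactSupport s1.mul_right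
    · exact fun y _ => c1.differentiable (by norm_num) y
    · exact fun y _ => hw.differentiable (by norm_num) y
  unfold class_D2
  rw [e1, e2, neg_neg]

theorem class_ibp {ψ w : E N → ℝ} (hψ : ContDiff ℝ 2 ψ) (hc : HasCompactSupport ψ)
    (hw : ContDiff ℝ 2 w) :
    ∫ y, ψ y * class_lap w y = ∫ y, class_lap ψ y * w y := by
  unfold class_lap
  simp only [Finset.mul_sum, Finset.sum_mul]
  rw [integral_finsetSum, integral_finsetSum]
  · exact Finset.sum_congr rfl fun i _ => class_ibp2 hψ hc hw _
  · intro i _
    exact ((class_D2_cont hψ _).mul hw.continuous).integrable_of_hasCompactSupport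
      (class_D2_supp hc _).mul_right
  · intro i _
    exact (hψ.continuous.mul (class_D2_cont hw _)).integrable_of_hasCompactSupport hc.mul_right

/-- product rule -/
theorem class_D2_mul {g k : E N → ℝ} (hg : ContDiff ℝ 2 g) (hk : ContDiff ℝ 2 k) (v y : E N) :
    class_D2 v (fun z => g z * k z) y = class_D2 v g y * k y +
      2 * (fderiv ℝ g y v * fderiv ℝ k y v) + g y * class_D2 v k y := by
  have dg : Differentiable ℝ g := hg.differentiable (by norm_num)
  have dk : Differentiable ℝ k := hk.differentiable (by norm_num)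
  have dg' : Differentiable ℝ (fun z => fderiv ℝ g z v) :=
    (class_D_cd hg v).differentiable (by norm_num)
  have dk' : Differentiable ℝ (fun z => fderiv ℝ k z v) :=
    (class_D_cd hk v).differentiable (by norm_num)
  have e : (fun z => fderiv ℝ (fun z => g z * k z) z v) =
      fun z => g z * fderiv ℝ k z v + k z * fderiv ℝ g z v := by
    funext z
    rw [fderiv_fun_mul (dg z) (dk z)]
    simp
  unfold class_D2
  rw [e, fderiv_fun_add ((dg y).fun_mul (dk' y)) ((dk y).fun_mul (dg' y)),
    fderiv_fun_mul (dg y) (dk' y), fderiv_fun_mul (dk y) (dg' y)]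
  simp
  ring

/-- gradient of the heat kernel -/
theorem class_heat_fd (s : ℝ) (x y : E N) :
    HasFDerivAt (fun z : E N => heatK s (x - z)) ((heatK s (x - y) / (2 * s)) • innerSL ℝ (x - y))
      y := by
  unfold heatK
  have h1 : HasFDerivAt (fun z : E N => x - z) (-ContinuousLinearMap.id ℝ (E N)) y :=
    (hasFDerivAt_id y).const_sub x
  have h2 := (((h1.norm_sq).mul_const (1 / (4 * s))).fun_neg).exp.const_mul
    ((4 * π * s) ^ (-((N : ℝ) / 2)))
  have e : (fun z : E N => (4 * π * s) ^ (-((N : ℝ) / 2)) * rexp (-(‖x - z‖ ^ 2 / (4 * s)))) =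
      fun z => (4 * π * s) ^ (-((N : ℝ) / 2)) * rexp (-(‖x - z‖ ^ 2 * (1 / (4 * s)))) := by
    funext z
    rw [mul_one_div]
  rw [e]
  refine h2.congr_fderiv ?_
  ext v
  simp
  ring_nf

theorem class_heat_fd' (s : ℝ) (x y v : E N) :
    fderiv ℝ (fun z : E N => heatK s (x - z)) y v = heatK s (x - y) / (2 * s) * inner ℝ (x - y) v := by
  rw [(class_heat_fd s x y).fderiv]
  rfl

theorem class_heat_cd (s : ℝ) (x : E N) : ContDiff ℝ 2 (fun z : E N => heatK s (x - z)) := by
  unfold heatK
  have h1 : ContDiff ℝ 2 (fun z : E N => x - z) := contDiff_const.sub contDiff_id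
  have h2 : ContDiff ℝ 2 (fun z : E N => ‖x - z‖ ^ 2) := h1.norm_sq ℝ
  exact contDiff_const.mul ((h2.div_const _).neg.exp)

theorem class_heat_D2 (s : ℝ) (x y v : E N) :
    class_D2 v (fun z : E N => heatK s (x - z)) y = heatK s (x - y) *
      ((inner ℝ (x - y) v) ^ 2 / (2 * s) ^ 2 - ‖v‖ ^ 2 / (2 * s)) := by
  unfold class_D2
  simp only [class_heat_fd']
  have h1 : HasFDerivAt (fun z : E N => x - z) (-ContinuousLinearMap.id ℝ (E N)) y :=
    (hasFDerivAt_id y).const_sub x
  have h2 : HasFDerivAt (fun z : E N => inner ℝ (x - z) v) 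
      ((innerSL ℝ v).comp (-ContinuousLinearMap.id ℝ (E N))) y := by
    have := (innerSL ℝ v).hasFDerivAt.comp y h1
    refine this.congr_of_eventuallyEq (Eventually.of_forall fun z => ?_)
    simp [real_inner_comm]
  have h3 := ((class_heat_fd s x y).mul_const' (1 / (2 * s))).fun_mul h2
  have e : (fun z : E N => heatK s (x - z) / (2 * s) * inner ℝ (x - z) v) =
      fun z => heatK s (x - z) * (1 / (2 * s)) * inner ℝ (x - z) v := by
    funext z
    ring
  rw [e, h3.fderiv]
  simp [inner_sub_left]
  ring

theorem class_heat_lap {s : ℝ} (x y : E N) :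
    class_lap (fun z : E N => heatK s (x - z)) y = heatK s (x - y) *
      (‖x - y‖ ^ 2 / (4 * s ^ 2) - N / (2 * s)) := by
  unfold class_lap
  simp only [class_heat_D2]
  rw [← Finset.mul_sum, Finset.sum_sub_distrib, ← Finset.sum_div,
    (EuclideanSpace.basisFun (Fin N) ℝ).sum_sq_inner_left]
  simp
  ring_nf
  simp

/-- time derivative of the heat kernel -/
theorem class_heat_dt {s : ℝ} (hs : 0 < s) (z : E N) :
    HasDerivAt (fun s => heatK s z) (heatK s z * (‖z‖ ^ 2 / (4 * s ^ 2) - N / (2 * s))) s := by
  unfold heatK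
  have h1 : HasDerivAt (fun s : ℝ => (4 * π * s) ^ (-((N : ℝ) / 2)))
      ((4 * π) * (-((N : ℝ) / 2)) * (4 * π * s) ^ (-((N : ℝ) / 2) - 1)) s := by
    have := ((hasDerivAt_id' s).const_mul (4 * π)).rpow_const (p := -((N : ℝ) / 2))
      (Or.inl (by positivity))
    simpa using this
  have h2 : HasDerivAt (fun s : ℝ => -(‖z‖ ^ 2 / (4 * s))) (‖z‖ ^ 2 / (4 * s ^ 2)) s := by
    have := ((hasDerivAt_const s (‖z‖ ^ 2)).fun_div ((hasDerivAt_id' s).const_mul 4)
      (by positivity)).fun_neg
    refine this.congr_deriv ?_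
    field_simp
    ring
  have h3 := h1.fun_mul h2.exp
  refine h3.congr_deriv ?_
  rw [Real.rpow_sub_one (by positivity)]
  field_simp
  ring

theorem class_chi_lap {χ : E N → ℝ} (hχ : ContDiff ℝ 2 χ) (s : ℝ) (x y : E N) :
    class_lap (fun z : E N => χ z * heatK s (x - z)) y = class_lap χ y * heatK s (x - y) +
      heatK s (x - y) / s * fderiv ℝ χ y (x - y) +
      χ y * (heatK s (x - y) * (‖x - y‖ ^ 2 / (4 * s ^ 2) - N / (2 * s))) := by
  rw [← class_heat_lap]
  unfold class_lap
  simp only [class_D2_mul hχ (class_heat_cd s x), class_heat_fd', Finset.sum_add_distrib,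
    ← Finset.mul_sum, ← Finset.sum_mul]
  congr 2
  have e : fderiv ℝ χ y (x - y) = ∑ i, fderiv ℝ χ y (EuclideanSpace.basisFun (Fin N) ℝ i) *
      inner ℝ (x - y) (EuclideanSpace.basisFun (Fin N) ℝ i) := by
    conv_lhs => rw [← (EuclideanSpace.basisFun (Fin N) ℝ).sum_repr' (x - y)]
    rw [map_sum]
    refine Finset.sum_congr rfl fun i _ => ?_
    rw [map_smul, smul_eq_mul, real_inner_comm, mul_comm]
  rw [e, Finset.mul_sum, Finset.mul_sum]
  refine Finset.sum_congr rfl fun i _ => ?_
  ring

theorem class_heat_contOn (t : ℝ) (x : E N) :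
    ContinuousOn (fun p : ℝ × E N => heatK (t - p.1) (x - p.2)) (Iio t ×ˢ univ) := by
  unfold heatK
  apply ContinuousOn.mul
  · apply ContinuousOn.rpow_const (by fun_prop)
    intro p hp
    left
    have : 0 < t - p.1 := by
      have := hp.1
      simp only [mem_Iio] at this
      linarith
    positivity
  · apply ContinuousOn.rexp
    apply ContinuousOn.neg
    apply ContinuousOn.div (by fun_prop) (by fun_prop)
    intro p hp
    have : 0 < t - p.1 := by
      have := hp.1
      simp only [mem_Iio] at this
      linarith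
    positivity

section flow
variable {U : Set (E N)} {u : ℝ → E N → ℝ}

/-- the time derivative of the integrand -/
def class_g (u : ℝ → E N → ℝ) (χ : E N → ℝ) (t : ℝ) (x : E N) (r : ℝ) (y : E N) : ℝ :=
  χ y * (heatK (t - r) (x - y) * (deriv (fun s => u s y) r
    - (‖x - y‖ ^ 2 / (4 * (t - r) ^ 2) - N / (2 * (t - r))) * u r y))

/-- the integrand after integration by parts -/
def class_h (f : ℝ → ℝ) (u : ℝ → E N → ℝ) (χ : E N → ℝ) (t : ℝ) (x : E N) (r : ℝ) (y : E N) : ℝ :=
  χ y * heatK (t - r) (x - y) * f (u r y) + (class_lap χ y * heatK (t - r) (x - y) +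
      heatK (t - r) (x - y) / (t - r) * fderiv ℝ χ y (x - y)) * u r y

theorem class_g_cont (hu : Classical f U u) {χ : E N → ℝ} (hχ : Continuous χ) (t : ℝ) (x : E N) :
    ContinuousOn (Function.uncurry (class_g u χ t x)) (Ioo 0 t ×ˢ univ) := by
  have h1 : (Ioo 0 t ×ˢ univ : Set (ℝ × E N)) ⊆ Iio t ×ˢ univ :=
    prod_mono (fun r hr => hr.2) subset_rfl
  have h2 : (Ioo 0 t ×ˢ univ : Set (ℝ × E N)) ⊆ Ioi 0 ×ˢ univ :=
    prod_mono (fun r hr => hr.1) subset_rfl
  have hne : ∀ p ∈ (Ioo 0 t ×ˢ univ : Set (ℝ × E N)), t - p.1 ≠ 0 := fun p hp => by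
    have := hp.1.2
    exact (by linarith : 0 < t - p.1).ne'
  unfold class_g Function.uncurry
  refine ContinuousOn.mul (by fun_prop) (((class_heat_contOn t x).mono h1).mul
    ((hu.cont_t.mono h2).sub (ContinuousOn.mul ?_ (hu.cont.mono h2))))
  apply ContinuousOn.sub
  · apply ContinuousOn.div (by fun_prop) (by fun_prop)
    intro p hp
    have := hne p hp
    positivity
  · apply ContinuousOn.div (by fun_prop) (by fun_prop)
    intro p hp
    have := hne p hp
    positivity

theorem class_hasDeriv (hu : Classical f U u) (χ : E N → ℝ) {t : ℝ} (x : E N) {r : ℝ}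
    (hr : r ∈ Ioo 0 t) (y : E N) :
    HasDerivAt (fun r => χ y * heatK (t - r) (x - y) * u r y) (class_g u χ t x r y) r := by
  have h1 : HasDerivAt (fun s => heatK s (x - y)) _ (t - r) :=
    class_heat_dt (by linarith [hr.2]) (x - y)
  have h2 := (h1.comp_const_sub t r).const_mul (χ y)
  have h3 := h2.fun_mul (hu.diff_t r hr.1 y).hasDerivAt
  refine h3.congr_deriv ?_
  unfold class_g
  ring

theorem class_u_cont (hu : Classical f U u) {r : ℝ} (hr : 0 < r) : Continuous (u r) :=
  (hu.diff_x r hr).continuous

theorem class_fu_cont (hf : Nl f M) (hu : Classical f U u) {r : ℝ} (hr : 0 < r) :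
    Continuous (fun y => f (u r y)) :=
  hf.cont.comp_continuous (class_u_cont hu hr) (hu.mem r hr)

theorem class_int_eq (hf : Nl f M) (hu : Classical f U u) {χ : E N → ℝ} (hχ : ContDiff ℝ 2 χ)
    (hc : HasCompactSupport χ) {t : ℝ} (x : E N) {r : ℝ} (hr : r ∈ Ioo 0 t) :
    ∫ y, class_g u χ t x r y = ∫ y, class_h f u χ t x r y := by
  have hk : ContDiff ℝ 2 (fun y : E N => heatK (t - r) (x - y)) := class_heat_cd (t - r) x
  have hkc := hk.continuous
  have hψ : ContDiff ℝ 2 (fun y : E N => χ y * heatK (t - r) (x - y)) := hχ.mul hk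
  have hψc : HasCompactSupport (fun y : E N => χ y * heatK (t - r) (x - y)) := hc.mul_right
  have huc := class_u_cont hu hr.1
  have hfc := class_fu_cont hf hu hr.1
  have hlc := class_lap_cont (hu.diff_x r hr.1)
  have hlc2 := class_lap_cont hψ
  have hχc := hχ.continuous
  have h1 := class_ibp hψ hψc (hu.diff_x r hr.1)
  have i1 : Integrable (fun y => χ y * heatK (t - r) (x - y) * class_lap (u r) y) :=
    (hψ.continuous.mul hlc).integrable_of_hasCompactSupport hψc.mul_right
  have i2 : Integrable (fun y => χ y * heatK (t - r) (x - y) * f (u r y)) :=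
    (hψ.continuous.mul hfc).integrable_of_hasCompactSupport hψc.mul_right
  have i3 : Integrable (fun y => χ y * heatK (t - r) (x - y) *
      ((‖x - y‖ ^ 2 / (4 * (t - r) ^ 2) - N / (2 * (t - r))) * u r y)) := by
    apply Continuous.integrable_of_hasCompactSupport
    · fun_prop
    · exact hψc.mul_right
  have i4 : Integrable (fun y => class_lap (fun z : E N => χ z * heatK (t - r) (x - z)) y
      * u r y) := by
    apply (hlc2.mul huc).integrable_of_hasCompactSupport
    apply HasCompactSupport.mul_right
    apply hψc.mono'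
    intro y hy
    by_contra hcon
    apply hy
    unfold class_lap
    apply Finset.sum_eq_zero
    intro i _
    have : y ∉ tsupport (class_D2 (EuclideanSpace.basisFun (Fin N) ℝ i)
        (fun z : E N => χ z * heatK (t - r) (x - z))) := by
      intro hy2
      apply hcon
      have hs1 := tsupport_fderiv_apply_subset ℝ (f := fun z => fderiv ℝ (fun z : E N => χ z
        * heatK (t - r) (x - z)) z (EuclideanSpace.basisFun (Fin N) ℝ i))
        (EuclideanSpace.basisFun (Fin N) ℝ i) hy2
      exact tsupport_fderiv_apply_subset ℝ _ hs1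
    exact image_eq_zero_of_notMem_tsupport this
  have e1 : ∀ y, class_g u χ t x r y = χ y * heatK (t - r) (x - y) * class_lap (u r) y
      + χ y * heatK (t - r) (x - y) * f (u r y) - χ y * heatK (t - r) (x - y) *
      ((‖x - y‖ ^ 2 / (4 * (t - r) ^ 2) - N / (2 * (t - r))) * u r y) := by
    intro y
    unfold class_g
    rw [hu.eq r hr.1 y, ← class_lap_eq (hu.diff_x r hr.1)]
    ring
  have e2 : ∀ y, class_h f u χ t x r y = class_lap (fun z : E N => χ z * heatK (t - r) (x - z)) y
      * u r y + χ y * heatK (t - r) (x - y) * f (u r y) - χ y * heatK (t - r) (x - y) *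
      ((‖x - y‖ ^ 2 / (4 * (t - r) ^ 2) - N / (2 * (t - r))) * u r y) := by
    intro y
    rw [class_chi_lap hχ]
    unfold class_h
    ring
  simp only [e1, e2]
  have i12 : Integrable (fun y => χ y * heatK (t - r) (x - y) * class_lap (u r) y
    + χ y * heatK (t - r) (x - y) * f (u r y)) := i1.add i2
  have i42 : Integrable (fun y => class_lap (fun z : E N => χ z * heatK (t - r) (x - z)) y
    * u r y + χ y * heatK (t - r) (x - y) * f (u r y)) := i4.add i2
  rw [integral_sub i12 i3, integral_sub i42 i3, integral_add i1 i2,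
    integral_add i4 i2, h1]

theorem class_A (hf : Nl f M) (hu : Classical f U u) {χ : E N → ℝ} (hχ : ContDiff ℝ 2 χ)
    (hc : HasCompactSupport χ) {t a b : ℝ} (ha : 0 < a) (hab : a ≤ b) (hbt : b < t) (x : E N) :
    IntervalIntegrable (fun r => ∫ y, class_h f u χ t x r y) volume a b ∧
    (∫ y, χ y * heatK (t - b) (x - y) * u b y) - (∫ y, χ y * heatK (t - a) (x - y) * u a y) =
      ∫ r in a..b, ∫ y, class_h f u χ t x r y := by
  have hχc := hχ.continuous
  have hgc := class_g_cont hu hχc t x
  have hsub : Icc a b ⊆ Ioo 0 t := fun r hr => ⟨lt_of_lt_of_le ha hr.1, lt_of_le_of_lt hr.2 hbt⟩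
  have hint : Integrable (Function.uncurry (class_g u χ t x))
      ((volume.restrict (Set.uIoc a b)).prod volume) := by
    rw [uIoc_of_le hab]
    have e : (volume.restrict (Ioc a b)).prod (volume : Measure (E N)) =
        (volume.prod volume).restrict (Ioc a b ×ˢ univ) := by
      rw [← Measure.prod_restrict, Measure.restrict_univ]
    rw [e]
    change IntegrableOn _ _ _
    have h1 : IntegrableOn (Function.uncurry (class_g u χ t x)) (Icc a b ×ˢ tsupport χ)
        (volume.prod volume) := by
      apply ContinuousOn.integrableOn_compact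
      · exact isCompact_Icc.prod hc
      · exact hgc.mono (prod_mono hsub (subset_univ _))
    have h2 : IntegrableOn (Function.uncurry (class_g u χ t x)) (Icc a b ×ˢ univ)
        (volume.prod volume) := by
      apply h1.of_forall_sdiff_eq_zero (measurableSet_Icc.prod MeasurableSet.univ)
      rintro ⟨r, y⟩ ⟨h3, h4⟩
      have : y ∉ tsupport χ := fun h5 => h4 ⟨h3.1, h5⟩
      simp only [Function.uncurry, class_g]
      rw [image_eq_zero_of_notMem_tsupport this, zero_mul]
    exact h2.mono_set (prod_mono Ioc_subset_Icc_self subset_rfl)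
  have hswap := intervalIntegral_integral_swap (μ := (volume : Measure (E N))) hint
  have hftc : ∀ y, ∫ r in a..b, class_g u χ t x r y = χ y * heatK (t - b) (x - y) * u b y
      - χ y * heatK (t - a) (x - y) * u a y := by
    intro y
    apply intervalIntegral.integral_eq_sub_of_hasDerivAt (f := fun r => χ y * heatK (t - r) (x - y)
      * u r y)
    · intro r hr
      rw [uIcc_of_le hab] at hr
      exact class_hasDeriv hu χ x (hsub hr) y
    · apply ContinuousOn.intervalIntegrable
      rw [uIcc_of_le hab]
      have : ContinuousOn (fun r => Function.uncurry (class_g u χ t x) (r, y)) (Icc a b) := by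
        apply hgc.comp (f := fun r : ℝ => ((r, y) : ℝ × E N)) (by fun_prop)
        intro r hr
        exact ⟨hsub hr, mem_univ _⟩
      exact this
  have ib : ∀ r, 0 < r → Integrable (fun y => χ y * heatK (t - r) (x - y) * u r y) := by
    intro r hr
    have huc := class_u_cont hu hr
    have hkc := (class_heat_cd (t - r) x).continuous
    apply Continuous.integrable_of_hasCompactSupport
    · fun_prop
    · exact hc.mul_right.mul_right
  have hcongr : ∀ r ∈ Set.uIoc a b, ∫ y, class_g u χ t x r y = ∫ y, class_h f u χ t x r y := by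
    intro r hr
    rw [uIoc_of_le hab] at hr
    exact class_int_eq hf hu hχ hc x (hsub (Ioc_subset_Icc_self hr))
  constructor
  · have h1 : IntervalIntegrable (fun r => ∫ y, class_g u χ t x r y) volume a b := by
      rw [intervalIntegrable_iff]
      exact hint.integral_prod_left
    exact h1.congr hcongr
  · rw [← integral_sub (ib b (lt_of_lt_of_le ha hab)) (ib a ha)]
    rw [← intervalIntegral.integral_congr_ae (Eventually.of_forall hcongr), hswap]
    exact integral_congr_ae (Eventually.of_forall fun y => (hftc y).symm)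

end flow

theorem class_D2_scale {g : E N → ℝ} (hg : ContDiff ℝ 2 g) (c : ℝ) (v y : E N) :
    class_D2 v (fun z => g (c • z)) y = c * (c * class_D2 v g (c • y)) := by
  unfold class_D2
  have e : (fun z => fderiv ℝ (fun z => g (c • z)) z v) =
      fun z => c * (fun w => fderiv ℝ g w v) (c • z) := by
    funext z
    rw [fderiv_comp_smul (f := g)]
    rfl
  rw [e]
  have hd : Differentiable ℝ (fun w => fderiv ℝ g w v) :=
    (class_D_cd hg v).differentiable (by norm_num)
  have hd2 : DifferentiableAt ℝ (fun z => (fun w => fderiv ℝ g w v) (c • z)) y :=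
    DifferentiableAt.comp y (g := fun w => fderiv ℝ g w v) (f := fun z : E N => c • z)
      (hd (c • y)) (by fun_prop)
  rw [fderiv_const_mul hd2, fderiv_comp_smul (f := fun w => fderiv ℝ g w v)]
  rfl

/-- cut-off functions -/
theorem class_cut (N : ℕ) : ∃ (χ : ℕ → E N → ℝ) (C : ℝ), 0 ≤ C ∧
    (∀ n, ContDiff ℝ 2 (χ n)) ∧ (∀ n, HasCompactSupport (χ n)) ∧ (∀ n y, |χ n y| ≤ 1) ∧
    (∀ n y, ‖fderiv ℝ (χ n) y‖ ≤ C / (n + 1)) ∧ (∀ n y, |class_lap (χ n) y| ≤ C / (n + 1)) ∧
    (∀ y, Tendsto (fun n => χ n y) atTop (𝓝 1)) := by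
  let b : ContDiffBump (0 : E N) := ⟨1, 2, one_pos, one_lt_two⟩
  have hb : ContDiff ℝ 2 (b : E N → ℝ) := b.contDiff
  have hbc : HasCompactSupport (b : E N → ℝ) := b.hasCompactSupport
  obtain ⟨C1, hC1⟩ := (hb.continuous_fderiv (by norm_num)).bounded_above_of_compact_support
    (hbc.fderiv ℝ)
  have hlc : HasCompactSupport (class_lap (b : E N → ℝ)) := by
    apply hbc.mono'
    intro y hy
    by_contra hcon
    apply hy
    unfold class_lap
    apply Finset.sum_eq_zero
    intro i _
    have : y ∉ tsupport (class_D2 (EuclideanSpace.basisFun (Fin N) ℝ i) (b : E N → ℝ)) := by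
      intro hy2
      apply hcon
      have hs1 := tsupport_fderiv_apply_subset ℝ (f := fun z => fderiv ℝ (b : E N → ℝ) z
        (EuclideanSpace.basisFun (Fin N) ℝ i)) (EuclideanSpace.basisFun (Fin N) ℝ i) hy2
      exact tsupport_fderiv_apply_subset ℝ _ hs1
    exact image_eq_zero_of_notMem_tsupport this
  obtain ⟨C2, hC2⟩ := (class_lap_cont hb).bounded_above_of_compact_support hlc
  set C : ℝ := max 0 (max C1 C2) with hC
  have hC0 : 0 ≤ C := le_max_left _ _
  have hC1' : ∀ y, ‖fderiv ℝ (b : E N → ℝ) y‖ ≤ C := fun y =>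
    (hC1 y).trans ((le_max_left _ _).trans (le_max_right _ _))
  have hC2' : ∀ y, |class_lap (b : E N → ℝ) y| ≤ C := fun y =>
    (hC2 y).trans ((le_max_right _ _).trans (le_max_right _ _))
  refine ⟨fun n y => b (((n : ℝ) + 1)⁻¹ • y), C, hC0, fun n => ?_, fun n => ?_, fun n y => ?_,
    fun n y => ?_, fun n y => ?_, fun y => ?_⟩
  · exact hb.comp (contDiff_const_smul _)
  · apply hbc.comp_homeomorph (Homeomorph.smulOfNeZero (((n : ℝ) + 1)⁻¹) (by positivity))
  · rw [abs_of_nonneg (b.nonneg)]
    exact b.le_one
  · rw [fderiv_comp_smul (f := (b : E N → ℝ)), norm_smul, Real.norm_eq_abs,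
      abs_of_nonneg (by positivity), div_eq_inv_mul]
    exact mul_le_mul_of_nonneg_left (hC1' _) (by positivity)
  · have e : class_lap (fun y => b (((n : ℝ) + 1)⁻¹ • y)) y = ((n : ℝ) + 1)⁻¹ *
        (((n : ℝ) + 1)⁻¹ * class_lap (b : E N → ℝ) (((n : ℝ) + 1)⁻¹ • y)) := by
      unfold class_lap
      simp only [class_D2_scale hb]
      rw [Finset.mul_sum, Finset.mul_sum]
    rw [e, abs_mul, abs_mul, abs_of_nonneg (by positivity : (0:ℝ) ≤ ((n : ℝ) + 1)⁻¹),
      div_eq_inv_mul]
    apply mul_le_mul_of_nonneg_left _ (by positivity)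
    have h1 : ((n : ℝ) + 1)⁻¹ ≤ 1 := inv_le_one_of_one_le₀ (by linarith [(Nat.cast_nonneg n : (0:ℝ) ≤ n)])
    calc _ ≤ 1 * C := mul_le_mul h1 (hC2' _) (abs_nonneg _) zero_le_one
      _ = C := one_mul C
  · apply tendsto_const_nhds.congr'
    obtain ⟨n0, hn0⟩ := exists_nat_ge ‖y‖
    filter_upwards [eventually_ge_atTop n0] with n hn
    symm
    apply b.one_of_mem_closedBall
    rw [mem_closedBall_zero_iff, norm_smul, Real.norm_eq_abs, abs_of_nonneg (by positivity)]
    have h1 : (n0 : ℝ) ≤ n := by exact_mod_cast hn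
    have h2 : ‖y‖ ≤ (n : ℝ) + 1 := by linarith
    calc _ ≤ ((n : ℝ) + 1)⁻¹ * ((n : ℝ) + 1) := mul_le_mul_of_nonneg_left h2 (by positivity)
      _ = 1 := inv_mul_cancel₀ (by positivity)
      _ ≤ _ := le_rfl

theorem class_f_bd (hf : Nl f M) {a : ℝ} (ha : a ∈ Icc (0:ℝ) 1) : |f a| ≤ M := by
  have h1 := hf.lip a ha 0 ⟨le_rfl, zero_le_one⟩
  rw [hf.zero, sub_zero, sub_zero, abs_of_nonneg ha.1] at h1
  exact h1.trans (by nlinarith [hf.nn, ha.2])

section flow2
variable {U : Set (E N)} {u : ℝ → E N → ℝ}

theorem class_B (hf : Nl f M) (hu : Classical f U u) {t a b : ℝ} (ha : 0 < a) (hab : a ≤ b)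
    (hbt : b < t) (x : E N) :
    P (t - b) (u b) x - P (t - a) (u a) x = ∫ r in a..b, P (t - r) (fun y => f (u r y)) x := by
  obtain ⟨χ, C, hC0, c1, c2, c3, c4, c5, c6⟩ := class_cut N
  obtain ⟨C', hC', hmom⟩ := heat_moment (N := N)
  have hM := hf.nn
  have hsub : Icc a b ⊆ Ioo 0 t := fun r hr => ⟨lt_of_lt_of_le ha hr.1, lt_of_le_of_lt hr.2 hbt⟩
  have mom : ∀ s : ℝ, 0 < s → Integrable (fun y : E N => heatK s (x - y) * ‖x - y‖) ∧
      ∫ y : E N, heatK s (x - y) * ‖x - y‖ ≤ C' * √s := by
    intro s hs
    obtain ⟨h1, h2⟩ := hmom s hs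
    refine ⟨h1.comp_sub_left x, ?_⟩
    rw [integral_sub_left_eq_self (fun y : E N => heatK s y * ‖y‖) volume x]
    exact h2
  -- left side
  have L : ∀ r, 0 < r → r < t → Tendsto (fun n => ∫ y, χ n y * heatK (t - r) (x - y) * u r y) atTop
      (𝓝 (P (t - r) (u r) x)) := by
    intro r hr hrt
    have hs : 0 < t - r := by linarith
    apply tendsto_integral_of_dominated_convergence (fun y => heatK (t - r) (x - y))
    · intro n
      have h1 := (c1 n).continuous
      have h2 := (class_heat_cd (t - r) x).continuous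
      have h3 := class_u_cont hu hr
      have : Continuous (fun y => χ n y * heatK (t - r) (x - y) * u r y) := by fun_prop
      exact this.aestronglyMeasurable
    · exact heatK_integrable' hs x
    · intro n
      refine Eventually.of_forall fun y => ?_
      rw [norm_mul, norm_mul, Real.norm_eq_abs, Real.norm_eq_abs, Real.norm_eq_abs,
        abs_of_nonneg (heatK_nonneg hs _), abs_of_nonneg (hu.mem r hr y).1]
      have h1 := c3 n y
      have h2 := (hu.mem r hr y).2
      have h3 := (hu.mem r hr y).1
      have h4 := heatK_nonneg hs (x - y)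
      calc |χ n y| * heatK (t - r) (x - y) * u r y ≤ 1 * heatK (t - r) (x - y) * 1 := by
            gcongr
        _ = _ := by ring
    · refine Eventually.of_forall fun y => ?_
      have := ((c6 y).mul_const (heatK (t - r) (x - y))).mul_const (u r y)
      rwa [one_mul] at this
  -- pointwise bound of the integrand
  have bd : ∀ n, ∀ r ∈ Icc a b, ∀ y, |class_h f u (χ n) t x r y| ≤ (M + C) * heatK (t - r) (x - y)
      + C / (t - r) * (heatK (t - r) (x - y) * ‖x - y‖) := by
    intro n r hr y
    have hr' := hsub hr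
    have hs : 0 < t - r := by linarith [hr'.2]
    have h1 := c3 n y
    have h2 := hu.mem r hr'.1 y
    have h4 := heatK_nonneg hs (x - y)
    have h5 : |f (u r y)| ≤ M := class_f_bd hf h2
    have hn : C / ((n : ℝ) + 1) ≤ C := div_le_self hC0 (by linarith [(Nat.cast_nonneg n : (0:ℝ) ≤ n)])
    have h6 : |class_lap (χ n) y| ≤ C := (c5 n y).trans hn
    have h7 : |fderiv ℝ (χ n) y (x - y)| ≤ C * ‖x - y‖ := by
      refine ((fderiv ℝ (χ n) y).le_opNorm (x - y)).trans ?_
      exact mul_le_mul_of_nonneg_right ((c4 n y).trans hn) (norm_nonneg _)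
    have h8 : |class_lap (χ n) y * heatK (t - r) (x - y) +
      heatK (t - r) (x - y) / (t - r) * fderiv ℝ (χ n) y (x - y)| ≤
      |class_lap (χ n) y| * heatK (t - r) (x - y) +
      heatK (t - r) (x - y) / (t - r) * |fderiv ℝ (χ n) y (x - y)| := by
      refine (abs_add_le _ _).trans ?_
      rw [abs_mul, abs_mul, abs_of_nonneg h4, abs_of_nonneg (div_nonneg h4 hs.le)]
    have h9 := h2.1
    have h10 := h2.2
    unfold class_h
    calc _ ≤ |χ n y * heatK (t - r) (x - y) * f (u r y)| + |(class_lap (χ n) y * heatK (t - r) (x - y) +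
      heatK (t - r) (x - y) / (t - r) * fderiv ℝ (χ n) y (x - y)) * u r y| := abs_add_le _ _
      _ = |χ n y| * heatK (t - r) (x - y) * |f (u r y)| + |class_lap (χ n) y * heatK (t - r) (x - y) +
      heatK (t - r) (x - y) / (t - r) * fderiv ℝ (χ n) y (x - y)| * u r y := by
          rw [abs_mul, abs_mul, abs_mul, abs_of_nonneg h4, abs_of_nonneg h2.1]
      _ ≤ 1 * heatK (t - r) (x - y) * M + (|class_lap (χ n) y| * heatK (t - r) (x - y) +
      heatK (t - r) (x - y) / (t - r) * |fderiv ℝ (χ n) y (x - y)|) * 1 := by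
          gcongr
      _ ≤ 1 * heatK (t - r) (x - y) * M + (C * heatK (t - r) (x - y) +
      heatK (t - r) (x - y) / (t - r) * (C * ‖x - y‖)) * 1 := by
          gcongr
      _ = _ := by ring
  have bdi : ∀ r ∈ Icc a b, Integrable (fun y => (M + C) * heatK (t - r) (x - y)
      + C / (t - r) * (heatK (t - r) (x - y) * ‖x - y‖)) := by
    intro r hr
    have hs : 0 < t - r := by linarith [(hsub hr).2]
    exact ((heatK_integrable' hs x).const_mul _).add ((mom _ hs).1.const_mul _)
  have hhm : ∀ n, ∀ r ∈ Icc a b, AEStronglyMeasurable (fun y => class_h f u (χ n) t x r y) := by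
    intro n r hr
    have hr' := hsub hr
    have h1 := (c1 n).continuous
    have h2 := (class_heat_cd (t - r) x).continuous
    have h3 := class_u_cont hu hr'.1
    have h4 := class_fu_cont hf hu hr'.1
    have h5 := class_lap_cont (c1 n)
    have h6 : Continuous (fderiv ℝ (χ n)) := (c1 n).continuous_fderiv (by norm_num)
    have h7 : Continuous (fun y => fderiv ℝ (χ n) y (x - y)) :=
      h6.clm_apply (continuous_const.sub continuous_id)
    have : Continuous (fun y => class_h f u (χ n) t x r y) :=
      ((h1.mul h2).mul h4).add (((h5.mul h2).add ((h2.div_const _).mul h7)).mul h3)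
    exact this.aestronglyMeasurable
  have R : Tendsto (fun n => ∫ r in a..b, ∫ y, class_h f u (χ n) t x r y) atTop
      (𝓝 (∫ r in a..b, P (t - r) (fun y => f (u r y)) x)) := by
    apply intervalIntegral.tendsto_integral_filter_of_dominated_convergence
      (fun _ => (M + C) + C / (t - b) * (C' * √t))
    · refine Eventually.of_forall fun n => ?_
      have := (class_A hf hu (c1 n) (c2 n) ha hab hbt x).1
      rw [intervalIntegrable_iff] at this
      exact this.aestronglyMeasurable
    · refine Eventually.of_forall fun n => Eventually.of_forall fun r hr => ?_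
      rw [uIoc_of_le hab] at hr
      have hr1 : r ∈ Icc a b := Ioc_subset_Icc_self hr
      have hs : 0 < t - r := by linarith [(hsub hr1).2]
      have htb : 0 < t - b := by linarith
      calc ‖∫ y, class_h f u (χ n) t x r y‖ ≤ ∫ y, ((M + C) * heatK (t - r) (x - y)
            + C / (t - r) * (heatK (t - r) (x - y) * ‖x - y‖)) :=
            norm_integral_le_of_norm_le (bdi r hr1) (Eventually.of_forall fun y => bd n r hr1 y)
        _ = (M + C) * 1 + C / (t - r) * ∫ y, (heatK (t - r) (x - y) * ‖x - y‖) := by
            rw [integral_add ((heatK_integrable' hs x).const_mul _) ((mom _ hs).1.const_mul _),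
              integral_const_mul, integral_const_mul, heatK_int1' hs]
        _ ≤ (M + C) * 1 + C / (t - r) * (C' * √(t - r)) := by
            gcongr
            exact (mom _ hs).2
        _ ≤ (M + C) * 1 + C / (t - b) * (C' * √t) := by
            have h1 : t - r ≤ t := by linarith [(hsub hr1).1]
            have h2 : t - b ≤ t - r := by linarith [hr1.2]
            have hC'0 := hC'.le
            gcongr
        _ = _ := by ring
    · exact intervalIntegrable_const
    · refine Eventually.of_forall fun r hr => ?_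
      rw [uIoc_of_le hab] at hr
      have hr1 : r ∈ Icc a b := Ioc_subset_Icc_self hr
      have hs : 0 < t - r := by linarith [(hsub hr1).2]
      apply tendsto_integral_of_dominated_convergence _ (fun n => hhm n r hr1) (bdi r hr1)
        (fun n => Eventually.of_forall fun y => bd n r hr1 y)
      refine Eventually.of_forall fun y => ?_
      have hz : Tendsto (fun n : ℕ => C / ((n : ℝ) + 1)) atTop (𝓝 0) :=
        tendsto_const_div_atTop_nhds_zero_nat C |>.comp (tendsto_add_atTop_nat 1) |>.congr
          (fun n => by simp)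
      have h1 : Tendsto (fun n => class_lap (χ n) y) atTop (𝓝 0) :=
        squeeze_zero_norm (fun n => c5 n y) hz
      have h2 : Tendsto (fun n => fderiv ℝ (χ n) y (x - y)) atTop (𝓝 0) := by
        have hz2 := hz.mul_const ‖x - y‖
        rw [zero_mul] at hz2
        apply squeeze_zero_norm (fun n => ?_) hz2
        refine ((fderiv ℝ (χ n) y).le_opNorm (x - y)).trans ?_
        exact mul_le_mul_of_nonneg_right (c4 n y) (norm_nonneg _)
      have h3 := (((c6 y).mul_const (heatK (t - r) (x - y))).mul_const (f (u r y))).add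
        (((h1.mul_const (heatK (t - r) (x - y))).add
          (h2.const_mul (heatK (t - r) (x - y) / (t - r)))).mul_const (u r y))
      unfold class_h
      simpa using h3
  have hL := (L b (by linarith) hbt).sub (L a ha (by linarith))
  refine tendsto_nhds_unique hL (R.congr fun n => ?_)
  exact ((class_A hf hu (c1 n) (c2 n) ha hab hbt x).2).symm

end flow2

/-- scaling of the heat semigroup -/
theorem class_P_scale {s : ℝ} (hs : 0 < s) (g : E N → ℝ) (x : E N) :
    P s g x = ∫ z : E N, heatK 1 z * g (x - √s • z) := by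
  have hq : 0 < √s := Real.sqrt_pos.mpr hs
  have h1 : P s g x = ∫ w : E N, heatK s w * g (x - w) := by
    unfold P
    have := integral_sub_left_eq_self (fun w : E N => heatK s w * g (x - w)) volume x
    simp only [sub_sub_cancel] at this
    exact this
  have h2 := Measure.integral_comp_smul (volume : Measure (E N))
    (fun w : E N => heatK s w * g (x - w)) √s
  have h3 : ∀ z : E N, heatK s (√s • z) = ((√s) ^ N)⁻¹ * heatK 1 z := by
    intro z
    unfold heatK
    rw [norm_smul, Real.norm_eq_abs, abs_of_pos hq, mul_pow, Real.sq_sqrt hs.le]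
    have e1 : s * ‖z‖ ^ 2 / (4 * s) = ‖z‖ ^ 2 / (4 * 1) := by
      field_simp
    have e2 : (4 * π * s) ^ (-((N : ℝ) / 2)) = ((√s) ^ N)⁻¹ * (4 * π * 1) ^ (-((N : ℝ) / 2)) := by
      rw [Real.mul_rpow (by positivity) hs.le, mul_one, mul_comm]
      congr 1
      rw [Real.rpow_neg hs.le]
      congr 1
      rw [Real.sqrt_eq_rpow, ← Real.rpow_natCast, ← Real.rpow_mul hs.le]
      congr 1
      ring
    rw [e1, e2]
    ring
  have h4 : ∫ z : E N, heatK s (√s • z) * g (x - √s • z) =
      ((√s) ^ N)⁻¹ * ∫ z : E N, heatK 1 z * g (x - √s • z) := by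
    rw [← integral_const_mul]
    congr 1
    funext z
    rw [h3]
    ring
  have hf : Module.finrank ℝ (E N) = N := by simp
  rw [h4, hf, smul_eq_mul, abs_of_pos (by positivity)] at h2
  rw [h1]
  have hpos : 0 < ((√s) ^ N)⁻¹ := by positivity
  exact (mul_left_cancel₀ hpos.ne' h2).symm

section flow3
variable {U : Set (E N)} {u : ℝ → E N → ℝ}

/-- the limit at the final time -/
theorem class_end (hu : Classical f U u) {t : ℝ} (ht : 0 < t) (x : E N) :
    Tendsto (fun b => P (t - b) (u b) x) (𝓝[<] t) (𝓝 (u t x)) := by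
  have h1 : (fun b => P (t - b) (u b) x) =ᶠ[𝓝[<] t]
      fun b => ∫ z : E N, heatK 1 z * u b (x - √(t - b) • z) := by
    filter_upwards [self_mem_nhdsWithin] with b hb
    exact class_P_scale (by simp only [mem_Iio] at hb; linarith) _ _
  refine Tendsto.congr' h1.symm ?_
  have h2 : u t x = ∫ z : E N, heatK 1 z * u t x := by
    rw [integral_mul_const, heatK_int1 one_pos, one_mul]
  rw [h2]
  have hpos : ∀ᶠ b in 𝓝[<] t, 0 < b := by
    filter_upwards [Ioo_mem_nhdsLT ht] with b hb
    exact hb.1
  apply tendsto_integral_filter_of_dominated_convergence (fun z => heatK 1 z)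
  · filter_upwards [hpos] with b hb
    have h3 := class_u_cont hu hb
    have h4 : Continuous (fun z : E N => heatK 1 z) := heatK_cont
    have : Continuous (fun z : E N => heatK 1 z * u b (x - √(t - b) • z)) := by fun_prop
    exact this.aestronglyMeasurable
  · filter_upwards [hpos] with b hb
    refine Eventually.of_forall fun z => ?_
    have h3 := hu.mem b hb (x - √(t - b) • z)
    rw [norm_mul, Real.norm_eq_abs, Real.norm_eq_abs, abs_of_nonneg (heatK_nonneg one_pos _),
      abs_of_nonneg h3.1]
    exact mul_le_of_le_one_right (heatK_nonneg one_pos _) h3.2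
  · exact heatK_integrable one_pos
  · refine Eventually.of_forall fun z => ?_
    apply Tendsto.const_mul
    have hc : ContinuousAt (fun p : ℝ × E N => u p.1 p.2) (t, x) :=
      hu.cont.continuousAt ((isOpen_Ioi.prod isOpen_univ).mem_nhds ⟨ht, mem_univ _⟩)
    have hp : Tendsto (fun b : ℝ => ((b, x - √(t - b) • z) : ℝ × E N)) (𝓝[<] t) (𝓝 (t, x)) := by
      have : ContinuousAt (fun b : ℝ => ((b, x - √(t - b) • z) : ℝ × E N)) t := by fun_prop
      have h5 := this.tendsto
      simp only [sub_self, Real.sqrt_zero, zero_smul, sub_zero] at h5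
      exact h5.mono_left nhdsWithin_le_nhds
    exact hc.tendsto.comp hp

/-- `L¹` continuity of the kernel -/
theorem class_kern {t : ℝ} (ht : 0 < t) (x : E N) :
    Tendsto (fun a => ∫ y : E N, |heatK (t - a) (x - y) - heatK t (x - y)|) (𝓝[>] 0) (𝓝 0) := by
  suffices H : Tendsto (fun a => ∫ y : E N, |heatK (t - a) (x - y) - heatK t (x - y)|) (𝓝[>] 0)
      (𝓝 (∫ y : E N, |heatK t (x - y) - heatK t (x - y)|)) by simpa using H
  have hlt : ∀ᶠ a in 𝓝[>] (0:ℝ), a ∈ Ioo 0 (t / 2) := Ioo_mem_nhdsGT (by positivity)
  apply tendsto_integral_filter_of_dominated_convergence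
    (fun y => (2 ^ ((N : ℝ) / 2) + 1) * heatK t (x - y))
  · refine Eventually.of_forall fun a => ?_
    have h1 := (class_heat_cd (t - a) x).continuous
    have h2 := (class_heat_cd t x).continuous
    exact (h1.sub h2).abs.aestronglyMeasurable
  · filter_upwards [hlt] with a ha
    refine Eventually.of_forall fun y => ?_
    have hs : 0 < t - a := by linarith [ha.2]
    have h1 : heatK (t - a) (x - y) ≤ 2 ^ ((N : ℝ) / 2) * heatK t (x - y) := by
      unfold heatK
      rw [← mul_assoc]
      apply mul_le_mul _ _ (Real.exp_nonneg _) (by positivity)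
      · have e : (4 * π * (t / 2)) ^ (-((N : ℝ) / 2)) =
            2 ^ ((N : ℝ) / 2) * (4 * π * t) ^ (-((N : ℝ) / 2)) := by
          rw [show 4 * π * (t / 2) = (4 * π * t) * 2⁻¹ by ring,
            Real.mul_rpow (by positivity) (by positivity), mul_comm]
          congr 1
          rw [Real.inv_rpow (by norm_num), Real.rpow_neg (by norm_num), inv_inv]
        rw [← e]
        apply Real.rpow_le_rpow_of_nonpos (by positivity)
        · have : t / 2 ≤ t - a := by linarith [ha.2]
          have hπ := Real.pi_pos
          gcongr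
        · have : (0:ℝ) ≤ N := Nat.cast_nonneg N
          linarith
      · apply Real.exp_le_exp.mpr
        apply neg_le_neg
        apply div_le_div_of_nonneg_left (by positivity) (by positivity)
        linarith [ha.1]
    have h2 := heatK_nonneg hs (x - y)
    have h3 := heatK_nonneg ht (x - y)
    rw [Real.norm_eq_abs, abs_abs, abs_le]
    constructor <;> nlinarith [Real.rpow_nonneg (by norm_num : (0:ℝ) ≤ 2) ((N : ℝ) / 2)]
  · exact (heatK_integrable' ht x).const_mul _
  · refine Eventually.of_forall fun y => ?_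
    have h1 : ContinuousAt (fun s => heatK s (x - y)) t := (class_heat_dt ht (x - y)).continuousAt
    have h2 : Tendsto (fun a : ℝ => t - a) (𝓝[>] 0) (𝓝 t) := by
      have : ContinuousAt (fun a : ℝ => t - a) 0 := by fun_prop
      have h5 := this.tendsto
      simp only [sub_zero] at h5
      exact h5.mono_left nhdsWithin_le_nhds
    exact ((h1.tendsto.comp h2).sub_const _).abs

/-- the limit at the initial time -/
theorem class_start (hu : Classical f U u) (hU : MeasurableSet U) {t : ℝ} (ht : 0 < t) (x : E N) :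
    Tendsto (fun a => P (t - a) (u a) x) (𝓝[>] 0) (𝓝 (P t (U.indicator 1) x)) := by
  have hUm : Measurable (U.indicator (1 : E N → ℝ)) := measurable_one.indicator hU
  have hUb : ∀ y, U.indicator (1 : E N → ℝ) y ∈ Icc (0:ℝ) 1 := by
    intro y
    by_cases hy : y ∈ U <;> simp [hy]
  have hUa : ∀ y, |U.indicator (1 : E N → ℝ) y| ≤ 1 := fun y => by
    rw [abs_of_nonneg (hUb y).1]
    exact (hUb y).2
  have hpos : ∀ᶠ a in 𝓝[>] (0:ℝ), a ∈ Ioo 0 t := Ioo_mem_nhdsGT ht
  -- the weighted L¹ distance tends to zero
  have key : Tendsto (fun a => ∫ y, heatK t (x - y) * |u a y - U.indicator 1 y|) (𝓝[>] 0) (𝓝 0) := by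
    rw [Metric.tendsto_nhds]
    intro ε hε
    -- choice of the radius
    have hlim : Tendsto (fun A : ℝ => 2 ^ ((N : ℝ) / 2) * Real.exp (-(A ^ 2 / (8 * t)))) atTop
        (𝓝 0) := by
      have h1 : Tendsto (fun A : ℝ => A ^ 2 / (8 * t)) atTop atTop :=
        (tendsto_pow_atTop (by norm_num)).atTop_div_const (by positivity)
      have h2 := (Real.tendsto_exp_neg_atTop_nhds_zero.comp h1).const_mul (2 ^ ((N : ℝ) / 2))
      rw [mul_zero] at h2
      exact h2
    obtain ⟨A, hA0, hA⟩ : ∃ A : ℝ, 0 ≤ A ∧ 2 ^ ((N : ℝ) / 2) * Real.exp (-(A ^ 2 / (8 * t))) < ε / 2 :=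
      ((eventually_ge_atTop 0).and (hlim.eventually_lt_const (by positivity))).exists
    set R : ℝ := A + ‖x‖ with hR
    set K0 : ℝ := (4 * π * t) ^ (-((N : ℝ) / 2)) with hK0
    have hK0p : 0 ≤ K0 := by positivity
    have hK : ∀ y : E N, heatK t (x - y) ≤ K0 := by
      intro y
      unfold heatK
      apply mul_le_of_le_one_right hK0p
      rw [Real.exp_le_one_iff]
      have : 0 ≤ ‖x - y‖ ^ 2 / (4 * t) := by positivity
      linarith
    have hini := (hu.init R).const_mul K0
    rw [mul_zero] at hini
    filter_upwards [hpos, hini.eventually_lt_const (by positivity : 0 < ε / 2)] with a ha hlt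
    have huc := class_u_cont hu ha.1
    have hd : ∀ y, |u a y - U.indicator 1 y| ≤ 1 := by
      intro y
      have h1 := hu.mem a ha.1 y
      have h2 := hUb y
      rw [abs_le]
      constructor <;> linarith [h1.1, h1.2, h2.1, h2.2]
    have hdm : Measurable (fun y => |u a y - U.indicator (1 : E N → ℝ) y|) :=
      (huc.measurable.sub hUm).abs
    set W : Set (E N) := (Metric.ball 0 R)ᶜ with hW
    have hWm : MeasurableSet W := measurableSet_ball.compl
    have htail : P t (W.indicator 1) x < ε / 2 := by
      refine lt_of_le_of_lt (P_tail ht x hA0 hWm ?_) hA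
      intro y hy
      rw [hW, mem_compl_iff, Metric.mem_ball, not_lt, dist_zero_right] at hy
      have := norm_sub_norm_le y x
      rw [norm_sub_rev] at this
      linarith
    have hi1 : Integrable (fun y => heatK t (x - y) * |u a y - U.indicator (1 : E N → ℝ) y|) :=
      P_int ht hdm (C := 1) (fun y => by rw [abs_abs]; exact hd y) x
    have hWi : Measurable (W.indicator (1 : E N → ℝ)) := measurable_one.indicator hWm
    have hi2 : Integrable (fun y => heatK t (x - y) * W.indicator (1 : E N → ℝ) y) :=
      P_int ht hWi (C := 1) (fun y => by by_cases hy : y ∈ W <;> simp [hy]) x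
    have hi3 : Integrable (fun y => K0 * (Metric.ball (0 : E N) R).indicator
        (fun y => |u a y - U.indicator (1 : E N → ℝ) y|) y) := by
      apply Integrable.const_mul
      rw [integrable_indicator_iff measurableSet_ball]
      apply Measure.integrableOn_of_bounded (M := 1) measure_ball_lt_top.ne
      · exact hdm.aestronglyMeasurable
      · exact Eventually.of_forall fun y => by rw [Real.norm_eq_abs, abs_abs]; exact hd y
    have hle : ∫ y, heatK t (x - y) * |u a y - U.indicator (1 : E N → ℝ) y| ≤
        ∫ y, (K0 * (Metric.ball (0 : E N) R).indicator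
        (fun y => |u a y - U.indicator (1 : E N → ℝ) y|) y
          + heatK t (x - y) * W.indicator (1 : E N → ℝ) y) := by
      apply integral_mono hi1 (hi3.add hi2)
      intro y
      have h3 := heatK_nonneg ht (x - y)
      by_cases hy : y ∈ Metric.ball (0 : E N) R
      · have hyW : y ∉ W := by simp [hW, hy]
        simp only [Pi.add_apply, indicator_of_mem hy, indicator_of_notMem hyW, mul_zero, add_zero]
        exact mul_le_mul_of_nonneg_right (hK y) (abs_nonneg _)
      · have hyW : y ∈ W := hy
        simp only [Pi.add_apply, indicator_of_notMem hy, indicator_of_mem hyW, mul_zero, zero_add,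
          Pi.one_apply, mul_one]
        exact mul_le_of_le_one_right h3 (hd y)
    have h0 : 0 ≤ ∫ y, heatK t (x - y) * |u a y - U.indicator (1 : E N → ℝ) y| :=
      integral_nonneg fun y => mul_nonneg (heatK_nonneg ht _) (abs_nonneg _)
    rw [Real.dist_eq, sub_zero, abs_of_nonneg h0]
    refine lt_of_le_of_lt hle ?_
    rw [integral_add hi3 hi2, integral_const_mul, integral_indicator measurableSet_ball]
    have h4 : ∫ y, heatK t (x - y) * W.indicator (1 : E N → ℝ) y = P t (W.indicator 1) x := rfl
    rw [h4]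
    linarith
  have hsum := (class_kern ht x).add key
  rw [add_zero] at hsum
  rw [tendsto_iff_norm_sub_tendsto_zero]
  apply squeeze_zero' (Eventually.of_forall fun a => norm_nonneg _) _ hsum
  filter_upwards [hpos] with a ha
  have hs : 0 < t - a := by linarith [ha.2]
  have huc := class_u_cont hu ha.1
  have hu1 : ∀ y, |u a y| ≤ 1 := fun y => by
    rw [abs_of_nonneg (hu.mem a ha.1 y).1]
    exact (hu.mem a ha.1 y).2
  have i1 : Integrable (fun y => heatK (t - a) (x - y) * u a y) := P_int hs huc.measurable hu1 x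
  have i2 : Integrable (fun y => heatK t (x - y) * u a y) := P_int ht huc.measurable hu1 x
  have i3 : Integrable (fun y => heatK t (x - y) * U.indicator (1 : E N → ℝ) y) :=
    P_int ht hUm hUa x
  have e : P (t - a) (u a) x - P t (U.indicator 1) x =
      ∫ y, ((heatK (t - a) (x - y) - heatK t (x - y)) * u a y +
        heatK t (x - y) * (u a y - U.indicator (1 : E N → ℝ) y)) := by
    unfold P
    rw [← integral_sub i1 i3]
    congr 1
    funext y
    ring
  have j1 : Integrable (fun y => |heatK (t - a) (x - y) - heatK t (x - y)|) :=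
    ((heatK_integrable' hs x).sub (heatK_integrable' ht x)).abs
  have j2 : Integrable (fun y => heatK t (x - y) * |u a y - U.indicator (1 : E N → ℝ) y|) :=
    P_int ht (huc.measurable.sub hUm).abs (C := 1) (fun y => by
      have h1 := hu.mem a ha.1 y
      have h2 := hUb y
      rw [abs_abs, Pi.sub_apply, abs_le]
      constructor <;> linarith [h1.1, h1.2, h2.1, h2.2]) x
  rw [e, ← integral_add j1 j2]
  apply norm_integral_le_of_norm_le (j1.add j2)
  refine Eventually.of_forall fun y => ?_
  have h3 := heatK_nonneg ht (x - y)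
  rw [Real.norm_eq_abs]
  refine (abs_add_le _ _).trans ?_
  rw [abs_mul, abs_mul, abs_of_nonneg h3]
  simp only [Pi.add_apply]
  have := mul_le_of_le_one_right (abs_nonneg (heatK (t - a) (x - y) - heatK t (x - y))) (hu1 y)
  linarith

end flow3

section flow4
variable {U : Set (E N)} {u : ℝ → E N → ℝ}

theorem class_clamp_cont (hf : Nl f M) : Continuous (fun a => f (max 0 (min 1 a))) :=
  hf.cont.comp_continuous (by fun_prop) clamp_mem

/-- the solution extended by zero -/
def class_ext (u : ℝ → E N → ℝ) (t : ℝ) (x : E N) : ℝ := if 0 < t then u t x else 0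

theorem class_ext_meas (hu : Classical f U u) : Measurable (Function.uncurry (class_ext u)) := by
  classical
  have h1 : Function.uncurry (class_ext u) = (Ioi 0 ×ˢ univ : Set (ℝ × E N)).piecewise
      (fun p => u p.1 p.2) (fun _ => 0) := by
    funext p
    by_cases hp : 0 < p.1
    · rw [piecewise_eq_of_mem _ _ _ (show p ∈ (Ioi 0 ×ˢ univ : Set (ℝ × E N)) from ⟨hp, mem_univ _⟩)]
      simp [Function.uncurry, class_ext, hp]
    · rw [piecewise_eq_of_notMem _ _ _
        (show p ∉ (Ioi 0 ×ˢ univ : Set (ℝ × E N)) from fun h => hp h.1)]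
      simp [Function.uncurry, class_ext, hp]
  rw [h1]
  exact hu.cont.measurable_piecewise continuousOn_const (measurableSet_Ioi.prod MeasurableSet.univ)

/-- the Duhamel integrand is integrable -/
theorem class_F_int (hf : Nl f M) (hu : Classical f U u) {t : ℝ} (ht : 0 < t) (x : E N) :
    IntegrableOn (fun r => P (t - r) (fun y => f (u r y)) x) (Icc 0 t) := by
  rw [integrableOn_Icc_iff_integrableOn_Ioo]
  have hm : StronglyMeasurable (fun r => ∫ y, heatK (t - r) (x - y) *
      f (max 0 (min 1 (class_ext u r y)))) := by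
    apply StronglyMeasurable.integral_prod_right
      (f := fun s y => heatK (t - s) (x - y) * f (max 0 (min 1 (class_ext u s y))))
    apply Measurable.stronglyMeasurable
    apply Measurable.mul
    · exact heatK_meas.comp (f := fun q : ℝ × E N => (t - q.1, x - q.2)) (by fun_prop)
    · exact (class_clamp_cont hf).measurable.comp (class_ext_meas hu)
  have he : EqOn (fun r => ∫ y, heatK (t - r) (x - y) * f (max 0 (min 1 (class_ext u r y))))
      (fun r => P (t - r) (fun y => f (u r y)) x) (Ioo 0 t) := by
    intro r hr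
    unfold P
    simp only
    congr 1
    funext y
    have : class_ext u r y = u r y := by simp [class_ext, hr.1]
    rw [this, clamp_eq (hu.mem r hr.1 y)]
  have hm2 : AEStronglyMeasurable (fun r => P (t - r) (fun y => f (u r y)) x)
      (volume.restrict (Ioo 0 t)) :=
    hm.aestronglyMeasurable.congr
      ((ae_restrict_iff' measurableSet_Ioo).mpr (Eventually.of_forall he))
  have hfin : IsFiniteMeasure (volume.restrict (Ioo (0:ℝ) t)) := ⟨by simp⟩
  apply Integrable.of_bound hm2 M
  · filter_upwards [ae_restrict_mem measurableSet_Ioo] with r hr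
    have hts : 0 < t - r := by linarith [hr.2]
    exact P_abs_le hts (class_fu_cont hf hu hr.1).measurable
      (fun y => class_f_bd hf (hu.mem r hr.1 y)) x

theorem class_mild (hf : Nl f M) (hU : MeasurableSet U) (hu : Classical f U u) {t : ℝ} (ht : 0 < t)
    (x : E N) : u t x = P t (U.indicator 1) x + ∫ r in (0:ℝ)..t, P (t - r) (fun y => f (u r y)) x := by
  have hF := class_F_int hf hu ht x
  have hF' : IntegrableOn (fun r => P (t - r) (fun y => f (u r y)) x) (uIcc 0 t) := by
    rwa [uIcc_of_le ht.le]
  -- b → t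
  have s1 : ∀ a ∈ Ioo 0 t, u t x - P (t - a) (u a) x =
      ∫ r in a..t, P (t - r) (fun y => f (u r y)) x := by
    intro a ha
    have hFa : IntegrableOn (fun r => P (t - r) (fun y => f (u r y)) x) (uIcc a t) := by
      rw [uIcc_of_le ha.2.le]
      exact hF.mono_set (Icc_subset_Icc_left ha.1.le)
    have h1 := intervalIntegral.continuousOn_primitive_interval hFa t right_mem_uIcc
    have h2 : Tendsto (fun b => ∫ r in a..b, P (t - r) (fun y => f (u r y)) x) (𝓝[<] t)
        (𝓝 (∫ r in a..t, P (t - r) (fun y => f (u r y)) x)) := by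
      apply h1.tendsto.mono_left
      rw [uIcc_of_le ha.2.le]
      exact nhdsWithin_le_of_mem (mem_of_superset (Ioo_mem_nhdsLT ha.2) Ioo_subset_Icc_self)
    have h3 := (class_end hu ht x).sub_const (P (t - a) (u a) x)
    refine tendsto_nhds_unique h3 (h2.congr' ?_)
    filter_upwards [Ioo_mem_nhdsLT ha.2] with b hb
    exact (class_B hf hu ha.1 hb.1.le hb.2 x).symm
  -- a → 0
  have h1 := intervalIntegral.continuousOn_primitive_interval_left hF' 0 left_mem_uIcc
  have h2 : Tendsto (fun a => ∫ r in a..t, P (t - r) (fun y => f (u r y)) x) (𝓝[>] 0)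
      (𝓝 (∫ r in (0:ℝ)..t, P (t - r) (fun y => f (u r y)) x)) := by
    apply h1.tendsto.mono_left
    rw [uIcc_of_le ht.le]
    exact nhdsWithin_le_of_mem (mem_of_superset (Ioo_mem_nhdsGT ht) Ioo_subset_Icc_self)
  have h3 := (class_start hu hU ht x).const_sub (u t x)
  have h4 := tendsto_nhds_unique h3 (h2.congr' (by
    filter_upwards [Ioo_mem_nhdsGT ht] with a ha
    exact (s1 a ha).symm))
  linarith

end flow4

theorem classical_eq (hf : Nl f M) {U : Set (E N)} (hU : MeasurableSet U) {u : ℝ → E N → ℝ}
    (hu : Classical f U u) : ∀ t, 0 < t → ∀ x, u t x = S f M t (U.indicator 1) x := by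
  have hUm : Measurable (U.indicator (1 : E N → ℝ)) := measurable_one.indicator hU
  have hD : Dat (U.indicator (1 : E N → ℝ)) := ⟨hUm, fun y => by
    by_cases hy : y ∈ U <;> simp [hy]⟩
  have hS : Sol f (U.indicator 1) (class_ext u) := by
    refine ⟨class_ext_meas hu, fun t ht x => ?_, fun t ht x => ?_⟩
    · simp only [class_ext, ht, if_true]
      exact hu.mem t ht x
    · have h1 : class_ext u t x = u t x := by simp [class_ext, ht]
      rw [h1, class_mild hf hU hu ht x]
      congr 1
      apply intervalIntegral.integral_congr_ae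
      refine Eventually.of_forall fun s hs => ?_
      rw [uIoc_of_le ht.le] at hs
      unfold P
      congr 1
      funext y
      simp [class_ext, hs.1]
  intro t ht x
  have h1 := sol_eq hf hD hS ht x
  rw [← h1]
  simp [class_ext, ht]

end

end Pool.Agent.AP157
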