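import Pool.Agent.AP157.Fin
import Pool.Agent.AP157.Class

/-!
# From the hypotheses of the problem to the standing assumptions
-/

set_option autoImplicit false

open MeasureTheory Real Set Filter Topology
open scoped ENNReal

namespace Pool.Agent.AP157

open Pool.Agent.X297.KP

noncomputable section

variable {N : ℕ} {f : ℝ → ℝ} {M : ℝ}

theorem deriv_of_Ioo {x : ℝ} (hx : x ∈ Ioo (0:ℝ) 1) : derivWithin f (Icc 0 1) x = deriv f x :=
  derivWithin_of_mem_nhds (Icc_mem_nhds hx.1 hx.2)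

theorem derivWithin_cont (hf : ContDiffOn ℝ 1 f (Icc 0 1)) :
    ContinuousOn (derivWithin f (Icc 0 1)) (Icc 0 1) :=
  hf.continuousOn_derivWithin (uniqueDiffOn_Icc zero_lt_one) le_rfl

theorem nl_of (hf : ContDiffOn ℝ 1 f (Icc 0 1)) (h0 : f 0 = 0) (h1 : f 1 = 0) :
    ∃ M, Nl f M := by
  obtain ⟨C, hC⟩ := (isCompact_Icc (a := (0:ℝ)) (b := 1)).exists_bound_of_continuousOn
    (derivWithin_cont hf)
  refine ⟨max C 1, hf.continuousOn, h0, h1, le_max_right _ _, fun a ha b hb => ?_⟩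
  have := (convex_Icc (0:ℝ) 1).norm_image_sub_le_of_norm_derivWithin_le (𝕜 := ℝ) (f := f)
    (C := max C 1) (hf.differentiableOn one_ne_zero)
    (fun x hx => (hC x hx).trans (le_max_left _ _)) hb ha
  simpa [Real.norm_eq_abs] using this

/-- If the derivative is at most `-ω` on `[a,b] ⊆ [0,1]` then `f p - f q ≤ -ω (p - q)` there. -/
theorem decr_of (hf : ContDiffOn ℝ 1 f (Icc 0 1)) {a b c : ℝ} (ha : 0 ≤ a) (hb : b ≤ 1)
    (h : ∀ x ∈ Icc a b, derivWithin f (Icc 0 1) x ≤ c) {p q : ℝ} (hq : a ≤ q) (hqp : q ≤ p)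
    (hp : p ≤ b) : f p - f q ≤ c * (p - q) := by
  have hsub : Icc a b ⊆ Icc (0:ℝ) 1 := Icc_subset_Icc ha hb
  apply (convex_Icc a b).image_sub_le_mul_sub_of_deriv_le (hf.continuousOn.mono hsub)
    (C := c) ?_ ?_ q ⟨hq, hqp.trans hp⟩ p ⟨hq.trans hqp, hp⟩ hqp
  · rw [interior_Icc]
    intro x hx
    have hx' : x ∈ Ioo (0:ℝ) 1 := ⟨lt_of_le_of_lt ha hx.1, lt_of_lt_of_le hx.2 hb⟩
    exact ((hf.differentiableOn one_ne_zero x ⟨hx'.1.le, hx'.2.le⟩).differentiableAt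
      (Icc_mem_nhds hx'.1 hx'.2)).differentiableWithinAt
  · intro x hx
    rw [interior_Icc] at hx
    have hx' : x ∈ Ioo (0:ℝ) 1 := ⟨lt_of_le_of_lt ha hx.1, lt_of_lt_of_le hx.2 hb⟩
    rw [← deriv_of_Ioo hx']
    exact h x ⟨hx.1.le, hx.2.le⟩

theorem near_of (hf : ContDiffOn ℝ 1 f (Icc 0 1)) {x₀ c : ℝ} (hx₀ : x₀ ∈ Icc (0:ℝ) 1)
    (h : derivWithin f (Icc 0 1) x₀ < c) :
    ∃ d, 0 < d ∧ ∀ x ∈ Icc (0:ℝ) 1, |x - x₀| ≤ d → derivWithin f (Icc 0 1) x ≤ c := by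
  have h1 := (derivWithin_cont hf) x₀ hx₀
  have h2 := h1.eventually_lt_const h
  rw [eventually_nhdsWithin_iff, Metric.eventually_nhds_iff] at h2
  obtain ⟨d, hd, h3⟩ := h2
  refine ⟨d / 2, by positivity, fun x hx hxd => (h3 ?_ hx).le⟩
  rw [Real.dist_eq]
  linarith

theorem bst_of (hf : ContDiffOn ℝ 1 f (Icc 0 1)) (h0 : derivWithin f (Icc 0 1) 0 < 0)
    (h1 : derivWithin f (Icc 0 1) 1 < 0) {α : ℝ} (hα : α ∈ Ioo (0:ℝ) 1)
    (hneg : ∀ s ∈ Icc 0 α, f s ≤ 0) (hpos : ∀ s ∈ Ioo α 1, 0 < f s) :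
    ∃ δ ω, Bst f α δ ω := by
  set c := max (derivWithin f (Icc 0 1) 0) (derivWithin f (Icc 0 1) 1) / 2 with hc
  have hm : max (derivWithin f (Icc 0 1) 0) (derivWithin f (Icc 0 1) 1) < 0 := max_lt h0 h1
  have hc0 : c < 0 := by linarith
  obtain ⟨d₀, hd₀, hn₀⟩ := near_of hf (x₀ := 0) (c := c) ⟨le_rfl, zero_le_one⟩
    (lt_of_le_of_lt (le_max_left _ _) (by linarith))
  obtain ⟨d₁, hd₁, hn₁⟩ := near_of hf (x₀ := 1) (c := c) ⟨zero_le_one, le_rfl⟩
    (lt_of_le_of_lt (le_max_right _ _) (by linarith))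
  set δ := min (1 / 8) (min d₀ d₁ / 2) with hδ
  have hδ0 : 0 < δ := lt_min (by norm_num) (by have := lt_min hd₀ hd₁; positivity)
  have hδ1 : δ ≤ 1 / 8 := min_le_left _ _
  have hδ2 : 2 * δ ≤ min d₀ d₁ := by
    have : δ ≤ min d₀ d₁ / 2 := min_le_right _ _
    linarith
  have hδ3 : 2 * δ ≤ d₀ := hδ2.trans (min_le_left _ _)
  have hδ4 : 2 * δ ≤ d₁ := hδ2.trans (min_le_right _ _)
  refine ⟨δ, -c, hα.1, hα.2, hneg, hpos, hδ0, hδ1, by linarith, ?_, ?_⟩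
  · intro p q hq hqp hp
    have := decr_of hf (a := 0) (b := 2 * δ) (c := c) le_rfl (by linarith) (fun x hx => by
      apply hn₀ x ⟨hx.1, by linarith [hx.2]⟩
      rw [sub_zero, abs_of_nonneg hx.1]
      linarith [hx.2]) hq hqp hp
    linarith
  · intro p q hq hqp hp
    have := decr_of hf (a := 1 - 2 * δ) (b := 1) (c := c) (by linarith) le_rfl (fun x hx => by
      apply hn₁ x ⟨by linarith [hx.1], hx.2⟩
      rw [abs_sub_comm, abs_of_nonneg (by linarith [hx.2])]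
      linarith [hx.1]) hq hqp hp
    linarith

/-- The invasion property in terms of the semiflow. -/
theorem inv_of (hf : Nl f M) {ρ : ℝ} (hI : Invasion N f ρ) : Inv N f M ρ := by
  obtain ⟨v, hv, hlim⟩ := hI
  intro R ε hε
  have h1 := Metric.tendstoUniformlyOn_iff.mp (hlim R) ε hε
  obtain ⟨T, hT⟩ := (h1.and (eventually_gt_atTop 0)).exists_forall_of_atTop
  refine ⟨T, fun t ht x hx => ?_⟩
  obtain ⟨h2, h3⟩ := hT t ht
  have h4 := h2 x (by simpa using hx)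
  rw [classical_eq hf Metric.isOpen_ball.measurableSet hv t h3 x, Real.dist_eq] at h4
  have h5 := (abs_lt.mp h4).2
  unfold bb
  linarith

/-- Convergence in `L^∞_loc` implies convergence almost everywhere. -/
theorem omega_ae {v : ℕ → E N → ℝ} {ψ : E N → ℝ}
    (h : ∀ R : ℝ, Tendsto (fun n => eLpNorm (fun y => v n y - ψ y) ⊤
      (volume.restrict (Metric.ball 0 R))) atTop (𝓝 0)) :
    ∀ᵐ y, Tendsto (fun n => v n y) atTop (𝓝 (ψ y)) := by
  have h2 : ∀ᵐ y : E N, ∀ m : ℕ, y ∈ Metric.ball (0 : E N) (m : ℝ) → ∀ n,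
      ‖v n y - ψ y‖ₑ ≤ eLpNorm (fun y => v n y - ψ y) ⊤
        (volume.restrict (Metric.ball 0 (m : ℝ))) := by
    rw [ae_all_iff]
    intro m
    refine (ae_restrict_iff' Metric.isOpen_ball.measurableSet).mp ?_
    rw [ae_all_iff]
    intro n
    rw [eLpNorm_exponent_top]
    exact ae_le_eLpNormEssSup
  filter_upwards [h2] with y hy
  obtain ⟨m, hm⟩ := exists_nat_gt ‖y‖
  have h3 := hy m (by simpa using hm)
  have h4 : Tendsto (fun n => ‖v n y - ψ y‖ₑ) atTop (𝓝 0) :=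
    tendsto_of_tendsto_of_tendsto_of_le_of_le tendsto_const_nhds (h m) (fun _ => zero_le) h3
  rw [tendsto_iff_norm_sub_tendsto_zero]
  have h5 := (ENNReal.tendsto_toReal (by simp : (0 : ℝ≥0∞) ≠ ⊤)).comp h4
  simpa [Function.comp_def] using h5

end

end Pool.Agent.AP157
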