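import Pool.Agent.AP157.Cls
import Pool.Agent.AP157.Kern
import Pool.Agent.AP157.Ass

/-!
# From the hypotheses of the problem to the assumptions of the class

`AP157/Ass.lean` has nl_of, near_of, decr_of, derivWithin_cont.
cls_of.  Near 0: near_of at 0 with c = μ (derivWithin ≤ μ₀ < μ) and decr_of give st0 on [0,2δ] and f q ≤ μ q on a small [0,d].  At 1: derivWithin f (Icc 0 1) 1 ≤ 0 < μ because f ≥ 0 = f 1 on (α,1) (difference quotients), near_of at 1, decr_of: st1.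
d₁ ∈ (α,1) with f q ≤ μ q on [0,d₁]: for q ≤ α use hlin and μ₀ ≤ μ; if α > 0: f α ≤ μ₀ α < μ α and continuity of f on [0,1] give q slightly above α; if α = 0 use the neighbourhood of 0.
par_zero.  L from Z.spread; κ₁ = C₁ = L, l = 1/(2L), μ = 1/(8L²): l² + μ = 3/(8L²) < 1/(2L²) = l/κ₁.
par_speed.  c > 0; choose c' with 2√μ₀ < c' < c, κ₁ = 1/c', l = c'/2, μ ∈ (μ₀, c'²/4): l² + μ < c'²/2 = l/κ₁.  fast: robust gives ε₀, R₀, C₇; T from hs ε₀ (T ≥ 0 wlog).  C₁ := C₇ + T + (R₀ + c C₇)/c' + ... large.  If t ≥ κ₁‖x-y‖ + C₁, put s = t - C₇ ≥ T,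
w = z {x} s; for ‖y'-y‖ ≤ R₀: ‖y'-x‖ ≤ ‖x-y‖ + R₀ ≤ c (1+s), so w y' ≥ S (1+s) (bb N ρ) (y'-x) ≥ 1 - ε₀ ≥ z {y} 0 y' - ε₀; robust: z {y} 0 ≤ S C₇ w = z {x} t (Z.flow).
-/

set_option autoImplicit false

open MeasureTheory Real Set Filter Topology
open scoped ENNReal

namespace Pool.Agent.AP157

open Pool.Agent.X297.KP

noncomputable section

variable {N : ℕ} {f : ℝ → ℝ} {M : ℝ} {z : Set (E N) → ℝ → E N → ℝ} {α μ d₁ δ κ₁ C₁ l : ℝ}

/-! ## Auxiliary lemmas -/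

theorem asb_deriv_one (hf : ContDiffOn ℝ 1 f (Icc 0 1)) (h1 : f 1 = 0) {α : ℝ}
    (hα : α ∈ Ico (0:ℝ) 1) (hpos : ∀ s ∈ Ioo α 1, 0 < f s) :
    derivWithin f (Icc 0 1) 1 ≤ 0 := by
  have hd : HasDerivWithinAt f (derivWithin f (Icc 0 1) 1) (Icc 0 1) 1 :=
    (hf.differentiableOn one_ne_zero 1 ⟨zero_le_one, le_rfl⟩).hasDerivWithinAt
  rw [hasDerivWithinAt_iff_tendsto_slope] at hd
  have hset : 𝓝[Icc (0:ℝ) 1 \ {1}] 1 = 𝓝[<] 1 := by
    have : Icc (0:ℝ) 1 \ {1} = Ico 0 1 := by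
      ext x
      simp only [Set.mem_sdiff, mem_Icc, mem_singleton_iff, mem_Ico]
      constructor
      · rintro ⟨⟨h1, h2⟩, h3⟩
        exact ⟨h1, lt_of_le_of_ne h2 h3⟩
      · rintro ⟨h1, h2⟩
        exact ⟨⟨h1, h2.le⟩, h2.ne⟩
    rw [this]
    exact nhdsWithin_Ico_eq_nhdsLT zero_lt_one
  rw [hset] at hd
  refine le_of_tendsto hd ?_
  filter_upwards [Ioo_mem_nhdsLT hα.2] with x hx
  have h2 := hpos x hx
  rw [slope_def_field, h1]
  apply div_nonpos_of_nonneg_of_nonpos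
  · linarith
  · linarith [hx.2]

theorem cls_of (hf : ContDiffOn ℝ 1 f (Icc 0 1)) (h0 : f 0 = 0) (h1 : f 1 = 0) {α μ₀ μ : ℝ}
    (hα : α ∈ Ico (0:ℝ) 1) (hpos : ∀ s ∈ Ioo α 1, 0 < f s) (hlin : ∀ s ∈ Icc 0 α, f s ≤ μ₀ * s)
    (hd : derivWithin f (Icc 0 1) 0 ≤ μ₀) (hμ₀ : 0 ≤ μ₀) (hμ : μ₀ < μ) :
    ∃ d₁ δ, Cls f α μ d₁ δ := by
  obtain ⟨e₀, he₀, hn₀⟩ := near_of hf (x₀ := 0) (c := μ) ⟨le_rfl, zero_le_one⟩
    (lt_of_le_of_lt hd hμ)
  obtain ⟨e₁, he₁, hn₁⟩ := near_of hf (x₀ := 1) (c := μ) ⟨zero_le_one, le_rfl⟩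
    (lt_of_le_of_lt (asb_deriv_one hf h1 hα hpos) (by linarith))
  set δ := min (1 / 8) (min e₀ e₁ / 2) with hδ
  have hδ0 : 0 < δ := lt_min (by norm_num) (by have := lt_min he₀ he₁; positivity)
  have hδ1 : δ ≤ 1 / 8 := min_le_left _ _
  have hδ2 : 2 * δ ≤ min e₀ e₁ := by
    have : δ ≤ min e₀ e₁ / 2 := min_le_right _ _
    linarith
  have hδ3 : 2 * δ ≤ e₀ := hδ2.trans (min_le_left _ _)
  have hδ4 : 2 * δ ≤ e₁ := hδ2.trans (min_le_right _ _)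
  have st0 : ∀ p q, 0 ≤ q → q ≤ p → p ≤ 2 * δ → f p - f q ≤ μ * (p - q) := by
    intro p q hq hqp hp
    exact decr_of hf (a := 0) (b := 2 * δ) (c := μ) le_rfl (by linarith) (fun x hx => by
      apply hn₀ x ⟨hx.1, by linarith [hx.2]⟩
      rw [sub_zero, abs_of_nonneg hx.1]
      linarith [hx.2]) hq hqp hp
  have st1 : ∀ p q, 1 - 2 * δ ≤ q → q ≤ p → p ≤ 1 → f p - f q ≤ μ * (p - q) := by
    intro p q hq hqp hp
    exact decr_of hf (a := 1 - 2 * δ) (b := 1) (c := μ) (by linarith) le_rfl (fun x hx => by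
      apply hn₁ x ⟨by linarith [hx.1], hx.2⟩
      rw [abs_sub_comm, abs_of_nonneg (by linarith [hx.2])]
      linarith [hx.1]) hq hqp hp
  -- the number `d₁`
  have hd1 : ∃ d₁, α < d₁ ∧ d₁ < 1 ∧ ∀ q ∈ Icc (0:ℝ) d₁, f q ≤ μ * q := by
    rcases hα.1.eq_or_lt with hα0 | hα0
    · refine ⟨2 * δ, by linarith, by linarith, fun q hq => ?_⟩
      have := st0 q 0 le_rfl hq.1 hq.2
      rw [h0] at this
      linarith
    · have hfa : f α < μ * α := lt_of_le_of_lt (hlin α ⟨hα.1, le_rfl⟩)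
        (mul_lt_mul_of_pos_right hμ hα0)
      have hcont : ContinuousWithinAt (fun q => f q - μ * q) (Icc (0:ℝ) 1) α :=
        (hf.continuousOn α ⟨hα.1, hα.2.le⟩).sub (by fun_prop)
      have hev := hcont.eventually_lt_const (u := 0) (by simpa using hfa)
      rw [eventually_nhdsWithin_iff, Metric.eventually_nhds_iff] at hev
      obtain ⟨r, hr, hr2⟩ := hev
      refine ⟨min (α + r / 2) ((α + 1) / 2), lt_min (by linarith) (by linarith [hα.2]),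
        lt_of_le_of_lt (min_le_right _ _) (by linarith [hα.2]), fun q hq => ?_⟩
      have hq1 : q ≤ α + r / 2 := hq.2.trans (min_le_left _ _)
      have hq2 : q ≤ (α + 1) / 2 := hq.2.trans (min_le_right _ _)
      rcases le_total q α with hqa | hqa
      · have := hlin q ⟨hq.1, hqa⟩
        have := mul_le_mul_of_nonneg_right hμ.le hq.1
        linarith
      · have := hr2 (y := q) (by
          rw [Real.dist_eq, abs_of_nonneg (by linarith)]
          linarith) ⟨hq.1, by linarith [hα.2]⟩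
        linarith
  obtain ⟨d₁, h1d, h2d, h3d⟩ := hd1
  exact ⟨d₁, δ,
    { α_nn := hα.1
      α_lt := h1d
      d_lt := h2d
      pos := hpos
      μ_nn := by linarith
      lin := h3d
      δ_pos := hδ0
      δ_le := hδ1
      st0 := st0
      st1 := st1 }⟩

theorem par_zero (Z : ZFam f M z) : ∃ μ κ₁ C₁ l : ℝ, 0 < μ ∧ Par z μ κ₁ C₁ l := by
  obtain ⟨L, hL, hs⟩ := Z.spread
  refine ⟨1 / (8 * L ^ 2), L, L, 1 / (2 * L), by positivity, hL, hL.le, by positivity, ?_, ?_⟩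
  · have h : 1 / (2 * L) / L - ((1 / (2 * L)) ^ 2 + 1 / (8 * L ^ 2)) = 1 / (8 * L ^ 2) := by
      field_simp
      ring
    have h2 : 0 < 1 / (8 * L ^ 2) := by positivity
    linarith
  · intro x y t ht
    exact hs x y t (by linarith)

theorem par_speed (Z : ZFam f M z) {ρ : ℝ} (hz : ∀ (x : E N) (t : ℝ) (y : E N), 0 ≤ t →
      S f M (1 + t) (bb N ρ) (y - x) ≤ z {x} t y) {μ₀ c : ℝ} (hμ₀ : 0 ≤ μ₀) (hc : 2 * √μ₀ < c)
    (hs : ∀ ε : ℝ, 0 < ε → ∃ T : ℝ, ∀ t, T ≤ t → ∀ x : E N, ‖x‖ ≤ c * t →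
      1 - ε ≤ S f M t (bb N ρ) x) : ∃ μ κ₁ C₁ l : ℝ, μ₀ < μ ∧ Par z μ κ₁ C₁ l := by
  obtain ⟨c', hc1, hc2⟩ := exists_between hc
  have hs0 : 0 ≤ √μ₀ := Real.sqrt_nonneg _
  have hc'0 : 0 < c' := by linarith
  have hc0 : 0 < c := by linarith
  have hμc : μ₀ < c' ^ 2 / 4 := by
    have h1 : √μ₀ ^ 2 = μ₀ := Real.sq_sqrt hμ₀
    nlinarith
  obtain ⟨μ, hμ1, hμ2⟩ := exists_between hμc
  obtain ⟨ε₀, R₀, C₇, hε₀, hR₀, hC₇, hrob⟩ := Z.robust
  obtain ⟨T, hT⟩ := hs ε₀ hε₀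
  have hT0 : 0 ≤ max T 0 := le_max_right _ _
  refine ⟨μ, 1 / c', C₇ + max T 0 + (R₀ + c * C₇) / c', c' / 2, hμ1, by positivity, by positivity,
    by positivity, ?_, ?_⟩
  · have h : c' / 2 / (1 / c') = c' ^ 2 / 2 := by
      field_simp
    rw [h]
    nlinarith
  · intro x y t ht
    have hxy : 0 ≤ ‖x - y‖ := norm_nonneg _
    -- the time `s`
    have ht2 : ‖x - y‖ + (R₀ + c * C₇) + c' * (C₇ + max T 0) ≤ c' * t := by
      have h := mul_le_mul_of_nonneg_left ht hc'0.le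
      have e : c' * (1 / c' * ‖x - y‖ + (C₇ + max T 0 + (R₀ + c * C₇) / c')) =
          ‖x - y‖ + (R₀ + c * C₇) + c' * (C₇ + max T 0) := by
        field_simp
        ring
      rw [e] at h
      exact h
    have hsT : max T 0 + C₇ ≤ t := by
      have h1 : 0 ≤ 1 / c' * ‖x - y‖ := by positivity
      have h2 : 0 ≤ (R₀ + c * C₇) / c' := by positivity
      linarith
    have hst : 0 ≤ t - C₇ := by linarith
    have hw : ∀ y', ‖y' - y‖ ≤ R₀ → z {y} 0 y' - ε₀ ≤ z {x} (t - C₇) y' := by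
      intro y' hy'
      have h1 : ‖y' - x‖ ≤ c * (1 + (t - C₇)) := by
        have h2 : ‖y' - x‖ ≤ ‖y' - y‖ + ‖x - y‖ := by
          calc ‖y' - x‖ = ‖(y' - y) - (x - y)‖ := by congr 1; abel
            _ ≤ ‖y' - y‖ + ‖x - y‖ := norm_sub_le _ _
        have h3 : c' * t ≤ c * t := mul_le_mul_of_nonneg_right hc2.le (by linarith)
        have h4 : 0 ≤ c' * (C₇ + max T 0) := by positivity
        nlinarith
      have h5 := hT (1 + (t - C₇)) (by
        have := le_max_left T 0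
        linarith) (y' - x) h1
      have h6 := hz x (t - C₇) y' hst
      have h7 := ((Z.dat {y} 0).mem y').2
      linarith
    have h8 := hrob (z {x} (t - C₇)) (Z.dat {x} (t - C₇)) y hw
    intro y'
    have h9 := h8 y'
    rw [← Z.flow {x} (t - C₇) C₇ hst hC₇ y'] at h9
    rwa [sub_add_cancel] at h9

end

end Pool.Agent.AP157
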