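import Pool.Agent.AP157.Ass

set_option autoImplicit false

/-!
# Q1 for bistable nonlinearities (a special case of `SingleFrontPlanarity`)

Asymptotic local planarity for `∂_t u = Δu + f(u)` in `ℝ^N`, `N ≥ 1`, when `f` is of bistable type
and the invasion property holds, for every initial set `U` which satisfies (C) and
`d_H(U, U_ρ) < ∞`.  The definitions are in `Pool/Agent/AP157/Prob.lean`.
-/

open MeasureTheory Set Filter

namespace Pool.Agent.AP157.Bistable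

open Pool.Agent.X297.KP Pool.Agent.AP157

/-- Let `f ∈ C¹([0,1])`, `f(0) = f(1) = 0`, `f'(0) < 0`, `f'(1) < 0`, `f ≤ 0` on `[0,α]` and `f > 0`
on `(α,1)` for some `α ∈ (0,1)` (in particular `f` may be any bistable nonlinearity), and let the
invasion property hold for `ρ > 0`.  Let `U ⊆ ℝ^N`, `N ≥ 1`, be measurable, `d_H(U,U_ρ) < ∞`, and
let `U` satisfy (C).  Then every element `ψ` of `Ω(u)`, where `u` is the solution with initial
datum `1_U`, is `ψ(x) = Ψ(x·e)` with `Ψ` of class `C²`, constant or strictly monotone. -/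
theorem result {N : ℕ} (hN : 1 ≤ N) {f : ℝ → ℝ} (hf : ContDiffOn ℝ 1 f (Icc 0 1)) (h0 : f 0 = 0)
    (h1 : f 1 = 0) (hf0 : derivWithin f (Icc 0 1) 0 < 0) (hf1 : derivWithin f (Icc 0 1) 1 < 0)
    {α : ℝ} (hα : α ∈ Ioo (0:ℝ) 1) (hneg : ∀ s ∈ Icc 0 α, f s ≤ 0)
    (hpos : ∀ s ∈ Ioo α 1, 0 < f s) {ρ : ℝ} (hρ : 0 < ρ) (hI : Invasion N f ρ)
    {U : Set (E N)} (hU : MeasurableSet U) (hH : Metric.hausdorffEDist U (shrink U ρ) < ⊤)
    (hC : CondC U) {u : ℝ → E N → ℝ} (hu : Classical f U u) :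
    ∀ ψ ∈ OmegaLimit u, OneDimMono ψ := by
  rintro ψ ⟨_, t, x, ht, hlim⟩
  obtain ⟨M, hM⟩ := nl_of hf h0 h1
  obtain ⟨δ, ω, B⟩ := bst_of hf hf0 hf1 hα hneg hpos
  have h2 := omega_ae hlim
  have h3 : ∀ᵐ y, Tendsto (fun n => S f M (t n) (U.indicator 1) (x n + y)) atTop
      (nhds (ψ y)) := by
    filter_upwards [h2] with y hy
    refine hy.congr' ?_
    filter_upwards [ht.eventually_gt_atTop 0] with n hn
    exact classical_eq hM hU hu (t n) hn (x n + y)
  obtain ⟨v, ⟨e, he, Ψ, hΨ, hm, hv⟩, hψ⟩ := limit_planar (by omega) hM B hρ (inv_of hM hI) hU hH hC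
    ht h3
  refine ⟨e, he, Ψ, hΨ, hm, ?_⟩
  filter_upwards [hψ] with y hy
  rw [hy, hv]

end Pool.Agent.AP157.Bistable
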