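import Pool.Agent.AP157.Cls
import Pool.Agent.AP157.Kern

/-!
# Gronwall inequality with a source

-/

set_option autoImplicit false

open MeasureTheory Real Set Filter Topology
open scoped ENNReal

namespace Pool.Agent.AP157

open Pool.Agent.X297.KP

noncomputable section

variable {N : ℕ} {f : ℝ → ℝ} {M : ℝ} {z : Set (E N) → ℝ → E N → ℝ} {α μ d₁ δ κ₁ C₁ l : ℝ}

theorem gsrc_Pmeas {H : E N → ℝ} (hH : Measurable H) (s : ℝ) : Measurable (fun y => P s H y) := by
  unfold P
  apply StronglyMeasurable.measurable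
  apply StronglyMeasurable.integral_prod_right (f := fun y z => heatK s (y - z) * H z)
  apply Measurable.stronglyMeasurable
  apply Measurable.mul
  · exact heatK_meas.comp (f := fun q : E N × E N => (s, q.1 - q.2)) (by fun_prop)
  · exact hH.comp measurable_snd

theorem gsrc_int_le {g : ℝ → ℝ} {t : ℝ} (ht : 0 < t) (hg : ∀ s ∈ Ioo 0 t, 0 ≤ g s) :
    ENNReal.ofReal (∫ s in (0:ℝ)..t, g s) ≤ ∫⁻ s in Ioo 0 t, ENNReal.ofReal (g s) := by
  rw [intervalIntegral.integral_of_le ht.le, integral_Ioc_eq_integral_Ioo]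
  by_cases hi : IntegrableOn g (Ioo 0 t) volume
  · rw [ofReal_integral_eq_lintegral_ofReal hi]
    filter_upwards [ae_restrict_mem measurableSet_Ioo] with s hs
    exact hg s hs
  · rw [integral_undef hi]
    simp

theorem gron_src {T m b : ℝ} (hT : 0 < T) (hm : 0 < m) {d : ℝ → E N → ℝ}
    (hd : Measurable (Function.uncurry d)) (hdb : ∀ t ∈ Ioc 0 T, ∀ x, d t x ∈ Icc 0 b)
    {D H : E N → ℝ} (hD : Measurable D) (hDb : ∀ x, D x ∈ Icc 0 b) (hH : Measurable H)
    (hHb : ∀ x, H x ∈ Icc 0 b)
    (h : ∀ t ∈ Ioc 0 T, ∀ x, d t x ≤ P t D x +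
      ∫ s in (0:ℝ)..t, P (t - s) (fun y => m * d s y + P s H y) x) :
    ∀ t ∈ Ioc 0 T, ∀ x, d t x ≤ Real.exp (m * t) * (P t D x + P t H x / m) := by
  have hb : 0 ≤ b := (hDb 0).1.trans (hDb 0).2
  set c : ℝ := b + b / m + 1 with hc
  have hc0 : 0 < c := by positivity
  -- facts about `P t H`
  have hHa : ∀ y, |H y| ≤ b := fun y => by rw [abs_of_nonneg (hHb y).1]; exact (hHb y).2
  have hDa : ∀ y, |D y| ≤ b := fun y => by rw [abs_of_nonneg (hDb y).1]; exact (hDb y).2
  have hPH0 : ∀ t, 0 < t → ∀ x, 0 ≤ P t H x := fun t ht x => P_nonneg ht (fun y => (hHb y).1) x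
  have hPHb : ∀ t, 0 < t → ∀ x, P t H x ≤ b := fun t ht x => P_le ht hH hHa (fun y => (hHb y).2) x
  have hds : ∀ s, Measurable (d s) := fun s => hd.comp (f := fun y : E N => (s, y)) (by fun_prop)
  -- the scaled functions
  set e : ℝ → E N → ℝ := fun t x => d t x + P t H x / m with he
  have he0 : ∀ t ∈ Ioc 0 T, ∀ x, 0 ≤ e t x := fun t ht x =>
    add_nonneg (hdb t ht x).1 (div_nonneg (hPH0 t ht.1 x) hm.le)
  have heb : ∀ t ∈ Ioc 0 T, ∀ x, e t x ≤ b + b / m := fun t ht x =>
    add_le_add (hdb t ht x).2 (div_le_div_of_nonneg_right (hPHb t ht.1 x) hm.le)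
  have hem : ∀ s, Measurable (e s) := fun s => (hds s).add ((gsrc_Pmeas hH s).div_const m)
  set G : E N → ℝ := fun y => D y + H y / m with hG
  have hGm : Measurable G := hD.add (hH.div_const m)
  have hG0 : ∀ y, 0 ≤ G y := fun y => add_nonneg (hDb y).1 (div_nonneg (hHb y).1 hm.le)
  have hGb : ∀ y, G y ≤ b + b / m := fun y =>
    add_le_add (hDb y).2 (div_le_div_of_nonneg_right (hHb y).2 hm.le)
  have hPG : ∀ t, 0 < t → ∀ x, P t G x = P t D x + P t H x / m := by
    intro t ht x
    have hHm : ∀ y, |H y / m| ≤ b + b / m := fun y => by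
      rw [abs_of_nonneg (div_nonneg (hHb y).1 hm.le)]
      have := div_le_div_of_nonneg_right (hHb y).2 hm.le
      linarith
    have hDm : ∀ y, |D y| ≤ b + b / m := fun y => (hDa y).trans (by
      have : 0 ≤ b / m := by positivity
      linarith)
    have h1 := P_add ht hD (hH.div_const m) hDm hHm x
    have h2 : P t (fun y => H y / m) x = P t H x / m := by
      have := P_const_mul (t := t) m⁻¹ H x
      rw [div_eq_inv_mul, ← this]
      congr 1
      funext y
      rw [div_eq_inv_mul]
    rw [← h2, ← h1]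
  -- the inequality for `e`
  have key : ∀ t ∈ Ioc 0 T, ∀ x, e t x ≤ P t G x +
      ∫ s in (0:ℝ)..t, P (t - s) (fun y => m * d s y + P s H y) x := by
    intro t ht x
    have h1 := h t ht x
    have h2 := hPG t ht.1 x
    simp only [he]
    linarith
  have hee : ∀ s y, m * d s y + P s H y = m * e s y := by
    intro s y
    simp only [he]
    field_simp
  -- pass to `ENNReal`
  set d' : ℝ → E N → ℝ≥0∞ := fun t x => if t ≤ T then ENNReal.ofReal (e t x / c) else 0 with hd'
  set D' : E N → ℝ≥0∞ := fun y => ENNReal.ofReal (G y / c) with hD'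
  have hD'm : Measurable D' := (hGm.div_const c).ennreal_ofReal
  have hofc : ENNReal.ofReal c ≠ 0 := (ENNReal.ofReal_pos.2 hc0).ne'
  have hPGe : ∀ t, 0 < t → ∀ x, ENNReal.ofReal (P t G x) =
      ENNReal.ofReal c * ∫⁻ y, ENNReal.ofReal (heatK t (x - y)) * D' y := by
    intro t ht x
    rw [P_ofReal ht hGm hG0 hGb x, ← lintegral_const_mul']
    · apply lintegral_congr
      intro y
      have : ENNReal.ofReal (G y) = ENNReal.ofReal c * D' y := by
        rw [hD', ← ENNReal.ofReal_mul hc0.le]
        congr 1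
        field_simp
      rw [this]
      ring
    · exact ENNReal.ofReal_ne_top
  have hmain : ∀ t, 0 < t → ∀ x, d' t x ≤ ENNReal.ofReal (Real.exp (m * t)) *
      ∫⁻ y, ENNReal.ofReal (heatK t (x - y)) * D' y := by
    refine gronwall (d := d') ?_ hD'm hm.le ?_
    · intro t ht x
      by_cases htT : t ≤ T
      · simp only [hd', if_pos htT]
        rw [ENNReal.ofReal_le_one, div_le_one hc0]
        exact (heb t ⟨ht, htT⟩ x).trans (by linarith)
      · simp only [hd', if_neg htT]
        exact zero_le
    · intro t ht x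
      by_cases htT : t ≤ T
      · have h1 := key t ⟨ht, htT⟩ x
        have h2 : ENNReal.ofReal (e t x) ≤ ENNReal.ofReal (P t G x) +
            ∫⁻ s in Ioo 0 t, ENNReal.ofReal (P (t - s) (fun y => m * d s y + P s H y) x) := by
          refine (ENNReal.ofReal_le_ofReal h1).trans (ENNReal.ofReal_add_le.trans ?_)
          gcongr
          refine gsrc_int_le ht fun s hs => ?_
          refine P_nonneg (by linarith [hs.2]) (fun y => ?_) x
          rw [hee]
          exact mul_nonneg hm.le (he0 s ⟨hs.1, by linarith [hs.2]⟩ y)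
        have h3 : ∫⁻ s in Ioo 0 t, ENNReal.ofReal (P (t - s) (fun y => m * d s y + P s H y) x) =
            ∫⁻ s in Ioo 0 t, ENNReal.ofReal c * ∫⁻ y, ENNReal.ofReal (heatK (t - s) (x - y)) *
              (ENNReal.ofReal m * d' s y) := by
          refine setLIntegral_congr_fun measurableSet_Ioo fun s hs => ?_
          have hsT : s ≤ T := by linarith [hs.2]
          have hs' : s ∈ Ioc 0 T := ⟨hs.1, hsT⟩
          have e1 : (fun y => m * d s y + P s H y) = fun y => m * e s y := by
            funext y; exact hee s y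
          simp only [e1]
          rw [P_ofReal (by linarith [hs.2]) ((hem s).const_mul m)
            (fun y => mul_nonneg hm.le (he0 s hs' y))
            (C := m * (b + b / m)) (fun y => mul_le_mul_of_nonneg_left (heb s hs' y) hm.le) x,
            ← lintegral_const_mul' _ _ ENNReal.ofReal_ne_top]
          apply lintegral_congr
          intro y
          simp only [hd', if_pos hsT]
          have : ENNReal.ofReal (m * e s y) =
              ENNReal.ofReal c * (ENNReal.ofReal m * ENNReal.ofReal (e s y / c)) := by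
            rw [← ENNReal.ofReal_mul hm.le, ← ENNReal.ofReal_mul hc0.le]
            congr 1
            field_simp
          rw [this]
          ring
        rw [h3, lintegral_const_mul' _ _ ENNReal.ofReal_ne_top, hPGe t ht x, ← mul_add] at h2
        have h4 : ENNReal.ofReal (e t x) = ENNReal.ofReal c * d' t x := by
          simp only [hd', if_pos htT]
          rw [← ENNReal.ofReal_mul hc0.le]
          congr 1
          field_simp
        rw [h4] at h2
        exact (ENNReal.mul_le_mul_iff_right hofc ENNReal.ofReal_ne_top).1 h2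
      · simp only [hd', if_neg htT]
        exact zero_le
  intro t ht x
  have h1 := hmain t ht.1 x
  have h2 : ENNReal.ofReal (e t x) ≤ ENNReal.ofReal (Real.exp (m * t) * P t G x) := by
    rw [ENNReal.ofReal_mul (Real.exp_pos _).le, hPGe t ht.1 x]
    have h4 : ENNReal.ofReal (e t x) = ENNReal.ofReal c * d' t x := by
      simp only [hd', if_pos ht.2]
      rw [← ENNReal.ofReal_mul hc0.le]
      congr 1
      field_simp
    rw [h4]
    calc ENNReal.ofReal c * d' t x ≤ ENNReal.ofReal c * (ENNReal.ofReal (Real.exp (m * t)) *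
          ∫⁻ y, ENNReal.ofReal (heatK t (x - y)) * D' y) := by gcongr
      _ = _ := by ring
  have h3 : e t x ≤ Real.exp (m * t) * P t G x :=
    (ENNReal.ofReal_le_ofReal_iff (mul_nonneg (Real.exp_pos _).le
      (P_nonneg ht.1 hG0 x))).1 h2
  rw [hPG t ht.1 x] at h3
  have h5 : 0 ≤ P t H x / m := div_nonneg (hPH0 t ht.1 x) hm.le
  simp only [he] at h3
  linarith

end

end Pool.Agent.AP157
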