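import Pool.Agent.AP157.Cls
import Pool.Agent.AP157.Kern

/-!
# Exponential moment of the heat kernel

-/

set_option autoImplicit false

open MeasureTheory Real Set Filter Topology
open scoped ENNReal

namespace Pool.Agent.AP157

open Pool.Agent.X297.KP

noncomputable section

variable {N : ℕ} {f : ℝ → ℝ} {M : ℝ} {z : Set (E N) → ℝ → E N → ℝ} {α μ d₁ δ κ₁ C₁ l : ℝ}

theorem hexp_bound {l η t : ℝ} (hη : 0 < η) (hη1 : η < 1) (ht : 0 < t) (y : E N) :
    heatK t y * Real.exp (l * ‖y‖) ≤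
      ((1 - η) ^ (-((N : ℝ) / 2)) * Real.exp (l ^ 2 * t / η)) * heatK (t / (1 - η)) y := by
  have h1 : 0 < 1 - η := by linarith
  have h2 : l * ‖y‖ ≤ η * ‖y‖ ^ 2 / (4 * t) + l ^ 2 * t / η := by
    have h3 : η * ‖y‖ ^ 2 / (4 * t) + l ^ 2 * t / η - l * ‖y‖ =
        (η * ‖y‖ - 2 * t * l) ^ 2 / (4 * t * η) := by
      field_simp
      ring
    have h4 : 0 ≤ (η * ‖y‖ - 2 * t * l) ^ 2 / (4 * t * η) := by positivity
    linarith
  have h5 : Real.exp (l * ‖y‖) ≤ Real.exp (η * ‖y‖ ^ 2 / (4 * t)) * Real.exp (l ^ 2 * t / η) := by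
    rw [← Real.exp_add]
    exact Real.exp_le_exp.2 h2
  refine (mul_le_mul_of_nonneg_left h5 (heatK_nonneg ht y)).trans (le_of_eq ?_)
  unfold heatK
  have h6 : (4 * π * (t / (1 - η))) ^ (-((N : ℝ) / 2)) * (1 - η) ^ (-((N : ℝ) / 2)) =
      (4 * π * t) ^ (-((N : ℝ) / 2)) := by
    rw [← Real.mul_rpow (by positivity) h1.le]
    congr 1
    field_simp
  have h7 : Real.exp (-(‖y‖ ^ 2 / (4 * t))) * Real.exp (η * ‖y‖ ^ 2 / (4 * t)) =
      Real.exp (-(‖y‖ ^ 2 / (4 * (t / (1 - η))))) := by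
    rw [← Real.exp_add]
    congr 1
    field_simp
    ring
  rw [← h6, ← h7]
  ring

theorem heat_exp (N : ℕ) {l η : ℝ} (hl : 0 ≤ l) (hη : 0 < η) (hη1 : η < 1) :
    ∃ C : ℝ, 1 ≤ C ∧ ∀ t : ℝ, 0 < t →
      Integrable (fun y : E N => heatK t y * Real.exp (l * ‖y‖)) ∧
      ∫ y : E N, heatK t y * Real.exp (l * ‖y‖) ≤ C * Real.exp (l ^ 2 * t / η) := by
  have h1 : 0 < 1 - η := by linarith
  refine ⟨(1 - η) ^ (-((N : ℝ) / 2)), ?_, fun t ht => ?_⟩
  · rw [Real.rpow_neg h1.le]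
    refine (one_le_inv₀ (by positivity)).2 ?_
    exact Real.rpow_le_one h1.le (by linarith) (by positivity)
  · have ht' : 0 < t / (1 - η) := by positivity
    have hI : Integrable (fun y : E N =>
        ((1 - η) ^ (-((N : ℝ) / 2)) * Real.exp (l ^ 2 * t / η)) * heatK (t / (1 - η)) y) :=
      (heatK_integrable ht').const_mul _
    have hI2 : Integrable (fun y : E N => heatK t y * Real.exp (l * ‖y‖)) := by
      refine hI.mono' ?_ (Eventually.of_forall fun y => ?_)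
      · have := heatK_cont (N := N) (t := t)
        exact (this.mul (by fun_prop)).aestronglyMeasurable
      · rw [Real.norm_eq_abs, abs_of_nonneg (mul_nonneg (heatK_nonneg ht y) (Real.exp_pos _).le)]
        exact hexp_bound hη hη1 ht y
    refine ⟨hI2, ?_⟩
    calc ∫ y : E N, heatK t y * Real.exp (l * ‖y‖)
        ≤ ∫ y : E N, ((1 - η) ^ (-((N : ℝ) / 2)) * Real.exp (l ^ 2 * t / η)) *
            heatK (t / (1 - η)) y :=
          integral_mono hI2 hI fun y => hexp_bound hη hη1 ht y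
      _ = _ := by
          rw [integral_const_mul, heatK_int1 ht', mul_one]

end

end Pool.Agent.AP157
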