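import Pool.Agent.AP157.Cls
import Pool.Agent.AP157.Hexp
import Pool.Agent.AP157.Gsrc
import Pool.Agent.AP157.Kern

/-!
# Exponential growth estimate for differences of solutions

-/

set_option autoImplicit false

open MeasureTheory Real Set Filter Topology
open scoped ENNReal

namespace Pool.Agent.AP157

open Pool.Agent.X297.KP

noncomputable section

variable {N : ℕ} {f : ℝ → ℝ} {M : ℝ} {z : Set (E N) → ℝ → E N → ℝ} {α μ d₁ δ κ₁ C₁ l : ℝ}

/-! ## Auxiliary lemmas -/

theorem lgr_shift (t : ℝ) (h : E N → ℝ) (x : E N) :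
    P t h x = ∫ y, heatK t y * h (x - y) := by
  unfold P
  rw [← integral_sub_left_eq_self (fun y => heatK t y * h (x - y)) volume x]
  congr 1
  funext y
  simp only [sub_sub_cancel]

theorem lgr_int_le {t : ℝ} (ht : 0 < t) {h k : E N → ℝ} (hh : Measurable h) {C : ℝ}
    (hC : ∀ y, |h y| ≤ C) {x : E N} (hk : Integrable (fun y => heatK t y * k y))
    (hle : ∀ y, h (x - y) ≤ k y) : P t h x ≤ ∫ y, heatK t y * k y := by
  rw [lgr_shift]
  apply integral_mono _ hk
  · intro y
    exact mul_le_mul_of_nonneg_left (hle y) (heatK_nonneg ht y)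
  · apply (heatK_integrable ht).mul_bdd (c := C)
    · exact (hh.comp (by fun_prop)).aestronglyMeasurable
    · exact Eventually.of_forall fun y => hC _

/-- The truncated exponential. -/
def lgr_D (l B : ℝ) (x y : E N) : ℝ := min 1 (B * Real.exp (l * ‖y - x‖))

theorem lgr_D_meas (l B : ℝ) (x : E N) : Measurable (lgr_D l B x) := by
  unfold lgr_D
  fun_prop

theorem lgr_D_nn {B : ℝ} (hB : 0 ≤ B) (l : ℝ) (x y : E N) : 0 ≤ lgr_D l B x y :=
  le_min zero_le_one (by positivity)

theorem lgr_D_one (l B : ℝ) (x y : E N) : lgr_D l B x y ≤ 1 := min_le_left _ _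

theorem lgr_D_le (l B : ℝ) (x y : E N) : lgr_D l B x y ≤ B * Real.exp (l * ‖y - x‖) :=
  min_le_right _ _

theorem lgr_D_abs {B : ℝ} (hB : 0 ≤ B) (l : ℝ) (x y : E N) : |lgr_D l B x y| ≤ 1 := by
  rw [abs_of_nonneg (lgr_D_nn hB l x y)]
  exact lgr_D_one l B x y

theorem lgr_D_ge {B l : ℝ} {g g' : E N → ℝ} {x : E N} (hg : Dat g) (hg' : Dat g')
    (h : ∀ y, g y - g' y ≤ B * Real.exp (l * ‖y - x‖)) (y : E N) :
    g y ≤ g' y + lgr_D l B x y := by
  have h1 := (hg.mem y).2
  have h2 := (hg'.mem y).1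
  have h3 : g y - g' y ≤ lgr_D l B x y := le_min (by linarith) (h y)
  linarith

theorem lgr_P_D {B l t C : ℝ} (hB : 0 ≤ B) (ht : 0 < t) (x : E N)
    (hi : Integrable (fun y : E N => heatK t y * Real.exp (l * ‖y‖)))
    (hC : ∫ y : E N, heatK t y * Real.exp (l * ‖y‖) ≤ C) :
    P t (lgr_D l B x) x ≤ B * C := by
  have h1 := lgr_int_le ht (lgr_D_meas l B x) (lgr_D_abs hB l x) (x := x)
    (k := fun y => B * Real.exp (l * ‖y‖)) (by
      have := hi.const_mul B
      refine this.congr (Eventually.of_forall fun y => ?_)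
      simp only
      ring) (fun y => by
      have := lgr_D_le l B x (x - y)
      rwa [sub_sub_cancel_left, norm_neg] at this)
  refine h1.trans ?_
  have h2 : ∫ y : E N, heatK t y * (B * Real.exp (l * ‖y‖)) =
      B * ∫ y : E N, heatK t y * Real.exp (l * ‖y‖) := by
    rw [← integral_const_mul]
    congr 1
    funext y
    ring
  rw [h2]
  exact mul_le_mul_of_nonneg_left hC hB

/-- The tail of the truncated exponential. -/
def lgr_I (l B A : ℝ) (x : E N) : E N → ℝ :=
  (Metric.closedBall x (A / 2))ᶜ.indicator (lgr_D l B x)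

theorem lgr_I_meas (l B A : ℝ) (x : E N) : Measurable (lgr_I l B A x) :=
  (lgr_D_meas l B x).indicator Metric.isClosed_closedBall.measurableSet.compl

theorem lgr_I_nn {B : ℝ} (hB : 0 ≤ B) (l A : ℝ) (x y : E N) : 0 ≤ lgr_I l B A x y :=
  Set.indicator_nonneg (fun _ _ => lgr_D_nn hB l x _) y

theorem lgr_I_one {B : ℝ} (l A : ℝ) (x y : E N) : lgr_I l B A x y ≤ 1 := by
  unfold lgr_I
  by_cases hy : y ∈ (Metric.closedBall x (A / 2))ᶜ
  · rw [Set.indicator_of_mem hy]
    exact lgr_D_one l B x y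
  · rw [Set.indicator_of_notMem hy]
    exact zero_le_one

theorem lgr_I_abs {B : ℝ} (hB : 0 ≤ B) (l A : ℝ) (x y : E N) : |lgr_I l B A x y| ≤ 1 := by
  rw [abs_of_nonneg (lgr_I_nn hB l A x y)]
  exact lgr_I_one l A x y

theorem lgr_P_I {B l A t C : ℝ} (hB : 0 ≤ B) (ht : 0 < t) (x : E N)
    (hi : Integrable (fun y : E N => heatK t y * Real.exp ((l + 1) * ‖y‖)))
    (hC : ∫ y : E N, heatK t y * Real.exp ((l + 1) * ‖y‖) ≤ C) :
    P t (lgr_I l B A x) x ≤ B * (Real.exp (-(A / 2)) * C) := by
  have h1 := lgr_int_le ht (lgr_I_meas l B A x) (lgr_I_abs hB l A x) (x := x)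
    (k := fun y => (B * Real.exp (-(A / 2))) * Real.exp ((l + 1) * ‖y‖)) (by
      have := hi.const_mul (B * Real.exp (-(A / 2)))
      refine this.congr (Eventually.of_forall fun y => ?_)
      simp only
      ring) (fun y => by
      unfold lgr_I
      by_cases hy : x - y ∈ (Metric.closedBall x (A / 2))ᶜ
      · rw [Set.indicator_of_mem hy]
        have h1 := lgr_D_le l B x (x - y)
        rw [sub_sub_cancel_left, norm_neg] at h1
        rw [Set.mem_compl_iff, Metric.mem_closedBall, dist_eq_norm, sub_sub_cancel_left, norm_neg,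
          not_le] at hy
        refine h1.trans ?_
        rw [mul_assoc, ← Real.exp_add]
        apply mul_le_mul_of_nonneg_left _ hB
        apply Real.exp_le_exp.mpr
        linarith
      · rw [Set.indicator_of_notMem hy]
        positivity)
  refine h1.trans ?_
  have h2 : ∫ y : E N, heatK t y * ((B * Real.exp (-(A / 2))) * Real.exp ((l + 1) * ‖y‖)) =
      (B * Real.exp (-(A / 2))) * ∫ y : E N, heatK t y * Real.exp ((l + 1) * ‖y‖) := by
    rw [← integral_const_mul]
    congr 1
    funext y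
    ring
  rw [h2, mul_assoc]
  exact mul_le_mul_of_nonneg_left (mul_le_mul_of_nonneg_left hC (Real.exp_nonneg _)) hB

/-- The constant part. -/
def lgr_c (N : ℕ) (T l B A : ℝ) : ℝ :=
  B * Real.exp (l * (A / 2)) * (2 ^ ((N : ℝ) / 2) * Real.exp (-((A / 2) ^ 2 / (8 * T))))

theorem lgr_c_nn {B : ℝ} (hB : 0 ≤ B) (N : ℕ) (T l A : ℝ) : 0 ≤ lgr_c N T l B A := by
  unfold lgr_c
  positivity

/-- The source term. -/
def lgr_H (M T l B A : ℝ) (x y : E N) : ℝ :=
  M * Real.exp (3 * M * T) * (lgr_I l B A x y + lgr_c N T l B A)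

theorem lgr_H_meas (M T l B A : ℝ) (x : E N) : Measurable (lgr_H M T l B A x) := by
  unfold lgr_H
  have := lgr_I_meas l B A x
  fun_prop

theorem lgr_H_nn {M B : ℝ} (hM : 0 ≤ M) (hB : 0 ≤ B) (T l A : ℝ) (x y : E N) :
    0 ≤ lgr_H M T l B A x y := by
  unfold lgr_H
  have h1 := lgr_I_nn hB l A x y
  have h2 := lgr_c_nn hB N T l A
  positivity

theorem lgr_H_le {M B : ℝ} (hM : 0 ≤ M) (T l A : ℝ) (x y : E N) :
    lgr_H M T l B A x y ≤ M * Real.exp (3 * M * T) * (1 + lgr_c N T l B A) := by
  unfold lgr_H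
  have h1 := lgr_I_one (B := B) l A x y
  apply mul_le_mul_of_nonneg_left _ (by positivity)
  linarith

theorem lgr_P_H {M B : ℝ} (hB : 0 ≤ B) (T l A : ℝ) (x : E N) {s : ℝ} (hs : 0 < s) (y : E N) :
    P s (lgr_H M T l B A x) y =
      M * Real.exp (3 * M * T) * (P s (lgr_I l B A x) y + lgr_c N T l B A) := by
  have h0 := lgr_c_nn hB N T l A
  unfold lgr_H
  rw [P_const_mul, P_add hs (lgr_I_meas l B A x) measurable_const
    (C := max 1 (lgr_c N T l B A)) (fun y => (lgr_I_abs hB l A x y).trans (le_max_left _ _))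
    (fun y => by rw [abs_of_nonneg h0]; exact le_max_right _ _), P_const hs]

/-- Far away the solution operator sees the tail and a small constant. -/
theorem lgr_P_D_far {B l A s T : ℝ} (hB : 0 ≤ B) (hl : 0 ≤ l) (hA : 0 ≤ A) (hs : 0 < s)
    (hsT : s ≤ T) (x y : E N) (hy : A < ‖y - x‖) :
    P s (lgr_D l B x) y ≤ P s (lgr_I l B A x) y + lgr_c N T l B A := by
  set W : Set (E N) := Metric.closedBall x (A / 2) with hW
  have hWm : MeasurableSet W := Metric.isClosed_closedBall.measurableSet
  set k : ℝ := B * Real.exp (l * (A / 2)) with hk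
  have hk0 : 0 ≤ k := by positivity
  have hWi : ∀ y, |W.indicator (1 : E N → ℝ) y| ≤ 1 := by
    intro y
    by_cases hy : y ∈ W <;> simp [hy]
  have h1 : ∀ w, lgr_D l B x w ≤ lgr_I l B A x w + k * W.indicator 1 w := by
    intro w
    unfold lgr_I
    by_cases hw : w ∈ W
    · have hw' : w ∉ Wᶜ := fun h => h hw
      rw [Set.indicator_of_notMem hw', Set.indicator_of_mem hw, zero_add,
        Pi.one_apply, mul_one]
      refine (lgr_D_le l B x w).trans ?_
      apply mul_le_mul_of_nonneg_left _ hB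
      apply Real.exp_le_exp.mpr
      apply mul_le_mul_of_nonneg_left _ hl
      rw [← dist_eq_norm]
      exact Metric.mem_closedBall.mp hw
    · rw [Set.indicator_of_mem hw, Set.indicator_of_notMem hw, mul_zero, add_zero]
  have hkW : ∀ y, |k * W.indicator (1 : E N → ℝ) y| ≤ k := by
    intro y
    rw [abs_mul, abs_of_nonneg hk0]
    have := mul_le_mul_of_nonneg_left (hWi y) hk0
    linarith
  have hkm : Measurable (fun w => k * W.indicator (1 : E N → ℝ) w) :=
    (measurable_one.indicator hWm).const_mul k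
  have h2 : P s (lgr_D l B x) y ≤ P s (fun w => lgr_I l B A x w + k * W.indicator 1 w) y := by
    apply P_mono hs (lgr_D_meas l B x) ((lgr_I_meas l B A x).add hkm) (C := 1 + k)
      (fun w => (lgr_D_abs hB l x w).trans (by linarith)) _ h1
    intro w
    exact (abs_add_le _ _).trans (add_le_add (lgr_I_abs hB l A x w) (hkW w))
  have h3 : P s (fun w => lgr_I l B A x w + k * W.indicator 1 w) y =
      P s (lgr_I l B A x) y + k * P s (W.indicator 1) y := by
    rw [P_add hs (lgr_I_meas l B A x) hkm (C := max 1 k)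
      (fun y => (lgr_I_abs hB l A x y).trans (le_max_left _ _))
      (fun y => (hkW y).trans (le_max_right _ _)), P_const_mul]
  have h4 : P s (W.indicator 1) y ≤ 2 ^ ((N : ℝ) / 2) * Real.exp (-((A / 2) ^ 2 / (8 * s))) := by
    apply P_tail hs y (by positivity) hWm
    intro w hw
    have h5 : ‖w - x‖ ≤ A / 2 := by
      rw [← dist_eq_norm]
      exact Metric.mem_closedBall.mp hw
    have h6 : ‖y - x‖ ≤ ‖y - w‖ + ‖w - x‖ := by
      have := norm_add_le (y - w) (w - x)
      rwa [sub_add_sub_cancel] at this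
    linarith
  have h5 : Real.exp (-((A / 2) ^ 2 / (8 * s))) ≤ Real.exp (-((A / 2) ^ 2 / (8 * T))) := by
    apply Real.exp_le_exp.mpr
    apply neg_le_neg
    have hT : 0 < T := hs.trans_le hsT
    gcongr
  have h6 : k * P s (W.indicator 1) y ≤ lgr_c N T l B A := by
    unfold lgr_c
    rw [← hk]
    apply mul_le_mul_of_nonneg_left _ hk0
    refine h4.trans ?_
    gcongr
  linarith

/-- Pointwise bound for the nonlinear terms. -/
theorem lgr_F (hf : Nl f M) {μ l T A B : ℝ} (hμ : 0 ≤ μ) (hl : 0 ≤ l) (hA : 0 ≤ A)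
    (hB : 0 ≤ B) {g g' : E N → ℝ} {x : E N} (hg : Dat g) (hg' : Dat g')
    (h0 : ∀ y, g y - g' y ≤ B * Real.exp (l * ‖y - x‖))
    (h1 : ∀ r ∈ Ioo 0 T, ∀ y, ‖y - x‖ ≤ A → S f M r g' y < S f M r g y →
          f (S f M r g y) - f (S f M r g' y) ≤ μ * (S f M r g y - S f M r g' y))
    {s : ℝ} (hs : s ∈ Ioo 0 T) (y : E N) :
    Fe f M (S f M s g y) - Fe f M (S f M s g' y) ≤ Real.exp (-(M * s)) *
      ((M + μ) * (Real.exp (M * s) * max (S f M s g y - S f M s g' y) 0) +
        P s (lgr_H M T l B A x) y) := by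
  have hM := hf.nn
  have hu := S_mem hf hg s y
  have hv := S_mem hf hg' s y
  have hPH0 : 0 ≤ P s (lgr_H M T l B A x) y :=
    P_nonneg hs.1 (fun w => lgr_H_nn hM hB T l A x w) y
  have herr := S_err hf hg hg' (lgr_D_meas l B x) (lgr_D_nn hB l x) (lgr_D_one l B x)
    (lgr_D_ge hg hg' h0) hs.1 y
  have h1' := h1 s hs y
  set u := S f M s g y with hud
  set v := S f M s g' y with hvd
  set Q := P s (lgr_H M T l B A x) y with hQ
  have e1 : Real.exp (-(M * s)) * ((M + μ) * (Real.exp (M * s) * max (u - v) 0) + Q) =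
      (M + μ) * max (u - v) 0 + Real.exp (-(M * s)) * Q := by
    have : Real.exp (-(M * s)) * Real.exp (M * s) = 1 := by
      rw [← Real.exp_add]
      simp
    calc _ = (Real.exp (-(M * s)) * Real.exp (M * s)) * ((M + μ) * max (u - v) 0) +
          Real.exp (-(M * s)) * Q := by ring
      _ = _ := by rw [this, one_mul]
  rw [e1]
  have hmax : 0 ≤ max (u - v) 0 := le_max_right _ _
  have hQe : 0 ≤ Real.exp (-(M * s)) * Q := mul_nonneg (Real.exp_nonneg _) hPH0
  rcases le_or_gt u v with huv | huv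
  · have h2 := Fe_mono hf huv
    have h3 : 0 ≤ (M + μ) * max (u - v) 0 := by positivity
    linarith
  have hmx : max (u - v) 0 = u - v := max_eq_left (by linarith)
  by_cases hy : ‖y - x‖ ≤ A
  · have h2 := h1' hy huv
    rw [Fe_eq hu, Fe_eq hv, hmx]
    linarith
  · push Not at hy
    have h2 := Fe_lip hf hv hu huv.le
    have h3 := lgr_P_D_far hB hl hA hs.1 hs.2.le x y hy
    have h4 := lgr_P_H (M := M) hB T l A x hs.1 y
    rw [← hQ] at h4
    have h5 : 0 ≤ P s (lgr_I l B A x) y + lgr_c N T l B A :=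
      add_nonneg (P_nonneg hs.1 (fun w => lgr_I_nn hB l A x w) y) (lgr_c_nn hB N T l A)
    have h6 : M * (u - v) ≤ Real.exp (-(M * s)) * Q := by
      rw [h4]
      calc M * (u - v) ≤ M * (Real.exp (2 * M * s) * P s (lgr_D l B x) y) := by
            apply mul_le_mul_of_nonneg_left _ hM
            linarith
        _ ≤ M * (Real.exp (2 * M * s) * (P s (lgr_I l B A x) y + lgr_c N T l B A)) := by
            gcongr
        _ ≤ M * ((Real.exp (-(M * s)) * Real.exp (3 * M * T)) *
              (P s (lgr_I l B A x) y + lgr_c N T l B A)) := by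
            apply mul_le_mul_of_nonneg_left _ hM
            apply mul_le_mul_of_nonneg_right _ h5
            rw [← Real.exp_add]
            apply Real.exp_le_exp.mpr
            have := mul_le_mul_of_nonneg_left hs.2.le hM
            linarith
        _ = _ := by ring
    rw [hmx]
    have h7 : 0 ≤ μ * (u - v) := mul_nonneg hμ (by linarith)
    linarith

theorem lgr_PPmeas {d : ℝ → E N → ℝ} (hd : Measurable (Function.uncurry d)) {H : E N → ℝ}
    (hH : Measurable H) (m : ℝ) :
    Measurable (Function.uncurry (fun s y => m * d s y + P s H y)) := by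
  have h1 : StronglyMeasurable (Function.uncurry (fun (s : ℝ) (y : E N) => P s H y)) := by
    have : Function.uncurry (fun (s : ℝ) (y : E N) => P s H y) =
        fun p : ℝ × E N => ∫ z, heatK p.1 (p.2 - z) * H z := rfl
    rw [this]
    apply StronglyMeasurable.integral_prod_right
      (f := fun (p : ℝ × E N) z => heatK p.1 (p.2 - z) * H z)
    apply Measurable.stronglyMeasurable
    apply Measurable.mul
    · exact heatK_meas.comp (f := fun q : (ℝ × E N) × E N => (q.1.1, q.1.2 - q.2)) (by fun_prop)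
    · exact hH.comp (f := fun q : (ℝ × E N) × E N => q.2) (by fun_prop)
  exact (hd.const_mul m).add h1.measurable

theorem lgr_PPint {d : ℝ → E N → ℝ} (hd : Measurable (Function.uncurry d)) {H : E N → ℝ}
    (hH : Measurable H) {m b t : ℝ} (hm : 0 ≤ m) (ht : 0 < t)
    (hdb : ∀ s ∈ Ioo 0 t, ∀ y, d s y ∈ Icc 0 b) (hHb : ∀ y, H y ∈ Icc 0 b) (x : E N) :
    IntervalIntegrable (fun s => P (t - s) (fun y => m * d s y + P s H y) x) volume 0 t := by
  have hF := lgr_PPmeas hd hH m
  have hPm : StronglyMeasurable (fun s => P (t - s) (fun y => m * d s y + P s H y) x) := by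
    apply StronglyMeasurable.integral_prod_right
      (f := fun s y => heatK (t - s) (x - y) * (m * d s y + P s H y))
    apply Measurable.stronglyMeasurable
    apply Measurable.mul
    · exact heatK_meas.comp (f := fun q : ℝ × E N => (t - q.1, x - q.2)) (by fun_prop)
    · exact hF
  rw [intervalIntegrable_iff_integrableOn_Ioo_of_le ht.le]
  apply Measure.integrableOn_of_bounded (M := m * b + b) (by simp)
  · exact hPm.aestronglyMeasurable
  · filter_upwards [ae_restrict_mem measurableSet_Ioo] with s hs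
    have hts : 0 < t - s := by linarith [hs.2]
    rw [Real.norm_eq_abs]
    apply P_abs_le hts (hF.comp (f := fun y : E N => (s, y)) (by fun_prop))
    intro y
    have h1 := hdb s hs y
    have h2 : |P s H y| ≤ b := P_abs_le hs.1 hH (fun y => by
      rw [abs_of_nonneg (hHb y).1]
      exact (hHb y).2) y
    refine (abs_add_le _ _).trans (add_le_add ?_ h2)
    rw [abs_mul, abs_of_nonneg hm, abs_of_nonneg h1.1]
    exact mul_le_mul_of_nonneg_left h1.2 hm

/-- The growth estimate, before choosing the constants. -/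
theorem lgr_main (hf : Nl f M) {μ l T A B : ℝ} (hμ : 0 ≤ μ) (hl : 0 ≤ l) (hA : 0 ≤ A)
    (hT : 0 < T) (hB : 0 ≤ B) {g g' : E N → ℝ} {x : E N} (hg : Dat g) (hg' : Dat g')
    (h0 : ∀ y, g y - g' y ≤ B * Real.exp (l * ‖y - x‖))
    (h1 : ∀ r ∈ Ioo 0 T, ∀ y, ‖y - x‖ ≤ A → S f M r g' y < S f M r g y →
          f (S f M r g y) - f (S f M r g' y) ≤ μ * (S f M r g y - S f M r g' y)) :
    S f M T g x - S f M T g' x ≤ Real.exp (μ * T) *
      (P T (lgr_D l B x) x + P T (lgr_H M T l B A x) x / (M + μ)) := by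
  have hM := hf.nn
  have hM1 := hf.one_le
  have hm : 0 < M + μ := by linarith
  set d : ℝ → E N → ℝ := fun t y => Real.exp (M * t) * max (S f M t g y - S f M t g' y) 0 with hd
  have hdm : Measurable (Function.uncurry d) := by
    have e1 : Function.uncurry d = fun p : ℝ × E N => Real.exp (M * p.1) *
        max (Function.uncurry (fun t x => S f M t g x) p -
          Function.uncurry (fun t x => S f M t g' x) p) 0 := rfl
    rw [e1]
    have h2 := S_meas hf hg
    have h3 := S_meas hf hg'
    apply Measurable.mul (by fun_prop)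
    exact (h2.sub h3).max measurable_const
  have hD1 : ∀ t y, max (S f M t g y - S f M t g' y) 0 ∈ Icc (0:ℝ) 1 := fun t y =>
    ⟨le_max_right _ _, max_le (by linarith [(S_mem hf hg t y).2, (S_mem hf hg' t y).1])
      zero_le_one⟩
  set b : ℝ := max (Real.exp (M * T))
    (max 1 (M * Real.exp (3 * M * T) * (1 + lgr_c N T l B A))) with hb
  have hdb : ∀ t ∈ Ioc 0 T, ∀ y, d t y ∈ Icc 0 b := by
    intro t ht y
    have h2 := hD1 t y
    refine ⟨mul_nonneg (Real.exp_nonneg _) h2.1, ?_⟩
    refine le_trans ?_ (le_max_left _ _)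
    calc d t y ≤ Real.exp (M * T) * 1 := by
          apply mul_le_mul _ h2.2 h2.1 (Real.exp_nonneg _)
          apply Real.exp_le_exp.mpr
          exact mul_le_mul_of_nonneg_left ht.2 hM
      _ = Real.exp (M * T) := mul_one _
  have hHb : ∀ y, lgr_H M T l B A x y ∈ Icc 0 b := fun y =>
    ⟨lgr_H_nn hM hB T l A x y, (lgr_H_le hM T l A x y).trans
      ((le_max_right _ _).trans (le_max_right _ _))⟩
  have hDb : ∀ y, lgr_D l B x y ∈ Icc 0 b := fun y =>
    ⟨lgr_D_nn hB l x y, (lgr_D_one l B x y).trans ((le_max_left _ _).trans (le_max_right _ _))⟩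
  have hHm := lgr_H_meas M T l B A x
  have key := gron_src (N := N) hT hm hdm hdb (lgr_D_meas l B x) hDb hHm hHb (by
    intro t ht y
    have hint := lgr_PPint hdm hHm (m := M + μ) (b := b) hm.le ht.1
      (fun s hs w => hdb s ⟨hs.1, hs.2.le.trans ht.2⟩ w) hHb y
    have hR0 : 0 ≤ ∫ s in (0:ℝ)..t, P (t - s)
        (fun y => (M + μ) * d s y + P s (lgr_H M T l B A x) y) y := by
      rw [intervalIntegral.integral_of_le ht.1.le, integral_Ioc_eq_integral_Ioo]
      apply setIntegral_nonneg measurableSet_Ioo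
      intro s hs
      apply P_nonneg (by linarith [hs.2])
      intro w
      have h2 := (hdb s ⟨hs.1, hs.2.le.trans ht.2⟩ w).1
      have h3 := P_nonneg hs.1 (fun w => lgr_H_nn hM hB T l A x w) w
      positivity
    have hP0 : 0 ≤ P t (lgr_D l B x) y := P_nonneg ht.1 (lgr_D_nn hB l x) y
    have hmain : S f M t g y - S f M t g' y ≤ Real.exp (-(M * t)) * (P t (lgr_D l B x) y +
        ∫ s in (0:ℝ)..t, P (t - s)
          (fun y => (M + μ) * d s y + P s (lgr_H M T l B A x) y) y) := by
      rw [duh_sub hf hg hg' ht.1, mul_add]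
      apply add_le_add
      · apply mul_le_mul_of_nonneg_left _ (Real.exp_nonneg _)
        apply P_mono ht.1 (hg.meas.sub hg'.meas) (lgr_D_meas l B x) (C := 1) _
          (lgr_D_abs hB l x)
        · intro w
          simp only [Pi.sub_apply]
          linarith [lgr_D_ge hg hg' h0 w]
        · intro w
          rw [Pi.sub_apply, abs_le]
          constructor <;> linarith [(hg.mem w).1, (hg.mem w).2, (hg'.mem w).1, (hg'.mem w).2]
      · rw [← intervalIntegral.integral_const_mul]
        apply intervalIntegral.integral_mono_on_of_le_Ioo ht.1.le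
        · have h1 := (duh_int hf hg ht.1 y).sub (duh_int hf hg' ht.1 y)
          refine h1.congr_ae ?_
          have hne : ∀ᵐ s : ℝ, s ≠ t := by
            simp [ae_iff]
          rw [Filter.EventuallyEq, ae_restrict_iff' measurableSet_uIoc]
          filter_upwards [hne] with s hst hs
          rw [uIoc_of_le ht.1.le] at hs
          have hts : 0 < t - s := by
            have := lt_of_le_of_ne hs.2 hst
            linarith
          rw [P_sub hts (Fe_S_meas hf hg s) (Fe_S_meas hf hg' s) (fun y => Fe_abs hf _)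
            (fun y => Fe_abs hf _)]
          ring
        · exact hint.const_mul _
        · intro s hs
          have hts : 0 < t - s := by linarith [hs.2]
          have e2 : Real.exp (-(M * t)) = Real.exp (-(M * (t - s))) * Real.exp (-(M * s)) := by
            rw [← Real.exp_add]
            congr 1
            ring
          rw [e2, mul_assoc]
          apply mul_le_mul_of_nonneg_left _ (Real.exp_nonneg _)
          rw [← P_const_mul]
          have hsT : s ∈ Ioo 0 T := ⟨hs.1, hs.2.trans_le ht.2⟩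
          have hFm := lgr_PPmeas hdm hHm (M + μ)
          have hFs : Measurable (fun w => (M + μ) * d s w + P s (lgr_H M T l B A x) w) :=
            hFm.comp (f := fun y : E N => (s, y)) (by fun_prop)
          apply P_mono hts ((Fe_S_meas hf hg s).sub (Fe_S_meas hf hg' s))
            (hFs.const_mul _) (C := max (2 * M) ((M + μ) * b + b))
          · intro w
            refine le_trans ?_ (le_max_left _ _)
            rw [Pi.sub_apply, abs_le]
            have h1 := Fe_nonneg hf (S f M s g w)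
            have h2 := Fe_le hf (S f M s g w)
            have h3 := Fe_nonneg hf (S f M s g' w)
            have h4 := Fe_le hf (S f M s g' w)
            constructor <;> linarith
          · intro w
            refine le_trans ?_ (le_max_right _ _)
            have h1 := hdb s ⟨hs.1, hs.2.le.trans ht.2⟩ w
            have h2 : |P s (lgr_H M T l B A x) w| ≤ b := P_abs_le hs.1 hHm (fun y => by
              rw [abs_of_nonneg (hHb y).1]
              exact (hHb y).2) w
            have h3 : Real.exp (-(M * s)) ≤ 1 := by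
              apply Real.exp_le_one_iff.mpr
              have : 0 ≤ M * s := mul_nonneg hM hs.1.le
              linarith
            have h4 : |(M + μ) * d s w + P s (lgr_H M T l B A x) w| ≤ (M + μ) * b + b := by
              refine (abs_add_le _ _).trans (add_le_add ?_ h2)
              rw [abs_mul, abs_of_nonneg hm.le, abs_of_nonneg h1.1]
              exact mul_le_mul_of_nonneg_left h1.2 hm.le
            rw [abs_mul, abs_of_nonneg (Real.exp_nonneg _)]
            calc _ ≤ 1 * ((M + μ) * b + b) :=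
                  mul_le_mul h3 h4 (abs_nonneg _) zero_le_one
              _ = _ := one_mul _
          · intro w
            exact lgr_F hf hμ hl hA hB hg hg' h0 h1 hsT w
    have e3 : Real.exp (M * t) * Real.exp (-(M * t)) = 1 := by
      rw [← Real.exp_add]
      simp
    show Real.exp (M * t) * max (S f M t g y - S f M t g' y) 0 ≤ _
    have h5 : max (S f M t g y - S f M t g' y) 0 ≤ Real.exp (-(M * t)) *
        (P t (lgr_D l B x) y + ∫ s in (0:ℝ)..t, P (t - s)
          (fun y => (M + μ) * d s y + P s (lgr_H M T l B A x) y) y) :=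
      max_le hmain (mul_nonneg (Real.exp_nonneg _) (add_nonneg hP0 hR0))
    calc _ ≤ Real.exp (M * t) * (Real.exp (-(M * t)) *
        (P t (lgr_D l B x) y + ∫ s in (0:ℝ)..t, P (t - s)
          (fun y => (M + μ) * d s y + P s (lgr_H M T l B A x) y) y)) :=
          mul_le_mul_of_nonneg_left h5 (Real.exp_nonneg _)
      _ = _ := by rw [← mul_assoc, e3, one_mul]) T ⟨hT, le_rfl⟩ x
  have h6 : Real.exp (M * T) * (S f M T g x - S f M T g' x) ≤ d T x :=
    mul_le_mul_of_nonneg_left (le_max_left _ _) (Real.exp_nonneg _)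
  have h7 := h6.trans key
  have e4 : Real.exp ((M + μ) * T) = Real.exp (M * T) * Real.exp (μ * T) := by
    rw [← Real.exp_add]
    congr 1
    ring
  rw [e4, mul_assoc] at h7
  exact le_of_mul_le_mul_left h7 (Real.exp_pos _)

theorem LG (hf : Nl f M) {μ l γ : ℝ} (hμ : 0 ≤ μ) (hl : 0 < l) (hγ : l ^ 2 + μ < γ) :
    ∃ C : ℝ, 1 ≤ C ∧ ∀ T : ℝ, 0 < T → ∃ A : ℝ, 0 ≤ A ∧
      ∀ (g g' : E N → ℝ) (x : E N) (B : ℝ), Dat g → Dat g' → 0 ≤ B →
        (∀ y, g y - g' y ≤ B * Real.exp (l * ‖y - x‖)) →
        (∀ r ∈ Ioo 0 T, ∀ y, ‖y - x‖ ≤ A → S f M r g' y < S f M r g y →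
          f (S f M r g y) - f (S f M r g' y) ≤ μ * (S f M r g y - S f M r g' y)) →
        S f M T g x - S f M T g' x ≤ C * B * Real.exp (γ * T) := by
  have hM := hf.nn
  have hM1 := hf.one_le
  have hm : 0 < M + μ := by linarith
  have hl2 : 0 < l ^ 2 := by positivity
  have hγμ : 0 < γ - μ := by linarith
  have hγ0 : 0 < γ := by linarith
  have hη : 0 < l ^ 2 / (γ - μ) := div_pos hl2 hγμ
  have hη1 : l ^ 2 / (γ - μ) < 1 := by
    rw [div_lt_one hγμ]
    linarith
  obtain ⟨Cη, hCη1, hCη⟩ := heat_exp N hl.le hη hη1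
  obtain ⟨C', hC'1, hC'⟩ := heat_exp N (l := l + 1) (η := 1 / 2) (by linarith) (by norm_num)
    (by norm_num)
  refine ⟨Cη + 1, by linarith, fun T hT => ?_⟩
  set K2 : ℝ := C' * Real.exp ((l + 1) ^ 2 * T / (1 / 2)) with hK2
  set K3 : ℝ := 2 ^ ((N : ℝ) / 2) with hK3
  set K1 : ℝ := Real.exp (μ * T) * (M * Real.exp (3 * M * T)) / (M + μ) with hK1
  have hK10 : 0 ≤ K1 := by positivity
  have hK20 : 0 ≤ K2 := by positivity
  have hK30 : 0 ≤ K3 := by positivity
  set A : ℝ := max (16 * T * l + 32 * T) (2 * (K1 * (K2 + K3))) with hA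
  have hA1 : 16 * T * l + 32 * T ≤ A := le_max_left _ _
  have hA2 : 2 * (K1 * (K2 + K3)) ≤ A := le_max_right _ _
  have hA0 : 0 ≤ A := le_trans (by positivity) hA1
  refine ⟨A, hA0, ?_⟩
  intro g g' x B hg hg' hB h0 h1
  have key := lgr_main hf hμ hl.le hA0 hT hB hg hg' h0 h1
  have hD := lgr_P_D hB hT x (hCη T hT).1 (hCη T hT).2
  have hI := lgr_P_I (A := A) hB hT x (hC' T hT).1 (hC' T hT).2
  rw [lgr_P_H hB T l A x hT x] at key
  have e1 : l ^ 2 * T / (l ^ 2 / (γ - μ)) = (γ - μ) * T := by
    field_simp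
  rw [e1] at hD
  have e2 : Real.exp (μ * T) * Real.exp ((γ - μ) * T) = Real.exp (γ * T) := by
    rw [← Real.exp_add]
    congr 1
    ring
  have h2 : Real.exp (μ * T) * P T (lgr_D l B x) x ≤ Cη * B * Real.exp (γ * T) := by
    calc _ ≤ Real.exp (μ * T) * (B * (Cη * Real.exp ((γ - μ) * T))) :=
          mul_le_mul_of_nonneg_left hD (Real.exp_nonneg _)
      _ = Cη * B * (Real.exp (μ * T) * Real.exp ((γ - μ) * T)) := by ring
      _ = _ := by rw [e2]
  have h3 : Real.exp (l * (A / 2)) * Real.exp (-((A / 2) ^ 2 / (8 * T))) ≤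
      Real.exp (-(A / 2)) := by
    rw [← Real.exp_add]
    apply Real.exp_le_exp.mpr
    have h4 : (l / 2 + 1) * A ≤ (A / 2) ^ 2 / (8 * T) := by
      rw [le_div_iff₀ (by positivity)]
      have := mul_le_mul_of_nonneg_right hA1 hA0
      nlinarith
    linarith
  have h4 : lgr_c N T l B A ≤ B * (Real.exp (-(A / 2)) * K3) := by
    unfold lgr_c
    calc _ = B * ((Real.exp (l * (A / 2)) * Real.exp (-((A / 2) ^ 2 / (8 * T)))) * K3) := by ring
      _ ≤ _ := by gcongr
  have h5 : Real.exp (-(A / 2)) * (K1 * (K2 + K3)) ≤ 1 := by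
    rw [Real.exp_neg, inv_mul_le_iff₀ (Real.exp_pos _), mul_one]
    have := Real.add_one_le_exp (A / 2)
    linarith
  have h6 : Real.exp (μ * T) * (M * Real.exp (3 * M * T) * (P T (lgr_I l B A x) x +
      lgr_c N T l B A) / (M + μ)) ≤ B := by
    calc _ = K1 * (P T (lgr_I l B A x) x + lgr_c N T l B A) := by
          rw [hK1]
          ring
      _ ≤ K1 * (B * (Real.exp (-(A / 2)) * K2) + B * (Real.exp (-(A / 2)) * K3)) := by
          apply mul_le_mul_of_nonneg_left _ hK10
          exact add_le_add hI h4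
      _ = B * (Real.exp (-(A / 2)) * (K1 * (K2 + K3))) := by ring
      _ ≤ B * 1 := mul_le_mul_of_nonneg_left h5 hB
      _ = B := mul_one B
  have h7 : B ≤ B * Real.exp (γ * T) := by
    have : 1 ≤ Real.exp (γ * T) := Real.one_le_exp (by positivity)
    nlinarith
  rw [mul_add] at key
  calc _ ≤ _ := key
    _ ≤ Cη * B * Real.exp (γ * T) + B * Real.exp (γ * T) := add_le_add h2 (h6.trans h7)
    _ = _ := by ring

theorem LGc (N : ℕ) (hf : Nl f M) {l T₀ : ℝ} (hl : 0 < l) (hT₀ : 0 ≤ T₀) :
    ∃ C : ℝ, 1 ≤ C ∧ ∀ T ∈ Icc 0 T₀, ∀ (g g' : E N → ℝ) (x : E N) (B : ℝ), Dat g → Dat g' →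
      0 ≤ B → (∀ y, g y - g' y ≤ B * Real.exp (l * ‖y - x‖)) →
      S f M T g x - S f M T g' x ≤ C * B := by
  have hM := hf.nn
  obtain ⟨C', hC'1, hC'⟩ := heat_exp N (l := l) (η := 1 / 2) hl.le (by norm_num) (by norm_num)
  set C : ℝ := Real.exp (2 * M * T₀) * (C' * Real.exp (l ^ 2 * T₀ / (1 / 2))) with hC
  have hC1 : 1 ≤ C := by
    have h1 : 1 ≤ Real.exp (2 * M * T₀) := Real.one_le_exp (by positivity)
    have h2 : 1 ≤ Real.exp (l ^ 2 * T₀ / (1 / 2)) := Real.one_le_exp (by positivity)
    have h3 := one_le_mul_of_one_le_of_one_le hC'1 h2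
    exact one_le_mul_of_one_le_of_one_le h1 h3
  refine ⟨C, hC1, ?_⟩
  intro T hT g g' x B hg hg' hB h0
  rcases eq_or_lt_of_le hT.1 with h | h
  · rw [← h, S_zero, S_zero]
    have h1 := h0 x
    rw [sub_self, norm_zero, mul_zero, Real.exp_zero, mul_one] at h1
    nlinarith
  · have h1 := S_err hf hg hg' (lgr_D_meas l B x) (lgr_D_nn hB l x) (lgr_D_one l B x)
      (lgr_D_ge hg hg' h0) h x
    have h2 := lgr_P_D hB h x (hC' T h).1 (hC' T h).2
    have h3 : Real.exp (2 * M * T) ≤ Real.exp (2 * M * T₀) := by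
      apply Real.exp_le_exp.mpr
      have := mul_le_mul_of_nonneg_left hT.2 hM
      linarith
    have h4 : Real.exp (l ^ 2 * T / (1 / 2)) ≤ Real.exp (l ^ 2 * T₀ / (1 / 2)) := by
      apply Real.exp_le_exp.mpr
      have := hT.2
      gcongr
    have h5 : Real.exp (2 * M * T) * P T (lgr_D l B x) x ≤ C * B := by
      calc _ ≤ Real.exp (2 * M * T₀) * (B * (C' * Real.exp (l ^ 2 * T₀ / (1 / 2)))) := by
            apply mul_le_mul h3 (h2.trans _) (P_nonneg h (lgr_D_nn hB l x) x) (Real.exp_nonneg _)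
            gcongr
        _ = C * B := by rw [hC]; ring
    linarith

end

end Pool.Agent.AP157
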