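import Pool.Agent.AP157.Defs
import Pool.Agent.AP157.Kern

/-!
# Equi-regularity of the semiflow after time one

-/

set_option autoImplicit false

open MeasureTheory Real Set Filter Topology
open scoped ENNReal

namespace Pool.Agent.AP157

open Pool.Agent.X297.KP

noncomputable section

variable {N : ℕ} {f : ℝ → ℝ} {M : ℝ} {z : Set (E N) → ℝ → E N → ℝ} {α δ ω : ℝ}

/-- the integrable majorant -/
theorem reg_int_sqrt : IntervalIntegrable (fun s : ℝ => 1 / √(1 - s)) volume 0 1 ∧
    ∫ s in (0:ℝ)..1, 1 / √(1 - s) = 2 := by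
  have e : (fun s : ℝ => 1 / √(1 - s)) = fun s : ℝ => (fun r : ℝ => 1 / √r) (1 - s) := rfl
  have hr : ∀ r ∈ Set.uIoc (0:ℝ) 1, r ^ (-(1/2) : ℝ) = 1 / √r := by
    intro r hr
    rw [uIoc_of_le zero_le_one] at hr
    rw [Real.rpow_neg hr.1.le, ← Real.sqrt_eq_rpow, one_div]
  have h1 : IntervalIntegrable (fun r : ℝ => 1 / √r) volume 0 1 := by
    have h := intervalIntegral.intervalIntegrable_rpow' (a := 0) (b := 1)
      (r := (-(1/2) : ℝ)) (by norm_num)
    refine h.congr ?_
    intro r hr'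
    exact hr r hr'
  constructor
  · rw [e]
    have := h1.comp_sub_left 1
    simp only [sub_zero, sub_self] at this
    exact this.symm
  · rw [e, intervalIntegral.integral_comp_sub_left (fun r : ℝ => 1 / √r) 1, sub_self, sub_zero]
    have h2 : ∫ r in (0:ℝ)..1, 1 / √r = ∫ r in (0:ℝ)..1, r ^ (-(1/2) : ℝ) := by
      apply intervalIntegral.integral_congr_ae
      refine Eventually.of_forall ?_
      intro r hr'
      exact (hr r hr').symm
    rw [h2, integral_rpow (Or.inl (by norm_num))]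
    norm_num

theorem reg_space (N : ℕ) (hf : Nl f M) : ∃ L : ℝ, 0 < L ∧
    ∀ g : E N → ℝ, Dat g → ∀ x y, |S f M 1 g x - S f M 1 g y| ≤ L * ‖x - y‖ := by
  obtain ⟨C, hC, hlip⟩ := P_lip (N := N)
  have hM := hf.pos
  refine ⟨C * (1 + 2 * M), by positivity, ?_⟩
  intro g hg x y
  rw [duhamel hf hg one_pos x, duhamel hf hg one_pos y]
  have h1 : |P 1 g x - P 1 g y| ≤ C * ‖x - y‖ := by
    have := hlip 1 g 1 one_pos hg.meas
      (fun y => abs_le.mpr ⟨by linarith [(hg.mem y).1], (hg.mem y).2⟩) x y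
    simpa using this
  have hexp : Real.exp (-(M * 1)) ≤ 1 := by
    apply Real.exp_le_one_iff.mpr
    linarith
  have h2 : |(∫ s in (0:ℝ)..1, Real.exp (-(M * (1 - s))) *
        P (1 - s) (fun y => Fe f M (S f M s g y)) x) -
      ∫ s in (0:ℝ)..1, Real.exp (-(M * (1 - s))) *
        P (1 - s) (fun y => Fe f M (S f M s g y)) y| ≤ 2 * M * (C * ‖x - y‖) := by
    rw [← intervalIntegral.integral_sub (duh_int hf hg one_pos x) (duh_int hf hg one_pos y)]
    have h3 := intervalIntegral.norm_integral_le_of_norm_le (a := 0) (b := 1) (μ := volume)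
      (f := fun s => Real.exp (-(M * (1 - s))) * P (1 - s) (fun y => Fe f M (S f M s g y)) x -
        Real.exp (-(M * (1 - s))) * P (1 - s) (fun y => Fe f M (S f M s g y)) y)
      (g := fun s => C * M * ‖x - y‖ * (1 / √(1 - s))) zero_le_one ?_
      (reg_int_sqrt.1.const_mul _)
    · rw [intervalIntegral.integral_const_mul, reg_int_sqrt.2] at h3
      rw [← Real.norm_eq_abs]
      refine h3.trans (le_of_eq ?_)
      ring
    · have hne : ∀ᵐ s : ℝ, s ≠ 1 := by simp [ae_iff]
      filter_upwards [hne] with s hst hs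
      have hts : 0 < 1 - s := by
        have := lt_of_le_of_ne hs.2 hst
        linarith
      have h4 := hlip (1 - s) (fun y => Fe f M (S f M s g y)) M hts (Fe_S_meas hf hg s)
        (fun y => Fe_abs hf _) x y
      have h5 : Real.exp (-(M * (1 - s))) ≤ 1 := by
        apply Real.exp_le_one_iff.mpr
        have : 0 ≤ M * (1 - s) := by positivity
        linarith
      rw [← mul_sub, Real.norm_eq_abs, abs_mul, abs_of_nonneg (Real.exp_nonneg _)]
      calc Real.exp (-(M * (1 - s))) * |P (1 - s) (fun y => Fe f M (S f M s g y)) x -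
            P (1 - s) (fun y => Fe f M (S f M s g y)) y|
          ≤ 1 * (C * M * ‖x - y‖ / √(1 - s)) := mul_le_mul h5 h4 (abs_nonneg _) zero_le_one
        _ = C * M * ‖x - y‖ * (1 / √(1 - s)) := by ring
  set I1 := ∫ s in (0:ℝ)..1, Real.exp (-(M * (1 - s))) *
        P (1 - s) (fun y => Fe f M (S f M s g y)) x
  set I2 := ∫ s in (0:ℝ)..1, Real.exp (-(M * (1 - s))) *
        P (1 - s) (fun y => Fe f M (S f M s g y)) y
  have h6 : Real.exp (-(M * 1)) * P 1 g x + I1 - (Real.exp (-(M * 1)) * P 1 g y + I2)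
      = Real.exp (-(M * 1)) * (P 1 g x - P 1 g y) + (I1 - I2) := by ring
  rw [h6]
  refine (abs_add_le _ _).trans ?_
  rw [abs_mul, abs_of_nonneg (Real.exp_nonneg _)]
  have h7 : Real.exp (-(M * 1)) * |P 1 g x - P 1 g y| ≤ 1 * (C * ‖x - y‖) :=
    mul_le_mul hexp h1 (abs_nonneg _) zero_le_one
  calc _ ≤ 1 * (C * ‖x - y‖) + 2 * M * (C * ‖x - y‖) := add_le_add h7 h2
    _ = C * (1 + 2 * M) * ‖x - y‖ := by ring

theorem reg_space_t (N : ℕ) (hf : Nl f M) {L : ℝ}
    (h : ∀ g : E N → ℝ, Dat g → ∀ x y, |S f M 1 g x - S f M 1 g y| ≤ L * ‖x - y‖)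
    (g : E N → ℝ) (hg : Dat g) (t : ℝ) (ht : 1 ≤ t) (x y : E N) :
    |S f M t g x - S f M t g y| ≤ L * ‖x - y‖ := by
  have e : t = (t - 1) + 1 := by ring
  rw [e, S_add hf hg (by linarith) zero_le_one]
  exact h _ (S_dat hf hg _) x y

/-- the heat semigroup moves a Lipschitz function by at most `L C √s` -/
theorem reg_heat {C : ℝ} (hC : ∀ t : ℝ, 0 < t →
    Integrable (fun y : E N => heatK t y * ‖y‖) ∧ ∫ y : E N, heatK t y * ‖y‖ ≤ C * √t)
    {h : E N → ℝ} (hd : Dat h) {L : ℝ} (hL : 0 ≤ L) (hlip : ∀ x y, |h x - h y| ≤ L * ‖x - y‖)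
    {s : ℝ} (hs : 0 < s) (x : E N) : |P s h x - h x| ≤ L * C * √s := by
  have hb : ∀ y, |h y| ≤ 1 := fun y => abs_le.mpr ⟨by linarith [(hd.mem y).1], (hd.mem y).2⟩
  have e1 : P s h x - h x = P s (fun y => h y - h x) x := by
    rw [P_sub hs hd.meas measurable_const (C := 1) hb (fun _ => hb x), P_const hs]
  rw [e1]
  have hI : Integrable (fun y : E N => heatK s (x - y) * ‖x - y‖) :=
    (hC s hs).1.comp_sub_left x
  have e2 : ∫ y : E N, heatK s (x - y) * ‖x - y‖ = ∫ y : E N, heatK s y * ‖y‖ :=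
    integral_sub_left_eq_self (fun y : E N => heatK s y * ‖y‖) volume x
  have h3 := norm_integral_le_of_norm_le (f := fun y : E N => heatK s (x - y) * (h y - h x))
    (hI.const_mul L) (Eventually.of_forall (fun y => by
      rw [norm_mul, Real.norm_eq_abs, Real.norm_eq_abs, abs_of_nonneg (heatK_nonneg hs _)]
      have h4 := hlip y x
      rw [norm_sub_rev] at h4
      calc heatK s (x - y) * |h y - h x| ≤ heatK s (x - y) * (L * ‖x - y‖) :=
            mul_le_mul_of_nonneg_left h4 (heatK_nonneg hs _)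
        _ = L * (heatK s (x - y) * ‖x - y‖) := by ring))
  rw [integral_const_mul, e2] at h3
  calc |P s (fun y => h y - h x) x| ≤ L * ∫ y : E N, heatK s y * ‖y‖ := h3
    _ ≤ L * (C * √s) := mul_le_mul_of_nonneg_left (hC s hs).2 hL
    _ = L * C * √s := by ring

theorem reg_time (hf : Nl f M) {C : ℝ} (hC : ∀ t : ℝ, 0 < t →
    Integrable (fun y : E N => heatK t y * ‖y‖) ∧ ∫ y : E N, heatK t y * ‖y‖ ≤ C * √t)
    {h : E N → ℝ} (hd : Dat h) {L : ℝ} (hL : 0 ≤ L) (hlip : ∀ x y, |h x - h y| ≤ L * ‖x - y‖)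
    {s : ℝ} (hs : 0 < s) (hs1 : s ≤ 1) (x : E N) :
    |S f M s h x - h x| ≤ (2 * M + L * C) * √s := by
  have hM := hf.pos
  have hb : ∀ y, |h y| ≤ 1 := fun y => abs_le.mpr ⟨by linarith [(hd.mem y).1], (hd.mem y).2⟩
  rw [duhamel hf hd hs x]
  set I := ∫ r in (0:ℝ)..s, Real.exp (-(M * (s - r))) *
        P (s - r) (fun y => Fe f M (S f M r h y)) x with hI
  have h1 : |I| ≤ M * s := by
    rw [hI, ← Real.norm_eq_abs]
    have h2 := intervalIntegral.norm_integral_le_of_norm_le (a := 0) (b := s) (μ := volume)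
      (f := fun r => Real.exp (-(M * (s - r))) * P (s - r) (fun y => Fe f M (S f M r h y)) x)
      (g := fun _ => M) hs.le ?_ (by simp)
    · refine h2.trans (le_of_eq ?_)
      rw [intervalIntegral.integral_const, smul_eq_mul]
      ring
    · have hne : ∀ᵐ r : ℝ, r ≠ s := by simp [ae_iff]
      filter_upwards [hne] with r hrs hr
      have hts : 0 < s - r := by
        have := lt_of_le_of_ne hr.2 hrs
        linarith
      have h4 := P_abs_le hts (Fe_S_meas hf hd r) (fun y => Fe_abs hf _) x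
      have h5 : Real.exp (-(M * (s - r))) ≤ 1 := by
        apply Real.exp_le_one_iff.mpr
        have : 0 ≤ M * (s - r) := by positivity
        linarith
      rw [Real.norm_eq_abs, abs_mul, abs_of_nonneg (Real.exp_nonneg _)]
      calc _ ≤ 1 * M := mul_le_mul h5 h4 (abs_nonneg _) zero_le_one
        _ = M := one_mul M
  have h6 : |Real.exp (-(M * s)) * P s h x - P s h x| ≤ M * s := by
    have e : Real.exp (-(M * s)) * P s h x - P s h x = -((1 - Real.exp (-(M * s))) * P s h x) := by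
      ring
    rw [e, abs_neg, abs_mul]
    have h7 : 0 ≤ 1 - Real.exp (-(M * s)) := by
      have : Real.exp (-(M * s)) ≤ 1 := by
        apply Real.exp_le_one_iff.mpr
        have : 0 ≤ M * s := by positivity
        linarith
      linarith
    have h8 : 1 - Real.exp (-(M * s)) ≤ M * s := by
      have := Real.add_one_le_exp (-(M * s))
      linarith
    rw [abs_of_nonneg h7]
    calc (1 - Real.exp (-(M * s))) * |P s h x| ≤ (M * s) * 1 :=
          mul_le_mul h8 (P_abs_le hs hd.meas hb x) (abs_nonneg _) (by positivity)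
      _ = M * s := mul_one _
  have h9 := reg_heat hC hd hL hlip hs x
  have h10 : s ≤ √s := by
    apply Real.le_sqrt_of_sq_le
    nlinarith
  have e : Real.exp (-(M * s)) * P s h x + I - h x
      = (Real.exp (-(M * s)) * P s h x - P s h x) + (P s h x - h x) + I := by ring
  rw [e]
  refine (abs_add_le _ _).trans ?_
  have h11 := abs_add_le (Real.exp (-(M * s)) * P s h x - P s h x) (P s h x - h x)
  have h12 : M * s ≤ M * √s := mul_le_mul_of_nonneg_left h10 hM.le
  nlinarith

theorem S_reg (N : ℕ) (hf : Nl f M) : ∃ L : ℝ, 0 < L ∧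
    (∀ g : E N → ℝ, Dat g → ∀ t, 1 ≤ t → ∀ x y, |S f M t g x - S f M t g y| ≤ L * ‖x - y‖) ∧
    (∀ g : E N → ℝ, Dat g → ∀ t, 1 ≤ t → ∀ s ∈ Icc (0:ℝ) 1, ∀ x,
      |S f M (t + s) g x - S f M t g x| ≤ L * √s) := by
  obtain ⟨L, hL, hsp⟩ := reg_space N hf
  obtain ⟨C, hC, hmom⟩ := heat_moment (N := N)
  have hM := hf.pos
  refine ⟨L + (2 * M + L * C), by positivity, ?_, ?_⟩
  · intro g hg t ht x y
    refine (reg_space_t N hf hsp g hg t ht x y).trans ?_
    apply mul_le_mul_of_nonneg_right _ (norm_nonneg _)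
    have : 0 ≤ L * C := by positivity
    linarith
  · intro g hg t ht s hs x
    rcases hs.1.eq_or_lt with h0 | h0
    · rw [← h0]
      simp
    · rw [S_add hf hg (by linarith) hs.1]
      refine (reg_time hf hmom (S_dat hf hg t) hL.le (reg_space_t N hf hsp g hg t ht) h0 hs.2 x).trans ?_
      apply mul_le_mul_of_nonneg_right _ (Real.sqrt_nonneg _)
      linarith

theorem ent_reg (N : ℕ) (hf : Nl f M) : ∃ L : ℝ, 0 < L ∧ ∀ v : ℝ → E N → ℝ, Ent f M v →
    (∀ t x y, |v t x - v t y| ≤ L * ‖x - y‖) ∧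
    (∀ t, ∀ s ∈ Icc (0:ℝ) 1, ∀ x, |v (t + s) x - v t x| ≤ L * √s) := by
  obtain ⟨L, hL, h1, h2⟩ := S_reg N hf
  refine ⟨L, hL, ?_⟩
  intro v hv
  have e : ∀ t x, v t x = S f M 1 (v (t - 1)) x := by
    intro t x
    have := hv.flow (t - 1) 1 zero_le_one x
    rwa [sub_add_cancel] at this
  constructor
  · intro t x y
    rw [e t x, e t y]
    exact h1 _ (hv.dat _) 1 le_rfl x y
  · intro t s hs x
    have e2 : v (t + s) x = S f M (1 + s) (v (t - 1)) x := by
      have := hv.flow (t - 1) (1 + s) (by linarith [hs.1]) x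
      rw [← this]
      congr 1
      ring
    rw [e t x, e2]
    exact h2 _ (hv.dat _) 1 le_rfl s hs x

end

end Pool.Agent.AP157
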