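import Pool.Agent.AP157.Wk
import Pool.Agent.AP157.Reg
import Pool.Agent.AP157.Gsrc
import Pool.Agent.AP157.Lgr

/-!
# Linear upper and lower bounds, sharp Gaussian tail

P_tail2.  `heatK t u = θ^(-N/2) exp(-(1-θ)‖u‖²/(4t)) heatK (t/θ) u`; same proof as `P_tail` (Kern.lean, θ = 1/2).  C = max 1 θ^(-N/2).
S_lin.  D t y = max (S_t g y - S_t g' y) 0.  duh_sub and `Fe(S_s g) - Fe(S_s g') ≤ (M+k) D s` (if S_s g ≤ S_s g' by Fe_mono, else by hypothesis and Fe_eq) give, for d t y = e^{Mt} D t y,
d t y ≤ P_t D0 y + ∫_0^t P_{t-s} ((M+k) d s) y ds, 0 < t ≤ T (D0 = max (g-g') 0, P_t (g - g') ≤ P_t D0); `gron_src` with H = 0, m = M+k (M ≥ 1).  See `lgr_main` in Lgr.lean for the same computation.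
S_low.  w t y := e^{kt} P_t g y for 0 < t ≤ T (0 for t > T) satisfies w ≤ d ≤ 1 and, since Fe(v) ≥ (M+k) v on [0,d], Phi(w) = e^{-Mt} P_t g + ∫_0^t e^{-M(t-s)} P_{t-s} Fe(w s) ≥ e^{-Mt} P_t g + ∫ e^{-M(t-s)} (M+k) e^{ks} P_t g ds
= e^{kt} P_t g = w: w is a subsolution, and `comp_mono` (FlowE.lean) gives w ≤ S_t g (uu).  Alternatively a direct argument with D = w - S_t g: D⁺ satisfies a Gronwall inequality with zero datum.
-/

set_option autoImplicit false

open MeasureTheory Real Set Filter Topology
open scoped ENNReal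

namespace Pool.Agent.AP157

open Pool.Agent.X297.KP

noncomputable section

variable {N : ℕ} {f : ℝ → ℝ} {M m : ℝ}

/-! ## Auxiliary lemmas -/

theorem lin_kern {θ t : ℝ} (hθ : 0 < θ) (ht : 0 < t) (u : E N) :
    heatK t u = θ ^ (-((N : ℝ) / 2)) * Real.exp (-((1 - θ) * ‖u‖ ^ 2 / (4 * t))) *
      heatK (t / θ) u := by
  unfold heatK
  have h1 : (4 * π * t) ^ (-((N : ℝ) / 2)) =
      θ ^ (-((N : ℝ) / 2)) * (4 * π * (t / θ)) ^ (-((N : ℝ) / 2)) := by
    have h2 : 4 * π * t = θ * (4 * π * (t / θ)) := by field_simp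
    rw [h2]
    rw [Real.mul_rpow hθ.le (by positivity)]
  have h3 : Real.exp (-(‖u‖ ^ 2 / (4 * t))) =
      Real.exp (-((1 - θ) * ‖u‖ ^ 2 / (4 * t))) * Real.exp (-(‖u‖ ^ 2 / (4 * (t / θ)))) := by
    rw [← Real.exp_add]
    congr 1
    field_simp
    ring
  rw [h1, h3]
  ring

theorem P_tail2 (N : ℕ) {θ : ℝ} (hθ : 0 < θ) (hθ1 : θ < 1) : ∃ C : ℝ, 1 ≤ C ∧
    ∀ (t : ℝ) (x : E N) (A : ℝ) (W : Set (E N)), 0 < t → 0 ≤ A → MeasurableSet W →
      (∀ y ∈ W, A ≤ ‖x - y‖) →
      P t (W.indicator 1) x ≤ C * Real.exp (-((1 - θ) * A ^ 2 / (4 * t))) := by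
  refine ⟨max 1 (θ ^ (-((N : ℝ) / 2))), le_max_left _ _, ?_⟩
  intro t x A W ht hA hW h
  have htθ : 0 < t / θ := div_pos ht hθ
  set C : ℝ := max 1 (θ ^ (-((N : ℝ) / 2))) with hC
  have hC0 : 0 < C := lt_of_lt_of_le one_pos (le_max_left _ _)
  have e1 : ∫ y : E N, C * Real.exp (-((1 - θ) * A ^ 2 / (4 * t))) * heatK (t / θ) (x - y)
      = C * Real.exp (-((1 - θ) * A ^ 2 / (4 * t))) := by
    rw [integral_const_mul, heatK_int1' htθ, mul_one]
  rw [← e1]
  unfold P
  apply integral_mono
  · apply P_int ht (measurable_one.indicator hW) (C := 1)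
    intro y
    by_cases hy : y ∈ W
    · simp [Set.indicator_of_mem hy]
    · simp [Set.indicator_of_notMem hy]
  · exact (heatK_integrable' htθ x).const_mul _
  · intro y
    simp only
    have h5 := heatK_nonneg htθ (x - y)
    by_cases hy : y ∈ W
    · rw [Set.indicator_of_mem hy, Pi.one_apply, mul_one, lin_kern hθ ht]
      have h3 : A ^ 2 ≤ ‖x - y‖ ^ 2 := pow_le_pow_left₀ hA (h y hy) 2
      have h1θ : 0 ≤ 1 - θ := by linarith
      have h4 : Real.exp (-((1 - θ) * ‖x - y‖ ^ 2 / (4 * t))) ≤
          Real.exp (-((1 - θ) * A ^ 2 / (4 * t))) := by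
        apply Real.exp_le_exp.2
        apply neg_le_neg
        gcongr
      have h6 : θ ^ (-((N : ℝ) / 2)) ≤ C := le_max_right _ _
      have h7 : 0 ≤ θ ^ (-((N : ℝ) / 2)) := Real.rpow_nonneg hθ.le _
      exact mul_le_mul_of_nonneg_right (mul_le_mul h6 h4 (Real.exp_nonneg _) hC0.le) h5
    · rw [Set.indicator_of_notMem hy, mul_zero]
      positivity

theorem S_lin (hf : Nl f M) {k : ℝ} (hk : 0 ≤ k) {g g' : E N → ℝ} (hg : Dat g) (hg' : Dat g')
    {T : ℝ} (hT : 0 < T) (h : ∀ r ∈ Ioo 0 T, ∀ y, S f M r g' y < S f M r g y →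
      f (S f M r g y) - f (S f M r g' y) ≤ k * (S f M r g y - S f M r g' y)) (x : E N) :
    S f M T g x - S f M T g' x ≤ Real.exp (k * T) * P T (fun y => max (g y - g' y) 0) x := by
  have hM := hf.nn
  have hM1 := hf.one_le
  have hm : 0 < M + k := by linarith
  set D0 : E N → ℝ := fun y => max (g y - g' y) 0 with hD0
  have hD0m : Measurable D0 := (hg.meas.sub hg'.meas).max measurable_const
  set d : ℝ → E N → ℝ := fun t y => Real.exp (M * t) * max (S f M t g y - S f M t g' y) 0 with hd
  have hdm : Measurable (Function.uncurry d) := by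
    have e1 : Function.uncurry d = fun p : ℝ × E N => Real.exp (M * p.1) *
        max (Function.uncurry (fun t x => S f M t g x) p -
          Function.uncurry (fun t x => S f M t g' x) p) 0 := rfl
    rw [e1]
    have h2 := S_meas hf hg
    have h3 := S_meas hf hg'
    apply Measurable.mul (by fun_prop)
    exact (h2.sub h3).max measurable_const
  have hD1 : ∀ t y, max (S f M t g y - S f M t g' y) 0 ∈ Icc (0:ℝ) 1 := fun t y =>
    ⟨le_max_right _ _, max_le (by linarith [(S_mem hf hg t y).2, (S_mem hf hg' t y).1])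
      zero_le_one⟩
  set b : ℝ := Real.exp (M * T) with hb
  have hb1 : 1 ≤ b := Real.one_le_exp (mul_nonneg hM hT.le)
  have hdb : ∀ t ∈ Ioc 0 T, ∀ y, d t y ∈ Icc 0 b := by
    intro t ht y
    have h2 := hD1 t y
    refine ⟨mul_nonneg (Real.exp_nonneg _) h2.1, ?_⟩
    calc d t y ≤ Real.exp (M * T) * 1 := by
          apply mul_le_mul _ h2.2 h2.1 (Real.exp_nonneg _)
          apply Real.exp_le_exp.mpr
          exact mul_le_mul_of_nonneg_left ht.2 hM
      _ = Real.exp (M * T) := mul_one _
  have hD01 : ∀ y, D0 y ∈ Icc (0:ℝ) 1 := fun y =>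
    ⟨le_max_right _ _, max_le (by linarith [(hg.mem y).2, (hg'.mem y).1]) zero_le_one⟩
  have hDb : ∀ y, D0 y ∈ Icc 0 b := fun y => ⟨(hD01 y).1, (hD01 y).2.trans hb1⟩
  have hHm : Measurable (fun _ : E N => (0 : ℝ)) := measurable_const
  have hHb : ∀ y : E N, (fun _ : E N => (0 : ℝ)) y ∈ Icc 0 b := fun y =>
    ⟨le_rfl, zero_le_one.trans hb1⟩
  have key := gron_src (N := N) hT hm hdm hdb hD0m hDb hHm hHb (by
    intro t ht y
    have hint := lgr_PPint hdm hHm (m := M + k) (b := b) hm.le ht.1
      (fun s hs w => hdb s ⟨hs.1, hs.2.le.trans ht.2⟩ w) hHb y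
    have hR0 : 0 ≤ ∫ s in (0:ℝ)..t, P (t - s)
        (fun y => (M + k) * d s y + P s (fun _ : E N => (0 : ℝ)) y) y := by
      rw [intervalIntegral.integral_of_le ht.1.le, integral_Ioc_eq_integral_Ioo]
      apply setIntegral_nonneg measurableSet_Ioo
      intro s hs
      apply P_nonneg (by linarith [hs.2])
      intro w
      have h2 := (hdb s ⟨hs.1, hs.2.le.trans ht.2⟩ w).1
      have h3 := P_nonneg (N := N) hs.1 (fun w => le_refl (0 : ℝ)) w
      positivity
    have hP0 : 0 ≤ P t D0 y := P_nonneg ht.1 (fun w => (hD01 w).1) y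
    have hmain : S f M t g y - S f M t g' y ≤ Real.exp (-(M * t)) * (P t D0 y +
        ∫ s in (0:ℝ)..t, P (t - s)
          (fun y => (M + k) * d s y + P s (fun _ : E N => (0 : ℝ)) y) y) := by
      rw [duh_sub hf hg hg' ht.1, mul_add]
      apply add_le_add
      · apply mul_le_mul_of_nonneg_left _ (Real.exp_nonneg _)
        apply P_mono ht.1 (hg.meas.sub hg'.meas) hD0m (C := 1)
        · intro w
          rw [Pi.sub_apply, abs_le]
          constructor <;> linarith [(hg.mem w).1, (hg.mem w).2, (hg'.mem w).1, (hg'.mem w).2]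
        · intro w
          rw [abs_of_nonneg (hD01 w).1]
          exact (hD01 w).2
        · intro w
          simp only [Pi.sub_apply]
          exact le_max_left _ _
      · rw [← intervalIntegral.integral_const_mul]
        apply intervalIntegral.integral_mono_on_of_le_Ioo ht.1.le
        · have h1 := (duh_int hf hg ht.1 y).sub (duh_int hf hg' ht.1 y)
          refine h1.congr_ae ?_
          have hne : ∀ᵐ s : ℝ, s ≠ t := by
            simp [ae_iff]
          rw [Filter.EventuallyEq, ae_restrict_iff' measurableSet_uIoc]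
          filter_upwards [hne] with s hst hs
          rw [uIoc_of_le ht.1.le] at hs
          have hts : 0 < t - s := by
            have := lt_of_le_of_ne hs.2 hst
            linarith
          rw [P_sub hts (Fe_S_meas hf hg s) (Fe_S_meas hf hg' s) (fun y => Fe_abs hf _)
            (fun y => Fe_abs hf _)]
          ring
        · exact hint.const_mul _
        · intro s hs
          have hts : 0 < t - s := by linarith [hs.2]
          have e2 : Real.exp (-(M * t)) = Real.exp (-(M * (t - s))) * Real.exp (-(M * s)) := by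
            rw [← Real.exp_add]
            congr 1
            ring
          rw [e2, mul_assoc]
          apply mul_le_mul_of_nonneg_left _ (Real.exp_nonneg _)
          rw [← P_const_mul]
          have hsT : s ∈ Ioo 0 T := ⟨hs.1, hs.2.trans_le ht.2⟩
          have hFm := lgr_PPmeas hdm hHm (M + k)
          have hFs : Measurable (fun w => (M + k) * d s w + P s (fun _ : E N => (0 : ℝ)) w) :=
            hFm.comp (f := fun y : E N => (s, y)) (by fun_prop)
          have hPz : ∀ w : E N, P s (fun _ : E N => (0 : ℝ)) w = 0 := fun w => P_const hs.1 0 w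
          apply P_mono hts ((Fe_S_meas hf hg s).sub (Fe_S_meas hf hg' s))
            (hFs.const_mul _) (C := max (2 * M) ((M + k) * b))
          · intro w
            refine le_trans ?_ (le_max_left _ _)
            rw [Pi.sub_apply, abs_le]
            have h1 := Fe_nonneg hf (S f M s g w)
            have h2 := Fe_le hf (S f M s g w)
            have h3 := Fe_nonneg hf (S f M s g' w)
            have h4 := Fe_le hf (S f M s g' w)
            constructor <;> linarith
          · intro w
            refine le_trans ?_ (le_max_right _ _)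
            have h1 := hdb s ⟨hs.1, hs.2.le.trans ht.2⟩ w
            have h3 : Real.exp (-(M * s)) ≤ 1 := by
              apply Real.exp_le_one_iff.mpr
              have : 0 ≤ M * s := mul_nonneg hM hs.1.le
              linarith
            have h4 : |(M + k) * d s w + P s (fun _ : E N => (0 : ℝ)) w| ≤ (M + k) * b := by
              rw [hPz, add_zero, abs_mul, abs_of_nonneg hm.le, abs_of_nonneg h1.1]
              exact mul_le_mul_of_nonneg_left h1.2 hm.le
            rw [abs_mul, abs_of_nonneg (Real.exp_nonneg _)]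
            calc _ ≤ 1 * ((M + k) * b) :=
                  mul_le_mul h3 h4 (abs_nonneg _) zero_le_one
              _ = _ := one_mul _
          · intro w
            rw [Pi.sub_apply, hPz, add_zero]
            have e5 : Real.exp (-(M * s)) * ((M + k) * d s w) =
                (M + k) * max (S f M s g w - S f M s g' w) 0 := by
              simp only [hd]
              have : Real.exp (-(M * s)) * Real.exp (M * s) = 1 := by
                rw [← Real.exp_add]; simp
              linear_combination (M + k) * max (S f M s g w - S f M s g' w) 0 * this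
            rw [e5]
            have a1 := S_mem hf hg s w
            have a2 := S_mem hf hg' s w
            by_cases hcmp : S f M s g' w < S f M s g w
            · rw [max_eq_left (by linarith), Fe_eq a1, Fe_eq a2]
              have := h s hsT w hcmp
              linarith
            · push Not at hcmp
              have := Fe_mono hf hcmp
              rw [max_eq_right (by linarith), mul_zero]
              linarith
    have e3 : Real.exp (M * t) * Real.exp (-(M * t)) = 1 := by
      rw [← Real.exp_add]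
      simp
    show Real.exp (M * t) * max (S f M t g y - S f M t g' y) 0 ≤ _
    have h5 : max (S f M t g y - S f M t g' y) 0 ≤ Real.exp (-(M * t)) *
        (P t D0 y + ∫ s in (0:ℝ)..t, P (t - s)
          (fun y => (M + k) * d s y + P s (fun _ : E N => (0 : ℝ)) y) y) :=
      max_le hmain (mul_nonneg (Real.exp_nonneg _) (add_nonneg hP0 hR0))
    calc _ ≤ Real.exp (M * t) * (Real.exp (-(M * t)) *
        (P t D0 y + ∫ s in (0:ℝ)..t, P (t - s)
          (fun y => (M + k) * d s y + P s (fun _ : E N => (0 : ℝ)) y) y)) :=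
          mul_le_mul_of_nonneg_left h5 (Real.exp_nonneg _)
      _ = _ := by rw [← mul_assoc, e3, one_mul]) T ⟨hT, le_rfl⟩ x
  have h6 : Real.exp (M * T) * (S f M T g x - S f M T g' x) ≤ d T x :=
    mul_le_mul_of_nonneg_left (le_max_left _ _) (Real.exp_nonneg _)
  have h7 := h6.trans key
  rw [P_const hT, zero_div, add_zero] at h7
  have e4 : Real.exp ((M + k) * T) = Real.exp (M * T) * Real.exp (k * T) := by
    rw [← Real.exp_add]
    congr 1
    ring
  rw [e4, mul_assoc] at h7
  exact le_of_mul_le_mul_left h7 (Real.exp_pos _)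

theorem S_low (hf : Nl f M) {k d : ℝ} (hk : 0 ≤ k) (hd : d ≤ 1)
    (h : ∀ q ∈ Icc (0:ℝ) d, k * q ≤ f q) {g : E N → ℝ} (hg : Dat g) {T : ℝ} (hT : 0 < T)
    (hgd : ∀ x, Real.exp (k * T) * g x ≤ d) (x : E N) :
    Real.exp (k * T) * P T g x ≤ S f M T g x := by
  have hM := hf.nn
  have hM1 := hf.one_le
  have hgr := ofR_meas hg
  set G : E N → ℝ≥0∞ := fun y => ENNReal.ofReal (g y) with hG
  have hg1 : ∀ y, |g y| ≤ 1 := fun y => by rw [abs_of_nonneg (hg.mem y).1]; exact (hg.mem y).2
  -- the subsolution
  set w : ℝ → E N → ℝ≥0∞ := fun t y => if t ≤ T then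
    ENNReal.ofReal (Real.exp (k * t)) * ∫⁻ z, ENNReal.ofReal (heatK t (y - z)) * G z else 0 with hw
  have hwm : Measurable (Function.uncurry w) := by
    have e1 : Function.uncurry w = fun p : ℝ × E N => if p.1 ≤ T then
      ENNReal.ofReal (Real.exp (k * p.1)) *
        ∫⁻ z, ENNReal.ofReal (heatK p.1 (p.2 - z)) * G z else 0 := rfl
    rw [e1]
    apply Measurable.ite (measurableSet_le (by fun_prop) (by fun_prop)) _ measurable_const
    exact Measurable.mul (by fun_prop) (meas_conv0 hgr)
  have hwr : ∀ t, 0 < t → t ≤ T → ∀ y, w t y = ENNReal.ofReal (Real.exp (k * t) * P t g y) := by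
    intro t ht htT y
    simp only [hw, if_pos htT]
    rw [ENNReal.ofReal_mul (Real.exp_nonneg _),
      P_ofReal ht hg.meas (fun y => (hg.mem y).1) (fun y => (hg.mem y).2)]
  have hwd : ∀ t, 0 < t → t ≤ T → ∀ y, Real.exp (k * t) * P t g y ∈ Icc (0:ℝ) d := by
    intro t ht htT y
    refine ⟨mul_nonneg (Real.exp_nonneg _) (P_nonneg ht (fun y => (hg.mem y).1) y), ?_⟩
    rw [← P_const_mul]
    apply P_le ht (hg.meas.const_mul _) (C := Real.exp (k * T))
    · intro z
      rw [abs_mul, abs_of_nonneg (Real.exp_nonneg _)]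
      have e1 : Real.exp (k * t) ≤ Real.exp (k * T) :=
        Real.exp_le_exp.mpr (mul_le_mul_of_nonneg_left htT hk)
      calc _ ≤ Real.exp (k * T) * 1 :=
            mul_le_mul e1 (hg1 z) (abs_nonneg _) (Real.exp_nonneg _)
        _ = _ := mul_one _
    · intro z
      refine le_trans ?_ (hgd z)
      exact mul_le_mul_of_nonneg_right
        (Real.exp_le_exp.mpr (mul_le_mul_of_nonneg_left htT hk)) (hg.mem z).1
  have hw1 : ∀ t, 0 < t → ∀ y, w t y ≤ 1 := by
    intro t ht y
    by_cases htT : t ≤ T
    · rw [hwr t ht htT, ENNReal.ofReal_le_one]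
      exact (hwd t ht htT y).2.trans hd
    · simp only [hw, if_neg htT]
      exact zero_le
  have hsub : ∀ t, 0 < t → ∀ y, w t y ≤ Phi f M G w t y := by
    intro t ht y
    by_cases htT : t ≤ T
    swap
    · simp only [hw, if_neg htT]
      exact zero_le
    have hGt : ∀ s ∈ Ioo 0 t, ∀ z, ENNReal.ofReal ((M + k) * Real.exp (k * s)) *
        (∫⁻ z', ENNReal.ofReal (heatK s (z - z')) * G z') ≤ Gt f M (w s z) := by
      intro s hs z
      have hsT : s ≤ T := by linarith [hs.2]
      have h1 := hwd s hs.1 hsT z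
      have h2 : w s z = ENNReal.ofReal (Real.exp (k * s) * P s g z) := hwr s hs.1 hsT z
      have h3 : cl (w s z) = Real.exp (k * s) * P s g z := by
        unfold cl
        rw [min_eq_left (hw1 s hs.1 z), h2, ENNReal.toReal_ofReal h1.1]
      unfold Gt
      rw [h3, ← P_ofReal hs.1 hg.meas (fun y => (hg.mem y).1) (fun y => (hg.mem y).2),
        ← ENNReal.ofReal_mul (by positivity)]
      apply ENNReal.ofReal_le_ofReal
      have h4 := h _ h1
      have h5 : (M + k) * Real.exp (k * s) * P s g z =
        k * (Real.exp (k * s) * P s g z) + M * (Real.exp (k * s) * P s g z) := by ring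
      rw [h5]
      linarith
    have hI : ∫⁻ s in Ioo 0 t, ENNReal.ofReal ((M + k) * Real.exp ((M + k) * s - M * t)) =
        ENNReal.ofReal (Real.exp (k * t) - Real.exp (-(M * t))) := by
      rw [lint_ftc' (g := fun s => (M + k) * Real.exp ((M + k) * s - M * t))
        (G := fun s => Real.exp ((M + k) * s - M * t)) (by fun_prop) ht.le
        (fun s _ _ => by positivity)
        (fun s => by
          have := (((hasDerivAt_id' s).const_mul (M + k)).sub_const (M * t)).exp
          refine this.congr_deriv ?_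
          ring)]
      congr 1
      have e1 : (M + k) * t - M * t = k * t := by ring
      have e2 : (M + k) * 0 - M * t = -(M * t) := by ring
      rw [e1, e2]
    have hlow : ENNReal.ofReal (Real.exp (k * t) - Real.exp (-(M * t))) *
        (∫⁻ z, ENNReal.ofReal (heatK t (y - z)) * G z) ≤
        ∫⁻ s in Ioo 0 t, ENNReal.ofReal (Real.exp (-(M * (t - s)))) *
          ∫⁻ z, ENNReal.ofReal (heatK (t - s) (y - z)) * Gt f M (w s z) := by
      rw [← hI, ← lintegral_mul_const _ (by fun_prop)]
      apply setLIntegral_mono' measurableSet_Ioo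
      intro s hs
      have hts : 0 < t - s := by linarith [hs.2]
      have e1 : ∫⁻ z, ENNReal.ofReal (heatK t (y - z)) * G z =
          ∫⁻ z, ENNReal.ofReal (heatK (t - s) (y - z)) *
            (∫⁻ z', ENNReal.ofReal (heatK s (z - z')) * G z') := by
        rw [conv_conv hgr hts hs.1, sub_add_cancel]
      have e2 : ENNReal.ofReal ((M + k) * Real.exp ((M + k) * s - M * t)) =
          ENNReal.ofReal (Real.exp (-(M * (t - s)))) *
            ENNReal.ofReal ((M + k) * Real.exp (k * s)) := by
        rw [← ENNReal.ofReal_mul (Real.exp_nonneg _)]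
        congr 1
        have : Real.exp ((M + k) * s - M * t) =
            Real.exp (-(M * (t - s))) * Real.exp (k * s) := by
          rw [← Real.exp_add]; congr 1; ring
        rw [this]; ring
      rw [e1, e2, mul_assoc]
      gcongr
      rw [← lintegral_const_mul' _ _ ENNReal.ofReal_ne_top]
      apply lintegral_mono
      intro z
      simp only
      calc _ = ENNReal.ofReal (heatK (t - s) (y - z)) *
            (ENNReal.ofReal ((M + k) * Real.exp (k * s)) *
              ∫⁻ z', ENNReal.ofReal (heatK s (z - z')) * G z') := by ring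
        _ ≤ _ := by
            gcongr
            exact hGt s hs z
    have e3 : w t y = ENNReal.ofReal (Real.exp (-(M * t))) *
        (∫⁻ z, ENNReal.ofReal (heatK t (y - z)) * G z) +
        ENNReal.ofReal (Real.exp (k * t) - Real.exp (-(M * t))) *
          (∫⁻ z, ENNReal.ofReal (heatK t (y - z)) * G z) := by
      simp only [hw, if_pos htT]
      have h0 : Real.exp (-(M * t)) ≤ Real.exp (k * t) := by
        apply Real.exp_le_exp.mpr
        have h1 : 0 ≤ M * t := mul_nonneg hM ht.le
        have h2 : 0 ≤ k * t := mul_nonneg hk ht.le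
        linarith
      rw [← add_mul, ← ENNReal.ofReal_add (Real.exp_nonneg _) (by linarith)]
      congr 2
      ring
    rw [e3]
    unfold Phi
    gcongr
  have hfin := comp_mono hf hgr (fun _ => le_rfl) hwm (uu_meas hf hgr) hw1 hsub
    (fun t ht x => (uu_fix hf hgr t x).ge) T hT x
  rw [hwr T hT le_rfl x, ← ofR_S hf hg hT x] at hfin
  exact (ENNReal.ofReal_le_ofReal_iff (S_mem hf hg T x).1).mp hfin

end

end Pool.Agent.AP157

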