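import Pool.Agent.AP157.Wk
import Pool.Agent.AP157.Lin
import Pool.Agent.AP157.Reg

/-!
# Hair-trigger effect with spreading speed

Choose c₁ with c < c₁ < 2√m and k ∈ (0, m), k > c₁²/4; d > 0 from H.at0 (ε = m-k, a = 0; f 0 = 0 = hf.zero): k q ≤ f q on [0,d].
(1) One step: there are T₁ ≥ 1 and η₁ > 0 such that for 0 < η' ≤ η₁ and ‖y‖ ≤ c₁ T₁: η' 1_{B(y,1)} ≤ S_{T₁} (η' 1_{B(0,1)}) (closed or open unit balls; you may use balls of radius r instead of 1).  By S_low (amplitude e^{kT₁} η' ≤ d): S_{T₁}(η' 1_B) x ≥ e^{kT₁} η' ∫_B heatK T₁ (x-z) dz ≥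
η' vol(B) (4πT₁)^{-N/2} exp(kT₁ - (c₁T₁+2)²/(4T₁)), and the exponent is (k - c₁²/4) T₁ - c₁ - 1/T₁, so the right side is ≥ η' for T₁ large; η₁ = d e^{-kT₁}.
(2) By induction (S_mono, S_add, S_trans): S_{nT₁}(η' 1_{B(x₀,1)}) ≥ η' on the ball of radius n c₁ T₁ around x₀ (every point at distance ≤ n c₁T₁ is reached in n steps of length ≤ c₁T₁; induct on n with the statement ≥ η' 1_{B(y,1)} for all ‖y-x₀‖ ≤ n c₁T₁).
(3) Constants grow: for η' ∈ (0,1), ε > 0 there is T₂ with S_t (const η') x ≥ 1 - ε/2 for t ≥ T₂: φ(t) = S_t (const η') x does not depend on x (S_trans), φ is nondecreasing (S_t(η') ≥ η' by comparison with... use duhamel/S_low or: f ≥ 0 gives S_t(η') ≥ η': Phi(η') ≥ η'; then S_{t+s}(η') = S_t(S_s η') ≥ S_t(η')), bounded by 1, so it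
converges to p ∈ [η',1]; then S_t(const p) = p for all t (S_err/continuity in the datum), so f p = 0 by zero_of_const and p = 1.
(4) Localisation: if g ≥ η' on the ball of radius ρ around x then S_{T₂} g x ≥ S_{T₂}(η') x - e^{2MT₂} P_{T₂} 1_{‖·-x‖>ρ} x ≥ 1 - ε/2 - e^{2MT₂} 2^{N/2} e^{-ρ²/(8T₂)} ≥ 1 - ε for ρ = ρ(T₂,ε) (S_err, P_tail).
(5) First phase: g ≥ η on ‖y-x₀‖ ≤ r.  S_1 g ≥ e^{-M} P_1 g ≥ η₂ > 0 on B(x₀,1) (S_pos with g = 0 datum, heat_lower), η₂ = η₂(η,r,N,M); put η' = min η₂ η₁ (1/2)....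
For t ≥ T: t = 1 + n T₁ + s + T₂ with n maximal, s ∈ [0,T₁): handle the remainder s by starting with S_{1+s} g ≥ η'' on B(x₀,1) uniformly for s ∈ [0,T₁] (again S_pos and heat_lower on [1,1+T₁]), η'' replacing η₂.  At time 1+s+nT₁ the solution is ≥ η' on the ball of radius n c₁ T₁ around x₀, so by (4) it is ≥ 1 - ε at time t on the ball of
radius n c₁T₁ - ρ, and n c₁ T₁ - ρ ≥ c₁ (t - 1 - T₂ - 2T₁) - ρ ≥ c t for t ≥ T.
-/

set_option autoImplicit false

open MeasureTheory Real Set Filter Topology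
open scoped ENNReal

namespace Pool.Agent.AP157

open Pool.Agent.X297.KP

noncomputable section

variable {N : ℕ} {f : ℝ → ℝ} {M m : ℝ}

/-! ## Auxiliary lemmas -/

theorem hair_P_le_S (hf : Nl f M) (H : Mn f m) {g : E N → ℝ} (hg : Dat g) {T : ℝ} (hT : 0 < T)
    (x : E N) : P T g x ≤ S f M T g x := by
  have h := S_low hf (k := 0) (d := 1) le_rfl le_rfl (fun q hq => by
    rw [zero_mul]
    rcases eq_or_lt_of_le hq.1 with h | h
    · rw [← h, hf.zero]
    rcases eq_or_lt_of_le hq.2 with h' | h'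
    · rw [h', hf.one]
    exact (H.pos q ⟨h, h'⟩).le) hg hT (fun x => by
      rw [zero_mul, Real.exp_zero, one_mul]; exact (hg.mem x).2) x
  rwa [zero_mul, Real.exp_zero, one_mul] at h

/-- The bump of height `a` on the closed ball of radius `r` at `x₀`. -/
def hair_b (a r : ℝ) (x₀ : E N) : E N → ℝ := (Metric.closedBall x₀ r).indicator (fun _ => a)

theorem hair_b_dat {a r : ℝ} (ha : 0 ≤ a) (ha1 : a ≤ 1) (x₀ : E N) : Dat (hair_b a r x₀) := by
  refine ⟨measurable_const.indicator Metric.isClosed_closedBall.measurableSet, fun x => ?_⟩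
  unfold hair_b
  by_cases h : x ∈ Metric.closedBall x₀ r
  · rw [indicator_of_mem h]; exact ⟨ha, ha1⟩
  · rw [indicator_of_notMem h]; exact ⟨le_rfl, zero_le_one⟩

theorem hair_b_le {a r : ℝ} (_ha : 0 ≤ a) {x₀ : E N} {g : E N → ℝ} (hg : ∀ x, 0 ≤ g x)
    (h : ∀ y, ‖y - x₀‖ ≤ r → a ≤ g y) (x : E N) : hair_b a r x₀ x ≤ g x := by
  unfold hair_b
  by_cases hx : x ∈ Metric.closedBall x₀ r
  · rw [indicator_of_mem hx]
    exact h x (by rwa [Metric.mem_closedBall, dist_eq_norm] at hx)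
  · rw [indicator_of_notMem hx]; exact hg x

theorem hair_b_le' {a r : ℝ} (ha : 0 ≤ a) (x₀ x : E N) : hair_b a r x₀ x ≤ a := by
  unfold hair_b
  by_cases hx : x ∈ Metric.closedBall x₀ r
  · rw [indicator_of_mem hx]
  · rw [indicator_of_notMem hx]; exact ha

/-- lower bound for the heat semigroup applied to a bump -/
theorem hair_P_b {a r c t : ℝ} (ha : 0 ≤ a) (ha1 : a ≤ 1) (ht : 0 < t) (x₀ x : E N)
    (hc : ∀ z, ‖z - x₀‖ ≤ r → c ≤ heatK t (x - z)) :
    c * a * (volume (Metric.closedBall x₀ r)).toReal ≤ P t (hair_b a r x₀) x := by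
  have hm : MeasurableSet (Metric.closedBall x₀ r) := Metric.isClosed_closedBall.measurableSet
  have e1 : ∫ z in Metric.closedBall x₀ r, (c * a : ℝ) =
      c * a * (volume (Metric.closedBall x₀ r)).toReal := by
    rw [setIntegral_const, smul_eq_mul, mul_comm]
    rfl
  rw [← e1, ← integral_indicator hm]
  unfold P
  apply integral_mono
  · rw [integrable_indicator_iff hm]
    exact integrableOn_const (ne_of_lt measure_closedBall_lt_top)
  · exact P_int ht (hair_b_dat ha ha1 x₀).meas (C := 1) (fun y => by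
      have := (hair_b_dat (r := r) ha ha1 x₀).mem y
      exact abs_le.mpr ⟨by linarith [this.1], this.2⟩) x
  · intro z
    simp only
    unfold hair_b
    by_cases hz : z ∈ Metric.closedBall x₀ r
    · rw [indicator_of_mem hz, indicator_of_mem hz]
      exact mul_le_mul_of_nonneg_right (hc z (by rwa [Metric.mem_closedBall, dist_eq_norm] at hz)) ha
    · rw [indicator_of_notMem hz, indicator_of_notMem hz, mul_zero]

theorem hair_vol {r : ℝ} (hr : 0 < r) (x₀ : E N) :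
    0 < (volume (Metric.closedBall x₀ r)).toReal :=
  ENNReal.toReal_pos (Metric.measure_closedBall_pos volume x₀ hr).ne'
    (ne_of_lt measure_closedBall_lt_top)

theorem hair_vol_eq {r : ℝ} (x₀ : E N) :
    (volume (Metric.closedBall x₀ r)).toReal = (volume (Metric.closedBall (0 : E N) r)).toReal := by
  congr 1
  rw [Measure.addHaar_closedBall_center]

/-- One step. -/
theorem hair_step (N : ℕ) (hf : Nl f M) (H : Mn f m) {c₁ : ℝ} (hc : 0 < c₁)
    (hc2 : c₁ ^ 2 / 4 < m) : ∃ T₁ η₁ : ℝ, 1 ≤ T₁ ∧ 0 < η₁ ∧ ∀ η', 0 < η' → η' ≤ η₁ → η' ≤ 1 →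
      ∀ x₀ x : E N, ‖x - x₀‖ ≤ c₁ * T₁ + 1 → η' ≤ S f M T₁ (hair_b η' 1 x₀) x := by
  obtain ⟨k, hk1, hk2⟩ := exists_between hc2
  have hk0 : 0 < k := lt_of_le_of_lt (by positivity) hk1
  obtain ⟨d, hd0, hd1, hd⟩ := H.at0 (m - k) (by linarith)
  set V := (volume (Metric.closedBall (0 : E N) 1)).toReal with hV
  have hV0 : 0 < V := hair_vol one_pos 0
  set A := V * (4 * π) ^ (-((N : ℝ) / 2)) * Real.exp (-(c₁ + 1)) with hA
  have hA0 : 0 < A := by positivity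
  have ht := tendsto_exp_mul_div_rpow_atTop ((N : ℝ) / 2) (k - c₁ ^ 2 / 4) (by linarith)
  obtain ⟨T₁, hT₁, hT₁'⟩ := ((ht.eventually_ge_atTop (1 / A)).and (eventually_ge_atTop 1)).exists
  have hT0 : 0 < T₁ := by linarith
  refine ⟨T₁, d * Real.exp (-(k * T₁)), hT₁', by positivity, ?_⟩
  intro η' hη' hη1 hη2 x₀ x hx
  have hlow := S_low hf hk0.le hd1 (fun q hq => by
    have := (hd 0 q le_rfl hq.1 hq.2).1
    rw [hf.zero] at this
    linarith) (hair_b_dat (r := 1) hη'.le hη2 x₀) hT0 (fun y => by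
      calc Real.exp (k * T₁) * hair_b η' 1 x₀ y ≤ Real.exp (k * T₁) * (d * Real.exp (-(k * T₁))) := by
            gcongr
            exact (hair_b_le' hη'.le x₀ y).trans hη1
        _ = d := by
            rw [mul_comm, mul_assoc, ← Real.exp_add]
            simp) x
  refine le_trans ?_ hlow
  have hP := hair_P_b (r := 1) (c := (4 * π * T₁) ^ (-((N : ℝ) / 2)) *
    Real.exp (-(c₁ ^ 2 / 4 * T₁ + (c₁ + 1)))) hη'.le hη2 hT0 x₀ x (fun z hz => by
      unfold heatK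
      gcongr
      have h1 : ‖x - z‖ ≤ c₁ * T₁ + 2 := by
        calc ‖x - z‖ = ‖(x - x₀) - (z - x₀)‖ := by congr 1; abel
          _ ≤ ‖x - x₀‖ + ‖z - x₀‖ := norm_sub_le _ _
          _ ≤ _ := by linarith
      have h2 : ‖x - z‖ ^ 2 ≤ (c₁ * T₁ + 2) ^ 2 := pow_le_pow_left₀ (norm_nonneg _) h1 2
      rw [div_le_iff₀ (by positivity)]
      nlinarith [mul_nonneg hc.le hT0.le])
  rw [hair_vol_eq] at hP
  have hP2 := mul_le_mul_of_nonneg_left hP (Real.exp_pos (k * T₁)).le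
  refine le_trans ?_ hP2
  have e1 : (4 * π * T₁) ^ (-((N : ℝ) / 2)) = (4 * π) ^ (-((N : ℝ) / 2)) * (T₁ ^ ((N : ℝ) / 2))⁻¹ := by
    rw [Real.mul_rpow (by positivity) hT0.le, Real.rpow_neg hT0.le]
  have e2 : Real.exp (k * T₁) * (((4 * π * T₁) ^ (-((N : ℝ) / 2)) *
      Real.exp (-(c₁ ^ 2 / 4 * T₁ + (c₁ + 1)))) * η' * V) =
      η' * (A * (Real.exp ((k - c₁ ^ 2 / 4) * T₁) / T₁ ^ ((N : ℝ) / 2))) := by
    rw [e1, hA]
    have e3 : Real.exp ((k - c₁ ^ 2 / 4) * T₁) * Real.exp (-(c₁ + 1)) =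
        Real.exp (k * T₁) * Real.exp (-(c₁ ^ 2 / 4 * T₁ + (c₁ + 1))) := by
      rw [← Real.exp_add, ← Real.exp_add]
      congr 1
      ring
    calc _ = (Real.exp (k * T₁) * Real.exp (-(c₁ ^ 2 / 4 * T₁ + (c₁ + 1)))) *
          ((4 * π) ^ (-((N : ℝ) / 2)) * (T₁ ^ ((N : ℝ) / 2))⁻¹ * η' * V) := by ring
      _ = _ := by rw [← e3]; ring
  rw [e2]
  have h3 : 1 ≤ A * (Real.exp ((k - c₁ ^ 2 / 4) * T₁) / T₁ ^ ((N : ℝ) / 2)) := by
    have := mul_le_mul_of_nonneg_left hT₁ hA0.le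
    rwa [mul_one_div_cancel hA0.ne'] at this
  nlinarith

/-- Many steps. -/
theorem hair_steps (hf : Nl f M) {c₁ T₁ η' : ℝ} (hc : 0 < c₁) (hT : 0 < T₁) (hη : 0 < η')
    (hη1 : η' ≤ 1)
    (h : ∀ x₀ x : E N, ‖x - x₀‖ ≤ c₁ * T₁ + 1 → η' ≤ S f M T₁ (hair_b η' 1 x₀) x)
    {g : E N → ℝ} (hg : Dat g) {x₀ : E N} (h0 : ∀ y, ‖y - x₀‖ ≤ 1 → η' ≤ g y) (n : ℕ) :
    ∀ x, ‖x - x₀‖ ≤ n * (c₁ * T₁) → ∀ y, ‖y - x‖ ≤ 1 → η' ≤ S f M (n * T₁) g y := by
  induction n with
  | zero =>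
    intro x hx y hy
    simp only [Nat.cast_zero, zero_mul] at hx ⊢
    rw [S_zero]
    have : x = x₀ := by
      have := le_antisymm hx (norm_nonneg _)
      exact sub_eq_zero.mp (norm_eq_zero.mp this)
    rw [this] at hy
    exact h0 y hy
  | succ n ih =>
    intro x hx y hy
    push_cast at hx ⊢
    have hn0 : (0:ℝ) < (n:ℝ) + 1 := by positivity
    set x' := x₀ + ((n:ℝ) / (n + 1)) • (x - x₀) with hx'
    have h1 : ‖x' - x₀‖ ≤ n * (c₁ * T₁) := by
      rw [hx', add_sub_cancel_left, norm_smul, Real.norm_eq_abs, abs_of_nonneg (by positivity)]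
      calc (n:ℝ) / (n + 1) * ‖x - x₀‖ ≤ (n:ℝ) / (n + 1) * ((n + 1) * (c₁ * T₁)) := by gcongr
        _ = _ := by field_simp
    have h2 : ‖x - x'‖ ≤ c₁ * T₁ := by
      have e : x - x' = ((1:ℝ) / (n + 1)) • (x - x₀) := by
        rw [hx', ← sub_sub]
        have e2 : ((1:ℝ) / (n + 1)) = 1 - (n:ℝ) / (n + 1) := by field_simp; ring
        rw [e2, sub_smul, one_smul]
      rw [e, norm_smul, Real.norm_eq_abs, abs_of_nonneg (by positivity)]
      calc (1:ℝ) / (n + 1) * ‖x - x₀‖ ≤ (1:ℝ) / (n + 1) * ((n + 1) * (c₁ * T₁)) := by gcongr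
        _ = _ := by field_simp
    have h3 := ih x' h1
    have hS := S_dat hf hg (n * T₁)
    have h4 : ∀ z, hair_b η' 1 x' z ≤ S f M (n * T₁) g z :=
      hair_b_le hη.le (fun z => (hS.mem z).1) h3
    rw [add_mul, one_mul, S_add hf hg (by positivity) hT.le]
    refine le_trans (h x' y ?_) (S_mono hf (hair_b_dat hη.le hη1 x') hS h4 T₁ y)
    calc ‖y - x'‖ = ‖(y - x) + (x - x')‖ := by congr 1; abel
      _ ≤ ‖y - x‖ + ‖x - x'‖ := norm_add_le _ _
      _ ≤ _ := by linarith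

/-- Constants grow. -/
theorem hair_const (N : ℕ) (hf : Nl f M) (H : Mn f m) {η' ε : ℝ} (hη : 0 < η') (hη1 : η' ≤ 1)
    (hε : 0 < ε) : ∃ T₂ : ℝ, 0 < T₂ ∧ ∀ x : E N, 1 - ε ≤ S f M T₂ (fun _ => η') x := by
  have hM := hf.pos
  have hd : Dat (N := N) (fun _ => η') := dat_const ⟨hη.le, hη1⟩
  set φ : ℝ → ℝ := fun t => S f M t (fun _ : E N => η') 0 with hφ
  have hx : ∀ t (x : E N), S f M t (fun _ => η') x = φ t := by
    intro t x
    have := S_trans hf hd t x 0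
    rw [zero_add] at this
    rw [← this]
  have hS : ∀ t, S f M t (fun _ : E N => η') = fun _ => φ t := fun t => funext (hx t)
  have hφm : ∀ t, φ t ∈ Icc (0:ℝ) 1 := fun t => S_mem hf hd t 0
  have hgrow : ∀ q ∈ Icc (0:ℝ) 1, ∀ t, 0 ≤ t → ∀ x : E N, q ≤ S f M t (fun _ => q) x := by
    intro q hq t ht x
    rcases eq_or_lt_of_le ht with h | h
    · rw [← h, S_zero]
    · have := hair_P_le_S hf H (dat_const (N := N) hq) h x
      rwa [P_const h] at this
  have hadd : ∀ s t, 0 ≤ s → 0 ≤ t → ∀ x : E N, φ (s + t) = S f M t (fun _ => φ s) x := by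
    intro s t hs ht x
    rw [← hx (s + t) x, S_add hf hd hs ht, hS s]
  have hmono : ∀ s t, 0 ≤ s → s ≤ t → φ s ≤ φ t := by
    intro s t hs hst
    have e : t = s + (t - s) := by ring
    rw [e, hadd s (t - s) hs (by linarith) 0]
    exact hgrow _ (hφm s) _ (by linarith) 0
  -- the supremum
  set p := ⨆ n : ℕ, φ n with hp
  have hbdd : BddAbove (range (fun n : ℕ => φ n)) := ⟨1, by rintro _ ⟨n, rfl⟩; exact (hφm n).2⟩
  have hmn : Monotone (fun n : ℕ => φ n) := fun a b hab =>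
    hmono _ _ (by positivity) (by exact_mod_cast hab)
  have hlim : Tendsto (fun n : ℕ => φ n) atTop (𝓝 p) := tendsto_atTop_ciSup hmn hbdd
  have hle : ∀ t, 0 ≤ t → φ t ≤ p := by
    intro t ht
    obtain ⟨n, hn⟩ := exists_nat_ge t
    exact (hmono t n ht hn).trans (le_ciSup hbdd n)
  have hp1 : p ≤ 1 := ciSup_le fun n => (hφm n).2
  have hpη : η' ≤ p := by
    have := hle 0 le_rfl
    have e : φ 0 = η' := by rw [hφ]; simp only; rw [S_zero]
    rwa [e] at this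
  have hpm : p ∈ Icc (0:ℝ) 1 := ⟨by linarith, hp1⟩
  have hfix : ∀ t, 0 < t → ∀ x : E N, S f M t (fun _ => p) x = p := by
    intro t ht x
    apply le_antisymm _ (hgrow p hpm t ht.le x)
    have h1 : ∀ n : ℕ, S f M t (fun _ : E N => p) x ≤ p + Real.exp (2 * M * t) * (p - φ n) := by
      intro n
      have h2 := S_err hf (dat_const (N := N) hpm) (dat_const (N := N) (hφm n))
        (D := fun _ => p - φ n) measurable_const (fun _ => by linarith [hle n (by positivity)])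
        (C := p - φ n) (fun _ => le_rfl) (fun _ => by linarith) ht x
      rw [P_const ht, ← hadd n t (by positivity) ht.le x] at h2
      linarith [hle (n + t) (by positivity)]
    have h3 : Tendsto (fun n : ℕ => p + Real.exp (2 * M * t) * (p - φ n)) atTop
        (𝓝 (p + Real.exp (2 * M * t) * (p - p))) :=
      ((hlim.const_sub p).const_mul _).const_add p
    rw [sub_self, mul_zero, add_zero] at h3
    exact ge_of_tendsto' h3 h1
  have hfp : f p = 0 := zero_of_const (N := N) hf hpm one_pos 0 (fun s hs _ y => hfix s hs y)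
  have hpe : p = 1 := by
    by_contra hne
    have := H.pos p ⟨by linarith, lt_of_le_of_ne hp1 hne⟩
    linarith
  rw [hpe] at hlim
  obtain ⟨n, hn, hn1⟩ := ((hlim.eventually_const_le (show 1 - ε < 1 by linarith)).and
    (eventually_ge_atTop 1)).exists
  exact ⟨n, by exact_mod_cast hn1, fun x => by rw [hx]; exact hn⟩

/-- Localisation. -/
theorem hair_loc (N : ℕ) (hf : Nl f M) {T₂ η' ε ε' : ℝ} (hT : 0 < T₂) (hη : 0 < η') (hη1 : η' ≤ 1)
    (hε : 0 < ε') (h : ∀ x : E N, 1 - ε ≤ S f M T₂ (fun _ => η') x) :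
    ∃ ρ : ℝ, 0 < ρ ∧ ∀ g : E N → ℝ, Dat g → ∀ x, (∀ y, ‖y - x‖ ≤ ρ → η' ≤ g y) →
      1 - ε - ε' ≤ S f M T₂ g x := by
  have hM := hf.pos
  have h1 : Tendsto (fun ρ : ℝ => Real.exp (2 * M * T₂) * (2 ^ ((N : ℝ) / 2) *
      Real.exp (-(ρ ^ 2 / (8 * T₂))))) atTop (𝓝 (Real.exp (2 * M * T₂) * (2 ^ ((N : ℝ) / 2) * 0))) := by
    apply Tendsto.const_mul
    apply Tendsto.const_mul
    apply Real.tendsto_exp_neg_atTop_nhds_zero.comp
    apply Tendsto.atTop_div_const (by positivity)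
    exact tendsto_pow_atTop (by norm_num)
  rw [mul_zero, mul_zero] at h1
  obtain ⟨ρ, hρ, hρ1⟩ := ((h1.eventually_lt_const hε).and (eventually_ge_atTop 1)).exists
  have hρ0 : 0 < ρ := by linarith
  refine ⟨ρ, hρ0, fun g hg x hgx => ?_⟩
  set W : Set (E N) := {y | ρ < ‖y - x‖} with hW
  have hWm : MeasurableSet W := measurableSet_lt measurable_const (by fun_prop)
  have h2 := S_err hf (dat_const (N := N) ⟨hη.le, hη1⟩) hg (D := W.indicator 1)
    (measurable_one.indicator hWm) (fun y => indicator_nonneg (fun _ _ => zero_le_one) y) (C := 1)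
    (fun y => indicator_le_self' (fun _ _ => zero_le_one) y) (fun y => by
      by_cases hy : y ∈ W
      · rw [indicator_of_mem hy]
        have := (hg.mem y).1
        simp only [Pi.one_apply]
        linarith
      · rw [indicator_of_notMem hy]
        have := hgx y (not_lt.mp hy)
        linarith) hT x
  have h3 := P_tail hT x hρ0.le hWm (fun y hy => by
    rw [norm_sub_rev]; exact le_of_lt hy)
  have h4 := h x
  have h5 := mul_le_mul_of_nonneg_left h3 (Real.exp_pos (2 * M * T₂)).le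
  linarith

theorem hair (N : ℕ) (hf : Nl f M) (H : Mn f m) {c η r ε : ℝ} (hc : 0 < c) (hc2 : c < 2 * √m)
    (hη : 0 < η) (hr : 0 < r) (hε : 0 < ε) : ∃ T : ℝ, 0 < T ∧ ∀ t, T ≤ t → ∀ g : E N → ℝ, Dat g →
      ∀ x₀, (∀ y, ‖y - x₀‖ ≤ r → η ≤ g y) → ∀ x, ‖x - x₀‖ ≤ c * t → 1 - ε ≤ S f M t g x := by
  have hm := H.m_pos
  obtain ⟨c₁, hc₁, hc₁'⟩ := exists_between hc2
  have hc₁0 : 0 < c₁ := hc.trans hc₁
  have hc₁m : c₁ ^ 2 / 4 < m := by
    have h1 : c₁ ^ 2 < (2 * √m) ^ 2 := pow_lt_pow_left₀ hc₁' hc₁0.le two_ne_zero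
    rw [mul_pow, Real.sq_sqrt hm.le] at h1
    linarith
  obtain ⟨T₁, η₁, hT₁, hη₁, hstep⟩ := hair_step N hf H hc₁0 hc₁m
  have hT₁0 : 0 < T₁ := by linarith
  -- first phase
  obtain ⟨κ, hκ, hheat⟩ := heat_lower (N := N) (a := 1) (b := 1 + T₁) one_pos (by linarith) (1 + r)
  set V := (volume (Metric.closedBall (0 : E N) r)).toReal with hV
  have hV0 : 0 < V := hair_vol hr 0
  set η₀ := min η 1 with hη₀
  have hη₀0 : 0 < η₀ := lt_min hη one_pos
  set η' := min (min (κ * η₀ * V) η₁) 1 with hη'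
  have hη'0 : 0 < η' := lt_min (lt_min (by positivity) hη₁) one_pos
  have hη'1 : η' ≤ 1 := min_le_right _ _
  have hη'2 : η' ≤ η₁ := (min_le_left _ _).trans (min_le_right _ _)
  have hη'3 : η' ≤ κ * η₀ * V := (min_le_left _ _).trans (min_le_left _ _)
  obtain ⟨T₂, hT₂, hconst⟩ := hair_const N hf H hη'0 hη'1 (half_pos hε)
  obtain ⟨ρ, hρ, hloc⟩ := hair_loc N hf hT₂ hη'0 hη'1 (half_pos hε) hconst
  have hcc : 0 < c₁ - c := by linarith
  set T := (c₁ * (1 + T₂ + T₁) + ρ) / (c₁ - c) with hT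
  have hT0 : 0 < T := by positivity
  refine ⟨T, hT0, fun t ht g hg x₀ hgx x hx => ?_⟩
  have ht1 : c₁ * (1 + T₂ + T₁) + ρ ≤ (c₁ - c) * t := by
    rw [hT, div_le_iff₀ hcc] at ht
    linarith
  have ht0 : 0 < t := hT0.trans_le ht
  have ht2 : 1 + T₂ + T₁ ≤ t := by
    have : c₁ * (1 + T₂ + T₁) ≤ c₁ * t := by nlinarith [mul_pos hc ht0]
    exact le_of_mul_le_mul_left this hc₁0
  set n := ⌊(t - 1 - T₂) / T₁⌋₊ with hn
  have hn1 : (n:ℝ) * T₁ ≤ t - 1 - T₂ := by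
    have := Nat.floor_le (a := (t - 1 - T₂) / T₁) (div_nonneg (by linarith) hT₁0.le)
    rwa [le_div_iff₀ hT₁0] at this
  have hn2 : t - 1 - T₂ < ((n:ℝ) + 1) * T₁ := by
    have := Nat.lt_floor_add_one ((t - 1 - T₂) / T₁)
    rwa [div_lt_iff₀ hT₁0] at this
  set s := t - T₂ - n * T₁ with hs
  have hs1 : 1 ≤ s := by rw [hs]; linarith
  have hs2 : s ≤ 1 + T₁ := by rw [hs]; linarith
  have et : t = (s + n * T₁) + T₂ := by rw [hs]; ring
  have hs0 : 0 < s := by linarith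
  have hnT : 0 ≤ (n:ℝ) * T₁ := by positivity
  rw [et, S_add hf hg (by linarith) hT₂.le, S_add hf hg hs0.le hnT]
  -- first phase
  have hA : ∀ y, ‖y - x₀‖ ≤ 1 → η' ≤ S f M s g y := by
    intro y hy
    have h1 : ∀ z, hair_b η₀ r x₀ z ≤ g z := hair_b_le hη₀0.le (fun z => (hg.mem z).1)
      (fun z hz => (min_le_left _ _).trans (hgx z hz))
    have h2 := S_mono hf (hair_b_dat (r := r) hη₀0.le (min_le_right _ _) x₀) hg h1 s y
    have h3 := hair_P_le_S hf H (hair_b_dat (r := r) hη₀0.le (min_le_right _ _) x₀) hs0 y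
    have h4 := hair_P_b (r := r) (c := κ) hη₀0.le (min_le_right _ _) hs0 x₀ y (fun z hz => by
      apply hheat s ⟨hs1, hs2⟩
      calc ‖y - z‖ = ‖(y - x₀) - (z - x₀)‖ := by congr 1; abel
        _ ≤ ‖y - x₀‖ + ‖z - x₀‖ := norm_sub_le _ _
        _ ≤ _ := by linarith)
    rw [hair_vol_eq] at h4
    linarith
  have hSs := S_dat hf hg s
  have hB := hair_steps hf hc₁0 hT₁0 hη'0 hη'1 (hstep η' hη'0 hη'2 hη'1) hSs hA n
  have hC := hloc _ (S_dat hf hSs (n * T₁)) x (fun y hy => by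
    apply hB y _ y (by rw [sub_self, norm_zero]; exact zero_le_one)
    calc ‖y - x₀‖ = ‖(y - x) + (x - x₀)‖ := by congr 1; abel
      _ ≤ ‖y - x‖ + ‖x - x₀‖ := norm_add_le _ _
      _ ≤ ρ + c * t := add_le_add hy hx
      _ ≤ n * (c₁ * T₁) := by nlinarith)
  linarith

end

end Pool.Agent.AP157
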