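import Pool.Agent.AP157.Wk
import Pool.Agent.AP157.Lin
import Pool.Agent.AP157.Hair
import Pool.Agent.AP157.Reg

/-!
# Comparison of entire solutions when the failure is confined to the bulk

-/

set_option autoImplicit false

open MeasureTheory Real Set Filter Topology
open scoped ENNReal

namespace Pool.Agent.AP157

open Pool.Agent.X297.KP

noncomputable section

variable {N : ℕ} {f : ℝ → ℝ} {M m : ℝ}

theorem ent_bulk (N : ℕ) (hf : Nl f M) (H : Mn f m) : ∃ δ : ℝ, 0 < δ ∧ δ ≤ 1 / 2 ∧
    ∀ a b : ℝ → E N → ℝ, Ent f M a → Ent f M b → (∀ t x, b t x < a t x → 1 - δ ≤ b t x) →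
      ∀ t x, a t x ≤ b t x := by
  have hm := H.m_pos
  obtain ⟨d, hd, hd1, hat⟩ := H.at1 (m / 16) (by positivity)
  obtain ⟨L, hL, hreg⟩ := ent_reg N hf
  refine ⟨min d (1 / 2), by positivity, min_le_right _ _, ?_⟩
  intro a b ha hb h t x
  by_contra hcon
  push Not at hcon
  have hb1 : b t x < 1 := lt_of_lt_of_le hcon ((ha.dat t).mem x).2
  have hsm : 0 < √m := Real.sqrt_pos.mpr hm
  obtain ⟨T, hT, hair⟩ := hair N hf H (c := √m) (η := 1 / 4) (r := 1 / (4 * L))
    (ε := (1 - b t x) / 2) hsm (by linarith) (by norm_num) (by positivity) (by linarith)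
  -- the solution `b` is away from `1` in a large cone
  have h1 : ∀ s, T ≤ s → ∀ y, ‖x - y‖ ≤ √m * s → b (t - s) y < 1 - min d (1 / 2) := by
    intro s hs y hy
    by_contra h2
    push Not at h2
    have h3 : 1 / 2 ≤ b (t - s) y := by
      have := min_le_right d (1 / 2)
      linarith
    have h4 := hair s hs (b (t - s)) (hb.dat _) y (by
      intro z hz
      have h5 := (hreg b hb).1 (t - s) z y
      have h6 : L * ‖z - y‖ ≤ L * (1 / (4 * L)) := mul_le_mul_of_nonneg_left hz hL.le
      have h7 : L * (1 / (4 * L)) = 1 / 4 := by field_simp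
      have h8 := (abs_le.mp h5).1
      linarith) x hy
    have h5 := hb.flow (t - s) s (by linarith) x
    rw [sub_add_cancel] at h5
    rw [← h5] at h4
    linarith
  have h2 : ∀ s, T ≤ s → a t x - b t x ≤
      2 ^ ((N : ℝ) / 2) * Real.exp (-(m / 16 * s)) := by
    intro s hs
    have hs0 : 0 < s := lt_of_lt_of_le hT hs
    have e1 := ha.flow (t - s) s hs0.le
    have e2 := hb.flow (t - s) s hs0.le
    rw [sub_add_cancel] at e1 e2
    rw [e1 x, e2 x]
    have h3 := S_lin hf (k := m / 16) (by positivity) (ha.dat (t - s)) (hb.dat (t - s)) hs0 (by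
      intro r hr y hy
      have e3 := ha.flow (t - s) r hr.1.le y
      have e4 := hb.flow (t - s) r hr.1.le y
      rw [← e3, ← e4] at hy ⊢
      apply hat
      · have := h _ _ hy
        have h5 := min_le_left d (1 / 2)
        linarith
      · exact hy.le
      · exact ((ha.dat _).mem y).2) x
    refine h3.trans ?_
    set W : Set (E N) := {y | √m * s ≤ ‖x - y‖} with hW
    have hWm : MeasurableSet W := measurableSet_le measurable_const (by fun_prop)
    have h4 : P s (fun y => max (a (t - s) y - b (t - s) y) 0) x ≤ P s (W.indicator 1) x := by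
      apply P_mono hs0 (C := 1)
      · exact ((ha.dat _).meas.sub (hb.dat _).meas).max measurable_const
      · exact measurable_one.indicator hWm
      · intro y
        have i1 := (ha.dat (t - s)).mem y
        have i2 := (hb.dat (t - s)).mem y
        rw [abs_of_nonneg (le_max_right _ _)]
        exact max_le (by linarith [i1.2, i2.1]) zero_le_one
      · intro y
        by_cases hy : y ∈ W <;> simp [hy]
      · intro y
        have i1 := (ha.dat (t - s)).mem y
        have i2 := (hb.dat (t - s)).mem y
        by_cases hy : y ∈ W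
        · simp only [Set.indicator_of_mem hy, Pi.one_apply]
          exact max_le (by linarith [i1.2, i2.1]) zero_le_one
        · simp only [Set.indicator_of_notMem hy]
          have hy' : ‖x - y‖ ≤ √m * s := by
            rw [hW] at hy
            simp only [mem_ofPred_eq, not_le] at hy
            exact hy.le
          have i3 : a (t - s) y ≤ b (t - s) y := by
            by_contra i4
            push Not at i4
            have i5 := h _ _ i4
            have i6 := h1 s hs y hy'
            linarith
          exact max_le (by linarith) le_rfl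
    have h5 := P_tail hs0 x (A := √m * s) (by positivity) hWm (fun y hy => hy)
    have h6 : Real.exp (m / 16 * s) * (2 ^ ((N : ℝ) / 2) *
        Real.exp (-((√m * s) ^ 2 / (8 * s)))) =
        2 ^ ((N : ℝ) / 2) * Real.exp (-(m / 16 * s)) := by
      have e5 : (√m * s) ^ 2 / (8 * s) = m / 8 * s := by
        rw [mul_pow, Real.sq_sqrt hm.le]
        field_simp
      rw [e5, mul_left_comm, ← Real.exp_add]
      congr 2
      ring
    rw [← h6]
    exact mul_le_mul_of_nonneg_left (h4.trans h5) (Real.exp_nonneg _)
  have h3 : Tendsto (fun s : ℝ => (2:ℝ) ^ ((N : ℝ) / 2) * Real.exp (-(m / 16 * s))) atTop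
      (𝓝 (2 ^ ((N : ℝ) / 2) * 0)) := by
    apply Tendsto.const_mul
    apply Real.tendsto_exp_neg_atTop_nhds_zero.comp
    exact tendsto_id.const_mul_atTop (by positivity)
  rw [mul_zero] at h3
  have h4 : a t x - b t x ≤ 0 := by
    apply ge_of_tendsto h3
    filter_upwards [eventually_ge_atTop T] with s hs
    exact h2 s hs
  linarith

end

end Pool.Agent.AP157
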