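import Pool.Agent.AP157.Defs
import Pool.Agent.AP157.Kern
import Pool.Agent.AP157.Reg

/-!
# Second order regularity along lines

Hints.  Put `h = S 1 g`; `S 2 g = S 1 h` and `duhamel` gives
`S 1 h x = e^{-M} P 1 h x + ∫_0^1 e^{-M(1-s)} P (1-s) φ_s x ds`, `φ_s = Fe ∘ S s h = Fe ∘ S (1+s) g`, where all `φ_s` are Lipschitz with
one constant (S_reg: `S (1+s) g` is L-Lipschitz; `Fe` is 2M-Lipschitz by Fe_lip) and bounded by M.  Along the line `x = s e`:
`d/ds heatK r (s e - y) = -(⟪s e - y, e⟫/(2r)) heatK r (s e - y)`, and the second derivative is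
`((⟪s e - y, e⟫/(2r))^2 - ‖e‖^2/(2r)) heatK r (s e - y)`.  For a bounded measurable Lipschitz φ the function `s ↦ P r φ (s e)` is C²,
|first derivative| ≤ Lip ‖e‖ (or ≤ C M/√r), and since `∫ ∂²heatK = 0`, second derivative
`= ∫ ∂²heatK r (s e - y) (φ y - φ (s e)) dy`, which is bounded by `C Lip r^{-1/2}`, integrable on (0,1).  Differentiate twice under the time
integral (`hasDerivAt_integral_of_dominated_loc_of_deriv_le` for the set integral over Ioo 0 1) and use dominated convergence for the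
continuity of the second derivative (each `s ↦ ∂²P r φ` is continuous).  Only dominated/Gaussian estimates are needed; you may choose
any other route (for example: C² of `P r φ` with bounds for derivatives of order ≤ 3 is also fine: third derivative ≤ C Lip / r).
`contDiff_succ_iff_deriv` / `contDiff_one_iff_deriv` to assemble.
-/

set_option autoImplicit false

open MeasureTheory Real Set Filter Topology
open scoped ENNReal

namespace Pool.Agent.AP157

open Pool.Agent.X297.KP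

noncomputable section

variable {N : ℕ} {f : ℝ → ℝ} {M : ℝ} {z : Set (E N) → ℝ → E N → ℝ} {α δ ω : ℝ}

/-! ## Auxiliary lemmas -/

theorem ctwo_gauss {r : ℝ} (hr : 0 < r) (z : E N) {k : ℕ} (hk : k ≤ 4) :
    heatK r z * (‖z‖ / √r) ^ k ≤ 256 * 2 ^ ((N : ℝ) / 2) * heatK (2 * r) z := by
  set a : ℝ := ‖z‖ / √r with ha
  have ha0 : 0 ≤ a := by positivity
  have ha2 : a ^ 2 = ‖z‖ ^ 2 / r := by
    rw [ha, div_pow, Real.sq_sqrt hr.le]
  have hexp : a ^ k ≤ 256 * Real.exp (a ^ 2 / 8) := by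
    have h1 : a ^ 2 / 16 ≤ Real.exp (a ^ 2 / 16) := by
      have := Real.add_one_le_exp (a ^ 2 / 16)
      linarith
    have h2 : Real.exp (a ^ 2 / 8) = Real.exp (a ^ 2 / 16) ^ 2 := by
      rw [← Real.exp_nat_mul]
      congr 1
      push_cast
      ring
    have h3 : a ^ 4 ≤ 256 * Real.exp (a ^ 2 / 8) := by
      have h4 : (a ^ 2 / 16) ^ 2 ≤ Real.exp (a ^ 2 / 16) ^ 2 := by
        apply pow_le_pow_left₀ (by positivity) h1
      rw [h2]
      nlinarith
    have h5 : (1 : ℝ) ≤ Real.exp (a ^ 2 / 8) := Real.one_le_exp (by positivity)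
    rcases le_or_gt a 1 with h | h
    · have : a ^ k ≤ 1 := pow_le_one₀ ha0 h
      linarith
    · have : a ^ k ≤ a ^ 4 := pow_le_pow_right₀ h.le hk
      linarith
  have hker : heatK r z * Real.exp (a ^ 2 / 8) = 2 ^ ((N : ℝ) / 2) * heatK (2 * r) z := by
    unfold heatK
    have e1 : (4 * π * (2 * r)) ^ (-((N : ℝ) / 2)) =
        2 ^ (-((N : ℝ) / 2)) * (4 * π * r) ^ (-((N : ℝ) / 2)) := by
      rw [← Real.mul_rpow (by positivity) (by positivity)]
      congr 1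
      ring
    have e2 : (2 : ℝ) ^ ((N : ℝ) / 2) * 2 ^ (-((N : ℝ) / 2)) = 1 := by
      rw [← Real.rpow_add (by norm_num)]
      simp
    have e3 : Real.exp (-(‖z‖ ^ 2 / (4 * r))) * Real.exp (a ^ 2 / 8) =
        Real.exp (-(‖z‖ ^ 2 / (4 * (2 * r)))) := by
      rw [← Real.exp_add, ha2]
      congr 1
      field_simp
      ring
    rw [e1]
    calc (4 * π * r) ^ (-((N : ℝ) / 2)) * Real.exp (-(‖z‖ ^ 2 / (4 * r))) * Real.exp (a ^ 2 / 8)
        = (4 * π * r) ^ (-((N : ℝ) / 2)) *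
          (Real.exp (-(‖z‖ ^ 2 / (4 * r))) * Real.exp (a ^ 2 / 8)) := by ring
      _ = (2 ^ ((N : ℝ) / 2) * 2 ^ (-((N : ℝ) / 2))) * ((4 * π * r) ^ (-((N : ℝ) / 2)) *
          Real.exp (-(‖z‖ ^ 2 / (4 * (2 * r))))) := by rw [e3, e2, one_mul]
      _ = _ := by ring
  have hK := heatK_nonneg hr z
  calc heatK r z * a ^ k ≤ heatK r z * (256 * Real.exp (a ^ 2 / 8)) :=
        mul_le_mul_of_nonneg_left hexp hK
    _ = 256 * (heatK r z * Real.exp (a ^ 2 / 8)) := by ring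
    _ = _ := by rw [hker]; ring

theorem ctwo_shift {r : ℝ} (hr : 0 < r) (z w : E N) :
    heatK r (z + w) ≤ 2 ^ ((N : ℝ) / 2) * Real.exp (‖w‖ ^ 2 / (4 * r)) * heatK (2 * r) z := by
  have h1 : ‖z‖ ^ 2 ≤ 2 * ‖z + w‖ ^ 2 + 2 * ‖w‖ ^ 2 := by
    have h2 : ‖z‖ ≤ ‖z + w‖ + ‖w‖ := by
      have := norm_sub_le (z + w) w
      rwa [add_sub_cancel_right] at this
    have h3 := norm_nonneg z
    nlinarith [sq_nonneg (‖z + w‖ - ‖w‖)]
  unfold heatK
  have e1 : (4 * π * (2 * r)) ^ (-((N : ℝ) / 2)) =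
      2 ^ (-((N : ℝ) / 2)) * (4 * π * r) ^ (-((N : ℝ) / 2)) := by
    rw [← Real.mul_rpow (by positivity) (by positivity)]
    congr 1
    ring
  have e2 : (2 : ℝ) ^ ((N : ℝ) / 2) * 2 ^ (-((N : ℝ) / 2)) = 1 := by
    rw [← Real.rpow_add (by norm_num)]
    simp
  have e3 : Real.exp (-(‖z + w‖ ^ 2 / (4 * r))) ≤
      Real.exp (‖w‖ ^ 2 / (4 * r)) * Real.exp (-(‖z‖ ^ 2 / (4 * (2 * r)))) := by
    rw [← Real.exp_add]
    apply Real.exp_le_exp.mpr
    have h4 : ‖z‖ ^ 2 / (4 * (2 * r)) ≤ (2 * ‖z + w‖ ^ 2 + 2 * ‖w‖ ^ 2) / (4 * (2 * r)) := by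
      gcongr
    have h5 : (2 * ‖z + w‖ ^ 2 + 2 * ‖w‖ ^ 2) / (4 * (2 * r)) =
        ‖z + w‖ ^ 2 / (4 * r) + ‖w‖ ^ 2 / (4 * r) := by
      field_simp
    linarith
  calc (4 * π * r) ^ (-((N : ℝ) / 2)) * Real.exp (-(‖z + w‖ ^ 2 / (4 * r)))
      ≤ (4 * π * r) ^ (-((N : ℝ) / 2)) *
        (Real.exp (‖w‖ ^ 2 / (4 * r)) * Real.exp (-(‖z‖ ^ 2 / (4 * (2 * r))))) :=
        mul_le_mul_of_nonneg_left e3 (by positivity)
    _ = (2 ^ ((N : ℝ) / 2) * 2 ^ (-((N : ℝ) / 2))) * ((4 * π * r) ^ (-((N : ℝ) / 2)) *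
        (Real.exp (‖w‖ ^ 2 / (4 * r)) * Real.exp (-(‖z‖ ^ 2 / (4 * (2 * r)))))) := by
        rw [e2, one_mul]
    _ = _ := by rw [e1]; ring

/-- Locally uniform Gaussian domination along a line. -/
theorem ctwo_dom (e : E N) {r : ℝ} (hr : 0 < r) (s0 : ℝ) : ∃ C : ℝ, 0 ≤ C ∧
    ∀ s ∈ Metric.ball s0 1, ∀ y : E N,
      heatK r (s • e - y) ≤ C * heatK (2 * r) (s0 • e - y) := by
  refine ⟨2 ^ ((N : ℝ) / 2) * Real.exp (‖e‖ ^ 2 / (4 * r)), by positivity, ?_⟩
  intro s hs y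
  have h1 : s • e - y = (s0 • e - y) + (s - s0) • e := by
    rw [sub_smul]; abel
  rw [h1]
  refine (ctwo_shift hr _ _).trans ?_
  apply mul_le_mul_of_nonneg_right _ (heatK_nonneg (by positivity) _)
  apply mul_le_mul_of_nonneg_left _ (by positivity)
  apply Real.exp_le_exp.mpr
  have h2 : ‖(s - s0) • e‖ ≤ ‖e‖ := by
    rw [norm_smul, Real.norm_eq_abs]
    rw [Metric.mem_ball, Real.dist_eq] at hs
    calc |s - s0| * ‖e‖ ≤ 1 * ‖e‖ := mul_le_mul_of_nonneg_right hs.le (norm_nonneg _)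
      _ = ‖e‖ := one_mul _
  gcongr

theorem ctwo_integrable {r : ℝ} (hr : 0 < r) (x : E N) {k : E N → ℝ} (hk : Continuous k) {C : ℝ}
    (hC : ∀ z, |k z| ≤ C * heatK r z) {φ : E N → ℝ} (hφ : Measurable φ) {B : ℝ}
    (hB : ∀ y, |φ y| ≤ B) : Integrable (fun y => k (x - y) * φ y) := by
  have h1 : Integrable (fun y : E N => k (x - y)) := by
    refine ((heatK_integrable' hr x).const_mul C).mono' ?_ ?_
    · exact (hk.comp (by fun_prop : Continuous fun y : E N => x - y)).aestronglyMeasurable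
    · exact Eventually.of_forall fun y => hC _
  apply h1.mul_bdd (c := B) hφ.aestronglyMeasurable
  exact Eventually.of_forall hB

/-- Differentiation of a convolution along a line. -/
theorem ctwo_diff (e : E N) {r : ℝ} (hr : 0 < r) {k k' : E N → ℝ} (hk : Continuous k)
    (hk' : Continuous k') {C C' : ℝ} (hC : ∀ z, |k z| ≤ C * heatK r z)
    (hC' : ∀ z, |k' z| ≤ C' * heatK r z) (hC0 : 0 ≤ C')
    (hd : ∀ (y : E N) (s : ℝ), HasDerivAt (fun s : ℝ => k (s • e - y)) (k' (s • e - y)) s)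
    {φ : E N → ℝ} (hφ : Measurable φ) {B : ℝ} (hB : ∀ y, |φ y| ≤ B) (s0 : ℝ) :
    HasDerivAt (fun s : ℝ => ∫ y, k (s • e - y) * φ y) (∫ y, k' (s0 • e - y) * φ y) s0 := by
  have hB0 : 0 ≤ B := (abs_nonneg _).trans (hB 0)
  obtain ⟨D, hD0, hD⟩ := ctwo_dom e hr s0
  refine (hasDerivAt_integral_of_dominated_loc_of_deriv_le (μ := volume)
    (F := fun s y => k (s • e - y) * φ y) (F' := fun s y => k' (s • e - y) * φ y)
    (bound := fun y => C' * D * B * heatK (2 * r) (s0 • e - y))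
    (Metric.ball_mem_nhds s0 one_pos) ?_ ?_ ?_ ?_ ?_ ?_).2
  · refine Eventually.of_forall fun s => ?_
    exact (ctwo_integrable hr _ hk hC hφ hB).aestronglyMeasurable
  · exact ctwo_integrable hr _ hk hC hφ hB
  · exact (ctwo_integrable hr _ hk' hC' hφ hB).aestronglyMeasurable
  · refine Eventually.of_forall fun y s hs => ?_
    rw [norm_mul, Real.norm_eq_abs, Real.norm_eq_abs]
    have h1 : |k' (s • e - y)| ≤ C' * (D * heatK (2 * r) (s0 • e - y)) :=
      (hC' _).trans (mul_le_mul_of_nonneg_left (hD s hs y) hC0)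
    calc |k' (s • e - y)| * |φ y| ≤ (C' * (D * heatK (2 * r) (s0 • e - y))) * B :=
          mul_le_mul h1 (hB y) (abs_nonneg _) ((abs_nonneg _).trans h1)
      _ = _ := by ring
  · exact (heatK_integrable' (by positivity) _).const_mul _
  · refine Eventually.of_forall fun y s _ => ?_
    exact (hd y s).mul_const _

theorem ctwo_cont (e : E N) {r : ℝ} (hr : 0 < r) {k : E N → ℝ} (hk : Continuous k)
    {C : ℝ} (hC : ∀ z, |k z| ≤ C * heatK r z) (hC0 : 0 ≤ C)
    {φ : E N → ℝ} (hφ : Measurable φ) {B : ℝ} (hB : ∀ y, |φ y| ≤ B) :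
    Continuous (fun s : ℝ => ∫ y, k (s • e - y) * φ y) := by
  have hB0 : 0 ≤ B := (abs_nonneg _).trans (hB 0)
  rw [continuous_iff_continuousAt]
  intro s0
  obtain ⟨D, hD0, hD⟩ := ctwo_dom e hr s0
  apply continuousAt_of_dominated (bound := fun y => C * D * B * heatK (2 * r) (s0 • e - y))
  · refine Eventually.of_forall fun s => ?_
    exact (ctwo_integrable hr _ hk hC hφ hB).aestronglyMeasurable
  · filter_upwards [Metric.ball_mem_nhds s0 one_pos] with s hs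
    refine Eventually.of_forall fun y => ?_
    rw [norm_mul, Real.norm_eq_abs, Real.norm_eq_abs]
    have h1 : |k (s • e - y)| ≤ C * (D * heatK (2 * r) (s0 • e - y)) :=
      (hC _).trans (mul_le_mul_of_nonneg_left (hD s hs y) hC0)
    calc |k (s • e - y)| * |φ y| ≤ (C * (D * heatK (2 * r) (s0 • e - y))) * B :=
          mul_le_mul h1 (hB y) (abs_nonneg _) ((abs_nonneg _).trans h1)
      _ = _ := by ring
  · exact (heatK_integrable' (by positivity) _).const_mul _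
  · refine Eventually.of_forall fun y => ?_
    have h1 : Continuous (fun s : ℝ => k (s • e - y) * φ y) :=
      (hk.comp (by fun_prop : Continuous fun s : ℝ => s • e - y)).mul continuous_const
    exact h1.continuousAt

/-- First derivative kernel. -/
def ctwo_k1 (e : E N) (r : ℝ) (z : E N) : ℝ := -(inner ℝ z e / (2 * r)) * heatK r z

/-- Second derivative kernel. -/
def ctwo_k2 (e : E N) (r : ℝ) (z : E N) : ℝ :=
  ((inner ℝ z e / (2 * r)) ^ 2 - ‖e‖ ^ 2 / (2 * r)) * heatK r z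

theorem ctwo_k1_cont (e : E N) (r : ℝ) : Continuous (ctwo_k1 e r) := by
  unfold ctwo_k1
  have := heatK_cont (N := N) (t := r)
  fun_prop

theorem ctwo_k2_cont (e : E N) (r : ℝ) : Continuous (ctwo_k2 e r) := by
  unfold ctwo_k2
  have := heatK_cont (N := N) (t := r)
  fun_prop

theorem ctwo_d0 (e : E N) {r : ℝ} (hr : 0 < r) (y : E N) (s : ℝ) :
    HasDerivAt (fun s : ℝ => heatK r (s • e - y)) (ctwo_k1 e r (s • e - y)) s := by
  have h1 : HasDerivAt (fun s : ℝ => s • e - y) e s := by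
    have := ((hasDerivAt_id' s).smul_const e).sub_const y
    simpa using this
  have h2 : HasDerivAt (fun s : ℝ => ‖s • e - y‖ ^ 2) (2 * inner ℝ (s • e - y) e) s :=
    h1.norm_sq
  have h3 := ((h2.div_const (4 * r)).fun_neg).exp.const_mul ((4 * π * r) ^ (-((N : ℝ) / 2)))
  unfold heatK ctwo_k1
  refine h3.congr_deriv ?_
  unfold heatK
  field_simp
  ring

theorem ctwo_d1 (e : E N) {r : ℝ} (hr : 0 < r) (y : E N) (s : ℝ) :
    HasDerivAt (fun s : ℝ => ctwo_k1 e r (s • e - y)) (ctwo_k2 e r (s • e - y)) s := by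
  have h1 : HasDerivAt (fun s : ℝ => s • e - y) e s := by
    have := ((hasDerivAt_id' s).smul_const e).sub_const y
    simpa using this
  have h2 : HasDerivAt (fun s : ℝ => inner ℝ (s • e - y) e) (‖e‖ ^ 2) s := by
    have := h1.inner ℝ (hasDerivAt_const s e)
    refine this.congr_deriv ?_
    rw [inner_zero_right, zero_add, real_inner_self_eq_norm_sq]
  have h3 := ((h2.div_const (2 * r)).fun_neg).mul (ctwo_d0 e hr y s)
  unfold ctwo_k1 at h3 ⊢
  refine h3.congr_deriv ?_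
  unfold ctwo_k2
  field_simp
  ring

/-- The Gaussian constant. -/
def ctwo_CN (N : ℕ) : ℝ := 256 * 2 ^ ((N : ℝ) / 2)

theorem ctwo_CN_pos (N : ℕ) : 0 < ctwo_CN N := by
  unfold ctwo_CN
  positivity

theorem ctwo_k0_bound {r : ℝ} (hr : 0 < r) (z : E N) :
    |heatK r z| ≤ ctwo_CN N * heatK (2 * r) z := by
  rw [abs_of_nonneg (heatK_nonneg hr z)]
  have := ctwo_gauss hr z (k := 0) (by norm_num)
  simpa [ctwo_CN] using this

theorem ctwo_k1_bound (e : E N) {r : ℝ} (hr : 0 < r) (z : E N) :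
    |ctwo_k1 e r z| ≤ (‖e‖ / √r * ctwo_CN N) * heatK (2 * r) z := by
  have hK := heatK_nonneg hr z
  have hs : 0 < √r := Real.sqrt_pos.mpr hr
  have h1 : |inner ℝ z e / (2 * r)| ≤ (‖e‖ / √r) * (‖z‖ / √r) := by
    rw [abs_div, abs_of_pos (by positivity : 0 < 2 * r)]
    have h2 : |inner ℝ z e| ≤ ‖z‖ * ‖e‖ := abs_real_inner_le_norm z e
    have h3 : (‖e‖ / √r) * (‖z‖ / √r) = ‖z‖ * ‖e‖ / r := by
      rw [div_mul_div_comm, Real.mul_self_sqrt hr.le, mul_comm]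
    rw [h3]
    calc |inner ℝ z e| / (2 * r) ≤ (‖z‖ * ‖e‖) / (2 * r) := by gcongr
      _ ≤ (‖z‖ * ‖e‖) / r := by
        apply div_le_div_of_nonneg_left (by positivity) hr
        linarith
  have h4 := ctwo_gauss hr z (k := 1) (by norm_num)
  rw [pow_one] at h4
  unfold ctwo_k1
  rw [abs_mul, abs_neg, abs_of_nonneg hK]
  calc |inner ℝ z e / (2 * r)| * heatK r z ≤ ((‖e‖ / √r) * (‖z‖ / √r)) * heatK r z :=
        mul_le_mul_of_nonneg_right h1 hK
    _ = (‖e‖ / √r) * (heatK r z * (‖z‖ / √r)) := by ring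
    _ ≤ (‖e‖ / √r) * (256 * 2 ^ ((N : ℝ) / 2) * heatK (2 * r) z) :=
        mul_le_mul_of_nonneg_left h4 (by positivity)
    _ = _ := by unfold ctwo_CN; ring

theorem ctwo_coef2 (e : E N) {r : ℝ} (hr : 0 < r) (z : E N) :
    |(inner ℝ z e / (2 * r)) ^ 2 - ‖e‖ ^ 2 / (2 * r)| ≤
      (‖e‖ ^ 2 / r) * ((‖z‖ / √r) ^ 2 / 4 + 1 / 2) := by
  have h2 : (inner ℝ z e) ^ 2 ≤ (‖z‖ * ‖e‖) ^ 2 := by
    rw [← sq_abs (inner ℝ z e)]
    exact pow_le_pow_left₀ (abs_nonneg _) (abs_real_inner_le_norm z e) 2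
  have h3 : (inner ℝ z e / (2 * r)) ^ 2 ≤ (‖e‖ ^ 2 / r) * ((‖z‖ / √r) ^ 2 / 4) := by
    rw [div_pow, div_pow, Real.sq_sqrt hr.le]
    have : (‖e‖ ^ 2 / r) * (‖z‖ ^ 2 / r / 4) = (‖z‖ * ‖e‖) ^ 2 / (2 * r) ^ 2 := by
      field_simp
      ring
    rw [this]
    gcongr
  have h4 : ‖e‖ ^ 2 / (2 * r) = (‖e‖ ^ 2 / r) * (1 / 2) := by
    field_simp
  rw [abs_le]
  have h5 : 0 ≤ (inner ℝ z e / (2 * r)) ^ 2 := sq_nonneg _
  have h6 : 0 ≤ ‖e‖ ^ 2 / (2 * r) := by positivity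
  have h7 : 0 ≤ (‖e‖ ^ 2 / r) * ((‖z‖ / √r) ^ 2 / 4) := by positivity
  rw [mul_add, ← h4]
  constructor <;> linarith

theorem ctwo_k2_bound (e : E N) {r : ℝ} (hr : 0 < r) (z : E N) :
    |ctwo_k2 e r z| ≤ (‖e‖ ^ 2 / r * ctwo_CN N) * heatK (2 * r) z := by
  have hK := heatK_nonneg hr z
  have h1 := ctwo_coef2 e hr z
  have h4 := ctwo_gauss hr z (k := 2) (by norm_num)
  have h0 := ctwo_gauss hr z (k := 0) (by norm_num)
  rw [pow_zero, mul_one] at h0
  have hK2 := heatK_nonneg (by positivity : 0 < 2 * r) z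
  have hC : 0 ≤ 256 * 2 ^ ((N : ℝ) / 2) * heatK (2 * r) z := by positivity
  unfold ctwo_k2
  rw [abs_mul, abs_of_nonneg hK]
  calc |(inner ℝ z e / (2 * r)) ^ 2 - ‖e‖ ^ 2 / (2 * r)| * heatK r z
      ≤ ((‖e‖ ^ 2 / r) * ((‖z‖ / √r) ^ 2 / 4 + 1 / 2)) * heatK r z :=
        mul_le_mul_of_nonneg_right h1 hK
    _ = (‖e‖ ^ 2 / r) * ((heatK r z * (‖z‖ / √r) ^ 2) / 4 + heatK r z / 2) := by ring
    _ ≤ (‖e‖ ^ 2 / r) * (256 * 2 ^ ((N : ℝ) / 2) * heatK (2 * r) z) := by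
        apply mul_le_mul_of_nonneg_left _ (by positivity)
        linarith
    _ = _ := by unfold ctwo_CN; ring

theorem ctwo_k2_bound' (e : E N) {r : ℝ} (hr : 0 < r) (z : E N) :
    |ctwo_k2 e r z| * ‖z‖ ≤ (‖e‖ ^ 2 / √r * ctwo_CN N) * heatK (2 * r) z := by
  have hK := heatK_nonneg hr z
  have hs : 0 < √r := Real.sqrt_pos.mpr hr
  have h1 := ctwo_coef2 e hr z
  have h3 := ctwo_gauss hr z (k := 3) (by norm_num)
  have h4 := ctwo_gauss hr z (k := 1) (by norm_num)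
  rw [pow_one] at h4
  have hK2 := heatK_nonneg (by positivity : 0 < 2 * r) z
  have hC : 0 ≤ 256 * 2 ^ ((N : ℝ) / 2) * heatK (2 * r) z := by positivity
  have hz : ‖z‖ = (‖z‖ / √r) * √r := by field_simp
  have hrr : ‖e‖ ^ 2 / r * √r = ‖e‖ ^ 2 / √r := by
    rw [div_mul_eq_mul_div, div_eq_div_iff hr.ne' hs.ne', mul_assoc, Real.mul_self_sqrt hr.le]
  unfold ctwo_k2
  rw [abs_mul, abs_of_nonneg hK]
  calc |(inner ℝ z e / (2 * r)) ^ 2 - ‖e‖ ^ 2 / (2 * r)| * heatK r z * ‖z‖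
      ≤ ((‖e‖ ^ 2 / r) * ((‖z‖ / √r) ^ 2 / 4 + 1 / 2)) * heatK r z * ‖z‖ := by gcongr
    _ = ((‖e‖ ^ 2 / r) * ((‖z‖ / √r) ^ 2 / 4 + 1 / 2)) * heatK r z * ((‖z‖ / √r) * √r) := by
        rw [← hz]
    _ = (‖e‖ ^ 2 / r * √r) * ((heatK r z * (‖z‖ / √r) ^ 3) / 4 + (heatK r z * (‖z‖ / √r)) / 2) := by
        ring
    _ ≤ (‖e‖ ^ 2 / r * √r) * (256 * 2 ^ ((N : ℝ) / 2) * heatK (2 * r) z) := by
        apply mul_le_mul_of_nonneg_left _ (by positivity)
        linarith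
    _ = _ := by rw [hrr]; unfold ctwo_CN; ring

theorem ctwo_D0 (e : E N) {r : ℝ} (hr : 0 < r) {φ : E N → ℝ} (hφ : Measurable φ) {B : ℝ}
    (hB : ∀ y, |φ y| ≤ B) (s0 : ℝ) :
    HasDerivAt (fun s : ℝ => ∫ y, heatK r (s • e - y) * φ y)
      (∫ y, ctwo_k1 e r (s0 • e - y) * φ y) s0 :=
  ctwo_diff e (by positivity : 0 < 2 * r) heatK_cont (ctwo_k1_cont e r) (ctwo_k0_bound hr)
    (ctwo_k1_bound e hr) (by have := ctwo_CN_pos N; positivity) (ctwo_d0 e hr) hφ hB s0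

theorem ctwo_D1 (e : E N) {r : ℝ} (hr : 0 < r) {φ : E N → ℝ} (hφ : Measurable φ) {B : ℝ}
    (hB : ∀ y, |φ y| ≤ B) (s0 : ℝ) :
    HasDerivAt (fun s : ℝ => ∫ y, ctwo_k1 e r (s • e - y) * φ y)
      (∫ y, ctwo_k2 e r (s0 • e - y) * φ y) s0 :=
  ctwo_diff e (by positivity : 0 < 2 * r) (ctwo_k1_cont e r) (ctwo_k2_cont e r)
    (ctwo_k1_bound e hr)
    (ctwo_k2_bound e hr) (by have := ctwo_CN_pos N; positivity) (ctwo_d1 e hr) hφ hB s0

theorem ctwo_D2_cont (e : E N) {r : ℝ} (hr : 0 < r) {φ : E N → ℝ} (hφ : Measurable φ) {B : ℝ}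
    (hB : ∀ y, |φ y| ≤ B) :
    Continuous (fun s : ℝ => ∫ y, ctwo_k2 e r (s • e - y) * φ y) :=
  ctwo_cont e (by positivity : 0 < 2 * r) (ctwo_k2_cont e r) (ctwo_k2_bound e hr)
    (by have := ctwo_CN_pos N; positivity) hφ hB

theorem ctwo_int_k2 (e : E N) {r : ℝ} (hr : 0 < r) (s : ℝ) :
    ∫ y, ctwo_k2 e r (s • e - y) = 0 := by
  have h0 : ∀ s : ℝ, ∫ y, heatK r (s • e - y) * 1 = 1 := by
    intro s
    simp only [mul_one]
    exact heatK_int1' hr _
  have h1 : ∀ s : ℝ, ∫ y, ctwo_k1 e r (s • e - y) * 1 = 0 := by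
    intro s
    have h2 := ctwo_D0 e hr (φ := fun _ => 1) measurable_const (B := 1) (by simp) s
    have h3 : (fun s : ℝ => ∫ y, heatK r (s • e - y) * 1) = fun _ => 1 := funext h0
    rw [h3] at h2
    exact h2.unique (hasDerivAt_const s 1)
  have h4 := ctwo_D1 e hr (φ := fun _ => 1) measurable_const (B := 1) (by simp) s
  have h5 : (fun s : ℝ => ∫ y, ctwo_k1 e r (s • e - y) * 1) = fun _ => 0 := funext h1
  rw [h5] at h4
  have h6 := h4.unique (hasDerivAt_const s 0)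
  simpa using h6

theorem ctwo_B1 (e : E N) {r : ℝ} (hr : 0 < r) {φ : E N → ℝ} {B : ℝ}
    (hB : ∀ y, |φ y| ≤ B) (x : E N) :
    |∫ y, ctwo_k1 e r (x - y) * φ y| ≤ ‖e‖ / √r * ctwo_CN N * B := by
  have hC := ctwo_CN_pos N
  have hB0 : 0 ≤ B := (abs_nonneg _).trans (hB 0)
  have h1 : ‖∫ y, ctwo_k1 e r (x - y) * φ y‖ ≤
      ∫ y, (‖e‖ / √r * ctwo_CN N * B) * heatK (2 * r) (x - y) := by
    apply norm_integral_le_of_norm_le
    · exact (heatK_integrable' (by positivity) x).const_mul _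
    · refine Eventually.of_forall fun y => ?_
      rw [norm_mul, Real.norm_eq_abs, Real.norm_eq_abs]
      have h2 := ctwo_k1_bound e hr (x - y)
      calc |ctwo_k1 e r (x - y)| * |φ y|
          ≤ ((‖e‖ / √r * ctwo_CN N) * heatK (2 * r) (x - y)) * B :=
            mul_le_mul h2 (hB y) (abs_nonneg _) ((abs_nonneg _).trans h2)
        _ = _ := by ring
  rw [integral_const_mul, heatK_int1' (by positivity), mul_one, Real.norm_eq_abs] at h1
  exact h1

theorem ctwo_B2 (e : E N) {r : ℝ} (hr : 0 < r) {φ : E N → ℝ} (hφ : Measurable φ) {B L : ℝ}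
    (hB : ∀ y, |φ y| ≤ B) (hL : ∀ x y, |φ x - φ y| ≤ L * ‖x - y‖) (s : ℝ) :
    |∫ y, ctwo_k2 e r (s • e - y) * φ y| ≤ ‖e‖ ^ 2 / √r * ctwo_CN N * L := by
  have hC := ctwo_CN_pos N
  set x := s • e with hx
  have hi : Integrable (fun y : E N => ctwo_k2 e r (x - y)) := by
    have := ctwo_integrable (by positivity : 0 < 2 * r) x (ctwo_k2_cont e r) (ctwo_k2_bound e hr)
      (φ := fun _ => 1) measurable_const (B := 1) (by simp)
    simpa using this
  have h0 : ∫ y, ctwo_k2 e r (x - y) * φ y = ∫ y, ctwo_k2 e r (x - y) * (φ y - φ x) := by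
    have h1 : ∀ y, ctwo_k2 e r (x - y) * (φ y - φ x) =
        ctwo_k2 e r (x - y) * φ y - ctwo_k2 e r (x - y) * φ x := fun y => by ring
    simp_rw [h1]
    rw [integral_sub, integral_mul_const, ctwo_int_k2 e hr s, zero_mul, sub_zero]
    · exact ctwo_integrable (by positivity : 0 < 2 * r) x (ctwo_k2_cont e r) (ctwo_k2_bound e hr)
        hφ hB
    · exact hi.mul_const _
  have hL' : ∀ y, |ctwo_k2 e r (x - y) * (φ y - φ x)| ≤
      (‖e‖ ^ 2 / √r * ctwo_CN N * L) * heatK (2 * r) (x - y) := by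
    intro y
    rw [abs_mul]
    have h3 : |φ y - φ x| ≤ L * ‖x - y‖ := by
      rw [norm_sub_rev]
      exact hL y x
    have h2 := ctwo_k2_bound' e hr (x - y)
    have hL0 : 0 ≤ L * ‖x - y‖ := (abs_nonneg _).trans h3
    rcases eq_or_lt_of_le (norm_nonneg (x - y)) with h | h
    · rw [← h, mul_zero] at h3
      have h4 : |φ y - φ x| = 0 := le_antisymm h3 (abs_nonneg _)
      rw [h4, mul_zero]
      have hLL : 0 ≤ L ∨ L < 0 := le_or_gt 0 L
      rcases hLL with hLL | hLL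
      · have := heatK_nonneg (by positivity : 0 < 2 * r) (x - y)
        positivity
      · -- then `e = 0` or the space is trivial; use Lipschitz at another point
        by_cases he : e = 0
        · simp [he]
        · exfalso
          have h5 := hL e 0
          rw [sub_zero] at h5
          have h6 : 0 < ‖e‖ := norm_pos_iff.mpr he
          have := mul_neg_of_neg_of_pos hLL h6
          have := abs_nonneg (φ e - φ 0)
          linarith
    · have hLL : 0 ≤ L := by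
        by_contra hcon
        have := mul_neg_of_neg_of_pos (not_le.mp hcon) h
        linarith
      calc |ctwo_k2 e r (x - y)| * |φ y - φ x|
          ≤ |ctwo_k2 e r (x - y)| * (L * ‖x - y‖) :=
            mul_le_mul_of_nonneg_left h3 (abs_nonneg _)
        _ = L * (|ctwo_k2 e r (x - y)| * ‖x - y‖) := by ring
        _ ≤ L * ((‖e‖ ^ 2 / √r * ctwo_CN N) * heatK (2 * r) (x - y)) :=
            mul_le_mul_of_nonneg_left h2 hLL
        _ = _ := by ring
  rw [h0]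
  have h1 : ‖∫ y, ctwo_k2 e r (x - y) * (φ y - φ x)‖ ≤
      ∫ y, (‖e‖ ^ 2 / √r * ctwo_CN N * L) * heatK (2 * r) (x - y) := by
    apply norm_integral_le_of_norm_le
    · exact (heatK_integrable' (by positivity) x).const_mul _
    · exact Eventually.of_forall fun y => by rw [Real.norm_eq_abs]; exact hL' y
  rw [integral_const_mul, heatK_int1' (by positivity), mul_one, Real.norm_eq_abs] at h1
  exact h1

/-- Differentiation under the time integral. -/
theorem ctwo_time {F F' : ℝ → ℝ → ℝ} {C : ℝ}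
    (hm : ∀ s, AEStronglyMeasurable (F s) (volume.restrict (Ioo (0:ℝ) 1)))
    (hm' : ∀ s, AEStronglyMeasurable (F' s) (volume.restrict (Ioo (0:ℝ) 1)))
    (hi : ∀ s, IntegrableOn (F s) (Ioo (0:ℝ) 1))
    (hd : ∀ σ ∈ Ioo (0:ℝ) 1, ∀ s, HasDerivAt (fun s => F s σ) (F' s σ) s)
    (hb : ∀ σ ∈ Ioo (0:ℝ) 1, ∀ s, |F' s σ| ≤ C * (1 - σ) ^ (-(1/2) : ℝ))
    (s0 : ℝ) :
    IntegrableOn (F' s0) (Ioo (0:ℝ) 1) ∧
      HasDerivAt (fun s => ∫ σ in Ioo (0:ℝ) 1, F s σ) (∫ σ in Ioo (0:ℝ) 1, F' s0 σ) s0 := by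
  have hbi : IntegrableOn (fun σ : ℝ => C * (1 - σ) ^ (-(1/2) : ℝ)) (Ioo (0:ℝ) 1) := by
    have h1 : IntervalIntegrable (fun x : ℝ => x ^ (-(1/2) : ℝ)) volume 0 1 :=
      intervalIntegral.intervalIntegrable_rpow' (by norm_num)
    have h2 := (h1.comp_sub_left 1).symm
    norm_num at h2
    have h3 := (intervalIntegrable_iff_integrableOn_Ioc_of_le zero_le_one).mp h2
    have h4 := h3.mono_set (Ioo_subset_Ioc_self)
    have h5 := h4.const_mul C
    norm_num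
    exact h5
  refine hasDerivAt_integral_of_dominated_loc_of_deriv_le (μ := volume.restrict (Ioo (0:ℝ) 1))
    (bound := fun σ : ℝ => C * (1 - σ) ^ (-(1/2) : ℝ)) (s := univ) univ_mem
    (Eventually.of_forall hm) (hi s0) (hm' s0) ?_ hbi ?_
  · filter_upwards [ae_restrict_mem measurableSet_Ioo] with σ hσ s _
    rw [Real.norm_eq_abs]
    exact hb σ hσ s
  · filter_upwards [ae_restrict_mem measurableSet_Ioo] with σ hσ s _
    exact hd σ hσ s

theorem ctwo_bi (C : ℝ) :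
    IntegrableOn (fun σ : ℝ => C * (1 - σ) ^ (-(1/2) : ℝ)) (Ioo (0:ℝ) 1) := by
  have h1 : IntervalIntegrable (fun x : ℝ => x ^ (-(1/2) : ℝ)) volume 0 1 :=
    intervalIntegral.intervalIntegrable_rpow' (by norm_num)
  have h2 := (h1.comp_sub_left 1).symm
  norm_num at h2
  have h3 := (intervalIntegrable_iff_integrableOn_Ioc_of_le zero_le_one).mp h2
  have h4 := h3.mono_set (Ioo_subset_Ioc_self)
  have h5 := h4.const_mul C
  norm_num
  exact h5

theorem S_C2 (hf : Nl f M) {g : E N → ℝ} (hg : Dat g) (e : E N) :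
    ContDiff ℝ 2 (fun s : ℝ => S f M 2 g (s • e)) := by
  have hM := hf.nn
  have hCN := ctwo_CN_pos N
  obtain ⟨L, hL, hLip, _⟩ := S_reg N hf
  set h : E N → ℝ := S f M 1 g with hhdef
  have hh : Dat h := S_dat hf hg 1
  have hhb : ∀ y, |h y| ≤ 1 := fun y => by
    rw [abs_of_nonneg (hh.mem y).1]
    exact (hh.mem y).2
  have h2 : S f M 2 g = S f M 1 h := by
    have := S_add hf hg (s := 1) (t := 1) zero_le_one zero_le_one
    norm_num at this
    exact this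
  set φ : ℝ → E N → ℝ := fun σ y => Fe f M (S f M σ h y) with hφ
  have hφm : Measurable (Function.uncurry φ) := (Fe_cont hf).measurable.comp (S_meas hf hh)
  have hφs : ∀ σ, Measurable (φ σ) := fun σ => Fe_S_meas hf hh σ
  have hφb : ∀ σ y, |φ σ y| ≤ M := fun σ y => Fe_abs hf _
  have hFeL : ∀ a ∈ Icc (0:ℝ) 1, ∀ b ∈ Icc (0:ℝ) 1, |Fe f M a - Fe f M b| ≤ 2 * M * |a - b| := by
    intro a ha b hb
    rcases le_total a b with hab | hab
    · have h3 := Fe_lip hf ha hb hab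
      have h4 := Fe_mono hf hab
      rw [abs_sub_comm, abs_of_nonneg (by linarith), abs_sub_comm, abs_of_nonneg (by linarith)]
      exact h3
    · have h3 := Fe_lip hf hb ha hab
      have h4 := Fe_mono hf hab
      rw [abs_of_nonneg (by linarith), abs_of_nonneg (by linarith)]
      exact h3
  have hφL : ∀ σ ∈ Ioo (0:ℝ) 1, ∀ x y, |φ σ x - φ σ y| ≤ (2 * M * L) * ‖x - y‖ := by
    intro σ hσ x y
    refine (hFeL _ (S_mem hf hh σ x) _ (S_mem hf hh σ y)).trans ?_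
    have h3 : S f M σ h = S f M (1 + σ) g := (S_add hf hg zero_le_one hσ.1.le).symm
    rw [h3]
    have h4 := hLip g hg (1 + σ) (by linarith [hσ.1]) x y
    calc 2 * M * |S f M (1 + σ) g x - S f M (1 + σ) g y| ≤ 2 * M * (L * ‖x - y‖) :=
          mul_le_mul_of_nonneg_left h4 (by positivity)
      _ = _ := by ring
  -- the three families
  set K : (ℝ → E N → ℝ) → ℝ → ℝ → ℝ := fun κ s σ =>
    Real.exp (-(M * (1 - σ))) * ∫ y, κ (1 - σ) (s • e - y) * φ σ y with hK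
  have hmeas : ∀ κ : ℝ → E N → ℝ, Measurable (Function.uncurry κ) → ∀ s,
      AEStronglyMeasurable (K κ s) (volume.restrict (Ioo (0:ℝ) 1)) := by
    intro κ hκ s
    have h3 : StronglyMeasurable (fun σ : ℝ => ∫ y, κ (1 - σ) (s • e - y) * φ σ y) := by
      apply StronglyMeasurable.integral_prod_right
        (f := fun σ y => κ (1 - σ) (s • e - y) * φ σ y)
      apply Measurable.stronglyMeasurable
      apply Measurable.mul
      · exact hκ.comp (f := fun q : ℝ × E N => (1 - q.1, s • e - q.2)) (by fun_prop)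
      · exact hφm
    exact ((by fun_prop : Measurable (fun σ : ℝ => Real.exp (-(M * (1 - σ)))))
      |>.aestronglyMeasurable).mul h3.aestronglyMeasurable
  have hk0 : Measurable (Function.uncurry (fun (r : ℝ) (z : E N) => heatK r z)) := heatK_meas
  have hk1 : Measurable (Function.uncurry (fun (r : ℝ) (z : E N) => ctwo_k1 e r z)) := by
    unfold ctwo_k1 Function.uncurry
    have := heatK_meas (N := N)
    fun_prop
  have hk2 : Measurable (Function.uncurry (fun (r : ℝ) (z : E N) => ctwo_k2 e r z)) := by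
    unfold ctwo_k2 Function.uncurry
    have := heatK_meas (N := N)
    fun_prop
  have hexp : ∀ σ ∈ Ioo (0:ℝ) 1, Real.exp (-(M * (1 - σ))) ≤ 1 := by
    intro σ hσ
    apply Real.exp_le_one_iff.mpr
    have : 0 ≤ M * (1 - σ) := mul_nonneg hM (by linarith [hσ.2])
    linarith
  have hsq : ∀ σ ∈ Ioo (0:ℝ) 1, (√(1 - σ))⁻¹ = (1 - σ) ^ (-(1/2) : ℝ) := by
    intro σ hσ
    rw [Real.sqrt_eq_rpow, ← Real.rpow_neg (by linarith [hσ.2])]
  have hi0 : ∀ s, IntegrableOn (K (fun r z => heatK r z) s) (Ioo (0:ℝ) 1) := by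
    intro s
    have h3 := duh_int hf hh one_pos (s • e)
    exact ((intervalIntegrable_iff_integrableOn_Ioc_of_le zero_le_one).mp h3).mono_set
      Ioo_subset_Ioc_self
  have hb1 : ∀ σ ∈ Ioo (0:ℝ) 1, ∀ s, |K (fun r z => ctwo_k1 e r z) s σ| ≤
      (‖e‖ * ctwo_CN N * M) * (1 - σ) ^ (-(1/2) : ℝ) := by
    intro σ hσ s
    have h3 := ctwo_B1 e (by linarith [hσ.2] : 0 < 1 - σ) (hφb σ) (s • e)
    simp only [hK]
    rw [abs_mul, abs_of_nonneg (Real.exp_nonneg _), ← hsq σ hσ]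
    calc Real.exp (-(M * (1 - σ))) * |∫ y, ctwo_k1 e (1 - σ) (s • e - y) * φ σ y|
        ≤ 1 * (‖e‖ / √(1 - σ) * ctwo_CN N * M) :=
          mul_le_mul (hexp σ hσ) h3 (abs_nonneg _) zero_le_one
      _ = _ := by rw [div_eq_mul_inv]; ring
  have hb2 : ∀ σ ∈ Ioo (0:ℝ) 1, ∀ s, |K (fun r z => ctwo_k2 e r z) s σ| ≤
      (‖e‖ ^ 2 * ctwo_CN N * (2 * M * L)) * (1 - σ) ^ (-(1/2) : ℝ) := by
    intro σ hσ s
    have h3 := ctwo_B2 e (by linarith [hσ.2] : 0 < 1 - σ) (hφs σ) (hφb σ) (hφL σ hσ) s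
    simp only [hK]
    rw [abs_mul, abs_of_nonneg (Real.exp_nonneg _), ← hsq σ hσ]
    calc Real.exp (-(M * (1 - σ))) * |∫ y, ctwo_k2 e (1 - σ) (s • e - y) * φ σ y|
        ≤ 1 * (‖e‖ ^ 2 / √(1 - σ) * ctwo_CN N * (2 * M * L)) :=
          mul_le_mul (hexp σ hσ) h3 (abs_nonneg _) zero_le_one
      _ = _ := by rw [div_eq_mul_inv]; ring
  have hd0 : ∀ σ ∈ Ioo (0:ℝ) 1, ∀ s, HasDerivAt (fun s => K (fun r z => heatK r z) s σ)
      (K (fun r z => ctwo_k1 e r z) s σ) s := by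
    intro σ hσ s
    exact (ctwo_D0 e (by linarith [hσ.2] : 0 < 1 - σ) (hφs σ) (hφb σ) s).const_mul _
  have hd1 : ∀ σ ∈ Ioo (0:ℝ) 1, ∀ s, HasDerivAt (fun s => K (fun r z => ctwo_k1 e r z) s σ)
      (K (fun r z => ctwo_k2 e r z) s σ) s := by
    intro σ hσ s
    exact (ctwo_D1 e (by linarith [hσ.2] : 0 < 1 - σ) (hφs σ) (hφb σ) s).const_mul _
  have T0 := ctwo_time (hmeas _ hk0) (hmeas _ hk1) hi0 hd0 hb1
  have T1 := ctwo_time (hmeas _ hk1) (hmeas _ hk2) (fun s => (T0 s).1) hd1 hb2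
  have T2 : Continuous (fun s => ∫ σ in Ioo (0:ℝ) 1, K (fun r z => ctwo_k2 e r z) s σ) := by
    apply continuous_of_dominated (μ := volume.restrict (Ioo (0:ℝ) 1))
      (bound := fun σ : ℝ => (‖e‖ ^ 2 * ctwo_CN N * (2 * M * L)) * (1 - σ) ^ (-(1/2) : ℝ))
    · exact hmeas _ hk2
    · intro s
      filter_upwards [ae_restrict_mem measurableSet_Ioo] with σ hσ
      rw [Real.norm_eq_abs]
      exact hb2 σ hσ s
    · exact ctwo_bi _
    · filter_upwards [ae_restrict_mem measurableSet_Ioo] with σ hσ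
      exact continuous_const.mul
        (ctwo_D2_cont e (by linarith [hσ.2] : 0 < 1 - σ) (hφs σ) (hφb σ))
  -- assembling
  set u : ℝ → ℝ := fun s => Real.exp (-(M * 1)) * (∫ y, heatK 1 (s • e - y) * h y) +
    ∫ σ in Ioo (0:ℝ) 1, K (fun r z => heatK r z) s σ with hu
  set u1 : ℝ → ℝ := fun s => Real.exp (-(M * 1)) * (∫ y, ctwo_k1 e 1 (s • e - y) * h y) +
    ∫ σ in Ioo (0:ℝ) 1, K (fun r z => ctwo_k1 e r z) s σ with hu1
  set u2 : ℝ → ℝ := fun s => Real.exp (-(M * 1)) * (∫ y, ctwo_k2 e 1 (s • e - y) * h y) +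
    ∫ σ in Ioo (0:ℝ) 1, K (fun r z => ctwo_k2 e r z) s σ with hu2
  have hfun : (fun s : ℝ => S f M 2 g (s • e)) = u := by
    funext s
    rw [h2, duhamel hf hh one_pos (s • e), intervalIntegral.integral_of_le zero_le_one,
      integral_Ioc_eq_integral_Ioo]
    rfl
  have e0 : ∀ s, HasDerivAt u (u1 s) s := fun s =>
    ((ctwo_D0 e one_pos hh.meas hhb s).const_mul _).add (T0 s).2
  have e1 : ∀ s, HasDerivAt u1 (u2 s) s := fun s =>
    ((ctwo_D1 e one_pos hh.meas hhb s).const_mul _).add (T1 s).2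
  have e2 : Continuous u2 :=
    (continuous_const.mul (ctwo_D2_cont e one_pos hh.meas hhb)).add T2
  have d0 : deriv u = u1 := funext fun s => (e0 s).deriv
  have d1 : deriv u1 = u2 := funext fun s => (e1 s).deriv
  rw [hfun]
  have c1 : ContDiff ℝ 1 u1 := by
    rw [contDiff_one_iff_deriv]
    exact ⟨fun s => (e1 s).differentiableAt, by rw [d1]; exact e2⟩
  have c2 : ContDiff ℝ (1 + 1) u := by
    rw [contDiff_succ_iff_deriv]
    exact ⟨fun s => (e0 s).differentiableAt, by simp, by rw [d0]; exact c1⟩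
  norm_num at c2
  exact c2

end

end Pool.Agent.AP157
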