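import Pool.Agent.AP157.Defs
import Pool.Agent.AP157.Kern
import Pool.Agent.AP157.Reg

/-!
# Ultralimits of solutions are entire solutions

-/

set_option autoImplicit false

open MeasureTheory Real Set Filter Topology
open scoped ENNReal

namespace Pool.Agent.AP157

open Pool.Agent.X297.KP

noncomputable section

variable {N : ℕ} {f : ℝ → ℝ} {M : ℝ} {z : Set (E N) → ℝ → E N → ℝ} {α δ ω : ℝ}

theorem ulim_lim {ι : Type*} (F : Ultrafilter ι) (u : ι → ℝ)
    (h : ∀ᶠ i in (F : Filter ι), u i ∈ Icc (0:ℝ) 1) :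
    ∃ a, a ∈ Icc (0:ℝ) 1 ∧ Tendsto u F (𝓝 a) := by
  obtain ⟨a, ha, h2⟩ := (isCompact_Icc (a := (0:ℝ)) (b := 1)).ultrafilter_le_nhds (F.map u)
    (by rw [le_principal_iff]; exact h)
  exact ⟨a, ha, h2⟩

/-- Pointwise convergence of uniformly Lipschitz functions is locally uniform. -/
theorem ulim_unif {ι : Type*} (F : Ultrafilter ι) (u : ι → E N → ℝ) (v : E N → ℝ) {L : ℝ}
    (hL : 0 < L) (hu : ∀ᶠ i in (F : Filter ι), ∀ x y, |u i x - u i y| ≤ L * ‖x - y‖)
    (hv : ∀ x y, |v x - v y| ≤ L * ‖x - y‖)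
    (hlim : ∀ x, Tendsto (fun i => u i x) F (𝓝 (v x))) (R : ℝ) {ε : ℝ} (hε : 0 < ε) :
    ∀ᶠ i in (F : Filter ι), ∀ x, ‖x‖ ≤ R → |u i x - v x| ≤ ε := by
  have hδ : 0 < ε / (3 * L) := by positivity
  obtain ⟨T, hTf, hT⟩ := Metric.totallyBounded_iff.mp
    (isCompact_closedBall (0 : E N) R).totallyBounded (ε / (3 * L)) hδ
  have h1 : ∀ᶠ i in (F : Filter ι), ∀ y ∈ T, |u i y - v y| ≤ ε / 3 := by
    rw [eventually_all_finite hTf]
    intro y _
    have := (hlim y).eventually (Metric.ball_mem_nhds (v y) (by positivity : 0 < ε / 3))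
    filter_upwards [this] with i hi
    rw [Real.dist_eq] at hi
    exact hi.le
  filter_upwards [h1, hu] with i h1 hu x hx
  have hx' : x ∈ Metric.closedBall (0 : E N) R := by simpa using hx
  obtain ⟨y, hy, hxy⟩ := mem_iUnion₂.mp (hT hx')
  rw [Metric.mem_ball, dist_eq_norm] at hxy
  have e1 : L * ‖x - y‖ ≤ ε / 3 := by
    have := mul_le_mul_of_nonneg_left hxy.le hL.le
    refine this.trans (le_of_eq ?_)
    field_simp
  have a1 := hu x y
  have a2 := hv x y
  have a3 := h1 y hy
  rw [abs_le] at a1 a2 a3 ⊢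
  constructor <;> linarith [a1.1, a1.2, a2.1, a2.2, a3.1, a3.2]

theorem ulim (hf : Nl f M) {ι : Type*} (F : Ultrafilter ι) (w : ι → ℝ → E N → ℝ)
    (hd : ∀ t, ∀ᶠ i in (F : Filter ι), ∀ s, t ≤ s → Dat (w i s))
    (hfl : ∀ t, ∀ᶠ i in (F : Filter ι), ∀ s r, t ≤ s → 0 ≤ r → ∀ x,
      w i (s + r) x = S f M r (w i s) x) :
    ∃ v, Ent f M v ∧ ∀ t x, Tendsto (fun i => w i t x) F (𝓝 (v t x)) := by
  have hM := hf.nn
  have hex : ∀ t x, ∃ a, a ∈ Icc (0:ℝ) 1 ∧ Tendsto (fun i => w i t x) F (𝓝 a) := by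
    intro t x
    apply ulim_lim
    filter_upwards [hd t] with i hi
    exact (hi t le_rfl).mem x
  choose v hv01 hv using hex
  obtain ⟨L, hL, hreg, -⟩ := S_reg N hf
  have hlipw : ∀ t, ∀ᶠ i in (F : Filter ι), ∀ x y, |w i t x - w i t y| ≤ L * ‖x - y‖ := by
    intro t
    filter_upwards [hd (t - 1), hfl (t - 1)] with i h1 h2 x y
    have e : ∀ x, w i t x = S f M 1 (w i (t - 1)) x := by
      intro x
      have := h2 (t - 1) 1 le_rfl zero_le_one x
      rwa [sub_add_cancel] at this
    rw [e x, e y]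
    exact hreg _ (h1 _ le_rfl) 1 le_rfl x y
  have hlipv : ∀ t x y, |v t x - v t y| ≤ L * ‖x - y‖ := by
    intro t x y
    have h1 : Tendsto (fun i => |w i t x - w i t y|) F (𝓝 |v t x - v t y|) :=
      ((hv t x).sub (hv t y)).abs
    apply le_of_tendsto h1
    filter_upwards [hlipw t] with i hi
    exact hi x y
  have hcont : ∀ t, Continuous (v t) := by
    intro t
    have : LipschitzWith (Real.toNNReal L) (v t) := by
      apply LipschitzWith.of_dist_le_mul
      intro x y
      rw [Real.dist_eq, dist_eq_norm, Real.coe_toNNReal _ hL.le]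
      exact hlipv t x y
    exact this.continuous
  have hdat : ∀ t, Dat (v t) := fun t => ⟨(hcont t).measurable, fun x => hv01 t x⟩
  refine ⟨v, ⟨hdat, ?_⟩, hv⟩
  intro t s hs x
  rcases eq_or_lt_of_le hs with h | hs
  · rw [← h, add_zero, S_zero]
  have key : Tendsto (fun i => S f M s (w i t) x) F (𝓝 (S f M s (v t) x)) := by
    rw [Metric.tendsto_nhds]
    intro ε0 hε0
    set ε : ℝ := ε0 / (3 * Real.exp (2 * M * s)) with hε
    have hεp : 0 < ε := by positivity
    have htail : Tendsto (fun A : ℝ => 2 ^ ((N : ℝ) / 2) * Real.exp (-(A ^ 2 / (8 * s)))) atTop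
        (𝓝 (2 ^ ((N : ℝ) / 2) * 0)) := by
      apply Tendsto.const_mul
      apply Real.tendsto_exp_neg_atTop_nhds_zero.comp
      exact (tendsto_pow_atTop two_ne_zero).atTop_div_const (by positivity)
    rw [mul_zero] at htail
    obtain ⟨A, hA0, hA⟩ : ∃ A : ℝ, 0 ≤ A ∧
        2 ^ ((N : ℝ) / 2) * Real.exp (-(A ^ 2 / (8 * s))) ≤ ε := by
      have h1 := htail.eventually (ge_mem_nhds hεp)
      obtain ⟨A, hA⟩ := (h1.and (eventually_ge_atTop (0:ℝ))).exists
      exact ⟨A, hA.2, hA.1⟩
    set W : Set (E N) := {y | ‖x‖ + A ≤ ‖y‖} with hW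
    have hWm : MeasurableSet W := measurableSet_le measurable_const measurable_norm
    have hWA : ∀ y ∈ W, A ≤ ‖x - y‖ := by
      intro y hy
      have h1 : ‖x‖ + A ≤ ‖y‖ := hy
      have h2 := norm_sub_norm_le y x
      rw [norm_sub_rev] at h2
      linarith
    have hPW := (P_tail hs x hA0 hWm hWA).trans hA
    have hD0 : ∀ y, 0 ≤ W.indicator (1 : E N → ℝ) y := fun y =>
      indicator_nonneg (fun _ _ => zero_le_one) y
    have hD1 : ∀ y, W.indicator (1 : E N → ℝ) y ≤ 1 := fun y =>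
      indicator_le_self' (fun _ _ => zero_le_one) y
    have hDm : Measurable (W.indicator (1 : E N → ℝ)) := measurable_one.indicator hWm
    have hPD : P s (fun y => ε + W.indicator (1 : E N → ℝ) y) x ≤ 2 * ε := by
      rw [P_add hs measurable_const hDm (C := max ε 1)
        (fun y => by rw [abs_of_pos hεp]; exact le_max_left _ _)
        (fun y => by rw [abs_of_nonneg (hD0 y)]; exact (hD1 y).trans (le_max_right _ _)),
        P_const hs]
      linarith
    have hun := ulim_unif F (fun i => w i t) (v t) hL (hlipw t) (hlipv t) (hv t) (‖x‖ + A) hεp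
    filter_upwards [hun, hd t] with i hi hdi
    have hdi := hdi t le_rfl
    have hdiff : ∀ y, |w i t y - v t y| ≤ ε + W.indicator (1 : E N → ℝ) y := by
      intro y
      by_cases hy : y ∈ W
      · rw [indicator_of_mem hy, Pi.one_apply, abs_le]
        have h1 := hdi.mem y
        have h2 := hv01 t y
        constructor <;> linarith [h1.1, h1.2, h2.1, h2.2]
      · rw [indicator_of_notMem hy, add_zero]
        have hy' : ‖y‖ ≤ ‖x‖ + A := by
          have : ¬ (‖x‖ + A ≤ ‖y‖) := hy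
          linarith
        exact hi y hy'
    have hm : Measurable (fun y => ε + W.indicator (1 : E N → ℝ) y) := hDm.const_add ε
    have e1 := S_err hf hdi (hdat t) hm (fun y => add_nonneg hεp.le (hD0 y)) (C := ε + 1)
      (fun y => by linarith [hD1 y]) (fun y => by linarith [(abs_le.mp (hdiff y)).2]) hs x
    have e2 := S_err hf (hdat t) hdi hm (fun y => add_nonneg hεp.le (hD0 y)) (C := ε + 1)
      (fun y => by linarith [hD1 y]) (fun y => by linarith [(abs_le.mp (hdiff y)).1]) hs x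
    have e3 : Real.exp (2 * M * s) * P s (fun y => ε + W.indicator (1 : E N → ℝ) y) x < ε0 := by
      have h1 := mul_le_mul_of_nonneg_left hPD (Real.exp_nonneg (2 * M * s))
      refine lt_of_le_of_lt h1 ?_
      have h2 : Real.exp (2 * M * s) * (2 * ε) = 2 / 3 * ε0 := by
        rw [hε]
        have := Real.exp_ne_zero (2 * M * s)
        field_simp
      rw [h2]
      linarith
    rw [Real.dist_eq, abs_lt]
    constructor <;> linarith
  have key2 : Tendsto (fun i => w i (t + s) x) F (𝓝 (S f M s (v t) x)) := by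
    refine key.congr' ?_
    filter_upwards [hfl t] with i hi
    exact (hi t s le_rfl hs.le x).symm
  exact tendsto_nhds_unique (hv (t + s) x) key2

end

end Pool.Agent.AP157
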