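import Pool.Agent.AP157.Defs
import Pool.Agent.AP157.Kern

/-!
# Domination lemma and the seed constant

-/

set_option autoImplicit false

open MeasureTheory Real Set Filter Topology
open scoped ENNReal

namespace Pool.Agent.AP157

open Pool.Agent.X297.KP

noncomputable section

variable {N : ℕ} {f : ℝ → ℝ} {M : ℝ} {z : Set (E N) → ℝ → E N → ℝ} {α δ ω : ℝ}

/-! ## Auxiliary lemmas -/

theorem domi_dat_bb (ρ : ℝ) : Dat (bb N ρ) := by
  refine ⟨measurable_one.indicator measurableSet_ball, fun x => ?_⟩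
  unfold bb
  by_cases h : x ∈ Metric.ball (0 : E N) ρ
  · rw [indicator_of_mem h]; exact ⟨zero_le_one, le_rfl⟩
  · rw [indicator_of_notMem h]; exact ⟨le_rfl, zero_le_one⟩

/-- the volume of the unit ball -/
def domi_V (N : ℕ) : ℝ := volume.real (Metric.ball (0 : E N) 1)

theorem domi_V_pos : 0 < domi_V N := by
  unfold domi_V
  rw [Measure.real, ENNReal.toReal_pos_iff]
  exact ⟨Metric.measure_ball_pos volume _ one_pos, measure_ball_lt_top⟩

/-- lower bound for the heat semigroup by the mass of a unit ball -/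
theorem domi_lower {t : ℝ} (ht : 0 < t) {g : E N → ℝ} (hg : Dat g) (y q : E N) {c : ℝ}
    (h : ∀ p ∈ Metric.ball q 1, c ≤ heatK t (y - p) * g p) : c * domi_V N ≤ P t g y := by
  have h1 : ∫ p, (Metric.ball q 1).indicator (fun _ => c) p = c * domi_V N := by
    rw [integral_indicator measurableSet_ball, setIntegral_const, smul_eq_mul, mul_comm]
    congr 1
    unfold domi_V Measure.real
    rw [Measure.addHaar_ball_center]
  rw [← h1]
  unfold P
  apply integral_mono
  · apply (integrable_indicator_iff measurableSet_ball).2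
    exact integrableOn_const measure_ball_lt_top.ne
  · exact P_int ht hg.meas (C := 1)
      (fun y => abs_le.mpr ⟨by linarith [(hg.mem y).1], (hg.mem y).2⟩) y
  · intro p
    by_cases hp : p ∈ Metric.ball q 1
    · simp only [indicator_of_mem hp]
      exact h p hp
    · simp only [indicator_of_notMem hp]
      exact mul_nonneg (heatK_nonneg ht _) (hg.mem p).1

theorem domi_unit (hN : 0 < N) (y : E N) : ∃ u : E N, ‖u‖ = 1 ∧ y = ‖y‖ • u := by
  by_cases hy : y = 0
  · refine ⟨EuclideanSpace.single (⟨0, hN⟩ : Fin N) (1:ℝ), by simp, by simp [hy]⟩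
  · have h0 : ‖y‖ ≠ 0 := norm_ne_zero_iff.2 hy
    refine ⟨‖y‖⁻¹ • y, ?_, ?_⟩
    · rw [norm_smul, norm_inv, norm_norm, inv_mul_cancel₀ h0]
    · rw [smul_smul, mul_inv_cancel₀ h0, one_smul]

theorem domi_zero (hf : Nl f M) (t : ℝ) (x : E N) : S f M t (fun _ => 0) x = 0 :=
  S_const_eq hf ⟨le_rfl, zero_le_one⟩ hf.zero t x

theorem domi_dat_zero : Dat (N := N) (fun _ => 0) := dat_const ⟨le_rfl, zero_le_one⟩

/-- the solution with datum `bb N ρ` stays away from one -/
theorem domi_eta (hN : 0 < N) (hf : Nl f M) {ρ T₁ : ℝ} (hρ : 0 < ρ) (hT : 1 ≤ T₁) :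
    ∃ η : ℝ, 0 < η ∧ η ≤ 1 / 2 ∧ ∀ s ∈ Icc 1 T₁, ∀ y : E N, S f M s (bb N ρ) y ≤ 1 - η := by
  obtain ⟨c, hc, hc'⟩ := heat_lower (N := N) one_pos hT (ρ + 2)
  have hV := domi_V_pos (N := N)
  refine ⟨min (Real.exp (-(M * T₁)) * (c * domi_V N)) (1 / 2), ?_, min_le_right _ _, ?_⟩
  · apply lt_min (by positivity) (by norm_num)
  intro s hs y
  have hs0 : 0 < s := by linarith [hs.1]
  obtain ⟨u, hu, hyu⟩ := domi_unit hN y
  have hb := domi_dat_bb (N := N) ρ
  have h1 := S_pos hf hb dat_one (fun x => (hb.mem x).2) hs0 y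
  rw [S_one hf] at h1
  have hd : Dat (N := N) (fun y => 1 - bb N ρ y) :=
    ⟨measurable_const.sub hb.meas, fun x => ⟨by linarith [(hb.mem x).2], by linarith [(hb.mem x).1]⟩⟩
  have h2 : c * domi_V N ≤ P s (fun y => 1 - bb N ρ y) y := by
    apply domi_lower hs0 hd y (y + (ρ + 1) • u)
    intro p hp
    rw [mem_ball_iff_norm] at hp
    have hq : ‖y + (ρ + 1) • u‖ = ‖y‖ + (ρ + 1) := by
      conv_lhs => rw [hyu]
      rw [← add_smul, norm_smul, hu, mul_one, Real.norm_eq_abs, abs_of_nonneg (by positivity)]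
    have hp1 : ρ < ‖p‖ := by
      have h3 : ‖y + (ρ + 1) • u‖ ≤ ‖p‖ + ‖p - (y + (ρ + 1) • u)‖ := by
        have : y + (ρ + 1) • u = p - (p - (y + (ρ + 1) • u)) := by abel
        conv_lhs => rw [this]
        exact norm_sub_le _ _
      rw [hq] at h3
      have := norm_nonneg y
      linarith
    have hp2 : ‖y - p‖ ≤ ρ + 2 := by
      have h3 : y - p = -((ρ + 1) • u) - (p - (y + (ρ + 1) • u)) := by abel
      rw [h3]
      refine (norm_sub_le _ _).trans ?_
      rw [norm_neg, norm_smul, hu, mul_one, Real.norm_eq_abs, abs_of_nonneg (by positivity)]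
      linarith
    have hp3 : bb N ρ p = 0 := by
      unfold bb
      rw [indicator_of_notMem]
      rw [mem_ball_zero_iff]
      linarith
    rw [hp3, sub_zero, mul_one]
    exact hc' s hs _ hp2
  have h3 : Real.exp (-(M * T₁)) ≤ Real.exp (-(M * s)) := by
    apply Real.exp_le_exp.2
    have := mul_le_mul_of_nonneg_left hs.2 hf.nn
    linarith
  have h4 : Real.exp (-(M * T₁)) * (c * domi_V N) ≤
      Real.exp (-(M * s)) * P s (fun y => 1 - bb N ρ y) y :=
    mul_le_mul h3 h2 (by positivity) (Real.exp_nonneg _)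
  have h5 := min_le_left (Real.exp (-(M * T₁)) * (c * domi_V N)) (1 / 2)
  linarith

/-- choice of the constant -/
theorem domi_choice {Q1 Q2 T : ℝ} (hQ1 : 0 < Q1) (hQ2 : 0 < Q2) (hT : 0 < T) :
    ∃ u : ℝ, 1 ≤ u ∧ Q1 * Real.exp (-(u ^ 2 / (8 * T))) ≤ Q2 := by
  refine ⟨1 + 8 * T * (Q1 / Q2), by
    have : 0 < 8 * T * (Q1 / Q2) := by positivity
    linarith, ?_⟩
  set u := 1 + 8 * T * (Q1 / Q2) with hu
  set v := u ^ 2 / (8 * T) with hv
  have hq : 0 < Q1 / Q2 := by positivity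
  have hu1 : 8 * T * (Q1 / Q2) ≤ u ^ 2 := by
    have h1 : 0 < 8 * T * (Q1 / Q2) := by positivity
    rw [hu]
    nlinarith
  have hv1 : Q1 / Q2 ≤ v := by
    rw [hv, le_div_iff₀ (by positivity)]
    linarith
  have h1 : v + 1 ≤ Real.exp v := Real.add_one_le_exp v
  have h2 : Q1 ≤ Q2 * v := by
    rw [div_le_iff₀ hQ2] at hv1
    linarith
  have h3 : Real.exp (-v) * Real.exp v = 1 := by rw [← Real.exp_add]; simp
  have h4 := Real.exp_pos (-v)
  calc Q1 * Real.exp (-v) ≤ (Q2 * v) * Real.exp (-v) := mul_le_mul_of_nonneg_right h2 h4.le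
    _ ≤ (Q2 * Real.exp v) * Real.exp (-v) := by
        apply mul_le_mul_of_nonneg_right _ h4.le
        apply mul_le_mul_of_nonneg_left _ hQ2.le
        linarith
    _ = Q2 * (Real.exp (-v) * Real.exp v) := by ring
    _ = Q2 := by rw [h3, mul_one]

theorem dom (hN : 0 < N) (hf : Nl f M) {ρ T₁ : ℝ} (hρ : 0 < ρ) (hT : 1 ≤ T₁) :
    ∃ η r : ℝ, 0 < η ∧ η ≤ 1 / 2 ∧ 0 < r ∧ ∀ w : E N → ℝ, Dat w → ∀ x : E N,
      (∀ y, ‖y - x‖ ≤ r → 1 / 2 ≤ w y) → (∀ y, ‖y - x‖ ≤ r → 1 - η ≤ S f M (2 * T₁) w y) →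
      ∀ s ∈ Icc 1 T₁, ∀ y, S f M s (bb N ρ) (y - x) ≤ S f M (2 * T₁) w y := by
  obtain ⟨η, hη, hη2, hS⟩ := domi_eta (N := N) hN hf hρ hT
  have hT0 : 0 < T₁ := by linarith
  have hV := domi_V_pos (N := N)
  set K : ℝ := (4 * π * (2 * T₁)) ^ (-((N : ℝ) / 2)) with hK
  have hK0 : 0 < K := by rw [hK]; positivity
  obtain ⟨u, hu1, hu⟩ := domi_choice (Q1 := Real.exp (2 * M * T₁) * 2 ^ ((N : ℝ) / 2))
    (Q2 := Real.exp (-(M * (2 * T₁))) * (1 / 2 * K * domi_V N)) (T := T₁)
    (by positivity) (by positivity) hT0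
  refine ⟨η, ρ + 2 + u, hη, hη2, by linarith, ?_⟩
  intro w hw x hx1 hx2 s hs y
  by_cases hy : ‖y - x‖ ≤ ρ + 2 + u
  · exact (hS s hs (y - x)).trans (hx2 y hy)
  push Not at hy
  have hs0 : 0 < s := by linarith [hs.1]
  have hb := domi_dat_bb (N := N) ρ
  obtain ⟨B, hB⟩ : ∃ B, B = ‖y - x‖ - (ρ + 2 + u) + 2 := ⟨_, rfl⟩
  have hB0 : 0 ≤ B := by linarith
  have hyx : ‖y - x‖ = ρ + u + B := by rw [hB]; ring
  -- upper bound
  have hup : S f M s (bb N ρ) (y - x) ≤
      Real.exp (2 * M * T₁) * 2 ^ ((N : ℝ) / 2) * Real.exp (-((B + u) ^ 2 / (8 * T₁))) := by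
    have h1 := S_err hf hb domi_dat_zero hb.meas (fun y => (hb.mem y).1) (fun y => (hb.mem y).2)
      (fun x => by simp) hs0 (y - x)
    rw [domi_zero hf, zero_add] at h1
    have h2 : P s (bb N ρ) (y - x) ≤
        2 ^ ((N : ℝ) / 2) * Real.exp (-((B + u) ^ 2 / (8 * s))) := by
      unfold bb
      apply P_tail hs0 (y - x) (by linarith) measurableSet_ball
      intro p hp
      rw [mem_ball_zero_iff] at hp
      have := norm_sub_norm_le (y - x) p
      linarith
    have h3 : Real.exp (-((B + u) ^ 2 / (8 * s))) ≤ Real.exp (-((B + u) ^ 2 / (8 * T₁))) := by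
      apply Real.exp_le_exp.2
      apply neg_le_neg
      apply div_le_div_of_nonneg_left (by positivity) (by positivity)
      linarith [hs.2]
    have h4 : Real.exp (2 * M * s) ≤ Real.exp (2 * M * T₁) := by
      apply Real.exp_le_exp.2
      have := mul_le_mul_of_nonneg_left hs.2 hf.nn
      linarith
    have h5 : (0:ℝ) ≤ 2 ^ ((N : ℝ) / 2) := by positivity
    calc S f M s (bb N ρ) (y - x) ≤ Real.exp (2 * M * s) * P s (bb N ρ) (y - x) := h1
      _ ≤ Real.exp (2 * M * T₁) * (2 ^ ((N : ℝ) / 2) * Real.exp (-((B + u) ^ 2 / (8 * T₁)))) := by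
          apply mul_le_mul h4 _ (P_nonneg hs0 (fun y => (hb.mem y).1) _) (Real.exp_nonneg _)
          exact h2.trans (mul_le_mul_of_nonneg_left h3 h5)
      _ = _ := by ring
  -- lower bound
  have hlow : Real.exp (-(M * (2 * T₁))) * (1 / 2 * K * domi_V N) *
      Real.exp (-(B ^ 2 / (8 * T₁))) ≤ S f M (2 * T₁) w y := by
    have h1 := S_pos hf domi_dat_zero hw (fun x => (hw.mem x).1) (t := 2 * T₁) (by positivity) y
    rw [domi_zero hf, sub_zero] at h1
    simp only [sub_zero] at h1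
    refine le_trans ?_ h1
    have hn0 : 0 < ‖y - x‖ := by linarith
    set q : E N := x + ((ρ + 1 + u) / ‖y - x‖) • (y - x) with hq
    have hqx : ‖q - x‖ = ρ + 1 + u := by
      rw [hq, add_sub_cancel_left, norm_smul, Real.norm_eq_abs, abs_of_nonneg (by positivity),
        div_mul_cancel₀ _ hn0.ne']
    have hyq : ‖y - q‖ = B - 1 := by
      have e : y - q = (1 - (ρ + 1 + u) / ‖y - x‖) • (y - x) := by
        rw [hq, sub_smul, one_smul]; abel
      have h3 : 0 ≤ 1 - (ρ + 1 + u) / ‖y - x‖ := by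
        rw [sub_nonneg, div_le_one hn0]; linarith
      rw [e, norm_smul, Real.norm_eq_abs, abs_of_nonneg h3, sub_mul, div_mul_cancel₀ _ hn0.ne', hyx]
      ring
    have h2 : (1 / 2 * K * Real.exp (-(B ^ 2 / (8 * T₁)))) * domi_V N ≤ P (2 * T₁) w y := by
      apply domi_lower (by positivity) hw y q
      intro p hp
      rw [mem_ball_iff_norm] at hp
      have hpx : ‖p - x‖ ≤ ρ + 2 + u := by
        have e : p - x = (p - q) + (q - x) := by abel
        rw [e]
        refine (norm_add_le _ _).trans ?_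
        rw [hqx]; linarith
      have hpy : ‖y - p‖ ≤ B := by
        have e : y - p = (y - q) - (p - q) := by abel
        rw [e]
        refine (norm_sub_le _ _).trans ?_
        rw [hyq]; linarith
      have hker : K * Real.exp (-(B ^ 2 / (8 * T₁))) ≤ heatK (2 * T₁) (y - p) := by
        unfold heatK
        apply mul_le_mul_of_nonneg_left _ hK0.le
        apply Real.exp_le_exp.2
        apply neg_le_neg
        have e : 4 * (2 * T₁) = 8 * T₁ := by ring
        rw [e]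
        apply div_le_div_of_nonneg_right _ (by positivity)
        exact pow_le_pow_left₀ (norm_nonneg _) hpy 2
      calc 1 / 2 * K * Real.exp (-(B ^ 2 / (8 * T₁)))
          = (K * Real.exp (-(B ^ 2 / (8 * T₁)))) * (1 / 2) := by ring
        _ ≤ heatK (2 * T₁) (y - p) * w p :=
            mul_le_mul hker (hx1 p hpx) (by norm_num) (heatK_nonneg (by positivity) _)
    calc _ = Real.exp (-(M * (2 * T₁))) *
          ((1 / 2 * K * Real.exp (-(B ^ 2 / (8 * T₁)))) * domi_V N) := by ring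
      _ ≤ _ := mul_le_mul_of_nonneg_left h2 (Real.exp_nonneg _)
  refine hup.trans (le_trans ?_ hlow)
  have h6 : Real.exp (-((B + u) ^ 2 / (8 * T₁))) ≤
      Real.exp (-(u ^ 2 / (8 * T₁))) * Real.exp (-(B ^ 2 / (8 * T₁))) := by
    rw [← Real.exp_add]
    apply Real.exp_le_exp.2
    have h7 : u ^ 2 / (8 * T₁) + B ^ 2 / (8 * T₁) ≤ (B + u) ^ 2 / (8 * T₁) := by
      rw [← add_div]
      apply div_le_div_of_nonneg_right _ (by positivity)
      nlinarith [mul_nonneg hB0 (by linarith : (0:ℝ) ≤ u)]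
    linarith
  calc Real.exp (2 * M * T₁) * 2 ^ ((N : ℝ) / 2) * Real.exp (-((B + u) ^ 2 / (8 * T₁)))
      ≤ Real.exp (2 * M * T₁) * 2 ^ ((N : ℝ) / 2) *
        (Real.exp (-(u ^ 2 / (8 * T₁))) * Real.exp (-(B ^ 2 / (8 * T₁)))) :=
        mul_le_mul_of_nonneg_left h6 (by positivity)
    _ = (Real.exp (2 * M * T₁) * 2 ^ ((N : ℝ) / 2) * Real.exp (-(u ^ 2 / (8 * T₁)))) *
        Real.exp (-(B ^ 2 / (8 * T₁))) := by ring
    _ ≤ _ := mul_le_mul_of_nonneg_right hu (Real.exp_nonneg _)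

theorem exists_a1 (hN : 0 < N) (hf : Nl f M) {ρ : ℝ} (hρ : 0 < ρ) (hI : Inv N f M ρ) :
    ∃ a : ℝ, 1 ≤ a ∧ ∀ t, a ≤ t → ∀ y : E N, ‖y‖ ≤ 1 → ∀ x : E N,
      S f M 1 (bb N ρ) (x - y) ≤ S f M (t + 1) (bb N ρ) x := by
  obtain ⟨η, r, hη, hη2, hr, hdom⟩ := dom (N := N) hN hf hρ (le_refl (1:ℝ))
  obtain ⟨T, hT⟩ := hI (r + 1) η hη
  refine ⟨max 1 (T + 1), le_max_left _ _, ?_⟩
  intro t ht y hy x
  have ht1 : 1 ≤ t := (le_max_left _ _).trans ht
  have htT : T + 1 ≤ t := (le_max_right _ _).trans ht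
  have hb := domi_dat_bb (N := N) ρ
  have hw := S_dat hf hb (t - 1)
  have hadd : S f M (2 * 1) (S f M (t - 1) (bb N ρ)) = S f M (t + 1) (bb N ρ) := by
    rw [← S_add hf hb (by linarith) (by norm_num)]
    congr 1
    ring
  have hball : ∀ y', ‖y' - y‖ ≤ r → ‖y'‖ ≤ r + 1 := by
    intro y' hy'
    have e : y' = (y' - y) + y := by abel
    rw [e]
    exact (norm_add_le _ _).trans (add_le_add hy' hy)
  have h := hdom (S f M (t - 1) (bb N ρ)) hw y
    (fun y' hy' => by
      have := hT (t - 1) (by linarith) y' (hball y' hy')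
      linarith)
    (fun y' hy' => by
      rw [hadd]
      exact hT (t + 1) (by linarith) y' (hball y' hy'))
    1 ⟨le_rfl, le_rfl⟩ x
  rw [hadd] at h
  exact h

end

end Pool.Agent.AP157
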