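import Pool.Agent.AP157.Defs
import Pool.Agent.AP157.Dom
import Pool.Agent.AP157.Kern
import Pool.Agent.AP157.Reg

/-!
# Construction of the reference solutions

-/

set_option autoImplicit false

open MeasureTheory Real Set Filter Topology
open scoped ENNReal

namespace Pool.Agent.AP157

open Pool.Agent.X297.KP

noncomputable section

variable {N : ℕ} {f : ℝ → ℝ} {M : ℝ} {z : Set (E N) → ℝ → E N → ℝ} {α δ ω : ℝ}

/-! ## Auxiliary facts -/

theorem zf_dat_bb (N : ℕ) (ρ : ℝ) : Dat (bb N ρ) := by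
  refine ⟨measurable_one.indicator Metric.isOpen_ball.measurableSet, fun x => ?_⟩
  unfold bb
  by_cases hx : x ∈ Metric.ball (0 : E N) ρ
  · rw [indicator_of_mem hx]
    exact ⟨zero_le_one, le_rfl⟩
  · rw [indicator_of_notMem hx]
    exact ⟨le_rfl, zero_le_one⟩

theorem zf_dat_sub {g : E N → ℝ} (hg : Dat g) (y : E N) : Dat (fun v => g (v - y)) := by
  simp only [sub_eq_add_neg]
  exact dat_trans hg (-y)

theorem zf_str (hf : Nl f M) {g : E N → ℝ} (hg : Dat g) (t : ℝ) (y x : E N) :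
    S f M t (fun v => g (v - y)) x = S f M t g (x - y) := by
  simp only [sub_eq_add_neg]
  exact S_trans hf hg t (-y) x

theorem zf_add (hf : Nl f M) {g : E N → ℝ} (hg : Dat g) {s t : ℝ} (hs : 0 ≤ s) (ht : 0 ≤ t)
    (x : E N) : S f M (s + t) g x = S f M t (S f M s g) x := by
  rw [S_add hf hg hs ht]

/-- `S r (S s g (· - y)) = S (s + r) g (· - y)`. -/
theorem zf_add_sub (hf : Nl f M) {g : E N → ℝ} (hg : Dat g) {s t : ℝ} (hs : 0 ≤ s) (ht : 0 ≤ t)
    (y x : E N) : S f M t (fun v => S f M s g (v - y)) x = S f M (s + t) g (x - y) := by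
  rw [zf_str hf (S_dat hf hg s), ← zf_add hf hg hs ht]

theorem zf_S_zero_fun (hf : Nl f M) (t : ℝ) (x : E N) : S f M t (fun _ => 0) x = 0 :=
  S_const_eq hf ⟨le_rfl, zero_le_one⟩ hf.zero t x

/-- Upper bound by the heat semigroup. -/
theorem zf_le_P (hf : Nl f M) {g : E N → ℝ} (hg : Dat g) {t : ℝ} (ht : 0 < t) (x : E N) :
    S f M t g x ≤ Real.exp (2 * M * t) * P t g x := by
  have h := S_err hf hg (dat_const (N := N) (p := 0) ⟨le_rfl, zero_le_one⟩) hg.meas
    (fun y => (hg.mem y).1) (C := 1) (fun y => (hg.mem y).2) (fun x => by linarith) ht x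
  rwa [zf_S_zero_fun hf, zero_add] at h

/-- The supremum defining the data. -/
def zf_g (f : ℝ → ℝ) (M ρ a : ℝ) (K : Set (E N)) (x : E N) : ℝ :=
  ⨆ p : {p : E N × ℝ // p.1 ∈ K ∧ p.2 ∈ Icc 0 a}, S f M (1 + p.1.2) (bb N ρ) (x - p.1.1)

variable {ρ a : ℝ}

theorem zf_le_g (hf : Nl f M) {K : Set (E N)} {y : E N} (hy : y ∈ K) {s : ℝ}
    (hs : s ∈ Icc 0 a) (x : E N) : S f M (1 + s) (bb N ρ) (x - y) ≤ zf_g f M ρ a K x := by
  unfold zf_g
  refine le_ciSup (f := fun p : {p : E N × ℝ // p.1 ∈ K ∧ p.2 ∈ Icc 0 a} =>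
    S f M (1 + p.1.2) (bb N ρ) (x - p.1.1)) ⟨1, ?_⟩ ⟨(y, s), hy, hs⟩
  rintro _ ⟨p, rfl⟩
  exact (S_mem hf (zf_dat_bb N ρ) _ _).2

theorem zf_g_le {K : Set (E N)} {x : E N} {c : ℝ} (hc : 0 ≤ c)
    (h : ∀ y ∈ K, ∀ s ∈ Icc 0 a, S f M (1 + s) (bb N ρ) (x - y) ≤ c) :
    zf_g f M ρ a K x ≤ c := by
  unfold zf_g
  exact Real.iSup_le (fun p => h p.1.1 p.2.1 p.1.2 p.2.2) hc

theorem zf_g_mem (hf : Nl f M) (K : Set (E N)) (x : E N) : zf_g f M ρ a K x ∈ Icc (0:ℝ) 1 := by
  refine ⟨Real.iSup_nonneg fun p => (S_mem hf (zf_dat_bb N ρ) _ _).1, ?_⟩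
  exact zf_g_le zero_le_one fun y _ s _ => (S_mem hf (zf_dat_bb N ρ) _ _).2

theorem zf_g_dat (hf : Nl f M) (K : Set (E N)) : Dat (zf_g f M ρ a K) := by
  refine ⟨?_, zf_g_mem hf K⟩
  obtain ⟨L, hL, hL1, -⟩ := S_reg N hf
  have h : LipschitzWith ⟨L, hL.le⟩ (zf_g f M ρ a K) := by
    apply LipschitzWith.of_le_add_mul
    intro x y
    have h0 : 0 ≤ L * dist x y := mul_nonneg hL.le dist_nonneg
    apply zf_g_le
    · exact add_nonneg (zf_g_mem hf K y).1 h0
    · intro p hp s hs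
      have h1 := hL1 (bb N ρ) (zf_dat_bb N ρ) (1 + s) (by linarith [hs.1]) (x - p) (y - p)
      rw [sub_sub_sub_cancel_right, ← dist_eq_norm] at h1
      have h2 := (abs_le.mp h1).2
      have h3 := zf_le_g (f := f) (M := M) (ρ := ρ) hf hp hs y
      show _ ≤ zf_g f M ρ a K y + L * dist x y
      linarith
  exact h.continuous.measurable

theorem zf_g_mono (hf : Nl f M) {K K' : Set (E N)} (h : K' ⊆ K) (x : E N) :
    zf_g f M ρ a K' x ≤ zf_g f M ρ a K x :=
  zf_g_le (zf_g_mem hf K x).1 fun _ hy _ hs => zf_le_g hf (h hy) hs x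

/-- The reference solutions. -/
def zf_z (f : ℝ → ℝ) (M ρ a : ℝ) (K : Set (E N)) (t : ℝ) : E N → ℝ :=
  S f M t (zf_g f M ρ a K)

theorem zf_z_zero (K : Set (E N)) : zf_z f M ρ a K 0 = zf_g f M ρ a K := S_zero _

theorem zf_z_dat (hf : Nl f M) (K : Set (E N)) (t : ℝ) : Dat (zf_z f M ρ a K t) :=
  S_dat hf (zf_g_dat hf K) t

theorem zf_z_add (hf : Nl f M) (K : Set (E N)) {s t : ℝ} (hs : 0 ≤ s) (ht : 0 ≤ t) :
    zf_z f M ρ a K (s + t) = S f M t (zf_z f M ρ a K s) :=
  S_add hf (zf_g_dat hf K) hs ht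

/-- Lower bound of `z K r`. -/
theorem zf_le_z (hf : Nl f M) {K : Set (E N)} {y : E N} (hy : y ∈ K) {s r : ℝ}
    (hs : s ∈ Icc 0 a) (hr : 0 ≤ r) (x : E N) :
    S f M (1 + s + r) (bb N ρ) (x - y) ≤ zf_z f M ρ a K r x := by
  rw [← zf_add_sub hf (zf_dat_bb N ρ) (by linarith [hs.1]) hr]
  exact S_mono hf (zf_dat_sub (S_dat hf (zf_dat_bb N ρ) _) y) (zf_g_dat hf K)
    (fun v => zf_le_g hf hy hs v) r x

/-- The hypothesis produced by `exists_a1`. -/
def zf_H (N : ℕ) (f : ℝ → ℝ) (M ρ a : ℝ) : Prop :=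
  1 ≤ a ∧ ∀ t, a ≤ t → ∀ y : E N, ‖y‖ ≤ 1 → ∀ x : E N,
      S f M 1 (bb N ρ) (x - y) ≤ S f M (t + 1) (bb N ρ) x

theorem zf_H.base (H : zf_H N f M ρ a) {t : ℝ} (ht : a ≤ t) (x : E N) :
    S f M 1 (bb N ρ) x ≤ S f M (t + 1) (bb N ρ) x := by
  have := H.2 t ht 0 (by simp) x
  rwa [sub_zero] at this

/-- `S (1 + s) b (x - y) ≤ S (1 + s + t) b x` for `t ≥ a`, `‖y‖ ≤ 1`. -/
theorem zf_H.step (hf : Nl f M) (H : zf_H N f M ρ a) {s t : ℝ} (hs : 0 ≤ s) (ht : a ≤ t)
    {y : E N} (hy : ‖y‖ ≤ 1) (x : E N) :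
    S f M (1 + s) (bb N ρ) (x - y) ≤ S f M (1 + s + t) (bb N ρ) x := by
  have ha := H.1
  have e1 : (1 : ℝ) + s + t = (t + 1) + s := by ring
  rw [e1, ← zf_add_sub hf (zf_dat_bb N ρ) zero_le_one hs,
    zf_add hf (zf_dat_bb N ρ) (s := t + 1) (by linarith) hs]
  exact S_mono hf (zf_dat_sub (S_dat hf (zf_dat_bb N ρ) _) y) (S_dat hf (zf_dat_bb N ρ) _)
    (fun v => H.2 t ht y hy v) s x

theorem zf_H.step0 (hf : Nl f M) (H : zf_H N f M ρ a) {s t : ℝ} (hs : 0 ≤ s) (ht : a ≤ t)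
    (x : E N) :
    S f M (1 + s) (bb N ρ) x ≤ S f M (1 + s + t) (bb N ρ) x := by
  have := H.step hf hs ht (y := 0) (by simp) x
  rwa [sub_zero] at this

/-- Monotonicity in time, short times. -/
theorem zf_mono_short (hf : Nl f M) (H : zf_H N f M ρ a) (K : Set (E N)) {r : ℝ} (hr : 0 ≤ r)
    (hra : r ≤ a) (x : E N) : zf_g f M ρ a K x ≤ zf_z f M ρ a K r x := by
  apply zf_g_le ((zf_z_dat hf K r).mem x).1
  intro y hy s hs
  by_cases h : r ≤ s
  · have := zf_le_z (ρ := ρ) (a := a) hf hy (s := s - r) ⟨by linarith, by linarith [hs.2]⟩ hr x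
    rwa [show 1 + (s - r) + r = 1 + s by ring] at this
  · push Not at h
    refine (H.step0 hf hs.1 le_rfl (x - y)).trans ?_
    have := zf_le_z (ρ := ρ) (a := a) hf hy (s := s + a - r) ⟨by linarith [hs.1], by linarith⟩ hr x
    rwa [show 1 + (s + a - r) + r = 1 + s + a by ring] at this

theorem zf_mono_nat (hf : Nl f M) (H : zf_H N f M ρ a) (K : Set (E N)) (n : ℕ) :
    ∀ r : ℝ, 0 ≤ r → r ≤ n * a → ∀ x, zf_g f M ρ a K x ≤ zf_z f M ρ a K r x := by
  induction n with
  | zero =>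
    intro r hr hr' x
    have : r = 0 := by
      apply le_antisymm _ hr
      simpa using hr'
    rw [this, zf_z_zero]
  | succ n ih =>
    intro r hr hr' x
    have ha := H.1
    by_cases h : r ≤ a
    · exact zf_mono_short hf H K hr h x
    · push Not at h
      have e : r = (r - a) + a := by ring
      rw [e, zf_z_add hf K (by linarith) (by linarith)]
      refine (zf_mono_short hf H K (by linarith) le_rfl x).trans ?_
      apply S_mono hf (zf_g_dat hf K) (zf_z_dat hf K _)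
      intro v
      apply ih
      · linarith
      · push_cast at hr'
        linarith

theorem zf_mono (hf : Nl f M) (H : zf_H N f M ρ a) (K : Set (E N)) {r : ℝ} (hr : 0 ≤ r)
    (x : E N) : zf_g f M ρ a K x ≤ zf_z f M ρ a K r x := by
  have ha := H.1
  obtain ⟨n, hn⟩ := exists_nat_ge r
  apply zf_mono_nat hf H K n r hr
  have : (n : ℝ) * 1 ≤ n * a := mul_le_mul_of_nonneg_left ha (Nat.cast_nonneg n)
  linarith

theorem zf_mono_t (hf : Nl f M) (H : zf_H N f M ρ a) (K : Set (E N)) (s t : ℝ) (hs : 0 ≤ s)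
    (hst : s ≤ t) (x : E N) : zf_z f M ρ a K s x ≤ zf_z f M ρ a K t x := by
  have e : t = (t - s) + s := by ring
  rw [e, zf_z_add hf K (by linarith) hs]
  exact S_mono hf (zf_g_dat hf K) (zf_z_dat hf K _) (fun v => zf_mono hf H K (by linarith) v) s x

theorem zf_comp (hf : Nl f M) (K K' : Set (E N)) (s t : ℝ) (hs : 0 ≤ s) (ht : 0 ≤ t)
    (h : ∀ y ∈ K', Seed (zf_z f M ρ a) K s y) (x : E N) :
    zf_z f M ρ a K' t x ≤ zf_z f M ρ a K (s + t) x := by
  rw [zf_z_add hf K hs ht]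
  apply S_mono hf (zf_g_dat hf K') (zf_z_dat hf K _)
  intro v
  apply zf_g_le ((zf_z_dat hf K s).mem v).1
  intro y hy s' hs'
  refine (zf_le_g hf (mem_singleton y) hs' v).trans ?_
  have := h y hy v
  rwa [zf_z_zero] at this

theorem zf_trans (hf : Nl f M) (K : Set (E N)) (h : E N) (t : ℝ) (x : E N) :
    zf_z f M ρ a ((fun y => y + h) '' K) t (x + h) = zf_z f M ρ a K t x := by
  unfold zf_z
  rw [← S_trans hf (zf_g_dat hf _)]
  congr 1
  funext v
  apply le_antisymm
  · apply zf_g_le (zf_g_mem hf K v).1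
    rintro _ ⟨y, hy, rfl⟩ s hs
    simp only [add_sub_add_right_eq_sub]
    exact zf_le_g hf hy hs v
  · apply zf_g_le (zf_g_mem hf _ _).1
    intro y hy s hs
    have := zf_le_g (ρ := ρ) hf (mem_image_of_mem (fun y => y + h) hy) hs (v + h)
    simpa only [add_sub_add_right_eq_sub] using this

theorem zf_bb_iso (T : E N ≃ₗᵢ[ℝ] E N) : (fun y => bb N ρ (T y)) = bb N ρ := by
  funext y
  unfold bb
  have : T y ∈ Metric.ball (0 : E N) ρ ↔ y ∈ Metric.ball (0 : E N) ρ := by
    rw [mem_ball_zero_iff, mem_ball_zero_iff, T.norm_map]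
  by_cases h : y ∈ Metric.ball (0 : E N) ρ
  · rw [indicator_of_mem h, indicator_of_mem (this.mpr h)]
    rfl
  · rw [indicator_of_notMem h, indicator_of_notMem (fun h' => h (this.mp h'))]

theorem zf_S_iso (hf : Nl f M) (T : E N ≃ₗᵢ[ℝ] E N) (t : ℝ) (x : E N) :
    S f M t (bb N ρ) (T x) = S f M t (bb N ρ) x := by
  rw [← S_iso hf (zf_dat_bb N ρ), zf_bb_iso]

theorem zf_iso (hf : Nl f M) (K : Set (E N)) (T : E N ≃ₗᵢ[ℝ] E N) (t : ℝ) (x : E N) :
    zf_z f M ρ a (T '' K) t (T x) = zf_z f M ρ a K t x := by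
  unfold zf_z
  rw [← S_iso hf (zf_g_dat hf _)]
  congr 1
  funext v
  apply le_antisymm
  · apply zf_g_le (zf_g_mem hf K v).1
    rintro _ ⟨y, hy, rfl⟩ s hs
    rw [← map_sub, zf_S_iso hf]
    exact zf_le_g hf hy hs v
  · apply zf_g_le (zf_g_mem hf _ _).1
    intro y hy s hs
    have := zf_le_g (ρ := ρ) hf (mem_image_of_mem T hy) hs (T v)
    rwa [← map_sub, zf_S_iso hf] at this

theorem zf_fill (hf : Nl f M) (H : zf_H N f M ρ a) (hI : Inv N f M ρ) (R ε : ℝ) (hε : 0 < ε) :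
    ∃ T, 0 ≤ T ∧ ∀ (K : Set (E N)) x y t, y ∈ K → ‖x - y‖ ≤ R → T ≤ t →
    1 - ε ≤ zf_z f M ρ a K t x := by
  have ha := H.1
  obtain ⟨T, hT⟩ := hI R ε hε
  refine ⟨max T 0, le_max_right _ _, fun K x y t hy hxy ht => ?_⟩
  have ht0 : 0 ≤ t := (le_max_right _ _).trans ht
  have htT : T ≤ t := (le_max_left _ _).trans ht
  refine le_trans ?_ (zf_le_z hf hy (s := 0) ⟨le_rfl, by linarith⟩ ht0 x)
  exact hT _ (by linarith) _ hxy

theorem zf_spread1 (hf : Nl f M) (H : zf_H N f M ρ a) {x y : E N} (hxy : ‖x - y‖ ≤ 1) {t : ℝ}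
    (ht : 2 * a ≤ t) : Seed (zf_z f M ρ a) {x} t y := by
  have ha := H.1
  intro v
  rw [zf_z_zero]
  apply zf_g_le ((zf_z_dat hf _ t).mem v).1
  intro y' hy' s hs
  rw [mem_singleton_iff] at hy'
  rw [hy']
  have h1 := H.step hf hs.1 (t := t - s) (by linarith [hs.2]) (y := y - x)
    (by rwa [norm_sub_rev]) (v - x)
  rw [show v - x - (y - x) = v - y by abel, show 1 + s + (t - s) = 1 + 0 + t by ring] at h1
  exact h1.trans (zf_le_z hf (mem_singleton x) ⟨le_rfl, by linarith⟩ (by linarith) v)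

theorem zf_spreadn (hf : Nl f M) (H : zf_H N f M ρ a) (n : ℕ) : ∀ x y : E N, ‖x - y‖ ≤ n + 1 →
    Seed (zf_z f M ρ a) {x} (2 * a * (n + 1)) y := by
  have ha := H.1
  induction n with
  | zero =>
    intro x y hxy
    apply zf_spread1 hf H
    · simpa using hxy
    · simp
  | succ n ih =>
    intro x y hxy
    push_cast at hxy ⊢
    have hn : (0:ℝ) < (n:ℝ) + 1 + 1 := by positivity
    set θ : ℝ := ((n:ℝ) + 1) / (n + 1 + 1) with hθ
    have hθ0 : 0 ≤ θ := by positivity
    have hθ1 : 0 ≤ 1 - θ := by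
      rw [hθ, sub_nonneg, div_le_one hn]; linarith
    set m : E N := x + θ • (y - x) with hm
    have h1 : ‖x - m‖ ≤ n + 1 := by
      have : x - m = θ • (x - y) := by
        rw [hm, smul_sub, smul_sub]; abel
      rw [this, norm_smul, Real.norm_eq_abs, abs_of_nonneg hθ0]
      calc θ * ‖x - y‖ ≤ θ * (n + 1 + 1) := mul_le_mul_of_nonneg_left hxy hθ0
        _ = n + 1 := by rw [hθ]; field_simp
    have h2 : ‖m - y‖ ≤ 1 := by
      have : m - y = (1 - θ) • (x - y) := by
        rw [hm, sub_smul, one_smul, smul_sub, smul_sub]; abel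
      rw [this, norm_smul, Real.norm_eq_abs, abs_of_nonneg hθ1]
      calc (1 - θ) * ‖x - y‖ ≤ (1 - θ) * (n + 1 + 1) := mul_le_mul_of_nonneg_left hxy hθ1
        _ = 1 := by rw [hθ]; field_simp; ring
    have h3 := ih x m h1
    have h4 := zf_spread1 hf H h2 (t := 2 * a) le_rfl
    intro v
    refine (h4 v).trans ?_
    rw [show 2 * a * ((n:ℝ) + 1 + 1) = 2 * a * (n + 1) + 2 * a by ring]
    apply zf_comp hf _ _ _ _ (by positivity) (by positivity)
    rintro _ rfl
    exact h3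

theorem zf_spread (hf : Nl f M) (H : zf_H N f M ρ a) : ∃ L, 0 < L ∧ ∀ (x y : E N) t,
    L * (1 + ‖x - y‖) ≤ t → Seed (zf_z f M ρ a) {x} t y := by
  have ha := H.1
  refine ⟨2 * a, by linarith, fun x y t ht v => ?_⟩
  have h1 := Nat.lt_floor_add_one ‖x - y‖
  have h2 := Nat.floor_le (norm_nonneg (x - y))
  refine (zf_spreadn hf H ⌊‖x - y‖⌋₊ x y h1.le v).trans ?_
  apply zf_mono_t hf H _ _ _ (by positivity)
  refine le_trans ?_ ht
  apply mul_le_mul_of_nonneg_left _ (by linarith)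
  linarith

theorem zf_robust (hN : 0 < N) (hf : Nl f M) (hρ : 0 < ρ) (H : zf_H N f M ρ a)
    (hI : Inv N f M ρ) : ∃ ε₀ R₀ C, 0 < ε₀ ∧ 0 < R₀ ∧ 0 ≤ C ∧ ∀ w : E N → ℝ, Dat w → ∀ x,
    (∀ y, ‖y - x‖ ≤ R₀ → zf_z f M ρ a {x} 0 y - ε₀ ≤ w y) → ∀ y,
      zf_z f M ρ a {x} 0 y ≤ S f M C w y := by
  have ha := H.1
  have hM := hf.pos
  obtain ⟨η, r, hη, hη2, hr, hdom⟩ := dom (T₁ := 1 + a) hN hf hρ (by linarith)
  obtain ⟨t₀, ht₀, hfill⟩ := zf_fill hf H hI r (η / 2) (by positivity)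
  set t₂ := t₀ + 1 with ht₂
  have ht₂0 : 0 < t₂ := by linarith
  set C := t₂ + 2 * (1 + a) with hC
  have hC0 : 0 < C := by linarith
  set B : ℝ := η / 4 * Real.exp (-(2 * M * C)) with hB
  have hB0 : 0 < B := by positivity
  set D : ℝ := 2 ^ ((N : ℝ) / 2) with hD
  have hD0 : 0 < D := by positivity
  -- choose the radius
  obtain ⟨A, hA0, hA⟩ : ∃ A : ℝ, 0 ≤ A ∧ D * Real.exp (-(A ^ 2 / (8 * C))) ≤ B := by
    have h1 : Tendsto (fun A : ℝ => D * Real.exp (-(A ^ 2 / (8 * C)))) atTop (𝓝 (D * 0)) := by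
      apply Tendsto.const_mul
      apply Real.tendsto_exp_neg_atTop_nhds_zero.comp
      exact (tendsto_pow_atTop two_ne_zero).atTop_div_const (by positivity)
    rw [mul_zero] at h1
    have h2 := (h1.eventually (Iio_mem_nhds hB0)).and (eventually_ge_atTop 0)
    obtain ⟨A, hA1, hA2⟩ := h2.exists
    exact ⟨A, hA2, hA1.le⟩
  refine ⟨B, A + r, C, hB0, by linarith, hC0.le, fun w hw x hx => ?_⟩
  have key : ∀ t, 0 < t → t₂ ≤ t → t ≤ C → ∀ y, ‖y - x‖ ≤ r → 1 - η ≤ S f M t w y := by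
    intro t ht htt htC y hy
    set W : Set (E N) := {v | A + r < ‖v - x‖} with hW
    have hWm : MeasurableSet W := by
      apply IsOpen.measurableSet
      exact isOpen_lt continuous_const (by fun_prop)
    have hWi : Measurable (W.indicator (1 : E N → ℝ)) := measurable_one.indicator hWm
    have hW01 : ∀ v, W.indicator (1 : E N → ℝ) v ∈ Icc (0:ℝ) 1 := by
      intro v
      by_cases hv : v ∈ W <;> simp [hv]
    have h1 := S_err hf (zf_g_dat hf {x} (ρ := ρ) (a := a)) hw (D := fun v => B + W.indicator 1 v)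
      (measurable_const.add hWi) (fun v => add_nonneg hB0.le (hW01 v).1) (C := B + 1)
      (fun v => by linarith [(hW01 v).2]) (fun v => by
        by_cases hv : v ∈ W
        · rw [indicator_of_mem hv]
          have := (zf_g_mem (ρ := ρ) (a := a) hf {x} v).2
          have := (hw.mem v).1
          simp only [Pi.one_apply]
          linarith
        · rw [indicator_of_notMem hv]
          have h2 := hx v (by simpa [hW] using hv)
          rw [zf_z_zero] at h2
          linarith) ht y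
    rw [P_add ht measurable_const hWi (C := B + 1) (fun _ => by
        rw [abs_of_nonneg hB0.le]; linarith) (fun v => by
        rw [abs_of_nonneg (hW01 v).1]; linarith [(hW01 v).2]), P_const ht] at h1
    have h3 : P t (W.indicator 1) y ≤ B := by
      have h4 := P_tail ht y hA0 hWm (fun v hv => by
        have hv' : A + r < ‖v - x‖ := hv
        have h5 : ‖v - x‖ ≤ ‖v - y‖ + ‖y - x‖ := norm_sub_le_norm_sub_add_norm_sub _ _ _
        rw [norm_sub_rev y v]
        linarith)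
      refine h4.trans (le_trans ?_ hA)
      apply mul_le_mul_of_nonneg_left _ hD0.le
      apply Real.exp_le_exp.mpr
      apply neg_le_neg
      gcongr
    have h5 := hfill {x} y x t (mem_singleton x) hy (by linarith)
    have h6 : Real.exp (2 * M * t) * (B + P t (W.indicator 1) y) ≤ η / 2 := by
      calc Real.exp (2 * M * t) * (B + P t (W.indicator 1) y)
          ≤ Real.exp (2 * M * C) * (B + B) := by
            apply mul_le_mul
            · apply Real.exp_le_exp.mpr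
              apply mul_le_mul_of_nonneg_left htC (by positivity)
            · linarith
            · exact add_nonneg hB0.le (P_nonneg ht (fun v => (hW01 v).1) y)
            · positivity
        _ = η / 2 * (Real.exp (2 * M * C) * Real.exp (-(2 * M * C))) := by rw [hB]; ring
        _ = η / 2 := by rw [← Real.exp_add]; simp
    unfold zf_z at h5
    linarith
  intro y
  rw [zf_z_zero]
  apply zf_g_le ((S_dat hf hw C).mem y).1
  rintro _ rfl s hs
  rename_i x0
  have e : S f M C w = S f M (2 * (1 + a)) (S f M t₂ w) := by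
    rw [hC, S_add hf hw ht₂0.le (by linarith)]
  have h1 := hdom (S f M t₂ w) (S_dat hf hw t₂) _ (fun v hv => by
      have := key t₂ ht₂0 le_rfl (by linarith) v hv
      linarith) (fun v hv => by
      have := key C hC0 (by linarith) le_rfl v hv
      rwa [e] at this) (1 + s) ⟨by linarith [hs.1], by linarith [hs.2]⟩ y
  rw [e]
  exact h1

/-- Gaussian bound for the building block. -/
theorem zf_gauss (hf : Nl f M) (hρ : 0 < ρ) (ha : 1 ≤ a) : ∃ C c, 0 < C ∧ 0 < c ∧
    ∀ s ∈ Icc (0:ℝ) a, ∀ v : E N, S f M (1 + s) (bb N ρ) v ≤ C * Real.exp (-(c * ‖v‖ ^ 2)) := by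
  have hM := hf.pos
  have h1a : 0 < 1 + a := by linarith
  refine ⟨Real.exp (2 * M * (1 + a)) * 2 ^ ((N : ℝ) / 2) +
    Real.exp (1 / (32 * (1 + a)) * (2 * ρ) ^ 2), 1 / (32 * (1 + a)), by positivity, by positivity,
    fun s hs v => ?_⟩
  have hs1 : 0 < 1 + s := by linarith [hs.1]
  set c : ℝ := 1 / (32 * (1 + a)) with hc
  have hc0 : 0 < c := by positivity
  by_cases hv : ‖v‖ < 2 * ρ
  · have h1 : S f M (1 + s) (bb N ρ) v ≤ 1 := (S_mem hf (zf_dat_bb N ρ) _ _).2
    have h2 : 1 ≤ Real.exp (c * (2 * ρ) ^ 2) * Real.exp (-(c * ‖v‖ ^ 2)) := by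
      rw [← Real.exp_add]
      apply Real.one_le_exp
      have : ‖v‖ ^ 2 ≤ (2 * ρ) ^ 2 := by gcongr
      nlinarith
    have h3 : 0 ≤ Real.exp (2 * M * (1 + a)) * 2 ^ ((N : ℝ) / 2) *
        Real.exp (-(c * ‖v‖ ^ 2)) := by positivity
    rw [add_mul]
    linarith
  · push Not at hv
    have h1 := zf_le_P hf (zf_dat_bb N ρ) hs1 v
    have h2 : P (1 + s) (bb N ρ) v ≤ 2 ^ ((N : ℝ) / 2) *
        Real.exp (-((‖v‖ - ρ) ^ 2 / (8 * (1 + s)))) := by
      apply P_tail hs1 v (by linarith) Metric.isOpen_ball.measurableSet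
      intro y hy
      rw [mem_ball_zero_iff] at hy
      have := norm_sub_norm_le v y
      linarith
    have h3 : Real.exp (-((‖v‖ - ρ) ^ 2 / (8 * (1 + s)))) ≤ Real.exp (-(c * ‖v‖ ^ 2)) := by
      apply Real.exp_le_exp.mpr
      apply neg_le_neg
      have h4 : ‖v‖ / 2 ≤ ‖v‖ - ρ := by linarith
      calc c * ‖v‖ ^ 2 = (‖v‖ / 2) ^ 2 / (8 * (1 + a)) := by
            rw [hc]; field_simp; ring
        _ ≤ (‖v‖ - ρ) ^ 2 / (8 * (1 + s)) := by
            have := hs.2
            gcongr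
    have h4 : Real.exp (2 * M * (1 + s)) ≤ Real.exp (2 * M * (1 + a)) := by
      apply Real.exp_le_exp.mpr
      have := hs.2
      gcongr
    calc S f M (1 + s) (bb N ρ) v ≤ Real.exp (2 * M * (1 + s)) * P (1 + s) (bb N ρ) v := h1
      _ ≤ Real.exp (2 * M * (1 + a)) * (2 ^ ((N : ℝ) / 2) * Real.exp (-(c * ‖v‖ ^ 2))) := by
          apply mul_le_mul h4 (h2.trans _)
            (P_nonneg hs1 (fun y => ((zf_dat_bb N ρ).mem y).1) v) (by positivity)
          exact mul_le_mul_of_nonneg_left h3 (by positivity)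
      _ ≤ _ := by
          rw [add_mul, mul_assoc]
          have : 0 ≤ Real.exp (c * (2 * ρ) ^ 2) * Real.exp (-(c * ‖v‖ ^ 2)) := by positivity
          linarith

/-- Upper bound away from `K`. -/
theorem zf_far (hf : Nl f M) (hρ : 0 < ρ) (ha : 1 ≤ a) : ∃ C c, 0 < C ∧ 0 < c ∧
    ∀ (K : Set (E N)) t x d, 0 ≤ t → 0 ≤ d → (∀ y ∈ K, 2 * d ≤ ‖x - y‖) →
      zf_z f M ρ a K t x ≤ C * Real.exp (2 * M * t - c * (d ^ 2 / (1 + t))) := by
  have hM := hf.pos
  obtain ⟨C, c, hC, hc, hG⟩ := zf_gauss (N := N) hf hρ ha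
  set D : ℝ := 2 ^ ((N : ℝ) / 2) with hD
  have hD0 : 0 < D := by positivity
  have hg : ∀ (K : Set (E N)) x d, 0 ≤ d → (∀ y ∈ K, d ≤ ‖x - y‖) →
      zf_g f M ρ a K x ≤ C * Real.exp (-(c * d ^ 2)) := by
    intro K x d hd h
    apply zf_g_le (by positivity)
    intro y hy s hs
    refine (hG s hs (x - y)).trans ?_
    have := h y hy
    gcongr
  set c' : ℝ := min c (1 / 8) with hc'
  have hc'0 : 0 < c' := lt_min hc (by norm_num)
  refine ⟨C + D, c', by positivity, hc'0, fun K t x d ht hd h => ?_⟩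
  have h1t : 0 < 1 + t := by linarith
  have hdt : 0 ≤ d ^ 2 / (1 + t) := by positivity
  have hE : Real.exp (-(c * d ^ 2)) ≤ Real.exp (-(c' * (d ^ 2 / (1 + t)))) := by
    apply Real.exp_le_exp.mpr
    apply neg_le_neg
    have h1 : d ^ 2 / (1 + t) ≤ d ^ 2 := div_le_self (by positivity) (by linarith)
    exact mul_le_mul (min_le_left _ _) h1 hdt hc.le
  rcases eq_or_lt_of_le ht with h0 | h0
  · subst h0
    rw [zf_z_zero]
    refine (hg K x d hd (fun y hy => by linarith [h y hy])).trans ?_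
    rw [mul_zero, zero_sub]
    apply mul_le_mul (by linarith) hE (by positivity) (by positivity)
  · have h1 := zf_le_P hf (zf_g_dat hf K (ρ := ρ) (a := a)) h0 x
    set W : Set (E N) := {v | d ≤ ‖x - v‖} with hW
    have hWm : MeasurableSet W := by
      apply IsClosed.measurableSet
      exact isClosed_le continuous_const (by fun_prop)
    have hWi : Measurable (W.indicator (1 : E N → ℝ)) := measurable_one.indicator hWm
    have hW01 : ∀ v, W.indicator (1 : E N → ℝ) v ∈ Icc (0:ℝ) 1 := by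
      intro v
      by_cases hv : v ∈ W <;> simp [hv]
    set b := C * Real.exp (-(c * d ^ 2)) with hb
    have hb0 : 0 < b := by positivity
    have h2 : P t (zf_g f M ρ a K) x ≤ b + D * Real.exp (-(d ^ 2 / (8 * t))) := by
      calc P t (zf_g f M ρ a K) x ≤ P t (fun v => b + W.indicator (1 : E N → ℝ) v) x := by
            apply P_mono h0 (zf_g_dat hf K).meas (C := b + 1)
              (by exact measurable_const.add hWi :
                Measurable (fun v => b + W.indicator (1 : E N → ℝ) v))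
            · intro v
              have := zf_g_mem (ρ := ρ) (a := a) hf K v
              rw [abs_of_nonneg this.1]
              linarith [this.2]
            · intro v
              rw [abs_of_nonneg (add_nonneg hb0.le (hW01 v).1)]
              linarith [(hW01 v).2]
            · intro v
              by_cases hv : v ∈ W
              · rw [indicator_of_mem hv]
                have := zf_g_mem (ρ := ρ) (a := a) hf K v
                simp only [Pi.one_apply]
                linarith [this.2]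
              · rw [indicator_of_notMem hv, add_zero]
                apply hg K v d hd
                intro y hy
                have hv' : ‖x - v‖ < d := by simpa [hW] using hv
                have h3 : ‖x - y‖ ≤ ‖x - v‖ + ‖v - y‖ := norm_sub_le_norm_sub_add_norm_sub _ _ _
                linarith [h y hy]
        _ = b + P t (W.indicator 1) x := by
            rw [P_add h0 measurable_const hWi (C := b + 1) (fun _ => by
              rw [abs_of_nonneg hb0.le]; linarith) (fun v => by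
              rw [abs_of_nonneg (hW01 v).1]; linarith [(hW01 v).2]), P_const h0]
        _ ≤ b + D * Real.exp (-(d ^ 2 / (8 * t))) := by
            have := P_tail h0 x hd hWm (fun v hv => hv)
            linarith
    have h3 : Real.exp (-(d ^ 2 / (8 * t))) ≤ Real.exp (-(c' * (d ^ 2 / (1 + t)))) := by
      apply Real.exp_le_exp.mpr
      apply neg_le_neg
      calc c' * (d ^ 2 / (1 + t)) ≤ 1 / 8 * (d ^ 2 / (1 + t)) :=
            mul_le_mul_of_nonneg_right (min_le_right _ _) hdt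
        _ ≤ 1 / 8 * (d ^ 2 / t) := by
            gcongr
            linarith
        _ = d ^ 2 / (8 * t) := by field_simp
    calc zf_z f M ρ a K t x ≤ Real.exp (2 * M * t) * P t (zf_g f M ρ a K) x := h1
      _ ≤ Real.exp (2 * M * t) * ((C + D) * Real.exp (-(c' * (d ^ 2 / (1 + t))))) := by
          apply mul_le_mul_of_nonneg_left _ (Real.exp_nonneg _)
          refine h2.trans ?_
          rw [add_mul]
          apply add_le_add
          · exact mul_le_mul_of_nonneg_left hE hC.le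
          · exact mul_le_mul_of_nonneg_left h3 hD0.le
      _ = _ := by
          rw [sub_eq_add_neg, Real.exp_add]
          ring

theorem zf_near (hf : Nl f M) (hρ : 0 < ρ) (ha : 1 ≤ a) (t p : ℝ) (ht : 0 ≤ t) (hp : 0 < p) :
    ∃ R, ∀ (K : Set (E N)) x, p ≤ zf_z f M ρ a K t x → ∃ y ∈ K, ‖x - y‖ ≤ R := by
  obtain ⟨C, c, hC, hc, hF⟩ := zf_far (N := N) hf hρ ha
  obtain ⟨d, hd0, hd⟩ : ∃ d : ℝ, 0 ≤ d ∧
      C * Real.exp (2 * M * t - c * (d ^ 2 / (1 + t))) < p := by
    have h1 : Tendsto (fun d : ℝ => C * Real.exp (2 * M * t - c * (d ^ 2 / (1 + t)))) atTop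
        (𝓝 (C * 0)) := by
      apply Tendsto.const_mul
      apply Real.tendsto_exp_atBot.comp
      apply tendsto_atBot_add_const_left
      apply tendsto_neg_atTop_atBot.comp
      apply Tendsto.const_mul_atTop hc
      exact (tendsto_pow_atTop two_ne_zero).atTop_div_const (by positivity)
    rw [mul_zero] at h1
    obtain ⟨d, h2, h3⟩ := ((h1.eventually (Iio_mem_nhds hp)).and (eventually_ge_atTop 0)).exists
    exact ⟨d, h3, h2⟩
  refine ⟨2 * d, fun K x h => ?_⟩
  by_contra hcon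
  push Not at hcon
  have := hF K t x d ht hd0 (fun y hy => (hcon y hy).le)
  linarith

theorem zf_pos (hf : Nl f M) (hρ : 0 < ρ) : 0 < S f M 1 (bb N ρ) 0 := by
  have h1 := S_pos hf (dat_const (N := N) (p := 0) ⟨le_rfl, zero_le_one⟩) (zf_dat_bb N ρ)
    (fun x => ((zf_dat_bb N ρ).mem x).1) one_pos 0
  rw [zf_S_zero_fun hf, sub_zero] at h1
  refine lt_of_lt_of_le (mul_pos (Real.exp_pos _) ?_) h1
  simp only [sub_zero]
  obtain ⟨c, hc, hcl⟩ := heat_lower (N := N) one_pos le_rfl ρ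
  have h2 : c * (volume (Metric.ball (0 : E N) ρ)).toReal ≤ P 1 (bb N ρ) 0 := by
    unfold P
    have e : ∫ y : E N, (Metric.ball (0 : E N) ρ).indicator (fun _ => c) y =
        c * (volume (Metric.ball (0 : E N) ρ)).toReal := by
      rw [integral_indicator Metric.isOpen_ball.measurableSet, setIntegral_const, smul_eq_mul,
        mul_comm]
      rfl
    rw [← e]
    apply integral_mono
    · apply (integrable_indicator_iff Metric.isOpen_ball.measurableSet).mpr
      exact integrableOn_const measure_ball_lt_top.ne (by simp)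
    · exact P_int one_pos (zf_dat_bb N ρ).meas (C := 1) (fun y => by
        rw [abs_of_nonneg ((zf_dat_bb N ρ).mem y).1]
        exact ((zf_dat_bb N ρ).mem y).2) 0
    · intro y
      simp only
      unfold bb
      by_cases hy : y ∈ Metric.ball (0 : E N) ρ
      · rw [indicator_of_mem hy, indicator_of_mem hy]
        simp only [Pi.one_apply, mul_one]
        apply hcl 1 ⟨le_rfl, le_rfl⟩
        rw [zero_sub, norm_neg]
        rw [mem_ball_zero_iff] at hy
        exact hy.le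
      · rw [indicator_of_notMem hy, indicator_of_notMem hy, mul_zero]
  refine lt_of_lt_of_le (mul_pos hc ?_) h2
  exact ENNReal.toReal_pos (Metric.measure_ball_pos volume _ hρ).ne' measure_ball_lt_top.ne

theorem zf_speed (hf : Nl f M) (hρ : 0 < ρ) (ha : 1 ≤ a) : ∃ Λ, 0 < Λ ∧ ∀ (K : Set (E N)) t x,
    0 ≤ t → Seed (zf_z f M ρ a) K t x → ∃ y ∈ K, ‖x - y‖ ≤ Λ * (1 + t) := by
  have hM := hf.pos
  obtain ⟨C, c, hC, hc, hF⟩ := zf_far (N := N) hf hρ ha
  set c₀ := S f M 1 (bb N ρ) 0 with hc₀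
  have hc₀0 : 0 < c₀ := zf_pos hf hρ
  obtain ⟨Λ, hΛ0, hΛ1, hΛ⟩ : ∃ Λ : ℝ, 0 < Λ ∧ 2 * M ≤ c * Λ ^ 2 ∧
      C * Real.exp (2 * M - c * Λ ^ 2) < c₀ := by
    have h0 : Tendsto (fun Λ : ℝ => c * Λ ^ 2) atTop atTop :=
      Tendsto.const_mul_atTop hc (tendsto_pow_atTop two_ne_zero)
    have h1 : Tendsto (fun Λ : ℝ => C * Real.exp (2 * M - c * Λ ^ 2)) atTop (𝓝 (C * 0)) := by
      apply Tendsto.const_mul
      apply Real.tendsto_exp_atBot.comp
      apply tendsto_atBot_add_const_left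
      exact tendsto_neg_atTop_atBot.comp h0
    rw [mul_zero] at h1
    obtain ⟨Λ, ⟨h2, h3⟩, h4⟩ := ((h1.eventually (Iio_mem_nhds hc₀0)).and
      (eventually_gt_atTop 0)).and (h0.eventually_ge_atTop (2 * M)) |>.exists
    exact ⟨Λ, h3, h4, h2⟩
  refine ⟨2 * Λ, by linarith, fun K t x ht h => ?_⟩
  have h1t : 0 < 1 + t := by linarith
  by_contra hcon
  push Not at hcon
  have h1 := hF K t x (Λ * (1 + t)) ht (by positivity) (fun y hy => by
    have := hcon y hy
    linarith)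
  have h2 : C * Real.exp (2 * M * t - c * ((Λ * (1 + t)) ^ 2 / (1 + t))) ≤
      C * Real.exp (2 * M - c * Λ ^ 2) := by
    apply mul_le_mul_of_nonneg_left _ hC.le
    apply Real.exp_le_exp.mpr
    have e : (Λ * (1 + t)) ^ 2 / (1 + t) = Λ ^ 2 * (1 + t) := by field_simp
    rw [e]
    nlinarith
  have h3 := h x
  rw [zf_z_zero] at h3
  have h4 := zf_le_g (ρ := ρ) (a := a) hf (mem_singleton x) (s := 0) ⟨le_rfl, by linarith⟩ x
  rw [sub_self, add_zero] at h4
  linarith

theorem zf_loc (hf : Nl f M) (hρ : 0 < ρ) (ha : 1 ≤ a) : ∃ C c, 0 < C ∧ 0 < c ∧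
    ∀ (K K' : Set (E N)) x A, 0 ≤ A → (∀ p ∈ K, ‖p - x‖ ≤ A → p ∈ K') →
    ∀ y, ‖y - x‖ ≤ A / 2 →
      zf_z f M ρ a K 0 y ≤ zf_z f M ρ a K' 0 y + C * Real.exp (-(c * A ^ 2)) := by
  obtain ⟨C, c, hC, hc, hG⟩ := zf_gauss (N := N) hf hρ ha
  refine ⟨C, c / 4, hC, by positivity, fun K K' x A hA h y hy => ?_⟩
  rw [zf_z_zero, zf_z_zero]
  apply zf_g_le (add_nonneg (zf_g_mem hf K' y).1 (by positivity))
  intro p hp s hs
  by_cases hpx : ‖p - x‖ ≤ A
  · have := zf_le_g (ρ := ρ) hf (h p hp hpx) hs y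
    have h2 : 0 ≤ C * Real.exp (-(c / 4 * A ^ 2)) := by positivity
    linarith
  · push Not at hpx
    have h1 : A / 2 ≤ ‖y - p‖ := by
      have : ‖p - x‖ ≤ ‖p - y‖ + ‖y - x‖ := norm_sub_le_norm_sub_add_norm_sub _ _ _
      rw [norm_sub_rev p y] at this
      linarith
    have h2 := hG s hs (y - p)
    have h3 : C * Real.exp (-(c * ‖y - p‖ ^ 2)) ≤ C * Real.exp (-(c / 4 * A ^ 2)) := by
      apply mul_le_mul_of_nonneg_left _ hC.le
      apply Real.exp_le_exp.mpr
      apply neg_le_neg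
      calc c / 4 * A ^ 2 = c * (A / 2) ^ 2 := by ring
        _ ≤ c * ‖y - p‖ ^ 2 := by gcongr
    have h4 := (zf_g_mem (ρ := ρ) (a := a) hf K' y).1
    linarith

theorem zfam (hN : 0 < N) (hf : Nl f M) {ρ : ℝ} (hρ : 0 < ρ) (hI : Inv N f M ρ) :
    ∃ z : Set (E N) → ℝ → E N → ℝ, ZFam f M z ∧ ∃ Ta, 0 ≤ Ta ∧ ∀ (K : Set (E N)) (w : E N → ℝ),
      Dat w → (∀ y ∈ K, ∀ x, bb N ρ (x - y) ≤ w x) → ∀ x, z K 0 x ≤ S f M Ta w x := by
  obtain ⟨a, H⟩ := exists_a1 hN hf hρ hI
  have H : zf_H N f M ρ a := H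
  have ha := H.1
  refine ⟨zf_z f M ρ a, ?_, 1 + 2 * a, by linarith, ?_⟩
  · exact
    { nl := hf
      dat := zf_z_dat hf
      flow := fun K s t hs ht x => by rw [zf_z_add hf K hs ht]
      mono_t := zf_mono_t hf H
      of_mem := fun K y hy x => by
        rw [zf_z_zero, zf_z_zero]
        exact zf_g_mono hf (singleton_subset_iff.mpr hy) x
      comp := fun K K' s t hs ht h x => zf_comp hf K K' s t hs ht h x
      trans := zf_trans hf
      iso := zf_iso hf
      fill := zf_fill hf H hI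
      spread := zf_spread hf H
      robust := zf_robust hN hf hρ H hI
      speed := zf_speed hf hρ ha
      near := zf_near hf hρ ha
      loc := zf_loc hf hρ ha }
  · intro K w hw h x
    rw [zf_z_zero]
    apply zf_g_le ((S_dat hf hw _).mem x).1
    intro y hy s hs
    have h1 := H.step0 hf hs.1 (t := 2 * a - s) (by linarith [hs.2]) (x - y)
    rw [show 1 + s + (2 * a - s) = 1 + 2 * a by ring] at h1
    refine h1.trans ?_
    rw [← zf_str hf (zf_dat_bb N ρ)]
    exact S_mono hf (zf_dat_sub (zf_dat_bb N ρ) y) hw (h y hy) _ x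

end

end Pool.Agent.AP157
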