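import Pool.Agent.AP157.Defs
import Pool.Agent.AP157.ZF
import Pool.Agent.AP157.Reg
import Pool.Agent.AP157.Ulim

/-!
# A wider class of nonlinearities: definitions and first facts

`f > 0` on `(α,1)`, `f q ≤ μ q` on `[0,d₁]` with `d₁ > α`, and seeds which spread at a speed larger
than `2√μ`.  No condition is imposed on the derivative of `f` at `1`.
-/

set_option autoImplicit false

open MeasureTheory Real Set Filter Topology
open scoped ENNReal

namespace Pool.Agent.AP157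

open Pool.Agent.X297.KP

noncomputable section

variable {N : ℕ} {f : ℝ → ℝ} {M : ℝ} {z : Set (E N) → ℝ → E N → ℝ}

/-- The assumptions on the nonlinearity: `f > 0` on `(α,1)`, `f q ≤ μ q` on `[0,d₁]` with `α < d₁`,
and `f p - f q ≤ μ (p - q)` near `0` and near `1`. -/
structure Cls (f : ℝ → ℝ) (α μ d₁ δ : ℝ) : Prop where
  α_nn : 0 ≤ α
  α_lt : α < d₁
  d_lt : d₁ < 1
  pos : ∀ q ∈ Ioo α (1:ℝ), 0 < f q
  μ_nn : 0 ≤ μ
  lin : ∀ q ∈ Icc (0:ℝ) d₁, f q ≤ μ * q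
  δ_pos : 0 < δ
  δ_le : δ ≤ 1 / 8
  st0 : ∀ p q, 0 ≤ q → q ≤ p → p ≤ 2 * δ → f p - f q ≤ μ * (p - q)
  st1 : ∀ p q, 1 - 2 * δ ≤ q → q ≤ p → p ≤ 1 → f p - f q ≤ μ * (p - q)

/-- The seeds spread at the speed `1/κ₁`, and `l² + μ < l/κ₁`. -/
structure Par (z : Set (E N) → ℝ → E N → ℝ) (μ κ₁ C₁ l : ℝ) : Prop where
  κ_pos : 0 < κ₁
  C_nn : 0 ≤ C₁
  l_pos : 0 < l
  sub : l ^ 2 + μ < l / κ₁
  fast : ∀ x y t, κ₁ * ‖x - y‖ + C₁ ≤ t → Seed z {x} t y

/-- There is no plateau at a level in `[a,b]`. -/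
def NoPl (z : Set (E N) → ℝ → E N → ℝ) (a b : ℝ) : Prop :=
  ∀ (F : Ultrafilter ℕ) (K : ℕ → Set (E N)) (t : ℕ → ℝ) (x : ℕ → E N), Tendsto t F atTop →
    ∀ p ∈ Icc a b, ¬ ∀ s y, Tendsto (fun i => z (K i) (t i + s) (x i + y)) F (𝓝 p)

/-- The weight `exp (ν (t - τ_K(x)))`. -/
def Wt (z : Set (E N) → ℝ → E N → ℝ) (K : Set (E N)) (ν t : ℝ) (x : E N) : ℝ :=
  Real.exp (ν * (t - tau (Seed z) K x))

theorem NoPl.mono {a b a' b' : ℝ} (h : NoPl z a b) (ha : a ≤ a') (hb : b' ≤ b) :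
    NoPl z a' b' :=
  fun F K t x ht p hp => h F K t x ht p ⟨ha.trans hp.1, hp.2.trans hb⟩

/-- Constant limits are zeros of `f`. -/
theorem ZFam.zero_of_lim (Z : ZFam f M z) {p : ℝ} (F : Ultrafilter ℕ) {K : ℕ → Set (E N)}
    {t : ℕ → ℝ} {x : ℕ → E N} (ht : Tendsto t F atTop)
    (h : ∀ s y, Tendsto (fun i => z (K i) (t i + s) (x i + y)) F (𝓝 p)) : f p = 0 := by
  have hf := Z.nl
  obtain ⟨v, hv, hlim⟩ := ulim hf F (fun n s y => z (K n) (t n + s) (x n + y)) (by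
      intro s
      refine Eventually.of_forall (fun n r _ => ?_)
      have := dat_trans (Z.dat (K n) (t n + r)) (x n)
      simpa [add_comm] using this) (by
      intro s
      filter_upwards [ht.eventually_ge_atTop (|s|)] with n hn r q hr hq y
      have h0 : 0 ≤ t n + r := by
        have := neg_abs_le s
        linarith
      have e2 := S_trans hf (Z.dat (K n) (t n + r)) q (x n) y
      rw [← add_assoc, Z.flow (K n) _ _ h0 hq, add_comm (x n) y, ← e2]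
      congr 1
      funext w
      rw [add_comm w])
  have e : ∀ s y, v s y = p := fun s y => tendsto_nhds_unique (hlim s y) (h s y)
  have hp : p ∈ Icc (0:ℝ) 1 := by
    have := (hv.dat 0).mem 0
    rwa [e] at this
  apply zero_of_const hf hp one_pos (0 : E N)
  intro s hs _ y
  have h1 := hv.flow 0 s hs.le y
  rw [e] at h1
  have h2 : v 0 = fun _ => p := funext fun y => e 0 y
  rw [h2] at h1
  exact h1.symm

/-- No plateaus at the levels where `f` is positive. -/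
theorem ZFam.nopl_pos (Z : ZFam f M z) {a b : ℝ} (h : ∀ q ∈ Icc a b, f q ≠ 0) : NoPl z a b :=
  fun F _ _ _ ht p hp hlim => h p hp (Z.zero_of_lim F ht hlim)

theorem ZFam.tau_lt (Z : ZFam f M z) {K : Set (E N)} (hK : K.Nonempty) {x : E N} {t : ℝ}
    (h : tau (Seed z) K x < t) : Seed z K t x := by
  obtain ⟨L, hL, hs⟩ := Z.spread
  obtain ⟨y, hy⟩ := hK
  have hne : ({t | 0 ≤ t ∧ Seed z K t x} : Set ℝ).Nonempty := by
    refine ⟨L * (1 + ‖y - x‖), by positivity, ?_⟩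
    exact Z.seed_mono_K (singleton_subset_iff.mpr hy) (by positivity) (hs y x _ le_rfl)
  obtain ⟨s, ⟨hs0, hs1⟩, hst⟩ := exists_lt_of_csInf_lt hne h
  exact Z.seed_mono hs0 hst.le hs1

theorem tau_ge {K : Set (E N)} {x : E N} {t : ℝ} (ht : 0 ≤ t)
    (h : Seed z K t x) : tau (Seed z) K x ≤ t :=
  csInf_le ⟨0, fun _ hs => hs.1⟩ ⟨ht, h⟩

theorem tau_nn (K : Set (E N)) (x : E N) : 0 ≤ tau (Seed z) K x :=
  Real.sInf_nonneg fun _ hs => hs.1

theorem ZFam.tau_mem (Z : ZFam f M z) {K : Set (E N)} {x : E N} (hx : x ∈ K) :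
    tau (Seed z) K x = 0 :=
  le_antisymm (tau_ge le_rfl (Z.of_mem K x hx)) (tau_nn K x)

/-- A seed at `x` at time `t` gives a seed at `y` at time `t + κ₁ ‖x - y‖ + C₁`. -/
theorem Par.seed (Z : ZFam f M z) {μ κ₁ C₁ l : ℝ} (Q : Par z μ κ₁ C₁ l) {K : Set (E N)} {t : ℝ}
    (ht : 0 ≤ t) {x y : E N} (h : Seed z K t x) {t' : ℝ} (ht' : t + (κ₁ * ‖x - y‖ + C₁) ≤ t') :
    Seed z K t' y := by
  have h1 := Q.κ_pos
  have h2 := Q.C_nn
  have h3 : 0 ≤ κ₁ * ‖x - y‖ + C₁ := by positivity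
  refine Z.seed_mono (by positivity) ht' ?_
  apply Z.seed_comp (K' := {x}) ht h3
  · rintro _ rfl
    exact h
  · exact Q.fast x y _ le_rfl

theorem Par.tau_lip (Z : ZFam f M z) {μ κ₁ C₁ l : ℝ} (Q : Par z μ κ₁ C₁ l) {K : Set (E N)}
    (hK : K.Nonempty) (x y : E N) :
    tau (Seed z) K y ≤ tau (Seed z) K x + κ₁ * ‖x - y‖ + C₁ := by
  apply le_of_forall_pos_le_add
  intro ε hε
  have h0 := tau_nn (z := z) K x
  have h1 : Seed z K (tau (Seed z) K x + ε) x := Z.tau_lt hK (by linarith)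
  have h2 := Q.seed Z (by linarith) h1 (y := y) le_rfl
  have h3 := Q.κ_pos
  have h4 := Q.C_nn
  have := tau_ge (by positivity) h2
  linarith

theorem Par.nu_pos {μ κ₁ C₁ l : ℝ} (Q : Par z μ κ₁ C₁ l) : 0 < l / κ₁ :=
  div_pos Q.l_pos Q.κ_pos

/-- The weight varies slowly in space. -/
theorem Par.Wt_le (Z : ZFam f M z) {μ κ₁ C₁ l : ℝ} (Q : Par z μ κ₁ C₁ l) {K : Set (E N)}
    (hK : K.Nonempty) (t : ℝ) (x y : E N) :
    Wt z K (l / κ₁) t y ≤ Real.exp (l / κ₁ * C₁) * Wt z K (l / κ₁) t x *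
      Real.exp (l * ‖y - x‖) := by
  unfold Wt
  rw [← Real.exp_add, ← Real.exp_add]
  apply Real.exp_le_exp.mpr
  have h1 := Q.tau_lip Z hK y x
  have h2 := Q.nu_pos
  have h3 : l / κ₁ * κ₁ = l := div_mul_cancel₀ l Q.κ_pos.ne'
  have h4 := mul_le_mul_of_nonneg_left h1 h2.le
  have h5 : l / κ₁ * (κ₁ * ‖y - x‖) = l * ‖y - x‖ := by rw [← mul_assoc, h3]
  nlinarith

theorem Wt_pos (K : Set (E N)) (ν t : ℝ) (x : E N) : 0 < Wt z K ν t x := Real.exp_pos _

theorem Wt_mono (K : Set (E N)) {ν : ℝ} (hν : 0 ≤ ν) {s t : ℝ} (h : s ≤ t) (x : E N) :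
    Wt z K ν s x ≤ Wt z K ν t x :=
  Real.exp_le_exp.mpr (mul_le_mul_of_nonneg_left (by linarith) hν)

theorem Wt_add (K : Set (E N)) (ν s t : ℝ) (x : E N) :
    Wt z K ν (t + s) x = Real.exp (ν * s) * Wt z K ν t x := by
  unfold Wt
  rw [← Real.exp_add]
  congr 1
  ring

/-- The values are close to `1` around a point which has received a seed long before. -/
theorem ZFam.seed_fill (Z : ZFam f M z) (R : ℝ) {ε : ℝ} (hε : 0 < ε) : ∃ T, 0 ≤ T ∧
    ∀ K t t' x y, 0 ≤ t → Seed z K t y → ‖x - y‖ ≤ R → t + T ≤ t' → 1 - ε ≤ z K t' x := by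
  obtain ⟨T, hT0, hT⟩ := Z.fill R ε hε
  refine ⟨T, hT0, fun K t t' x y ht h hxy htt' => ?_⟩
  have h1 := hT {y} x y T rfl hxy le_rfl
  have h2 := Z.comp K {y} t T ht hT0 (by rintro _ rfl; exact h) x
  have h3 := Z.mono_t K (t + T) t' (by linarith) htt' x
  linarith

/-- The reference solution started from the empty set vanishes. -/
theorem ZFam.empty (Z : ZFam f M z) {t : ℝ} (ht : 0 ≤ t) (x : E N) : z ∅ t x = 0 := by
  apply le_antisymm _ ((Z.dat ∅ t).mem x).1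
  by_contra hlt
  push Not at hlt
  obtain ⟨R, hR⟩ := Z.near t (z ∅ t x) ht hlt
  obtain ⟨y, hy, _⟩ := hR ∅ x le_rfl
  exact hy

/-- The reference solutions, with the lower bound by the solution with datum `1_{B_ρ}`. -/
theorem zfam2 (hN : 0 < N) (hf : Nl f M) {ρ : ℝ} (hρ : 0 < ρ) (hI : Inv N f M ρ) :
    ∃ z : Set (E N) → ℝ → E N → ℝ, ZFam f M z ∧ (∃ Ta, 0 ≤ Ta ∧ ∀ (K : Set (E N)) (w : E N → ℝ),
      Dat w → (∀ y ∈ K, ∀ x, bb N ρ (x - y) ≤ w x) → ∀ x, z K 0 x ≤ S f M Ta w x) ∧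
      ∀ (x : E N) (t : ℝ) (y : E N), 0 ≤ t → S f M (1 + t) (bb N ρ) (y - x) ≤ z {x} t y := by
  obtain ⟨a, H⟩ := exists_a1 hN hf hρ hI
  have H : zf_H N f M ρ a := H
  have ha := H.1
  refine ⟨zf_z f M ρ a, ?_, ⟨1 + 2 * a, by linarith, ?_⟩, ?_⟩
  · exact
    { nl := hf
      dat := zf_z_dat hf
      flow := fun K s t hs ht x => by rw [zf_z_add hf K hs ht]
      mono_t := zf_mono_t hf H
      of_mem := fun K y hy x => by
        rw [zf_z_zero, zf_z_zero]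
        exact zf_g_mono hf (singleton_subset_iff.mpr hy) x
      comp := fun K K' s t hs ht h x => zf_comp hf K K' s t hs ht h x
      trans := zf_trans hf
      iso := zf_iso hf
      fill := zf_fill hf H hI
      spread := zf_spread hf H
      robust := zf_robust hN hf hρ H hI
      speed := zf_speed hf hρ ha
      near := zf_near hf hρ ha
      loc := zf_loc hf hρ ha }
  · intro K w hw h x
    rw [zf_z_zero]
    apply zf_g_le ((S_dat hf hw _).mem x).1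
    intro y hy s hs
    have h1 := H.step0 hf hs.1 (t := 2 * a - s) (by linarith [hs.2]) (x - y)
    rw [show 1 + s + (2 * a - s) = 1 + 2 * a by ring] at h1
    refine h1.trans ?_
    rw [← zf_str hf (zf_dat_bb N ρ)]
    exact S_mono hf (zf_dat_sub (zf_dat_bb N ρ) y) hw (h y hy) _ x
  · intro x t y ht
    have := zf_le_z (ρ := ρ) (a := a) hf (mem_singleton x) (s := 0) ⟨le_rfl, by linarith⟩ ht y
    rwa [add_zero] at this

end

end Pool.Agent.AP157
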