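import Pool.Agent.AP157.Defs

/-!
# From the one-step estimates to arrival times

Pure metric argument.  Notation: Bd r T := ∀ y, ‖y‖ ≤ r → Sd {0} T y;  Hole r H := 0 ≤ H ∧ ∀ K x t, ts ≤ t → (∀ y, ‖y-x‖ ≤ r → ¬ Sd K t y) → ¬ Sd K (t+H) x.
(1) For s ≥ s₂ (large) there is T' with Ps s (T'+1)... precisely p := sInf {t ≥ 0 | Ps s t} ≤ L(1+s) (ps_hi), p ≥ s/Λ - 1 (ps_lo), hi = min (p+1/2) (L(1+s)) satisfies Ps s hi, lo = p - 1/2 satisfies
¬ Ps s lo, C ≤ lo ≤ L(1+s), hi ≤ lo + 1.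
(2) Bd R T → Bd (R+s) (T+hi+C) (hB) and Hole R H → Hole (R+s) (H+lo-C) (hX, then Hole R at the time t+lo-C ≥ ts) for s ≥ s₂, s² ≤ R.
(3) Radii r_m = m²/9, s_m = r_{m+1}-r_m = (2m+1)/9 ≤ m/3 = √r_m (m ≥ 1), s_m ≥ s₂ for m ≥ m₀.  Base: Bd r (L(1+r)) by spread, Hole r 0.  Induction: for m ≥ m₀ there are T_m, H_m with Bd r_m T_m, Hole r_m H_m,
T_m ≤ H_m + C₀ + (2C+1)(m-m₀).  Both are monotone in r in the right sense, and T_{m+1} - T_m ≤ L(1+s_m)+C.  So: there is C₁ such that for all r ≥ 0 there are T ≥ 0, H with Bd r T, Hole r H, T ≤ H + C₁(1+√r).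
(4) β r := sInf {T ≥ 0 | Bd r T}; β is subadditive: Bd r T, Bd r' T' ⇒ Bd (r+r') (T+T') (split y, trans, comp); β r ≤ L(1+r), nondecreasing; Bd r T ⇒ r ≤ Λ(1+T) (speed, N ≥ 1), so β r ≥ r/Λ - 1.
κ := inf_{r>0} β r / r.  κ ≥ 1/Λ: from β(nr) ≤ n β r and β(nr) ≥ nr/Λ - 1 (n → ∞): β r ≥ r/Λ; so κ > 0 and β r ≥ κ r.
Hole r H, Hole r' H' ⇒ Hole (r+r') (H+H'); so Hole (n r) (n H).  Test with K = {0} and ‖x‖ = n r + Λ(1+ts) + 1 (no seeds of {0} in the ball of radius nr around x at time ts by speed): ¬ Sd {0} (ts+nH) x, hence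
nH ≤ β(nr + D), D = Λ(1+ts)+1, ≤ β(nr)+β(D), and for each ϱ > 0 β(nr) ≤ (nr/ϱ+1) β ϱ; n → ∞: H ≤ r β(ϱ)/ϱ; so H ≤ κ r.
(5) Hence κ r ≤ β r ≤ T ≤ H + C₁(1+√r) ≤ κ r + C₁(1+√r), and the H of (3) satisfies H ≥ κ r - C₁(1+√r).
(6) Arr for τ = tau Sd K (K nonempty; the set {t ≥ 0 | Sd K t x} is nonempty by spread+mem+comp; Sd K t x for every t > τ x by mono).  lip: comp+trans and β.  upper: a point of K within infDist+1.
hole: τ x ≥ ts+κ r, H₀ = κ r - C₁(1+√r); if H₀ ≤ 0 take y = x; else t = τ x - H + 1 (H ≤ κ r) satisfies t ≥ ts, and if no y with ‖y-x‖ ≤ r had Sd K t y then ¬ Sd K (τ x + 1) x, contradiction; so τ y ≤ t.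
lower: r = infDist x K - Λ(1+ts) - 1; if r ≥ 0 no y with ‖y-x‖ ≤ r has Sd K ts y (speed), so ¬ Sd K (ts+H) x and τ x ≥ ts + H ≥ κ r - C₁(1+√r); if r < 0 use τ x ≥ 0 and a large constant.
-/

set_option autoImplicit false

open MeasureTheory Real Set Filter Topology
open scoped ENNReal

namespace Pool.Agent.AP157

open Pool.Agent.X297.KP

noncomputable section

variable {N : ℕ} {f : ℝ → ℝ} {M : ℝ} {z : Set (E N) → ℝ → E N → ℝ} {α δ ω : ℝ}

/-! ### Auxiliary notions and lemmas -/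

/-- All points of the ball of radius `r` carry a seed at time `T`, starting from `{0}`. -/
def comb_Bd (Sd : Set (E N) → ℝ → E N → Prop) (r T : ℝ) : Prop :=
  0 ≤ T ∧ ∀ y : E N, ‖y‖ ≤ r → Sd {0} T y

/-- A ball of radius `r` without seeds protects its centre for the time `H`. -/
def comb_Hole (Sd : Set (E N) → ℝ → E N → Prop) (ts r H : ℝ) : Prop :=
  0 ≤ H ∧ ∀ (K : Set (E N)) (x : E N) (t : ℝ), ts ≤ t → (∀ y, ‖y - x‖ ≤ r → ¬ Sd K t y) →
    ¬ Sd K (t + H) x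

theorem comb_split {r r' : ℝ} (hr : 0 ≤ r) (hr' : 0 ≤ r') {y : E N} (hy : ‖y‖ ≤ r + r') :
    ∃ y₁ : E N, ‖y₁‖ ≤ r ∧ ‖y - y₁‖ ≤ r' := by
  rcases eq_or_lt_of_le (add_nonneg hr hr') with h | h
  · refine ⟨0, by simpa using hr, ?_⟩
    rw [sub_zero]
    linarith
  · refine ⟨(r / (r + r')) • y, ?_, ?_⟩
    · rw [norm_smul, Real.norm_eq_abs, abs_of_nonneg (div_nonneg hr h.le)]
      calc r / (r + r') * ‖y‖ ≤ r / (r + r') * (r + r') := by gcongr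
        _ = r := by field_simp
    · have e : y - (r / (r + r')) • y = (r' / (r + r')) • y := by
        have : (1 : ℝ) - r / (r + r') = r' / (r + r') := by field_simp; ring
        rw [← this, sub_smul, one_smul]
      rw [e, norm_smul, Real.norm_eq_abs, abs_of_nonneg (div_nonneg hr' h.le)]
      calc r' / (r + r') * ‖y‖ ≤ r' / (r + r') * (r + r') := by gcongr
        _ = r' := by field_simp

theorem comb_Bd_add {Sd : Set (E N) → ℝ → E N → Prop}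
    (comp : ∀ K K' s t x, 0 ≤ s → 0 ≤ t → (∀ y ∈ K', Sd K s y) → Sd K' t x → Sd K (s + t) x)
    (trans : ∀ x y t, Sd {0} t (y - x) → Sd {x} t y) {r r' T T' : ℝ} (hr : 0 ≤ r)
    (hr' : 0 ≤ r') (h : comb_Bd Sd r T) (h' : comb_Bd Sd r' T') :
    comb_Bd Sd (r + r') (T + T') := by
  refine ⟨add_nonneg h.1 h'.1, fun y hy => ?_⟩
  obtain ⟨y₁, h1, h2⟩ := comb_split hr hr' hy
  refine comp {0} {y₁} T T' y h.1 h'.1 ?_ (trans _ _ _ (h'.2 _ h2))
  rintro _ rfl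
  exact h.2 _ h1

theorem comb_Bd_nat {Sd : Set (E N) → ℝ → E N → Prop}
    (mem : ∀ K x, x ∈ K → Sd K 0 x)
    (comp : ∀ K K' s t x, 0 ≤ s → 0 ≤ t → (∀ y ∈ K', Sd K s y) → Sd K' t x → Sd K (s + t) x)
    (trans : ∀ x y t, Sd {0} t (y - x) → Sd {x} t y) {r T : ℝ} (hr : 0 ≤ r)
    (h : comb_Bd Sd r T) (n : ℕ) : comb_Bd Sd (n * r) (n * T) := by
  induction n with
  | zero =>
    refine ⟨by simp, fun y hy => ?_⟩
    have hy0 : y = 0 := by
      have : ‖y‖ ≤ 0 := by simpa using hy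
      exact norm_le_zero_iff.mp this
    rw [hy0]
    simpa using mem {0} 0 rfl
  | succ n ih =>
    have h1 := comb_Bd_add comp trans (by positivity) hr ih h
    have e1 : (n : ℝ) * r + r = ((n + 1 : ℕ) : ℝ) * r := by push_cast; ring
    have e2 : (n : ℝ) * T + T = ((n + 1 : ℕ) : ℝ) * T := by push_cast; ring
    rwa [e1, e2] at h1

theorem comb_Hole_add {Sd : Set (E N) → ℝ → E N → Prop} {ts r r' H H' : ℝ}
    (h : comb_Hole Sd ts r H) (h' : comb_Hole Sd ts r' H') : comb_Hole Sd ts (r + r') (H + H') := by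
  refine ⟨add_nonneg h.1 h'.1, fun K x t ht hK => ?_⟩
  have h1 : ∀ w, ‖w - x‖ ≤ r' → ¬ Sd K (t + H) w := by
    intro w hw
    refine h.2 K w t ht fun y hy => hK y ?_
    have e : y - x = (y - w) + (w - x) := by abel
    rw [e]
    exact (norm_add_le _ _).trans (add_le_add hy hw)
  have h2 := h'.2 K x (t + H) (by linarith [h.1]) h1
  rwa [add_assoc] at h2

theorem comb_Hole_zero {Sd : Set (E N) → ℝ → E N → Prop} {ts r : ℝ} (hr : 0 ≤ r) :
    comb_Hole Sd ts r 0 := by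
  refine ⟨le_rfl, fun K x t _ hK => ?_⟩
  rw [add_zero]
  exact hK x (by simpa using hr)

theorem comb_Hole_nat {Sd : Set (E N) → ℝ → E N → Prop} {ts r H : ℝ}
    (h : comb_Hole Sd ts r H) (n : ℕ) : comb_Hole Sd ts (n * r) (n * H) := by
  induction n with
  | zero =>
    simp only [Nat.cast_zero, zero_mul]
    exact comb_Hole_zero le_rfl
  | succ n ih =>
    have h1 := comb_Hole_add ih h
    have e1 : (n : ℝ) * r + r = ((n + 1 : ℕ) : ℝ) * r := by push_cast; ring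
    have e2 : (n : ℝ) * H + H = ((n + 1 : ℕ) : ℝ) * H := by push_cast; ring
    rwa [e1, e2] at h1

theorem comb_Hole_mono {Sd : Set (E N) → ℝ → E N → Prop} {ts r r' H : ℝ} (hr : r ≤ r')
    (h : comb_Hole Sd ts r H) : comb_Hole Sd ts r' H :=
  ⟨h.1, fun K x t ht hK => h.2 K x t ht fun y hy => hK y (hy.trans hr)⟩

theorem comb_Bd_mono {Sd : Set (E N) → ℝ → E N → Prop} {r r' T : ℝ} (hr : r' ≤ r)
    (h : comb_Bd Sd r T) : comb_Bd Sd r' T :=
  ⟨h.1, fun y hy => h.2 y (hy.trans hr)⟩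

theorem comb_exists_norm (hN : 0 < N) {r : ℝ} (hr : 0 ≤ r) : ∃ y : E N, ‖y‖ = r := by
  refine ⟨EuclideanSpace.single (⟨0, hN⟩ : Fin N) r, ?_⟩
  rw [PiLp.norm_single, Real.norm_eq_abs, abs_of_nonneg hr]

/-- A number `a` with `n a ≤ n b + c` for all `n` is at most `b`. -/
theorem comb_limit {a b c : ℝ} (h : ∀ n : ℕ, n * a ≤ n * b + c) : a ≤ b := by
  by_contra hcon
  push Not at hcon
  obtain ⟨n, hn⟩ := exists_nat_gt (c / (a - b))
  have h1 : 0 < a - b := by linarith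
  rw [div_lt_iff₀ h1] at hn
  have h2 := h n
  have h3 : (n : ℝ) * (a - b) = n * a - n * b := by ring
  rw [h3] at hn
  linarith

/-- Lower bound for the times of spreading. -/
theorem comb_lower (hN : 0 < N) {Sd : Set (E N) → ℝ → E N → Prop} {Λ : ℝ}
    (mem : ∀ K x, x ∈ K → Sd K 0 x)
    (comp : ∀ K K' s t x, 0 ≤ s → 0 ≤ t → (∀ y ∈ K', Sd K s y) → Sd K' t x → Sd K (s + t) x)
    (trans : ∀ x y t, Sd {0} t (y - x) → Sd {x} t y)
    (speed : ∀ K t x, 0 ≤ t → Sd K t x → ∃ y ∈ K, ‖x - y‖ ≤ Λ * (1 + t)) {r T : ℝ}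
    (hr : 0 ≤ r) (h : comb_Bd Sd r T) : r ≤ Λ * T := by
  refine comb_limit (c := Λ) fun n => ?_
  obtain ⟨y, hy⟩ := comb_exists_norm hN (r := n * r) (by positivity)
  have h1 := comb_Bd_nat mem comp trans hr h n
  obtain ⟨p, hp, hp2⟩ := speed {0} (n * T) y h1.1 (h1.2 y hy.le)
  rw [mem_singleton_iff.mp hp, sub_zero, hy] at hp2
  linarith

/-- Upper bound for the times of protection. -/
theorem comb_upper (hN : 0 < N) {Sd : Set (E N) → ℝ → E N → Prop} {Λ ts : ℝ} (hΛ : 0 < Λ)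
    (hts : 0 ≤ ts)
    (mono : ∀ K s t x, 0 ≤ s → s ≤ t → Sd K s x → Sd K t x)
    (mem : ∀ K x, x ∈ K → Sd K 0 x)
    (comp : ∀ K K' s t x, 0 ≤ s → 0 ≤ t → (∀ y ∈ K', Sd K s y) → Sd K' t x → Sd K (s + t) x)
    (trans : ∀ x y t, Sd {0} t (y - x) → Sd {x} t y)
    (speed : ∀ K t x, 0 ≤ t → Sd K t x → ∃ y ∈ K, ‖x - y‖ ≤ Λ * (1 + t)) {r H ϱ T : ℝ}
    (hr : 0 ≤ r) (h : comb_Hole Sd ts r H) (hϱ : 0 < ϱ) (hT : comb_Bd Sd ϱ T) :
    H ≤ r * (T / ϱ) := by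
  set D : ℝ := Λ * (1 + ts) + 1 with hD
  have hD0 : 0 < D := by positivity
  refine comb_limit (c := (D / ϱ + 1) * T) fun n => ?_
  obtain ⟨x, hx⟩ := comb_exists_norm hN (r := n * r + D) (by positivity)
  have h1 := (comb_Hole_nat h n).2 {0} x ts le_rfl (by
    intro y hy hS
    obtain ⟨p, hp, hp2⟩ := speed {0} ts y hts hS
    rw [mem_singleton_iff.mp hp, sub_zero] at hp2
    have h2 : ‖x‖ ≤ ‖y‖ + ‖y - x‖ := by
      have e : x = y - (y - x) := by abel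
      calc ‖x‖ = ‖y - (y - x)‖ := by rw [← e]
        _ ≤ ‖y‖ + ‖y - x‖ := norm_sub_le _ _
    rw [hx] at h2
    linarith)
  set k : ℕ := ⌈(n * r + D) / ϱ⌉₊ with hk
  have hk1 : (n * r + D) / ϱ ≤ k := Nat.le_ceil _
  have hk2 : (k : ℝ) < (n * r + D) / ϱ + 1 := Nat.ceil_lt_add_one (by positivity)
  have h2 := comb_Bd_nat mem comp trans hϱ.le hT k
  have h3 : Sd {0} (k * T) x := by
    apply h2.2
    rw [hx]
    rwa [div_le_iff₀ hϱ] at hk1
  have h4 : ts + n * H < k * T := by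
    by_contra hcon
    push Not at hcon
    exact h1 (mono _ _ _ _ h2.1 hcon h3)
  have h5 : (k : ℝ) * T ≤ ((n * r + D) / ϱ + 1) * T := mul_le_mul_of_nonneg_right hk2.le hT.1
  have h6 : ((n * r + D) / ϱ + 1) * T = n * (r * (T / ϱ)) + (D / ϱ + 1) * T := by
    field_simp
    ring
  rw [h6] at h5
  linarith

/-- The times at which planar seeds have (not) arrived. -/
theorem comb_lohi {Ps : ℝ → ℝ → Prop} {L Λ C s₁ : ℝ} (hL : 0 < L) (hΛ : 0 < Λ) (hC : 0 ≤ C)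
    (hs₁ : 1 ≤ s₁)
    (ps_hi : ∀ s t, 0 ≤ s → L * (1 + s) ≤ t → Ps s t)
    (ps_lo : ∀ s t, 0 ≤ t → Ps s t → s ≤ Λ * (1 + t)) {s : ℝ}
    (hs : max s₁ (Λ * (C + 3 / 2)) ≤ s) :
    ∃ lo hi : ℝ, Ps s hi ∧ ¬ Ps s lo ∧ 0 ≤ hi ∧ hi ≤ L * (1 + s) ∧ C ≤ lo ∧ lo ≤ L * (1 + s) ∧
      hi ≤ lo + 1 := by
  have hs1 : s₁ ≤ s := (le_max_left _ _).trans hs
  have hs2 : Λ * (C + 3 / 2) ≤ s := (le_max_right _ _).trans hs
  have hs0 : 0 ≤ s := by linarith
  set A : Set ℝ := {t | 0 ≤ t ∧ Ps s t} with hA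
  have hmem : L * (1 + s) ∈ A := ⟨by positivity, ps_hi s _ hs0 le_rfl⟩
  have hbdd : BddBelow A := ⟨0, fun t ht => ht.1⟩
  set p : ℝ := sInf A with hp
  have hp1 : p ≤ L * (1 + s) := csInf_le hbdd hmem
  have hp2 : C + 1 / 2 ≤ p := by
    refine le_csInf ⟨_, hmem⟩ fun t ht => ?_
    have h1 := ps_lo s t ht.1 ht.2
    have h2 : Λ * (C + 3 / 2) ≤ Λ * (1 + t) := hs2.trans h1
    have h3 := le_of_mul_le_mul_left h2 hΛ
    linarith
  obtain ⟨t, ht, htp⟩ := exists_lt_of_csInf_lt ⟨_, hmem⟩ (show sInf A < p + 1 / 2 by linarith)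
  refine ⟨p - 1 / 2, min t (L * (1 + s)), ?_, ?_, ?_, min_le_right _ _, by linarith,
    by linarith, ?_⟩
  · rcases min_choice t (L * (1 + s)) with h | h
    · rw [h]; exact ht.2
    · rw [h]; exact hmem.2
  · intro hcon
    have : p ≤ p - 1 / 2 := csInf_le hbdd ⟨by linarith, hcon⟩
    linarith
  · exact le_min ht.1 hmem.1
  · have := min_le_left t (L * (1 + s))
    linarith

/-- Comparable times of spreading and of protection. -/
theorem comb_scale {Sd : Set (E N) → ℝ → E N → Prop} {Ps : ℝ → ℝ → Prop}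
    {L Λ C s₁ ts : ℝ} (hL : 0 < L) (hΛ : 0 < Λ) (hC : 0 ≤ C) (hs₁ : 1 ≤ s₁)
    (spread : ∀ x y t, L * (1 + ‖x - y‖) ≤ t → Sd {x} t y)
    (ps_hi : ∀ s t, 0 ≤ s → L * (1 + s) ≤ t → Ps s t)
    (ps_lo : ∀ s t, 0 ≤ t → Ps s t → s ≤ Λ * (1 + t))
    (hB : ∀ s R T T', s₁ ≤ s → s ^ 2 ≤ R → 0 ≤ T → 0 ≤ T' → T' ≤ L * (1 + s) → Ps s T' →
      (∀ y : E N, ‖y‖ ≤ R → Sd {0} T y) →
      ∀ y : E N, ‖y‖ ≤ R + s → Sd {0} (T + T' + C) y)
    (hX : ∀ s R t T', s₁ ≤ s → s ^ 2 ≤ R → ts ≤ t → C ≤ T' → T' ≤ L * (1 + s) → ¬ Ps s T' →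
      ∀ (K : Set (E N)) (x : E N), (∀ y, ‖y - x‖ ≤ R + s → ¬ Sd K t y) →
      ∀ y, ‖y - x‖ ≤ R → ¬ Sd K (t + T' - C) y) :
    ∃ C₁ : ℝ, 0 ≤ C₁ ∧ ∀ r, 0 ≤ r → ∃ T H, comb_Bd Sd r T ∧ comb_Hole Sd ts r H ∧
      T ≤ H + C₁ * (1 + √r) := by
  set s₂ : ℝ := max s₁ (Λ * (C + 3 / 2)) with hs₂
  have hs₂1 : s₁ ≤ s₂ := le_max_left _ _
  obtain ⟨m₀, hm₀⟩ := exists_nat_ge (9 * s₂)
  have hm₀1 : (1 : ℝ) ≤ m₀ := by linarith
  have hbase : ∀ r, 0 ≤ r → comb_Bd Sd r (L * (1 + r)) := by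
    intro r hr
    refine ⟨by positivity, fun y hy => spread 0 y _ ?_⟩
    rw [zero_sub, norm_neg]
    gcongr
  -- one step
  have hstep : ∀ (m : ℕ) (T H : ℝ), m₀ ≤ m → comb_Bd Sd ((m : ℝ) ^ 2 / 9) T →
      comb_Hole Sd ts ((m : ℝ) ^ 2 / 9) H → ∃ T' H', comb_Bd Sd (((m + 1 : ℕ) : ℝ) ^ 2 / 9) T' ∧
      comb_Hole Sd ts (((m + 1 : ℕ) : ℝ) ^ 2 / 9) H' ∧ T' - H' ≤ T - H + (2 * C + 1) ∧
      T' ≤ T + L * (1 + m) + C := by
    intro m T H hm hT hH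
    have hmr : (m₀ : ℝ) ≤ m := by exact_mod_cast hm
    set s : ℝ := (2 * m + 1) / 9 with hs
    have hss : s₂ ≤ s := by rw [hs]; linarith
    have hs0 : 0 ≤ s := by linarith
    have hsm : s ≤ m / 3 := by rw [hs]; linarith
    have hsq : s ^ 2 ≤ (m : ℝ) ^ 2 / 9 := by
      calc s ^ 2 ≤ ((m : ℝ) / 3) ^ 2 := pow_le_pow_left₀ hs0 hsm 2
        _ = (m : ℝ) ^ 2 / 9 := by ring
    have er : (m : ℝ) ^ 2 / 9 + s = ((m + 1 : ℕ) : ℝ) ^ 2 / 9 := by
      rw [hs]; push_cast; ring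
    obtain ⟨lo, hi, h1, h2, h3, h4, h5, h6, h7⟩ := comb_lohi hL hΛ hC hs₁ ps_hi ps_lo hss
    refine ⟨T + hi + C, H + lo - C, ⟨by linarith [hT.1], ?_⟩, ⟨by linarith [hH.1], ?_⟩, by linarith,
      ?_⟩
    · rw [← er]
      exact hB s _ T hi (hs₂1.trans hss) hsq hT.1 h3 h4 h1 hT.2
    · intro K x t ht hK
      rw [← er] at hK
      have h8 := hX s _ t lo (hs₂1.trans hss) hsq ht h5 h6 h2 K x hK
      have h9 := hH.2 K x (t + lo - C) (by linarith) h8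
      have e : t + (H + lo - C) = t + lo - C + H := by ring
      rw [e]
      exact h9
    · have : L * (1 + s) ≤ L * (1 + m) := by
        apply mul_le_mul_of_nonneg_left _ hL.le
        have : (0 : ℝ) ≤ m := Nat.cast_nonneg m
        linarith
      linarith
  set C₀ : ℝ := L * (1 + (m₀ : ℝ) ^ 2 / 9) with hC₀
  have hC₀0 : 0 ≤ C₀ := by positivity
  have hind : ∀ m : ℕ, m₀ ≤ m → ∃ T H, comb_Bd Sd ((m : ℝ) ^ 2 / 9) T ∧
      comb_Hole Sd ts ((m : ℝ) ^ 2 / 9) H ∧ T - H ≤ C₀ + (2 * C + 1) * (m - m₀) := by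
    intro m hm
    induction m, hm using Nat.le_induction with
    | base =>
      refine ⟨C₀, 0, hbase _ (by positivity), comb_Hole_zero (by positivity), ?_⟩
      simp
    | succ m hm ih =>
      obtain ⟨T, H, hT, hH, hTH⟩ := ih
      obtain ⟨T', H', hT', hH', hTH', -⟩ := hstep m T H hm hT hH
      refine ⟨T', H', hT', hH', ?_⟩
      push_cast
      linarith
  refine ⟨C₀ + 3 * (2 * C + 1) + 3 * L + L + C + (2 * C + 1), by positivity, fun r hr => ?_⟩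
  have hsr : 0 ≤ √r := Real.sqrt_nonneg r
  rcases lt_or_ge r ((m₀ : ℝ) ^ 2 / 9) with hr0 | hr0
  · refine ⟨C₀, 0, comb_Bd_mono hr0.le (hbase _ (by positivity)), comb_Hole_zero hr, ?_⟩
    have h1 : C₀ ≤ C₀ * (1 + √r) := le_mul_of_one_le_right hC₀0 (by linarith)
    have h2 : 0 ≤ (3 * (2 * C + 1) + 3 * L + L + C + (2 * C + 1)) * (1 + √r) := by positivity
    have e : (C₀ + 3 * (2 * C + 1) + 3 * L + L + C + (2 * C + 1)) * (1 + √r) =
      C₀ * (1 + √r) + (3 * (2 * C + 1) + 3 * L + L + C + (2 * C + 1)) * (1 + √r) := by ring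
    rw [e]
    linarith
  · -- the index
    set m : ℕ := ⌊3 * √r⌋₊ with hm
    have hm1 : (m : ℝ) ≤ 3 * √r := Nat.floor_le (by positivity)
    have hm2 : 3 * √r < m + 1 := Nat.lt_floor_add_one _
    have hr9 : (3 * √r) ^ 2 = 9 * r := by
      rw [mul_pow, Real.sq_sqrt hr]; norm_num
    have hmm₀ : m₀ ≤ m := by
      apply Nat.le_floor
      have h1 : (m₀ : ℝ) ^ 2 ≤ (3 * √r) ^ 2 := by rw [hr9]; linarith
      exact (pow_le_pow_iff_left₀ (Nat.cast_nonneg _) (by positivity) two_ne_zero).mp h1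
    have hrm : (m : ℝ) ^ 2 / 9 ≤ r := by
      have : (m : ℝ) ^ 2 ≤ (3 * √r) ^ 2 := pow_le_pow_left₀ (Nat.cast_nonneg m) hm1 2
      rw [hr9] at this
      linarith
    have hrm' : r ≤ ((m + 1 : ℕ) : ℝ) ^ 2 / 9 := by
      have : (3 * √r) ^ 2 ≤ ((m : ℝ) + 1) ^ 2 := pow_le_pow_left₀ (by positivity) hm2.le 2
      rw [hr9] at this
      push_cast
      linarith
    obtain ⟨T, H, hT, hH, hTH⟩ := hind m hmm₀
    obtain ⟨T', H', hT', hH', hTH', hTT'⟩ := hstep m T H hmm₀ hT hH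
    refine ⟨T', H, comb_Bd_mono hrm' hT', comb_Hole_mono hrm hH, ?_⟩
    have hm₀0 : (0 : ℝ) ≤ m₀ := Nat.cast_nonneg _
    have h1 : (2 * C + 1) * (m - m₀) ≤ (2 * C + 1) * (3 * √r) :=
      mul_le_mul_of_nonneg_left (by linarith) (by linarith)
    have h2 : L * (1 + m) ≤ L * (1 + 3 * √r) := mul_le_mul_of_nonneg_left (by linarith) hL.le
    have h3 : 0 ≤ C₀ * √r := by positivity
    have h4 : 0 ≤ C * √r := by positivity
    have h5 : 0 ≤ L * √r := by positivity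
    have e : (C₀ + 3 * (2 * C + 1) + 3 * L + L + C + (2 * C + 1)) * (1 + √r) =
      C₀ + C₀ * √r + (2 * C + 1) * (3 * √r) + 3 * (2 * C + 1) + L * (1 + 3 * √r) + 3 * L + L * √r +
      C + C * √r + (2 * C + 1) + (2 * C + 1) * √r := by ring
    have h6 : 0 ≤ (2 * C + 1) * √r := by positivity
    rw [e]
    linarith

theorem comb (hN : 0 < N) {Sd : Set (E N) → ℝ → E N → Prop} {Ps : ℝ → ℝ → Prop}
    {L Λ C s₁ ts : ℝ} (hL : 0 < L) (hΛ : 0 < Λ) (hC : 0 ≤ C) (hs₁ : 1 ≤ s₁) (hts : 0 ≤ ts)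
    (mono : ∀ K s t x, 0 ≤ s → s ≤ t → Sd K s x → Sd K t x)
    (mem : ∀ K x, x ∈ K → Sd K 0 x)
    (comp : ∀ K K' s t x, 0 ≤ s → 0 ≤ t → (∀ y ∈ K', Sd K s y) → Sd K' t x → Sd K (s + t) x)
    (trans : ∀ x y t, Sd {0} t (y - x) → Sd {x} t y)
    (spread : ∀ x y t, L * (1 + ‖x - y‖) ≤ t → Sd {x} t y)
    (speed : ∀ K t x, 0 ≤ t → Sd K t x → ∃ y ∈ K, ‖x - y‖ ≤ Λ * (1 + t))
    (ps_mono : ∀ s t t', 0 ≤ t → t ≤ t' → Ps s t → Ps s t')
    (ps_hi : ∀ s t, 0 ≤ s → L * (1 + s) ≤ t → Ps s t)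
    (ps_lo : ∀ s t, 0 ≤ t → Ps s t → s ≤ Λ * (1 + t))
    (hB : ∀ s R T T', s₁ ≤ s → s ^ 2 ≤ R → 0 ≤ T → 0 ≤ T' → T' ≤ L * (1 + s) → Ps s T' →
      (∀ y : E N, ‖y‖ ≤ R → Sd {0} T y) →
      ∀ y : E N, ‖y‖ ≤ R + s → Sd {0} (T + T' + C) y)
    (hX : ∀ s R t T', s₁ ≤ s → s ^ 2 ≤ R → ts ≤ t → C ≤ T' → T' ≤ L * (1 + s) → ¬ Ps s T' →
      ∀ (K : Set (E N)) (x : E N), (∀ y, ‖y - x‖ ≤ R + s → ¬ Sd K t y) →
      ∀ y, ‖y - x‖ ≤ R → ¬ Sd K (t + T' - C) y) :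
    ∃ κ C' t' : ℝ, 0 < κ ∧ 0 ≤ C' ∧ 0 ≤ t' ∧ ∀ K : Set (E N), K.Nonempty →
      Arr κ C' t' K (tau Sd K) := by
  obtain ⟨C₁, hC₁, hscale⟩ := comb_scale hL hΛ hC hs₁ spread ps_hi ps_lo hB hX
  -- the slope
  set Q : Set ℝ := {q | ∃ ϱ T, 0 < ϱ ∧ comb_Bd Sd ϱ T ∧ q = T / ϱ} with hQ
  have hQne : Q.Nonempty := by
    refine ⟨_, 1, L * (1 + 1), one_pos, ⟨by positivity, fun y hy => spread 0 y _ ?_⟩, rfl⟩
    rw [zero_sub, norm_neg]
    gcongr
  have hQlow : ∀ q ∈ Q, 1 / Λ ≤ q := by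
    rintro q ⟨ϱ, T, hϱ, hT, rfl⟩
    have h1 := comb_lower hN mem comp trans speed hϱ.le hT
    rw [div_le_div_iff₀ hΛ hϱ]
    linarith
  have hQb : BddBelow Q := ⟨_, hQlow⟩
  set κ : ℝ := sInf Q with hκ
  have hκ0 : 0 < κ := lt_of_lt_of_le (by positivity) (le_csInf hQne hQlow)
  have hBdκ : ∀ r T, 0 ≤ r → comb_Bd Sd r T → κ * r ≤ T := by
    intro r T hr hT
    rcases eq_or_lt_of_le hr with h | h
    · rw [← h, mul_zero]; exact hT.1
    · have h1 : κ ≤ T / r := csInf_le hQb ⟨r, T, h, hT, rfl⟩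
      rwa [le_div_iff₀ h] at h1
  have hHoleκ : ∀ r H, 0 ≤ r → comb_Hole Sd ts r H → H ≤ κ * r := by
    intro r H hr hH
    have h0 : ∀ q ∈ Q, H ≤ r * q := by
      rintro q ⟨ϱ, T, hϱ, hT, rfl⟩
      exact comb_upper hN hΛ hts mono mem comp trans speed hr hH hϱ hT
    rcases eq_or_lt_of_le hr with h | h
    · obtain ⟨q, hq⟩ := hQne
      have := h0 q hq
      rw [← h, zero_mul] at this
      rw [← h, mul_zero]
      exact this
    · have h1 : H / r ≤ κ := le_csInf hQne fun q hq => by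
        rw [div_le_iff₀ h]
        have := h0 q hq
        linarith
      rwa [div_le_iff₀ h] at h1
  -- both times are close to `κ r`
  have hmain : ∀ r, 0 ≤ r → (∃ T, comb_Bd Sd r T ∧ T ≤ κ * r + C₁ * (1 + √r)) ∧
      ∃ H, comb_Hole Sd ts r H ∧ κ * r - C₁ * (1 + √r) ≤ H := by
    intro r hr
    obtain ⟨T, H, hT, hH, hTH⟩ := hscale r hr
    have h1 := hBdκ r T hr hT
    have h2 := hHoleκ r H hr hH
    exact ⟨⟨T, hT, by linarith⟩, ⟨H, hH, by linarith⟩⟩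
  set D : ℝ := Λ * (1 + ts) + 1 with hD
  have hD0 : 0 < D := by positivity
  refine ⟨κ, 2 * C₁ + κ * (D + 1) + 1, ts, hκ0, by positivity, hts, fun K hK => ?_⟩
  -- arrival times
  have hSd : ∀ p ∈ K, ∀ x t, 0 ≤ t → Sd {p} t x → Sd K t x := by
    intro p hp x t ht h
    have := comp K {p} 0 t x le_rfl ht (by rintro _ rfl; exact mem K _ hp) h
    rwa [zero_add] at this
  have hne : ∀ x, {t | 0 ≤ t ∧ Sd K t x}.Nonempty := by
    intro x
    obtain ⟨p, hp⟩ := hK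
    exact ⟨L * (1 + ‖p - x‖), by positivity, hSd p hp x _ (by positivity) (spread p x _ le_rfl)⟩
  have hbd : ∀ x, BddBelow {t | 0 ≤ t ∧ Sd K t x} := fun x => ⟨0, fun t ht => ht.1⟩
  have hτ0 : ∀ x, 0 ≤ tau Sd K x := fun x => le_csInf (hne x) fun t ht => ht.1
  have hτle : ∀ x t, 0 ≤ t → Sd K t x → tau Sd K x ≤ t := fun x t ht h => csInf_le (hbd x) ⟨ht, h⟩
  have hτlt : ∀ x t, tau Sd K x < t → Sd K t x := by
    intro x t ht
    obtain ⟨t', ht', hlt⟩ := exists_lt_of_csInf_lt (hne x) ht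
    exact mono K t' t x ht'.1 hlt.le ht'.2
  have hsq : ∀ r, 0 ≤ √r := fun r => Real.sqrt_nonneg r
  have hκD : 0 < κ * (D + 1) := by positivity
  have hbig : ∀ r, C₁ * (1 + √r) ≤ (2 * C₁ + κ * (D + 1) + 1) * (1 + √r) := by
    intro r
    have := hsq r
    gcongr
    linarith
  refine ⟨hτ0, fun x y => ?_, fun x r hr hx => ?_, fun x => ?_, fun x => ?_⟩
  · -- lip
    obtain ⟨⟨T, hT, hTle⟩, -⟩ := hmain ‖x - y‖ (norm_nonneg _)
    have h1 : Sd {x} T y := trans x y T (hT.2 _ (by rw [norm_sub_rev]))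
    have h2 : tau Sd K y ≤ tau Sd K x + T := by
      refine le_of_forall_pos_le_add fun e he => ?_
      have h3 : Sd K (tau Sd K x + e) x := hτlt x _ (by linarith)
      have h4 := comp K {x} (tau Sd K x + e) T y (by linarith [hτ0 x]) hT.1
        (by rintro _ rfl; exact h3) h1
      have h5 := hτle y _ (by linarith [hτ0 x, hT.1]) h4
      linarith
    linarith [hbig ‖x - y‖]
  · -- hole
    obtain ⟨-, H, hH, hHge⟩ := hmain r hr
    have hHle := hHoleκ r H hr hH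
    set t : ℝ := tau Sd K x - H + 1 with ht
    have htts : ts ≤ t := by linarith
    by_cases hex : ∃ y, ‖y - x‖ ≤ r ∧ Sd K t y
    · obtain ⟨y, hy, hS⟩ := hex
      refine ⟨y, by rwa [norm_sub_rev], ?_⟩
      have h1 := hτle y t (hts.trans htts) hS
      have h2 : C₁ * (1 + √r) + 1 ≤ (2 * C₁ + κ * (D + 1) + 1) * (1 + √r) := by
        have h3 : (2 * C₁ + κ * (D + 1) + 1) * (1 + √r) = C₁ * (1 + √r) + 1 +
          ((C₁ + κ * (D + 1)) * (1 + √r) + √r) := by ring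
        rw [h3]
        have : 0 ≤ (C₁ + κ * (D + 1)) * (1 + √r) := by
          have := hsq r
          positivity
        linarith [hsq r]
      linarith
    · exfalso
      push Not at hex
      have h1 := hH.2 K x t htts hex
      have e : t + H = tau Sd K x + 1 := by rw [ht]; ring
      rw [e] at h1
      exact h1 (hτlt x _ (by linarith))
  · -- lower
    set d : ℝ := Metric.infDist x K with hd
    have hd0 : 0 ≤ d := Metric.infDist_nonneg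
    have hκd : κ * D + C₁ * (1 + √d) ≤ (2 * C₁ + κ * (D + 1) + 1) * (1 + √d) := by
      have h3 : (2 * C₁ + κ * (D + 1) + 1) * (1 + √d) = κ * D + C₁ * (1 + √d) +
          (κ * D * √d + (C₁ + κ + 1) * (1 + √d)) := by ring
      rw [h3]
      have := hsq d
      have : 0 ≤ κ * D * √d + (C₁ + κ + 1) * (1 + √d) := by positivity
      linarith
    rcases lt_or_ge d D with hdD | hdD
    · have h1 : κ * d ≤ κ * D := mul_le_mul_of_nonneg_left hdD.le hκ0.le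
      have h2 : 0 ≤ C₁ * (1 + √d) := mul_nonneg hC₁ (by linarith [hsq d])
      linarith [hτ0 x]
    · obtain ⟨-, H, hH, hHge⟩ := hmain (d - D) (by linarith)
      have h1 := hH.2 K x ts le_rfl (by
        intro y hy hS
        obtain ⟨p, hp, hp2⟩ := speed K ts y hts hS
        have h2 : d ≤ dist x p := Metric.infDist_le_dist_of_mem hp
        rw [dist_eq_norm] at h2
        have h3 : ‖x - p‖ ≤ ‖y - x‖ + ‖y - p‖ := by
          have e : x - p = (y - p) - (y - x) := by abel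
          rw [e]
          exact (norm_sub_le _ _).trans (by linarith)
        linarith)
      have h2 : ts + H ≤ tau Sd K x := by
        by_contra hcon
        push Not at hcon
        exact h1 (hτlt x _ hcon)
      have h3 : √(d - D) ≤ √d := Real.sqrt_le_sqrt (by linarith)
      have h4 : C₁ * (1 + √(d - D)) ≤ C₁ * (1 + √d) := mul_le_mul_of_nonneg_left (by linarith) hC₁
      have h5 : κ * (d - D) = κ * d - κ * D := by ring
      linarith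
  · -- upper
    set d : ℝ := Metric.infDist x K with hd
    have hd0 : 0 ≤ d := Metric.infDist_nonneg
    obtain ⟨p, hp, hp2⟩ := (Metric.infDist_lt_iff hK).mp (show Metric.infDist x K < d + 1 by
      rw [← hd]; linarith)
    rw [dist_eq_norm] at hp2
    obtain ⟨⟨T, hT, hTle⟩, -⟩ := hmain (d + 1) (by linarith)
    have h1 : Sd {p} T x := trans p x T (hT.2 _ hp2.le)
    have h2 := hτle x T hT.1 (hSd p hp x T hT.1 h1)
    have h3 : √(d + 1) ≤ √d + 1 := by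
      rw [Real.sqrt_le_left (by linarith [hsq d])]
      have := Real.sq_sqrt hd0
      nlinarith [hsq d]
    have h4 : C₁ * (1 + √(d + 1)) ≤ C₁ * (1 + (√d + 1)) :=
      mul_le_mul_of_nonneg_left (by linarith) hC₁
    have h5 : κ + C₁ * (1 + (√d + 1)) ≤ (2 * C₁ + κ * (D + 1) + 1) * (1 + √d) := by
      have h6 : (2 * C₁ + κ * (D + 1) + 1) * (1 + √d) = κ + C₁ * (1 + (√d + 1)) +
          (C₁ * √d + κ * √d + (κ * D + 1) * (1 + √d)) := by ring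
      rw [h6]
      have := hsq d
      have : 0 ≤ C₁ * √d + κ * √d + (κ * D + 1) * (1 + √d) := by positivity
      linarith
    linarith

end

end Pool.Agent.AP157
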