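import Pool.Agent.AP157.Api

/-!
# Definitions for the asymptotic planarity theorem: entire solutions, seeds, arrival times
-/

set_option autoImplicit false

open MeasureTheory Real Set Filter Topology
open scoped ENNReal

namespace Pool.Agent.AP157

open Pool.Agent.X297.KP

noncomputable section

variable {N : ℕ} {f : ℝ → ℝ} {M : ℝ}

/-- Bistable-type nonlinearity: `f ≤ 0` on `[0, α]`, `f > 0` on `(α, 1)`, and `f` decreases at
rate at least `ω` on `[0, 2δ]` and on `[1 - 2δ, 1]`. -/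
structure Bst (f : ℝ → ℝ) (α δ ω : ℝ) : Prop where
  α_pos : 0 < α
  α_lt : α < 1
  nonpos : ∀ q ∈ Icc (0:ℝ) α, f q ≤ 0
  pos : ∀ q ∈ Ioo α (1:ℝ), 0 < f q
  δ_pos : 0 < δ
  δ_le : δ ≤ 1 / 8
  ω_pos : 0 < ω
  st0 : ∀ p q, 0 ≤ q → q ≤ p → p ≤ 2 * δ → f p - f q ≤ -(ω * (p - q))
  st1 : ∀ p q, 1 - 2 * δ ≤ q → q ≤ p → p ≤ 1 → f p - f q ≤ -(ω * (p - q))

/-- Entire solutions of the semiflow, with values in `[0,1]`. -/
structure Ent (f : ℝ → ℝ) (M : ℝ) (v : ℝ → E N → ℝ) : Prop where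
  dat : ∀ t, Dat (v t)
  flow : ∀ t s, 0 ≤ s → ∀ x, v (t + s) x = S f M s (v t) x

/-- The indicator function of the open ball of radius `ρ` centred at the origin. -/
def bb (N : ℕ) (ρ : ℝ) : E N → ℝ := (Metric.ball (0 : E N) ρ).indicator 1

/-- Invasion: the solution with datum `bb N ρ` converges to `1` locally uniformly. -/
def Inv (N : ℕ) (f : ℝ → ℝ) (M ρ : ℝ) : Prop :=
  ∀ R ε : ℝ, 0 < ε → ∃ T : ℝ, ∀ t, T ≤ t → ∀ x : E N, ‖x‖ ≤ R → 1 - ε ≤ S f M t (bb N ρ) x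

/-- There is a full seed at the point `x` at time `t` for the solution starting from `K`. -/
def Seed (z : Set (E N) → ℝ → E N → ℝ) (K : Set (E N)) (t : ℝ) (x : E N) : Prop :=
  ∀ y, z {x} 0 y ≤ z K t y

/-- The properties of the reference solutions `z K t`. -/
structure ZFam (f : ℝ → ℝ) (M : ℝ) (z : Set (E N) → ℝ → E N → ℝ) : Prop where
  nl : Nl f M
  dat : ∀ K t, Dat (z K t)
  flow : ∀ K s t, 0 ≤ s → 0 ≤ t → ∀ x, z K (s + t) x = S f M t (z K s) x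
  mono_t : ∀ K s t, 0 ≤ s → s ≤ t → ∀ x, z K s x ≤ z K t x
  of_mem : ∀ K y, y ∈ K → Seed z K 0 y
  comp : ∀ K K' s t, 0 ≤ s → 0 ≤ t → (∀ y ∈ K', Seed z K s y) → ∀ x, z K' t x ≤ z K (s + t) x
  trans : ∀ K h t x, z ((fun y => y + h) '' K) t (x + h) = z K t x
  iso : ∀ K (T : E N ≃ₗᵢ[ℝ] E N) t x, z (T '' K) t (T x) = z K t x
  fill : ∀ R ε : ℝ, 0 < ε → ∃ T, 0 ≤ T ∧ ∀ K x y t, y ∈ K → ‖x - y‖ ≤ R → T ≤ t →
    1 - ε ≤ z K t x
  spread : ∃ L, 0 < L ∧ ∀ x y t, L * (1 + ‖x - y‖) ≤ t → Seed z {x} t y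
  robust : ∃ ε₀ R₀ C, 0 < ε₀ ∧ 0 < R₀ ∧ 0 ≤ C ∧ ∀ w, Dat w → ∀ x,
    (∀ y, ‖y - x‖ ≤ R₀ → z {x} 0 y - ε₀ ≤ w y) → ∀ y, z {x} 0 y ≤ S f M C w y
  speed : ∃ Λ, 0 < Λ ∧ ∀ K t x, 0 ≤ t → Seed z K t x → ∃ y ∈ K, ‖x - y‖ ≤ Λ * (1 + t)
  near : ∀ t p : ℝ, 0 ≤ t → 0 < p → ∃ R, ∀ K x, p ≤ z K t x → ∃ y ∈ K, ‖x - y‖ ≤ R
  loc : ∃ C c, 0 < C ∧ 0 < c ∧ ∀ K K' x A, 0 ≤ A → (∀ p ∈ K, ‖p - x‖ ≤ A → p ∈ K') →
    ∀ y, ‖y - x‖ ≤ A / 2 → z K 0 y ≤ z K' 0 y + C * Real.exp (-(c * A ^ 2))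

/-- Planar seeds: at time `t` the solution starting from any closed half-space has a seed at every
point at distance at most `s` from the half-space. -/
def PS (z : Set (E N) → ℝ → E N → ℝ) (s t : ℝ) : Prop :=
  ∀ e : E N, ‖e‖ = 1 → ∀ (c : ℝ) (x : E N), inner ℝ x e ≤ c + s →
    Seed z {p : E N | inner ℝ p e ≤ c} t x

/-- The arrival time at `x` of the seeds starting from `K`. -/
def tau (Sd : Set (E N) → ℝ → E N → Prop) (K : Set (E N)) (x : E N) : ℝ :=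
  sInf {t | 0 ≤ t ∧ Sd K t x}

/-- Estimates for the arrival time from `K`. -/
structure Arr (κ C ts : ℝ) (K : Set (E N)) (τ : E N → ℝ) : Prop where
  nonneg : ∀ x, 0 ≤ τ x
  lip : ∀ x y, τ y ≤ τ x + κ * ‖x - y‖ + C * (1 + √‖x - y‖)
  hole : ∀ x r, 0 ≤ r → ts + κ * r ≤ τ x → ∃ y, ‖x - y‖ ≤ r ∧ τ y ≤ τ x - κ * r + C * (1 + √r)
  lower : ∀ x, κ * Metric.infDist x K - C * (1 + √(Metric.infDist x K)) ≤ τ x
  upper : ∀ x, τ x ≤ κ * Metric.infDist x K + C * (1 + √(Metric.infDist x K))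

/-! ### First consequences of the properties -/

variable {z : Set (E N) → ℝ → E N → ℝ}

theorem seed_self (x : E N) : Seed z {x} 0 x := fun _ => le_rfl

theorem ZFam.mono_K (Z : ZFam f M z) {K K' : Set (E N)} (h : K' ⊆ K) {t : ℝ} (ht : 0 ≤ t)
    (x : E N) : z K' t x ≤ z K t x := by
  have := Z.comp K K' 0 t le_rfl ht (fun y hy => Z.of_mem K y (h hy)) x
  rwa [zero_add] at this

theorem ZFam.seed_mono (Z : ZFam f M z) {K : Set (E N)} {s t : ℝ} {x : E N} (hs : 0 ≤ s)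
    (hst : s ≤ t) (h : Seed z K s x) : Seed z K t x :=
  fun y => (h y).trans (Z.mono_t K s t hs hst y)

theorem ZFam.seed_mono_K (Z : ZFam f M z) {K K' : Set (E N)} (h : K' ⊆ K) {t : ℝ} (ht : 0 ≤ t)
    {x : E N} (hx : Seed z K' t x) : Seed z K t x :=
  fun y => (hx y).trans (Z.mono_K h ht y)

theorem ZFam.seed_comp (Z : ZFam f M z) {K K' : Set (E N)} {s t : ℝ} {x : E N} (hs : 0 ≤ s)
    (ht : 0 ≤ t) (h : ∀ y ∈ K', Seed z K s y) (hx : Seed z K' t x) : Seed z K (s + t) x :=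
  fun y => (hx y).trans (Z.comp K K' s t hs ht h y)

theorem ZFam.seed_trans (Z : ZFam f M z) {K : Set (E N)} {t : ℝ} {x : E N} (h : E N)
    (hx : Seed z K t x) : Seed z ((fun y => y + h) '' K) t (x + h) := by
  intro y
  have h1 := Z.trans K h t (y - h)
  have h2 := Z.trans {x} h 0 (y - h)
  rw [image_singleton] at h2
  rw [sub_add_cancel] at h1 h2
  rw [h1, h2]
  exact hx _

theorem ZFam.seed_iso (Z : ZFam f M z) {K : Set (E N)} {t : ℝ} {x : E N} (T : E N ≃ₗᵢ[ℝ] E N)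
    (hx : Seed z K t x) : Seed z (T '' K) t (T x) := by
  intro y
  have h1 := Z.iso K T t (T.symm y)
  have h2 := Z.iso {x} T 0 (T.symm y)
  rw [image_singleton] at h2
  rw [T.apply_symm_apply] at h1 h2
  rw [h1, h2]
  exact hx _

/-- Quasi-translation: moving by `h` costs at most the time `L (1 + ‖h‖)`. -/
theorem ZFam.shift (Z : ZFam f M z) : ∃ L, 0 < L ∧ ∀ K t (h : E N) T x, 0 ≤ t →
    L * (1 + ‖h‖) ≤ T → z K t (x - h) ≤ z K (t + T) x := by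
  obtain ⟨L, hL, hs⟩ := Z.spread
  refine ⟨L, hL, fun K t h T x ht hT => ?_⟩
  have hT0 : 0 ≤ T := le_trans (by positivity) hT
  have h1 := Z.trans K h t (x - h)
  rw [sub_add_cancel] at h1
  rw [← h1, add_comm t T]
  apply Z.comp _ _ _ _ hT0 ht
  rintro _ ⟨y, hy, rfl⟩
  have h2 : Seed z {y} T (y + h) := hs y (y + h) T (by simpa using hT)
  exact Z.seed_mono_K (singleton_subset_iff.mpr hy) hT0 h2

theorem exists_iso {e e' : E N} (h : ‖e‖ = 1) (h' : ‖e'‖ = 1) :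
    ∃ T : E N ≃ₗᵢ[ℝ] E N, T e = e' := by
  refine ⟨Submodule.reflection (ℝ ∙ (e - e'))ᗮ, ?_⟩
  exact Submodule.reflection_sub (by rw [h, h'])

/-- A planar seed in one direction gives planar seeds in all directions. -/
theorem ZFam.ps_of (Z : ZFam f M z) {e : E N} (he : ‖e‖ = 1) {c s t : ℝ} {x : E N} (ht : 0 ≤ t)
    (hx : c + s ≤ inner ℝ x e) (h : Seed z {p : E N | inner ℝ p e ≤ c} t x) : PS z s t := by
  intro e' he' c' x' hx'
  obtain ⟨T, hT⟩ := exists_iso he he'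
  have h1 := Z.seed_iso T h
  have h2 := Z.seed_trans (x' - T x) h1
  rw [add_sub_cancel] at h2
  refine Z.seed_mono_K ?_ ht h2
  rintro _ ⟨_, ⟨p, hp, rfl⟩, rfl⟩
  simp only [mem_ofPred_eq] at hp ⊢
  have e1 : inner ℝ (T p) e' = inner ℝ p e := by rw [← hT, T.inner_map_map]
  have e2 : inner ℝ (T x) e' = inner ℝ x e := by rw [← hT, T.inner_map_map]
  rw [inner_add_left, inner_sub_left, e1, e2]
  linarith

/-- Planar seeds at a larger distance. -/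
theorem ZFam.ps_shift (Z : ZFam f M z) : ∃ L, 0 < L ∧ ∀ s t c, 0 ≤ t → 0 ≤ c → PS z s t →
    PS z (s + c) (t + L * (1 + c)) := by
  obtain ⟨L, hL, hs⟩ := Z.spread
  refine ⟨L, hL, fun s t c ht hc h e he c' x hx => ?_⟩
  have h1 : Seed z {p : E N | inner ℝ p e ≤ c'} t (x - c • e) := by
    apply h e he
    rw [inner_sub_left, inner_smul_left, real_inner_self_eq_norm_sq, he]
    simp
    linarith
  apply Z.seed_comp (K' := {x - c • e}) ht (by positivity)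
  · rintro _ rfl
    exact h1
  · apply hs
    rw [sub_sub_cancel_left, norm_neg, norm_smul, he, mul_one, Real.norm_eq_abs, abs_of_nonneg hc]

/-- Planar seeds have arrived at distance `s` at time `L (1 + s)`. -/
theorem ZFam.ps_hi (Z : ZFam f M z) : ∃ L, 0 < L ∧ ∀ s t, 0 ≤ s → L * (1 + s) ≤ t →
    PS z s t := by
  obtain ⟨L, hL, hs⟩ := Z.spread
  refine ⟨L, hL, fun s t hs0 ht e he c x hx => ?_⟩
  have h0 : Seed z {p : E N | inner ℝ p e ≤ c} 0 (x - s • e) := by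
    apply Z.of_mem
    simp only [mem_ofPred_eq]
    rw [inner_sub_left, inner_smul_left, real_inner_self_eq_norm_sq, he]
    simp
    linarith
  have ht0 : 0 ≤ t := le_trans (by positivity) ht
  rw [← zero_add t]
  apply Z.seed_comp (K' := {x - s • e}) le_rfl ht0
  · rintro _ rfl
    exact h0
  · apply hs
    rw [sub_sub_cancel_left, norm_neg, norm_smul, he, mul_one, Real.norm_eq_abs, abs_of_nonneg hs0]
    exact ht

/-- Finite speed for planar seeds. -/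
theorem ZFam.ps_lo (hN : 0 < N) (Z : ZFam f M z) : ∃ Λ, 0 < Λ ∧ ∀ s t, 0 ≤ t → PS z s t →
    s ≤ Λ * (1 + t) := by
  obtain ⟨Λ, hΛ, hs⟩ := Z.speed
  refine ⟨Λ, hΛ, fun s t ht h => ?_⟩
  set e : E N := EuclideanSpace.single (⟨0, hN⟩ : Fin N) (1:ℝ) with he
  have he1 : ‖e‖ = 1 := by simp [he]
  have h1 := h e he1 0 (s • e) (by
    rw [inner_smul_left, real_inner_self_eq_norm_sq, he1]; simp)
  obtain ⟨y, hy, hy2⟩ := hs _ _ _ ht h1
  simp only [mem_ofPred_eq] at hy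
  have h2 : inner ℝ (s • e - y) e ≤ ‖s • e - y‖ * ‖e‖ := real_inner_le_norm _ _
  rw [inner_sub_left, inner_smul_left, real_inner_self_eq_norm_sq, he1] at h2
  simp at h2
  linarith

end

end Pool.Agent.AP157
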