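import Pool.Agent.AP157.Prob

/-!
# Directions in which the initial set is seen from far away
-/

set_option autoImplicit false

open MeasureTheory Real Set Filter Topology
open scoped ENNReal

namespace Pool.Agent.AP157

open Pool.Agent.X297.KP

noncomputable section

variable {N : ℕ}

/-- All the near-minimisers of the distance to `K` are seen from the points near `x` in the
direction `-e`. -/
def Qdir (K : Set (E N)) (e : E N) (C : ℝ) (x : E N) : Prop :=
  C ≤ Metric.infDist x K ∧ ∀ x', ‖x' - x‖ ≤ C → ∀ ξ ∈ K,
    ‖x' - ξ‖ ≤ Metric.infDist x' K + C * √(Metric.infDist x' K) + C →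
    ‖(Metric.infDist x' K)⁻¹ • (x' - ξ) - e‖ ≤ 1 / C

end

end Pool.Agent.AP157
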