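import Pool.Agent.AP157.Defs
import Pool.Agent.AP157.Geom

/-!
# Consequences of the condition on the opening function

Pure geometry.  Let Dx = infDist x U, d x = infDist x K; Dx ≤ d x ≤ Dx + H (K ⊆ U, hH).  F is NeBot and d (x i) → ∞, so N ≥ 1 automatically.
(1) From CondC: for every ε > 0 there is R₁ such that for all x with D x = R ≥ R₁, all ξ ∈ closure U with dist x ξ = R and all y ∈ U, y ≠ ξ: ⟪x-ξ, y-ξ⟫ ≤ ε R ‖y-ξ‖ (and trivially for y = ξ).
(2) Nearest points exist (closure U closed and nonempty, E N proper: `IsClosed.exists_infDist_eq_dist`, infDist_closure).  If ξ is a nearest point of x, D x = R ≥ R₁, y ∈ U and ‖x-y‖ ≤ R+a then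
‖y-ξ‖² = ‖x-y‖² - R² + 2⟪x-ξ,y-ξ⟫ ≤ 2aR+a²+2εR‖y-ξ‖, so ‖y-ξ‖ ≤ 2εR+√(2aR+a²).
(3) Let e_i = (x_i-ξ_i)/R_i for a nearest point ξ_i of x_i (R_i = D (x_i) > 0 for F-a.a. i).  The unit sphere is compact, so e_i → e along the ultrafilter F, ‖e‖ = 1.
(4) Given C > 0: if ‖x'-x_i‖ ≤ C and ξ ∈ K, ‖x'-ξ‖ ≤ d x' + C√(d x') + C, then ‖x_i-ξ‖ ≤ D(x_i) + a with a = H + 4C + C√(d(x_i)+C) or so = o(R_i), so by (2) ‖ξ-ξ_i‖ ≤ (2ε+o(1))R_i and
(x'-ξ)/d x' is close to (x_i-ξ_i)/R_i = e_i (|d x' - R_i| ≤ H + C, ‖x'-x_i‖ ≤ C), which is close to e.  ε is arbitrary, so the difference is ≤ 1/C for F-a.a. i.  Also C ≤ d (x_i) for F-a.a. i.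
-/

set_option autoImplicit false

open MeasureTheory Real Set Filter Topology
open scoped ENNReal

namespace Pool.Agent.AP157

open Pool.Agent.X297.KP

noncomputable section

variable {N : ℕ} {f : ℝ → ℝ} {M : ℝ} {z : Set (E N) → ℝ → E N → ℝ} {α δ ω : ℝ}

theorem dir_nearest {U : Set (E N)} (hU : U.Nonempty) (x : E N) : ∃ ξ, ξ ∈ nearest U x := by
  obtain ⟨ξ, h1, h2⟩ := isClosed_closure.exists_infDist_eq_dist hU.closure x
  exact ⟨ξ, h1, by rw [← h2, Metric.infDist_closure]⟩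

theorem dir_open {U : Set (E N)} (hC : CondC U) {ε : ℝ} (hε : 0 < ε) :
    ∃ R₁ : ℝ, 0 < R₁ ∧ ∀ x, R₁ ≤ Metric.infDist x U → ∀ ξ ∈ nearest U x, ∀ y ∈ U,
      inner ℝ (x - ξ) (y - ξ) ≤ ε * Metric.infDist x U * ‖y - ξ‖ := by
  obtain ⟨L, hL, hT⟩ := hC
  have hlt : L < ((ε : ℝ) : EReal) := lt_of_le_of_lt hL (by exact_mod_cast hε)
  have hev := hT.eventually (eventually_lt_nhds hlt)
  obtain ⟨R₁, hR₁⟩ := (hev.and (eventually_ge_atTop 1)).exists_forall_of_atTop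
  refine ⟨max R₁ 1, by positivity, ?_⟩
  intro x hx ξ hξ y hy
  have hR : 1 ≤ Metric.infDist x U := le_trans (le_max_right _ _) hx
  have h1 := (hR₁ (Metric.infDist x U) (le_trans (le_max_left _ _) hx)).1
  by_cases hyξ : y = ξ
  · subst hyξ
    simp
  have h2 : opening U x < ((ε : ℝ) : EReal) := by
    refine lt_of_le_of_lt ?_ h1
    exact le_iSup₂_of_le x rfl le_rfl
  have h3 : ((inner ℝ (‖x - ξ‖⁻¹ • (x - ξ)) (‖y - ξ‖⁻¹ • (y - ξ)) : ℝ) : EReal)
      ≤ opening U x := by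
    refine le_iSup₂_of_le ξ hξ ?_
    exact le_iSup₂_of_le y ⟨hy, by simpa using hyξ⟩ le_rfl
  have h4 : (inner ℝ (‖x - ξ‖⁻¹ • (x - ξ)) (‖y - ξ‖⁻¹ • (y - ξ)) : ℝ) < ε := by
    exact_mod_cast lt_of_le_of_lt h3 h2
  have h5 : ‖x - ξ‖ = Metric.infDist x U := by rw [← dist_eq_norm]; exact hξ.2
  have h6 : 0 < ‖y - ξ‖ := norm_pos_iff.2 (sub_ne_zero.2 hyξ)
  rw [real_inner_smul_left, real_inner_smul_right, h5] at h4
  have h7 : 0 < Metric.infDist x U := by linarith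
  have h8 : (Metric.infDist x U)⁻¹ * (‖y - ξ‖⁻¹ * inner ℝ (x - ξ) (y - ξ))
      = inner ℝ (x - ξ) (y - ξ) / (Metric.infDist x U * ‖y - ξ‖) := by
    field_simp
  rw [h8, div_lt_iff₀ (by positivity)] at h4
  linarith

theorem dir_close {U : Set (E N)} (hC : CondC U) {η : ℝ} (hη : 0 < η) (hη1 : η ≤ 1) :
    ∃ R₁ : ℝ, 0 < R₁ ∧ ∀ x, R₁ ≤ Metric.infDist x U → ∀ ξ ∈ nearest U x, ∀ y ∈ U,
      ‖x - y‖ ≤ Metric.infDist x U + η ^ 2 / 5 * Metric.infDist x U →
      ‖y - ξ‖ ≤ η * Metric.infDist x U := by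
  have hε : 0 < η ^ 2 / 5 := by positivity
  obtain ⟨R₁, hR₁, h⟩ := dir_open hC hε
  refine ⟨R₁, hR₁, fun x hx ξ hξ y hy hxy => ?_⟩
  have h1 := h x hx ξ hξ y hy
  set R := Metric.infDist x U with hRdef
  have hR : 0 < R := lt_of_lt_of_le hR₁ hx
  have h5 : ‖x - ξ‖ = R := by rw [← dist_eq_norm]; exact hξ.2
  have h6 : ‖x - y‖ ^ 2 = ‖x - ξ‖ ^ 2 - 2 * inner ℝ (x - ξ) (y - ξ) + ‖y - ξ‖ ^ 2 := by
    have : x - y = (x - ξ) - (y - ξ) := by abel
    rw [this, norm_sub_sq_real]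
  by_contra hcon
  push Not at hcon
  set t := ‖y - ξ‖ with ht
  have h7 : ‖x - y‖ ^ 2 ≤ (R + η ^ 2 / 5 * R) ^ 2 := by
    apply pow_le_pow_left₀ (norm_nonneg _) hxy
  have ht0 : 0 < t := lt_trans (by positivity) hcon
  -- t² ≤ (2 a R + a²) + 2 ε R t, a = ε R, ε = η²/5 ≤ 1
  have h8 : t ^ 2 ≤ 3 * (η ^ 2 / 5) * R ^ 2 + 2 * (η ^ 2 / 5) * R * t := by
    have e1 : (η ^ 2 / 5) ^ 2 ≤ η ^ 2 / 5 := by
      have : η ^ 2 ≤ 1 := pow_le_one₀ hη.le hη1
      nlinarith [sq_nonneg η]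
    have e2 : (η ^ 2 / 5) ^ 2 * R ^ 2 ≤ η ^ 2 / 5 * R ^ 2 :=
      mul_le_mul_of_nonneg_right e1 (sq_nonneg _)
    rw [h5] at h6
    nlinarith
  have h9 : η ^ 2 * R ^ 2 < η * R * t := by nlinarith [mul_pos hη hR]
  have h10 : η * R * t < t ^ 2 := by nlinarith
  have h11 : η ^ 2 * R * t ≤ η * R * t := by
    have : η ^ 2 ≤ η := by nlinarith
    have := mul_le_mul_of_nonneg_right this (mul_pos hR ht0).le
    linarith
  nlinarith

theorem dir_vec {x x' ξ ξ0 e : E N} {R d C H η s : ℝ} (hR : 0 < R) (hd : 1 ≤ d) (hC : 0 ≤ C)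
    (hH : 0 ≤ H) (h1 : |d - R| ≤ H + C)
    (hξ : ‖x' - ξ‖ ≤ d + C * √d + C) (hxx' : ‖x' - x‖ ≤ C) (hη : ‖ξ - ξ0‖ ≤ η * R)
    (he : ‖R⁻¹ • (x - ξ0) - e‖ ≤ s) :
    ‖d⁻¹ • (x' - ξ) - e‖ ≤ (H + C) * (1 + 2 * C) / R + (C / R + η) + s := by
  have hd0 : 0 < d := by linarith
  have e1 : d⁻¹ • (x' - ξ) - e = (d⁻¹ - R⁻¹) • (x' - ξ) + R⁻¹ • ((x' - x) - (ξ - ξ0))
      + (R⁻¹ • (x - ξ0) - e) := by
    rw [sub_smul]
    have : (x' - x) - (ξ - ξ0) = (x' - ξ) - (x - ξ0) := by abel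
    rw [this, smul_sub R⁻¹ (x' - ξ)]
    abel
  rw [e1]
  refine (norm_add_le _ _).trans (add_le_add ((norm_add_le _ _).trans (add_le_add ?_ ?_)) he)
  · rw [norm_smul, Real.norm_eq_abs]
    have e2 : |d⁻¹ - R⁻¹| = |d - R| / (R * d) := by
      rw [inv_sub_inv hd0.ne' hR.ne', abs_div, abs_of_pos (mul_pos hd0 hR), abs_sub_comm, mul_comm]
    have e3 : √d ≤ d := by
      rw [Real.sqrt_le_left hd0.le]; nlinarith
    have e4 : ‖x' - ξ‖ ≤ d * (1 + 2 * C) := by nlinarith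
    rw [e2]
    calc |d - R| / (R * d) * ‖x' - ξ‖ ≤ (H + C) / (R * d) * (d * (1 + 2 * C)) := by
          apply mul_le_mul _ e4 (norm_nonneg _) (by positivity)
          exact div_le_div_of_nonneg_right h1 (by positivity)
      _ = (H + C) * (1 + 2 * C) / R := by field_simp
  · rw [norm_smul, Real.norm_eq_abs, abs_of_pos (inv_pos.2 hR)]
    have e5 : ‖x' - x - (ξ - ξ0)‖ ≤ C + η * R := (norm_sub_le _ _).trans (add_le_add hxx' hη)
    calc R⁻¹ * ‖x' - x - (ξ - ξ0)‖ ≤ R⁻¹ * (C + η * R) :=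
          mul_le_mul_of_nonneg_left e5 (inv_pos.2 hR).le
      _ = C / R + η := by field_simp

theorem dir {U : Set (E N)} (hC : CondC U) {K : Set (E N)} (hKU : K ⊆ U) {H : ℝ}
    (hH : ∀ x ∈ U, ∃ y ∈ K, dist x y ≤ H) (hK : K.Nonempty) {ι : Type*} (F : Ultrafilter ι)
    (x : ι → E N) (hx : Tendsto (fun i => Metric.infDist (x i) K) F atTop) :
    ∃ e : E N, ‖e‖ = 1 ∧ ∀ C : ℝ, 0 < C → ∀ᶠ i in (F : Filter ι), Qdir K e C (x i) := by
  have hU : U.Nonempty := hK.mono hKU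
  have hH0 : 0 ≤ H := by
    obtain ⟨u, hu⟩ := hU
    obtain ⟨y, -, hy⟩ := hH u hu
    exact dist_nonneg.trans hy
  have hDd : ∀ y : E N, Metric.infDist y U ≤ Metric.infDist y K := fun y =>
    Metric.infDist_le_infDist_of_subset hKU hK
  have hdD : ∀ y : E N, Metric.infDist y K ≤ Metric.infDist y U + H := by
    intro y
    have : Metric.infDist y K - H ≤ Metric.infDist y U := by
      rw [Metric.le_infDist hU]
      intro u hu
      obtain ⟨w, hw, hw'⟩ := hH u hu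
      have h1 := Metric.infDist_le_dist_of_mem (x := y) hw
      have h2 := dist_triangle y u w
      linarith
    linarith
  have hDT : Tendsto (fun i => Metric.infDist (x i) U) F atTop := by
    refine tendsto_atTop_mono (f := fun i => Metric.infDist (x i) K - H) (fun i => ?_) ?_
    · have := hdD (x i); linarith
    · exact tendsto_atTop_add_const_right _ _ hx
  choose ξ₀ hξ₀ using fun i => dir_nearest hU (x i)
  set ev : ι → E N := fun i => (Metric.infDist (x i) U)⁻¹ • (x i - ξ₀ i) with hev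
  have hsph : ∀ᶠ i in (F : Filter ι), ev i ∈ Metric.sphere (0 : E N) 1 := by
    filter_upwards [hDT.eventually (eventually_gt_atTop 0)] with i hi
    rw [mem_sphere_zero_iff_norm, hev]
    simp only
    rw [norm_smul, norm_inv, Real.norm_eq_abs, abs_of_pos hi]
    have h5 : ‖x i - ξ₀ i‖ = Metric.infDist (x i) U := by rw [← dist_eq_norm]; exact (hξ₀ i).2
    rw [h5, inv_mul_cancel₀ hi.ne']
  obtain ⟨e, he1, he2⟩ := (isCompact_sphere (0 : E N) 1).ultrafilter_le_nhds (F.map ev)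
    (by rw [le_principal_iff]; exact hsph)
  refine ⟨e, by simpa using he1, fun C hC0 => ?_⟩
  set η : ℝ := min 1 (1 / (4 * C)) with hη
  have hη0 : 0 < η := by positivity
  have hη1 : η ≤ 1 := min_le_left _ _
  have hηC : η ≤ 1 / (4 * C) := min_le_right _ _
  obtain ⟨R₁, hR₁, hclose⟩ := dir_close hC hη0 hη1
  set c : ℝ := η ^ 2 / 5 with hc
  have hc0 : 0 < c := by positivity
  have hevC : ∀ᶠ i in (F : Filter ι), ‖ev i - e‖ ≤ 1 / (4 * C) := by
    have h1 : Metric.closedBall e (1 / (4 * C)) ∈ 𝓝 e :=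
      Metric.closedBall_mem_nhds _ (by positivity)
    have h2 := he2 h1
    filter_upwards [show ∀ᶠ i in (F : Filter ι), ev i ∈ Metric.closedBall e (1 / (4 * C)) from h2]
      with i hi
    rw [← dist_eq_norm]
    exact hi
  filter_upwards [hevC, hDT.eventually (eventually_ge_atTop R₁),
    hDT.eventually (eventually_ge_atTop (C + 1)),
    hDT.eventually (eventually_ge_atTop ((H + C) + (C ^ 2 / (2 * c) + 3 * C + H) / (c / 2))),
    hDT.eventually (eventually_ge_atTop (4 * C * ((H + C) * (1 + 2 * C)))),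
    hDT.eventually (eventually_ge_atTop (4 * C * C))] with i g1 g2 g3 g4 g5 g6
  set R := Metric.infDist (x i) U with hR
  have hR0 : 0 < R := lt_of_lt_of_le hR₁ g2
  have k1 := hDd (x i)
  have k2 := hdD (x i)
  refine ⟨by linarith, fun x' hx' ξ hξK hξ => ?_⟩
  have k3 : Metric.infDist (x i) K ≤ Metric.infDist x' K + C := by
    have := Metric.infDist_le_infDist_add_dist (s := K) (x := x i) (y := x')
    have h3 : dist (x i) x' ≤ C := by rw [dist_comm, dist_eq_norm]; exact hx'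
    linarith
  have k4 : Metric.infDist x' K ≤ Metric.infDist (x i) K + C := by
    have := Metric.infDist_le_infDist_add_dist (s := K) (x := x') (y := x i)
    have h3 : dist x' (x i) ≤ C := by rw [dist_eq_norm]; exact hx'
    linarith
  set d := Metric.infDist x' K with hd
  have k5 : 1 ≤ d := by linarith
  have k6 : |d - R| ≤ H + C := by
    rw [abs_le]; constructor <;> linarith
  have k7 : C * √d ≤ c / 2 * d + C ^ 2 / (2 * c) := by
    have hs : √d ^ 2 = d := Real.sq_sqrt (by linarith)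
    have : 0 ≤ (c * √d - C) ^ 2 / (2 * c) := by positivity
    have e : (c * √d - C) ^ 2 / (2 * c) = c / 2 * √d ^ 2 - C * √d + C ^ 2 / (2 * c) := by
      field_simp
      ring
    rw [e, hs] at this
    linarith
  have k8 : ‖x i - ξ‖ ≤ R + c * R := by
    have t1 : ‖x i - ξ‖ ≤ ‖x' - x i‖ + ‖x' - ξ‖ := by
      have : x i - ξ = (x' - ξ) - (x' - x i) := by abel
      rw [this]
      have := norm_sub_le (x' - ξ) (x' - x i)
      linarith
    have t2 : C ^ 2 / (2 * c) + 3 * C + H ≤ c / 2 * (R - (H + C)) := by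
      have : (C ^ 2 / (2 * c) + 3 * C + H) / (c / 2) ≤ R - (H + C) := by linarith
      rw [div_le_iff₀ (by positivity)] at this
      linarith
    have t3 : c / 2 * d ≤ c / 2 * (R + H + C) := by
      apply mul_le_mul_of_nonneg_left _ (by positivity)
      linarith
    nlinarith
  have k9 : ‖ξ - ξ₀ i‖ ≤ η * R := hclose (x i) g2 (ξ₀ i) (hξ₀ i) ξ (hKU hξK) k8
  have k10 := dir_vec hR0 k5 hC0.le hH0 k6 hξ hx' k9 g1
  refine k10.trans ?_
  have m1 : (H + C) * (1 + 2 * C) / R ≤ 1 / (4 * C) := by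
    rw [div_le_div_iff₀ hR0 (by positivity)]
    linarith
  have m2 : C / R ≤ 1 / (4 * C) := by
    rw [div_le_div_iff₀ hR0 (by positivity)]
    linarith
  have m3 : 1 / C = 1 / (4 * C) + (1 / (4 * C) + 1 / (4 * C)) + 1 / (4 * C) := by
    field_simp; norm_num
  rw [m3]
  linarith

end

end Pool.Agent.AP157
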