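import Pool.Agent.AP157.Defs
import Pool.Agent.AP157.Kern
import Pool.Agent.AP157.Reg

/-!
# Touching and comparison of entire solutions

Hints.  ent_touch: for t < t₀ put s = t₀ - t > 0; by S_pos `e^{-Ms} P s (b t - a t) x₀ ≤ b t₀ x₀ - a t₀ x₀ = 0`, so the integral of
the continuous nonnegative function `heatK s (x₀-y) (b t y - a t y)` vanishes, and `heatK s > 0`: `b t = a t` (continuity of `a t`,
`b t` from ent_reg; `Continuous.integral_pos_of_hasCompactSupport_nonneg_nonzero` is not needed: use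
`integral_eq_zero_iff_of_nonneg` and `Continuous.ae_eq_iff_eq`).  For t ≥ t₀ use the flow property from time t₀ - 1.
ent_comp: let `m = sup_{t,x} (a t x - b t x)^+ ∈ [0,1]`.  Wherever `a > b` we have (the two values are in the same stable zone, by
hypothesis and B.st0 / B.st1) `Fe a - Fe b = f a - f b + M (a-b) ≤ (M-ω)(a-b) ≤ (M-ω) m`; elsewhere `Fe a - Fe b ≤ 0` (Fe_mono).
(Note ω ≤ M by comparing B.st0 with the Lipschitz bound, so (M-ω) m ≥ 0.)  By duh_bound on the interval [t, t+1] (with W = ∅):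
`a (t+1) x - b (t+1) x ≤ e^{-M} m + (M-ω) m (1-e^{-M})/M = m (1 - (ω/M)(1-e^{-M}))` for all t, x; so `m ≤ θ m`, θ < 1, `m = 0`.
-/

set_option autoImplicit false

open MeasureTheory Real Set Filter Topology
open scoped ENNReal

namespace Pool.Agent.AP157

open Pool.Agent.X297.KP

noncomputable section

variable {N : ℕ} {f : ℝ → ℝ} {M : ℝ} {z : Set (E N) → ℝ → E N → ℝ} {α δ ω : ℝ}

/-! ## auxiliary -/

theorem entc_heatK_pos {t : ℝ} (ht : 0 < t) (x : E N) : 0 < heatK t x := by
  unfold heatK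
  have : 0 < 4 * π * t := by positivity
  positivity

theorem entc_cont (hf : Nl f M) {v : ℝ → E N → ℝ} (hv : Ent f M v) (t : ℝ) :
    Continuous (v t) := by
  obtain ⟨L, hL, h⟩ := ent_reg N hf
  have h1 := (h v hv).1 t
  have : LipschitzWith (Real.toNNReal L) (v t) := by
    apply LipschitzWith.of_dist_le_mul
    intro x y
    rw [Real.dist_eq, dist_eq_norm, Real.coe_toNNReal L hL.le]
    exact h1 x y
  exact this.continuous

theorem entc_before (hf : Nl f M) {a b : ℝ → E N → ℝ} (ha : Ent f M a) (hb : Ent f M b)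
    (h : ∀ t x, a t x ≤ b t x) {t₀ : ℝ} {x₀ : E N} (h0 : a t₀ x₀ = b t₀ x₀) {t : ℝ} (ht : t < t₀) :
    a t = b t := by
  have hs : 0 < t₀ - t := by linarith
  have ea := ha.flow t (t₀ - t) hs.le x₀
  have eb := hb.flow t (t₀ - t) hs.le x₀
  rw [add_sub_cancel] at ea eb
  have h1 := S_pos hf (ha.dat t) (hb.dat t) (h t) hs x₀
  rw [← ea, ← eb, h0, sub_self] at h1
  have h2 : 0 ≤ P (t₀ - t) (fun y => b t y - a t y) x₀ :=
    P_nonneg hs (fun y => by linarith [h t y]) x₀
  have h3 : P (t₀ - t) (fun y => b t y - a t y) x₀ = 0 := by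
    apply le_antisymm _ h2
    by_contra hcon
    push Not at hcon
    have := mul_pos (Real.exp_pos (-(M * (t₀ - t)))) hcon
    linarith
  have hint : Integrable (fun y => heatK (t₀ - t) (x₀ - y) * (b t y - a t y)) := by
    apply P_int hs ((hb.dat t).meas.sub (ha.dat t).meas) (C := 1)
    intro y
    rw [Pi.sub_apply, abs_le]
    constructor <;> linarith [((ha.dat t).mem y).1, ((ha.dat t).mem y).2, ((hb.dat t).mem y).1,
      ((hb.dat t).mem y).2]
  unfold P at h3
  rw [integral_eq_zero_iff_of_nonneg (fun y => mul_nonneg (heatK_nonneg hs _)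
    (by linarith [h t y])) hint] at h3
  have hc : Continuous (fun y => heatK (t₀ - t) (x₀ - y) * (b t y - a t y)) := by
    have h5 := entc_cont hf ha t
    have h6 := entc_cont hf hb t
    have h7 := heatK_cont (N := N) (t := t₀ - t)
    fun_prop
  have h4 : (fun y => heatK (t₀ - t) (x₀ - y) * (b t y - a t y)) = (fun _ => (0:ℝ)) :=
    Continuous.ae_eq_iff_eq volume hc continuous_const |>.mp h3
  funext y
  have h5 : heatK (t₀ - t) (x₀ - y) * (b t y - a t y) = 0 := congrFun h4 y
  rcases mul_eq_zero.mp h5 with h6 | h6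
  · exact absurd h6 (entc_heatK_pos hs _).ne'
  · linarith

theorem ent_touch (hf : Nl f M) {a b : ℝ → E N → ℝ} (ha : Ent f M a) (hb : Ent f M b)
    (h : ∀ t x, a t x ≤ b t x) {t₀ : ℝ} {x₀ : E N} (h0 : a t₀ x₀ = b t₀ x₀) :
    ∀ t x, a t x = b t x := by
  intro t x
  by_cases ht : t < t₀
  · rw [entc_before hf ha hb h h0 ht]
  · push Not at ht
    have h1 : a (t₀ - 1) = b (t₀ - 1) := entc_before hf ha hb h h0 (by linarith)
    have ea := ha.flow (t₀ - 1) (t - (t₀ - 1)) (by linarith) x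
    have eb := hb.flow (t₀ - 1) (t - (t₀ - 1)) (by linarith) x
    rw [add_sub_cancel] at ea eb
    rw [ea, eb, h1]

theorem entc_step (hf : Nl f M) (B : Bst f α δ ω) {a b : ℝ → E N → ℝ} (ha : Ent f M a)
    (hb : Ent f M b)
    (h : ∀ t x, b t x < a t x → a t x ≤ 2 * δ ∨ 1 - 2 * δ ≤ b t x) (hω : ω ≤ M) {m : ℝ} (hm : 0 ≤ m)
    (hab : ∀ t x, a t x - b t x ≤ m) :
    ∀ t x, a t x - b t x ≤ m * (1 - ω / M * (1 - Real.exp (-M))) := by
  intro t x
  have hM := hf.pos
  have ea := ha.flow (t - 1) 1 zero_le_one x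
  have eb := hb.flow (t - 1) 1 zero_le_one x
  rw [sub_add_cancel] at ea eb
  have key := duh_bound hf (ha.dat (t - 1)) (hb.dat (t - 1)) one_pos x (q := m)
    (b1 := (M - ω) * m) (b2 := 0) (τ := 0) (hab (t - 1)) (W := ∅) MeasurableSet.empty le_rfl
    (by
      intro s hs y
      rw [← ha.flow (t - 1) s hs.1.le y, ← hb.flow (t - 1) s hs.1.le y, zero_mul, add_zero]
      have hA := (ha.dat (t - 1 + s)).mem y
      have hB := (hb.dat (t - 1 + s)).mem y
      have hnn : 0 ≤ (M - ω) * m := mul_nonneg (by linarith) hm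
      by_cases hlt : b (t - 1 + s) y < a (t - 1 + s) y
      · have hf' : f (a (t - 1 + s) y) - f (b (t - 1 + s) y) ≤
            -(ω * (a (t - 1 + s) y - b (t - 1 + s) y)) := by
          rcases h _ _ hlt with h1 | h1
          · exact B.st0 _ _ hB.1 hlt.le h1
          · exact B.st1 _ _ h1 hlt.le hA.2
        rw [Fe_eq hA, Fe_eq hB]
        have h2 : (M - ω) * (a (t - 1 + s) y - b (t - 1 + s) y) ≤ (M - ω) * m :=
          mul_le_mul_of_nonneg_left (hab _ _) (by linarith)
        linarith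
      · have := Fe_mono hf (not_lt.mp hlt)
        linarith)
    (by
      intro r hr
      rw [Set.indicator_empty]
      have := P_const hr.1 0 x
      unfold P at this ⊢
      simp)
  rw [← ea, ← eb] at key
  refine key.trans (le_of_eq ?_)
  rw [mul_one]
  field_simp
  ring

theorem ent_comp (hf : Nl f M) (B : Bst f α δ ω) {a b : ℝ → E N → ℝ} (ha : Ent f M a)
    (hb : Ent f M b)
    (h : ∀ t x, b t x < a t x → a t x ≤ 2 * δ ∨ 1 - 2 * δ ≤ b t x) : ∀ t x, a t x ≤ b t x := by
  have hM := hf.pos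
  have hωM : ω ≤ M := by
    have h1 := B.st0 (2 * δ) 0 le_rfl (by linarith [B.δ_pos]) le_rfl
    have h2 := hf.lip (2 * δ) ⟨by linarith [B.δ_pos], by linarith [B.δ_le]⟩ 0 ⟨le_rfl, zero_le_one⟩
    rw [sub_zero, abs_of_nonneg (by linarith [B.δ_pos] : (0:ℝ) ≤ 2 * δ)] at h2
    rw [sub_zero] at h1
    have h3 := (abs_le.mp h2).1
    have h4 : ω * (2 * δ) ≤ M * (2 * δ) := by linarith
    exact le_of_mul_le_mul_right h4 (by linarith [B.δ_pos])
  have he1 : Real.exp (-M) < 1 := by
    rw [Real.exp_lt_one_iff]; linarith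
  have he0 := Real.exp_pos (-M)
  have hr : 0 < ω / M := div_pos B.ω_pos hM
  have hr1 : ω / M ≤ 1 := by rw [div_le_one hM]; exact hωM
  set θ : ℝ := 1 - ω / M * (1 - Real.exp (-M)) with hθ
  have hθ1 : θ < 1 := by
    have : 0 < ω / M * (1 - Real.exp (-M)) := mul_pos hr (by linarith)
    linarith
  have hθ0 : 0 ≤ θ := by
    have : ω / M * (1 - Real.exp (-M)) ≤ 1 * 1 :=
      mul_le_mul hr1 (by linarith) (by linarith) zero_le_one
    linarith
  have key : ∀ n : ℕ, ∀ t x, a t x - b t x ≤ θ ^ n := by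
    intro n
    induction n with
    | zero =>
      intro t x
      rw [pow_zero]
      linarith [((ha.dat t).mem x).2, ((hb.dat t).mem x).1]
    | succ n ih =>
      intro t x
      rw [pow_succ]
      exact entc_step hf B ha hb h hωM (pow_nonneg hθ0 n) ih t x
  intro t x
  have hlim := tendsto_pow_atTop_nhds_zero_of_lt_one hθ0 hθ1
  have := ge_of_tendsto' hlim (fun n => key n t x)
  linarith

end

end Pool.Agent.AP157
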