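import Pool.Agent.AP157.Cls
import Pool.Agent.AP157.Lgr
import Pool.Agent.AP157.Kern

/-!
# Comparison of entire solutions in a weighted class

ν = l/κ₁, γ := (l²+μ+ν)/2, C_L from LG (l, μ, γ), T > 0 with C_L e^{νC₁} e^{(γ-ν)T} ≤ 1/2 (C₁ ≥ 0 by hθ x x; C ≥ 0 since a ≥ 0).  Claim: for all n, t, x: a t x - b t x ≤ 2^{-n} C e^{ν(t-θ x)}.
n = 0: b ≥ 0.  Step: g = a (t-T), g' = b (t-T), B = 2^{-n} C e^{νC₁} e^{ν(t-T-θ x)}: g y - g' y ≤ 2^{-n} C e^{ν(t-T-θ y)} ≤ B e^{l‖y-x‖} by hθ (θ x ≤ θ y + κ₁‖..‖ + C₁, ν κ₁ = l).  S_r g = a (t-T+r), S_r g' = b (t-T+r) (Ent.flow).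
The hypothesis of LG holds everywhere: where b < a: a ≤ 2δ → H.st0 (0 ≤ b < a ≤ 2δ); 1-2δ ≤ b → H.st1.  LG: a t x - b t x ≤ C_L B e^{γT} = C_L e^{νC₁} e^{(γ-ν)T} 2^{-n} C e^{ν(t-θ x)} ≤ 2^{-(n+1)} C e^{ν(t-θ x)}.  n → ∞.
-/

set_option autoImplicit false

open MeasureTheory Real Set Filter Topology
open scoped ENNReal

namespace Pool.Agent.AP157

open Pool.Agent.X297.KP

noncomputable section

variable {N : ℕ} {f : ℝ → ℝ} {M : ℝ} {z : Set (E N) → ℝ → E N → ℝ} {α μ d₁ δ κ₁ C₁ l : ℝ}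

theorem entd_T {CL e : ℝ} (hCL : 1 ≤ CL) (he : 0 < e) {K : ℝ} (hK : 1 ≤ K) :
    ∃ T : ℝ, 0 < T ∧ CL * K * Real.exp (-e * T) ≤ 1 / 2 := by
  have hCK : 1 ≤ CL * K := one_le_mul_of_one_le_of_one_le hCL hK
  have hpos : 0 < 2 * (CL * K) := by linarith
  refine ⟨Real.log (2 * (CL * K)) / e, div_pos (Real.log_pos (by linarith)) he, ?_⟩
  have h1 : -e * (Real.log (2 * (CL * K)) / e) = -Real.log (2 * (CL * K)) := by
    field_simp
  rw [h1, Real.exp_neg, Real.exp_log hpos]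
  apply le_of_eq
  field_simp

theorem entd_step (hf : Nl f M) (H : Cls f α μ d₁ δ) {l κ₁ C₁ : ℝ} (hl : 0 < l) (hκ : 0 < κ₁)
    {a b : ℝ → E N → ℝ} (ha : Ent f M a) (hb : Ent f M b)
    {θ : E N → ℝ} (hθ : ∀ x y, θ y ≤ θ x + κ₁ * ‖x - y‖ + C₁)
    (h : ∀ t x, b t x < a t x → a t x ≤ 2 * δ ∨ 1 - 2 * δ ≤ b t x)
    {γ CL T D : ℝ} (hCL : 0 ≤ CL) (hT : 0 < T) (hD : 0 ≤ D)
    (hLG : ∃ A : ℝ, 0 ≤ A ∧
      ∀ (g g' : E N → ℝ) (x : E N) (B : ℝ), Dat g → Dat g' → 0 ≤ B →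
        (∀ y, g y - g' y ≤ B * Real.exp (l * ‖y - x‖)) →
        (∀ r ∈ Ioo 0 T, ∀ y, ‖y - x‖ ≤ A → S f M r g' y < S f M r g y →
          f (S f M r g y) - f (S f M r g' y) ≤ μ * (S f M r g y - S f M r g' y)) →
        S f M T g x - S f M T g' x ≤ CL * B * Real.exp (γ * T))
    (hT2 : CL * Real.exp (l / κ₁ * C₁) * Real.exp (-(l / κ₁ - γ) * T) ≤ 1 / 2)
    (ih : ∀ t x, a t x - b t x ≤ D * Real.exp (l / κ₁ * (t - θ x))) :
    ∀ t x, a t x - b t x ≤ D / 2 * Real.exp (l / κ₁ * (t - θ x)) := by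
  intro t x
  obtain ⟨A, hA, hLG⟩ := hLG
  have hν : 0 < l / κ₁ := div_pos hl hκ
  have hνκ : l / κ₁ * κ₁ = l := by field_simp
  have hfa : ∀ r, 0 ≤ r → ∀ y, S f M r (a (t - T)) y = a (t - T + r) y := by
    intro r hr y
    rw [ha.flow _ _ hr]
  have hfb : ∀ r, 0 ≤ r → ∀ y, S f M r (b (t - T)) y = b (t - T + r) y := by
    intro r hr y
    rw [hb.flow _ _ hr]
  set B : ℝ := D * Real.exp (l / κ₁ * C₁) * Real.exp (l / κ₁ * (t - T - θ x)) with hB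
  have hB0 : 0 ≤ B := by positivity
  have key := hLG (a (t - T)) (b (t - T)) x B (ha.dat _) (hb.dat _) hB0 (by
      intro y
      refine (ih (t - T) y).trans ?_
      rw [hB, mul_assoc, mul_assoc]
      apply mul_le_mul_of_nonneg_left _ hD
      rw [← Real.exp_add, ← Real.exp_add]
      apply Real.exp_le_exp.mpr
      have h1 := mul_le_mul_of_nonneg_left (hθ y x) hν.le
      have h2 : l / κ₁ * (κ₁ * ‖y - x‖) = l * ‖y - x‖ := by rw [← mul_assoc, hνκ]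
      nlinarith [h1, h2]) (by
      intro r hr y _ hlt
      rw [hfa r hr.1.le, hfb r hr.1.le] at hlt ⊢
      rcases h _ _ hlt with h1 | h1
      · exact H.st0 _ _ ((hb.dat _).mem y).1 hlt.le h1
      · exact H.st1 _ _ h1 hlt.le ((ha.dat _).mem y).2)
  rw [hfa T hT.le, hfb T hT.le, sub_add_cancel] at key
  refine key.trans ?_
  have e1 : Real.exp (l / κ₁ * (t - T - θ x)) * Real.exp (γ * T) =
      Real.exp (-(l / κ₁ - γ) * T) * Real.exp (l / κ₁ * (t - θ x)) := by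
    rw [← Real.exp_add, ← Real.exp_add]
    congr 1
    ring
  have hE : 0 ≤ D * Real.exp (l / κ₁ * (t - θ x)) := by positivity
  calc CL * B * Real.exp (γ * T)
      = CL * Real.exp (l / κ₁ * C₁) * D *
          (Real.exp (l / κ₁ * (t - T - θ x)) * Real.exp (γ * T)) := by rw [hB]; ring
    _ = (CL * Real.exp (l / κ₁ * C₁) * Real.exp (-(l / κ₁ - γ) * T)) *
          (D * Real.exp (l / κ₁ * (t - θ x))) := by rw [e1]; ring
    _ ≤ 1 / 2 * (D * Real.exp (l / κ₁ * (t - θ x))) := mul_le_mul_of_nonneg_right hT2 hE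
    _ = D / 2 * Real.exp (l / κ₁ * (t - θ x)) := by ring

theorem ent_comp2 (hf : Nl f M) (H : Cls f α μ d₁ δ) {l κ₁ C₁ : ℝ} (hl : 0 < l) (hκ : 0 < κ₁)
    (hsub : l ^ 2 + μ < l / κ₁) {a b : ℝ → E N → ℝ} (ha : Ent f M a) (hb : Ent f M b)
    {θ : E N → ℝ} (hθ : ∀ x y, θ y ≤ θ x + κ₁ * ‖x - y‖ + C₁) {C : ℝ}
    (hC : ∀ t x, a t x ≤ C * Real.exp (l / κ₁ * (t - θ x)))
    (h : ∀ t x, b t x < a t x → a t x ≤ 2 * δ ∨ 1 - 2 * δ ≤ b t x) : ∀ t x, a t x ≤ b t x := by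
  have hν : 0 < l / κ₁ := div_pos hl hκ
  have hC1 : 0 ≤ C₁ := by
    have := hθ 0 0
    rw [sub_self, norm_zero] at this
    linarith
  have hC0 : 0 ≤ C := by
    have h1 := hC 0 0
    have h2 := ((ha.dat 0).mem 0).1
    by_contra hc
    push Not at hc
    have := mul_neg_of_neg_of_pos hc (Real.exp_pos (l / κ₁ * (0 - θ 0)))
    linarith
  obtain ⟨CL, hCL, hLG⟩ := LG (N := N) hf H.μ_nn hl
    (show l ^ 2 + μ < (l ^ 2 + μ + l / κ₁) / 2 by linarith)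
  obtain ⟨T, hT, hT2⟩ := entd_T hCL (show 0 < l / κ₁ - (l ^ 2 + μ + l / κ₁) / 2 by linarith)
    (show 1 ≤ Real.exp (l / κ₁ * C₁) from Real.one_le_exp (by positivity))
  have main : ∀ n : ℕ, ∀ t x, a t x - b t x ≤ C / 2 ^ n * Real.exp (l / κ₁ * (t - θ x)) := by
    intro n
    induction n with
    | zero =>
      intro t x
      have h1 := hC t x
      have h2 := ((hb.dat t).mem x).1
      rw [pow_zero, div_one]
      linarith
    | succ n ih =>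
      have hs := entd_step hf H hl hκ ha hb hθ h (by linarith) hT
        (show 0 ≤ C / 2 ^ n by positivity) (hLG T hT) hT2 ih
      intro t x
      have := hs t x
      rwa [pow_succ, ← div_div]
  intro t x
  have hlim : Tendsto (fun n : ℕ => C / 2 ^ n * Real.exp (l / κ₁ * (t - θ x))) atTop (𝓝 0) := by
    have h1 : Tendsto (fun n : ℕ => (1 / 2 : ℝ) ^ n) atTop (𝓝 0) :=
      tendsto_pow_atTop_nhds_zero_of_lt_one (by norm_num) (by norm_num)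
    have h2 := h1.const_mul (C * Real.exp (l / κ₁ * (t - θ x)))
    rw [mul_zero] at h2
    refine h2.congr (fun n => ?_)
    rw [one_div, inv_pow]
    ring
  have := ge_of_tendsto hlim (Eventually.of_forall fun n => main n t x)
  linarith

end

end Pool.Agent.AP157
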