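import Pool.Agent.AP157.Defs
import Pool.Agent.AP157.Kern
import Pool.Agent.AP157.Mild
import Pool.Agent.AP157.Reg
import Pool.Agent.AP157.Ulim

/-!
# No intermediate plateau

-/

set_option autoImplicit false

open MeasureTheory Real Set Filter Topology
open scoped ENNReal

namespace Pool.Agent.AP157

open Pool.Agent.X297.KP

noncomputable section

variable {N : ℕ} {f : ℝ → ℝ} {M : ℝ} {z : Set (E N) → ℝ → E N → ℝ} {α δ ω : ℝ}

/-! ## Auxiliary lemmas -/

theorem exc_tele (a : ℕ → ℝ) (n m : ℕ) :
    ∑ j ∈ Finset.range n, (a (j + m) - a j) = ∑ i ∈ Finset.range m, (a (n + i) - a i) := by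
  induction m with
  | zero => simp
  | succ m ih =>
    rw [Finset.sum_range_succ, ← ih]
    have h : ∑ j ∈ Finset.range n, (a (j + 1 + m) - a (j + m)) = a (n + m) - a m := by
      have := Finset.sum_range_sub (fun j => a (j + m)) n
      simpa using this
    rw [← h, ← Finset.sum_add_distrib]
    apply Finset.sum_congr rfl
    intro j _
    rw [show j + (m + 1) = j + 1 + m by ring]
    ring

/-- An entire solution which is constant has a zero of `f` as its value. -/
theorem exc_const (hf : Nl f M) {v : ℝ → E N → ℝ} (hv : Ent f M v) {p : ℝ}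
    (hp : p ∈ Icc (0:ℝ) 1) (h : ∀ s y, v s y = p) : f p = 0 := by
  apply zero_of_const hf hp (N := N) (t := 1) one_pos 0
  intro s hs _ y
  have h1 := hv.flow 0 s hs.le y
  rw [h] at h1
  have h2 : v 0 = fun _ => p := funext (h 0)
  rw [h2] at h1
  exact h1.symm

/-- Ultralimits of the reference solutions. -/
theorem exc_ulim (Z : ZFam f M z) {ι : Type*} (F : Ultrafilter ι)
    (K : ι → Set (E N)) (t : ι → ℝ) (x : ι → E N) (ht : Tendsto t F atTop) :
    ∃ v, Ent f M v ∧ ∀ s y, Tendsto (fun i => z (K i) (t i + s) (x i + y)) F (𝓝 (v s y)) := by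
  apply ulim Z.nl F (fun i s y => z (K i) (t i + s) (x i + y))
  · intro T
    refine Eventually.of_forall fun i s _ => ?_
    have := dat_trans (Z.dat (K i) (t i + s)) (x i)
    simpa only [add_comm] using this
  · intro T
    filter_upwards [ht.eventually_ge_atTop (-T)] with i hi s r hs hr y
    have h1 := Z.flow (K i) (t i + s) r (by linarith) hr (x i + y)
    rw [← add_assoc, h1]
    have h2 := S_trans Z.nl (Z.dat (K i) (t i + s)) r (x i) y
    rw [add_comm (x i) y, ← h2]
    congr 1
    funext y'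
    rw [add_comm y' (x i)]

theorem exc_cont (Z : ZFam f M z) (K : Set (E N)) (x : E N) (T : ℝ) :
    ContinuousOn (fun s => z K s x) (Icc 1 T) := by
  obtain ⟨L, hL, -, hreg⟩ := S_reg N Z.nl
  have hz : ∀ s, 0 ≤ s → z K s x = S f M s (z K 0) x := by
    intro s hs
    have := Z.flow K 0 s le_rfl hs x
    rwa [zero_add] at this
  have key : ∀ a b, 1 ≤ a → a ≤ b → b ≤ a + 1 → |z K b x - z K a x| ≤ L * √(b - a) := by
    intro a b ha hab hb
    have := hreg (z K 0) (Z.dat K 0) a ha (b - a) ⟨by linarith, by linarith⟩ x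
    rwa [add_sub_cancel, ← hz b (by linarith), ← hz a (by linarith)] at this
  rw [Metric.continuousOn_iff]
  intro b hb ε hε
  refine ⟨min 1 ((ε / (2 * L)) ^ 2), by positivity, fun a ha hab => ?_⟩
  rw [Real.dist_eq] at hab ⊢
  have h1 : |a - b| ≤ 1 := hab.le.trans (min_le_left _ _)
  have h2 : |a - b| ≤ (ε / (2 * L)) ^ 2 := hab.le.trans (min_le_right _ _)
  have h3 : |z K a x - z K b x| ≤ L * √|a - b| := by
    rcases le_total a b with h | h
    · rw [abs_sub_comm a b] at h1 ⊢
      rw [abs_of_nonneg (by linarith : 0 ≤ b - a)] at h1 ⊢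
      rw [abs_sub_comm]
      exact key a b ha.1 h (by linarith)
    · rw [abs_of_nonneg (by linarith : 0 ≤ a - b)] at h1 ⊢
      exact key b a hb.1 h (by linarith)
  have h4 : √|a - b| ≤ ε / (2 * L) := by
    rw [← Real.sqrt_sq (by positivity : 0 ≤ ε / (2 * L))]
    exact Real.sqrt_le_sqrt h2
  calc |z K a x - z K b x| ≤ L * √|a - b| := h3
    _ ≤ L * (ε / (2 * L)) := by gcongr
    _ = ε / 2 := by field_simp
    _ < ε := by linarith

/-- The averaging argument. -/
theorem exc_avg (hf : Nl f M) {v : ℝ → E N → ℝ} (hv : Ent f M v) {L p : ℝ} (hL : 0 < L)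
    (hα : ∀ q ∈ Icc (0:ℝ) p, f q ≤ 0)
    (hmono : ∀ s s', s ≤ s' → v s 0 ≤ v s' 0)
    (hsh : ∀ s T (y : E N), L * (1 + ‖y‖) ≤ T → v s y ≤ v (s + T) 0)
    (hp : ∀ s y, v s y ≤ p) : ∀ s s', v s 0 = v s' 0 := by
  obtain ⟨C, hC, hheat⟩ := heat_moment (N := N)
  set φ : ℝ → ℝ := fun s => v s 0 with hφ
  have hφm : Monotone φ := fun s s' h => hmono s s' h
  have hφmeas : Measurable φ := hφm.measurable
  have hbdd1 : BddAbove (range φ) := ⟨1, by rintro _ ⟨s, rfl⟩; exact ((hv.dat s).mem 0).2⟩
  have hbdd0 : BddBelow (range φ) := ⟨0, by rintro _ ⟨s, rfl⟩; exact ((hv.dat s).mem 0).1⟩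
  set Pp : ℝ := ⨆ s, φ s with hPp
  set Pm : ℝ := ⨅ s, φ s with hPm
  have hup : ∀ s, φ s ≤ Pp := fun s => le_ciSup hbdd1 s
  have hlo : ∀ s, Pm ≤ φ s := fun s => ciInf_le hbdd0 s
  have htop : Tendsto φ atTop (𝓝 Pp) := tendsto_atTop_ciSup hφm hbdd1
  have hbot : Tendsto φ atBot (𝓝 Pm) := tendsto_atBot_ciInf hφm hbdd0
  set D : ℝ := Pp - Pm with hD
  have hD0 : 0 ≤ D := by have := hup 0; have := hlo 0; linarith
  -- main estimate
  have main : ∀ m : ℕ, 0 < m → (m : ℝ) * D ≤ (1 + L + L * (C * √m)) * D := by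
    intro m hm
    have hm' : (0 : ℝ) < m := by exact_mod_cast hm
    obtain ⟨hint, hle⟩ := hheat m hm'
    have hk0 : ∀ y : E N, 0 ≤ heatK (m : ℝ) y := fun y => heatK_nonneg hm' y
    -- one step
    have step : ∀ s, φ (s + m) - φ s ≤ ∫ y : E N, heatK (m : ℝ) y * (φ (s + L * (1 + ‖y‖)) - φ s) := by
      intro s
      have h1 : φ (s + m) ≤ P (m : ℝ) (v s) 0 := by
        simp only [hφ]
        rw [hv.flow s m hm'.le 0]
        apply S_le_P hf (hv.dat s) hα hm'
        intro r hr _ y
        rw [← hv.flow s r hr.le y]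
        exact hp _ _
      have hmeas : Measurable (fun y : E N => φ (s + L * (1 + ‖y‖))) :=
        hφmeas.comp (by fun_prop)
      have hb1 : ∀ y : E N, |φ (s + L * (1 + ‖y‖))| ≤ 1 := fun y =>
        abs_le.mpr ⟨by linarith [((hv.dat (s + L * (1 + ‖y‖))).mem 0).1],
          ((hv.dat (s + L * (1 + ‖y‖))).mem 0).2⟩
      have h2 : P (m : ℝ) (v s) 0 ≤ P (m : ℝ) (fun y => φ (s + L * (1 + ‖y‖))) 0 :=
        P_mono hm' (hv.dat s).meas hmeas (C := 1)
          (fun y => abs_le.mpr ⟨by linarith [((hv.dat s).mem y).1], ((hv.dat s).mem y).2⟩)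
          hb1 (fun y => hsh s _ y le_rfl) 0
      have h3 : P (m : ℝ) (fun y : E N => φ (s + L * (1 + ‖y‖))) 0 - φ s =
          ∫ y : E N, heatK (m : ℝ) y * (φ (s + L * (1 + ‖y‖)) - φ s) := by
        have e1 : P (m : ℝ) (fun _ : E N => φ s) 0 = φ s := P_const hm' _ _
        have hb2 : ∀ y : E N, |φ s| ≤ 1 := fun y =>
          abs_le.mpr ⟨by linarith [((hv.dat s).mem 0).1], ((hv.dat s).mem 0).2⟩
        have e2 := P_sub hm' hmeas (measurable_const (a := φ s)) hb1 hb2 (0 : E N)
        rw [e1] at e2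
        rw [← e2]
        unfold P
        congr 1
        funext y
        rw [zero_sub, heatK_neg]
      rw [← h3]
      linarith
    -- integrability
    have hI : ∀ s, Integrable (fun y : E N => heatK (m : ℝ) y * (φ (s + L * (1 + ‖y‖)) - φ s)) := by
      intro s
      apply (heatK_integrable hm').mul_bdd (c := 2)
      · exact ((hφmeas.comp (by fun_prop : Measurable fun y : E N => s + L * (1 + ‖y‖))).sub_const
          _).aestronglyMeasurable
      · refine Eventually.of_forall fun y => ?_
        rw [Real.norm_eq_abs, abs_le]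
        have a1 := ((hv.dat (s + L * (1 + ‖y‖))).mem 0)
        have a2 := ((hv.dat s).mem 0)
        simp only [hφ]
        constructor <;> linarith [a1.1, a1.2, a2.1, a2.2]
    -- summation
    have hsum : ∀ J : ℕ, (m : ℝ) * (φ J - φ (m - J)) ≤ (1 + L + L * (C * √m)) * D := by
      intro J
      set a : ℕ → ℝ := fun n => φ ((n : ℝ) - J) with ha
      have h1 : ∑ n ∈ Finset.range (2 * J), (a (n + m) - a n) ≤
          ∫ y : E N, heatK (m : ℝ) y * ∑ n ∈ Finset.range (2 * J),
            (φ ((n : ℝ) - J + L * (1 + ‖y‖)) - φ ((n : ℝ) - J)) := by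
        calc ∑ n ∈ Finset.range (2 * J), (a (n + m) - a n)
            ≤ ∑ n ∈ Finset.range (2 * J), ∫ y : E N, heatK (m : ℝ) y *
              (φ ((n : ℝ) - J + L * (1 + ‖y‖)) - φ ((n : ℝ) - J)) := by
              apply Finset.sum_le_sum
              intro n _
              have := step ((n : ℝ) - J)
              simp only [ha]
              rw [show (((n + m : ℕ) : ℝ) - J) = (n : ℝ) - J + m by push_cast; ring]
              exact this
          _ = ∫ y : E N, ∑ n ∈ Finset.range (2 * J), heatK (m : ℝ) y *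
              (φ ((n : ℝ) - J + L * (1 + ‖y‖)) - φ ((n : ℝ) - J)) :=
              (integral_finsetSum _ fun n _ => hI _).symm
          _ = _ := by
              congr 1
              funext y
              rw [Finset.mul_sum]
      have h2 : ∀ y : E N, ∑ n ∈ Finset.range (2 * J),
            (φ ((n : ℝ) - J + L * (1 + ‖y‖)) - φ ((n : ℝ) - J)) ≤ (L * (1 + ‖y‖) + 1) * D := by
        intro y
        set A : ℝ := L * (1 + ‖y‖) with hA
        have hA0 : 0 ≤ A := by positivity
        calc ∑ n ∈ Finset.range (2 * J), (φ ((n : ℝ) - J + A) - φ ((n : ℝ) - J))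
            ≤ ∑ n ∈ Finset.range (2 * J), (a (n + ⌈A⌉₊) - a n) := by
              apply Finset.sum_le_sum
              intro n _
              simp only [ha]
              have : φ ((n : ℝ) - J + A) ≤ φ (((n + ⌈A⌉₊ : ℕ) : ℝ) - J) := by
                apply hφm
                have := Nat.le_ceil A
                push_cast
                linarith
              linarith
          _ = ∑ i ∈ Finset.range ⌈A⌉₊, (a (2 * J + i) - a i) := exc_tele a _ _
          _ ≤ ∑ i ∈ Finset.range ⌈A⌉₊, D := by
              apply Finset.sum_le_sum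
              intro i _
              have := hup ((((2 * J + i : ℕ) : ℝ)) - J)
              have := hlo ((i : ℝ) - J)
              simp only [ha, hD]
              linarith
          _ = ⌈A⌉₊ * D := by rw [Finset.sum_const, Finset.card_range, nsmul_eq_mul]
          _ ≤ (A + 1) * D := by
              have := (Nat.ceil_lt_add_one hA0).le
              gcongr
      have h3 : ∫ y : E N, heatK (m : ℝ) y * ∑ n ∈ Finset.range (2 * J),
            (φ ((n : ℝ) - J + L * (1 + ‖y‖)) - φ ((n : ℝ) - J)) ≤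
          ∫ y : E N, ((1 + L) * D * heatK (m : ℝ) y + L * D * (heatK (m : ℝ) y * ‖y‖)) := by
        apply integral_mono
        · have : (fun y : E N => heatK (m : ℝ) y * ∑ n ∈ Finset.range (2 * J),
            (φ ((n : ℝ) - J + L * (1 + ‖y‖)) - φ ((n : ℝ) - J))) = fun y : E N =>
              ∑ n ∈ Finset.range (2 * J), heatK (m : ℝ) y *
              (φ ((n : ℝ) - J + L * (1 + ‖y‖)) - φ ((n : ℝ) - J)) := by
            funext y; rw [Finset.mul_sum]
          rw [this]
          exact integrable_finsetSum _ fun n _ => hI _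
        · exact ((heatK_integrable hm').const_mul _).add (hint.const_mul _)
        · intro y
          have := mul_le_mul_of_nonneg_left (h2 y) (hk0 y)
          refine this.trans (le_of_eq ?_)
          ring
      have h4 : ∫ y : E N, ((1 + L) * D * heatK (m : ℝ) y + L * D * (heatK (m : ℝ) y * ‖y‖)) =
          (1 + L) * D + L * D * ∫ y : E N, heatK (m : ℝ) y * ‖y‖ := by
        rw [integral_add ((heatK_integrable hm').const_mul _) (hint.const_mul _),
          integral_const_mul, integral_const_mul, heatK_int1 hm', mul_one]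
      have h5 : (m : ℝ) * (φ J - φ (m - J)) ≤ ∑ n ∈ Finset.range (2 * J), (a (n + m) - a n) := by
        rw [exc_tele]
        calc (m : ℝ) * (φ J - φ (m - J)) = ∑ i ∈ Finset.range m, (φ J - φ (m - J)) := by
              rw [Finset.sum_const, Finset.card_range, nsmul_eq_mul]
          _ ≤ _ := by
              apply Finset.sum_le_sum
              intro i hi
              have hi' : (i : ℝ) ≤ m := by exact_mod_cast (Finset.mem_range.mp hi).le
              have b1 : φ J ≤ a (2 * J + i) := by
                apply hφm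
                push_cast
                have : (0 : ℝ) ≤ i := Nat.cast_nonneg i
                linarith
              have b2 : a i ≤ φ (m - J) := by
                apply hφm
                linarith
              linarith
      have h6 : L * D * ∫ y : E N, heatK (m : ℝ) y * ‖y‖ ≤ L * D * (C * √m) := by gcongr
      calc (m : ℝ) * (φ J - φ (m - J)) ≤ (1 + L) * D + L * D * (C * √m) := by linarith
        _ = _ := by ring
    -- limit
    have hlim : Tendsto (fun J : ℕ => (m : ℝ) * (φ J - φ (m - J))) atTop (𝓝 ((m : ℝ) * D)) := by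
      apply Tendsto.const_mul
      apply Tendsto.sub
      · exact htop.comp tendsto_natCast_atTop_atTop
      · apply hbot.comp
        have : Tendsto (fun J : ℕ => -((J : ℝ))) atTop atBot :=
          tendsto_neg_atTop_atBot.comp tendsto_natCast_atTop_atTop
        have h2 := tendsto_atBot_add_const_left atTop (m : ℝ) this
        simpa [sub_eq_add_neg] using h2
    exact le_of_tendsto' hlim hsum
  -- conclusion
  have hDz : D = 0 := by
    by_contra hne
    have hDpos : 0 < D := lt_of_le_of_ne hD0 (Ne.symm hne)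
    obtain ⟨k, hk⟩ := exists_nat_gt (2 + L + L * C)
    have hk0 : (0 : ℝ) < k := lt_trans (by positivity) hk
    have hk1 : 1 ≤ (k : ℝ) := by
      have : (0:ℝ) < L + L * C := by positivity
      linarith
    have hkk : 0 < k := by exact_mod_cast hk0
    have h1 := main (k ^ 2) (by positivity)
    have h2 := le_of_mul_le_mul_right h1 hDpos
    push_cast at h2
    rw [Real.sqrt_sq hk0.le] at h2
    have h3 : (k : ℝ) * (2 + L + L * C) < k * k := by gcongr
    have h4 : 1 * (2 + L) ≤ (k : ℝ) * (2 + L) := by gcongr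
    nlinarith
  intro s s'
  have a1 := hup s
  have a2 := hlo s
  have a3 := hup s'
  have a4 := hlo s'
  simp only [hφ] at a1 a2 a3 a4
  linarith

theorem exc (Z : ZFam f M z) (B : Bst f α δ ω) {ι : Type*} (F : Ultrafilter ι)
    (K : ι → Set (E N)) (t : ι → ℝ) (x : ι → E N) (ht : Tendsto t F atTop) {p : ℝ}
    (h : ∀ s y, Tendsto (fun i => z (K i) (t i + s) (x i + y)) F (𝓝 p)) : p = 0 ∨ p = 1 := by
  have hp : p ∈ Icc (0:ℝ) 1 :=
    isClosed_Icc.mem_of_tendsto (h 0 0) (Eventually.of_forall fun i => (Z.dat _ _).mem _)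
  by_contra hne
  rw [not_or] at hne
  have hp0 : 0 < p := lt_of_le_of_ne hp.1 (Ne.symm hne.1)
  have hp1 : p < 1 := lt_of_le_of_ne hp.2 hne.2
  -- `p` is a zero of `f`
  have hfp : f p = 0 := by
    obtain ⟨v, hv, hlim⟩ := exc_ulim Z F K t x ht
    exact exc_const Z.nl hv hp fun s y => tendsto_nhds_unique (hlim s y) (h s y)
  have hpα : p ≤ α := by
    by_contra hlt
    push Not at hlt
    have := B.pos p ⟨hlt, hp1⟩
    linarith
  -- the level `p'`
  obtain ⟨p', hp'0, hp'p, hfp'⟩ : ∃ p', 0 < p' ∧ p' < p ∧ f p' < 0 := by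
    refine ⟨min (p / 2) (2 * δ), lt_min (by linarith) (by linarith [B.δ_pos]), ?_, ?_⟩
    · exact lt_of_le_of_lt (min_le_left _ _) (by linarith)
    · have h0 : 0 < min (p / 2) (2 * δ) := lt_min (by linarith) (by linarith [B.δ_pos])
      have h1 := B.st0 (min (p / 2) (2 * δ)) 0 le_rfl h0.le (min_le_right _ _)
      rw [Z.nl.zero, sub_zero, sub_zero] at h1
      have h2 := mul_pos B.ω_pos h0
      linarith
  have h00 : Tendsto (fun i => z (K i) (t i) (x i)) F (𝓝 p) := by
    have := h 0 0
    simpa only [add_zero] using this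
  -- Claim 1
  have claim1 : ∀ T, 0 ≤ T → ∀ᶠ i in (F : Filter ι), z (K i) T (x i) < p' := by
    intro T hT
    by_contra hcon
    rw [← Ultrafilter.eventually_not] at hcon
    obtain ⟨R, hR⟩ := Z.near T p' hT hp'0
    obtain ⟨T', _, hT'⟩ := Z.fill R ((1 - p) / 2) (by linarith)
    have h1 : ∀ᶠ i in (F : Filter ι), 1 - (1 - p) / 2 ≤ z (K i) (t i) (x i) := by
      filter_upwards [hcon, ht.eventually_ge_atTop T'] with i hi hi'
      push Not at hi
      obtain ⟨y, hy, hxy⟩ := hR (K i) (x i) hi
      exact hT' (K i) (x i) y (t i) hy hxy hi'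
    have h2 := ge_of_tendsto h00 h1
    linarith
  -- the times `t'`
  have hex : ∀ᶠ i in (F : Filter ι), ∃ τ, 1 ≤ τ ∧ τ ≤ t i ∧ z (K i) τ (x i) = p' := by
    filter_upwards [claim1 1 zero_le_one, ht.eventually_ge_atTop 1,
      h00.eventually_const_lt hp'p] with i h1 h2 h3
    obtain ⟨τ, hτ, hτ'⟩ := intermediate_value_Icc h2 (exc_cont Z (K i) (x i) (t i))
      ⟨h1.le, h3.le⟩
    exact ⟨τ, hτ.1, hτ.2, hτ'⟩
  have hch : ∃ t' : ι → ℝ, ∀ᶠ i in (F : Filter ι), 1 ≤ t' i ∧ t' i ≤ t i ∧
      z (K i) (t' i) (x i) = p' := by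
    classical
    refine ⟨fun i => if hi : ∃ τ, 1 ≤ τ ∧ τ ≤ t i ∧ z (K i) τ (x i) = p' then hi.choose else 0, ?_⟩
    filter_upwards [hex] with i hi
    rw [dif_pos hi]
    exact hi.choose_spec
  obtain ⟨t', ht'⟩ := hch
  have ht'top : Tendsto t' F atTop := by
    rw [tendsto_atTop]
    intro T
    filter_upwards [claim1 (max T 0) (le_max_right _ _), ht'] with i h1 h2
    by_contra hcon
    push Not at hcon
    have h3 := Z.mono_t (K i) (t' i) (max T 0) (by linarith) (hcon.le.trans (le_max_left _ _)) (x i)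
    rw [h2.2.2] at h3
    linarith
  obtain ⟨v, hv, hlim⟩ := exc_ulim Z F K t' x ht'top
  have hv00 : v 0 0 = p' := by
    have h1 := hlim 0 0
    have h2 : Tendsto (fun i => z (K i) (t' i + 0) (x i + 0)) F (𝓝 p') := by
      apply tendsto_const_nhds.congr'
      filter_upwards [ht'] with i hi
      rw [add_zero, add_zero, hi.2.2]
    exact tendsto_nhds_unique h1 h2
  have hmono : ∀ s s', s ≤ s' → ∀ y, v s y ≤ v s' y := by
    intro s s' hs y
    apply le_of_tendsto_of_tendsto (hlim s y) (hlim s' y)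
    filter_upwards [ht'top.eventually_ge_atTop (-s)] with i hi
    exact Z.mono_t (K i) _ _ (by linarith) (by linarith) _
  obtain ⟨L, hL, hsh⟩ := Z.shift
  have hshift : ∀ s T (y h : E N), L * (1 + ‖h‖) ≤ T → v s (y - h) ≤ v (s + T) y := by
    intro s T y h hT
    apply le_of_tendsto_of_tendsto (hlim s (y - h)) (hlim (s + T) y)
    filter_upwards [ht'top.eventually_ge_atTop (-s)] with i hi
    have := hsh (K i) (t' i + s) h T (x i + y) (by linarith) hT
    rw [add_sub_assoc, add_assoc] at this
    exact this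
  have hvp0 : ∀ s, v s 0 ≤ p := by
    intro s
    apply le_of_tendsto_of_tendsto (hlim s 0) (h s 0)
    filter_upwards [ht'top.eventually_ge_atTop (-s), ht'] with i hi hi'
    exact Z.mono_t (K i) _ _ (by linarith) (by linarith [hi'.2.1]) _
  have hsh0 : ∀ s T (y : E N), L * (1 + ‖y‖) ≤ T → v s y ≤ v (s + T) 0 := by
    intro s T y hT
    have := hshift s T 0 (-y) (by rwa [norm_neg])
    rwa [zero_sub, neg_neg] at this
  have hvp : ∀ s y, v s y ≤ p := fun s y => (hsh0 s _ y le_rfl).trans (hvp0 _)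
  have hconst := exc_avg Z.nl hv hL (p := p)
    (fun q hq => B.nonpos q ⟨hq.1, hq.2.trans hpα⟩) (fun s s' hs => hmono s s' hs 0) hsh0 hvp
  have hv0 : ∀ s, v s 0 = p' := fun s => by rw [hconst s 0, hv00]
  have hall : ∀ s y, v s y = p' := by
    intro s y
    apply le_antisymm
    · rw [← hv0 (s + L * (1 + ‖y‖))]
      exact hsh0 s _ y le_rfl
    · have := hshift (s - L * (1 + ‖y‖)) (L * (1 + ‖y‖)) y y le_rfl
      rwa [sub_self, sub_add_cancel, hv0] at this
  have := exc_const Z.nl hv ⟨hp'0.le, (hp'p.trans hp1).le⟩ hall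
  linarith

end

end Pool.Agent.AP157
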