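import Pool.Agent.AP157.Defs
import Pool.Agent.AP157.KKa
import Pool.Agent.AP157.Kern
import Pool.Agent.AP157.Reg

/-!
# Stability of the reference solutions

Proof.  Note ω ≤ M (compare B.st0 with the Lipschitz bound of f).  STEP: there are s₀ ∈ (0,1], θ < 1, q₀ > 0, C ≥ 1, t₀ such that for a ≥ t₀, 0 ≤ q ≤ q₀, g ≤ z K a + q:
S s₀ g ≤ z K (a+s₀+C q) + θ q.  Let h = min 1 (z K a + q), w s = S s h - z K (a+s) = S s h - S s (z K a).  0 ≤ w s ≤ e^{2Ms} q (S_err with D = q, P_const).  Fix x and a large A.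
Case 1: for all y with ‖y-x‖ ≤ A and 0 ≤ s ≤ s₀ the value z K (a+s) y is in [0,δ], or for all it is in [1-δ,1].  If e^{2M s₀} q₀ ≤ δ, then z and S s h are both in [0,2δ] or both in [1-2δ,1]
there, so `Fe (S s h y) - Fe (z) ≤ (M-ω)(S s h y - z) ≤ (M-ω) e^{2Ms₀} q`; for the other y it is ≤ 2M e^{2Ms₀} q (Fe_lip).  duh_bound with W = {y | ‖y-x‖ > A} and
τ = 2^{N/2} e^{-A²/8} (P_tail, r ≤ s₀ ≤ 1): w s₀ x ≤ e^{-Ms₀} q + ((M-ω) + 2M τ) e^{2Ms₀} q (1-e^{-Ms₀})/M.  Choose s₀ with e^{2Ms₀}(1-ω/M) ≤ 1-ω/(2M), then A with 2 e^{2Ms₀} τ ≤ ω/(4M):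
w s₀ x ≤ θ q with θ = 1 - (1-e^{-Ms₀}) ω/(4M) < 1.
Case 2: otherwise there are s ∈ [0,s₀], ‖y-x‖ ≤ A with z K (a+s) y ∈ [δ,1-δ] (if it is not in [δ,1-δ] at any point then, by connectedness of [0,s₀] × closedBall x A and continuity of
(s,y) ↦ z K (a+s) y (S_reg), it is < δ everywhere or > 1-δ everywhere).  KK with d = δ at time a+s₀ gives z K (a+s₀+r) x - z K (a+s₀) x ≥ k r for r ∈ [0,1].  With C = e^{2M}/k (and ≥ 1), C q₀ ≤ 1, r = C q:
S s₀ h x ≤ z K (a+s₀) x + e^{2Ms₀} q ≤ z K (a+s₀+C q) x.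
In both cases S s₀ g x ≤ S s₀ h x ≤ z K (a+s₀+C q) x + θ q (Z.mono_t).
ITERATION: by induction S (n s₀) g ≤ z K (a + n s₀ + C q (1+θ+...+θ^{n-1})) + θ^n q ≤ z K (a+n s₀+C q/(1-θ)) + θ^n q.  For t = n s₀ + r, 0 ≤ r < s₀: S t g = S r (S (n s₀) g) and S_err:
≤ z K (a+t+C' q) + e^{2M} θ^n q, and θ^n ≤ θ^{-1} e^{-γ t} with γ = -log θ / s₀ (take θ ≥ 1/2, so θ > 0).  Final C = max of all constants.
-/

set_option autoImplicit false

open MeasureTheory Real Set Filter Topology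
open scoped ENNReal

namespace Pool.Agent.AP157

open Pool.Agent.X297.KP

noncomputable section

variable {N : ℕ} {f : ℝ → ℝ} {M : ℝ} {z : Set (E N) → ℝ → E N → ℝ} {α δ ω : ℝ}

/-! ## AUXILIARY -/

theorem fm_err (hf : Nl f M) {g g' : E N → ℝ} (hg : Dat g) (hg' : Dat g') {D : ℝ} (hD : 0 ≤ D)
    (h : ∀ x, g x ≤ g' x + D) {r : ℝ} (hr : 0 ≤ r) (x : E N) :
    S f M r g x ≤ S f M r g' x + Real.exp (2 * M * r) * D := by
  rcases eq_or_lt_of_le hr with h0 | h0
  · rw [← h0, S_zero, S_zero, mul_zero, Real.exp_zero, one_mul]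
    exact h x
  · have h1 := S_err hf hg hg' (D := fun _ => D) measurable_const (fun _ => hD) (C := D)
      (fun _ => le_rfl) h h0 x
    rwa [P_const h0] at h1

theorem fm_omega_le (hf : Nl f M) (B : Bst f α δ ω) : ω ≤ M := by
  have hδ := B.δ_pos
  have hδ' := B.δ_le
  have h1 := B.st0 (2 * δ) 0 le_rfl (by linarith) le_rfl
  have h2 := hf.lip (2 * δ) ⟨by linarith, by linarith⟩ 0 ⟨le_rfl, zero_le_one⟩
  rw [sub_zero] at h1
  rw [sub_zero, abs_of_nonneg (show 0 ≤ 2 * δ by linarith)] at h2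
  have h3 := (abs_le.mp h2).1
  exact le_of_mul_le_mul_right (by linarith : ω * (2 * δ) ≤ M * (2 * δ)) (by linarith)

theorem fm_case1 (hf : Nl f M) (B : Bst f α δ ω) {h zz : E N → ℝ} (hh : Dat h) (hz : Dat zz)
    {q F s₀ A τ : ℝ} (hq : 0 ≤ q) (hs0 : 0 < s₀) (hF : F = Real.exp (2 * M * s₀))
    (hFq : F * q ≤ δ) (hzh : ∀ y, zz y ≤ h y) (hhz : ∀ y, h y ≤ zz y + q) (x : E N)
    (hτ : ∀ r ∈ Ioo (0:ℝ) s₀, P r ({y | A < ‖x - y‖}.indicator 1) x ≤ τ)
    (hcase : (∀ s ∈ Icc (0:ℝ) s₀, ∀ y, ‖x - y‖ ≤ A → S f M s zz y ≤ δ) ∨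
      (∀ s ∈ Icc (0:ℝ) s₀, ∀ y, ‖x - y‖ ≤ A → 1 - δ ≤ S f M s zz y)) :
    S f M s₀ h x - S f M s₀ zz x ≤ Real.exp (-(M * s₀)) * q +
      ((M - ω) * F * q + 2 * M * F * q * τ) * ((1 - Real.exp (-(M * s₀))) / M) := by
  have hωM := fm_omega_le hf B
  have hM0 := hf.pos
  have hF0 : 0 < F := by rw [hF]; exact Real.exp_pos _
  have hMω : 0 ≤ M - ω := by linarith
  apply duh_bound hf hh hz hs0 x (W := {y | A < ‖x - y‖})
  · intro y; linarith [hhz y]
  · exact measurableSet_lt measurable_const (by fun_prop)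
  · positivity
  · intro s hs y
    have h1 : S f M s zz y ≤ S f M s h y := S_mono hf hz hh hzh s y
    have h2 : S f M s h y ≤ S f M s zz y + Real.exp (2 * M * s) * q :=
      fm_err hf hh hz hq hhz hs.1.le y
    have h3 : Real.exp (2 * M * s) ≤ F := by
      rw [hF]
      apply Real.exp_le_exp.mpr
      have := hs.2.le
      gcongr
    have h3' : Real.exp (2 * M * s) * q ≤ F * q := mul_le_mul_of_nonneg_right h3 hq
    have h4 : S f M s h y - S f M s zz y ≤ F * q := by linarith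
    have m1 := S_mem hf hh s y
    have m2 := S_mem hf hz s y
    by_cases hy : y ∈ {y | A < ‖x - y‖}
    · rw [indicator_of_mem hy, Pi.one_apply, mul_one]
      have h5 := Fe_lip hf m2 m1 h1
      have h6 : 2 * M * (S f M s h y - S f M s zz y) ≤ 2 * M * (F * q) := by gcongr
      have h7 : 0 ≤ (M - ω) * F * q := by positivity
      linarith
    · rw [indicator_of_notMem hy, mul_zero, add_zero]
      have hy' : ‖x - y‖ ≤ A := not_lt.mp hy
      have h5 : f (S f M s h y) - f (S f M s zz y) ≤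
          -(ω * (S f M s h y - S f M s zz y)) := by
        rcases hcase with hc | hc
        · have h51 := hc s ⟨hs.1.le, hs.2.le⟩ y hy'
          exact B.st0 _ _ m2.1 h1 (by linarith)
        · have h51 := hc s ⟨hs.1.le, hs.2.le⟩ y hy'
          exact B.st1 _ _ (by linarith [B.δ_pos]) h1 m1.2
      rw [Fe_eq m1, Fe_eq m2]
      have h6 : (M - ω) * (S f M s h y - S f M s zz y) ≤ (M - ω) * (F * q) := by gcongr
      linarith
  · exact hτ

theorem fm_flow0 (Z : ZFam f M z) (K : Set (E N)) {t : ℝ} (ht : 0 ≤ t) :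
    z K t = S f M t (z K 0) := by
  funext x
  have := Z.flow K 0 t le_rfl ht x
  rwa [zero_add] at this

theorem fm_cont (Z : ZFam f M z) (K : Set (E N)) {a : ℝ} (ha : 1 ≤ a) (D : Set (ℝ × E N))
    (hD : ∀ p ∈ D, 0 ≤ p.1 ∧ p.1 ≤ 1) :
    ContinuousOn (fun p : ℝ × E N => z K (a + p.1) p.2) D := by
  obtain ⟨L, hL, h1, h2⟩ := S_reg N Z.nl
  have hdat := Z.dat K 0
  have htime : ∀ r s : ℝ, 0 ≤ r → r ≤ s → s ≤ 1 → ∀ y,
      |z K (a + s) y - z K (a + r) y| ≤ L * √|s - r| := by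
    intro r s hr hrs hs y
    have h3 := h2 _ hdat (a + r) (by linarith) (s - r) ⟨by linarith, by linarith⟩ y
    rw [show a + r + (s - r) = a + s by ring, ← fm_flow0 Z K (by linarith),
      ← fm_flow0 Z K (by linarith)] at h3
    rwa [abs_of_nonneg (show 0 ≤ s - r by linarith)]
  have htime' : ∀ r s : ℝ, 0 ≤ r → 0 ≤ s → r ≤ 1 → s ≤ 1 → ∀ y,
      |z K (a + s) y - z K (a + r) y| ≤ L * √|s - r| := by
    intro r s hr hs hr1 hs1 y
    rcases le_total r s with h | h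
    · exact htime r s hr h hs1 y
    · rw [abs_sub_comm, abs_sub_comm s r]
      exact htime s r hs h hr1 y
  have bound : ∀ p ∈ D, ∀ p0 ∈ D, |z K (a + p.1) p.2 - z K (a + p0.1) p0.2| ≤
      L * ‖p.2 - p0.2‖ + L * √|p.1 - p0.1| := by
    intro p hp p0 hp0
    have hp' := hD p hp
    have hp0' := hD p0 hp0
    have h3 := h1 _ hdat (a + p.1) (by linarith) p.2 p0.2
    rw [← fm_flow0 Z K (by linarith)] at h3
    have h4 := htime' p0.1 p.1 hp0'.1 hp'.1 hp0'.2 hp'.2 p0.2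
    calc |z K (a + p.1) p.2 - z K (a + p0.1) p0.2|
        = |(z K (a + p.1) p.2 - z K (a + p.1) p0.2) +
            (z K (a + p.1) p0.2 - z K (a + p0.1) p0.2)| := by congr 1; ring
      _ ≤ |z K (a + p.1) p.2 - z K (a + p.1) p0.2| +
            |z K (a + p.1) p0.2 - z K (a + p0.1) p0.2| := abs_add_le _ _
      _ ≤ _ := by linarith
  intro p0 hp0
  rw [ContinuousWithinAt, tendsto_iff_dist_tendsto_zero]
  have hb : Tendsto (fun p : ℝ × E N => L * ‖p.2 - p0.2‖ + L * √|p.1 - p0.1|)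
      (𝓝[D] p0) (𝓝 0) := by
    have hc : Continuous (fun p : ℝ × E N => L * ‖p.2 - p0.2‖ + L * √|p.1 - p0.1|) := by
      fun_prop
    have h3 := (hc.tendsto p0).mono_left (nhdsWithin_le_nhds (s := D))
    simpa using h3
  refine squeeze_zero' (Eventually.of_forall fun _ => dist_nonneg) ?_ hb
  filter_upwards [self_mem_nhdsWithin] with p hp
  rw [Real.dist_eq]
  exact bound p hp p0 hp0

theorem fm_radius {η : ℝ} (hη : 0 < η) : ∃ A : ℝ, 0 ≤ A ∧ Real.exp (-(A ^ 2 / 8)) ≤ η := by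
  refine ⟨8 * (1 + |Real.log η|), by positivity, ?_⟩
  have h0 := abs_nonneg (Real.log η)
  have h1 := neg_abs_le (Real.log η)
  calc Real.exp (-((8 * (1 + |Real.log η|)) ^ 2 / 8)) ≤ Real.exp (Real.log η) := by
        apply Real.exp_le_exp.mpr
        nlinarith
    _ = η := Real.exp_log hη

theorem fm_step (Z : ZFam f M z) (B : Bst f α δ ω) :
    ∃ s₀ θ q₀ C t₀ : ℝ, 0 < s₀ ∧ s₀ ≤ 1 ∧ 0 < θ ∧ θ < 1 ∧ 0 < q₀ ∧ 0 < C ∧ 0 ≤ t₀ ∧
      ∀ K a q g, Dat g → t₀ ≤ a → 0 ≤ q → q ≤ q₀ → (∀ x, g x ≤ z K a x + q) → ∀ x,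
        S f M s₀ g x ≤ z K (a + s₀ + C * q) x + θ * q := by
  have hf := Z.nl
  have hM := hf.pos
  have hM1 := hf.one_le
  have hω := B.ω_pos
  have hωM := fm_omega_le hf B
  have hδ := B.δ_pos
  have hδ' := B.δ_le
  set u := ω / M with hu
  have hu0 : 0 < u := by positivity
  have hu1 : u ≤ 1 := by rw [hu, div_le_one hM]; exact hωM
  have hωu : ω = u * M := by rw [hu]; field_simp
  set s₀ := Real.log (1 + u / 2) / (2 * M) with hs₀
  have hlog0 : 0 < Real.log (1 + u / 2) := Real.log_pos (by linarith)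
  have hlog1 : Real.log (1 + u / 2) ≤ u / 2 := by
    have := Real.log_le_sub_one_of_pos (show 0 < 1 + u / 2 by linarith)
    linarith
  have hs0 : 0 < s₀ := by positivity
  have hs1 : s₀ ≤ 1 := by
    rw [hs₀, div_le_one (by positivity)]
    linarith
  have hF : Real.exp (2 * M * s₀) = 1 + u / 2 := by
    rw [hs₀, mul_div_cancel₀ _ (by positivity), Real.exp_log (by linarith)]
  set F := 1 + u / 2 with hFdef
  have hF0 : 0 < F := by rw [hFdef]; linarith
  have hFe : F ≤ Real.exp (2 * M) := by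
    rw [← hF]
    apply Real.exp_le_exp.mpr
    nlinarith
  have h2N : 0 < (2:ℝ) ^ ((N : ℝ) / 2) := Real.rpow_pos_of_pos (by norm_num) _
  obtain ⟨A, hA0, hA⟩ := fm_radius (show 0 < u / (8 * F * 2 ^ ((N : ℝ) / 2)) by positivity)
  set τ := (2:ℝ) ^ ((N : ℝ) / 2) * Real.exp (-(A ^ 2 / 8)) with hτdef
  have hτ1 : 2 * F * τ ≤ u / 4 := by
    have h1 : 2 * F * τ ≤ 2 * F * (2 ^ ((N : ℝ) / 2) * (u / (8 * F * 2 ^ ((N : ℝ) / 2)))) := by
      rw [hτdef]; gcongr
    have h2 : 2 * F * (2 ^ ((N : ℝ) / 2) * (u / (8 * F * 2 ^ ((N : ℝ) / 2)))) = u / 4 := by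
      field_simp; ring
    linarith
  set E1 := Real.exp (-(M * s₀)) with hE1
  have hE10 : 0 < E1 := Real.exp_pos _
  have hE11 : E1 < 1 := by
    rw [hE1, Real.exp_lt_one_iff]
    have := mul_pos hM hs0
    linarith
  set θ := 1 - (1 - E1) * u / 4 with hθ
  have hθ0 : 0 < θ := by
    have h1 : (1 - E1) * u ≤ 1 * 1 := by gcongr; linarith
    rw [hθ]; linarith
  have hθ1 : θ < 1 := by
    have h1 : 0 < (1 - E1) * u := mul_pos (by linarith) hu0
    rw [hθ]; linarith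
  obtain ⟨k, t₁, hk, ht₁, hKK⟩ := KK Z B (d := δ) (A := A) hδ (by linarith)
  set C := Real.exp (2 * M) / k with hC
  have hexp0 : 0 < Real.exp (2 * M) := Real.exp_pos _
  have hC0 : 0 < C := by positivity
  refine ⟨s₀, θ, min (δ / Real.exp (2 * M)) (1 / C), C, t₁, hs0, hs1, hθ0, hθ1, by positivity,
    hC0, by linarith, ?_⟩
  intro K a q g hg ha hq hq₀ hgz x
  have hq1 : q * Real.exp (2 * M) ≤ δ := by
    have := hq₀.trans (min_le_left _ _)
    rwa [le_div_iff₀ hexp0] at this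
  have hq2 : C * q ≤ 1 := by
    have := hq₀.trans (min_le_right _ _)
    rw [le_div_iff₀ hC0] at this
    linarith
  have ha0 : 0 ≤ a := by linarith
  have hzd := Z.dat K a
  set h : E N → ℝ := fun y => min 1 (z K a y + q) with hh
  have hhd : Dat h := by
    refine ⟨measurable_const.min (hzd.meas.add_const q), fun y => ⟨?_, min_le_left _ _⟩⟩
    exact le_min zero_le_one (add_nonneg (hzd.mem y).1 hq)
  have hgh : ∀ y, g y ≤ h y := fun y => le_min (hg.mem y).2 (hgz y)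
  have hzh : ∀ y, z K a y ≤ h y := fun y => le_min (hzd.mem y).2 (by linarith)
  have hhz : ∀ y, h y ≤ z K a y + q := fun y => min_le_right _ _
  have hSgh : S f M s₀ g x ≤ S f M s₀ h x := S_mono hf hg hhd hgh s₀ x
  have hflow : ∀ s, 0 ≤ s → ∀ y, z K (a + s) y = S f M s (z K a) y := fun s hs y =>
    Z.flow K a s ha0 hs y
  by_cases hcase : (∀ s ∈ Icc (0:ℝ) s₀, ∀ y, ‖x - y‖ ≤ A → S f M s (z K a) y ≤ δ) ∨
      (∀ s ∈ Icc (0:ℝ) s₀, ∀ y, ‖x - y‖ ≤ A → 1 - δ ≤ S f M s (z K a) y)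
  · have hFq : F * q ≤ δ := by nlinarith
    have htail : ∀ r ∈ Ioo (0:ℝ) s₀, P r ({y | A < ‖x - y‖}.indicator 1) x ≤ τ := by
      intro r hr
      refine (P_tail hr.1 x hA0 (W := {y | A < ‖x - y‖})
        (measurableSet_lt measurable_const (by fun_prop))
        (fun y hy => le_of_lt (show A < ‖x - y‖ from hy))).trans ?_
      rw [hτdef]
      apply mul_le_mul_of_nonneg_left _ h2N.le
      apply Real.exp_le_exp.mpr
      apply neg_le_neg
      apply div_le_div_of_nonneg_left (by positivity) (by linarith [hr.1])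
      linarith [hr.2]
    have key := fm_case1 hf B hhd hzd hq hs0 hF.symm hFq hzh hhz x htail hcase
    have hbound : E1 * q + ((M - ω) * F * q + 2 * M * F * q * τ) * ((1 - E1) / M) ≤ θ * q := by
      have e1 : ((M - ω) * F * q + 2 * M * F * q * τ) * ((1 - E1) / M) =
          (((1 - u) * F) + 2 * F * τ) * (1 - E1) * q := by
        rw [hωu]; field_simp
      have e2 : (1 - u) * F ≤ 1 - u / 2 := by
        rw [hFdef]; nlinarith
      have e3 : ((1 - u) * F) + 2 * F * τ ≤ 1 - u / 4 := by linarith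
      have e4 : (((1 - u) * F) + 2 * F * τ) * (1 - E1) * q ≤ (1 - u / 4) * (1 - E1) * q := by
        apply mul_le_mul_of_nonneg_right _ hq
        apply mul_le_mul_of_nonneg_right e3 (by linarith)
      rw [e1]
      have e5 : E1 * q + (1 - u / 4) * (1 - E1) * q = θ * q := by rw [hθ]; ring
      linarith
    have hmono : z K (a + s₀) x ≤ z K (a + s₀ + C * q) x :=
      Z.mono_t K _ _ (by linarith) (by nlinarith) x
    rw [hflow s₀ hs0.le x] at hmono
    linarith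
  · push Not at hcase
    obtain ⟨⟨s1, hs1m, y1, hy1, hv1⟩, ⟨s2, hs2m, y2, hy2, hv2⟩⟩ := hcase
    rw [← hflow s1 hs1m.1] at hv1
    rw [← hflow s2 hs2m.1] at hv2
    have hex : ∃ s ∈ Icc (0:ℝ) s₀, ∃ y, ‖y - x‖ ≤ A ∧ z K (a + s) y ∈ Icc δ (1 - δ) := by
      by_cases hle : z K (a + s1) y1 ≤ 1 - δ
      · exact ⟨s1, hs1m, y1, by rwa [norm_sub_rev], hv1.le, hle⟩
      · push Not at hle
        set D : Set (ℝ × E N) := Icc (0:ℝ) s₀ ×ˢ Metric.closedBall x A with hD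
        have hpre : IsPreconnected D :=
          isPreconnected_Icc.prod (convex_closedBall x A).isPreconnected
        have hcont := fm_cont Z K (show 1 ≤ a by linarith) D (fun p hp => by
          rw [hD, mem_prod] at hp
          exact ⟨hp.1.1, hp.1.2.trans hs1⟩)
        have hm1 : (s1, y1) ∈ D := by
          rw [hD, mem_prod]
          exact ⟨hs1m, by rw [Metric.mem_closedBall, dist_eq_norm, norm_sub_rev]; exact hy1⟩
        have hm2 : (s2, y2) ∈ D := by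
          rw [hD, mem_prod]
          exact ⟨hs2m, by rw [Metric.mem_closedBall, dist_eq_norm, norm_sub_rev]; exact hy2⟩
        obtain ⟨p, hpD, hpv⟩ := hpre.intermediate_value hm2 hm1 hcont ⟨hv2.le, hle.le⟩
        rw [hD, mem_prod] at hpD
        refine ⟨p.1, hpD.1, p.2, ?_, ?_⟩
        · have := hpD.2
          rwa [Metric.mem_closedBall, dist_eq_norm] at this
        · simp only at hpv
          rw [hpv]
          exact ⟨by linarith, le_rfl⟩
    obtain ⟨s, hs, y, hy, hyv⟩ := hex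
    have h1 := hKK K (a + s₀) x (by linarith) ⟨s₀ - s, ⟨by linarith [hs.2], by linarith [hs.1]⟩, y,
      hy, by rwa [show a + s₀ - (s₀ - s) = a + s by ring]⟩ (C * q) ⟨by positivity, hq2⟩
    have h2 : k * (C * q) = Real.exp (2 * M) * q := by rw [hC]; field_simp
    have h3 := fm_err hf hhd hzd hq hhz hs0.le x
    rw [hF, ← hflow s₀ hs0.le] at h3
    have h4 : F * q ≤ Real.exp (2 * M) * q := mul_le_mul_of_nonneg_right hFe hq
    have h5 : 0 ≤ θ * q := by positivity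
    rw [h2] at h1
    linarith

theorem fm_iter (Z : ZFam f M z) {s₀ θ q₀ C t₀ : ℝ} (hs0 : 0 < s₀) (hθ0 : 0 < θ) (hθ1 : θ < 1)
    (hC : 0 < C) (ht₀ : 0 ≤ t₀)
    (hstep : ∀ K a q g, Dat g → t₀ ≤ a → 0 ≤ q → q ≤ q₀ → (∀ x, g x ≤ z K a x + q) → ∀ x,
        S f M s₀ g x ≤ z K (a + s₀ + C * q) x + θ * q)
    {K : Set (E N)} {a q : ℝ} {g : E N → ℝ} (hg : Dat g) (ha : t₀ ≤ a) (hq : 0 ≤ q)
    (hq₀ : q ≤ q₀) (hgz : ∀ x, g x ≤ z K a x + q) (n : ℕ) (x : E N) :
    S f M (n * s₀) g x ≤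
      z K (a + n * s₀ + C * q * ((1 - θ ^ n) / (1 - θ))) x + θ ^ n * q := by
  have hf := Z.nl
  have h1θ : 0 < 1 - θ := by linarith
  induction n generalizing x with
  | zero => simpa [S_zero] using hgz x
  | succ n ih =>
    have hθn : θ ^ n ≤ 1 := pow_le_one₀ hθ0.le hθ1.le
    have hθn0 : 0 < θ ^ n := pow_pos hθ0 n
    have hσ : 0 ≤ (1 - θ ^ n) / (1 - θ) := div_nonneg (by linarith) h1θ.le
    have h1 := hstep K (a + n * s₀ + C * q * ((1 - θ ^ n) / (1 - θ))) (θ ^ n * q)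
      (S f M (n * s₀) g) (S_dat hf hg _) (by
        have e1 : 0 ≤ n * s₀ := by positivity
        have e2 : 0 ≤ C * q * ((1 - θ ^ n) / (1 - θ)) := by positivity
        linarith) (by positivity) (by nlinarith) ih x
    have h2 : S f M ((n + 1 : ℕ) * s₀) g = S f M s₀ (S f M (n * s₀) g) := by
      rw [← S_add hf hg (by positivity) hs0.le]
      congr 1
      push_cast; ring
    rw [h2]
    have h3 : a + n * s₀ + C * q * ((1 - θ ^ n) / (1 - θ)) + s₀ + C * (θ ^ n * q) =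
        a + (n + 1 : ℕ) * s₀ + C * q * ((1 - θ ^ (n + 1)) / (1 - θ)) := by
      push_cast
      field_simp
      ring
    rw [h3] at h1
    calc _ ≤ _ := h1
      _ = _ := by ring

theorem FM (Z : ZFam f M z) (B : Bst f α δ ω) :
    ∃ C γ q₀ t₀ : ℝ, 0 < C ∧ 0 < γ ∧ 0 < q₀ ∧ 0 ≤ t₀ ∧ ∀ K a q g, Dat g → t₀ ≤ a → 0 ≤ q →
      q ≤ q₀ → (∀ x, g x ≤ z K a x + q) → ∀ t, 0 ≤ t → ∀ x,
        S f M t g x ≤ z K (a + t + C * q) x + C * q * Real.exp (-(γ * t)) := by
  have hf := Z.nl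
  have hM := hf.pos
  obtain ⟨s₀, θ, q₀, C, t₀, hs0, hs1, hθ0, hθ1, hq₀, hC, ht₀, hstep⟩ := fm_step Z B
  have h1θ : 0 < 1 - θ := by linarith
  have hlogθ : Real.log θ < 0 := Real.log_neg hθ0 hθ1
  set C1 := C / (1 - θ) with hC1
  set C2 := Real.exp (2 * M) / θ with hC2
  have hC10 : 0 < C1 := by positivity
  have hexp : 0 < Real.exp (2 * M) := Real.exp_pos _
  have hC20 : 0 < C2 := by positivity
  refine ⟨max C1 C2, -Real.log θ / s₀, q₀, t₀, lt_max_of_lt_left hC10,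
    div_pos (by linarith) hs0, hq₀, ht₀, ?_⟩
  intro K a q g hg ha hq hqq hgz t ht x
  set n := ⌊t / s₀⌋₊ with hn
  have hn1 : (n : ℝ) ≤ t / s₀ := Nat.floor_le (by positivity)
  have hn2 : t / s₀ < n + 1 := Nat.lt_floor_add_one _
  have hn1' : n * s₀ ≤ t := by rwa [le_div_iff₀ hs0] at hn1
  have hn2' : t < (n + 1) * s₀ := by rwa [div_lt_iff₀ hs0] at hn2
  set r := t - n * s₀ with hr
  have hr0 : 0 ≤ r := by rw [hr]; linarith
  have hr1 : r ≤ 1 := by rw [hr]; linarith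
  have hθn0 : 0 < θ ^ n := pow_pos hθ0 n
  have hθn1 : θ ^ n ≤ 1 := pow_le_one₀ hθ0.le hθ1.le
  set b := a + n * s₀ + C1 * q with hb
  have ha0 : 0 ≤ a := by linarith
  have hns : 0 ≤ n * s₀ := by positivity
  have hb0 : 0 ≤ b := by rw [hb]; positivity
  have hstep2 : ∀ y, S f M (n * s₀) g y ≤ z K b y + θ ^ n * q := by
    intro y
    have h1 := fm_iter Z hs0 hθ0 hθ1 hC ht₀ hstep hg ha hq hqq hgz n y
    have hσ : 0 ≤ (1 - θ ^ n) / (1 - θ) := div_nonneg (by linarith) h1θ.le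
    have h2 : C * q * ((1 - θ ^ n) / (1 - θ)) ≤ C1 * q := by
      have : (1 - θ ^ n) / (1 - θ) ≤ 1 / (1 - θ) := by
        gcongr; linarith
      calc C * q * ((1 - θ ^ n) / (1 - θ)) ≤ C * q * (1 / (1 - θ)) := by gcongr
        _ = C1 * q := by rw [hC1]; ring
    have h3 : z K (a + n * s₀ + C * q * ((1 - θ ^ n) / (1 - θ))) y ≤ z K b y := by
      apply Z.mono_t
      · positivity
      · rw [hb]; linarith
    linarith
  have h1 := fm_err hf (S_dat hf hg (n * s₀)) (Z.dat K b) (show 0 ≤ θ ^ n * q by positivity)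
    hstep2 hr0 x
  have h2 : S f M r (S f M (n * s₀) g) = S f M t g := by
    rw [← S_add hf hg hns hr0]
    congr 1
    rw [hr]; ring
  rw [h2, ← Z.flow K b r hb0 hr0] at h1
  have h3 : z K (b + r) x ≤ z K (a + t + max C1 C2 * q) x := by
    apply Z.mono_t _ _ _ (by linarith)
    have : C1 * q ≤ max C1 C2 * q := mul_le_mul_of_nonneg_right (le_max_left _ _) hq
    rw [hb, hr]; linarith
  have h4 : Real.exp (2 * M * r) * (θ ^ n * q) ≤
      max C1 C2 * q * Real.exp (-(-Real.log θ / s₀ * t)) := by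
    have e1 : Real.exp (2 * M * r) ≤ Real.exp (2 * M) := by
      apply Real.exp_le_exp.mpr
      nlinarith
    have e2 : θ ^ n * θ ≤ Real.exp (-(-Real.log θ / s₀ * t)) := by
      have e21 : θ ^ n * θ = Real.exp ((n + 1) * Real.log θ) := by
        rw [add_mul, one_mul, Real.exp_add, Real.exp_log hθ0, ← Real.exp_log (pow_pos hθ0 n),
          Real.log_pow]
      rw [e21]
      apply Real.exp_le_exp.mpr
      have e22 : -(-Real.log θ / s₀ * t) = (t / s₀) * Real.log θ := by ring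
      rw [e22]
      exact mul_le_mul_of_nonpos_right hn2.le hlogθ.le
    calc Real.exp (2 * M * r) * (θ ^ n * q) ≤ Real.exp (2 * M) * (θ ^ n * q) := by gcongr
      _ = C2 * q * (θ ^ n * θ) := by rw [hC2]; field_simp
      _ ≤ C2 * q * Real.exp (-(-Real.log θ / s₀ * t)) := by gcongr
      _ ≤ max C1 C2 * q * Real.exp (-(-Real.log θ / s₀ * t)) := by
          gcongr
          exact le_max_right _ _
  linarith

end

end Pool.Agent.AP157
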