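import Pool.Agent.AP157.Cls
import Pool.Agent.AP157.Kern
import Pool.Agent.AP157.KKa

/-!
# The reference solutions increase at a uniform rate away from plateaus

-/

set_option autoImplicit false

open MeasureTheory Real Set Filter Topology
open scoped ENNReal

namespace Pool.Agent.AP157

open Pool.Agent.X297.KP

noncomputable section

variable {N : ℕ} {f : ℝ → ℝ} {M : ℝ} {z : Set (E N) → ℝ → E N → ℝ} {α μ d₁ δ κ₁ C₁ l : ℝ}

/-! ## Auxiliary lemmas -/

theorem kkg_K0 (Z : ZFam f M z) {a b : ℝ} (hno : NoPl z a b) :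
    ∃ k t₀ : ℝ, 0 < k ∧ 2 ≤ t₀ ∧ ∀ K t y, t₀ ≤ t → z K t y ∈ Icc a b →
      k ≤ z K (t - 1) y - z K (t - 2) y := by
  by_contra hcon
  push Not at hcon
  have h1 : ∀ n : ℕ, ∃ K t y, (n:ℝ) + 2 ≤ t ∧ z K t y ∈ Icc a b ∧
      z K (t-1) y - z K (t-2) y < 1 / ((n:ℝ)+1) := by
    intro n
    obtain ⟨K, t, y, h1, h2, h3⟩ := hcon (1/((n:ℝ)+1)) ((n:ℝ)+2) (by positivity)
      (by linarith [(Nat.cast_nonneg n : (0:ℝ) ≤ n)])
    exact ⟨K, t, y, h1, h2, h3⟩
  choose K t y ht hz hdiff using h1
  set F : Ultrafilter ℕ := Filter.hyperfilter ℕ with hFdef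
  have hF : (F : Filter ℕ) ≤ atTop := Nat.hyperfilter_le_atTop
  have htT0 : Tendsto t atTop atTop := by
    refine tendsto_atTop_mono (f := fun n : ℕ => (n : ℝ)) (fun n => ?_)
      tendsto_natCast_atTop_atTop
    linarith [ht n]
  have htT : Tendsto t F atTop := htT0.mono_left hF
  obtain ⟨v, hv, hlim⟩ := ulim Z.nl F (fun n s x => z (K n) (t n + s) (y n + x))
    (by
      intro s
      refine Eventually.of_forall fun n r _ => ?_
      have h2 := dat_trans (Z.dat (K n) (t n + r)) (y n)
      refine ⟨?_, fun x => (Z.dat (K n) (t n + r)).mem _⟩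
      have h3 := h2.meas
      have e : (fun x => z (K n) (t n + r) (y n + x)) = fun x => z (K n) (t n + r) (x + y n) := by
        funext x; rw [add_comm (y n) x]
      rw [e]
      exact h3)
    (by
      intro s
      filter_upwards [htT.eventually_ge_atTop (-s)] with n hn r q hr hq x
      have h2 : z (K n) (t n + (r + q)) (y n + x) =
          S f M q (z (K n) (t n + r)) (y n + x) := by
        rw [← add_assoc]
        exact Z.flow (K n) (t n + r) q (by linarith) hq _
      rw [h2]
      have h3 := S_trans Z.nl (Z.dat (K n) (t n + r)) q (y n) x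
      have e : (fun x => z (K n) (t n + r) (y n + x)) = fun x => z (K n) (t n + r) (x + y n) := by
        funext x; rw [add_comm (y n) x]
      rw [e, h3, add_comm (y n) x])
  -- monotonicity
  have hmono : ∀ s r : ℝ, s ≤ r → ∀ x, v s x ≤ v r x := by
    intro s r hsr x
    refine le_of_tendsto_of_tendsto (hlim s x) (hlim r x) ?_
    filter_upwards [htT.eventually_ge_atTop (-s)] with n hn
    exact Z.mono_t (K n) _ _ (by linarith) (by linarith) _
  have h00 : v 0 0 ∈ Icc a b := by
    refine isClosed_Icc.mem_of_tendsto (hlim 0 0) (Eventually.of_forall fun n => ?_)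
    simp only [add_zero]
    exact hz n
  have hstep : v (-2) 0 = v (-1) 0 := by
    apply le_antisymm (hmono _ _ (by norm_num) _)
    have hl1 : Tendsto (fun n : ℕ => 1 / ((n:ℝ)+1)) F (𝓝 0) :=
      tendsto_one_div_add_atTop_nhds_zero_nat.mono_left hF
    have hl2 := (hlim (-2) 0).add hl1
    rw [add_zero] at hl2
    refine le_of_tendsto_of_tendsto (hlim (-1) 0) hl2 (Eventually.of_forall fun n => ?_)
    have h2 := hdiff n
    simp only [add_zero]
    have e1 : t n + -1 = t n - 1 := by ring
    have e2 : t n + -2 = t n - 2 := by ring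
    rw [e1, e2]
    linarith
  have ha : Ent f M (fun s => v (s - 1)) := by
    refine ⟨fun s => hv.dat _, fun s r hr x => ?_⟩
    have e : s + r - 1 = (s - 1) + r := by ring
    simp only [e]
    exact hv.flow _ _ hr x
  have htouch := ent_touch Z.nl ha hv (fun s x => hmono _ _ (by linarith) x)
    (t₀ := -1) (x₀ := 0) (by
      have e : (-1 - 1 : ℝ) = -2 := by norm_num
      simp only [e]
      exact hstep)
  have hm : ∀ (m : ℕ) s x, v (s - m) x = v s x := by
    intro m
    induction m with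
    | zero => intro s x; simp
    | succ m ih =>
      intro s x
      have e : s - ((m + 1 : ℕ) : ℝ) = (s - m) - 1 := by push_cast; ring
      rw [e]
      exact (htouch (s - m) x).trans (ih s x)
  have hconst_t : ∀ s r : ℝ, s ≤ r → ∀ x, v s x = v r x := by
    intro s r hsr x
    apply le_antisymm (hmono s r hsr x)
    obtain ⟨m, hm'⟩ := exists_nat_ge (r - s)
    rw [← hm m r x]
    exact hmono _ _ (by linarith) x
  have hct : ∀ s x, v s x = v 0 x := by
    intro s x
    rcases le_total s 0 with h | h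
    · exact hconst_t s 0 h x
    · exact (hconst_t 0 s h x).symm
  obtain ⟨L, hL, hsh⟩ := Z.shift
  have hshift : ∀ h x : E N, v 0 (x - h) ≤ v 0 x := by
    intro h x
    rw [← hct (L * (1 + ‖h‖)) x]
    refine le_of_tendsto_of_tendsto (hlim 0 (x - h)) (hlim _ x) ?_
    filter_upwards [htT.eventually_ge_atTop 0] with n hn
    have h2 := hsh (K n) (t n) h (L * (1 + ‖h‖)) (y n + x) hn le_rfl
    simp only [add_zero]
    rw [add_sub_assoc] at h2
    exact h2
  have hcx : ∀ x, v 0 x = v 0 0 := by
    intro x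
    apply le_antisymm
    · have := hshift (-x) 0
      simpa using this
    · have := hshift x x
      simpa using this
  exact hno F K t y htT (v 0 0) h00 (fun s x => by
    have h2 := hlim s x
    rw [hct s x, hcx x] at h2
    exact h2)

/-- Lower bound through the heat kernel on a ball. -/
theorem kkg_ball (hf : Nl f M) {g g' : E N → ℝ} (hg : Dat g) (hg' : Dat g')
    (h : ∀ x, g x ≤ g' x) {T b : ℝ} (hT1 : 1 ≤ T) (hT3 : T ≤ b) {x y : E N} {A r c : ℝ}
    (hA : ‖y - x‖ ≤ A) (hc0 : 0 ≤ c)
    (hc : ∀ t ∈ Icc (1:ℝ) b, ∀ y : E N, ‖y‖ ≤ A + r → c ≤ heatK t y) :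
    Real.exp (-(M * b)) * (c * ∫ w in Metric.closedBall y r, (g' w - g w)) ≤
      S f M T g' x - S f M T g x := by
  have hT : 0 < T := by linarith
  refine le_trans ?_ (S_pos hf hg hg' h hT x)
  have hM := hf.nn
  have hmeas : Measurable (fun w => g' w - g w) := hg'.meas.sub hg.meas
  have hb : ∀ w, |g' w - g w| ≤ 1 := fun w => by
    rw [abs_le]
    constructor <;> linarith [(hg.mem w).1, (hg.mem w).2, (hg'.mem w).1, (hg'.mem w).2]
  have hint : Integrable (fun w => heatK T (x - w) * (g' w - g w)) := P_int hT hmeas hb x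
  have hnn : ∀ w, 0 ≤ g' w - g w := fun w => by linarith [h w]
  have hI0 : 0 ≤ ∫ w in Metric.closedBall y r, (g' w - g w) :=
    setIntegral_nonneg Metric.isClosed_closedBall.measurableSet fun w _ => hnn w
  have h1 : c * ∫ w in Metric.closedBall y r, (g' w - g w) ≤ P T (fun w => g' w - g w) x := by
    unfold P
    rw [← integral_const_mul]
    refine le_trans ?_ (setIntegral_le_integral hint
      (Eventually.of_forall fun w => mul_nonneg (heatK_nonneg hT _) (hnn w)) (s :=
        Metric.closedBall y r))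
    refine setIntegral_mono_on ?_ hint.integrableOn
      Metric.isClosed_closedBall.measurableSet ?_
    · apply Measure.integrableOn_of_bounded (M := c)
        (ne_of_lt measure_closedBall_lt_top)
      · exact (hmeas.const_mul c).aestronglyMeasurable
      · refine Eventually.of_forall fun w => ?_
        rw [norm_mul, Real.norm_eq_abs, Real.norm_eq_abs, abs_of_nonneg hc0]
        nlinarith [hb w]
    · intro w hw
      refine mul_le_mul_of_nonneg_right (hc T ⟨hT1, hT3⟩ _ ?_) (hnn w)
      rw [Metric.mem_closedBall, dist_eq_norm] at hw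
      have e : x - w = -(y - x) - (w - y) := by abel
      rw [e]
      refine (norm_sub_le _ _).trans ?_
      rw [norm_neg]
      linarith
  have h2 : Real.exp (-(M * b)) ≤ Real.exp (-(M * T)) := by
    apply Real.exp_le_exp.mpr
    have := mul_le_mul_of_nonneg_left hT3 hM
    linarith
  have h3 : 0 ≤ c * ∫ w in Metric.closedBall y r, (g' w - g w) := mul_nonneg hc0 hI0
  calc _ ≤ Real.exp (-(M * T)) * (c * ∫ w in Metric.closedBall y r, (g' w - g w)) :=
        mul_le_mul_of_nonneg_right h2 h3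
    _ ≤ _ := mul_le_mul_of_nonneg_left h1 (Real.exp_nonneg _)

theorem kkg_dat_int {g : E N → ℝ} (hg : Dat g) (y : E N) (r : ℝ) :
    IntegrableOn g (Metric.closedBall y r) := by
  apply Measure.integrableOn_of_bounded (M := 1) (ne_of_lt measure_closedBall_lt_top)
  · exact hg.meas.aestronglyMeasurable
  · refine Eventually.of_forall fun w => ?_
    rw [Real.norm_eq_abs, abs_le]
    constructor <;> linarith [(hg.mem w).1, (hg.mem w).2]

theorem KKg (Z : ZFam f M z) {a b : ℝ} (A : ℝ) {H : ℝ} (hH : 0 ≤ H) (hno : NoPl z a b) :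
    ∃ k t₀ : ℝ, 0 < k ∧ H + 3 ≤ t₀ ∧ ∀ K t x, t₀ ≤ t →
      (∃ s ∈ Icc 0 H, ∃ y, ‖y - x‖ ≤ A ∧ z K (t - s) y ∈ Icc a b) →
      ∀ r ∈ Icc (0:ℝ) 1, k * r ≤ z K (t + r) x - z K t x := by
  obtain ⟨k₁, t₁, hk₁, ht₁, hK0⟩ := kkg_K0 Z hno
  obtain ⟨L, hL, hLip, -⟩ := S_reg N Z.nl
  set r₁ : ℝ := k₁ / (4 * L) with hr₁
  have hr₁pos : 0 < r₁ := by positivity
  obtain ⟨c, hc, hheat⟩ := heat_lower (N := N) (a := 1) (b := H + 2) one_pos (by linarith) (A + r₁)
  set V : ℝ := (volume (Metric.closedBall (0 : E N) r₁)).toReal with hV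
  have hVpos : 0 < V := ENNReal.toReal_pos
    (Metric.measure_closedBall_pos volume _ hr₁pos).ne' (ne_of_lt measure_closedBall_lt_top)
  set k' : ℝ := Real.exp (-(M * (H + 2))) * (c * (k₁ / 2 * V)) with hk'
  have hk'pos : 0 < k' := by positivity
  refine ⟨k' / 2, max (t₁ + H) (H + 3), by positivity, le_max_right _ _, ?_⟩
  intro K t x ht ⟨s, hs, y, hyA, hzy⟩ r hr
  have ht1 : t₁ + H ≤ t := (le_max_left _ _).trans ht
  have ht4 : H + 3 ≤ t := (le_max_right _ _).trans ht
  have hs0 := hs.1
  have hs1 := hs.2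
  -- Lipschitz bound
  have hzLip : ∀ τ, 1 ≤ τ → ∀ a b, |z K τ a - z K τ b| ≤ L * ‖a - b‖ := by
    intro τ hτ a b
    have h1 := hLip (z K 0) (Z.dat K 0) τ hτ a b
    have e : ∀ a, z K τ a = S f M τ (z K 0) a := by
      intro a
      have := Z.flow K 0 τ le_rfl (by linarith) a
      rwa [zero_add] at this
    rw [e a, e b]
    exact h1
  have hD : k₁ ≤ z K (t - s - 1) y - z K (t - s - 2) y := hK0 K (t - s) y (by linarith) hzy
  have hDball : ∀ w ∈ Metric.closedBall y r₁,
      k₁ / 2 ≤ z K (t - s - 1) w - z K (t - s - 2) w := by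
    intro w hw
    rw [Metric.mem_closedBall, dist_eq_norm] at hw
    have h1 := (abs_le.mp (hzLip (t - s - 1) (by linarith) w y)).1
    have h2 := (abs_le.mp (hzLip (t - s - 2) (by linarith) w y)).2
    have h3 : L * ‖w - y‖ ≤ L * r₁ := mul_le_mul_of_nonneg_left hw hL.le
    have h4 : L * r₁ = k₁ / 4 := by rw [hr₁]; field_simp
    linarith
  have hDint : k₁ / 2 * V ≤ ∫ w in Metric.closedBall y r₁,
      (z K (t - s - 1) w - z K (t - s - 2) w) := by
    have h1 : ∫ _w in Metric.closedBall y r₁, (k₁ / 2) = k₁ / 2 * V := by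
      rw [setIntegral_const, smul_eq_mul, mul_comm, hV, measureReal_def,
        Measure.addHaar_closedBall_center]
    rw [← h1]
    refine setIntegral_mono_on ?_ ((kkg_dat_int (Z.dat _ _) y r₁).sub
      (kkg_dat_int (Z.dat _ _) y r₁)) Metric.isClosed_closedBall.measurableSet hDball
    exact integrableOn_const (ne_of_lt measure_closedBall_lt_top)
  -- the increment over a step of length `1/m`
  have hstep : ∀ m : ℕ, 0 < m → k' / m ≤ z K (t + 1 / m) x - z K t x := by
    intro m hm
    have hm' : (0:ℝ) < m := Nat.cast_pos.2 hm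
    have hj : ∀ j ∈ Finset.range m,
        Real.exp (-(M * (H + 2))) * (c * ∫ w in Metric.closedBall y r₁,
          (z K (t - s - 2 + ((j + 1 : ℕ) : ℝ) / m) w - z K (t - s - 2 + (j : ℝ) / m) w)) ≤
        z K (t + 1 / m) x - z K t x := by
      intro j hj
      rw [Finset.mem_range] at hj
      have hj' : ((j : ℝ) + 1) ≤ m := by exact_mod_cast hj
      have hj0 : (0:ℝ) ≤ j := Nat.cast_nonneg j
      have hjm : (j : ℝ) / m ≤ 1 := by
        rw [div_le_one hm']; linarith
      have hjm0 : 0 ≤ (j : ℝ) / m := by positivity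
      have hs1m : (((j + 1 : ℕ) : ℝ)) / m = (j : ℝ) / m + 1 / m := by
        push_cast; ring
      have h1m : 0 ≤ 1 / (m : ℝ) := by positivity
      have hb := kkg_ball Z.nl (Z.dat K (t - s - 2 + (j : ℝ) / m))
        (Z.dat K (t - s - 2 + ((j + 1 : ℕ) : ℝ) / m))
        (fun w => Z.mono_t K _ _ (by linarith) (by rw [hs1m]; linarith) w)
        (T := s + 2 - (j : ℝ) / m) (by linarith) (by linarith) hyA hc.le hheat
      have e1 : S f M (s + 2 - (j : ℝ) / m) (z K (t - s - 2 + (j : ℝ) / m)) x = z K t x := by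
        rw [← Z.flow K _ _ (by linarith) (by linarith) x]
        congr 1
        ring
      have e2 : S f M (s + 2 - (j : ℝ) / m) (z K (t - s - 2 + ((j + 1 : ℕ) : ℝ) / m)) x =
          z K (t + 1 / m) x := by
        rw [← Z.flow K _ _ (by rw [hs1m]; linarith) (by linarith) x]
        congr 1
        rw [hs1m]
        ring
      rw [e1, e2] at hb
      exact hb
    have hsum := Finset.sum_le_sum hj
    rw [Finset.sum_const, Finset.card_range, nsmul_eq_mul, ← Finset.mul_sum, ← Finset.mul_sum,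
      ← integral_finsetSum] at hsum
    · have e3 : ∀ w, ∑ j ∈ Finset.range m,
          (z K (t - s - 2 + ((j + 1 : ℕ) : ℝ) / m) w - z K (t - s - 2 + (j : ℝ) / m) w) =
          z K (t - s - 1) w - z K (t - s - 2) w := by
        intro w
        rw [Finset.sum_range_sub (fun j : ℕ => z K (t - s - 2 + (j : ℝ) / m) w)]
        have e4 : t - s - 2 + (m : ℝ) / m = t - s - 1 := by
          rw [div_self hm'.ne']; ring
        have e5 : t - s - 2 + ((0 : ℕ) : ℝ) / m = t - s - 2 := by simp
        rw [e4, e5]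
      simp only [e3] at hsum
      have h5 : k' ≤ m * (z K (t + 1 / m) x - z K t x) := by
        refine le_trans ?_ hsum
        rw [hk']
        apply mul_le_mul_of_nonneg_left _ (Real.exp_nonneg _)
        exact mul_le_mul_of_nonneg_left hDint hc.le
      rw [div_le_iff₀ hm']
      linarith
    · intro j _
      exact (kkg_dat_int (Z.dat _ _) y r₁).sub (kkg_dat_int (Z.dat _ _) y r₁)
  -- general `r`
  rcases eq_or_lt_of_le hr.1 with h0 | h0
  · rw [← h0]; simp
  set m : ℕ := ⌈1 / r⌉₊ with hm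
  have h1r : 1 ≤ 1 / r := by rw [le_div_iff₀ h0]; linarith [hr.2]
  have hmpos : 0 < m := Nat.ceil_pos.2 (by linarith)
  have hm' : (0:ℝ) < m := Nat.cast_pos.2 hmpos
  have hm1 : 1 / r ≤ m := Nat.le_ceil _
  have hm2 : (m : ℝ) < 1 / r + 1 := Nat.ceil_lt_add_one (by linarith)
  have h1 : 1 / (m : ℝ) ≤ r := by
    rw [div_le_iff₀ hm']
    rw [div_le_iff₀ h0] at hm1
    linarith
  have h2 : r / 2 ≤ 1 / (m : ℝ) := by
    rw [le_div_iff₀ hm']
    have h3 : (m : ℝ) ≤ 2 / r := by
      have e : 2 / r = 1 / r + 1 / r := by ring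
      rw [e]; linarith
    calc r / 2 * m ≤ r / 2 * (2 / r) := mul_le_mul_of_nonneg_left h3 (by positivity)
      _ = 1 := by field_simp
  have h3 := hstep m hmpos
  have h4 : z K (t + 1 / m) x ≤ z K (t + r) x :=
    Z.mono_t K _ _ (add_nonneg (by linarith) (by positivity)) (by linarith) x
  have h5 : k' / 2 * r ≤ k' / m := by
    have : k' * (r / 2) ≤ k' * (1 / m) := mul_le_mul_of_nonneg_left h2 hk'pos.le
    calc k' / 2 * r = k' * (r / 2) := by ring
      _ ≤ k' * (1 / m) := this
      _ = k' / m := by ring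
  linarith

end

end Pool.Agent.AP157
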