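
import Pool.Agent.AP157.Cls
import Pool.Agent.AP157.KKg
import Pool.Agent.AP157.Kern
import Pool.Agent.AP157.TFour

/-!
# A value above the plateaus forces a seed a bounded time later

-/

set_option autoImplicit false

open MeasureTheory Real Set Filter Topology
open scoped ENNReal

namespace Pool.Agent.AP157

open Pool.Agent.X297.KP

noncomputable section

variable {N : ℕ} {f : ℝ → ℝ} {M : ℝ} {z : Set (E N) → ℝ → E N → ℝ} {α μ d₁ δ κ₁ C₁ l : ℝ}

theorem T4g (Z : ZFam f M z) {d : ℝ} (hd : 0 < d) (hd1 : d < 1) (hno : ∀ b, b < 1 → NoPl z d b) :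
    ∃ C t₀ : ℝ, 0 ≤ C ∧ 0 ≤ t₀ ∧ ∀ K t x, t₀ ≤ t → d ≤ z K t x → Seed z K (t + C) x := by
  obtain ⟨ε₀, R₀, C₇, hε₀, hR₀, hC₇, hrob⟩ := Z.robust
  obtain ⟨L, hL, hshift⟩ := Z.shift
  set d' : ℝ := min ((1 - d) / 2) (ε₀ / 2) with hd'
  have hd'0 : 0 < d' := lt_min (by linarith) (by linarith)
  have hd'1 : d' ≤ (1 - d) / 2 := min_le_left _ _
  have hd'2 : d' ≤ ε₀ / 2 := min_le_right _ _
  obtain ⟨k, t₀, hk, ht₀, hKK⟩ := KKg Z (a := d) (b := 1 - d') 0 (H := 0) le_rfl
    (hno _ (by linarith))
  obtain ⟨n, hn⟩ := exists_nat_gt (1 / k)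
  have hn' : 1 < n * k := by
    rw [div_lt_iff₀ hk] at hn
    exact hn
  have hn0 : (0:ℝ) ≤ n := Nat.cast_nonneg n
  set T : ℝ := L * (1 + R₀) with hT
  have hT0 : 0 ≤ T := by positivity
  refine ⟨n + T + C₇, t₀, by positivity, by linarith, ?_⟩
  intro K t x ht hdx
  -- the value reaches `1 - d'`
  have step : ∀ j : ℕ, d + j * k ≤ z K (t + j) x ∨ 1 - d' ≤ z K (t + j) x := by
    intro j
    induction j with
    | zero =>
      left
      simp only [Nat.cast_zero, zero_mul, add_zero]
      exact hdx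
    | succ j ih =>
      have hj0 : (0:ℝ) ≤ j := Nat.cast_nonneg j
      have hmono : z K (t + j) x ≤ z K (t + (j + 1 : ℕ)) x := by
        apply Z.mono_t K _ _ (by linarith)
        push_cast
        linarith
      by_cases h : 1 - d' ≤ z K (t + j) x
      · right; exact h.trans hmono
      · left
        have h1 := ih.resolve_right h
        push Not at h
        have h2 : d ≤ z K (t + j) x := by
          have : z K t x ≤ z K (t + j) x := Z.mono_t K _ _ (by linarith) (by linarith) x
          linarith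
        have h3 := hKK K (t + j) x (by linarith) ⟨0, ⟨le_rfl, le_rfl⟩, x, by simp, by
          rw [sub_zero]; exact ⟨h2, h.le⟩⟩ 1 ⟨zero_le_one, le_rfl⟩
        have h4 : t + (j + 1 : ℕ) = t + j + 1 := by push_cast; ring
        rw [h4]
        push_cast
        linarith
  have hval : 1 - d' ≤ z K (t + n) x := by
    rcases step n with h | h
    · exfalso
      have := ((Z.dat K (t + n)).mem x).2
      linarith
    · exact h
  -- all values in the ball are large
  have hball : ∀ y, ‖y - x‖ ≤ R₀ → z {x} 0 y - ε₀ ≤ z K (t + n + T) y := by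
    intro y hy
    have h1 := hshift K (t + n) (y - x) T y (by linarith) (by
      rw [hT]
      exact mul_le_mul_of_nonneg_left (by linarith) hL.le)
    rw [sub_sub_cancel] at h1
    have h2 := ((Z.dat {x} 0).mem y).2
    linarith
  intro y
  have h1 := hrob _ (Z.dat K (t + n + T)) x hball y
  rw [← Z.flow K (t + n + T) C₇ (by linarith) hC₇ y] at h1
  have h2 : t + (n + T + C₇) = t + n + T + C₇ := by ring
  rw [h2]
  exact h1

end

end Pool.Agent.AP157
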