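import Pool.Agent.AP157.Cls
import Pool.Agent.AP157.TFg
import Pool.Agent.AP157.Lgr
import Pool.Agent.AP157.Kern

/-!
# Exponential decay ahead of the seeds

Notation: Sd t = {y | Seed z K t y}, D t x = infDist x (Sd (t+C₄)) (K nonempty, so Sd t ⊇ K is nonempty by of_mem and seed_mono).  Let C₄, t₀ be the constants of T4g for the level d₁
(no plateaus in [d₁,b], b < 1, by ZFam.nopl_pos since f > 0 on (α,1), α < d₁), γ := (l²+μ + l/κ₁)/2 ∈ (l²+μ, l/κ₁), C_L from LG (l, μ, γ), and T ≥ C₁, T > 0 so large that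
C_L e^{l C₁/κ₁} e^{(γ - l/κ₁) T} ≤ 1; A from LG for this T.
Claim: z K t x ≤ C e^{-l D t x} for all t ≥ 0.
Base, t ∈ [0, t₀+T]: first z K 0 y ≤ C'' e^{-l infDist y K} (if infDist y K > 0: Z.loc with K' = ∅, A = infDist y K / 2, ZFam.empty, and l D - c D²/4 ≤ l²/c; otherwise z ≤ 1).
Hence with B = C'' e^{-l infDist x K}: z K 0 y ≤ B e^{l‖y-x‖} (infDist is 1-Lipschitz), and LGc with g = z K 0, g' = 0 (S_r 0 = 0 by S_const_eq; z K t = S_t (z K 0) by Z.flow) gives
z K t x ≤ C_c B ≤ C e^{-l D t x}, because D t x ≤ infDist x K (K ⊆ Sd (t+C₄)).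
Step, t > t₀ + T (so t - T ≥ t₀): assume the claim at time t - T for all points.  If D t x ≤ A: z ≤ 1 ≤ C e^{-lA} (C ≥ e^{lA}).  If D t x > A: for ‖y-x‖ ≤ A and r ∈ (0,T),
z K (t-T+r) y ≤ d₁, otherwise T4g gives a seed at y at time t-T+r+C₄ ≤ t+C₄ and D t x ≤ ‖y-x‖ ≤ A.  So the hypothesis of LG (g = z K (t-T), g' = 0) holds by H.lin.
Moreover D (t-T) x ≥ D t x + (T-C₁)/κ₁: let p ∈ Sd (t-T+C₄), ρ = (T-C₁)/κ₁; by Par.seed every point q with ‖q-p‖ ≤ ρ is in Sd (t+C₄); if ‖x-p‖ ≤ ρ then x ∈ Sd (t+C₄) and D t x = 0,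
contradiction; else take q on the segment [p,x] with ‖q-p‖ = ρ: ‖x-q‖ = ‖x-p‖-ρ ≥ D t x.
So g y ≤ C e^{-l D (t-T) y} ≤ B e^{l‖y-x‖} with B = C e^{-l D (t-T) x} ≤ C e^{-l D t x} e^{-l (T-C₁)/κ₁}, and LG gives
z K t x ≤ C_L B e^{γT} ≤ C e^{-l D t x} · C_L e^{l C₁/κ₁} e^{(γ - l/κ₁)T} ≤ C e^{-l D t x}.
Induction: prove for all n: ℕ the claim for t ∈ [0, t₀ + (n+1) T].
-/

set_option autoImplicit false

open MeasureTheory Real Set Filter Topology
open scoped ENNReal

namespace Pool.Agent.AP157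

open Pool.Agent.X297.KP

noncomputable section

variable {N : ℕ} {f : ℝ → ℝ} {M : ℝ} {z : Set (E N) → ℝ → E N → ℝ} {α μ d₁ δ κ₁ C₁ l : ℝ}

theorem tld_nopl (Z : ZFam f M z) (H : Cls f α μ d₁ δ) : ∀ b, b < 1 → NoPl z d₁ b := by
  intro b hb
  apply Z.nopl_pos
  intro q hq
  have h1 := H.pos q ⟨lt_of_lt_of_le H.α_lt hq.1, lt_of_le_of_lt hq.2 hb⟩
  exact h1.ne'

/-- the datum `z K 0` decays exponentially away from `K` -/
theorem tld_zero (Z : ZFam f M z) (hl : 0 < l) : ∃ C : ℝ, 1 ≤ C ∧ ∀ K y, K.Nonempty →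
    z K 0 y ≤ C * Real.exp (-(l * Metric.infDist y K)) := by
  obtain ⟨C, c, hC, hc, hloc⟩ := Z.loc
  refine ⟨max 1 (C * Real.exp (l ^ 2 / c)), le_max_left _ _, fun K y hK => ?_⟩
  set D := Metric.infDist y K with hD
  have hD0 : 0 ≤ D := Metric.infDist_nonneg
  rcases hD0.eq_or_lt with h0 | h0
  · rw [← h0, mul_zero, neg_zero, Real.exp_zero, mul_one]
    exact ((Z.dat K 0).mem y).2.trans (le_max_left _ _)
  · have h1 := hloc K ∅ y (D / 2) (by positivity) (by
      intro p hp hpy
      exfalso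
      have h2 : D ≤ dist y p := Metric.infDist_le_dist_of_mem hp
      rw [dist_comm, dist_eq_norm] at h2
      linarith) y (by rw [sub_self, norm_zero]; positivity)
    rw [Z.empty le_rfl, zero_add] at h1
    refine h1.trans ?_
    have h3 : -(c * (D / 2) ^ 2) ≤ l ^ 2 / c + -(l * D) := by
      have h4 : 0 ≤ (c * D / 2 - l) ^ 2 / c := by positivity
      have h5 : (c * D / 2 - l) ^ 2 / c = c * (D / 2) ^ 2 - l * D + l ^ 2 / c := by
        field_simp
        ring
      linarith
    calc C * Real.exp (-(c * (D / 2) ^ 2)) ≤ C * Real.exp (l ^ 2 / c + -(l * D)) :=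
          mul_le_mul_of_nonneg_left (Real.exp_le_exp.mpr h3) hC.le
      _ = (C * Real.exp (l ^ 2 / c)) * Real.exp (-(l * D)) := by rw [Real.exp_add]; ring
      _ ≤ _ := mul_le_mul_of_nonneg_right (le_max_right _ _) (Real.exp_nonneg _)

/-- infimum distances are 1-Lipschitz, in exponential form -/
theorem tld_lip (hl : 0 < l) (s : Set (E N)) (x y : E N) :
    Real.exp (-(l * Metric.infDist y s)) ≤
      Real.exp (-(l * Metric.infDist x s)) * Real.exp (l * ‖y - x‖) := by
  rw [← Real.exp_add]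
  apply Real.exp_le_exp.mpr
  have h1 : Metric.infDist x s ≤ Metric.infDist y s + dist x y :=
    Metric.infDist_le_infDist_add_dist
  rw [dist_comm, dist_eq_norm] at h1
  nlinarith

theorem tld_S_zero (hf : Nl f M) (t : ℝ) (x : E N) : S f M t (fun _ => 0) x = 0 :=
  S_const_eq hf ⟨le_rfl, zero_le_one⟩ hf.zero t x

/-- the seeds advance -/
theorem tld_adv (Z : ZFam f M z) (Q : Par z μ κ₁ C₁ l) {K : Set (E N)} {s s' : ℝ}
    (hs : 0 ≤ s) (hss : s + C₁ ≤ s') {x : E N} (hne : {y | Seed z K s y}.Nonempty)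
    (hx : 0 < Metric.infDist x {y | Seed z K s' y}) :
    Metric.infDist x {y | Seed z K s' y} + (s' - s - C₁) / κ₁ ≤
      Metric.infDist x {y | Seed z K s y} := by
  rw [Metric.le_infDist hne]
  intro p hp
  have hκ := Q.κ_pos
  set ρ := (s' - s - C₁) / κ₁ with hρ
  have hρ0 : 0 ≤ ρ := div_nonneg (by linarith) hκ.le
  have hκρ : κ₁ * ρ = s' - s - C₁ := by rw [hρ]; field_simp
  have hseed : ∀ q, ‖p - q‖ ≤ ρ → q ∈ {y | Seed z K s' y} := by
    intro q hq
    refine Q.seed Z hs hp ?_
    have := mul_le_mul_of_nonneg_left hq hκ.le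
    linarith
  by_cases h : ‖p - x‖ ≤ ρ
  · exfalso
    have h1 := Metric.infDist_zero_of_mem (hseed x h)
    linarith
  · push Not at h
    have hn : 0 < ‖p - x‖ := lt_of_le_of_lt hρ0 h
    have hq1 : ‖p - (p + (ρ / ‖p - x‖) • (x - p))‖ = ρ := by
      rw [sub_add_cancel_left, norm_neg, norm_smul, norm_sub_rev x p, Real.norm_eq_abs,
        abs_of_nonneg (by positivity)]
      field_simp
    have hq2 : dist x (p + (ρ / ‖p - x‖) • (x - p)) = ‖p - x‖ - ρ := by
      have e : x - (p + (ρ / ‖p - x‖) • (x - p)) = (1 - ρ / ‖p - x‖) • (x - p) := by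
        rw [sub_smul, one_smul]; abel
      have h2 : ρ / ‖p - x‖ ≤ 1 := by rw [div_le_one hn]; exact h.le
      rw [dist_eq_norm, e, norm_smul, norm_sub_rev x p, Real.norm_eq_abs,
        abs_of_nonneg (by linarith)]
      field_simp
    have h3 := Metric.infDist_le_dist_of_mem (x := x) (hseed _ hq1.le)
    rw [hq2] at h3
    rw [dist_comm, dist_eq_norm]
    linarith

theorem TLd (Z : ZFam f M z) (H : Cls f α μ d₁ δ) (Q : Par z μ κ₁ C₁ l) :
    ∃ C C₄ : ℝ, 0 < C ∧ 0 ≤ C₄ ∧ ∀ K t x, K.Nonempty → 0 ≤ t →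
      z K t x ≤ C * Real.exp (-(l * Metric.infDist x {y | Seed z K (t + C₄) y})) := by
  have hf := Z.nl
  have hl := Q.l_pos
  have hκ := Q.κ_pos
  have hd0 : 0 < d₁ := lt_of_le_of_lt H.α_nn H.α_lt
  obtain ⟨C₄, t₀, hC₄, ht₀, hT4⟩ := T4g Z hd0 H.d_lt (tld_nopl Z H)
  obtain ⟨C0, hC0, hz0⟩ := tld_zero (l := l) Z hl
  set γ : ℝ := (l ^ 2 + μ + l / κ₁) / 2 with hγ
  have hsub := Q.sub
  have hγ1 : l ^ 2 + μ < γ := by rw [hγ]; linarith
  have hγ2 : γ < l / κ₁ := by rw [hγ]; linarith
  obtain ⟨CL, hCL, hLG⟩ := LG (N := N) hf H.μ_nn hl hγ1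
  obtain ⟨T, hT0, hTC, hTb⟩ : ∃ T : ℝ, 0 < T ∧ C₁ ≤ T ∧
      CL * Real.exp (l / κ₁ * C₁) * Real.exp ((γ - l / κ₁) * T) ≤ 1 := by
    refine ⟨max (max C₁ 1) ((Real.log CL + l / κ₁ * C₁) / (l / κ₁ - γ)), ?_, ?_, ?_⟩
    · exact lt_of_lt_of_le one_pos ((le_max_right _ _).trans (le_max_left _ _))
    · exact (le_max_left _ _).trans (le_max_left _ _)
    · set T := max (max C₁ 1) ((Real.log CL + l / κ₁ * C₁) / (l / κ₁ - γ)) with hT
      have h1 : (Real.log CL + l / κ₁ * C₁) / (l / κ₁ - γ) ≤ T := le_max_right _ _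
      rw [div_le_iff₀ (by linarith)] at h1
      have hCL0 : 0 < CL := by linarith
      calc CL * Real.exp (l / κ₁ * C₁) * Real.exp ((γ - l / κ₁) * T)
          = Real.exp (Real.log CL + l / κ₁ * C₁ + (γ - l / κ₁) * T) := by
            rw [Real.exp_add, Real.exp_add, Real.exp_log hCL0]
        _ ≤ Real.exp 0 := Real.exp_le_exp.mpr (by nlinarith)
        _ = 1 := Real.exp_zero
  obtain ⟨A, hA0, hLGA⟩ := hLG T hT0
  obtain ⟨Cc, hCc, hLGc⟩ := LGc N hf hl (T₀ := t₀ + T) (by linarith)
  set C : ℝ := max (Cc * C0) (Real.exp (l * A)) with hC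
  have hCpos : 0 < C := lt_of_lt_of_le (Real.exp_pos _) (le_max_right _ _)
  refine ⟨C, C₄, hCpos, hC₄, ?_⟩
  have hsd : ∀ (K : Set (E N)) (t : ℝ), 0 ≤ t → K ⊆ {y | Seed z K (t + C₄) y} := by
    intro K t ht y hy
    exact Z.seed_mono le_rfl (by linarith) (Z.of_mem K y hy)
  -- the base case
  have hbase : ∀ (K : Set (E N)) (t : ℝ) (x : E N), K.Nonempty → 0 ≤ t → t ≤ t₀ + T →
      z K t x ≤ C * Real.exp (-(l * Metric.infDist x {y | Seed z K (t + C₄) y})) := by
    intro K t x hK ht htT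
    have h1 := hLGc t ⟨ht, htT⟩ (z K 0) (fun _ => 0) x
      (C0 * Real.exp (-(l * Metric.infDist x K))) (Z.dat K 0) (dat_const ⟨le_rfl, zero_le_one⟩)
      (by positivity) (by
        intro y
        have h2 := hz0 K y hK
        have h3 := mul_le_mul_of_nonneg_left (tld_lip hl K x y) (by linarith : (0:ℝ) ≤ C0)
        rw [← mul_assoc] at h3
        linarith)
    have h4 := Z.flow K 0 t le_rfl ht x
    rw [zero_add] at h4
    rw [tld_S_zero hf, sub_zero, ← h4, ← mul_assoc] at h1
    refine h1.trans ?_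
    have h5 : Metric.infDist x {y | Seed z K (t + C₄) y} ≤ Metric.infDist x K :=
      Metric.infDist_le_infDist_of_subset (hsd K t ht) hK
    apply mul_le_mul (le_max_left _ _) _ (Real.exp_nonneg _) hCpos.le
    apply Real.exp_le_exp.mpr
    nlinarith
  -- the induction
  have hind : ∀ n : ℕ, ∀ (K : Set (E N)) (t : ℝ) (x : E N), K.Nonempty → 0 ≤ t →
      t ≤ t₀ + (n + 1) * T →
      z K t x ≤ C * Real.exp (-(l * Metric.infDist x {y | Seed z K (t + C₄) y})) := by
    intro n
    induction n with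
    | zero =>
      intro K t x hK ht htT
      apply hbase K t x hK ht
      simpa using htT
    | succ n ih =>
      intro K t x hK ht htT
      by_cases hsmall : t ≤ t₀ + T
      · exact hbase K t x hK ht hsmall
      push Not at hsmall
      have ht' : t₀ ≤ t - T := by linarith
      have ht'0 : 0 ≤ t - T := by linarith
      by_cases hD : Metric.infDist x {y | Seed z K (t + C₄) y} ≤ A
      · refine ((Z.dat K t).mem x).2.trans ?_
        have h1 : Real.exp (l * A) ≤ C := le_max_right _ _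
        have h2 : 1 ≤ Real.exp (l * A) *
            Real.exp (-(l * Metric.infDist x {y | Seed z K (t + C₄) y})) := by
          rw [← Real.exp_add]
          apply Real.one_le_exp
          nlinarith
        exact h2.trans (mul_le_mul_of_nonneg_right h1 (Real.exp_nonneg _))
      · push Not at hD
        have hih := ih K (t - T)
        have hne : {y | Seed z K (t - T + C₄) y}.Nonempty := hK.mono (hsd K _ ht'0)
        have hadv := tld_adv Z Q (K := K) (s := t - T + C₄) (s' := t + C₄) (by linarith)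
          (by linarith) hne (lt_of_le_of_lt hA0 hD)
        have e1 : t + C₄ - (t - T + C₄) - C₁ = T - C₁ := by ring
        rw [e1] at hadv
        have hS : ∀ r, 0 ≤ r → ∀ y, S f M r (z K (t - T)) y = z K (t - T + r) y := by
          intro r hr y
          exact (Z.flow K (t - T) r ht'0 hr y).symm
        have h1 := hLGA (z K (t - T)) (fun _ => 0) x
          (C * Real.exp (-(l * Metric.infDist x {y | Seed z K (t - T + C₄) y})))
          (Z.dat K _) (dat_const ⟨le_rfl, zero_le_one⟩) (by positivity) (by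
            intro y
            have h2 := hih y hK ht'0 (by push_cast at htT; linarith)
            have h3 := mul_le_mul_of_nonneg_left
              (tld_lip hl {y | Seed z K (t - T + C₄) y} x y) hCpos.le
            rw [← mul_assoc] at h3
            linarith) (by
            intro r hr y hy _
            rw [tld_S_zero hf, hf.zero, sub_zero, sub_zero, hS r hr.1.le]
            apply H.lin
            refine ⟨((Z.dat K _).mem y).1, ?_⟩
            by_contra hcon
            push Not at hcon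
            have h4 : Seed z K (t - T + r + C₄) y :=
              hT4 K (t - T + r) y (by linarith [hr.1]) hcon.le
            have h5 : Seed z K (t + C₄) y :=
              Z.seed_mono (by linarith [hr.1]) (by linarith [hr.2]) h4
            have h6 : Metric.infDist x {y | Seed z K (t + C₄) y} ≤ dist x y :=
              Metric.infDist_le_dist_of_mem h5
            rw [dist_comm, dist_eq_norm] at h6
            linarith)
        rw [tld_S_zero hf, sub_zero, hS T hT0.le, sub_add_cancel] at h1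
        refine h1.trans ?_
        have h7 : Real.exp (-(l * Metric.infDist x {y | Seed z K (t - T + C₄) y})) ≤
            Real.exp (-(l * Metric.infDist x {y | Seed z K (t + C₄) y})) *
              (Real.exp (l / κ₁ * C₁) * Real.exp (-(l / κ₁) * T)) := by
          rw [← Real.exp_add, ← Real.exp_add]
          apply Real.exp_le_exp.mpr
          have h8 := mul_le_mul_of_nonneg_left hadv hl.le
          have h9 : l * ((T - C₁) / κ₁) = l / κ₁ * T - l / κ₁ * C₁ := by
            field_simp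
          nlinarith
        have hCL0 : 0 < CL := by linarith
        calc CL * (C * Real.exp (-(l * Metric.infDist x {y | Seed z K (t - T + C₄) y}))) *
              Real.exp (γ * T)
            ≤ CL * (C * (Real.exp (-(l * Metric.infDist x {y | Seed z K (t + C₄) y})) *
              (Real.exp (l / κ₁ * C₁) * Real.exp (-(l / κ₁) * T)))) * Real.exp (γ * T) := by
              gcongr
          _ = C * Real.exp (-(l * Metric.infDist x {y | Seed z K (t + C₄) y})) *
              (CL * Real.exp (l / κ₁ * C₁) * (Real.exp (-(l / κ₁) * T) * Real.exp (γ * T))) := by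
              ring
          _ = C * Real.exp (-(l * Metric.infDist x {y | Seed z K (t + C₄) y})) *
              (CL * Real.exp (l / κ₁ * C₁) * Real.exp ((γ - l / κ₁) * T)) := by
              rw [← Real.exp_add]
              congr 3
              ring
          _ ≤ C * Real.exp (-(l * Metric.infDist x {y | Seed z K (t + C₄) y})) * 1 :=
              mul_le_mul_of_nonneg_left hTb (by positivity)
          _ = _ := mul_one _
  intro K t x hK ht
  obtain ⟨n, hn⟩ := exists_nat_ge (t / T)
  apply hind n K t x hK ht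
  rw [div_le_iff₀ hT0] at hn
  nlinarith

end

end Pool.Agent.AP157
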