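import Pool.Agent.AP157.Cls
import Pool.Agent.AP157.TLd
import Pool.Agent.AP157.Kern

/-!
# Consequences of the exponential decay

TLw: for y ∈ Sd (t+C₄): tau K y ≤ t+C₄ (tau_ge), so by Par.tau_lip tau K x ≤ t + C₄ + κ₁‖x-y‖ + C₁; taking the infimum over y (Sd nonempty): κ₁ infDist x (Sd (t+C₄)) ≥ tau K x - t - C₄ - C₁,
multiply by l/κ₁ > 0 and insert in TLd.
T4d: K = ∅ is impossible (ZFam.empty, z ∅ t x = 0 < d).  K nonempty: TLd gives d ≤ C e^{-l D}, so D ≤ log(C/d)/l, there is y with Seed z K (t+C₄) y, ‖x-y‖ < max(log(C/d)/l,0) + 1 (Metric.infDist_lt_iff),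
and Par.seed gives the seed at x at time t + C₄ + κ₁(...) + C₁.
nopl: let p ∈ [a,b] be a constant limit; T4d with d = a/2 at time t i (s = 0, y = 0; for large i the value is ≥ a/2 and t i ≥ 0): Seed z (K i) (t i + C) (x i), then ZFam.seed_fill (R = 0, ε = (1-b)/2):
z (K i) (t i + C + T) (x i) ≥ 1 - ε > b, contradiction with the limit p ≤ b (s = C + T, y = 0).
-/

set_option autoImplicit false

open MeasureTheory Real Set Filter Topology
open scoped ENNReal

namespace Pool.Agent.AP157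

open Pool.Agent.X297.KP

noncomputable section

variable {N : ℕ} {f : ℝ → ℝ} {M : ℝ} {z : Set (E N) → ℝ → E N → ℝ} {α μ d₁ δ κ₁ C₁ l : ℝ}

theorem tle_ne (Z : ZFam f M z) {K : Set (E N)} (hK : K.Nonempty) {t : ℝ} (ht : 0 ≤ t) :
    ({y | Seed z K t y} : Set (E N)).Nonempty := by
  obtain ⟨y, hy⟩ := hK
  exact ⟨y, Z.seed_mono le_rfl ht (Z.of_mem K y hy)⟩

theorem TLw (Z : ZFam f M z) (H : Cls f α μ d₁ δ) (Q : Par z μ κ₁ C₁ l) :
    ∃ C : ℝ, 0 < C ∧ ∀ K t x, K.Nonempty → 0 ≤ t → z K t x ≤ C * Wt z K (l / κ₁) t x := by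
  obtain ⟨C, C₄, hC, hC4, h⟩ := TLd Z H Q
  refine ⟨C * Real.exp (l / κ₁ * (C₄ + C₁)), by positivity, ?_⟩
  intro K t x hK ht
  refine (h K t x hK ht).trans ?_
  unfold Wt
  rw [mul_assoc, ← Real.exp_add]
  apply mul_le_mul_of_nonneg_left _ hC.le
  apply Real.exp_le_exp.mpr
  have hκ := Q.κ_pos
  have hne := tle_ne Z hK (t := t + C₄) (by linarith)
  have h1 : (tau (Seed z) K x - t - C₄ - C₁) / κ₁ ≤
      Metric.infDist x {y | Seed z K (t + C₄) y} := by
    rw [Metric.le_infDist hne]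
    intro y hy
    have h2 : tau (Seed z) K y ≤ t + C₄ := tau_ge (by linarith) hy
    have h3 := Q.tau_lip Z hK y x
    rw [div_le_iff₀ hκ, dist_comm, dist_eq_norm]
    linarith
  have h4 := mul_le_mul_of_nonneg_left h1 Q.l_pos.le
  have h5 : l * ((tau (Seed z) K x - t - C₄ - C₁) / κ₁) =
      l / κ₁ * (tau (Seed z) K x - t - C₄ - C₁) := by ring
  rw [h5] at h4
  nlinarith

theorem T4d (Z : ZFam f M z) (H : Cls f α μ d₁ δ) (Q : Par z μ κ₁ C₁ l) {d : ℝ} (hd : 0 < d) :
    ∃ C : ℝ, 0 ≤ C ∧ ∀ K t x, 0 ≤ t → d ≤ z K t x → Seed z K (t + C) x := by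
  obtain ⟨C, C₄, hC, hC4, h⟩ := TLd Z H Q
  have hκ := Q.κ_pos
  have hC1 := Q.C_nn
  have hl := Q.l_pos
  set D₀ : ℝ := max (Real.log (C / d) / l) 0 + 1 with hD0
  have hD0p : 0 < D₀ := by
    have := le_max_right (Real.log (C / d) / l) 0
    linarith
  refine ⟨C₄ + (κ₁ * D₀ + C₁), by positivity, ?_⟩
  intro K t x ht hdz
  have hK : K.Nonempty := by
    by_contra hne
    rw [Set.not_nonempty_iff_eq_empty] at hne
    subst hne
    have := Z.empty ht x
    linarith
  have h1 := hdz.trans (h K t x hK ht)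
  have hne := tle_ne Z hK (t := t + C₄) (by linarith)
  have h2 : Metric.infDist x {y | Seed z K (t + C₄) y} < D₀ := by
    set D := Metric.infDist x {y | Seed z K (t + C₄) y} with hD
    have h3 : Real.log d ≤ Real.log (C * Real.exp (-(l * D))) := Real.log_le_log hd h1
    rw [Real.log_mul hC.ne' (Real.exp_pos _).ne', Real.log_exp] at h3
    have h4 : l * D ≤ Real.log (C / d) := by
      rw [Real.log_div hC.ne' hd.ne']
      linarith
    have h5 : D ≤ Real.log (C / d) / l := by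
      rw [le_div_iff₀ hl]
      linarith
    have h6 := le_max_left (Real.log (C / d) / l) 0
    linarith
  rw [Metric.infDist_lt_iff hne] at h2
  obtain ⟨y, hy, hxy⟩ := h2
  have hy' : Seed z K (t + C₄) y := hy
  refine Q.seed Z (by linarith) hy' ?_
  rw [dist_comm, dist_eq_norm] at hxy
  have := mul_le_mul_of_nonneg_left hxy.le hκ.le
  linarith

theorem nopl (Z : ZFam f M z) (H : Cls f α μ d₁ δ) (Q : Par z μ κ₁ C₁ l) {a b : ℝ}
    (ha : 0 < a) (hb : b < 1) : NoPl z a b := by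
  intro F K t x ht p hp hlim
  obtain ⟨C, hC, h⟩ := T4d Z H Q (d := a / 2) (by linarith)
  obtain ⟨T, hT, hfill⟩ := Z.seed_fill 0 (ε := (1 - b) / 2) (by linarith)
  have h0 : Tendsto (fun i => z (K i) (t i) (x i)) F (𝓝 p) := by
    have := hlim 0 0
    simpa using this
  have h1 : ∀ᶠ i in (F : Filter ℕ), a / 2 < z (K i) (t i) (x i) :=
    h0.eventually (lt_mem_nhds (by have := hp.1; linarith))
  have h2 : Tendsto (fun i => z (K i) (t i + (C + T)) (x i)) F (𝓝 p) := by
    have := hlim (C + T) 0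
    simpa using this
  have h3 : ∀ᶠ i in (F : Filter ℕ), 1 - (1 - b) / 2 ≤ z (K i) (t i + (C + T)) (x i) := by
    filter_upwards [h1, ht.eventually_ge_atTop 0] with i hi1 hi2
    have hs := h (K i) (t i) (x i) hi2 hi1.le
    exact hfill (K i) (t i + C) (t i + (C + T)) (x i) (x i) (by linarith) hs (by simp) (by linarith)
  have h4 := ge_of_tendsto h2 h3
  have := hp.2
  linarith

end

end Pool.Agent.AP157

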