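import Pool.Agent.AP157.Cls
import Pool.Agent.AP157.TLe
import Pool.Agent.AP157.Lgr
import Pool.Agent.AP157.KKg
import Pool.Agent.AP157.Kern

/-!
# Stability of the reference solutions, with weights

ν = l/κ₁, W a x = Wt z K ν a x = exp(ν (a - τ x)), γ₁ := (l²+μ+ν)/2 ∈ (l²+μ, ν), C_L from LG (l, μ, γ₁), T ≥ 1 with C_L e^{νC₁} e^{(γ₁-ν)T} ≤ 1/2, A from LG for this T, C_c from LGc (T₀ = T),
T_f from ZFam.seed_fill (R = 0, ε = δ/2), k, t₁ from KKg with a = δ, b = 1-δ, this A and H = T (no plateau by nopl).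
(1) If 0 ≤ s', z K s' y ≤ 1-δ then τ y ≥ s' - T_f (otherwise tau_lt at time s' - T_f, if that is > τ y ≥ 0, and seed_fill: z K s' y ≥ 1 - δ/2).
(2) Let g ≤ z K a + q W a.  Then g y - z K a y ≤ B_x e^{l‖y-x‖}, B_x = q e^{νC₁} W a x (Par.Wt_le).  Hence S_r g x - z K (a+r) x ≤ C_c q e^{νC₁} W a x, r ∈ [0,T] (LGc; S_r (z K a) = z K (a+r) by Z.flow).
(3) One step: for a ≥ t₁ (and a ≥ 0), 0 ≤ q ≤ q₀: S_T g ≤ z K (a+T+C'q) + (1/2) q W (a+T).   Case I: there are s ∈ [0,T], ‖y-x‖ ≤ A with z K (a+T-s) y ∈ [δ,1-δ].  By (1) and tau_lip W a x ≤ W̄ := e^{ν(T_f+κ₁A+C₁)}, so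
 S_T g x ≤ z K (a+T) x + C_c q e^{νC₁} W̄ ≤ z K (a+T+C'q) x by KKg (r = C'q ≤ 1, k C' ≥ C_c e^{νC₁} W̄).   Case II: no such (s,y).  Then the hypothesis of LG holds (g, g' = z K a): at (r,y), with v = z K (a+r) y < S_r g y: if v > 1-δ use
 H.st1; if v < δ then by (1) W a y ≤ e^{ν T_f}, by (2) S_r g y ≤ δ + C_c q₀ e^{ν(C₁+T_f)} ≤ 2δ (choice of q₀), use H.st0.  LG: S_T g x - z K (a+T) x ≤ C_L q e^{νC₁} W a x e^{γ₁T} ≤ (1/2) q W (a+T) x (W (a+T) = e^{νT} W a).  (Add mono_t.)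
(4) Iterate: S_{nT} g ≤ z K (a+nT+σ_n) + 2^{-n} q W (a+nT+σ_n), σ_n = C'q(1+1/2+...+2^{-(n-1)}) ≤ 2C'q (Wt_mono).  For t = nT + r, r ∈ [0,T): first apply (2) with r: S_r g ≤ z K (a+r) + q' W (a+r), q' = C_c e^{νC₁} q (Wt_mono), then (4) to
 S_r g with q' (q₀ so small that q' is admissible).  Finally W (a+t+σ) ≤ e^{νσ} W (a+t), σ ≤ 2C'q' bounded, and 2^{-n} ≤ 2 e^{-(log 2/T) t}.
-/

set_option autoImplicit false

open MeasureTheory Real Set Filter Topology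
open scoped ENNReal

namespace Pool.Agent.AP157

open Pool.Agent.X297.KP

noncomputable section

variable {N : ℕ} {f : ℝ → ℝ} {M : ℝ} {z : Set (E N) → ℝ → E N → ℝ} {α μ d₁ δ κ₁ C₁ l : ℝ}

/-! ## Auxiliary lemmas -/

/-- (1) a value below `1 - δ` means that the seed arrived recently -/
theorem fmw_tau (Z : ZFam f M z) (hδ : 0 < δ) : ∃ Tf : ℝ, 0 ≤ Tf ∧ ∀ K s y, K.Nonempty → 0 ≤ s →
    z K s y ≤ 1 - δ → s - Tf ≤ tau (Seed z) K y := by
  obtain ⟨Tf, hTf, h⟩ := Z.seed_fill 0 (ε := δ / 2) (by positivity)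
  refine ⟨Tf, hTf, fun K s y hK hs hy => ?_⟩
  by_contra hlt
  push Not at hlt
  have h0 := tau_nn (z := z) K y
  have h1 : Seed z K (s - Tf) y := Z.tau_lt hK hlt
  have h2 := h K (s - Tf) s y y (by linarith) h1 (by simp) (by linarith)
  linarith

/-- (2) crude bound -/
theorem fmw_crude (Z : ZFam f M z) (Q : Par z μ κ₁ C₁ l) {T : ℝ} (hT : 0 ≤ T) :
    ∃ C : ℝ, 1 ≤ C ∧ ∀ K a q g, K.Nonempty → Dat g → 0 ≤ a → 0 ≤ q →
      (∀ x, g x ≤ z K a x + q * Wt z K (l / κ₁) a x) → ∀ r ∈ Icc 0 T, ∀ x,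
        S f M r g x ≤ z K (a + r) x + C * q * Real.exp (l / κ₁ * C₁) * Wt z K (l / κ₁) a x := by
  obtain ⟨C, hC, h⟩ := LGc N Z.nl Q.l_pos hT
  refine ⟨C, hC, fun K a q g hK hg ha hq hgz r hr x => ?_⟩
  have h1 := h r hr g (z K a) x (q * Real.exp (l / κ₁ * C₁) * Wt z K (l / κ₁) a x) hg (Z.dat K a)
    (by have := Wt_pos (z := z) K (l / κ₁) a x; positivity) (fun y => by
      have h2 := hgz y
      have h3 := mul_le_mul_of_nonneg_left (Q.Wt_le Z hK a x y) hq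
      have e : q * (Real.exp (l / κ₁ * C₁) * Wt z K (l / κ₁) a x * Real.exp (l * ‖y - x‖)) =
        q * Real.exp (l / κ₁ * C₁) * Wt z K (l / κ₁) a x * Real.exp (l * ‖y - x‖) := by ring
      rw [e] at h3
      linarith)
  rw [Z.flow K a r ha hr.1 x]
  have e : C * q * Real.exp (l / κ₁ * C₁) * Wt z K (l / κ₁) a x =
    C * (q * Real.exp (l / κ₁ * C₁) * Wt z K (l / κ₁) a x) := by ring
  rw [e]
  linarith

/-- (3) one step -/
theorem fmw_step (Z : ZFam f M z) (H : Cls f α μ d₁ δ) (Q : Par z μ κ₁ C₁ l) :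
    ∃ T C q₀ t₀ : ℝ, 1 ≤ T ∧ 0 < C ∧ 0 < q₀ ∧ C * q₀ ≤ 1 ∧ 0 ≤ t₀ ∧ ∀ K a q g, K.Nonempty →
      Dat g → t₀ ≤ a → 0 ≤ q → q ≤ q₀ → (∀ x, g x ≤ z K a x + q * Wt z K (l / κ₁) a x) →
      ∀ x, S f M T g x ≤ z K (a + T + C * q) x + q / 2 * Wt z K (l / κ₁) (a + T) x := by
  have hδ := H.δ_pos
  have hδ8 := H.δ_le
  have hν := Q.nu_pos
  obtain ⟨ν, hνe⟩ : ∃ ν, ν = l / κ₁ := ⟨_, rfl⟩
  rw [← hνe] at hν
  have hsub := Q.sub
  rw [← hνe] at hsub
  obtain ⟨γ, hγ1, hγ2⟩ : ∃ γ, l ^ 2 + μ < γ ∧ γ < ν := exists_between hsub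
  obtain ⟨CL, hCL, hLG⟩ := LG (N := N) Z.nl H.μ_nn Q.l_pos hγ1
  have hCL0 : 0 < CL := lt_of_lt_of_le one_pos hCL
  -- choice of T
  obtain ⟨T, hT1, hT⟩ : ∃ T : ℝ, 1 ≤ T ∧
      CL * Real.exp (ν * C₁) * Real.exp ((γ - ν) * T) ≤ 1 / 2 := by
    have h1 : Tendsto (fun T : ℝ => CL * Real.exp (ν * C₁) * Real.exp ((γ - ν) * T)) atTop
        (𝓝 (CL * Real.exp (ν * C₁) * 0)) := by
      apply Tendsto.const_mul
      apply Real.tendsto_exp_atBot.comp
      exact tendsto_id.const_mul_atTop_of_neg (by linarith)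
    rw [mul_zero] at h1
    have h2 := (h1.eventually_le_const (by norm_num : (0:ℝ) < 1 / 2)).and (eventually_ge_atTop 1)
    obtain ⟨T, h3, h4⟩ := h2.exists
    exact ⟨T, h4, h3⟩
  have hT0 : 0 < T := by linarith
  obtain ⟨A, hA, hLG⟩ := hLG T hT0
  obtain ⟨Cc, hCc, hcr⟩ := fmw_crude Z Q hT0.le
  have hCc0 : 0 < Cc := lt_of_lt_of_le one_pos hCc
  obtain ⟨Tf, hTf, htau⟩ := fmw_tau Z hδ
  obtain ⟨k, t₁, hk, ht₁, hKK⟩ := KKg Z A hT0.le (nopl Z H Q (a := δ) (b := 1 - δ) hδ (by linarith))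
  rw [← hνe] at hcr
  obtain ⟨W₀, hW₀⟩ : ∃ W₀, W₀ = Real.exp (ν * (Tf + κ₁ * A + C₁)) := ⟨_, rfl⟩
  have hW₀p : 0 < W₀ := by rw [hW₀]; exact Real.exp_pos _
  obtain ⟨E₁, hE₁⟩ : ∃ E₁, E₁ = Real.exp (ν * C₁) := ⟨_, rfl⟩
  have hE₁p : 0 < E₁ := by rw [hE₁]; exact Real.exp_pos _
  obtain ⟨C', hC'⟩ : ∃ C', C' = Cc * E₁ * W₀ / k := ⟨_, rfl⟩
  have hC'p : 0 < C' := by rw [hC']; positivity
  have hkC' : k * C' = Cc * E₁ * W₀ := by rw [hC']; field_simp
  obtain ⟨E₂, hE₂⟩ : ∃ E₂, E₂ = Real.exp (ν * Tf) := ⟨_, rfl⟩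
  have hE₂p : 0 < E₂ := by rw [hE₂]; exact Real.exp_pos _
  refine ⟨T, C', min (1 / C') (δ / (Cc * E₁ * E₂)), t₁, hT1, hC'p, by positivity, ?_, by linarith,
    ?_⟩
  · calc C' * min (1 / C') (δ / (Cc * E₁ * E₂)) ≤ C' * (1 / C') :=
        mul_le_mul_of_nonneg_left (min_le_left _ _) hC'p.le
      _ = 1 := by field_simp
  intro K a q g hK hg ha hq hq0 hgz x
  rw [← hνe] at hgz ⊢
  have ha0 : 0 ≤ a := by linarith
  have hq1 : C' * q ≤ 1 := by
    have := hq0.trans (min_le_left _ _)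
    rw [le_div_iff₀ hC'p] at this
    linarith
  have hq2 : Cc * q * E₁ * E₂ ≤ δ := by
    have := hq0.trans (min_le_right _ _)
    rw [le_div_iff₀ (by positivity)] at this
    linarith
  have hC'q : 0 ≤ C' * q := by positivity
  have hcr' := hcr K a q g hK hg ha0 hq (fun x => hgz x)
  by_cases hcase : ∃ s ∈ Icc 0 T, ∃ y, ‖y - x‖ ≤ A ∧ z K (a + T - s) y ∈ Icc δ (1 - δ)
  · -- Case I
    obtain ⟨s, hs, y, hyx, hy⟩ := hcase
    have h1 := htau K (a + T - s) y hK (by linarith [hs.2]) hy.2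
    have h2 := Q.tau_lip Z hK x y
    have hxy : ‖x - y‖ ≤ A := by rwa [norm_sub_rev]
    have h3 : κ₁ * ‖x - y‖ ≤ κ₁ * A := mul_le_mul_of_nonneg_left hxy Q.κ_pos.le
    have h4 : Wt z K ν a x ≤ W₀ := by
      rw [hW₀]
      unfold Wt
      apply Real.exp_le_exp.mpr
      apply mul_le_mul_of_nonneg_left _ hν.le
      linarith [hs.2]
    have h5 := hcr' T ⟨hT0.le, le_rfl⟩ x
    rw [← hE₁] at h5
    have h6 := hKK K (a + T) x (by linarith) ⟨s, hs, y, hyx, hy⟩ (C' * q) ⟨hC'q, hq1⟩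
    have h7 : Cc * q * E₁ * Wt z K ν a x ≤ k * (C' * q) := by
      calc Cc * q * E₁ * Wt z K ν a x ≤ Cc * q * E₁ * W₀ :=
            mul_le_mul_of_nonneg_left h4 (by positivity)
        _ = (Cc * E₁ * W₀) * q := by ring
        _ = k * (C' * q) := by rw [← hkC']; ring
    have h8 : 0 ≤ q / 2 * Wt z K ν (a + T) x := by
      have := Wt_pos (z := z) K ν (a + T) x
      positivity
    linarith
  · -- Case II
    push Not at hcase
    have h1 := hLG g (z K a) x (q * E₁ * Wt z K ν a x) hg (Z.dat K a)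
      (by have := Wt_pos (z := z) K ν a x; positivity) (fun y => by
        have h2 := hgz y
        have h3 := mul_le_mul_of_nonneg_left (Q.Wt_le Z hK a x y) hq
        rw [← hνe, ← hE₁] at h3
        have e : q * (E₁ * Wt z K ν a x * Real.exp (l * ‖y - x‖)) =
          q * E₁ * Wt z K ν a x * Real.exp (l * ‖y - x‖) := by ring
        rw [e] at h3
        linarith) (fun r hr y hy hlt => by
        have hv : S f M r (z K a) y = z K (a + r) y := (Z.flow K a r ha0 hr.1.le y).symm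
        have h2 := hcase (T - r) ⟨by linarith [hr.2], by linarith [hr.1]⟩ y hy
        rw [show a + T - (T - r) = a + r by ring] at h2
        have hp1 := (S_mem Z.nl hg r y).2
        have hv0 := ((Z.dat K (a + r)).mem y).1
        rw [hv] at hlt ⊢
        by_cases hv1 : z K (a + r) y < δ
        · have h3 := htau K (a + r) y hK (by linarith [hr.1]) (by linarith)
          have h4 : Wt z K ν a y ≤ E₂ := by
            rw [hE₂]
            unfold Wt
            apply Real.exp_le_exp.mpr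
            apply mul_le_mul_of_nonneg_left _ hν.le
            linarith [hr.1]
          have h5 := hcr' r ⟨hr.1.le, hr.2.le⟩ y
          rw [← hE₁] at h5
          have h6 : Cc * q * E₁ * Wt z K ν a y ≤ Cc * q * E₁ * E₂ :=
            mul_le_mul_of_nonneg_left h4 (by positivity)
          exact H.st0 _ _ hv0 hlt.le (by linarith)
        · have h3 : 1 - δ < z K (a + r) y := by
            by_contra h4
            exact h2 ⟨not_lt.mp hv1, not_lt.mp h4⟩
          exact H.st1 _ _ (by linarith) hlt.le hp1)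
    have h2 : S f M T (z K a) x = z K (a + T) x := (Z.flow K a T ha0 hT0.le x).symm
    rw [h2] at h1
    have h3 := Z.mono_t K (a + T) (a + T + C' * q) (by linarith) (by linarith) x
    have h4 : CL * (q * E₁ * Wt z K ν a x) * Real.exp (γ * T) ≤ q / 2 * Wt z K ν (a + T) x := by
      rw [Wt_add]
      have e1 : Real.exp (γ * T) = Real.exp ((γ - ν) * T) * Real.exp (ν * T) := by
        rw [← Real.exp_add]
        congr 1
        ring
      rw [e1]
      have hWp := Wt_pos (z := z) K ν a x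
      have h5 : 0 ≤ q * (Real.exp (ν * T) * Wt z K ν a x) := by positivity
      calc CL * (q * E₁ * Wt z K ν a x) * (Real.exp ((γ - ν) * T) * Real.exp (ν * T))
          = (CL * E₁ * Real.exp ((γ - ν) * T)) * (q * (Real.exp (ν * T) * Wt z K ν a x)) := by ring
        _ ≤ (1 / 2) * (q * (Real.exp (ν * T) * Wt z K ν a x)) := by
            apply mul_le_mul_of_nonneg_right _ h5
            rw [hE₁]
            exact hT
        _ = q / 2 * (Real.exp (ν * T) * Wt z K ν a x) := by ring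
    linarith

/-- (4) iteration -/
theorem fmw_iter (Z : ZFam f M z) {ν T C q₀ t₀ : ℝ} (hν : 0 ≤ ν) (hT : 1 ≤ T) (hC : 0 < C)
    (ht₀ : 0 ≤ t₀)
    (hst : ∀ K a q (g : E N → ℝ), K.Nonempty →
      Dat g → t₀ ≤ a → 0 ≤ q → q ≤ q₀ → (∀ x, g x ≤ z K a x + q * Wt z K ν a x) →
      ∀ x, S f M T g x ≤ z K (a + T + C * q) x + q / 2 * Wt z K ν (a + T) x) (n : ℕ) :
    ∀ K a q (g : E N → ℝ), K.Nonempty → Dat g → t₀ ≤ a → 0 ≤ q → q ≤ q₀ →
      (∀ x, g x ≤ z K a x + q * Wt z K ν a x) → ∀ x,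
      S f M (n * T) g x ≤ z K (a + n * T + 2 * C * q) x +
        (1 / 2) ^ n * q * Wt z K ν (a + n * T + 2 * C * q) x := by
  induction n with
  | zero =>
    intro K a q g hK hg ha hq hq0 hgz x
    have hCq : 0 ≤ 2 * C * q := by positivity
    have e : ((0 : ℕ) : ℝ) * T = 0 := by simp
    rw [e, S_zero, add_zero, pow_zero, one_mul]
    have h1 := Z.mono_t K a (a + 2 * C * q) (by linarith) (by linarith) x
    have h2 := mul_le_mul_of_nonneg_left
      (Wt_mono (z := z) K hν (by linarith : a ≤ a + 2 * C * q) x) hq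
    have := hgz x
    linarith
  | succ n ih =>
    intro K a q g hK hg ha hq hq0 hgz x
    have hT0 : 0 < T := by linarith
    have hCq : 0 ≤ C * q := by positivity
    have h1 := hst K a q g hK hg ha hq hq0 hgz
    have h2 := ih K (a + T + C * q) (q / 2) (S f M T g) hK (S_dat Z.nl hg T) (by linarith)
      (by linarith) (by linarith) (fun y => by
        refine (h1 y).trans ?_
        have := mul_le_mul_of_nonneg_left
          (Wt_mono (z := z) K hν (by linarith : a + T ≤ a + T + C * q) y) (by positivity : 0 ≤ q / 2)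
        linarith) x
    have e1 : ((n + 1 : ℕ) : ℝ) * T = T + n * T := by push_cast; ring
    have e2 : S f M (((n + 1 : ℕ) : ℝ) * T) g = S f M (n * T) (S f M T g) := by
      rw [e1]
      exact S_add Z.nl hg hT0.le (by positivity)
    rw [e2, e1]
    have e3 : a + T + C * q + n * T + 2 * C * (q / 2) = a + (T + n * T) + 2 * C * q := by ring
    rw [e3] at h2
    have e4 : (1 / 2 : ℝ) ^ (n + 1) * q = (1 / 2) ^ n * (q / 2) := by ring
    rw [e4]
    exact h2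

theorem FMw (Z : ZFam f M z) (H : Cls f α μ d₁ δ) (Q : Par z μ κ₁ C₁ l) :
    ∃ C γ q₀ t₀ : ℝ, 0 < C ∧ 0 < γ ∧ 0 < q₀ ∧ 0 ≤ t₀ ∧ ∀ K a q g, K.Nonempty → Dat g →
      t₀ ≤ a → 0 ≤ q → q ≤ q₀ → (∀ x, g x ≤ z K a x + q * Wt z K (l / κ₁) a x) →
      ∀ t, 0 ≤ t → ∀ x, S f M t g x ≤ z K (a + t + C * q) x +
        C * q * Real.exp (-(γ * t)) * Wt z K (l / κ₁) (a + t) x := by
  obtain ⟨T, C₂, q₁, t₀, hT, hC₂, hq₁, hCq₁, ht₀, hst⟩ := fmw_step Z H Q
  have hT0 : 0 < T := by linarith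
  obtain ⟨Cc, hCc, hcr⟩ := fmw_crude Z Q hT0.le
  have hCc0 : 0 < Cc := lt_of_lt_of_le one_pos hCc
  have hν := Q.nu_pos
  obtain ⟨ν, hνe⟩ : ∃ ν, ν = l / κ₁ := ⟨_, rfl⟩
  rw [← hνe] at hν hcr hst ⊢
  have hit := fmw_iter Z hν.le hT hC₂ ht₀ hst
  obtain ⟨D, hD⟩ : ∃ D, D = Cc * Real.exp (ν * C₁) := ⟨_, rfl⟩
  have hDp : 0 < D := by rw [hD]; positivity
  have hlog : 0 < Real.log 2 := Real.log_pos (by norm_num)
  obtain ⟨E, hE⟩ : ∃ E, E = Real.exp (ν * 2) := ⟨_, rfl⟩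
  have hEp : 0 < E := by rw [hE]; exact Real.exp_pos _
  refine ⟨2 * C₂ * D + 2 * D * E, Real.log 2 / T, q₁ / D, t₀, by positivity, by positivity,
    by positivity, ht₀, ?_⟩
  intro K a q g hK hg ha hq hq0 hgz t ht x
  rw [le_div_iff₀ hDp] at hq0
  have ha0 : 0 ≤ a := by linarith
  -- decomposition of the time
  obtain ⟨n, hn⟩ : ∃ n : ℕ, n = ⌊t / T⌋₊ := ⟨_, rfl⟩
  have hn1 : (n : ℝ) * T ≤ t := by
    rw [← le_div_iff₀ hT0, hn]
    exact Nat.floor_le (by positivity)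
  have hn2 : t < ((n : ℝ) + 1) * T := by
    rw [← div_lt_iff₀ hT0, hn]
    exact Nat.lt_floor_add_one _
  obtain ⟨r, hr⟩ : ∃ r, r = t - n * T := ⟨_, rfl⟩
  have hr0 : 0 ≤ r := by rw [hr]; linarith
  have hrT : r ≤ T := by rw [hr]; linarith
  have hDq : 0 ≤ D * q := by positivity
  have hDq1 : D * q ≤ q₁ := by linarith
  have h1 : ∀ y, S f M r g y ≤ z K (a + r) y + (D * q) * Wt z K ν (a + r) y := by
    intro y
    have h2 := hcr K a q g hK hg ha0 hq hgz r ⟨hr0, hrT⟩ y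
    have h3 := mul_le_mul_of_nonneg_left
      (Wt_mono (z := z) K hν.le (by linarith : a ≤ a + r) y) hDq
    have e : Cc * q * Real.exp (ν * C₁) * Wt z K ν a y = (D * q) * Wt z K ν a y := by
      rw [hD]; ring
    rw [e] at h2
    linarith
  have h2 := hit n K (a + r) (D * q) (S f M r g) hK (S_dat Z.nl hg r) (by linarith) hDq hDq1 h1 x
  have e1 : S f M t g = S f M (n * T) (S f M r g) := by
    rw [← S_add Z.nl hg hr0 (by positivity)]
    congr 1
    rw [hr]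
    ring
  rw [e1]
  refine h2.trans ?_
  have e2 : a + r + n * T + 2 * C₂ * (D * q) = a + t + 2 * C₂ * (D * q) := by rw [hr]; ring
  rw [e2]
  have h3 := Z.mono_t K (a + t + 2 * C₂ * (D * q)) (a + t + (2 * C₂ * D + 2 * D * E) * q)
    (by positivity) (by
      have : 0 ≤ 2 * D * E * q := by positivity
      nlinarith) x
  -- the weight
  have h4 : C₂ * (D * q) ≤ 1 := by
    calc C₂ * (D * q) ≤ C₂ * q₁ := mul_le_mul_of_nonneg_left hDq1 hC₂.le
      _ ≤ 1 := hCq₁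
  have h5 : Wt z K ν (a + t + 2 * C₂ * (D * q)) x ≤ E * Wt z K ν (a + t) x := by
    rw [Wt_add]
    apply mul_le_mul_of_nonneg_right _ (Wt_pos K ν (a + t) x).le
    rw [hE]
    apply Real.exp_le_exp.mpr
    apply mul_le_mul_of_nonneg_left _ hν.le
    linarith
  have h6 : (1 / 2 : ℝ) ^ n ≤ 2 * Real.exp (-(Real.log 2 / T * t)) := by
    have e3 : (1 / 2 : ℝ) ^ n = 2 * Real.exp (-(Real.log 2 * ((n : ℝ) + 1))) := by
      have e4 : Real.exp (-(Real.log 2 * ((n : ℝ) + 1))) = (1 / 2 : ℝ) ^ (n + 1) := by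
        rw [Real.exp_neg, Real.exp_mul, Real.exp_log (by norm_num)]
        have : ((n : ℝ) + 1) = ((n + 1 : ℕ) : ℝ) := by push_cast; ring
        rw [this, Real.rpow_natCast, one_div, inv_pow]
      rw [e4, pow_succ]
      ring
    rw [e3]
    apply mul_le_mul_of_nonneg_left _ (by norm_num)
    apply Real.exp_le_exp.mpr
    have h7 : t / T ≤ (n : ℝ) + 1 := by
      rw [div_le_iff₀ hT0]
      exact hn2.le
    have h8 := mul_le_mul_of_nonneg_left h7 hlog.le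
    have e5 : Real.log 2 / T * t = Real.log 2 * (t / T) := by ring
    rw [e5]
    linarith
  have hWp := Wt_pos (z := z) K ν (a + t) x
  have h7 : (1 / 2 : ℝ) ^ n * (D * q) * Wt z K ν (a + t + 2 * C₂ * (D * q)) x ≤
      (2 * C₂ * D + 2 * D * E) * q * Real.exp (-(Real.log 2 / T * t)) * Wt z K ν (a + t) x := by
    have hx := Real.exp_pos (-(Real.log 2 / T * t))
    calc (1 / 2 : ℝ) ^ n * (D * q) * Wt z K ν (a + t + 2 * C₂ * (D * q)) x
        ≤ (2 * Real.exp (-(Real.log 2 / T * t))) * (D * q) * (E * Wt z K ν (a + t) x) := by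
          apply mul_le_mul _ h5 (Wt_pos K ν _ x).le (by positivity)
          exact mul_le_mul_of_nonneg_right h6 hDq
      _ = (2 * D * E) * q * Real.exp (-(Real.log 2 / T * t)) * Wt z K ν (a + t) x := by ring
      _ ≤ (2 * C₂ * D + 2 * D * E) * q * Real.exp (-(Real.log 2 / T * t)) *
          Wt z K ν (a + t) x := by
          gcongr
          have : 0 ≤ 2 * C₂ * D := by positivity
          linarith
  linarith

end

end Pool.Agent.AP157
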