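import Pool.Agent.AP157.Defs
import Pool.Agent.AP157.FMa
import Pool.Agent.AP157.Kern
import Pool.Agent.AP157.TFour

/-!
# Holes shrink at most at the planar rate

Proof.  Constants C_F, γ, q₀, t_F from FM; choose d₁ = min(q₀, 1/(8(C_F+1)), 1/8) > 0; T4 with d = d₁ gives C₄, t₄; T4 with d = 1/4 gives C₅, t₅; Z.fill with R = 0, ε = d₁ gives T_b (take T_b ≥ max(t_F, ..));
Z.fill with R = 0, ε = 1/8 gives T₁; L' from Z.ps_shift.  A ≥ 1 depends on L, M, N only; then C, s₁, ts.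
Let (∀ y, ‖y-x‖ ≤ R+s → ¬ Seed z K t y), and suppose ‖y-x‖ ≤ R and Seed z K (t+T'-C) y; we show PS z s T', a contradiction.
Let t'' = t - C₄ (ts ≥ C₄ + t₄).  By T4, z K t'' y' < d₁ for ‖y'-x‖ ≤ R+s.  If y = x then any unit vector e (hN), otherwise e = (y-x)/‖y-x‖.  P = {p | ⟪p,e⟫ ≥ ⟪x,e⟫ + R+s-A²}, which is
{p | ⟪p,-e⟫ ≤ c}, c = -(⟪x,e⟫+R+s-A²).  Geometry: if ‖q-y‖ ≤ A s and ‖q-x‖ > R+s then q ∈ P: write u = ⟪q-x,e⟫; the part of q-x orthogonal to e has norm ≤ A s; ‖y-x‖ ≥ ‖q-x‖ - As > R+s-As ≥ s²+s-As ≥ As for s ≥ 2A, so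
u ≥ ‖y-x‖ - As ≥ 0; if u < R+s-A² then (R+s)² < u²+A²s² ≤ (R+s-A²)²+A²R, i.e. 2A²(R+s)-A⁴ < A²R, false for R+2s ≥ A².
Hence for ‖q-y‖ ≤ As: z K t'' q ≤ min 1 (z P T_b q + d₁)  (if q ∈ P then z P T_b q ≥ 1-d₁ by fill).  Let g q = z K t'' q for ‖q-y‖ ≤ As and 0 otherwise: Dat g, g ≤ z P T_b + d₁.
Let r = T'-C+C₄+T₁ ∈ [0,T'] (C ≥ C₄+T₁, C ≤ T'), so r ≤ L(1+s) ≤ 2Ls.  By S_err (D = 1_{‖q-y‖>As}) and P_tail, FM:
z K (t''+r) y ≤ S r g y + e^{2Mr} 2^{N/2} exp(-(As)²/(8r)) ≤ z P (T_b+r+C_F d₁) y + C_F d₁ + (1/8) if A is large depending on L, M, N.  (r > 0; r = 0 is similar or avoid it by increasing T₁.)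
On the other hand t''+r = (t+T'-C)+T₁, and Seed z K (t+T'-C) y with Z.comp and fill (K' = {y}) give z K (t''+r) y ≥ z {y} T₁ y ≥ 7/8.  So z P (T_b+r+C_F d₁) y ≥ 7/8-1/8-1/8 ≥ 1/4, and T4 (d = 1/4; T_b ≥ t₅) gives
Seed z P (T_b+r+C_F d₁+C₅) y.  As ⟪y,-e⟫ = -⟪x,e⟫-‖y-x‖ ≥ -⟪x,e⟫ - R = c + (s-A²), Z.ps_of gives PS z (s-A²) (T_b+r+C_F d₁+C₅) and Z.ps_shift PS z s (T_b+r+C_F d₁+C₅+L'(1+A²)), and this time is ≤ T' as soon as
C ≥ T_b+C_F d₁+C₅+L'(1+A²)+C₄+T₁.  PS z s is monotone in the time (Z.seed_mono): PS z s T'.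
-/

set_option autoImplicit false

open MeasureTheory Real Set Filter Topology
open scoped ENNReal

namespace Pool.Agent.AP157

open Pool.Agent.X297.KP

noncomputable section

variable {N : ℕ} {f : ℝ → ℝ} {M : ℝ} {z : Set (E N) → ℝ → E N → ℝ} {α δ ω : ℝ}

theorem sx_geo {x y q e : E N} (he : ‖e‖ = 1) (hye : y - x = ‖y - x‖ • e) {A R s : ℝ}
    (hA : 1 ≤ A) (hs : 2 * A ≤ s) (hs2 : A ^ 2 ≤ s) (hs1 : 1 ≤ s) (hR : s ^ 2 ≤ R)
    (hq : ‖q - y‖ ≤ A * s) (hqx : R + s < ‖q - x‖) :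
    R + s - A ^ 2 ≤ inner ℝ (q - x) e := by
  have hA0 : (0:ℝ) ≤ A := by linarith
  have hs0 : (0:ℝ) ≤ s := by linarith
  obtain ⟨ρ, hρ⟩ : ∃ ρ, ρ = ‖y - x‖ := ⟨_, rfl⟩
  obtain ⟨u, hu⟩ : ∃ u, u = (inner ℝ (q - x) e : ℝ) := ⟨_, rfl⟩
  rw [← hρ] at hye
  have hρ0 : 0 ≤ ρ := by rw [hρ]; exact norm_nonneg _
  have hee : (inner ℝ e e : ℝ) = 1 := by rw [real_inner_self_eq_norm_sq, he]; norm_num
  have h1 : q - x = (q - y) + ρ • e := by rw [← hye]; abel
  have h2 : (inner ℝ (q - y) e : ℝ) = u - ρ := by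
    rw [hu, h1, inner_add_left, inner_smul_left, hee]
    simp
  have h3 : ‖q - x‖ ^ 2 = ‖q - y‖ ^ 2 + 2 * ρ * (u - ρ) + ρ ^ 2 := by
    rw [h1, @norm_add_sq_real, inner_smul_right, h2, norm_smul, he, Real.norm_eq_abs,
      mul_one, sq_abs]
    ring
  have h4 : -(A * s) ≤ u - ρ := by
    have := abs_real_inner_le_norm (q - y) e
    rw [h2, he, mul_one] at this
    have := (abs_le.mp this).1
    linarith
  have h5 : ‖q - x‖ ≤ ‖q - y‖ + ρ := by
    rw [h1]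
    refine (norm_add_le _ _).trans ?_
    rw [norm_smul, he, mul_one, Real.norm_eq_abs, abs_of_nonneg hρ0]
  have hss : 2 * A * s ≤ s ^ 2 := by
    rw [sq]
    exact mul_le_mul_of_nonneg_right hs hs0
  have h6 : 0 ≤ u := by linarith
  rw [← hu]
  by_contra hcon
  push Not at hcon
  have h7 : ‖q - y‖ ^ 2 ≤ (A * s) ^ 2 := pow_le_pow_left₀ (norm_nonneg _) hq 2
  have hR0 : 0 ≤ R := (sq_nonneg s).trans hR
  have h8 : (R + s) ^ 2 < ‖q - x‖ ^ 2 := pow_lt_pow_left₀ hqx (by linarith) two_ne_zero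
  have h9 : u ^ 2 ≤ (R + s - A ^ 2) ^ 2 := pow_le_pow_left₀ h6 hcon.le 2
  have h10 : ‖q - x‖ ^ 2 = ‖q - y‖ ^ 2 + u ^ 2 - (u - ρ) ^ 2 := by rw [h3]; ring
  have h13 : (A * s) ^ 2 ≤ A ^ 2 * R := by
    rw [mul_pow]
    exact mul_le_mul_of_nonneg_left hR (sq_nonneg A)
  have h14 := sq_nonneg (u - ρ)
  have h11 : (R + s) ^ 2 < (R + s - A ^ 2) ^ 2 + A ^ 2 * R := by linarith
  have h12 : 0 ≤ A ^ 2 * (R + 2 * s - A ^ 2) := by
    apply mul_nonneg (sq_nonneg A)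
    linarith
  have h15 : (R + s - A ^ 2) ^ 2 + A ^ 2 * R = (R + s) ^ 2 - A ^ 2 * (R + 2 * s - A ^ 2) := by
    ring
  linarith

theorem sx_exp {L M A s r : ℝ} {N : ℕ} (hL : 0 < L) (hM : 0 ≤ M)
    (hA1 : 1 ≤ A) (hA : 16 * L * (4 * M * L + N + 3) ≤ A) (hs : 1 ≤ s) (hr : 0 < r)
    (hr2 : r ≤ 2 * L * s) :
    Real.exp (2 * M * r) * (2 ^ ((N : ℝ) / 2) * Real.exp (-((A * s) ^ 2 / (8 * r)))) ≤ 1 / 8 := by
  have h1 : (2:ℝ) ^ ((N : ℝ) / 2) ≤ Real.exp N := by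
    have e1 : (2:ℝ) ≤ Real.exp 2 := by
      have := Real.add_one_le_exp (2:ℝ)
      linarith
    calc (2:ℝ) ^ ((N : ℝ) / 2) ≤ (Real.exp 2) ^ ((N : ℝ) / 2) :=
          Real.rpow_le_rpow (by norm_num) e1 (by positivity)
      _ = Real.exp N := by
          rw [← Real.exp_mul]
          congr 1
          ring
  have h2 : (4 * M * L + N + 3) * s ≤ (A * s) ^ 2 / (8 * r) := by
    rw [le_div_iff₀ (by positivity)]
    have hN : (0:ℝ) ≤ N := Nat.cast_nonneg N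
    have hX : 0 ≤ 4 * M * L + N + 3 := by positivity
    calc (4 * M * L + N + 3) * s * (8 * r) ≤ (4 * M * L + N + 3) * s * (8 * (2 * L * s)) := by
          apply mul_le_mul_of_nonneg_left _ (by positivity)
          linarith
      _ = (16 * L * (4 * M * L + N + 3)) * s ^ 2 := by ring
      _ ≤ A * s ^ 2 := by
          apply mul_le_mul_of_nonneg_right hA (by positivity)
      _ ≤ (A * s) ^ 2 := by
          have : A ≤ A ^ 2 := by nlinarith
          calc A * s ^ 2 ≤ A ^ 2 * s ^ 2 := mul_le_mul_of_nonneg_right this (by positivity)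
            _ = (A * s) ^ 2 := by ring
  have h3 : Real.exp (-((A * s) ^ 2 / (8 * r))) ≤ Real.exp (-((4 * M * L + N + 3) * s)) := by
    apply Real.exp_le_exp.mpr
    linarith
  have hN : (0:ℝ) ≤ N := Nat.cast_nonneg N
  calc Real.exp (2 * M * r) * (2 ^ ((N : ℝ) / 2) * Real.exp (-((A * s) ^ 2 / (8 * r))))
      ≤ Real.exp (2 * M * (2 * L * s)) * (Real.exp N * Real.exp (-((4 * M * L + N + 3) * s))) := by
        apply mul_le_mul
        · apply Real.exp_le_exp.mpr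
          apply mul_le_mul_of_nonneg_left hr2 (by positivity)
        · exact mul_le_mul h1 h3 (by positivity) (by positivity)
        · positivity
        · positivity
    _ = Real.exp (2 * M * (2 * L * s) + (N + -((4 * M * L + N + 3) * s))) := by
        rw [Real.exp_add, Real.exp_add]
    _ ≤ Real.exp (-3) := by
        apply Real.exp_le_exp.mpr
        nlinarith
    _ ≤ 1 / 8 := by
        rw [Real.exp_neg]
        have e2 : (2:ℝ) ≤ Real.exp 1 := by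
          have := Real.add_one_le_exp (1:ℝ)
          linarith
        have e3 : Real.exp 3 = Real.exp 1 ^ 3 := by
          rw [← Real.exp_nat_mul]
          norm_num
        have e4 : (8:ℝ) ≤ Real.exp 3 := by
          rw [e3]
          calc (8:ℝ) = 2 ^ 3 := by norm_num
            _ ≤ Real.exp 1 ^ 3 := pow_le_pow_left₀ (by norm_num) e2 3
        rw [one_div]
        exact inv_anti₀ (by norm_num) e4

theorem stepX (hN : 0 < N) (Z : ZFam f M z) (B : Bst f α δ ω) {L : ℝ} (hL : 0 < L) :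
    ∃ C s₁ ts : ℝ, 0 ≤ C ∧ 1 ≤ s₁ ∧ 0 ≤ ts ∧
    ∀ s R t T', s₁ ≤ s → s ^ 2 ≤ R → ts ≤ t → C ≤ T' → T' ≤ L * (1 + s) → ¬ PS z s T' →
      ∀ (K : Set (E N)) (x : E N), (∀ y, ‖y - x‖ ≤ R + s → ¬ Seed z K t y) →
      ∀ y, ‖y - x‖ ≤ R → ¬ Seed z K (t + T' - C) y := by
  classical
  have hM := Z.nl.nn
  obtain ⟨CF, γ, q₀, tF, hCF, hγ, hq₀, htF, hFM⟩ := FM Z B
  obtain ⟨d₁, hd₁⟩ : ∃ d₁, d₁ = min q₀ (min (1 / (8 * (CF + 1))) (1 / 8)) := ⟨_, rfl⟩
  have hd₁pos : 0 < d₁ := by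
    rw [hd₁]
    exact lt_min hq₀ (lt_min (by positivity) (by norm_num))
  have hd₁q : d₁ ≤ q₀ := by rw [hd₁]; exact min_le_left _ _
  have hd₁C : CF * d₁ ≤ 1 / 8 := by
    have h1 : d₁ ≤ 1 / (8 * (CF + 1)) := by
      rw [hd₁]; exact (min_le_right _ _).trans (min_le_left _ _)
    calc CF * d₁ ≤ CF * (1 / (8 * (CF + 1))) := mul_le_mul_of_nonneg_left h1 hCF.le
      _ ≤ 1 / 8 := by
        rw [mul_one_div, div_le_div_iff₀ (by positivity) (by norm_num)]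
        linarith
  obtain ⟨C₄, t₄, hC₄, ht₄, hT4⟩ := T4 Z B hd₁pos
  obtain ⟨C₅, t₅, hC₅, ht₅, hT5⟩ := T4 Z B (show (0:ℝ) < 1 / 4 by norm_num)
  obtain ⟨Tb0, hTb0, hfill1⟩ := Z.fill 0 d₁ hd₁pos
  obtain ⟨T10, hT10, hfill2⟩ := Z.fill 0 (1 / 8) (by norm_num)
  obtain ⟨L', hL', hshift⟩ := Z.ps_shift
  obtain ⟨Tb, hTb⟩ : ∃ Tb, Tb = max Tb0 (max tF t₅) := ⟨_, rfl⟩
  have hTb1 : Tb0 ≤ Tb := by rw [hTb]; exact le_max_left _ _
  have hTb2 : tF ≤ Tb := by rw [hTb]; exact (le_max_left _ _).trans (le_max_right _ _)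
  have hTb3 : t₅ ≤ Tb := by rw [hTb]; exact (le_max_right _ _).trans (le_max_right _ _)
  have hTbn : 0 ≤ Tb := hTb0.trans hTb1
  obtain ⟨T1, hT1⟩ : ∃ T1, T1 = T10 + 1 := ⟨_, rfl⟩
  have hT1p : 0 < T1 := by linarith
  have hNn : (0:ℝ) ≤ N := Nat.cast_nonneg N
  obtain ⟨A, hA⟩ : ∃ A, A = 1 + 16 * L * (4 * M * L + N + 3) := ⟨_, rfl⟩
  have hA1 : 1 ≤ A := by
    rw [hA]
    have : 0 ≤ 16 * L * (4 * M * L + N + 3) := by positivity
    linarith
  have hA2 : 16 * L * (4 * M * L + N + 3) ≤ A := by linarith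
  have hCFd : 0 ≤ CF * d₁ := by positivity
  obtain ⟨C, hC⟩ : ∃ C, C = C₄ + T1 + Tb + CF * d₁ + C₅ + L' * (1 + A ^ 2) := ⟨_, rfl⟩
  have hLA : 0 ≤ L' * (1 + A ^ 2) := by positivity
  refine ⟨C, 2 * A + A ^ 2, C₄ + t₄, by rw [hC]; positivity, by nlinarith, by positivity, ?_⟩
  intro s R t T' hs hR ht hCT hTL hPS K x hx y hy hseed
  apply hPS
  have hs2A : 2 * A ≤ s := by nlinarith [sq_nonneg A]
  have hsA2 : A ^ 2 ≤ s := by linarith
  have hs1 : 1 ≤ s := by linarith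
  have hs0 : 0 ≤ s := by linarith
  -- the direction
  obtain ⟨e, he, hye⟩ : ∃ e : E N, ‖e‖ = 1 ∧ y - x = ‖y - x‖ • e := by
    by_cases hyx : y - x = 0
    · refine ⟨EuclideanSpace.single (⟨0, hN⟩ : Fin N) (1:ℝ), by simp, ?_⟩
      rw [hyx]; simp
    · refine ⟨‖y - x‖⁻¹ • (y - x), ?_, ?_⟩
      · rw [norm_smul, norm_inv, norm_norm, inv_mul_cancel₀ (norm_ne_zero_iff.mpr hyx)]
      · rw [smul_smul, mul_inv_cancel₀ (norm_ne_zero_iff.mpr hyx), one_smul]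
  have hee : (inner ℝ e e : ℝ) = 1 := by rw [real_inner_self_eq_norm_sq, he]; norm_num
  obtain ⟨t2, ht2⟩ : ∃ t2, t2 = t - C₄ := ⟨_, rfl⟩
  have ht20 : 0 ≤ t2 := by linarith
  have hsmall : ∀ q, ‖q - x‖ ≤ R + s → z K t2 q < d₁ := by
    intro q hq
    by_contra hcon
    push Not at hcon
    apply hx q hq
    have := hT4 K t2 q (by linarith) hcon
    rwa [ht2, sub_add_cancel] at this
  obtain ⟨c, hc⟩ : ∃ c : ℝ, c = -((inner ℝ x e : ℝ) + R + s - A ^ 2) := ⟨_, rfl⟩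
  obtain ⟨Pl, hPl⟩ : ∃ Pl : Set (E N), Pl = {p : E N | inner ℝ p (-e) ≤ c} := ⟨_, rfl⟩
  have hbound : ∀ q, ‖q - y‖ ≤ A * s → z K t2 q ≤ z Pl Tb q + d₁ := by
    intro q hq
    by_cases hqx : ‖q - x‖ ≤ R + s
    · have h1 := hsmall q hqx
      have h2 := ((Z.dat Pl Tb).mem q).1
      linarith
    · push Not at hqx
      have h1 := sx_geo he hye hA1 hs2A hsA2 hs1 hR hq hqx
      have h2 : q ∈ Pl := by
        rw [hPl]
        simp only [mem_ofPred_eq, inner_neg_right]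
        rw [inner_sub_left] at h1
        rw [hc]
        linarith
      have h3 := hfill1 Pl q q Tb h2 (by simp) hTb1
      have h4 := ((Z.dat K t2).mem q).2
      linarith
  -- the cut-off
  obtain ⟨W, hW⟩ : ∃ W : Set (E N), W = {q : E N | A * s < ‖q - y‖} := ⟨_, rfl⟩
  have hWm : MeasurableSet W := by
    rw [hW]
    exact measurableSet_lt measurable_const (by fun_prop)
  obtain ⟨g, hg⟩ : ∃ g : E N → ℝ, g = (Wᶜ).indicator (z K t2) := ⟨_, rfl⟩
  have hgd : Dat g := by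
    constructor
    · rw [hg]
      exact (Z.dat K t2).meas.indicator hWm.compl
    · intro q
      rw [hg]
      by_cases hq : q ∈ Wᶜ
      · rw [indicator_of_mem hq]; exact (Z.dat K t2).mem q
      · rw [indicator_of_notMem hq]; exact ⟨le_rfl, zero_le_one⟩
  have hgle : ∀ q, g q ≤ z Pl Tb q + d₁ := by
    intro q
    rw [hg]
    by_cases hq : q ∈ Wᶜ
    · rw [indicator_of_mem hq]
      apply hbound
      rw [hW] at hq
      simpa using hq
    · rw [indicator_of_notMem hq]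
      have h2 := ((Z.dat Pl Tb).mem q).1
      linarith
  obtain ⟨r, hr⟩ : ∃ r, r = T' - C + C₄ + T1 := ⟨_, rfl⟩
  have hr0 : 0 < r := by linarith
  have hrT : r ≤ T' := by linarith
  have hr2 : r ≤ 2 * L * s := by nlinarith
  have hF := hFM Pl Tb d₁ g hgd hTb2 hd₁pos.le hd₁q hgle r hr0.le y
  have hFe : CF * d₁ * Real.exp (-(γ * r)) ≤ 1 / 8 := by
    have h1 : Real.exp (-(γ * r)) ≤ 1 := by
      rw [Real.exp_le_one_iff]
      have : 0 ≤ γ * r := by positivity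
      linarith
    calc CF * d₁ * Real.exp (-(γ * r)) ≤ CF * d₁ * 1 := mul_le_mul_of_nonneg_left h1 hCFd
      _ ≤ 1 / 8 := by linarith
  have hE : S f M r (z K t2) y ≤ S f M r g y +
      Real.exp (2 * M * r) * P r (W.indicator 1) y := by
    apply S_err Z.nl (Z.dat K t2) hgd (D := W.indicator 1) (C := 1)
    · exact measurable_const.indicator hWm
    · intro q
      exact indicator_nonneg (fun _ _ => zero_le_one) q
    · intro q
      exact indicator_le_self' (fun _ _ => zero_le_one) q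
    · intro q
      rw [hg]
      by_cases hq : q ∈ W
      · rw [indicator_of_notMem (by simpa using hq), indicator_of_mem hq]
        simpa using ((Z.dat K t2).mem q).2
      · rw [indicator_of_mem (by simpa using hq), indicator_of_notMem hq, add_zero]
    · exact hr0
  have hPt := P_tail hr0 y (A := A * s) (by positivity) hWm (by
    intro q hq
    rw [hW] at hq
    rw [norm_sub_rev]
    exact le_of_lt hq)
  have hexp := sx_exp (N := N) hL hM hA1 hA2 hs1 hr0 hr2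
  have hE2 : S f M r (z K t2) y ≤ S f M r g y + 1 / 8 := by
    refine hE.trans (add_le_add_right ?_ _)
    exact (mul_le_mul_of_nonneg_left hPt (Real.exp_nonneg _)).trans hexp
  have hflow := Z.flow K t2 r ht20 hr0.le y
  have htime : t2 + r = (t + T' - C) + T1 := by rw [ht2, hr]; ring
  have htC : 0 ≤ t + T' - C := by linarith
  have hlow : 7 / 8 ≤ z K (t2 + r) y := by
    rw [htime]
    have h1 := Z.comp K {y} (t + T' - C) T1 htC hT1p.le (by
      rintro _ rfl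
      exact hseed) y
    have h2 := hfill2 {y} y y T1 rfl (by simp) (by linarith)
    linarith
  obtain ⟨t6, ht6⟩ : ∃ t6, t6 = Tb + r + CF * d₁ := ⟨_, rfl⟩
  rw [← ht6] at hF
  have hbig : 1 / 4 ≤ z Pl t6 y := by
    rw [hflow] at hlow
    linarith
  have hsd := hT5 Pl t6 y (by linarith) hbig
  have hps : PS z (s - A ^ 2) (t6 + C₅) := by
    refine Z.ps_of (e := -e) (by rw [norm_neg, he]) (c := c) (x := y) (by linarith) ?_ ?_
    · rw [inner_neg_right, hc]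
      have h1 : (inner ℝ y e : ℝ) = inner ℝ x e + ‖y - x‖ := by
        have h2 : (inner ℝ (y - x) e : ℝ) = ‖y - x‖ := by
          conv_lhs => rw [hye]
          rw [inner_smul_left, hee]
          simp
        rw [inner_sub_left] at h2
        linarith
      rw [h1]
      linarith
    · rw [hPl] at hsd
      exact hsd
  have hps2 := hshift (s - A ^ 2) (t6 + C₅) (A ^ 2) (by linarith) (sq_nonneg A) hps
  rw [sub_add_cancel] at hps2
  intro e' he' c' x' hx'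
  refine Z.seed_mono (by linarith) ?_ (hps2 e' he' c' x' hx')
  rw [ht6, hr, hC]
  linarith

end

end Pool.Agent.AP157
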