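import Pool.Agent.AP157.Cls
import Pool.Agent.AP157.TLd
import Pool.Agent.AP157.FMw
import Pool.Agent.AP157.Kern
import Pool.Agent.AP157.StepX

/-!
# Holes shrink at most at the planar rate, for the wider class

`AP157/StepX.lean` proves `stepX` for bistable f; read it (its auxiliary lemmas may be used or adapted).  Here the proof is similar but uses TLd (decay inside the hole) and the weighted FMw.
K = ∅ is trivial (a seed would give z ∅ = 0 ≥ z {y} 0, contradiction with fill/of_mem; or use Z.speed).  Let q ∈ (0,q₀] be small: C_F q e^{ν(κ₁R₀+C₁)} ≤ ε₀/4, where robust gives ε₀, R₀, C₇, FMw gives C_F, γ, q₀, t₀, ν = l/κ₁.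
Let a₀ ≥ t₀, a₀ ≥ C₁ so large that z K a₀ y ≥ 1 - q for y ∈ K (fill).  C_d, C₄ from TLd; C₅ ≥ C₄ + C₁ with C_d e^{-l (C₅-C₄-C₁)/κ₁} ≤ q.  Let y₀ (‖y₀-x‖ ≤ R) have a seed for K at time t+T'-C.
Depth: for a point y' put dep y' = R + s - ‖y'-x‖.  No seeds of K at time t in the ball of radius R+s around x.  If dep y' > 0 then infDist y' (Sd (t - C₅ + C₄)) ≥ dep y' + (C₅-C₄-C₁)/κ₁ (Par.seed: a seed at p at time t-C₅+C₄ gives seeds
at time t at all points within (C₅-C₄-C₁)/κ₁ of p, in particular the point of the segment [p,y'] at this distance (or y' itself)), so by TLd  z K (t-C₅) y' ≤ q e^{-l dep y'}.   (t ≥ ts := C₅.)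
Geometry: let e be a unit vector with y₀ - x = ‖y₀-x‖ e (any unit vector if y₀ = x; N > 0), A₁ a large constant, P = {p | ⟪p - y₀, e⟫ ≥ s - A₁²}.  For ‖y'-y₀‖ ≤ A₁ s and y' ∉ P: dep y' ≥ dist(y',P) = s - A₁² - ⟪y'-y₀,e⟫ > 0.
 (If ‖y₀-x‖ ≤ R - 2A₁ s then dep y' ≥ s + A₁ s.  Otherwise ‖y₀-x‖ ≥ s² - 2A₁ s ≥ s²/2 for s ≥ 4A₁, and ‖y'-x‖ ≤ ‖y₀-x‖ + ⟪y'-y₀,e⟫ + ‖y'-y₀‖²/(2‖y₀-x‖), cf. `norm_ray` in Reach.lean.)
So on the ball ‖y'-y₀‖ ≤ A₁ s:  z K (t-C₅) y' ≤ z P a₀ y' + q Wt z P ν a₀ y'  (y' ∈ P: z P a₀ y' ≥ 1-q and Wt = e^{ν(a₀ - 0)} ≥ 1; y' ∉ P: τ_P y' ≤ κ₁ dist(y',P) + C₁ (tau_lip, tau = 0 on P), so Wt ≥ e^{ν(a₀-C₁)} e^{-l dist(y',P)} ≥ e^{-l dist(y',P)}).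
Let g = min (z K (t-C₅)) (z P a₀ + q Wt z P ν a₀) on the ball and 0 outside (or min everywhere with the bound only used on the ball; Wt measurable because τ_P... simplest: g := z K (t-C₅) on the ball, 0 outside: Dat g, g ≤ z P a₀ + q Wt everywhere).
FMw (K := P nonempty): S_r g ≤ z P (a₀+r+C_F q) + C_F q e^{-γr} Wt z P ν (a₀+r);  S_err with D = 1_{‖·-y₀‖ > A₁ s}, P_tail: z K (t-C₅+r) y₁ ≤ S_r g y₁ + e^{2Mr} 2^{N/2} e^{-(A₁ s - R₀)²/(8r)} for ‖y₁-y₀‖ ≤ R₀.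
Take r = T' - C + C₅ (choose C ≥ C₅ so that t-C₅+r = t+T'-C; need r > 0: if T' - C + C₅ is small ... C ≤ T' gives r ≥ C₅; take C₅ ≥ 1).  r ≤ L(1+s)+C₅ ≤ 3 L' s, and A₁ is chosen with the last term ≤ ε₀/4 for s ≥ s₁.
Case (i) τ_P y₀ < a₀ + r: tau_lt: Seed z P (a₀+r) y₀ so PS z (s-A₁²) (a₀+r) (ZFam.ps_of with -e), ZFam.ps_shift: PS z s (a₀ + r + L_s(1+A₁²)), and this time is ≤ T' if C ≥ a₀ + C₅ + L_s(1+A₁²): contradiction with ¬ PS z s T' (PS is monotone in time, seed_mono).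
Case (ii) τ_P y₀ ≥ a₀+r: for ‖y₁-y₀‖ ≤ R₀ Wt z P ν (a₀+r) y₁ ≤ e^{ν(κ₁R₀+C₁)} (tau_lip), so z {y₀} 0 y₁ ≤ z K (t+T'-C) y₁ ≤ z P (a₀+r+C_F q) y₁ + ε₀/2; robust: Seed z P (a₀+r+C_F q+C₇) y₀, and conclude as in (i) with C ≥ a₀+C₅+C_F q+C₇+L_s(1+A₁²).
-/

set_option autoImplicit false

open MeasureTheory Real Set Filter Topology
open scoped ENNReal

namespace Pool.Agent.AP157

open Pool.Agent.X297.KP

noncomputable section

variable {N : ℕ} {f : ℝ → ℝ} {M : ℝ} {z : Set (E N) → ℝ → E N → ℝ} {α μ d₁ δ κ₁ C₁ l : ℝ}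

/-! ## Auxiliary lemmas -/

theorem stepy_geo {x y q e : E N} (he : ‖e‖ = 1) (hye : y - x = ‖y - x‖ • e) {A R s : ℝ}
    (hA : 1 ≤ A) (hs : 3 * A ≤ s) (hR : s ^ 2 ≤ R) (hyR : ‖y - x‖ ≤ R)
    (hq : ‖q - y‖ ≤ A * s) : ‖q - x‖ ≤ R + A ^ 2 + inner ℝ (q - y) e := by
  have hA0 : (0:ℝ) ≤ A := by linarith
  have hs0 : (0:ℝ) ≤ s := by linarith
  obtain ⟨ρ, hρ⟩ : ∃ ρ, ρ = ‖y - x‖ := ⟨_, rfl⟩
  obtain ⟨a, ha⟩ : ∃ a, a = (inner ℝ (q - y) e : ℝ) := ⟨_, rfl⟩
  rw [← hρ] at hye hyR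
  have hρ0 : 0 ≤ ρ := by rw [hρ]; exact norm_nonneg _
  have h1 : q - x = (q - y) + ρ • e := by rw [← hye]; abel
  have h3 : ‖q - x‖ ^ 2 = ‖q - y‖ ^ 2 + 2 * ρ * a + ρ ^ 2 := by
    rw [h1, @norm_add_sq_real, inner_smul_right, ← ha, norm_smul, he, Real.norm_eq_abs,
      mul_one, sq_abs]
    ring
  have h4 : -(A * s) ≤ a := by
    have := abs_real_inner_le_norm (q - y) e
    rw [← ha, he, mul_one] at this
    have := (abs_le.mp this).1
    linarith
  have h7 : ‖q - y‖ ^ 2 ≤ (A * s) ^ 2 := pow_le_pow_left₀ (norm_nonneg _) hq 2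
  rw [← ha]
  have hAn := sq_nonneg A
  have h3As : 3 * A * s ≤ s ^ 2 := by
    rw [sq]
    exact mul_le_mul_of_nonneg_right hs hs0
  have hAsn : 0 ≤ A * s := mul_nonneg hA0 hs0
  have h8 : 0 ≤ R + A ^ 2 + a := by linarith
  apply le_of_sq_le_sq _ h8
  rw [h3]
  have h9 : (A * s) ^ 2 ≤ (R + A ^ 2 - ρ) * (R + A ^ 2 + ρ + 2 * a) := by
    by_cases hc : 2 * A * s ≤ ρ
    · have k1 : A ^ 2 ≤ R + A ^ 2 - ρ := by linarith
      have k2 : s ^ 2 ≤ R + A ^ 2 + ρ + 2 * a := by linarith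
      calc (A * s) ^ 2 = A ^ 2 * s ^ 2 := by ring
        _ ≤ _ := mul_le_mul k1 k2 (sq_nonneg s) ((sq_nonneg A).trans k1)
    · push Not at hc
      have k0 : (s - A) ^ 2 = s ^ 2 - 2 * (A * s) + A ^ 2 := by ring
      have k1 : (s - A) ^ 2 ≤ R + A ^ 2 - ρ := by linarith
      have k2 : (s - A) ^ 2 ≤ R + A ^ 2 + ρ + 2 * a := by linarith
      have k3 : A * s ≤ (s - A) ^ 2 := by linarith
      calc (A * s) ^ 2 = (A * s) * (A * s) := by ring
        _ ≤ (s - A) ^ 2 * (s - A) ^ 2 :=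
          mul_le_mul k3 k3 (mul_nonneg hA0 hs0) (sq_nonneg _)
        _ ≤ _ := mul_le_mul k1 k2 (sq_nonneg _) ((sq_nonneg _).trans k1)
  have h10 : (R + A ^ 2 + a) ^ 2 = (R + A ^ 2 - ρ) * (R + A ^ 2 + ρ + 2 * a) + a ^ 2 +
      2 * ρ * a + ρ ^ 2 := by ring
  have h11 := sq_nonneg a
  rw [h10]
  linarith

theorem stepy_exp {L M B s r : ℝ} {N : ℕ} (hL : 0 < L) (hM : 0 ≤ M)
    (hB1 : 1 ≤ B) (hB : 8 * L * (2 * M * L + N + 1) ≤ B) (hs : 1 ≤ s) (hr : 0 < r)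
    (hr2 : r ≤ L * s) :
    Real.exp (2 * M * r) * (2 ^ ((N : ℝ) / 2) * Real.exp (-((B * s) ^ 2 / (8 * r)))) ≤
      Real.exp (-s) := by
  have hN : (0:ℝ) ≤ N := Nat.cast_nonneg N
  have h1 : (2:ℝ) ^ ((N : ℝ) / 2) ≤ Real.exp N := by
    have e1 : (2:ℝ) ≤ Real.exp 2 := by
      have := Real.add_one_le_exp (2:ℝ)
      linarith
    calc (2:ℝ) ^ ((N : ℝ) / 2) ≤ (Real.exp 2) ^ ((N : ℝ) / 2) :=
          Real.rpow_le_rpow (by norm_num) e1 (by positivity)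
      _ = Real.exp N := by
          rw [← Real.exp_mul]
          congr 1
          ring
  have h2 : (2 * M * L + N + 1) * s ≤ (B * s) ^ 2 / (8 * r) := by
    rw [le_div_iff₀ (by positivity)]
    have hX : 0 ≤ 2 * M * L + N + 1 := by positivity
    calc (2 * M * L + N + 1) * s * (8 * r) ≤ (2 * M * L + N + 1) * s * (8 * (L * s)) := by
          apply mul_le_mul_of_nonneg_left _ (by positivity)
          linarith
      _ = (8 * L * (2 * M * L + N + 1)) * s ^ 2 := by ring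
      _ ≤ B * s ^ 2 := by
          apply mul_le_mul_of_nonneg_right hB (by positivity)
      _ ≤ (B * s) ^ 2 := by
          have : B ≤ B ^ 2 := by nlinarith
          calc B * s ^ 2 ≤ B ^ 2 * s ^ 2 := mul_le_mul_of_nonneg_right this (by positivity)
            _ = (B * s) ^ 2 := by ring
  have h3 : Real.exp (-((B * s) ^ 2 / (8 * r))) ≤ Real.exp (-((2 * M * L + N + 1) * s)) := by
    apply Real.exp_le_exp.mpr
    linarith
  calc Real.exp (2 * M * r) * (2 ^ ((N : ℝ) / 2) * Real.exp (-((B * s) ^ 2 / (8 * r))))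
      ≤ Real.exp (2 * M * (L * s)) * (Real.exp N * Real.exp (-((2 * M * L + N + 1) * s))) := by
        apply mul_le_mul
        · apply Real.exp_le_exp.mpr
          apply mul_le_mul_of_nonneg_left hr2 (by positivity)
        · exact mul_le_mul h1 h3 (by positivity) (by positivity)
        · positivity
        · positivity
    _ = Real.exp (2 * M * (L * s) + (N + -((2 * M * L + N + 1) * s))) := by
        rw [Real.exp_add, Real.exp_add]
    _ ≤ Real.exp (-s) := by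
        apply Real.exp_le_exp.mpr
        nlinarith

/-- The value deep inside a hole. -/
theorem stepy_deep (Z : ZFam f M z) (Q : Par z μ κ₁ C₁ l) {Cd C₄ C₅ q : ℝ} (hCd : 0 < Cd)
    (hC₄ : 0 ≤ C₄) (hC₅ : C₄ + C₁ ≤ C₅) (hq : Cd * Real.exp (-(l * ((C₅ - C₄ - C₁) / κ₁))) ≤ q)
    {K : Set (E N)} (hK : K.Nonempty) {t : ℝ} (ht : C₅ ≤ t)
    (hT : ∀ x, z K (t - C₅) x ≤
      Cd * Real.exp (-(l * Metric.infDist x {y | Seed z K (t - C₅ + C₄) y})))
    {x : E N} {ρ : ℝ} (hx : ∀ y, ‖y - x‖ ≤ ρ → ¬ Seed z K t y) (y : E N) (hy : ‖y - x‖ ≤ ρ) :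
    z K (t - C₅) y ≤ q * Real.exp (-(l * (ρ - ‖y - x‖))) := by
  have hκ := Q.κ_pos
  have hl := Q.l_pos
  have hC₁ := Q.C_nn
  obtain ⟨δ', hδ⟩ : ∃ δ', δ' = (C₅ - C₄ - C₁) / κ₁ := ⟨_, rfl⟩
  have hδ0 : 0 ≤ δ' := by rw [hδ]; exact div_nonneg (by linarith) hκ.le
  have hδκ : κ₁ * δ' = C₅ - C₄ - C₁ := by rw [hδ]; field_simp
  have ht0 : 0 ≤ t - C₅ + C₄ := by linarith
  obtain ⟨y₁, hy₁⟩ := hK
  have hne : ({y | Seed z K (t - C₅ + C₄) y} : Set (E N)).Nonempty :=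
    ⟨y₁, Z.seed_mono le_rfl ht0 (Z.of_mem K y₁ hy₁)⟩
  have hdist : (ρ - ‖y - x‖) + δ' ≤ Metric.infDist y {y | Seed z K (t - C₅ + C₄) y} := by
    rw [Metric.le_infDist hne]
    intro p hp
    by_contra hcon
    push Not at hcon
    obtain ⟨w, hw1, hw2⟩ := exists_dist_le_le (x := p) (z := y) (δ := δ') (ε := ρ - ‖y - x‖)
      hδ0 (by linarith) (by rw [dist_comm]; exact hcon.le)
    apply hx w
    · have h1 : ‖w - x‖ ≤ ‖w - y‖ + ‖y - x‖ := by
        have : w - x = (w - y) + (y - x) := by abel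
        rw [this]
        exact norm_add_le _ _
      rw [dist_eq_norm] at hw2
      linarith
    · refine Q.seed Z ht0 hp ?_
      rw [dist_eq_norm] at hw1
      have := mul_le_mul_of_nonneg_left hw1 hκ.le
      linarith
  refine (hT y).trans ?_
  rw [← hδ] at hq
  calc Cd * Real.exp (-(l * Metric.infDist y {y | Seed z K (t - C₅ + C₄) y}))
      ≤ Cd * Real.exp (-(l * ((ρ - ‖y - x‖) + δ'))) := by
        apply mul_le_mul_of_nonneg_left _ hCd.le
        apply Real.exp_le_exp.mpr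
        have := mul_le_mul_of_nonneg_left hdist hl.le
        linarith
    _ = (Cd * Real.exp (-(l * δ'))) * Real.exp (-(l * (ρ - ‖y - x‖))) := by
        rw [mul_assoc, ← Real.exp_add]
        congr 2
        ring
    _ ≤ q * Real.exp (-(l * (ρ - ‖y - x‖))) :=
        mul_le_mul_of_nonneg_right hq (Real.exp_nonneg _)

theorem stepX2 (hN : 0 < N) (Z : ZFam f M z) (H : Cls f α μ d₁ δ) (Q : Par z μ κ₁ C₁ l)
    {L : ℝ} (hL : 0 < L) :
    ∃ C s₁ ts : ℝ, 0 ≤ C ∧ 1 ≤ s₁ ∧ 0 ≤ ts ∧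
    ∀ s R t T', s₁ ≤ s → s ^ 2 ≤ R → ts ≤ t → C ≤ T' → T' ≤ L * (1 + s) → ¬ PS z s T' →
      ∀ (K : Set (E N)) (x : E N), (∀ y, ‖y - x‖ ≤ R + s → ¬ Seed z K t y) →
      ∀ y, ‖y - x‖ ≤ R → ¬ Seed z K (t + T' - C) y := by
  classical
  have hM := Z.nl.nn
  have hκ := Q.κ_pos
  have hC₁ := Q.C_nn
  have hl := Q.l_pos
  have hν := Q.nu_pos
  have hνκ : l / κ₁ * κ₁ = l := div_mul_cancel₀ l hκ.ne'
  obtain ⟨CF, γ, q₀, t₀, hCF, hγ, hq₀, ht₀, hFM⟩ := FMw Z H Q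
  obtain ⟨Cd, C₄, hCd, hC₄, hTL⟩ := TLd Z H Q
  obtain ⟨ε₀, R₀, C₇, hε₀, hR₀, hC₇, hrob⟩ := Z.robust
  obtain ⟨L', hL', hshift⟩ := Z.ps_shift
  obtain ⟨E₀, hE₀⟩ : ∃ E₀, E₀ = Real.exp (l / κ₁ * (κ₁ * R₀ + C₁)) := ⟨_, rfl⟩
  have hE₀p : 0 < E₀ := by rw [hE₀]; exact Real.exp_pos _
  obtain ⟨q, hqd⟩ : ∃ q, q = min q₀ (ε₀ / (4 * CF * E₀)) := ⟨_, rfl⟩
  have hq : 0 < q := by rw [hqd]; exact lt_min hq₀ (by positivity)
  have hqq : q ≤ q₀ := by rw [hqd]; exact min_le_left _ _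
  have hqE : CF * q * E₀ ≤ ε₀ / 4 := by
    have h1 : q ≤ ε₀ / (4 * CF * E₀) := by rw [hqd]; exact min_le_right _ _
    calc CF * q * E₀ ≤ CF * (ε₀ / (4 * CF * E₀)) * E₀ := by gcongr
      _ = ε₀ / 4 := by field_simp
  obtain ⟨Ta, hTa, hfill⟩ := Z.fill 0 q hq
  obtain ⟨a₀, ha₀⟩ : ∃ a₀, a₀ = Ta + t₀ + C₁ := ⟨_, rfl⟩
  have ha1 : Ta ≤ a₀ := by linarith
  have ha2 : t₀ ≤ a₀ := by linarith
  have ha3 : C₁ ≤ a₀ := by linarith
  have ha4 : 0 ≤ a₀ := by linarith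
  -- the constant `C₅`
  obtain ⟨C₅, hC₅1, hC₅2, hC₅3⟩ : ∃ C₅ : ℝ, 1 ≤ C₅ ∧ C₄ + C₁ ≤ C₅ ∧
      Cd * Real.exp (-(l * ((C₅ - C₄ - C₁) / κ₁))) ≤ q := by
    obtain ⟨w, hw⟩ : ∃ w : ℝ, w = Cd / q := ⟨_, rfl⟩
    have hw0 : 0 < w := by rw [hw]; positivity
    refine ⟨1 + C₄ + C₁ + κ₁ / l * w, by
      have : 0 ≤ κ₁ / l * w := by positivity
      linarith, by
      have : 0 ≤ κ₁ / l * w := by positivity
      linarith, ?_⟩
    have h1 : w ≤ l * ((1 + C₄ + C₁ + κ₁ / l * w - C₄ - C₁) / κ₁) := by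
      have : l * ((1 + C₄ + C₁ + κ₁ / l * w - C₄ - C₁) / κ₁) = l / κ₁ + w := by
        field_simp
        ring
      rw [this]
      linarith
    have h2 : w ≤ Real.exp w := by
      have := Real.add_one_le_exp w
      linarith
    calc Cd * Real.exp (-(l * ((1 + C₄ + C₁ + κ₁ / l * w - C₄ - C₁) / κ₁)))
        ≤ Cd * Real.exp (-w) := by
          apply mul_le_mul_of_nonneg_left _ hCd.le
          apply Real.exp_le_exp.mpr
          linarith
      _ ≤ q := by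
          rw [Real.exp_neg, ← div_eq_mul_inv, div_le_iff₀ (Real.exp_pos _)]
          calc Cd = q * w := by rw [hw]; field_simp
            _ ≤ q * Real.exp w := mul_le_mul_of_nonneg_left h2 hq.le
  have hNn : (0:ℝ) ≤ N := Nat.cast_nonneg N
  obtain ⟨B, hB⟩ : ∃ B, B = 1 + 8 * (2 * L) * (2 * M * (2 * L) + N + 1) := ⟨_, rfl⟩
  have hB0 : 0 ≤ 8 * (2 * L) * (2 * M * (2 * L) + N + 1) := by positivity
  have hB1 : 1 ≤ B := by linarith
  have hB2 : 8 * (2 * L) * (2 * M * (2 * L) + N + 1) ≤ B := by linarith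
  obtain ⟨A, hA⟩ : ∃ A, A = B + 1 := ⟨_, rfl⟩
  have hA1 : 1 ≤ A := by linarith
  have hLA : 0 ≤ L' * (1 + A ^ 2) := by positivity
  have hCFq : 0 ≤ CF * q := by positivity
  obtain ⟨C, hC⟩ : ∃ C, C = C₅ + a₀ + CF * q + C₇ + L' * (1 + A ^ 2) := ⟨_, rfl⟩
  refine ⟨C, 3 * A + A ^ 2 + R₀ + 4 / ε₀, C₅, by rw [hC]; positivity, by
      have h1 : 0 < 4 / ε₀ := by positivity
      have h2 := sq_nonneg A
      linarith, by linarith, ?_⟩
  intro s R t T' hs hR ht hCT hTL' hPS K x hx y hy hseed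
  apply hPS
  have hε4 : 0 < 4 / ε₀ := by positivity
  have hAnn := sq_nonneg A
  have hs3A : 3 * A ≤ s := by linarith
  have hsA2 : A ^ 2 ≤ s := by linarith
  have hsR₀ : R₀ ≤ s := by linarith
  have hsε : 4 / ε₀ ≤ s := by linarith
  have hs1 : 1 ≤ s := by linarith
  have hs0 : 0 ≤ s := by linarith
  have htC : 0 ≤ t + T' - C := by linarith
  -- `K` is nonempty
  have hKne : K.Nonempty := by
    obtain ⟨Λ, hΛ, hsp⟩ := Z.speed
    obtain ⟨p, hp, -⟩ := hsp K _ y htC hseed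
    exact ⟨p, hp⟩
  -- the direction
  obtain ⟨e, he, hye⟩ : ∃ e : E N, ‖e‖ = 1 ∧ y - x = ‖y - x‖ • e := by
    by_cases hyx : y - x = 0
    · refine ⟨EuclideanSpace.single (⟨0, hN⟩ : Fin N) (1:ℝ), by simp, ?_⟩
      rw [hyx]; simp
    · refine ⟨‖y - x‖⁻¹ • (y - x), ?_, ?_⟩
      · rw [norm_smul, norm_inv, norm_norm, inv_mul_cancel₀ (norm_ne_zero_iff.mpr hyx)]
      · rw [smul_smul, mul_inv_cancel₀ (norm_ne_zero_iff.mpr hyx), one_smul]
  have hee : (inner ℝ e e : ℝ) = 1 := by rw [real_inner_self_eq_norm_sq, he]; norm_num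
  obtain ⟨t2, ht2⟩ : ∃ t2, t2 = t - C₅ := ⟨_, rfl⟩
  have ht20 : 0 ≤ t2 := by linarith
  have hdeep : ∀ p, ‖p - x‖ ≤ R + s → z K t2 p ≤ q * Real.exp (-(l * (R + s - ‖p - x‖))) := by
    intro p hp
    rw [ht2]
    exact stepy_deep Z Q hCd hC₄ hC₅2 hC₅3 hKne ht
      (fun w => hTL K (t - C₅) w hKne (by linarith)) hx p hp
  obtain ⟨c, hc⟩ : ∃ c : ℝ, c = -((inner ℝ y e : ℝ) + (s - A ^ 2)) := ⟨_, rfl⟩
  obtain ⟨Pl, hPl⟩ : ∃ Pl : Set (E N), Pl = {p : E N | inner ℝ p (-e) ≤ c} := ⟨_, rfl⟩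
  have hmem : ∀ p : E N, p ∈ Pl ↔ s - A ^ 2 ≤ inner ℝ (p - y) e := by
    intro p
    rw [hPl]
    simp only [mem_ofPred_eq, inner_neg_right]
    rw [inner_sub_left, hc]
    constructor <;> intro h <;> linarith
  have hPlne : Pl.Nonempty := by
    refine ⟨y + (s - A ^ 2) • e, ?_⟩
    rw [hmem, add_sub_cancel_left, inner_smul_left, hee]
    simp
  have hbound : ∀ p, ‖p - y‖ ≤ A * s → z K t2 p ≤ z Pl a₀ p + q * Wt z Pl (l / κ₁) a₀ p := by
    intro p hp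
    by_cases hpP : p ∈ Pl
    · have h3 := hfill Pl p p a₀ hpP (by simp) ha1
      have h4 := ((Z.dat K t2).mem p).2
      have h5 : 1 ≤ Wt z Pl (l / κ₁) a₀ p := by
        unfold Wt
        rw [Z.tau_mem hpP, sub_zero]
        exact Real.one_le_exp (by positivity)
      have h6 := mul_le_mul_of_nonneg_left h5 hq.le
      linarith
    · obtain ⟨a, ha⟩ : ∃ a, a = (inner ℝ (p - y) e : ℝ) := ⟨_, rfl⟩
      have hpa : a < s - A ^ 2 := by
        rw [hmem, ← ha] at hpP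
        exact not_le.1 hpP
      obtain ⟨D, hD⟩ : ∃ D, D = s - A ^ 2 - a := ⟨_, rfl⟩
      have hD0 : 0 < D := by linarith
      have h1 := stepy_geo he hye hA1 hs3A hR hy hp
      rw [← ha] at h1
      have h2 : ‖p - x‖ ≤ R + s := by linarith
      have h3 := hdeep p h2
      have h4 : D ≤ R + s - ‖p - x‖ := by linarith
      have h5 : p + D • e ∈ Pl := by
        rw [hmem]
        have : p + D • e - y = (p - y) + D • e := by abel
        rw [this, inner_add_left, inner_smul_left, hee, ← ha]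
        simp
        linarith
      have h6 := Q.tau_lip Z hPlne (p + D • e) p
      rw [Z.tau_mem h5, zero_add, add_sub_cancel_left, norm_smul, he, mul_one, Real.norm_eq_abs,
        abs_of_pos hD0] at h6
      have h7 : Real.exp (-(l * (R + s - ‖p - x‖))) ≤ Wt z Pl (l / κ₁) a₀ p := by
        unfold Wt
        apply Real.exp_le_exp.mpr
        have k1 : l * D ≤ l * (R + s - ‖p - x‖) := mul_le_mul_of_nonneg_left h4 hl.le
        have k2 : -(κ₁ * D) ≤ a₀ - tau (Seed z) Pl p := by linarith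
        have k3 := mul_le_mul_of_nonneg_left k2 hν.le
        have k4 : l / κ₁ * (-(κ₁ * D)) = -(l * D) := by
          rw [mul_neg, ← mul_assoc, hνκ]
        linarith
      have h8 := ((Z.dat Pl a₀).mem p).1
      have h9 := mul_le_mul_of_nonneg_left h7 hq.le
      linarith
  -- the cut-off
  obtain ⟨W, hW⟩ : ∃ W : Set (E N), W = {p : E N | A * s < ‖p - y‖} := ⟨_, rfl⟩
  have hWm : MeasurableSet W := by
    rw [hW]
    exact measurableSet_lt measurable_const (by fun_prop)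
  obtain ⟨g, hg⟩ : ∃ g : E N → ℝ, g = (Wᶜ).indicator (z K t2) := ⟨_, rfl⟩
  have hgd : Dat g := by
    constructor
    · rw [hg]
      exact (Z.dat K t2).meas.indicator hWm.compl
    · intro p
      rw [hg]
      by_cases hp : p ∈ Wᶜ
      · rw [indicator_of_mem hp]; exact (Z.dat K t2).mem p
      · rw [indicator_of_notMem hp]; exact ⟨le_rfl, zero_le_one⟩
  have hgle : ∀ p, g p ≤ z Pl a₀ p + q * Wt z Pl (l / κ₁) a₀ p := by
    intro p
    rw [hg]
    by_cases hp : p ∈ Wᶜ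
    · rw [indicator_of_mem hp]
      apply hbound
      rw [hW] at hp
      simpa using hp
    · rw [indicator_of_notMem hp]
      have h2 := ((Z.dat Pl a₀).mem p).1
      have h3 : 0 ≤ q * Wt z Pl (l / κ₁) a₀ p := mul_nonneg hq.le (Wt_pos _ _ _ _).le
      linarith
  obtain ⟨r, hr⟩ : ∃ r, r = T' - C + C₅ := ⟨_, rfl⟩
  have hr0 : 0 < r := by linarith
  have hrT : r ≤ T' := by linarith
  have hr2 : r ≤ (2 * L) * s := by
    have h1 := mul_le_mul_of_nonneg_left hs1 hL.le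
    linarith
  have hF := fun p => hFM Pl a₀ q g hPlne hgd ha2 hq.le hqq hgle r hr0.le p
  -- the error
  have hexp := stepy_exp (N := N) (L := 2 * L) (by positivity) hM hB1 hB2 hs1 hr0 hr2
  have hexp2 : Real.exp (-s) ≤ ε₀ / 4 := by
    have h1 : s ≤ Real.exp s := by
      have := Real.add_one_le_exp s
      linarith
    rw [Real.exp_neg, inv_le_comm₀ (Real.exp_pos _) (by positivity)]
    have h2 : (ε₀ / 4)⁻¹ = 4 / ε₀ := by rw [inv_div]
    rw [h2]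
    linarith
  have hE : ∀ y₁, ‖y₁ - y‖ ≤ R₀ → S f M r (z K t2) y₁ ≤ S f M r g y₁ + ε₀ / 4 := by
    intro y₁ hy₁
    have h1 : S f M r (z K t2) y₁ ≤ S f M r g y₁ +
        Real.exp (2 * M * r) * P r (W.indicator 1) y₁ := by
      apply S_err Z.nl (Z.dat K t2) hgd (D := W.indicator 1) (C := 1)
      · exact measurable_const.indicator hWm
      · intro p
        exact indicator_nonneg (fun _ _ => zero_le_one) p
      · intro p
        exact indicator_le_self' (fun _ _ => zero_le_one) p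
      · intro p
        rw [hg]
        by_cases hp : p ∈ W
        · rw [indicator_of_notMem (by simpa using hp), indicator_of_mem hp]
          simpa using ((Z.dat K t2).mem p).2
        · rw [indicator_of_mem (by simpa using hp), indicator_of_notMem hp, add_zero]
      · exact hr0
    have h2 := P_tail hr0 y₁ (A := B * s) (by positivity) hWm (by
      intro p hp
      rw [hW] at hp
      have hp' : A * s < ‖p - y‖ := hp
      have h3 : ‖p - y‖ ≤ ‖y₁ - p‖ + ‖y₁ - y‖ := by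
        have : p - y = -(y₁ - p) + (y₁ - y) := by abel
        rw [this]
        refine (norm_add_le _ _).trans ?_
        rw [norm_neg]
      have h4 : A * s = B * s + s := by rw [hA]; ring
      linarith)
    refine h1.trans (add_le_add_right ?_ _)
    exact (mul_le_mul_of_nonneg_left h2 (Real.exp_nonneg _)).trans (hexp.trans hexp2)
  -- the planar seeds
  have hfinal : ∀ T, 0 ≤ T → T + L' * (1 + A ^ 2) ≤ T' → Seed z Pl T y → PS z s T' := by
    intro T hT0 hT hsd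
    have hps : PS z (s - A ^ 2) T := by
      refine Z.ps_of (e := -e) (by rw [norm_neg, he]) (c := c) (x := y) hT0 ?_ ?_
      · rw [inner_neg_right, hc]
        linarith
      · rw [hPl] at hsd
        exact hsd
    have hps2 := hshift (s - A ^ 2) T (A ^ 2) hT0 (sq_nonneg A) hps
    rw [sub_add_cancel] at hps2
    intro e' he' c' x' hx'
    exact Z.seed_mono (by positivity) hT (hps2 e' he' c' x' hx')
  rcases lt_or_ge (tau (Seed z) Pl y) (a₀ + r) with hcase | hcase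
  · exact hfinal (a₀ + r) (by linarith) (by rw [hr]; linarith) (Z.tau_lt hPlne hcase)
  · have hWt : ∀ y₁, ‖y₁ - y‖ ≤ R₀ → Wt z Pl (l / κ₁) (a₀ + r) y₁ ≤ E₀ := by
      intro y₁ hy₁
      rw [hE₀]
      unfold Wt
      apply Real.exp_le_exp.mpr
      apply mul_le_mul_of_nonneg_left _ hν.le
      have h1 := Q.tau_lip Z hPlne y₁ y
      have h2 := mul_le_mul_of_nonneg_left hy₁ hκ.le
      linarith
    have htime : t2 + r = t + T' - C := by rw [ht2, hr]; ring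
    have hlow : ∀ y₁, ‖y₁ - y‖ ≤ R₀ → z {y} 0 y₁ - ε₀ ≤ z Pl (a₀ + r + CF * q) y₁ := by
      intro y₁ hy₁
      have h1 := hseed y₁
      rw [← htime, Z.flow K t2 r ht20 hr0.le y₁] at h1
      have h2 := hE y₁ hy₁
      have h3 := hF y₁
      have h4 : CF * q * Real.exp (-(γ * r)) * Wt z Pl (l / κ₁) (a₀ + r) y₁ ≤ ε₀ / 4 := by
        have k1 : Real.exp (-(γ * r)) ≤ 1 := by
          rw [Real.exp_le_one_iff]
          have : 0 ≤ γ * r := by positivity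
          linarith
        calc CF * q * Real.exp (-(γ * r)) * Wt z Pl (l / κ₁) (a₀ + r) y₁
            ≤ CF * q * 1 * E₀ := by
              apply mul_le_mul _ (hWt y₁ hy₁) (Wt_pos _ _ _ _).le (by positivity)
              exact mul_le_mul_of_nonneg_left k1 hCFq
          _ ≤ ε₀ / 4 := by rw [mul_one]; exact hqE
      linarith
    have hsd : Seed z Pl (a₀ + r + CF * q + C₇) y := by
      intro w
      have h1 := hrob (z Pl (a₀ + r + CF * q)) (Z.dat _ _) y hlow w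
      rwa [← Z.flow Pl (a₀ + r + CF * q) C₇ (by positivity) hC₇ w] at h1
    exact hfinal _ (by positivity) (by rw [hr]; linarith) hsd

end

end Pool.Agent.AP157
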