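import Pool.Agent.AP157.SlideB
import Pool.Agent.AP157.StepY
import Pool.Agent.AP157.Fin

/-!
# Asymptotic planarity for the wider class of nonlinearities: end of the proof
-/

set_option autoImplicit false

open MeasureTheory Real Set Filter Topology
open scoped ENNReal

namespace Pool.Agent.AP157

open Pool.Agent.X297.KP

noncomputable section

variable {N : ℕ} {f : ℝ → ℝ} {M : ℝ} {z : Set (E N) → ℝ → E N → ℝ} {α μ d₁ δ κ₁ C₁ l : ℝ}

/-- The arrival times. -/
theorem exists_arr2 (hN : 0 < N) (Z : ZFam f M z) (H : Cls f α μ d₁ δ) (Q : Par z μ κ₁ C₁ l) :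
    ∃ κ C ts : ℝ, 0 < κ ∧ 0 ≤ C ∧ 0 ≤ ts ∧ ∀ K : Set (E N), K.Nonempty →
      Arr κ C ts K (tau (Seed z) K) := by
  obtain ⟨L₁, hL₁, hs₁⟩ := Z.spread
  obtain ⟨L₂, hL₂, hs₂⟩ := Z.ps_hi
  obtain ⟨Λ₁, hΛ₁, hsp₁⟩ := Z.speed
  obtain ⟨Λ₂, hΛ₂, hsp₂⟩ := ZFam.ps_lo hN Z
  set L := max L₁ L₂ with hL
  set Λ := max Λ₁ Λ₂ with hΛ
  have hL0 : 0 < L := lt_max_of_lt_left hL₁
  have hΛ0 : 0 < Λ := lt_max_of_lt_left hΛ₁
  obtain ⟨C₃, s₁, hC₁, hs₁1, hB⟩ := stepB Z hL0
  obtain ⟨C₂, s₂, ts, hC₂, hs₂1, hts, hX⟩ := stepX2 hN Z H Q hL0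
  set C := max C₃ C₂ with hC
  have hC0 : 0 ≤ C := le_max_of_le_left hC₁
  have zpos : ∀ s : ℝ, 0 ≤ s → ∀ x : E N, 0 ≤ 1 + ‖x‖ := fun _ _ x => by positivity
  apply comb hN (Sd := Seed z) (Ps := PS z) (L := L) (Λ := Λ) (C := C) (s₁ := max s₁ s₂)
    (ts := ts) hL0 hΛ0 hC0 (le_max_of_le_left hs₁1) hts
  · intro K s t x hs hst h
    exact Z.seed_mono hs hst h
  · intro K x hx
    exact Z.of_mem K x hx
  · intro K K' s t x hs ht h hx
    exact Z.seed_comp hs ht h hx
  · intro x y t h
    have := Z.seed_trans x h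
    simpa using this
  · intro x y t ht
    apply hs₁
    refine le_trans ?_ ht
    exact mul_le_mul_of_nonneg_right (le_max_left _ _) (by positivity)
  · intro K t x ht h
    obtain ⟨y, hy, hxy⟩ := hsp₁ K t x ht h
    refine ⟨y, hy, hxy.trans ?_⟩
    exact mul_le_mul_of_nonneg_right (le_max_left _ _) (by positivity)
  · intro s t t' ht htt' h e he c x hx
    exact Z.seed_mono ht htt' (h e he c x hx)
  · intro s t hs ht
    apply hs₂ s t hs
    refine le_trans ?_ ht
    exact mul_le_mul_of_nonneg_right (le_max_right _ _) (by positivity)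
  · intro s t ht h
    refine (hsp₂ s t ht h).trans ?_
    exact mul_le_mul_of_nonneg_right (le_max_right _ _) (by positivity)
  · intro s R T T' hs hR hT hT' hT'L hps hb y hy
    have h1 := hB s R T T' (le_trans (le_max_left _ _) hs) hR hT hT' hT'L hps hb y hy
    exact Z.seed_mono (by positivity) (by linarith [le_max_left C₃ C₂]) h1
  · intro s R t T' hs hR ht hT' hT'L hps K x hno y hy hcon
    have hCC : C₂ ≤ C := le_max_right _ _
    have h1 := hX s R t T' (le_trans (le_max_right _ _) hs) hR ht (hCC.trans hT') hT'L hps K x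
      hno y hy
    apply h1
    exact Z.seed_mono (by linarith) (by linarith) hcon

/-- The main result in terms of entire limits. -/
theorem limit_planar2 (hN : 0 < N) (Z : ZFam f M z) (H₀ : Cls f α μ d₁ δ)
    (Q₀ : Par z μ κ₁ C₁ l) {ρ Ta : ℝ} (hTa : 0 ≤ Ta)
    (hz : ∀ (K : Set (E N)) (w : E N → ℝ), Dat w → (∀ y ∈ K, ∀ x, bb N ρ (x - y) ≤ w x) →
      ∀ x, z K 0 x ≤ S f M Ta w x) {U : Set (E N)} (hU : MeasurableSet U)
    (hUρ : Metric.hausdorffEDist U (shrink U ρ) < ⊤) (hC : CondC U)
    {t : ℕ → ℝ} {x : ℕ → E N} (ht : Tendsto t atTop atTop) {ψ : E N → ℝ}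
    (hψ : ∀ᵐ y, Tendsto (fun n => S f M (t n) (U.indicator 1) (x n + y)) atTop (𝓝 (ψ y))) :
    ∃ v : E N → ℝ, Planar v ∧ ψ =ᵐ[volume] v := by
  have hf := Z.nl
  have hg : Dat (U.indicator (1 : E N → ℝ)) := ind_dat hU
  set K := shrink U ρ with hK
  have hKU : K ⊆ U := fun y hy => hy.1
  -- the ultralimit
  set F := hyperfilter ℕ with hF
  have htF : Tendsto t F atTop := ht.mono_left Nat.hyperfilter_le_atTop
  obtain ⟨v, hv, hvl⟩ := ulim hf F (fun n s y => S f M (t n + s) (U.indicator 1) (x n + y)) (by
      intro T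
      refine Eventually.of_forall (fun n s _ => ?_)
      have := dat_trans (S_dat hf hg (t n + s)) (x n)
      simpa [add_comm] using this) (by
      intro T
      filter_upwards [htF.eventually_ge_atTop (|T|)] with n hn s r hs hr y
      have h0 : 0 ≤ t n + s := by
        have := neg_abs_le T
        linarith
      have e1 := S_add hf hg (s := t n + s) (t := r) h0 hr
      have e2 := S_trans hf (S_dat hf hg (t n + s)) r (x n) y
      rw [← add_assoc, e1, add_comm (x n) y, ← e2]
      congr 1
      funext w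
      rw [add_comm w])
  have hae : ψ =ᵐ[volume] v 0 := by
    filter_upwards [hψ] with y hy
    have h1 := hy.mono_left Nat.hyperfilter_le_atTop
    have h2 := hvl 0 y
    simp only [add_zero] at h2
    exact tendsto_nhds_unique h1 h2
  suffices hmain : Planar (v 0) from ⟨v 0, hmain, hae⟩
  by_cases hKe : K.Nonempty
  swap
  · -- empty initial set
    rw [not_nonempty_iff_eq_empty] at hKe
    have hUe : U = ∅ := by
      by_contra hne
      have hne' : U.Nonempty := nonempty_iff_ne_empty.mpr hne
      rw [hKe, Metric.hausdorffEDist_empty hne'] at hUρ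
      exact lt_irrefl _ hUρ
    have h1 : v 0 = fun _ => 0 := by
      funext y
      have h2 := hvl 0 y
      have h3 : (fun n => S f M (t n + 0) (U.indicator 1) (x n + y)) = fun _ => 0 := by
        funext n
        rw [hUe, indicator_empty]
        exact S_const_eq hf ⟨le_rfl, zero_le_one⟩ hf.zero _ _
      rw [h3] at h2
      exact tendsto_nhds_unique h2 tendsto_const_nhds
    rw [h1]
    exact planar_const hN 0
  -- the distance between `U` and `K`
  obtain ⟨H, hH0, hH⟩ : ∃ H : ℝ, 0 ≤ H ∧ ∀ y ∈ U, ∃ w ∈ K, dist y w ≤ H := by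
    refine ⟨(Metric.hausdorffEDist U K).toReal + 1, by positivity, fun y hy => ?_⟩
    have h1 : Metric.hausdorffEDist U K < ENNReal.ofReal ((Metric.hausdorffEDist U K).toReal + 1) := by
      rw [ENNReal.ofReal_add ENNReal.toReal_nonneg zero_le_one, ENNReal.ofReal_toReal hUρ.ne]
      exact ENNReal.lt_add_right hUρ.ne (by simp)
    obtain ⟨w, hw, hyw⟩ := Metric.exists_edist_lt_of_hausdorffEDist_lt hy h1
    refine ⟨w, hw, ?_⟩
    rw [edist_dist] at hyw
    exact ((ENNReal.ofReal_lt_ofReal_iff (by positivity)).mp hyw).le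
  -- two-sided bounds
  have hb : ∀ y ∈ K, ∀ x, bb N ρ (x - y) ≤ U.indicator 1 x := by
    intro y hy x
    unfold bb
    by_cases hx : x - y ∈ Metric.ball (0 : E N) ρ
    · rw [indicator_of_mem hx]
      have hxU : x ∈ U := by
        by_contra hxU
        have hxy : dist y x < ρ := by
          rw [mem_ball_zero_iff] at hx
          rwa [dist_comm, dist_eq_norm]
        -- the segment from `y` to `x` meets the frontier
        obtain ⟨w, hw1, hw2⟩ := meets_frontier (convex_segment y x).isPreconnected
          (left_mem_segment ℝ y x) (right_mem_segment ℝ y x) hy.1 hxU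
        have h1 : dist y w ≤ dist y x := by
          have h2 : w ∈ Metric.closedBall y (dist y x) :=
            (convex_closedBall y (dist y x)).segment_subset
              (Metric.mem_closedBall_self dist_nonneg) (by simp [dist_comm]) hw1
          rw [dist_comm]
          exact Metric.mem_closedBall.mp h2
        have h3 : ENNReal.ofReal ρ ≤ edist y w := hy.2.trans (Metric.infEDist_le_edist_of_mem hw2)
        rw [edist_dist, ENNReal.ofReal_le_ofReal_iff dist_nonneg] at h3
        linarith
      rw [indicator_of_mem hxU]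
      simp
    · rw [indicator_of_notMem hx]
      exact indicator_nonneg (fun _ _ => zero_le_one) _
  obtain ⟨Tc, C₂, hu⟩ := exists_ub2 Z H₀ Q₀ hTa hz hKe hg hb (R := H) (by
    intro y hy
    have hyU : y ∈ U := by
      by_contra hno
      exact hy (indicator_of_notMem hno _)
    obtain ⟨w, hw, hyw⟩ := hH y hyU
    exact ⟨w, hw, by rwa [dist_eq_norm] at hyw⟩)
  by_cases hfar : Tendsto (fun n => Metric.infDist (x n) K) F atTop
  swap
  · -- points at bounded distance from `U`
    rw [tendsto_atTop, not_forall] at hfar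
    obtain ⟨R, hR⟩ := hfar
    have hR' : ∀ᶠ n in (F : Filter ℕ), Metric.infDist (x n) K < R := by
      have := Ultrafilter.eventually_not.mpr hR
      filter_upwards [this] with n hn
      exact not_le.mp hn
    have h1 : v 0 = fun _ => 1 := by
      funext y
      apply le_antisymm ((hv.dat 0).mem y).2
      apply le_of_forall_pos_le_add
      intro ε hε
      obtain ⟨T, hT0, hT⟩ := Z.fill (R + ‖y‖) ε hε
      have h2 : 1 - ε ≤ v 0 y := by
        refine ge_of_tendsto (hvl 0 y) ?_
        filter_upwards [hR', htF.eventually_ge_atTop (T + Ta)] with n hn hn2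
        obtain ⟨w, hw, hxw⟩ := (Metric.infDist_lt_iff hKe).mp hn
        have h3 := hu.lo (t n) (x n + y) (by linarith)
        have h4 := hT K (x n + y) w (t n - Ta) hw (by
          have e1 : x n + y - w = (x n - w) + y := by abel
          rw [e1]
          rw [dist_eq_norm] at hxw
          exact (norm_add_le _ _).trans (by linarith)) (by linarith)
        rw [add_zero]
        linarith
      linarith
    rw [h1]
    exact planar_const hN 1
  -- the main case
  obtain ⟨e, he, hQ⟩ := dir hC hKU hH hKe F x hfar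
  obtain ⟨κ, C, ts, hκ, hC0, hts, hA⟩ := exists_arr2 hN Z H₀ Q₀
  have hvO : v ∈ Om K e (fun t => S f M t (U.indicator 1)) := by
    refine ⟨F.map (fun n => (t n, x n)), ?_, ?_⟩
    · intro C hC
      rw [Ultrafilter.coe_map, Filter.eventually_map]
      filter_upwards [htF.eventually_ge_atTop C, hQ C hC] with n h1 h2
      exact ⟨h1, h2⟩
    · intro s y
      rw [Ultrafilter.coe_map, tendsto_map'_iff]
      exact hvl s y
  have hsl : ∀ t x h T, κ * inner ℝ e h ≤ T → v t (x - h) ≤ v (t + T) x :=
    fun t x h T hT => slide2 Z H₀ Q₀ hKe hκ hC0 hts (hA K hKe) he hg hu hvO t x h hT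
  have heq : ∀ t x h, v t (x - h) = v (t + κ * inner ℝ e h) x := by
    intro t x h
    apply le_antisymm (hsl t x h _ le_rfl)
    have := hsl (t + κ * inner ℝ e h) (x - h) (-h) (κ * inner ℝ e (-h)) le_rfl
    rw [inner_neg_right, sub_neg_eq_add, sub_add_cancel] at this
    have e1 : t + κ * inner ℝ e h + κ * -inner ℝ e h = t := by ring
    rwa [e1] at this
  set Ψ : ℝ → ℝ := fun s => v (-(κ * s)) 0 with hΨ
  have hΨe : ∀ y, v 0 y = Ψ (inner ℝ y e) := by
    intro y
    have := heq 0 0 (-y)
    rw [inner_neg_right, sub_neg_eq_add, zero_add] at this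
    rw [this, real_inner_comm, hΨ]
    simp only
    congr 1
    ring
  have hΨs : Ψ = fun s => v 0 (s • e) := by
    funext s
    rw [hΨe, inner_smul_left, real_inner_self_eq_norm_sq, he]
    simp
  have hmono : ∀ t T x, 0 ≤ T → v t x ≤ v (t + T) x := by
    intro t T x hT
    have := hsl t x 0 T (by simpa using hT)
    simpa using this
  have hanti : ∀ a b, a ≤ b → Ψ b ≤ Ψ a := by
    intro a b hab
    have := hmono (-(κ * b)) (κ * (b - a)) 0 (mul_nonneg hκ.le (by linarith))
    have e1 : -(κ * b) + κ * (b - a) = -(κ * a) := by ring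
    rw [e1] at this
    exact this
  refine ⟨e, he, Ψ, ?_, ?_, hΨe⟩
  · rw [hΨs]
    have h1 : (fun s : ℝ => v 0 (s • e)) = fun s : ℝ => S f M 2 (v (-2)) (s • e) := by
      funext s
      have := hv.flow (-2) 2 (by norm_num) (s • e)
      norm_num at this
      exact this
    rw [h1]
    exact S_C2 hf (hv.dat _) e
  · by_cases hst : StrictAnti Ψ
    · exact Or.inr (Or.inr hst)
    · left
      unfold StrictAnti at hst
      push Not at hst
      obtain ⟨a, b, hab, hle⟩ := hst
      have hΨab : Ψ a = Ψ b := le_antisymm hle (hanti a b hab.le)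
      set d := κ * (b - a) with hd
      have hd0 : 0 < d := mul_pos hκ (by linarith)
      have hEb : Ent f M (fun t x => v (t + d) x) := by
        have := hv.shift hf d 0
        simpa using this
      have hper : ∀ t x, v t x = v (t + d) x := by
        apply ent_touch hf hv hEb (fun t x => hmono t d x hd0.le) (t₀ := -(κ * b)) (x₀ := 0)
        have e1 : -(κ * b) + d = -(κ * a) := by rw [hd]; ring
        rw [e1]
        exact hΨab.symm
      have hpern : ∀ n : ℕ, ∀ t x, v t x = v (t + n * d) x := by
        intro n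
        induction n with
        | zero => intro t x; simp
        | succ n ih =>
          intro t x
          rw [ih t x, hper (t + n * d) x]
          congr 1
          push_cast
          ring
      have hconst : ∀ s t, s ≤ t → v s 0 = v t 0 := by
        intro s t hst
        apply le_antisymm
        · have := hmono s (t - s) 0 (by linarith)
          rwa [add_sub_cancel] at this
        · obtain ⟨n, hn⟩ := exists_nat_ge ((t - s) / d)
          rw [div_le_iff₀ hd0] at hn
          rw [hpern n s 0]
          have := hmono t (s + n * d - t) 0 (by linarith)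
          rwa [add_sub_cancel] at this
      refine ⟨v 0 0, fun s => ?_⟩
      rw [hΨ]
      simp only
      rcases le_total (-(κ * s)) 0 with h | h
      · exact hconst _ _ h
      · exact (hconst _ _ h).symm

end

end Pool.Agent.AP157
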