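import Pool.Agent.AP157.Wk
import Pool.Agent.AP157.Reg
import Pool.Agent.AP157.Dir

/-!
# Far points of U in the other half-spaces

Use `dir_open`, `dir_nearest` (and possibly `dir_close`) from Dir.lean.  Let ξ_i be a nearest point of closure U to x_i, d_i = infDist (x_i) U → ∞, e := limit along F of (x_i - ξ_i)/d_i (compactness of the sphere, `isCompact_sphere ... ultrafilter_le_nhds`, as in `dir`).
Fix C > 0 and a small ε (depending on C).  F-eventually, for ‖x'-x_i‖ ≤ C: let ξ' be a nearest point to x', d' = infDist x' U, |d'-d_i| ≤ C.  By dir_open at ξ_i (extended to closure points y by continuity): ⟪x_i-ξ_i, ξ'-ξ_i⟫ ≤ ε d_i ‖ξ'-ξ_i‖, and ‖x_i-ξ'‖ ≤ d_i+2C, so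
‖ξ'-ξ_i‖² - 2ε d_i ‖ξ'-ξ_i‖ ≤ (d_i+2C)² - d_i², hence ‖ξ'-ξ_i‖ ≤ 4ε d_i for large d_i, and ‖(x'-ξ')/d' - e‖ ≤ 10 ε, say.
For y ∈ U, ‖v‖ = 1, ⟪v,e⟫ ≥ 1/C =: η, ⟪y-x',v⟫ ≥ 0: with e' = (x'-ξ')/d': ⟪v,e'⟫ ≥ 3η/4, 0 ≤ ⟪y-x',v⟫ = ⟪y-ξ',v⟫ - d'⟪e',v⟫, so ‖y-ξ'‖ ≥ (3/4) η d'.  By dir_open at x': ⟪e', y-ξ'⟫ ≤ ε ‖y-ξ'‖, so
‖y-x'‖² = ‖y-ξ'‖² + d'² - 2 d' ⟪y-ξ',e'⟫ ≥ d'² + ‖y-ξ'‖ (‖y-ξ'‖ - 2 ε d') ≥ d'² (1 + (3/4)η (3η/4 - 2ε)) ≥ d'² (1 + η²/16).
-/

set_option autoImplicit false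

open MeasureTheory Real Set Filter Topology
open scoped ENNReal

namespace Pool.Agent.AP157

open Pool.Agent.X297.KP

noncomputable section

variable {N : ℕ} {f : ℝ → ℝ} {M m : ℝ}

/-! ## Auxiliary -/

/-- the estimate at one point -/
theorem gdr_point {x' ξ y v e e' : E N} {d c η ε : ℝ} (hd : 0 < d) (hv : ‖v‖ = 1)
    (he' : x' - ξ = d • e') (hn : ‖x' - ξ‖ = d) (hee : ‖e' - e‖ ≤ c / 4) (hη : η = inner ℝ v e)
    (hc0 : 0 < c) (hc : c ≤ η) (hε : ε ≤ c / 24)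
    (hop : inner ℝ (x' - ξ) (y - ξ) ≤ ε * d * ‖y - ξ‖) (hy : 0 ≤ inner ℝ (y - x') v) :
    (1 + η ^ 2 / 16) * d ^ 2 ≤ ‖y - x'‖ ^ 2 := by
  have h1 : 3 / 4 * η ≤ inner ℝ e' v := by
    have h2 : inner ℝ e' v = inner ℝ e v + inner ℝ (e' - e) v := by
      rw [← inner_add_left, add_sub_cancel]
    have h3 : -(c / 4) ≤ inner ℝ (e' - e) v := by
      have h4 := abs_real_inner_le_norm (e' - e) v
      rw [hv, mul_one] at h4
      linarith [(abs_le.1 (h4.trans hee)).1]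
    rw [h2, real_inner_comm v e, ← hη]
    linarith
  have h5 : d * inner ℝ e' v ≤ ‖y - ξ‖ := by
    have h6 : inner ℝ (y - x') v = inner ℝ (y - ξ) v - d * inner ℝ e' v := by
      have : y - x' = (y - ξ) - (x' - ξ) := by abel
      rw [this, inner_sub_left, he', inner_smul_left]
      simp
    have h7 := real_inner_le_norm (y - ξ) v
    rw [hv, mul_one] at h7
    linarith
  obtain ⟨t, ht⟩ : ∃ t, t = ‖y - ξ‖ := ⟨_, rfl⟩
  have h8 : 3 / 4 * η * d ≤ t := by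
    rw [ht]
    refine le_trans ?_ h5
    rw [mul_comm d]
    exact mul_le_mul_of_nonneg_right h1 hd.le
  have h9 : ‖y - x'‖ ^ 2 = t ^ 2 - 2 * inner ℝ (x' - ξ) (y - ξ) + d ^ 2 := by
    have : y - x' = (y - ξ) - (x' - ξ) := by abel
    rw [this, norm_sub_sq_real, hn, ← ht, real_inner_comm]
  rw [h9]
  rw [← ht] at hop
  have hη0 : 0 < η := by linarith
  have ht0 : 0 ≤ t := by rw [ht]; exact norm_nonneg _
  have h10 : ε * d * t ≤ η / 24 * d * t := by
    have : ε ≤ η / 24 := by linarith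
    gcongr
  have h11 : 3 / 4 * η * d * (2 / 3 * η * d) ≤ t * (t - η / 12 * d) := by
    have : 2 / 3 * η * d ≤ t - η / 12 * d := by linarith
    exact mul_le_mul h8 this (by positivity) ht0
  nlinarith [sq_nonneg (η * d)]

theorem gdir {U : Set (E N)} (hC : CondC U) (hU : U.Nonempty) {ι : Type*} (F : Ultrafilter ι)
    (x : ι → E N) (hx : Tendsto (fun i => Metric.infDist (x i) U) F atTop) :
    ∃ e : E N, ‖e‖ = 1 ∧ ∀ C : ℝ, 0 < C → ∀ᶠ i in (F : Filter ι), Gdir U e C (x i) := by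
  choose ξ₀ hξ₀ using fun i => dir_nearest hU (x i)
  set ev : ι → E N := fun i => (Metric.infDist (x i) U)⁻¹ • (x i - ξ₀ i) with hev
  have hsph : ∀ᶠ i in (F : Filter ι), ev i ∈ Metric.sphere (0 : E N) 1 := by
    filter_upwards [hx.eventually (eventually_gt_atTop 0)] with i hi
    rw [mem_sphere_zero_iff_norm, hev]
    simp only
    rw [norm_smul, norm_inv, Real.norm_eq_abs, abs_of_pos hi]
    have h5 : ‖x i - ξ₀ i‖ = Metric.infDist (x i) U := by rw [← dist_eq_norm]; exact (hξ₀ i).2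
    rw [h5, inv_mul_cancel₀ hi.ne']
  obtain ⟨e, he1, he2⟩ := (isCompact_sphere (0 : E N) 1).ultrafilter_le_nhds (F.map ev)
    (by rw [le_principal_iff]; exact hsph)
  refine ⟨e, by simpa using he1, fun C hC0 => ?_⟩
  obtain ⟨η, hη⟩ : ∃ η : ℝ, η = min 1 (1 / (32 * C)) := ⟨_, rfl⟩
  have hη0 : 0 < η := by rw [hη]; positivity
  have hη1 : η ≤ 1 := by rw [hη]; exact min_le_left _ _
  have hηC : η ≤ 1 / (32 * C) := by rw [hη]; exact min_le_right _ _
  obtain ⟨R₁, hR₁, hclose⟩ := dir_close hC hη0 hη1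
  obtain ⟨R₂, hR₂, hopen⟩ := dir_open hC (ε := 1 / (24 * C)) (by positivity)
  have hevC : ∀ᶠ i in (F : Filter ι), ‖ev i - e‖ ≤ 1 / (16 * C) := by
    have h1 : Metric.closedBall e (1 / (16 * C)) ∈ 𝓝 e :=
      Metric.closedBall_mem_nhds _ (by positivity)
    have h2 := he2 h1
    filter_upwards [show ∀ᶠ i in (F : Filter ι), ev i ∈ Metric.closedBall e (1 / (16 * C)) from h2]
      with i hi
    rw [← dist_eq_norm]
    exact hi
  filter_upwards [hevC, hx.eventually (eventually_ge_atTop R₁),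
    hx.eventually (eventually_ge_atTop (R₂ + C)),
    hx.eventually (eventually_ge_atTop (C + 1)),
    hx.eventually (eventually_ge_atTop ((2 * C + 1) / (η ^ 2 / 5))),
    hx.eventually (eventually_ge_atTop (1 / η)),
    hx.eventually (eventually_ge_atTop (16 * C * (C * (1 + 2 * C)))),
    hx.eventually (eventually_ge_atTop (16 * C * C))] with i g1 g2 g3 g4 g5 g6 g7 g8
  set R := Metric.infDist (x i) U with hR
  have hR0 : 0 < R := lt_of_lt_of_le hR₁ g2
  refine ⟨by linarith, fun x' hx' y hy v hv hve hyv => ?_⟩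
  have k3 : R ≤ Metric.infDist x' U + C := by
    have := Metric.infDist_le_infDist_add_dist (s := U) (x := x i) (y := x')
    have h3 : dist (x i) x' ≤ C := by rw [dist_comm, dist_eq_norm]; exact hx'
    linarith
  have k4 : Metric.infDist x' U ≤ R + C := by
    have := Metric.infDist_le_infDist_add_dist (s := U) (x := x') (y := x i)
    have h3 : dist x' (x i) ≤ C := by rw [dist_eq_norm]; exact hx'
    linarith
  obtain ⟨ξ, hξ⟩ := dir_nearest hU x'
  set d := Metric.infDist x' U with hd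
  have k5 : 1 ≤ d := by linarith
  have hd0 : 0 < d := by linarith
  have k6 : |d - R| ≤ 0 + C := by
    rw [abs_le]; constructor <;> linarith
  have hnξ : ‖x' - ξ‖ = d := by rw [← dist_eq_norm]; exact hξ.2
  have k9 : ‖ξ - ξ₀ i‖ ≤ 2 * η * R := by
    obtain ⟨w, hw, hwd⟩ := Metric.mem_closure_iff.1 hξ.1 1 one_pos
    rw [dist_eq_norm] at hwd
    have t1 : ‖x i - w‖ ≤ R + η ^ 2 / 5 * R := by
      have e1 : x i - w = (x' - ξ) - (x' - x i) + (ξ - w) := by abel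
      have e2 : ‖x i - w‖ ≤ ‖x' - ξ‖ + ‖x' - x i‖ + ‖ξ - w‖ := by
        rw [e1]
        exact (norm_add_le _ _).trans (add_le_add (norm_sub_le _ _) le_rfl)
      have e3 : 2 * C + 1 ≤ η ^ 2 / 5 * R := by
        rw [div_le_iff₀ (by positivity)] at g5
        linarith
      linarith
    have t2 := hclose (x i) g2 (ξ₀ i) (hξ₀ i) w hw t1
    have t3 : ‖ξ - ξ₀ i‖ ≤ ‖ξ - w‖ + ‖w - ξ₀ i‖ := by
      have : ξ - ξ₀ i = (ξ - w) + (w - ξ₀ i) := by abel
      rw [this]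
      exact norm_add_le _ _
    have t4 : 1 ≤ η * R := by
      rw [div_le_iff₀ hη0] at g6
      linarith
    linarith
  have k10 := dir_vec (H := 0) hR0 k5 hC0.le le_rfl k6 (by
      rw [hnξ]
      have : 0 ≤ C * √d := by positivity
      linarith) hx' k9 g1
  have m1 : (0 + C) * (1 + 2 * C) / R ≤ 1 / (16 * C) := by
    rw [div_le_div_iff₀ hR0 (by positivity)]
    linarith
  have m2 : C / R ≤ 1 / (16 * C) := by
    rw [div_le_div_iff₀ hR0 (by positivity)]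
    linarith
  have m3 : 2 * η ≤ 1 / (16 * C) := by
    have : 1 / (16 * C) = 2 * (1 / (32 * C)) := by field_simp; norm_num
    linarith
  have m4 : 1 / C / 4 = 1 / (16 * C) + (1 / (16 * C) + 1 / (16 * C)) + 1 / (16 * C) := by
    field_simp; norm_num
  refine gdr_point (ξ := ξ) (e' := d⁻¹ • (x' - ξ)) (c := 1 / C) (ε := 1 / (24 * C)) hd0 hv
    ?_ hnξ ?_ rfl (by positivity) hve ?_ (hopen x' (by linarith) ξ hξ y hy) hyv
  · rw [smul_smul, mul_inv_cancel₀ hd0.ne', one_smul]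
  · rw [m4]
    linarith
  · have : 1 / C / 24 = 1 / (24 * C) := by field_simp
    rw [this]

end

end Pool.Agent.AP157
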