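import Pool.Agent.AP157.OmC
import Pool.Agent.AP157.Gdr
import Pool.Agent.AP157.Fin

/-!
# Asymptotic planarity in the weak KPP case: end of the proof
-/

set_option autoImplicit false

open MeasureTheory Real Set Filter Topology
open scoped ENNReal

namespace Pool.Agent.AP157

open Pool.Agent.X297.KP

noncomputable section

variable {N : ℕ} {f : ℝ → ℝ} {M m : ℝ}

theorem thick_of {U : Set (E N)} {ρ : ℝ} (hρ : 0 < ρ)
    (hUρ : Metric.hausdorffEDist U (shrink U ρ) < ⊤) : ∃ R₀ : ℝ, Thick U (ρ / 2) R₀ := by
  set K := shrink U ρ with hK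
  refine ⟨(Metric.hausdorffEDist U K).toReal + 1, by positivity, fun y hy => ?_⟩
  have h1 : Metric.hausdorffEDist U K < ENNReal.ofReal ((Metric.hausdorffEDist U K).toReal + 1) := by
    rw [ENNReal.ofReal_add ENNReal.toReal_nonneg zero_le_one, ENNReal.ofReal_toReal hUρ.ne]
    exact ENNReal.lt_add_right hUρ.ne (by simp)
  obtain ⟨w, hw, hyw⟩ := Metric.exists_edist_lt_of_hausdorffEDist_lt hy h1
  refine ⟨w, ?_, fun x hx => ?_⟩
  · rw [edist_dist] at hyw
    rw [← dist_eq_norm]
    exact ((ENNReal.ofReal_lt_ofReal_iff (by positivity)).mp hyw).le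
  · by_contra hxU
    have hxy : dist w x < ρ := by
      rw [dist_comm, dist_eq_norm]
      linarith
    obtain ⟨p, hp1, hp2⟩ := meets_frontier (convex_segment w x).isPreconnected
      (left_mem_segment ℝ w x) (right_mem_segment ℝ w x) hw.1 hxU
    have h1 : dist w p ≤ dist w x := by
      have h2 : p ∈ Metric.closedBall w (dist w x) :=
        (convex_closedBall w (dist w x)).segment_subset
          (Metric.mem_closedBall_self dist_nonneg) (by simp [dist_comm]) hp1
      rw [dist_comm]
      exact Metric.mem_closedBall.mp h2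
    have h3 : ENNReal.ofReal ρ ≤ edist w p := hw.2.trans (Metric.infEDist_le_edist_of_mem hp2)
    rw [edist_dist, ENNReal.ofReal_le_ofReal_iff dist_nonneg] at h3
    linarith

/-- The main result in terms of entire limits. -/
theorem limit_planar3 (hN : 0 < N) (hf : Nl f M) (H : Mn f m) {A : ℝ} (hA : SubA f m A)
    {U : Set (E N)} (hU : MeasurableSet U) {ρ : ℝ} (hρ : 0 < ρ)
    (hUρ : Metric.hausdorffEDist U (shrink U ρ) < ⊤) (hC : CondC U)
    {t : ℕ → ℝ} {x : ℕ → E N} (ht : Tendsto t atTop atTop) {ψ : E N → ℝ}
    (hψ : ∀ᵐ y, Tendsto (fun n => S f M (t n) (U.indicator 1) (x n + y)) atTop (𝓝 (ψ y))) :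
    ∃ v : E N → ℝ, Planar v ∧ ψ =ᵐ[volume] v := by
  have hg : Dat (U.indicator (1 : E N → ℝ)) := ind_dat hU
  -- the ultralimit
  set F := hyperfilter ℕ with hF
  have htF : Tendsto t F atTop := ht.mono_left Nat.hyperfilter_le_atTop
  obtain ⟨v, hv, hvl⟩ := ulim hf F (fun n s y => S f M (t n + s) (U.indicator 1) (x n + y)) (by
      intro T
      refine Eventually.of_forall (fun n s _ => ?_)
      have := dat_trans (S_dat hf hg (t n + s)) (x n)
      simpa [add_comm] using this) (by
      intro T
      filter_upwards [htF.eventually_ge_atTop (|T|)] with n hn s r hs hr y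
      have h0 : 0 ≤ t n + s := by
        have := neg_abs_le T
        linarith
      have e1 := S_add hf hg (s := t n + s) (t := r) h0 hr
      have e2 := S_trans hf (S_dat hf hg (t n + s)) r (x n) y
      rw [← add_assoc, e1, add_comm (x n) y, ← e2]
      congr 1
      funext w
      rw [add_comm w])
  have hae : ψ =ᵐ[volume] v 0 := by
    filter_upwards [hψ] with y hy
    have h1 := hy.mono_left Nat.hyperfilter_le_atTop
    have h2 := hvl 0 y
    simp only [add_zero] at h2
    exact tendsto_nhds_unique h1 h2
  suffices hmain : Planar (v 0) from ⟨v 0, hmain, hae⟩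
  by_cases hUe : U.Nonempty
  swap
  · -- empty initial set
    rw [not_nonempty_iff_eq_empty] at hUe
    have h1 : v 0 = fun _ => 0 := by
      funext y
      have h2 := hvl 0 y
      have h3 : (fun n => S f M (t n + 0) (U.indicator 1) (x n + y)) = fun _ => 0 := by
        funext n
        rw [hUe, indicator_empty]
        exact S_const_eq hf ⟨le_rfl, zero_le_one⟩ hf.zero _ _
      rw [h3] at h2
      exact tendsto_nhds_unique h2 tendsto_const_nhds
    rw [h1]
    exact planar_const hN 0
  obtain ⟨R₀, hT⟩ := thick_of hρ hUρ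
  have hsm := Real.sqrt_pos.mpr H.m_pos
  by_cases hfar : Tendsto (fun n => Metric.infDist (x n) U) F atTop
  swap
  · -- points at bounded distance from `U`
    rw [tendsto_atTop, not_forall] at hfar
    obtain ⟨R, hR⟩ := hfar
    have hR' : ∀ᶠ n in (F : Filter ℕ), Metric.infDist (x n) U < R := by
      have := Ultrafilter.eventually_not.mpr hR
      filter_upwards [this] with n hn
      exact not_le.mp hn
    have h1 : v 0 = fun _ => 1 := by
      funext y
      apply le_antisymm (hv.le_one 0 y)
      apply le_of_forall_pos_le_add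
      intro ε hε
      obtain ⟨T, hT0, hTs⟩ := far_speed hf H hU hUe hT (c := √m) hsm (by linarith) hε
      have h2 : 1 - ε ≤ v 0 y := by
        refine ge_of_tendsto (hvl 0 y) ?_
        filter_upwards [hR', htF.eventually_ge_atTop (max T ((R + ‖y‖ + R₀) / √m))] with n hn hn2
        rw [add_zero]
        by_contra hcon
        push Not at hcon
        have h3 := hTs (t n) ((le_max_left _ _).trans hn2) (x n + y) hcon
        have h4 : Metric.infDist (x n + y) U ≤ Metric.infDist (x n) U + dist (x n + y) (x n) :=
          Metric.infDist_le_infDist_add_dist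
        rw [dist_self_add_left] at h4
        have h5 := (le_max_right _ _).trans hn2
        rw [div_le_iff₀ hsm] at h5
        linarith
      linarith
    rw [h1]
    exact planar_const hN 1
  -- the main case
  obtain ⟨e, he, hQ⟩ := gdir hC hUe F x hfar
  have hvO : v ∈ Oc U e (fun t => S f M t (U.indicator 1)) := by
    refine ⟨F.map (fun n => (t n, x n)), ?_, ?_⟩
    · intro C hC
      rw [Ultrafilter.coe_map, Filter.eventually_map]
      filter_upwards [htF.eventually_ge_atTop C, hQ C hC] with n h1 h2
      exact ⟨h1, h2⟩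
    · intro s y
      rw [Ultrafilter.coe_map, tendsto_map'_iff]
      exact hvl s y
  have hsl : ∀ t x h, 0 ≤ inner ℝ h e → v t (x + h) ≤ v t x := by
    intro t x h hh
    have := Oc_slide hf H hA hU hUe hT he hvO hh t x (σ := 0) le_rfl
    rwa [add_zero] at this
  set Ψ : ℝ → ℝ := fun s => v 0 (s • e) with hΨ
  have hΨe : ∀ y, v 0 y = Ψ (inner ℝ y e) := by
    intro y
    have e1 : inner ℝ (y - (inner ℝ y e : ℝ) • e) e = 0 := by
      rw [inner_sub_left, inner_smul_left, real_inner_self_eq_norm_sq, he]
      simp
    have h1 := hsl 0 ((inner ℝ y e : ℝ) • e) (y - (inner ℝ y e : ℝ) • e) e1.ge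
    have h2 := hsl 0 y (-(y - (inner ℝ y e : ℝ) • e)) (by rw [inner_neg_left, e1, neg_zero])
    rw [add_sub_cancel] at h1
    have e2 : y + -(y - (inner ℝ y e : ℝ) • e) = (inner ℝ y e : ℝ) • e := by abel
    rw [e2] at h2
    exact le_antisymm h1 h2
  have hanti : ∀ a b, a ≤ b → Ψ b ≤ Ψ a := by
    intro a b hab
    have := hsl 0 (a • e) ((b - a) • e) (by
      rw [inner_smul_left, real_inner_self_eq_norm_sq, he]
      simp
      linarith)
    rwa [← add_smul, add_sub_cancel] at this
  refine ⟨e, he, Ψ, ?_, ?_, hΨe⟩
  · have h1 : Ψ = fun s : ℝ => S f M 2 (v (-2)) (s • e) := by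
      funext s
      have := hv.flow (-2) 2 (by norm_num) (s • e)
      norm_num at this
      exact this
    rw [h1]
    exact S_C2 hf (hv.dat _) e
  · by_cases hst : StrictAnti Ψ
    · exact Or.inr (Or.inr hst)
    · left
      unfold StrictAnti at hst
      push Not at hst
      obtain ⟨a, b, hab, hle⟩ := hst
      have hΨab : Ψ a = Ψ b := le_antisymm hle (hanti a b hab.le)
      set d := b - a with hd
      have hd0 : 0 < d := by linarith
      have hEb : Ent f M (fun t x => v t (x + d • e)) := by
        have := hv.shift hf 0 (d • e)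
        simpa using this
      have hper : ∀ t x, v t (x + d • e) = v t x := by
        apply ent_touch hf hEb hv (fun t x => hsl t x (d • e) ?_) (t₀ := 0) (x₀ := a • e)
        · rw [← add_smul, hd, add_sub_cancel]
          exact hΨab.symm
        · rw [inner_smul_left, real_inner_self_eq_norm_sq, he]
          simp
          linarith
      have hΨper : ∀ n : ℕ, ∀ s, Ψ (s + n * d) = Ψ s := by
        intro n
        induction n with
        | zero => intro s; simp
        | succ n ih =>
          intro s
          have h1 := hper 0 ((s + n * d) • e)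
          rw [← add_smul] at h1
          have e1 : s + ((n + 1 : ℕ) : ℝ) * d = s + n * d + d := by push_cast; ring
          rw [e1]
          rw [← ih s]
          exact h1
      have hconst : ∀ s t, s ≤ t → Ψ s = Ψ t := by
        intro s t hst
        apply le_antisymm _ (hanti s t hst)
        obtain ⟨n, hn⟩ := exists_nat_ge ((t - s) / d)
        rw [div_le_iff₀ hd0] at hn
        rw [← hΨper n s]
        exact hanti _ _ (by linarith)
      refine ⟨Ψ 0, fun s => ?_⟩
      rcases le_total s 0 with h | h
      · exact hconst _ _ h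
      · exact (hconst _ _ h).symm

end

end Pool.Agent.AP157
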