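import Pool.Agent.X297.KP.Kernel

/-!
# The semiflow of `∂_t u = Δu + f(u)` on functions with values in `[0,1]`: extended-real version

Monotone iteration for the shifted Duhamel formula
`u(t) = e^{-Mt} G_t * g + ∫_0^t e^{-M(t-s)} G_{t-s} * (f(u(s)) + M u(s)) ds`.
Adapted from `Pool/Agent/X297/KP/Exist.lean` (there for indicator data and KPP nonlinearities).
-/

set_option autoImplicit false

open MeasureTheory Real Set Filter Topology
open scoped ENNReal

namespace Pool.Agent.AP157

open Pool.Agent.X297.KP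

noncomputable section

variable {N : ℕ}

/-- Standing assumptions on the nonlinearity: continuous on `[0,1]`, zero at `0` and `1`, and
Lipschitz on `[0,1]` with constant `M ≥ 1`. -/
structure Nl (f : ℝ → ℝ) (M : ℝ) : Prop where
  cont : ContinuousOn f (Icc 0 1)
  zero : f 0 = 0
  one : f 1 = 0
  one_le : 1 ≤ M
  lip : ∀ a ∈ Icc (0:ℝ) 1, ∀ b ∈ Icc (0:ℝ) 1, |f a - f b| ≤ M * |a - b|

theorem Nl.pos {f : ℝ → ℝ} {M : ℝ} (hf : Nl f M) : 0 < M := lt_of_lt_of_le one_pos hf.one_le

theorem Nl.nn {f : ℝ → ℝ} {M : ℝ} (hf : Nl f M) : 0 ≤ M := hf.pos.le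

theorem lint_ftc' {g G : ℝ → ℝ} (hg : Continuous g) {a b : ℝ} (hab : a ≤ b)
    (h0 : ∀ s, a ≤ s → s ≤ b → 0 ≤ g s)
    (hG : ∀ s, HasDerivAt G (g s) s) :
    ∫⁻ s in Ioo a b, ENNReal.ofReal (g s) = ENNReal.ofReal (G b - G a) := by
  have h1 : ∫ s in a..b, g s = G b - G a :=
    intervalIntegral.integral_eq_sub_of_hasDerivAt (fun s _ => hG s) (hg.intervalIntegrable _ _)
  rw [← h1, intervalIntegral.integral_of_le hab, integral_Ioc_eq_integral_Ioo,
    ofReal_integral_eq_lintegral_ofReal]
  · exact (hg.integrableOn_Icc (a := a) (b := b)).mono_set Ioo_subset_Icc_self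
  · filter_upwards [ae_restrict_mem measurableSet_Ioo] with s hs
    exact h0 s hs.1.le hs.2.le

/-- The truncation to `[0,1]`. -/
def cl (v : ℝ≥0∞) : ℝ := (min v 1).toReal

theorem cl_cont : Continuous cl := by
  unfold cl
  apply ENNReal.continuousOn_toReal.comp_continuous (by fun_prop)
  intro v
  exact ne_of_lt (lt_of_le_of_lt (min_le_right _ _) ENNReal.one_lt_top)

theorem cl_mem (v : ℝ≥0∞) : cl v ∈ Icc (0:ℝ) 1 := by
  unfold cl
  refine ⟨ENNReal.toReal_nonneg, ?_⟩
  have := ENNReal.toReal_mono ENNReal.one_ne_top (min_le_right v 1)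
  simpa using this

theorem cl_mono : Monotone cl := by
  intro v w h
  unfold cl
  exact ENNReal.toReal_mono (ne_of_lt (lt_of_le_of_lt (min_le_right _ _) ENNReal.one_lt_top))
    (min_le_min_right _ h)

/-- The nonlinearity plus `M` times the identity. -/
def Gt (f : ℝ → ℝ) (M : ℝ) (v : ℝ≥0∞) : ℝ≥0∞ := ENNReal.ofReal (f (cl v) + M * cl v)

variable {f : ℝ → ℝ} {M : ℝ}

theorem Fs_nonneg (hf : Nl f M) {a : ℝ} (ha : a ∈ Icc (0:ℝ) 1) : 0 ≤ f a + M * a := by
  have h2 := hf.lip a ha 0 ⟨le_rfl, zero_le_one⟩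
  rw [hf.zero, sub_zero, sub_zero, abs_of_nonneg ha.1] at h2
  have h3 := (abs_le.mp h2).1
  linarith

theorem Fs_mono (hf : Nl f M) {a b : ℝ} (ha : a ∈ Icc (0:ℝ) 1) (hb : b ∈ Icc (0:ℝ) 1)
    (hab : a ≤ b) : f a + M * a ≤ f b + M * b := by
  have h2 := hf.lip a ha b hb
  rw [abs_sub_comm a, abs_of_nonneg (by linarith : 0 ≤ b - a)] at h2
  have h3 := (abs_le.mp h2).2
  linarith

theorem Gt_cont (hf : Nl f M) : Continuous (Gt f M) := by
  unfold Gt
  have h1 : Continuous (fun v => f (cl v)) :=
    hf.cont.comp_continuous cl_cont cl_mem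
  exact ENNReal.continuous_ofReal.comp (h1.add (cl_cont.const_mul M))

theorem Gt_mono (hf : Nl f M) : Monotone (Gt f M) := by
  intro v w h
  unfold Gt
  apply ENNReal.ofReal_le_ofReal
  exact Fs_mono hf (cl_mem v) (cl_mem w) (cl_mono h)

theorem Gt_le (hf : Nl f M) (v : ℝ≥0∞) :
    Gt f M v ≤ ENNReal.ofReal M := by
  unfold Gt
  apply ENNReal.ofReal_le_ofReal
  have := Fs_mono hf (cl_mem v) ⟨zero_le_one, le_rfl⟩ (cl_mem v).2
  rw [hf.one] at this
  linarith

/-- `Gt` is Lipschitz with constant `2M`, for arguments at most `1`. -/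
theorem Gt_lip (hf : Nl f M) {v w : ℝ≥0∞} (hv : v ≤ 1) :
    Gt f M v ≤ Gt f M w + ENNReal.ofReal (2 * M) * (v - w) := by
  rcases le_total v w with h | h
  · exact (Gt_mono hf h).trans le_self_add
  · have hw : w ≤ 1 := h.trans hv
    have hvt : v ≠ ⊤ := ne_of_lt (lt_of_le_of_lt hv ENNReal.one_lt_top)
    have hwt : w ≠ ⊤ := ne_of_lt (lt_of_le_of_lt hw ENNReal.one_lt_top)
    have e1 : cl v = v.toReal := by unfold cl; rw [min_eq_left hv]
    have e2 : cl w = w.toReal := by unfold cl; rw [min_eq_left hw]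
    have h3 : cl w ≤ cl v := cl_mono h
    have e3 : v - w = ENNReal.ofReal (cl v - cl w) := by
      rw [e1, e2, ENNReal.ofReal_sub _ ENNReal.toReal_nonneg, ENNReal.ofReal_toReal hvt,
        ENNReal.ofReal_toReal hwt]
    unfold Gt
    rw [e3, ← ENNReal.ofReal_mul (by linarith [hf.nn]), ← ENNReal.ofReal_add
      (Fs_nonneg hf (cl_mem w)) (mul_nonneg (by linarith [hf.nn]) (by linarith))]
    apply ENNReal.ofReal_le_ofReal
    have h4 := hf.lip _ (cl_mem v) _ (cl_mem w)
    rw [abs_of_nonneg (by linarith : 0 ≤ cl v - cl w)] at h4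
    have h5 := (abs_le.mp h4).2
    linarith

/-- One step of the iteration. -/
def Phi (f : ℝ → ℝ) (M : ℝ) (g : E N → ℝ≥0∞) (w : ℝ → E N → ℝ≥0∞) : ℝ → E N → ℝ≥0∞ :=
  fun t x => ENNReal.ofReal (Real.exp (-(M * t))) *
      (∫⁻ y, ENNReal.ofReal (heatK t (x - y)) * g y) +
    ∫⁻ s in Ioo 0 t, ENNReal.ofReal (Real.exp (-(M * (t - s)))) *
      ∫⁻ y, ENNReal.ofReal (heatK (t - s) (x - y)) * Gt f M (w s y)

theorem meas_time {H : (ℝ × E N) × ℝ → ℝ≥0∞} (hH : Measurable H) :
    Measurable (fun p : ℝ × E N => ∫⁻ s in Ioo 0 p.1, H (p, s)) := by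
  have h1 : (fun p : ℝ × E N => ∫⁻ s in Ioo 0 p.1, H (p, s)) = fun p =>
      ∫⁻ s, ({q : (ℝ × E N) × ℝ | 0 < q.2 ∧ q.2 < q.1.1}.indicator H) (p, s) := by
    funext p
    rw [← lintegral_indicator measurableSet_Ioo]
    congr 1
  rw [h1]
  apply Measurable.lintegral_prod_right'
  apply hH.indicator
  have e1 : MeasurableSet {q : (ℝ × E N) × ℝ | 0 < q.2} := by
    apply measurableSet_lt <;> fun_prop
  have e2 : MeasurableSet {q : (ℝ × E N) × ℝ | q.2 < q.1.1} := by
    apply measurableSet_lt <;> fun_prop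
  exact e1.inter e2

theorem meas_inner {D : ℝ → E N → ℝ≥0∞} (hD : Measurable (Function.uncurry D)) :
    Measurable (fun p : (ℝ × E N) × ℝ =>
      ∫⁻ y, ENNReal.ofReal (heatK (p.1.1 - p.2) (p.1.2 - y)) * D p.2 y) := by
  apply Measurable.lintegral_prod_right' (f := fun q : ((ℝ × E N) × ℝ) × E N =>
    ENNReal.ofReal (heatK (q.1.1.1 - q.1.2) (q.1.1.2 - q.2)) * D q.1.2 q.2)
  apply Measurable.mul
  · apply ENNReal.measurable_ofReal.comp
    exact heatK_meas.comp (f := fun q : ((ℝ × E N) × ℝ) × E N =>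
      (q.1.1.1 - q.1.2, q.1.1.2 - q.2)) (by fun_prop)
  · exact hD.comp (f := fun q : ((ℝ × E N) × ℝ) × E N => (q.1.2, q.2)) (by fun_prop)

theorem Phi_meas (hf : Nl f M) {g : E N → ℝ≥0∞} (hg : Measurable g) {w : ℝ → E N → ℝ≥0∞}
    (hw : Measurable (Function.uncurry w)) : Measurable (Function.uncurry (Phi f M g w)) := by
  have h1 := meas_conv0 hg
  have h2 := meas_inner (D := fun s y => Gt f M (w s y)) ((Gt_cont hf).measurable.comp hw)
  have h3 : Measurable (fun p : (ℝ × E N) × ℝ => ENNReal.ofReal (Real.exp (-(M * (p.1.1 - p.2)))) *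
      ∫⁻ y, ENNReal.ofReal (heatK (p.1.1 - p.2) (p.1.2 - y)) * Gt f M (w p.2 y)) := by
    apply Measurable.mul _ h2
    fun_prop
  have h4 := meas_time h3
  have h5 : Measurable (fun p : ℝ × E N => ENNReal.ofReal (Real.exp (-(M * p.1)))) := by fun_prop
  exact (h5.mul h1).add h4

theorem Phi_mono (hf : Nl f M)
    {g g' : E N → ℝ≥0∞} (hg : ∀ x, g x ≤ g' x) {w w' : ℝ → E N → ℝ≥0∞}
    (h : ∀ t x, w t x ≤ w' t x) (t : ℝ) (x : E N) :
    Phi f M g w t x ≤ Phi f M g' w' t x := by
  unfold Phi
  gcongr with y s y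
  · exact hg y
  · exact Gt_mono hf (h _ _)

theorem Phi_le (hf : Nl f M) {g : E N → ℝ≥0∞} (hg1 : ∀ x, g x ≤ 1)
    (w : ℝ → E N → ℝ≥0∞) {t : ℝ} (ht : 0 < t) (x : E N) :
    Phi f M g w t x ≤ 1 := by
  have hM0 := hf.nn
  unfold Phi
  have h1 : ∫⁻ y, ENNReal.ofReal (heatK t (x - y)) * g y ≤ 1 := by
    rw [← lint_heatK ht x]
    apply lintegral_mono
    intro y
    apply mul_le_of_le_one_right'
    exact hg1 y
  have h2 : ∫⁻ s in Ioo 0 t, ENNReal.ofReal (Real.exp (-(M * (t - s)))) *
      ∫⁻ y, ENNReal.ofReal (heatK (t - s) (x - y)) * Gt f M (w s y) ≤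
      ∫⁻ s in Ioo 0 t, ENNReal.ofReal (M * Real.exp (-(M * (t - s)))) := by
    apply setLIntegral_mono' measurableSet_Ioo
    intro s hs
    have hts : 0 < t - s := by linarith [hs.2]
    rw [ENNReal.ofReal_mul hM0, mul_comm (ENNReal.ofReal M)]
    gcongr
    calc ∫⁻ y, ENNReal.ofReal (heatK (t - s) (x - y)) * Gt f M (w s y)
        ≤ ∫⁻ y, ENNReal.ofReal (heatK (t - s) (x - y)) * ENNReal.ofReal M := by
          apply lintegral_mono
          intro y
          simp only
          gcongr
          exact Gt_le hf _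
      _ = ENNReal.ofReal M := by
          rw [lintegral_mul_const' _ _ ENNReal.ofReal_ne_top, lint_heatK hts, one_mul]
  have h3 : ∫⁻ s in Ioo 0 t, ENNReal.ofReal (M * Real.exp (-(M * (t - s)))) =
      ENNReal.ofReal (1 - Real.exp (-(M * t))) := by
    rw [lint_ftc' (g := fun s => M * Real.exp (-(M * (t - s))))
      (G := fun s => Real.exp (-(M * (t - s)))) (by fun_prop) ht.le (fun s _ _ => by positivity)
      (fun s => by
        have := ((((hasDerivAt_id' s).const_sub t).const_mul M).fun_neg).exp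
        refine this.congr_deriv ?_
        ring)]
    congr 1
    simp
  calc _ ≤ ENNReal.ofReal (Real.exp (-(M * t))) * 1 + ENNReal.ofReal (1 - Real.exp (-(M * t))) := by
        rw [h3] at h2
        gcongr
    _ = 1 := by
        rw [mul_one, ← ENNReal.ofReal_add (by positivity) (by
          have : Real.exp (-(M * t)) ≤ 1 := Real.exp_le_one_iff.mpr (by
            have : 0 ≤ M * t := by positivity
            linarith)
          linarith)]
        simp

/-- The iterates. -/
def it (f : ℝ → ℝ) (M : ℝ) (g : E N → ℝ≥0∞) : ℕ → ℝ → E N → ℝ≥0∞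
  | 0 => fun _ _ => 0
  | n + 1 => Phi f M g (it f M g n)

theorem it_meas (hf : Nl f M) {g : E N → ℝ≥0∞} (hg : Measurable g) (n : ℕ) :
    Measurable (Function.uncurry (it f M g n)) := by
  induction n with
  | zero => exact measurable_const
  | succ n ih => exact Phi_meas hf hg ih

theorem it_mono (hf : Nl f M) (g : E N → ℝ≥0∞) (t : ℝ) (x : E N) :
    Monotone (fun n => it f M g n t x) := by
  apply monotone_nat_of_le_succ
  intro n
  induction n generalizing t x with
  | zero => exact zero_le
  | succ n ih => exact Phi_mono hf (fun _ => le_rfl) ih t x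

/-- The limit of the iterates. -/
def uu (f : ℝ → ℝ) (M : ℝ) (g : E N → ℝ≥0∞) : ℝ → E N → ℝ≥0∞ := fun t x => ⨆ n, it f M g n t x

theorem uu_meas (hf : Nl f M) {g : E N → ℝ≥0∞} (hg : Measurable g) :
    Measurable (Function.uncurry (uu f M g)) := by
  have h : Function.uncurry (uu f M g) = fun p => ⨆ n, Function.uncurry (it f M g n) p := rfl
  rw [h]
  exact Measurable.iSup (fun n => it_meas hf hg n)

theorem uu_fix (hf : Nl f M) {g : E N → ℝ≥0∞} (hg : Measurable g) (t : ℝ) (x : E N) :
    uu f M g t x = Phi f M g (uu f M g) t x := by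
  have h1 : Tendsto (fun n => it f M g (n + 1) t x) atTop (𝓝 (uu f M g t x)) :=
    (tendsto_atTop_iSup (it_mono hf g t x)).comp (tendsto_add_atTop_nat 1)
  have hG : ∀ n, Measurable (Function.uncurry (fun s y => Gt f M (it f M g n s y))) := fun n =>
    (Gt_cont hf).measurable.comp (it_meas hf hg n)
  have h2 : Tendsto (fun n => Phi f M g (it f M g n) t x) atTop
      (𝓝 (Phi f M g (uu f M g) t x)) := by
    unfold Phi
    apply Tendsto.const_add
    apply lintegral_tendsto_of_tendsto_of_monotone
    · intro n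
      apply Measurable.aemeasurable
      apply Measurable.mul (by fun_prop)
      exact (meas_inner (hG n)).comp (f := fun s : ℝ => ((t, x), s)) (by fun_prop)
    · refine Eventually.of_forall (fun s => ?_)
      intro n m hnm
      simp only
      gcongr with y
      exact Gt_mono hf (it_mono hf g s y hnm)
    · refine Eventually.of_forall (fun s => ?_)
      apply ENNReal.Tendsto.const_mul _ (Or.inr ENNReal.ofReal_ne_top)
      apply lintegral_tendsto_of_tendsto_of_monotone
      · intro n
        apply Measurable.aemeasurable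
        have a1 : Measurable (fun y : E N => ENNReal.ofReal (heatK (t - s) (x - y))) := by
          have := heatK_cont (N := N) (t := t - s)
          fun_prop
        have a2 : Measurable (fun y : E N => Gt f M (it f M g n s y)) :=
          (hG n).comp (f := fun y : E N => (s, y)) (by fun_prop)
        exact a1.mul a2
      · refine Eventually.of_forall (fun y => ?_)
        intro n m hnm
        simp only
        gcongr
        exact Gt_mono hf (it_mono hf g s y hnm)
      · refine Eventually.of_forall (fun y => ?_)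
        apply ENNReal.Tendsto.const_mul _ (Or.inr ENNReal.ofReal_ne_top)
        exact ((Gt_cont hf).tendsto _).comp (tendsto_atTop_iSup (it_mono hf g s y))
  exact tendsto_nhds_unique h1 h2

theorem uu_le (hf : Nl f M) {g : E N → ℝ≥0∞} (hg1 : ∀ x, g x ≤ 1)
    {t : ℝ} (ht : 0 < t) (x : E N) : uu f M g t x ≤ 1 := by
  apply iSup_le
  intro n
  cases n with
  | zero => exact zero_le
  | succ n => exact Phi_le hf hg1 _ ht x

/-- Comparison of a subsolution and a supersolution, with an error in the data. -/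
theorem comp (hf : Nl f M) {g g' D : E N → ℝ≥0∞} (hg' : Measurable g') (hD : Measurable D)
    (hgg : ∀ x, g x ≤ g' x + D x)
    {w w' : ℝ → E N → ℝ≥0∞} (hw : Measurable (Function.uncurry w))
    (hw' : Measurable (Function.uncurry w'))
    (hw1 : ∀ t, 0 < t → ∀ x, w t x ≤ 1)
    (hsub : ∀ t, 0 < t → ∀ x, w t x ≤ Phi f M g w t x)
    (hsup : ∀ t, 0 < t → ∀ x, Phi f M g' w' t x ≤ w' t x) :
    ∀ t, 0 < t → ∀ x, w t x ≤ w' t x + ENNReal.ofReal (Real.exp (2 * M * t)) *
      ∫⁻ y, ENNReal.ofReal (heatK t (x - y)) * D y := by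
  have hM0 := hf.nn
  have hdm : Measurable (Function.uncurry (fun t x => w t x - w' t x)) := hw.sub hw'
  have key := gronwall (d := fun t x => w t x - w' t x) (D := D) (M := 2 * M)
    (fun t ht x => tsub_le_self.trans (hw1 t ht x)) hD (by linarith) (by
      intro t ht x
      rw [tsub_le_iff_left]
      have hG' : Measurable (Function.uncurry (fun s y => Gt f M (w' s y))) :=
        (Gt_cont hf).measurable.comp hw'
      have hKm : ∀ r : ℝ, Measurable (fun y : E N => ENNReal.ofReal (heatK r (x - y))) := by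
        intro r
        have := heatK_cont (N := N) (t := r)
        fun_prop
      have a1 : ENNReal.ofReal (Real.exp (-(M * t))) *
          (∫⁻ y, ENNReal.ofReal (heatK t (x - y)) * g y) ≤
          ENNReal.ofReal (Real.exp (-(M * t))) *
          (∫⁻ y, ENNReal.ofReal (heatK t (x - y)) * g' y) +
          ∫⁻ y, ENNReal.ofReal (heatK t (x - y)) * D y := by
        have b1 : ∫⁻ y, ENNReal.ofReal (heatK t (x - y)) * g y ≤
            (∫⁻ y, ENNReal.ofReal (heatK t (x - y)) * g' y) +
            ∫⁻ y, ENNReal.ofReal (heatK t (x - y)) * D y := by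
          have hm0 : Measurable (fun y : E N => ENNReal.ofReal (heatK t (x - y)) * g' y) :=
            (hKm t).mul hg'
          rw [← lintegral_add_left hm0]
          apply lintegral_mono
          intro y
          simp only
          rw [← mul_add]
          gcongr
          exact hgg y
        calc _ ≤ ENNReal.ofReal (Real.exp (-(M * t))) *
              ((∫⁻ y, ENNReal.ofReal (heatK t (x - y)) * g' y) +
                ∫⁻ y, ENNReal.ofReal (heatK t (x - y)) * D y) := by gcongr
          _ = _ + ENNReal.ofReal (Real.exp (-(M * t))) *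
                (∫⁻ y, ENNReal.ofReal (heatK t (x - y)) * D y) := mul_add _ _ _
          _ ≤ _ := by
              gcongr
              apply mul_le_of_le_one_left'
              rw [ENNReal.ofReal_le_one]
              apply Real.exp_le_one_iff.mpr
              have : 0 ≤ M * t := by positivity
              linarith
      have a2 : ∫⁻ s in Ioo 0 t, ENNReal.ofReal (Real.exp (-(M * (t - s)))) *
          ∫⁻ y, ENNReal.ofReal (heatK (t - s) (x - y)) * Gt f M (w s y) ≤
          (∫⁻ s in Ioo 0 t, ENNReal.ofReal (Real.exp (-(M * (t - s)))) *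
          ∫⁻ y, ENNReal.ofReal (heatK (t - s) (x - y)) * Gt f M (w' s y)) +
          ∫⁻ s in Ioo 0 t, ∫⁻ y, ENNReal.ofReal (heatK (t - s) (x - y)) *
            (ENNReal.ofReal (2 * M) * (w s y - w' s y)) := by
        have hm : Measurable (fun s : ℝ => ENNReal.ofReal (Real.exp (-(M * (t - s)))) *
          ∫⁻ y, ENNReal.ofReal (heatK (t - s) (x - y)) * Gt f M (w' s y)) := by
          apply Measurable.mul (by fun_prop)
          exact (meas_inner hG').comp (f := fun r : ℝ => ((t, x), r)) (by fun_prop)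
        rw [← lintegral_add_left hm]
        apply setLIntegral_mono' measurableSet_Ioo
        intro s hs
        have hts : 0 < t - s := by linarith [hs.2]
        have hm2 : Measurable (fun y : E N => ENNReal.ofReal (heatK (t - s) (x - y)) *
            Gt f M (w' s y)) :=
          (hKm _).mul (hG'.comp (f := fun y : E N => (s, y)) (by fun_prop))
        calc ENNReal.ofReal (Real.exp (-(M * (t - s)))) *
              ∫⁻ y, ENNReal.ofReal (heatK (t - s) (x - y)) * Gt f M (w s y)
            ≤ ENNReal.ofReal (Real.exp (-(M * (t - s)))) *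
              ((∫⁻ y, ENNReal.ofReal (heatK (t - s) (x - y)) * Gt f M (w' s y)) +
              ∫⁻ y, ENNReal.ofReal (heatK (t - s) (x - y)) *
                (ENNReal.ofReal (2 * M) * (w s y - w' s y))) := by
              gcongr
              rw [← lintegral_add_left hm2]
              apply lintegral_mono
              intro y
              simp only
              rw [← mul_add]
              gcongr
              exact Gt_lip hf (hw1 s hs.1 y)
          _ = _ + ENNReal.ofReal (Real.exp (-(M * (t - s)))) *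
              (∫⁻ y, ENNReal.ofReal (heatK (t - s) (x - y)) *
                (ENNReal.ofReal (2 * M) * (w s y - w' s y))) := mul_add _ _ _
          _ ≤ _ := by
              gcongr
              apply mul_le_of_le_one_left'
              rw [ENNReal.ofReal_le_one]
              apply Real.exp_le_one_iff.mpr
              have : 0 ≤ M * (t - s) := by positivity
              linarith
      calc w t x ≤ Phi f M g w t x := hsub t ht x
        _ ≤ _ := add_le_add a1 a2
        _ = Phi f M g' w' t x + ((∫⁻ y, ENNReal.ofReal (heatK t (x - y)) * D y) +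
              ∫⁻ s in Ioo 0 t, ∫⁻ y, ENNReal.ofReal (heatK (t - s) (x - y)) *
                (ENNReal.ofReal (2 * M) * (w s y - w' s y))) := by
            unfold Phi
            ring
        _ ≤ _ := by
            gcongr
            exact hsup t ht x)
  intro t ht x
  exact tsub_le_iff_left.mp (key t ht x)

theorem comp_mono (hf : Nl f M) {g g' : E N → ℝ≥0∞} (hg' : Measurable g')
    (hgg : ∀ x, g x ≤ g' x)
    {w w' : ℝ → E N → ℝ≥0∞} (hw : Measurable (Function.uncurry w))
    (hw' : Measurable (Function.uncurry w'))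
    (hw1 : ∀ t, 0 < t → ∀ x, w t x ≤ 1)
    (hsub : ∀ t, 0 < t → ∀ x, w t x ≤ Phi f M g w t x)
    (hsup : ∀ t, 0 < t → ∀ x, Phi f M g' w' t x ≤ w' t x) :
    ∀ t, 0 < t → ∀ x, w t x ≤ w' t x := by
  intro t ht x
  have := comp hf (D := fun _ => 0) hg' measurable_const (by simpa using hgg) hw hw' hw1 hsub hsup
    t ht x
  simpa using this

end

end Pool.Agent.AP157
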