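import Pool.Agent.AP157.Wk
import Pool.Agent.AP157.Lin
import Pool.Agent.AP157.Reg

/-!
# Small values of entire solutions grow at the rate m

Put v(t) = ψ.  By translation let the point be (t,x), and let s ≥ 1 large, ε' > 0 small, R > 0 large, δ > 0 small, chosen in this order depending on T, ε (and N, M, m).  g := ψ (t-s), g₁ := g 1_{B(x,R)}, g₂ := g 1_{B(x,R)^c}, V := ψ (t+T) x ≤ δ.
(a) S_pos (from 0): V = S_{s+T} g x ≥ e^{-M(s+T)} P_{s+T} g x.
(b) sup over B(x,R) of g is ≤ C(R,s,T) V: g y = S_1 (ψ(t-s-1)) y ≤ e^{2M} P_1 (ψ(t-s-1)) y, V ≥ e^{-M(s+T+1)} P_{s+T+1} (ψ(t-s-1)) x and heatK 1 (y-z) ≤ C heatK (s+T+1) (x-z) for ‖y-x‖ ≤ R (quadratic exponents: -‖y-z‖²/4 ≤ -‖x-z‖²/8 + R²/4, and 8 ≤ 4(s+T+1)).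
(c) Upper bound: ψ t x = S_s g x ≤ S_s g₁ x + e^{2Ms} P_s g₂ x (S_err).  S_s g₁ ≤ e^{(m+ε')s} P_s g₁ (S_lin with g' = 0, the values S_r g₁ ≤ e^{2Mr} sup g₁ ≤ d small; S_r 0 = 0; H.at0 with a = 0).
 P_s g₁ x ≤ ((s+T)/s)^{N/2} P_{s+T} g₁ x (kernels), P_s g₂ x ≤ ((s+T)/s)^{N/2} e^{-R² T/(4s(s+T))} P_{s+T} g₂ x ≤ ((s+T)/s)^{N/2} e^{-R²T/(4s(s+T))} e^{M(s+T)} V.
(d) Lower bound: V ≥ S_{s+T} g₁ x ≥ e^{(m-ε')(s+T)} P_{s+T} g₁ x (S_low, amplitude e^{(m-ε')(s+T)} sup g₁ ≤ d, possible by (b) for δ small; take ε' < m).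
(e) So ψ t x ≤ [ ((s+T)/s)^{N/2} e^{(m+ε')s - (m-ε')(s+T)} + e^{2Ms + M(s+T)} ((s+T)/s)^{N/2} e^{-R²T/(4s(s+T))} ] V; first s large so that ((s+T)/s)^{N/2} ≤ 1+ε/4, then ε' small so that e^{2ε's + ε'T} ≤ 1+ε/4, then R large, then δ small: the bracket is ≤ (1+ε) e^{-mT}.
-/

set_option autoImplicit false

open MeasureTheory Real Set Filter Topology
open scoped ENNReal

namespace Pool.Agent.AP157

open Pool.Agent.X297.KP

noncomputable section

variable {N : ℕ} {f : ℝ → ℝ} {M m : ℝ}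

/-! ## Auxiliary lemmas -/

theorem gro_kern {s T : ℝ} (hs : 0 < s) (hT : 0 < T) (u : E N) :
    heatK s u = ((s + T) / s) ^ ((N : ℝ) / 2) * Real.exp (-(‖u‖ ^ 2 * T / (4 * s * (s + T)))) *
      heatK (s + T) u := by
  have hsT : 0 < s + T := by positivity
  unfold heatK
  have h1 : (4 * π * s) ^ (-((N : ℝ) / 2)) =
      ((s + T) / s) ^ ((N : ℝ) / 2) * (4 * π * (s + T)) ^ (-((N : ℝ) / 2)) := by
    have h2 : 4 * π * (s + T) = ((s + T) / s) * (4 * π * s) := by field_simp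
    have h3 : (((s + T) / s) * (4 * π * s)) ^ (-((N : ℝ) / 2)) =
        ((s + T) / s) ^ (-((N : ℝ) / 2)) * (4 * π * s) ^ (-((N : ℝ) / 2)) :=
      Real.mul_rpow (by positivity) (by positivity)
    have h4 : ((s + T) / s) ^ ((N : ℝ) / 2) * ((s + T) / s) ^ (-((N : ℝ) / 2)) = 1 := by
      rw [← Real.rpow_add (by positivity)]
      simp
    rw [h2, h3, ← mul_assoc, h4, one_mul]
  have h3 : Real.exp (-(‖u‖ ^ 2 / (4 * s))) =
      Real.exp (-(‖u‖ ^ 2 * T / (4 * s * (s + T)))) *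
        Real.exp (-(‖u‖ ^ 2 / (4 * (s + T)))) := by
    rw [← Real.exp_add]
    congr 1
    field_simp
    ring
  rw [h1, h3]
  ring

theorem gro_comp {t t' : ℝ} (ht : 0 < t) (ht' : 0 < t') {h : E N → ℝ} (hm : Measurable h)
    (hb : ∀ y, |h y| ≤ 1) {x x' : E N} {c : ℝ}
    (hc : ∀ y, heatK t (x - y) * h y ≤ c * (heatK t' (x' - y) * h y)) :
    P t h x ≤ c * P t' h x' := by
  unfold P
  rw [← integral_const_mul]
  exact integral_mono (P_int ht hm hb x) ((P_int ht' hm hb x').const_mul c) hc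

theorem gro_dat_zero : Dat (N := N) (fun _ => 0) :=
  dat_const ⟨le_rfl, zero_le_one⟩

/-- an upper bound for the semiflow by the heat semigroup -/
theorem gro_up (hf : Nl f M) {g : E N → ℝ} (hg : Dat g) {t : ℝ} (ht : 0 < t) (x : E N) :
    S f M t g x ≤ Real.exp (2 * M * t) * P t g x := by
  have h := S_err hf hg gro_dat_zero hg.meas (fun y => (hg.mem y).1) (C := 1)
    (fun y => (hg.mem y).2) (fun x => by simp) ht x
  rw [S_const_eq hf ⟨le_rfl, zero_le_one⟩ hf.zero, zero_add] at h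
  exact h

/-- a lower bound for the semiflow by the heat semigroup -/
theorem gro_lo (hf : Nl f M) {g : E N → ℝ} (hg : Dat g) {t : ℝ} (ht : 0 < t) (x : E N) :
    Real.exp (-(M * t)) * P t g x ≤ S f M t g x := by
  have h := S_pos hf gro_dat_zero hg (fun x => (hg.mem x).1) ht x
  rw [S_const_eq hf ⟨le_rfl, zero_le_one⟩ hf.zero, sub_zero] at h
  simpa using h

theorem gro_abs {g : E N → ℝ} (hg : Dat g) (y : E N) : |g y| ≤ 1 :=
  abs_le.mpr ⟨by linarith [(hg.mem y).1], (hg.mem y).2⟩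

/-- Harnack type bound: values at time `t` near `x` are controlled by a later value at `x`. -/
theorem gro_harnack (hf : Nl f M) {ψ : ℝ → E N → ℝ} (hψ : Ent f M ψ) {τ R : ℝ} (hτ : 2 ≤ τ)
    (hR : 0 ≤ R) (t : ℝ) (x y : E N) (hy : ‖y - x‖ ≤ R) :
    ψ t y ≤ Real.exp (2 * M) * (τ ^ ((N : ℝ) / 2) * Real.exp (R ^ 2 / 4)) * Real.exp (M * τ) *
      ψ (t - 1 + τ) x := by
  have hτ0 : 0 < τ := by linarith
  have hh := hψ.dat (t - 1)
  have e1 : ψ t y = S f M 1 (ψ (t - 1)) y := by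
    rw [← hψ.flow (t - 1) 1 zero_le_one, sub_add_cancel]
  have e2 : ψ (t - 1 + τ) x = S f M τ (ψ (t - 1)) x := hψ.flow (t - 1) τ hτ0.le x
  rw [e1, e2]
  have h1 := gro_up hf hh one_pos y
  rw [mul_one] at h1
  have h2 := gro_lo hf hh hτ0 x
  have h3 : P 1 (ψ (t - 1)) y ≤ (τ ^ ((N : ℝ) / 2) * Real.exp (R ^ 2 / 4)) *
      P τ (ψ (t - 1)) x := by
    apply gro_comp one_pos hτ0 hh.meas (gro_abs hh)
    intro z
    rw [← mul_assoc]
    apply mul_le_mul_of_nonneg_right _ (hh.mem z).1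
    unfold heatK
    have a1 : (4 * π * τ) ^ (-((N : ℝ) / 2)) = τ ^ (-((N : ℝ) / 2)) *
        (4 * π * 1) ^ (-((N : ℝ) / 2)) := by
      rw [← Real.mul_rpow (by positivity) (by positivity)]
      congr 1
      ring
    have a2 : τ ^ ((N : ℝ) / 2) * τ ^ (-((N : ℝ) / 2)) = 1 := by
      rw [← Real.rpow_add hτ0]
      simp
    have a3 : Real.exp (-(‖y - z‖ ^ 2 / (4 * 1))) ≤
        Real.exp (R ^ 2 / 4) * Real.exp (-(‖x - z‖ ^ 2 / (4 * τ))) := by
      rw [← Real.exp_add]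
      apply Real.exp_le_exp.2
      have b1 : ‖x - z‖ ≤ R + ‖y - z‖ := by
        have : x - z = -(y - x) + (y - z) := by abel
        rw [this]
        refine (norm_add_le _ _).trans ?_
        rw [norm_neg]
        linarith
      have b2 : ‖x - z‖ ^ 2 ≤ 2 * R ^ 2 + 2 * ‖y - z‖ ^ 2 := by
        have b3 : ‖x - z‖ ^ 2 ≤ (R + ‖y - z‖) ^ 2 := pow_le_pow_left₀ (norm_nonneg _) b1 2
        nlinarith [sq_nonneg (R - ‖y - z‖)]
      have b4 : ‖x - z‖ ^ 2 / (4 * τ) ≤ ‖x - z‖ ^ 2 / 8 := by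
        apply div_le_div_of_nonneg_left (by positivity) (by norm_num) (by linarith)
      linarith
    calc (4 * π * 1) ^ (-((N : ℝ) / 2)) * Real.exp (-(‖y - z‖ ^ 2 / (4 * 1)))
        ≤ (4 * π * 1) ^ (-((N : ℝ) / 2)) *
          (Real.exp (R ^ 2 / 4) * Real.exp (-(‖x - z‖ ^ 2 / (4 * τ)))) :=
          mul_le_mul_of_nonneg_left a3 (by positivity)
      _ = (τ ^ ((N : ℝ) / 2) * τ ^ (-((N : ℝ) / 2))) * ((4 * π * 1) ^ (-((N : ℝ) / 2)) *
          (Real.exp (R ^ 2 / 4) * Real.exp (-(‖x - z‖ ^ 2 / (4 * τ))))) := by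
          rw [a2, one_mul]
      _ = _ := by rw [a1]; ring
  have h4 : P τ (ψ (t - 1)) x ≤ Real.exp (M * τ) * S f M τ (ψ (t - 1)) x := by
    have : P τ (ψ (t - 1)) x = Real.exp (M * τ) * (Real.exp (-(M * τ)) * P τ (ψ (t - 1)) x) := by
      rw [← mul_assoc, ← Real.exp_add]
      simp
    rw [this]
    exact mul_le_mul_of_nonneg_left h2 (Real.exp_nonneg _)
  calc S f M 1 (ψ (t - 1)) y ≤ Real.exp (2 * M) * P 1 (ψ (t - 1)) y := h1
    _ ≤ Real.exp (2 * M) * ((τ ^ ((N : ℝ) / 2) * Real.exp (R ^ 2 / 4)) *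
        (Real.exp (M * τ) * S f M τ (ψ (t - 1)) x)) := by
        apply mul_le_mul_of_nonneg_left _ (Real.exp_nonneg _)
        exact h3.trans (mul_le_mul_of_nonneg_left h4 (by positivity))
    _ = _ := by ring

/-- The main estimate, with all constants given. -/
theorem gro_main (hf : Nl f M) {T s k1 k2 d R K q η : ℝ} (hT : 0 < T) (hs : 1 ≤ s)
    (hk1 : 0 ≤ k1) (hk2 : 0 ≤ k2) (hd : d ≤ 1)
    (hup : ∀ b ∈ Icc (0:ℝ) d, f b ≤ k1 * b) (hlo : ∀ b ∈ Icc (0:ℝ) d, k2 * b ≤ f b)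
    (hR : 0 ≤ R) (hq : q = ((s + T) / s) ^ ((N : ℝ) / 2))
    (hη : η = Real.exp (-(R ^ 2 * T / (4 * s * (s + T)))))
    (hK : K = Real.exp (2 * M) * ((s + T + 1) ^ ((N : ℝ) / 2) * Real.exp (R ^ 2 / 4)) *
      Real.exp (M * (s + T + 1)))
    {ψ : ℝ → E N → ℝ} (hψ : Ent f M ψ) (t : ℝ) (x : E N)
    (hc1 : Real.exp (2 * M * s) * (K * ψ (t + T) x) ≤ d)
    (hc2 : Real.exp (k2 * (s + T)) * (K * ψ (t + T) x) ≤ d) :
    ψ t x ≤ (q * (Real.exp (k1 * s) * Real.exp (-(k2 * (s + T)))) +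
      Real.exp (2 * M * s) * (q * η * Real.exp (M * (s + T)))) * ψ (t + T) x := by
  have hs0 : 0 < s := by linarith
  have hsT : 0 < s + T := by linarith
  have hq0 : 0 ≤ q := by rw [hq]; positivity
  have hη0 : 0 ≤ η := by rw [hη]; positivity
  have hg := hψ.dat (t - s)
  obtain ⟨g, hgdef⟩ : ∃ g, g = ψ (t - s) := ⟨_, rfl⟩
  rw [← hgdef] at hg
  obtain ⟨V, hV⟩ : ∃ V, V = ψ (t + T) x := ⟨_, rfl⟩
  have hV0 : 0 ≤ V := by rw [hV]; exact ((hψ.dat (t + T)).mem x).1
  rw [← hV] at hc1 hc2 ⊢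
  have e1 : ψ t x = S f M s g x := by
    rw [hgdef, ← hψ.flow (t - s) s hs0.le, sub_add_cancel]
  have e2 : V = S f M (s + T) g x := by
    rw [hV, hgdef, ← hψ.flow (t - s) (s + T) hsT.le]
    congr 1
    ring
  -- the decomposition of the datum
  obtain ⟨B, hB⟩ : ∃ B, B = Metric.closedBall x R := ⟨_, rfl⟩
  have hBm : MeasurableSet B := by rw [hB]; exact measurableSet_closedBall
  have hg1 : Dat (B.indicator g) := by
    refine ⟨hg.meas.indicator hBm, fun y => ?_⟩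
    by_cases hy : y ∈ B
    · rw [indicator_of_mem hy]; exact hg.mem y
    · rw [indicator_of_notMem hy]; exact ⟨le_rfl, zero_le_one⟩
  have hg2 : Dat (Bᶜ.indicator g) := by
    refine ⟨hg.meas.indicator hBm.compl, fun y => ?_⟩
    by_cases hy : y ∈ Bᶜ
    · rw [indicator_of_mem hy]; exact hg.mem y
    · rw [indicator_of_notMem hy]; exact ⟨le_rfl, zero_le_one⟩
  have hsum : ∀ y, g y = B.indicator g y + Bᶜ.indicator g y := by
    intro y
    by_cases hy : y ∈ B
    · rw [indicator_of_mem hy, indicator_of_notMem (by simpa using hy), add_zero]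
    · rw [indicator_of_notMem hy, indicator_of_mem hy, zero_add]
  have hle1 : ∀ y, B.indicator g y ≤ g y := by
    intro y
    rw [hsum y]
    linarith [(hg2.mem y).1]
  have hle2 : ∀ y, Bᶜ.indicator g y ≤ g y := by
    intro y
    rw [hsum y]
    linarith [(hg1.mem y).1]
  -- the values in the ball are small
  have hKV : ∀ y, B.indicator g y ≤ K * V := by
    intro y
    have hK0 : 0 ≤ K := by rw [hK]; positivity
    by_cases hy : y ∈ B
    · rw [indicator_of_mem hy, hgdef, hK, hV]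
      have hyR : ‖y - x‖ ≤ R := by
        rw [hB, Metric.mem_closedBall, dist_eq_norm] at hy
        exact hy
      have h1 := gro_harnack hf hψ (τ := s + T + 1) (by linarith) hR (t - s) x y hyR
      have h2 : t - s - 1 + (s + T + 1) = t + T := by ring
      rw [h2] at h1
      exact h1
    · rw [indicator_of_notMem hy]
      positivity
  -- (a)
  have ha : P (s + T) g x ≤ Real.exp (M * (s + T)) * V := by
    have h1 := gro_lo hf hg hsT x
    rw [← e2] at h1
    have h2 : P (s + T) g x = Real.exp (M * (s + T)) *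
        (Real.exp (-(M * (s + T))) * P (s + T) g x) := by
      rw [← mul_assoc, ← Real.exp_add]
      simp
    rw [h2]
    exact mul_le_mul_of_nonneg_left h1 (Real.exp_nonneg _)
  -- (c)
  have hc : S f M s g x ≤ S f M s (B.indicator g) x +
      Real.exp (2 * M * s) * P s (Bᶜ.indicator g) x :=
    S_err hf hg hg1 hg2.meas (fun y => (hg2.mem y).1) (C := 1) (fun y => (hg2.mem y).2)
      (fun y => (hsum y).le) hs0 x
  have hlin : S f M s (B.indicator g) x ≤ Real.exp (k1 * s) * P s (B.indicator g) x := by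
    have h1 := S_lin hf hk1 hg1 gro_dat_zero hs0 (T := s) (fun r hr y _ => ?_) x
    · rw [S_const_eq hf ⟨le_rfl, zero_le_one⟩ hf.zero, sub_zero] at h1
      have h2 : (fun y => max (B.indicator g y - 0) 0) = B.indicator g := by
        funext y
        rw [sub_zero, max_eq_left (hg1.mem y).1]
      rw [h2] at h1
      exact h1
    · rw [S_const_eq hf ⟨le_rfl, zero_le_one⟩ hf.zero, hf.zero, sub_zero, sub_zero]
      apply hup
      refine ⟨(S_mem hf hg1 r y).1, ?_⟩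
      refine (gro_up hf hg1 hr.1 y).trans ?_
      have h3 : P r (B.indicator g) y ≤ K * V :=
        P_le hr.1 hg1.meas (gro_abs hg1) hKV y
      have h4 : Real.exp (2 * M * r) ≤ Real.exp (2 * M * s) := by
        apply Real.exp_le_exp.2
        exact mul_le_mul_of_nonneg_left hr.2.le (by linarith [hf.nn])
      have h5 : 0 ≤ K * V := (hg1.mem x).1.trans (hKV x)
      calc Real.exp (2 * M * r) * P r (B.indicator g) y
          ≤ Real.exp (2 * M * s) * (K * V) :=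
            mul_le_mul h4 h3 (P_nonneg hr.1 (fun y => (hg1.mem y).1) y) (Real.exp_nonneg _)
        _ ≤ d := hc1
  have hP1 : P s (B.indicator g) x ≤ q * P (s + T) (B.indicator g) x := by
    apply gro_comp hs0 hsT hg1.meas (gro_abs hg1)
    intro y
    rw [gro_kern hs0 hT, ← hq, ← mul_assoc]
    apply mul_le_mul_of_nonneg_right _ (hg1.mem y).1
    apply mul_le_mul_of_nonneg_right _ (heatK_nonneg hsT _)
    apply mul_le_of_le_one_right hq0
    apply Real.exp_le_one_iff.2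
    have : 0 ≤ ‖x - y‖ ^ 2 * T / (4 * s * (s + T)) := by positivity
    linarith
  have hP2 : P s (Bᶜ.indicator g) x ≤ (q * η) * P (s + T) (Bᶜ.indicator g) x := by
    apply gro_comp hs0 hsT hg2.meas (gro_abs hg2)
    intro y
    by_cases hy : y ∈ B
    · have : y ∉ Bᶜ := by simpa using hy
      rw [indicator_of_notMem this]
      simp
    · rw [gro_kern hs0 hT, ← hq, ← mul_assoc]
      apply mul_le_mul_of_nonneg_right _ (hg2.mem y).1
      apply mul_le_mul_of_nonneg_right _ (heatK_nonneg hsT _)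
      apply mul_le_mul_of_nonneg_left _ hq0
      rw [hη]
      apply Real.exp_le_exp.2
      apply neg_le_neg
      have hyR : R ≤ ‖x - y‖ := by
        rw [hB, Metric.mem_closedBall, dist_eq_norm, norm_sub_rev] at hy
        linarith
      have h2 : R ^ 2 ≤ ‖x - y‖ ^ 2 := pow_le_pow_left₀ hR hyR 2
      gcongr
  have hP3 : P (s + T) (Bᶜ.indicator g) x ≤ Real.exp (M * (s + T)) * V :=
    (P_mono hsT hg2.meas hg.meas (gro_abs hg2) (gro_abs hg) hle2 x).trans ha
  -- (d)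
  have hd1 : Real.exp (k2 * (s + T)) * P (s + T) (B.indicator g) x ≤ V := by
    rw [e2]
    refine (S_low hf hk2 hd hlo hg1 hsT (fun y => ?_) x).trans (S_mono hf hg1 hg hle1 _ x)
    exact (mul_le_mul_of_nonneg_left (hKV y) (Real.exp_nonneg _)).trans hc2
  have hd2 : P (s + T) (B.indicator g) x ≤ Real.exp (-(k2 * (s + T))) * V := by
    have h2 : P (s + T) (B.indicator g) x = Real.exp (-(k2 * (s + T))) *
        (Real.exp (k2 * (s + T)) * P (s + T) (B.indicator g) x) := by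
      rw [← mul_assoc, ← Real.exp_add]
      simp
    rw [h2]
    exact mul_le_mul_of_nonneg_left hd1 (Real.exp_nonneg _)
  -- (e)
  rw [e1]
  calc S f M s g x ≤ Real.exp (k1 * s) * P s (B.indicator g) x +
        Real.exp (2 * M * s) * P s (Bᶜ.indicator g) x := by linarith
    _ ≤ Real.exp (k1 * s) * (q * (Real.exp (-(k2 * (s + T))) * V)) +
        Real.exp (2 * M * s) * ((q * η) * (Real.exp (M * (s + T)) * V)) := by
        apply add_le_add
        · apply mul_le_mul_of_nonneg_left _ (Real.exp_nonneg _)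
          exact hP1.trans (mul_le_mul_of_nonneg_left hd2 hq0)
        · apply mul_le_mul_of_nonneg_left _ (Real.exp_nonneg _)
          exact hP2.trans (mul_le_mul_of_nonneg_left hP3 (mul_nonneg hq0 hη0))
    _ = _ := by ring

theorem ent_growth (N : ℕ) (hf : Nl f M) (H : Mn f m) {T ε : ℝ} (hT : 0 < T) (hε : 0 < ε) :
    ∃ δ : ℝ, 0 < δ ∧ ∀ ψ : ℝ → E N → ℝ, Ent f M ψ → ∀ t x, ψ (t + T) x ≤ δ →
      ψ t x ≤ (1 + ε) * Real.exp (-(m * T)) * ψ (t + T) x := by
  -- reduction to small `ε`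
  wlog hε1 : ε ≤ 1 generalizing ε with Hw
  · obtain ⟨δ, hδ, h⟩ := Hw (ε := 1) one_pos le_rfl
    refine ⟨δ, hδ, fun ψ hψ t x hx => (h ψ hψ t x hx).trans ?_⟩
    apply mul_le_mul_of_nonneg_right _ ((hψ.dat _).mem x).1
    apply mul_le_mul_of_nonneg_right _ (Real.exp_nonneg _)
    linarith
  have hm := H.m_pos
  -- choice of `s`
  obtain ⟨s, hs, hsq⟩ : ∃ s : ℝ, 1 ≤ s ∧ ((s + T) / s) ^ ((N : ℝ) / 2) ≤ 1 + ε / 4 := by
    have h1 : Tendsto (fun s : ℝ => ((s + T) / s) ^ ((N : ℝ) / 2)) atTop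
        (𝓝 ((1 : ℝ) ^ ((N : ℝ) / 2))) := by
      have h2 : Tendsto (fun s : ℝ => (s + T) / s) atTop (𝓝 1) := by
        have h3 : Tendsto (fun s : ℝ => 1 + T / s) atTop (𝓝 (1 + 0)) :=
          tendsto_const_nhds.add (tendsto_const_nhds.div_atTop tendsto_id)
        rw [add_zero] at h3
        refine h3.congr' ?_
        filter_upwards [eventually_gt_atTop (0:ℝ)] with s hs
        field_simp
      exact h2.rpow_const (Or.inl one_ne_zero)
    rw [Real.one_rpow] at h1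
    have h4 := (h1.eventually (gt_mem_nhds (show (1:ℝ) < 1 + ε / 4 by linarith))).and
      (eventually_ge_atTop (1:ℝ))
    obtain ⟨s, hs1, hs2⟩ := h4.exists
    exact ⟨s, hs2, hs1.le⟩
  have hs0 : 0 < s := by linarith
  have hsT : 0 < s + T := by linarith
  -- choice of `ε'`
  obtain ⟨ε', hε', hε'm, hε'e⟩ : ∃ ε' : ℝ, 0 < ε' ∧ ε' ≤ m ∧
      Real.exp (ε' * (2 * s + T)) ≤ 1 + ε / 4 := by
    have h0 : 0 < Real.log (1 + ε / 4) := Real.log_pos (by linarith)
    have h2 : 0 < 2 * s + T := by linarith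
    refine ⟨min m (Real.log (1 + ε / 4) / (2 * s + T)), lt_min hm (by positivity),
      min_le_left _ _, ?_⟩
    have h1 : min m (Real.log (1 + ε / 4) / (2 * s + T)) * (2 * s + T) ≤ Real.log (1 + ε / 4) := by
      have := min_le_right m (Real.log (1 + ε / 4) / (2 * s + T))
      rwa [← le_div_iff₀ h2]
    calc _ ≤ Real.exp (Real.log (1 + ε / 4)) := Real.exp_le_exp.2 h1
      _ = _ := Real.exp_log (by linarith)
  obtain ⟨q, hq⟩ : ∃ q, q = ((s + T) / s) ^ ((N : ℝ) / 2) := ⟨_, rfl⟩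
  have hq0 : 0 < q := by rw [hq]; positivity
  rw [← hq] at hsq
  -- choice of `R`
  obtain ⟨R, hR, hRe⟩ : ∃ R : ℝ, 0 ≤ R ∧ Real.exp (2 * M * s) *
      (q * Real.exp (-(R ^ 2 * T / (4 * s * (s + T)))) * Real.exp (M * (s + T))) ≤
        ε / 4 * Real.exp (-(m * T)) := by
    obtain ⟨A, hA⟩ : ∃ A, A = Real.exp (2 * M * s) * q * Real.exp (M * (s + T)) := ⟨_, rfl⟩
    have hA0 : 0 < A := by rw [hA]; positivity
    obtain ⟨b, hb⟩ : ∃ b, b = ε / 4 * Real.exp (-(m * T)) := ⟨_, rfl⟩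
    have hb0 : 0 < b := by rw [hb]; positivity
    have h1 : Tendsto (fun R : ℝ => A * Real.exp (-(R ^ 2 * T / (4 * s * (s + T))))) atTop
        (𝓝 (A * 0)) := by
      refine Tendsto.const_mul A (Real.tendsto_exp_neg_atTop_nhds_zero.comp ?_)
      have h2 : Tendsto (fun R : ℝ => R ^ 2 * (T / (4 * s * (s + T)))) atTop atTop :=
        (tendsto_pow_atTop two_ne_zero).atTop_mul_const (by positivity)
      refine h2.congr fun R => ?_
      ring
    rw [mul_zero] at h1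
    obtain ⟨R, hR1, hR2⟩ := ((h1.eventually (gt_mem_nhds hb0)).and
      (eventually_ge_atTop (0:ℝ))).exists
    refine ⟨R, hR2, ?_⟩
    rw [← hb]
    refine le_trans (le_of_eq ?_) hR1.le
    rw [hA]
    ring
  obtain ⟨d, hd0, hd1, hd⟩ := H.at0 ε' hε'
  obtain ⟨K, hK⟩ : ∃ K, K = Real.exp (2 * M) * ((s + T + 1) ^ ((N : ℝ) / 2) *
    Real.exp (R ^ 2 / 4)) * Real.exp (M * (s + T + 1)) := ⟨_, rfl⟩
  have hK0 : 0 < K := by rw [hK]; positivity
  obtain ⟨L, hL⟩ : ∃ L, L = Real.exp (2 * M * s) * K + Real.exp ((m - ε') * (s + T)) * K :=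
    ⟨_, rfl⟩
  have hL0 : 0 < L := by rw [hL]; positivity
  refine ⟨d / L, by positivity, fun ψ hψ t x hx => ?_⟩
  have hV0 : 0 ≤ ψ (t + T) x := ((hψ.dat _).mem x).1
  have hx' : L * ψ (t + T) x ≤ d := by
    rw [le_div_iff₀ hL0] at hx
    linarith
  rw [hL, add_mul] at hx'
  have p1 : 0 ≤ Real.exp (2 * M * s) * K * ψ (t + T) x := by positivity
  have p2 : 0 ≤ Real.exp ((m - ε') * (s + T)) * K * ψ (t + T) x := by positivity
  have key := gro_main hf hT hs (k1 := m + ε') (k2 := m - ε') (d := d) (R := R) (K := K)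
    (q := q) (η := Real.exp (-(R ^ 2 * T / (4 * s * (s + T))))) (by linarith) (by linarith) hd1
    (fun b hb => by
      have := (hd 0 b le_rfl hb.1 hb.2).2
      rw [hf.zero] at this
      linarith)
    (fun b hb => by
      have := (hd 0 b le_rfl hb.1 hb.2).1
      rw [hf.zero] at this
      linarith) hR hq rfl hK hψ t x (by rw [← mul_assoc]; linarith) (by rw [← mul_assoc]; linarith)
  refine key.trans ?_
  apply mul_le_mul_of_nonneg_right _ hV0
  have h1 : Real.exp ((m + ε') * s) * Real.exp (-((m - ε') * (s + T))) =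
      Real.exp (ε' * (2 * s + T)) * Real.exp (-(m * T)) := by
    rw [← Real.exp_add, ← Real.exp_add]
    congr 1
    ring
  rw [h1]
  have h2 : q * (Real.exp (ε' * (2 * s + T)) * Real.exp (-(m * T))) ≤
      (1 + ε / 4) * (1 + ε / 4) * Real.exp (-(m * T)) := by
    rw [← mul_assoc]
    apply mul_le_mul_of_nonneg_right _ (Real.exp_nonneg _)
    exact mul_le_mul hsq hε'e (Real.exp_nonneg _) (by linarith)
  have h3 : (1 + ε / 4) * (1 + ε / 4) + ε / 4 ≤ 1 + ε := by nlinarith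
  calc _ ≤ (1 + ε / 4) * (1 + ε / 4) * Real.exp (-(m * T)) + ε / 4 * Real.exp (-(m * T)) :=
        add_le_add h2 hRe
    _ = ((1 + ε / 4) * (1 + ε / 4) + ε / 4) * Real.exp (-(m * T)) := by ring
    _ ≤ (1 + ε) * Real.exp (-(m * T)) := mul_le_mul_of_nonneg_right h3 (Real.exp_nonneg _)

end

end Pool.Agent.AP157
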