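import Pool.Agent.AP157.Wk
import Pool.Agent.AP157.Reg

/-!
# Harnack inequality and relative time continuity for entire solutions

-/

set_option autoImplicit false

open MeasureTheory Real Set Filter Topology
open scoped ENNReal

namespace Pool.Agent.AP157

open Pool.Agent.X297.KP

noncomputable section

variable {N : ℕ} {f : ℝ → ℝ} {M m : ℝ}

/-! ## Auxiliary lemmas -/

/-- Comparison of heat kernels at different times and nearby points. -/
theorem har_kern (N : ℕ) {a b c d : ℝ} (ha : 0 < a) (hab : a ≤ b) (hbc : b < c) (hcd : c ≤ d)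
    (R : ℝ) : ∃ C : ℝ, 1 ≤ C ∧ ∀ r ∈ Icc a b, ∀ s ∈ Icc c d, ∀ u v : E N, ‖v - u‖ ≤ R →
      heatK r u ≤ C * heatK s v := by
  have hb : 0 < b := ha.trans_le hab
  have hc : 0 < c := hb.trans hbc
  have hd : 0 < d := hc.trans_le hcd
  set κ : ℝ := (c - b) / b with hκ
  have hκ0 : 0 < κ := div_pos (by linarith) hb
  have hκb : (1 + κ) * b = c := by rw [hκ]; field_simp; ring
  set C1 : ℝ := (d / a) ^ ((N : ℝ) / 2) with hC1
  set C2 : ℝ := Real.exp ((1 + 1 / κ) * R ^ 2 / (4 * c)) with hC2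
  have hC1p : 1 ≤ C1 := Real.one_le_rpow (by rw [one_le_div ha]; linarith) (by positivity)
  have hC2p : 1 ≤ C2 := Real.one_le_exp (by positivity)
  refine ⟨C1 * C2, by nlinarith, ?_⟩
  intro r hr s hs u v huv
  have hr0 : 0 < r := ha.trans_le hr.1
  have hs0 : 0 < s := hc.trans_le hs.1
  unfold heatK
  have h1 : (4 * π * r) ^ (-((N : ℝ) / 2)) ≤ C1 * (4 * π * s) ^ (-((N : ℝ) / 2)) := by
    have e1 : (4 * π * r) ^ (-((N : ℝ) / 2)) =
        (s / r) ^ ((N : ℝ) / 2) * (4 * π * s) ^ (-((N : ℝ) / 2)) := by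
      have e2 : 4 * π * s = (s / r) * (4 * π * r) := by field_simp
      have e3 : ((s / r) * (4 * π * r)) ^ (-((N : ℝ) / 2)) =
          (s / r) ^ (-((N : ℝ) / 2)) * (4 * π * r) ^ (-((N : ℝ) / 2)) :=
        Real.mul_rpow (by positivity) (by positivity)
      have e4 : (s / r) ^ ((N : ℝ) / 2) * (s / r) ^ (-((N : ℝ) / 2)) = 1 := by
        rw [← Real.rpow_add (by positivity)]
        simp
      rw [e2, e3, ← mul_assoc, e4, one_mul]
    rw [e1, hC1]
    apply mul_le_mul_of_nonneg_right _ (by positivity)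
    apply Real.rpow_le_rpow (by positivity) _ (by positivity)
    rw [div_le_div_iff₀ hr0 ha]
    exact mul_le_mul hs.2 hr.1 ha.le hd.le
  have h2 : Real.exp (-(‖u‖ ^ 2 / (4 * r))) ≤ C2 * Real.exp (-(‖v‖ ^ 2 / (4 * s))) := by
    rw [hC2, ← Real.exp_add]
    apply Real.exp_le_exp.2
    have hn : ‖v‖ ≤ ‖u‖ + ‖v - u‖ := by
      calc ‖v‖ = ‖u + (v - u)‖ := by congr 1; abel
        _ ≤ _ := norm_add_le _ _
    have hw0 : 0 ≤ ‖v - u‖ := norm_nonneg _
    have hw2 : ‖v - u‖ ^ 2 ≤ R ^ 2 := pow_le_pow_left₀ hw0 huv 2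
    have hv2 : ‖v‖ ^ 2 ≤ (1 + κ) * ‖u‖ ^ 2 + (1 + 1 / κ) * R ^ 2 := by
      have h3 : ‖v‖ ^ 2 ≤ (‖u‖ + ‖v - u‖) ^ 2 := pow_le_pow_left₀ (norm_nonneg _) hn 2
      have h4 : (1 + κ) * ‖u‖ ^ 2 + (1 + 1 / κ) * ‖v - u‖ ^ 2 - (‖u‖ + ‖v - u‖) ^ 2 =
          (κ * ‖u‖ - ‖v - u‖) ^ 2 / κ := by
        field_simp
        ring
      have h5 : 0 ≤ (κ * ‖u‖ - ‖v - u‖) ^ 2 / κ := by positivity
      have h6 : (1 + 1 / κ) * ‖v - u‖ ^ 2 ≤ (1 + 1 / κ) * R ^ 2 := by gcongr
      linarith
    have hsc : (1 + κ) * r ≤ s := by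
      calc (1 + κ) * r ≤ (1 + κ) * b := by
            apply mul_le_mul_of_nonneg_left hr.2 (by positivity)
        _ = c := hκb
        _ ≤ s := hs.1
    have h7 : ‖v‖ ^ 2 / (4 * s) ≤ ‖u‖ ^ 2 / (4 * r) + (1 + 1 / κ) * R ^ 2 / (4 * c) := by
      calc ‖v‖ ^ 2 / (4 * s) ≤ ((1 + κ) * ‖u‖ ^ 2 + (1 + 1 / κ) * R ^ 2) / (4 * s) := by gcongr
        _ = (1 + κ) * ‖u‖ ^ 2 / (4 * s) + (1 + 1 / κ) * R ^ 2 / (4 * s) := add_div _ _ _
        _ ≤ ‖u‖ ^ 2 / (4 * r) + (1 + 1 / κ) * R ^ 2 / (4 * c) := by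
            apply add_le_add
            · rw [div_le_div_iff₀ (by positivity) (by positivity)]
              have : 0 ≤ ‖u‖ ^ 2 := by positivity
              nlinarith [mul_le_mul_of_nonneg_left hsc this]
            · have := hs.1
              gcongr
    linarith
  calc (4 * π * r) ^ (-((N : ℝ) / 2)) * Real.exp (-(‖u‖ ^ 2 / (4 * r)))
      ≤ (C1 * (4 * π * s) ^ (-((N : ℝ) / 2))) * (C2 * Real.exp (-(‖v‖ ^ 2 / (4 * s)))) :=
        mul_le_mul h1 h2 (Real.exp_nonneg _) (by positivity)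
    _ = _ := by ring

/-- Comparison of the heat semigroup at different times and nearby points. -/
theorem har_P (N : ℕ) {a b c d : ℝ} (ha : 0 < a) (hab : a ≤ b) (hbc : b < c) (hcd : c ≤ d)
    (R : ℝ) : ∃ C : ℝ, 1 ≤ C ∧ ∀ r ∈ Icc a b, ∀ s ∈ Icc c d, ∀ (g : E N → ℝ) (B : ℝ),
      Measurable g → (∀ y, 0 ≤ g y) → (∀ y, g y ≤ B) → ∀ x y : E N, ‖y - x‖ ≤ R →
      P r g y ≤ C * P s g x := by
  obtain ⟨C, hC, h⟩ := har_kern N ha hab hbc hcd R
  refine ⟨C, hC, ?_⟩
  intro r hr s hs g B hg hg0 hgB x y hxy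
  have hr0 : 0 < r := ha.trans_le hr.1
  have hs0 : 0 < s := by linarith [hs.1, ha.trans_le hab]
  have hab : ∀ y, |g y| ≤ B := fun y => by rw [abs_of_nonneg (hg0 y)]; exact hgB y
  unfold P
  rw [← integral_const_mul]
  apply integral_mono (P_int hr0 hg hab y) ((P_int hs0 hg hab x).const_mul C)
  intro z
  simp only
  rw [← mul_assoc]
  apply mul_le_mul_of_nonneg_right _ (hg0 z)
  apply h r hr s hs
  have e : x - z - (y - z) = -(y - x) := by abel
  rw [e, norm_neg]
  exact hxy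

theorem har_Pmeas {H : E N → ℝ} (hH : Measurable H) (s : ℝ) : Measurable (fun y => P s H y) := by
  unfold P
  apply StronglyMeasurable.measurable
  apply StronglyMeasurable.integral_prod_right (f := fun y z => heatK s (y - z) * H z)
  apply Measurable.stronglyMeasurable
  apply Measurable.mul
  · exact heatK_meas.comp (f := fun q : E N × E N => (s, q.1 - q.2)) (by fun_prop)
  · exact hH.comp measurable_snd

/-- Semigroup property of the heat semigroup. -/
theorem har_PP {a b : ℝ} (ha : 0 < a) (hb : 0 < b) {g : E N → ℝ} (hg : Measurable g) {B : ℝ}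
    (hg0 : ∀ y, 0 ≤ g y) (hgB : ∀ y, g y ≤ B) (x : E N) :
    P a (fun y => P b g y) x = P (a + b) g x := by
  have hab : ∀ y, |g y| ≤ B := fun y => by rw [abs_of_nonneg (hg0 y)]; exact hgB y
  have h1 : ENNReal.ofReal (P a (fun y => P b g y) x) = ENNReal.ofReal (P (a + b) g x) := by
    rw [P_ofReal ha (har_Pmeas hg b) (fun y => P_nonneg hb hg0 y)
      (fun y => P_le hb hg hab hgB y), P_ofReal (by positivity) hg hg0 hgB,
      ← conv_conv hg.ennreal_ofReal ha hb x]
    apply lintegral_congr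
    intro y
    rw [P_ofReal hb hg hg0 hgB]
  have h2 := (ENNReal.ofReal_eq_ofReal_iff
    (P_nonneg ha (fun y => P_nonneg hb hg0 y) x) (P_nonneg (by positivity) hg0 x)).1 h1
  exact h2

/-- The heat kernel does not increase too fast in time. -/
theorem har_time {r h : ℝ} (hh : 0 ≤ h) (hr : h < r) (w : E N) :
    heatK r w ≤ heatK (r - h) w + 2 ^ ((N : ℝ) / 2) * (2 * h / (r - h)) * heatK (2 * r) w := by
  have hr0 : 0 < r := by linarith
  have hrh : 0 < r - h := by linarith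
  -- lower bound for the kernel at the earlier time
  have h1 : heatK r w * (1 - ‖w‖ ^ 2 * h / (4 * r * (r - h))) ≤ heatK (r - h) w := by
    have h2 : 1 - ‖w‖ ^ 2 * h / (4 * r * (r - h)) ≤
        Real.exp (-(‖w‖ ^ 2 * h / (4 * r * (r - h)))) := by
      have := Real.add_one_le_exp (-(‖w‖ ^ 2 * h / (4 * r * (r - h))))
      linarith
    refine (mul_le_mul_of_nonneg_left h2 (heatK_nonneg hr0 w)).trans ?_
    unfold heatK
    rw [mul_assoc, ← Real.exp_add]
    have e1 : -(‖w‖ ^ 2 / (4 * r)) + -(‖w‖ ^ 2 * h / (4 * r * (r - h))) =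
        -(‖w‖ ^ 2 / (4 * (r - h))) := by
      field_simp
      ring
    rw [e1]
    apply mul_le_mul_of_nonneg_right _ (Real.exp_nonneg _)
    apply Real.rpow_le_rpow_of_nonpos (by positivity)
    · have : 0 < π := Real.pi_pos
      nlinarith
    · have : (0 : ℝ) ≤ (N : ℝ) / 2 := by positivity
      linarith
  have h3 : heatK r w * (‖w‖ ^ 2 * h / (4 * r * (r - h))) ≤
      2 ^ ((N : ℝ) / 2) * (2 * h / (r - h)) * heatK (2 * r) w := by
    rw [kern_two hr0 w]
    have h4 : ‖w‖ ^ 2 * Real.exp (-(‖w‖ ^ 2 / (8 * r))) ≤ 8 * r := by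
      have h5 := Real.add_one_le_exp (‖w‖ ^ 2 / (8 * r))
      rw [Real.exp_neg, ← div_eq_mul_inv, div_le_iff₀ (Real.exp_pos _)]
      calc ‖w‖ ^ 2 = 8 * r * (‖w‖ ^ 2 / (8 * r)) := by field_simp
        _ ≤ 8 * r * Real.exp (‖w‖ ^ 2 / (8 * r)) := by
            apply mul_le_mul_of_nonneg_left _ (by positivity)
            linarith
    have hK := heatK_nonneg (show 0 < 2 * r by positivity) w
    calc 2 ^ ((N : ℝ) / 2) * Real.exp (-(‖w‖ ^ 2 / (8 * r))) * heatK (2 * r) w *
          (‖w‖ ^ 2 * h / (4 * r * (r - h)))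
        = (2 ^ ((N : ℝ) / 2) * heatK (2 * r) w * (h / (4 * r * (r - h)))) *
          (‖w‖ ^ 2 * Real.exp (-(‖w‖ ^ 2 / (8 * r)))) := by ring
      _ ≤ (2 ^ ((N : ℝ) / 2) * heatK (2 * r) w * (h / (4 * r * (r - h)))) * (8 * r) := by
          apply mul_le_mul_of_nonneg_left h4
          positivity
      _ = _ := by
          field_simp
          ring
  have h6 : heatK r w = heatK r w * (1 - ‖w‖ ^ 2 * h / (4 * r * (r - h))) +
      heatK r w * (‖w‖ ^ 2 * h / (4 * r * (r - h))) := by ring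
  rw [h6]
  exact add_le_add h1 h3

/-- The damped heat semigroup does not increase too fast in time. -/
theorem har_Ptime {M r h : ℝ} (hM : 0 ≤ M) (hh : 0 ≤ h) (hr : h < r) {g : E N → ℝ}
    (hg : Measurable g) {B : ℝ} (hg0 : ∀ y, 0 ≤ g y) (hgB : ∀ y, g y ≤ B) (x : E N) :
    Real.exp (-(M * r)) * P r g x ≤ Real.exp (-(M * (r - h))) * P (r - h) g x +
      2 ^ ((N : ℝ) / 2) * (2 * h / (r - h)) * P (2 * r) g x := by
  have hr0 : 0 < r := by linarith
  have hrh : 0 < r - h := by linarith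
  have hab : ∀ y, |g y| ≤ B := fun y => by rw [abs_of_nonneg (hg0 y)]; exact hgB y
  have h1 : P r g x ≤ P (r - h) g x + 2 ^ ((N : ℝ) / 2) * (2 * h / (r - h)) * P (2 * r) g x := by
    unfold P
    rw [← integral_const_mul, ← integral_add (P_int hrh hg hab x)
      ((P_int (by positivity) hg hab x).const_mul _)]
    apply integral_mono (P_int hr0 hg hab x) ((P_int hrh hg hab x).add
      ((P_int (by positivity) hg hab x).const_mul _))
    intro y
    have := mul_le_mul_of_nonneg_right (har_time hh hr (x - y)) (hg0 y)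
    simp only [Pi.add_apply]
    linarith
  have h2 : Real.exp (-(M * r)) ≤ Real.exp (-(M * (r - h))) := by
    apply Real.exp_le_exp.2
    nlinarith
  have h3 : Real.exp (-(M * r)) ≤ 1 := by
    apply Real.exp_le_one_iff.mpr
    have : 0 ≤ M * r := by positivity
    linarith
  have h4 := P_nonneg hrh hg0 x
  have h5 := P_nonneg (show 0 < 2 * r by positivity) hg0 x
  calc Real.exp (-(M * r)) * P r g x
      ≤ Real.exp (-(M * r)) * (P (r - h) g x +
        2 ^ ((N : ℝ) / 2) * (2 * h / (r - h)) * P (2 * r) g x) :=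
        mul_le_mul_of_nonneg_left h1 (Real.exp_nonneg _)
    _ = Real.exp (-(M * r)) * P (r - h) g x + Real.exp (-(M * r)) *
        (2 ^ ((N : ℝ) / 2) * (2 * h / (r - h)) * P (2 * r) g x) := mul_add _ _ _
    _ ≤ Real.exp (-(M * (r - h))) * P (r - h) g x + 1 *
        (2 ^ ((N : ℝ) / 2) * (2 * h / (r - h)) * P (2 * r) g x) := by
        apply add_le_add
        · exact mul_le_mul_of_nonneg_right h2 h4
        · apply mul_le_mul_of_nonneg_right h3
          positivity
    _ = _ := by rw [one_mul]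

/-- The zero datum stays zero. -/
theorem har_S_zero (hf : Nl f M) (t : ℝ) (x : E N) : S f M t (fun _ => (0:ℝ)) x = 0 :=
  S_const_eq hf ⟨le_rfl, zero_le_one⟩ hf.zero t x

theorem har_dat0 : Dat (N := N) (fun _ => (0:ℝ)) := ⟨measurable_const, fun _ => ⟨le_rfl, zero_le_one⟩⟩

/-- Upper bound for the nonlinear term. -/
theorem har_F (hf : Nl f M) {g : E N → ℝ} (hg : Dat g) {s p : ℝ} (hs : 0 < s) (hsp : s ≤ p)
    (y : E N) : Fe f M (S f M s g y) ≤ 2 * M * Real.exp (2 * M * p) * P s g y := by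
  have hM := hf.nn
  have h1 := Fe_lip hf (a := 0) (b := S f M s g y) ⟨le_rfl, zero_le_one⟩ (S_mem hf hg s y)
    (S_mem hf hg s y).1
  have h2 : Fe f M 0 = 0 := by
    rw [Fe_eq ⟨le_rfl, zero_le_one⟩, hf.zero]
    ring
  have h3 := S_err hf hg har_dat0 hg.meas (fun y => (hg.mem y).1) (C := 1)
    (fun y => (hg.mem y).2) (fun x => by simp) hs y
  rw [har_S_zero hf, zero_add] at h3
  have h4 := P_nonneg hs (fun y => (hg.mem y).1) y
  have h5 : Real.exp (2 * M * s) ≤ Real.exp (2 * M * p) := by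
    apply Real.exp_le_exp.2
    apply mul_le_mul_of_nonneg_left hsp
    positivity
  rw [h2, sub_zero, sub_zero] at h1
  calc Fe f M (S f M s g y) ≤ 2 * M * S f M s g y := h1
    _ ≤ 2 * M * (Real.exp (2 * M * s) * P s g y) := by gcongr
    _ ≤ 2 * M * (Real.exp (2 * M * p) * P s g y) := by gcongr
    _ = _ := by ring

/-- Upper bound for the heat semigroup applied to the nonlinear term. -/
theorem har_PF (hf : Nl f M) {g : E N → ℝ} (hg : Dat g) {s p r : ℝ} (hs : 0 < s) (hsp : s ≤ p)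
    (hr : 0 < r) (y : E N) : P r (fun y => Fe f M (S f M s g y)) y ≤
      2 * M * Real.exp (2 * M * p) * P (r + s) g y := by
  have hM := hf.nn
  have hg1 : ∀ y, |g y| ≤ 1 := fun y => by rw [abs_of_nonneg (hg.mem y).1]; exact (hg.mem y).2
  have hE : 0 ≤ 2 * M * Real.exp (2 * M * p) := by positivity
  have h1 : P r (fun y => Fe f M (S f M s g y)) y ≤
      P r (fun y => 2 * M * Real.exp (2 * M * p) * P s g y) y := by
    apply P_mono hr (Fe_S_meas hf hg s) ((har_Pmeas hg.meas s).const_mul _)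
      (C := max M (2 * M * Real.exp (2 * M * p)))
    · intro z
      exact (Fe_abs hf _).trans (le_max_left _ _)
    · intro z
      refine le_trans ?_ (le_max_right _ _)
      rw [abs_mul, abs_of_nonneg hE]
      calc _ ≤ 2 * M * Real.exp (2 * M * p) * 1 :=
            mul_le_mul_of_nonneg_left (P_abs_le hs hg.meas hg1 z) hE
        _ = _ := mul_one _
    · intro z
      exact har_F hf hg hs hsp z
  rw [P_const_mul, har_PP hr hs hg.meas (fun y => (hg.mem y).1) (fun y => (hg.mem y).2)] at h1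
  exact h1

theorem ent_harnack (N : ℕ) (hf : Nl f M) {τ₁ τ₂ : ℝ} (h1 : 0 < τ₁) (h12 : τ₁ ≤ τ₂) (R : ℝ) :
    ∃ C : ℝ, 1 ≤ C ∧ ∀ a b : ℝ → E N → ℝ, Ent f M a → Ent f M b → (∀ t x, a t x ≤ b t x) →
      ∀ τ ∈ Icc τ₁ τ₂, ∀ t x y, ‖y - x‖ ≤ R →
        b (t - τ) y - a (t - τ) y ≤ C * (b t x - a t x) := by
  have hM := hf.nn
  obtain ⟨C, hC, h⟩ := har_P N (a := 1) (b := 1) (c := 1 + τ₁) (d := 1 + τ₂) one_pos le_rfl
    (by linarith) (by linarith) R
  have hE1 : 1 ≤ Real.exp (2 * M) := Real.one_le_exp (by positivity)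
  have hE2 : 1 ≤ Real.exp (M * (1 + τ₂)) := Real.one_le_exp
    (mul_nonneg hM (by linarith))
  refine ⟨Real.exp (2 * M) * C * Real.exp (M * (1 + τ₂)), ?_, ?_⟩
  · have : 1 ≤ Real.exp (2 * M) * C := by nlinarith
    nlinarith
  intro a b ha hb hab τ hτ t x y hxy
  set t₀ : ℝ := t - τ - 1 with ht₀
  set D : E N → ℝ := fun z => b t₀ z - a t₀ z with hD
  have hDm : Measurable D := (hb.dat t₀).meas.sub (ha.dat t₀).meas
  have hD0 : ∀ z, 0 ≤ D z := fun z => by have := hab t₀ z; simp only [hD]; linarith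
  have hD1 : ∀ z, D z ≤ 1 := fun z => by
    have h3 := ((hb.dat t₀).mem z).2
    have h4 := ((ha.dat t₀).mem z).1
    simp only [hD]
    linarith
  have e1 : ∀ z, b (t - τ) z = S f M 1 (b t₀) z := fun z => by
    have := hb.flow t₀ 1 zero_le_one z
    rw [← this, ht₀]
    congr 1
    ring
  have e2 : ∀ z, a (t - τ) z = S f M 1 (a t₀) z := fun z => by
    have := ha.flow t₀ 1 zero_le_one z
    rw [← this, ht₀]
    congr 1
    ring
  have hτ0 : 0 < 1 + τ := by linarith [hτ.1]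
  have e3 : b t x = S f M (1 + τ) (b t₀) x := by
    rw [← hb.flow t₀ (1 + τ) hτ0.le x, ht₀]
    congr 1
    ring
  have e4 : a t x = S f M (1 + τ) (a t₀) x := by
    rw [← ha.flow t₀ (1 + τ) hτ0.le x, ht₀]
    congr 1
    ring
  have h5 : b (t - τ) y - a (t - τ) y ≤ Real.exp (2 * M) * P 1 D y := by
    have := S_err hf (hb.dat t₀) (ha.dat t₀) hDm hD0 hD1 (fun z => by simp [hD]) one_pos y
    rw [mul_one] at this
    rw [e1, e2]
    linarith
  have h6 : Real.exp (-(M * (1 + τ))) * P (1 + τ) D x ≤ b t x - a t x := by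
    rw [e3, e4]
    exact S_pos hf (ha.dat t₀) (hb.dat t₀) (hab t₀) hτ0 x
  have h7 : P 1 D y ≤ C * P (1 + τ) D x :=
    h 1 ⟨le_rfl, le_rfl⟩ (1 + τ) ⟨by linarith [hτ.1], by linarith [hτ.2]⟩ D 1 hDm hD0 hD1 x y hxy
  have h8 : P (1 + τ) D x ≤ Real.exp (M * (1 + τ₂)) * (b t x - a t x) := by
    have h9 : P (1 + τ) D x ≤ Real.exp (M * (1 + τ)) * (b t x - a t x) := by
      have := mul_le_mul_of_nonneg_left h6 (Real.exp_nonneg (M * (1 + τ)))
      rw [← mul_assoc, ← Real.exp_add] at this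
      simpa using this
    refine h9.trans ?_
    apply mul_le_mul_of_nonneg_right
    · apply Real.exp_le_exp.2
      apply mul_le_mul_of_nonneg_left _ hM
      linarith [hτ.2]
    · linarith [hab t x]
  calc b (t - τ) y - a (t - τ) y ≤ Real.exp (2 * M) * P 1 D y := h5
    _ ≤ Real.exp (2 * M) * (C * P (1 + τ) D x) := by gcongr
    _ ≤ Real.exp (2 * M) * (C * (Real.exp (M * (1 + τ₂)) * (b t x - a t x))) := by gcongr
    _ = _ := by ring

theorem ent_cont (N : ℕ) (hf : Nl f M) {τ₁ τ₂ : ℝ} (h1 : 0 < τ₁) (h12 : τ₁ ≤ τ₂) (R : ℝ) {ε : ℝ}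
    (hε : 0 < ε) : ∃ h₀ : ℝ, 0 < h₀ ∧ ∀ ψ : ℝ → E N → ℝ, Ent f M ψ → ∀ τ ∈ Icc τ₁ τ₂,
      ∀ h ∈ Icc 0 h₀, ∀ t x y, ‖y - x‖ ≤ R →
        ψ (t - τ) y ≤ ψ (t - τ - h) y + ε * ψ t x := by
  have hM := hf.nn
  have hMp := hf.pos
  set p : ℝ := min τ₁ 1 / 2 with hp
  have hp0 : 0 < p := by
    have : 0 < min τ₁ 1 := lt_min h1 one_pos
    positivity
  have hp1 : 2 * p ≤ τ₁ := by
    have := min_le_left τ₁ 1
    rw [hp]; linarith
  obtain ⟨C, hC, hP⟩ := har_P N (a := p) (b := 2 * p) (c := τ₁ + p) (d := τ₂ + p) hp0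
    (by linarith) (by linarith) (by linarith) R
  have hC0 : 0 < C := by linarith
  set CF : ℝ := 2 * M * Real.exp (2 * M * p) with hCF
  have hCF0 : 0 < CF := by positivity
  set Q : ℝ := C * Real.exp (M * (τ₂ + p)) with hQ
  have hQ0 : 0 < Q := by positivity
  set K : ℝ := 2 ^ ((N : ℝ) / 2) with hK
  have hK0 : 0 < K := by positivity
  set h₁ : ℝ := min p (ε / (2 * (CF * Q))) with hh1
  have hh10 : 0 < h₁ := lt_min hp0 (by positivity)
  have hh1p : h₁ ≤ p := min_le_left _ _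
  have hh1e : h₁ * (CF * Q) ≤ ε / 2 := by
    have : h₁ ≤ ε / (2 * (CF * Q)) := min_le_right _ _
    calc h₁ * (CF * Q) ≤ ε / (2 * (CF * Q)) * (CF * Q) := by gcongr
      _ = ε / 2 := by field_simp
  set h₀ : ℝ := min (h₁ / 2) (ε * h₁ / (8 * K * (1 + p * CF) * Q)) with hh0
  have hh00 : 0 < h₀ := lt_min (by positivity) (by positivity)
  refine ⟨h₀, hh00, ?_⟩
  intro ψ hψ τ hτ h hh t x y hxy
  have hhn : 0 ≤ h := hh.1
  have hhh : h ≤ h₁ / 2 := hh.2.trans (min_le_left _ _)
  have hhe : h ≤ ε * h₁ / (8 * K * (1 + p * CF) * Q) := hh.2.trans (min_le_right _ _)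
  set g : E N → ℝ := ψ (t - τ - p) with hg
  have hgd : Dat g := hψ.dat _
  have hg0 : ∀ z, 0 ≤ g z := fun z => (hgd.mem z).1
  have hgB : ∀ z, g z ≤ 1 := fun z => (hgd.mem z).2
  set Z : ℝ := P (τ + p) g x with hZ
  have hτp : 0 < τ + p := by linarith [hτ.1]
  have hZ0 : 0 ≤ Z := P_nonneg hτp hg0 x
  -- `Z` is bounded by the solution at `(t, x)`
  have hZψ : C * Z ≤ Q * ψ t x := by
    have e1 : ψ t x = S f M (τ + p) g x := by
      rw [hg, ← hψ.flow (t - τ - p) (τ + p) hτp.le x]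
      congr 1
      ring
    have h3 := S_pos hf har_dat0 hgd hg0 hτp x
    rw [har_S_zero hf, sub_zero, ← e1] at h3
    simp only [sub_zero] at h3
    have h4 : Z ≤ Real.exp (M * (τ + p)) * ψ t x := by
      have := mul_le_mul_of_nonneg_left h3 (Real.exp_nonneg (M * (τ + p)))
      rw [← mul_assoc, ← Real.exp_add] at this
      simpa using this
    have h5 : 0 ≤ ψ t x := ((hψ.dat t).mem x).1
    have h6 : Real.exp (M * (τ + p)) ≤ Real.exp (M * (τ₂ + p)) := by
      apply Real.exp_le_exp.2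
      apply mul_le_mul_of_nonneg_left _ hM
      linarith [hτ.2]
    calc C * Z ≤ C * (Real.exp (M * (τ + p)) * ψ t x) := by gcongr
      _ ≤ C * (Real.exp (M * (τ₂ + p)) * ψ t x) := by gcongr
      _ = Q * ψ t x := by rw [hQ]; ring
  have hPZ : ∀ r ∈ Icc p (2 * p), P r g y ≤ C * Z := fun r hr =>
    hP r hr (τ + p) ⟨by linarith [hτ.1], by linarith [hτ.2]⟩ g 1 hgd.meas hg0 hgB x y hxy
  -- the coefficient
  set Ω : ℝ := K * (4 * h / h₁) with hΩ
  have hΩ0 : 0 ≤ Ω := by positivity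
  have hcoef : ∀ r, h₁ ≤ r → K * (2 * h / (r - h)) ≤ Ω := by
    intro r hr
    rw [hΩ]
    apply mul_le_mul_of_nonneg_left _ hK0.le
    rw [div_le_div_iff₀ (by linarith) hh10]
    nlinarith
  have htime : ∀ r, h₁ ≤ r → ∀ (k : E N → ℝ) (B : ℝ), Measurable k → (∀ z, 0 ≤ k z) →
      (∀ z, k z ≤ B) → Real.exp (-(M * r)) * P r k y ≤
        Real.exp (-(M * (r - h))) * P (r - h) k y + Ω * P (2 * r) k y := by
    intro r hr k B hk hk0 hkB
    have h3 := har_Ptime hM hhn (show h < r by linarith) hk hk0 hkB y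
    have h4 := P_nonneg (show 0 < 2 * r by linarith) hk0 y
    have h5 := mul_le_mul_of_nonneg_right (hcoef r hr) h4
    rw [← hK] at h3
    linarith
  -- the two Duhamel formulas
  have hph : 0 < p - h := by linarith
  have e1 : ψ (t - τ) y = S f M p g y := by
    rw [hg, ← hψ.flow (t - τ - p) p hp0.le y]
    congr 1
    ring
  have e2 : ψ (t - τ - h) y = S f M (p - h) g y := by
    rw [hg, ← hψ.flow (t - τ - p) (p - h) hph.le y]
    congr 1
    ring
  rw [e1, e2, duhamel hf hgd hp0 y, duhamel hf hgd hph y]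
  set F : ℝ → E N → ℝ := fun s z => Fe f M (S f M s g z) with hF
  have hI1 := duh_int hf hgd hp0 y
  have hI2 := duh_int hf hgd hph y
  have hI1a : IntervalIntegrable (fun s => Real.exp (-(M * (p - s))) * P (p - s) (F s) y)
      volume 0 (p - h₁) := hI1.mono_set (by
        rw [uIcc_of_le (by linarith), uIcc_of_le hp0.le]
        exact Icc_subset_Icc le_rfl (by linarith))
  have hI1b : IntervalIntegrable (fun s => Real.exp (-(M * (p - s))) * P (p - s) (F s) y)
      volume (p - h₁) p := hI1.mono_set (by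
        rw [uIcc_of_le (by linarith), uIcc_of_le hp0.le]
        exact Icc_subset_Icc (by linarith) le_rfl)
  have hI2a : IntervalIntegrable (fun s => Real.exp (-(M * (p - h - s))) * P (p - h - s) (F s) y)
      volume 0 (p - h₁) := hI2.mono_set (by
        rw [uIcc_of_le (by linarith), uIcc_of_le hph.le]
        exact Icc_subset_Icc le_rfl (by linarith))
  have hI2b : IntervalIntegrable (fun s => Real.exp (-(M * (p - h - s))) * P (p - h - s) (F s) y)
      volume (p - h₁) (p - h) := hI2.mono_set (by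
        rw [uIcc_of_le (by linarith), uIcc_of_le hph.le]
        exact Icc_subset_Icc (by linarith) le_rfl)
  have hFm : ∀ s, Measurable (F s) := fun s => Fe_S_meas hf hgd s
  have hF0 : ∀ s z, 0 ≤ F s z := fun s z => Fe_nonneg hf _
  have hFB : ∀ s z, F s z ≤ M := fun s z => Fe_le hf _
  have s1 : ∫ s in (0:ℝ)..p, Real.exp (-(M * (p - s))) * P (p - s) (F s) y =
      (∫ s in (0:ℝ)..(p - h₁), Real.exp (-(M * (p - s))) * P (p - s) (F s) y) +
      ∫ s in (p - h₁)..p, Real.exp (-(M * (p - s))) * P (p - s) (F s) y :=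
    (intervalIntegral.integral_add_adjacent_intervals hI1a hI1b).symm
  have s2 : ∫ s in (0:ℝ)..(p - h), Real.exp (-(M * (p - h - s))) * P (p - h - s) (F s) y =
      (∫ s in (0:ℝ)..(p - h₁), Real.exp (-(M * (p - h - s))) * P (p - h - s) (F s) y) +
      ∫ s in (p - h₁)..(p - h), Real.exp (-(M * (p - h - s))) * P (p - h - s) (F s) y :=
    (intervalIntegral.integral_add_adjacent_intervals hI2a hI2b).symm
  have s3 : 0 ≤ ∫ s in (p - h₁)..(p - h), Real.exp (-(M * (p - h - s))) *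
      P (p - h - s) (F s) y := by
    rw [intervalIntegral.integral_of_le (by linarith), integral_Ioc_eq_integral_Ioo]
    apply setIntegral_nonneg measurableSet_Ioo
    intro s hs
    exact mul_nonneg (Real.exp_nonneg _) (P_nonneg (by linarith [hs.2]) (hF0 s) y)
  -- the first integral
  have s4 : ∫ s in (0:ℝ)..(p - h₁), Real.exp (-(M * (p - s))) * P (p - s) (F s) y ≤
      (∫ s in (0:ℝ)..(p - h₁), Real.exp (-(M * (p - h - s))) * P (p - h - s) (F s) y) +
      p * (Ω * (CF * (C * Z))) := by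
    have h3 : ∫ s in (0:ℝ)..(p - h₁), Real.exp (-(M * (p - s))) * P (p - s) (F s) y ≤
        ∫ s in (0:ℝ)..(p - h₁), (Real.exp (-(M * (p - h - s))) * P (p - h - s) (F s) y +
          Ω * (CF * (C * Z))) := by
      apply intervalIntegral.integral_mono_on_of_le_Ioo (by linarith) hI1a
        (hI2a.add intervalIntegrable_const)
      intro s hs
      have h4 := htime (p - s) (by linarith [hs.2]) (F s) M (hFm s) (hF0 s) (hFB s)
      have e5 : p - s - h = p - h - s := by ring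
      rw [e5] at h4
      have h5 := har_PF hf hgd hs.1 (show s ≤ p by linarith [hs.2])
        (show 0 < 2 * (p - s) by linarith [hs.2]) y
      have h6 : P (2 * (p - s) + s) g y ≤ C * Z :=
        hPZ _ ⟨by linarith [hs.2], by linarith [hs.1]⟩
      have h7 : P (2 * (p - s)) (F s) y ≤ CF * (C * Z) :=
        h5.trans (mul_le_mul_of_nonneg_left h6 hCF0.le)
      have h8 := mul_le_mul_of_nonneg_left h7 hΩ0
      linarith
    rw [intervalIntegral.integral_add hI2a intervalIntegrable_const,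
      intervalIntegral.integral_const, smul_eq_mul, sub_zero] at h3
    have h4 : (p - h₁) * (Ω * (CF * (C * Z))) ≤ p * (Ω * (CF * (C * Z))) := by
      apply mul_le_mul_of_nonneg_right (by linarith)
      positivity
    linarith
  -- the second integral
  have s5 : ∫ s in (p - h₁)..p, Real.exp (-(M * (p - s))) * P (p - s) (F s) y ≤
      h₁ * (CF * (C * Z)) := by
    have h3 : ∫ s in (p - h₁)..p, Real.exp (-(M * (p - s))) * P (p - s) (F s) y ≤
        ∫ s in (p - h₁)..p, CF * (C * Z) := by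
      apply intervalIntegral.integral_mono_on_of_le_Ioo (by linarith) hI1b
        intervalIntegrable_const
      intro s hs
      have hs0 : 0 < s := by linarith [hs.1]
      have hps : 0 < p - s := by linarith [hs.2]
      have h5 := har_PF hf hgd hs0 hs.2.le hps y
      have e6 : p - s + s = p := by ring
      rw [e6] at h5
      have h6 : P p g y ≤ C * Z := hPZ _ ⟨le_rfl, by linarith⟩
      have h7 : P (p - s) (F s) y ≤ CF * (C * Z) :=
        h5.trans (mul_le_mul_of_nonneg_left h6 hCF0.le)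
      have h8 : Real.exp (-(M * (p - s))) ≤ 1 := by
        apply Real.exp_le_one_iff.mpr
        have : 0 ≤ M * (p - s) := by positivity
        linarith
      calc Real.exp (-(M * (p - s))) * P (p - s) (F s) y ≤ 1 * (CF * (C * Z)) :=
            mul_le_mul h8 h7 (P_nonneg hps (hF0 s) y) zero_le_one
        _ = _ := one_mul _
    rw [intervalIntegral.integral_const, smul_eq_mul] at h3
    have e7 : p - (p - h₁) = h₁ := by ring
    rw [e7] at h3
    exact h3
  -- the free term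
  have s6 : Real.exp (-(M * p)) * P p g y ≤ Real.exp (-(M * (p - h))) * P (p - h) g y +
      Ω * (C * Z) := by
    have h3 := htime p hh1p g 1 hgd.meas hg0 hgB
    have h4 := mul_le_mul_of_nonneg_left (hPZ (2 * p) ⟨by linarith, le_rfl⟩) hΩ0
    linarith
  -- the total
  have hψ0 : 0 ≤ ψ t x := ((hψ.dat t).mem x).1
  have s7 : Ω * (1 + p * CF) * Q ≤ ε / 2 := by
    have h3 : Ω * (1 + p * CF) * Q = h * (4 * K * (1 + p * CF) * Q / h₁) := by
      rw [hΩ]; field_simp
    rw [h3]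
    calc h * (4 * K * (1 + p * CF) * Q / h₁)
        ≤ ε * h₁ / (8 * K * (1 + p * CF) * Q) * (4 * K * (1 + p * CF) * Q / h₁) := by gcongr
      _ = ε / 2 := by
          field_simp
          norm_num
  have s8 : Ω * (C * Z) + p * (Ω * (CF * (C * Z))) + h₁ * (CF * (C * Z)) ≤ ε * ψ t x := by
    have e8 : Ω * (C * Z) + p * (Ω * (CF * (C * Z))) + h₁ * (CF * (C * Z)) =
        (Ω * (1 + p * CF) + h₁ * CF) * (C * Z) := by ring
    rw [e8]
    have h3 : 0 ≤ Ω * (1 + p * CF) + h₁ * CF := by positivity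
    calc (Ω * (1 + p * CF) + h₁ * CF) * (C * Z) ≤ (Ω * (1 + p * CF) + h₁ * CF) * (Q * ψ t x) := by
          gcongr
      _ = (Ω * (1 + p * CF) * Q + h₁ * (CF * Q)) * ψ t x := by ring
      _ ≤ (ε / 2 + ε / 2) * ψ t x := by gcongr
      _ = ε * ψ t x := by ring
  rw [s1, s2]
  linarith

end

end Pool.Agent.AP157
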