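import Pool.Agent.AP157.Wk
import Pool.Agent.AP157.Reg
import Pool.Agent.AP157.Ass

/-!
# Explicit conditions on the nonlinearity

`AP157/Ass.lean` has near_of, decr_of, derivWithin_cont, deriv_of_Ioo.
mn_of.  at0: derivWithin is within ε of m on [0,d] (continuity), mean value theorem both ways (decr_of for f and for -f, or Convex.mul_sub_le_image_sub_of_le_deriv).  at1: derivWithin f (Icc 0 1) 1 ≤ 0 since f > 0 = f 1 on (0,1) (difference quotients), near_of at 1, decr_of.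
sub_of_deriv: mean value theorem, f(a+b) - f a ≤ m b.
sub_of_pow: C ≥ c > 0 (s = 1).  A := max 1 ((C/c)^{1/β}): A^β c ≥ C.  With s = a+b ≤ 1/A ≤ 1: f(As) ≤ mAs - c A^{1+β} s^{1+β} ≤ mAs - A C s^{1+β} ≤ mAs - A C a^{1+β} ≤ A (f a + m b).
-/

set_option autoImplicit false

open MeasureTheory Real Set Filter Topology
open scoped ENNReal

namespace Pool.Agent.AP157

open Pool.Agent.X297.KP

noncomputable section

variable {N : ℕ} {f : ℝ → ℝ} {M m : ℝ}

theorem ktwo_neg (hf : ContDiffOn ℝ 1 f (Icc 0 1)) : ContDiffOn ℝ 1 (fun x => - f x) (Icc 0 1) :=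
  hf.neg

theorem ktwo_dneg (x : ℝ) :
    derivWithin (fun x => - f x) (Icc 0 1) x = - derivWithin f (Icc 0 1) x := by
  simpa using (derivWithin.fun_neg (f := f) (s := Icc (0:ℝ) 1) (x := x))

theorem ktwo_at1 (hf : ContDiffOn ℝ 1 f (Icc 0 1)) (h1 : f 1 = 0)
    (hpos : ∀ s ∈ Ioo (0:ℝ) 1, 0 < f s) : derivWithin f (Icc 0 1) 1 ≤ 0 := by
  have hd : HasDerivWithinAt f (derivWithin f (Icc 0 1) 1) (Icc 0 1) 1 :=
    (hf.differentiableOn one_ne_zero 1 ⟨zero_le_one, le_rfl⟩).hasDerivWithinAt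
  have hd2 := hd.mono (t := Icc (0:ℝ) 1) (s := Ioo (0:ℝ) 1) Ioo_subset_Icc_self
  rw [hasDerivWithinAt_iff_tendsto_slope' (by simp)] at hd2
  have : (𝓝[Ioo (0:ℝ) 1] 1).NeBot := by
    rw [nhdsWithin_Ioo_eq_nhdsLT zero_lt_one]
    infer_instance
  apply le_of_tendsto hd2
  filter_upwards [self_mem_nhdsWithin] with x hx
  rw [slope_def_field, h1]
  apply div_nonpos_of_nonneg_of_nonpos
  · have := hpos x hx
    linarith
  · linarith [hx.2]

theorem mn_of (hf : ContDiffOn ℝ 1 f (Icc 0 1)) (h1 : f 1 = 0)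
    (hpos : ∀ s ∈ Ioo (0:ℝ) 1, 0 < f s) (hm : 0 < derivWithin f (Icc 0 1) 0) :
    Mn f (derivWithin f (Icc 0 1) 0) := by
  refine ⟨hpos, hm, fun ε hε => ?_, fun ε hε => ?_⟩
  · obtain ⟨d₁, hd₁, hn₁⟩ := near_of hf (x₀ := 0) (c := derivWithin f (Icc 0 1) 0 + ε)
      ⟨le_rfl, zero_le_one⟩ (by linarith)
    obtain ⟨d₂, hd₂, hn₂⟩ := near_of (ktwo_neg hf) (x₀ := 0)
      (c := -(derivWithin f (Icc 0 1) 0 - ε)) ⟨le_rfl, zero_le_one⟩
      (by rw [ktwo_dneg]; linarith)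
    refine ⟨min 1 (min d₁ d₂), lt_min one_pos (lt_min hd₁ hd₂), min_le_left _ _, ?_⟩
    intro a b ha hab hb
    have hb1 : b ≤ 1 := hb.trans (min_le_left _ _)
    have hbd1 : b ≤ d₁ := hb.trans ((min_le_right _ _).trans (min_le_left _ _))
    have hbd2 : b ≤ d₂ := hb.trans ((min_le_right _ _).trans (min_le_right _ _))
    constructor
    · have := decr_of (ktwo_neg hf) (a := 0) (b := b) (c := -(derivWithin f (Icc 0 1) 0 - ε))
        le_rfl hb1 (fun x hx => by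
          apply hn₂ x ⟨hx.1, hx.2.trans hb1⟩
          rw [sub_zero, abs_of_nonneg hx.1]
          exact hx.2.trans hbd2) ha hab le_rfl
      linarith
    · exact decr_of hf (a := 0) (b := b) (c := derivWithin f (Icc 0 1) 0 + ε)
        le_rfl hb1 (fun x hx => by
          apply hn₁ x ⟨hx.1, hx.2.trans hb1⟩
          rw [sub_zero, abs_of_nonneg hx.1]
          exact hx.2.trans hbd1) ha hab le_rfl
  · obtain ⟨d₁, hd₁, hn₁⟩ := near_of hf (x₀ := 1) (c := ε) ⟨zero_le_one, le_rfl⟩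
      (lt_of_le_of_lt (ktwo_at1 hf h1 hpos) hε)
    refine ⟨min 1 d₁, lt_min one_pos hd₁, min_le_left _ _, ?_⟩
    intro a b ha hab hb
    have h2 : min 1 d₁ ≤ 1 := min_le_left _ _
    have h3 : min 1 d₁ ≤ d₁ := min_le_right _ _
    have ha0 : 0 ≤ a := by linarith
    exact decr_of hf (a := a) (b := 1) (c := ε) ha0 le_rfl (fun x hx => by
          apply hn₁ x ⟨ha0.trans hx.1, hx.2⟩
          rw [abs_sub_comm, abs_of_nonneg (by linarith [hx.2])]
          linarith [hx.1]) le_rfl hab hb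

theorem sub_of_deriv (hf : ContDiffOn ℝ 1 f (Icc 0 1)) {m : ℝ}
    (h : ∀ s ∈ Icc (0:ℝ) 1, derivWithin f (Icc 0 1) s ≤ m) : SubA f m 1 := by
  refine ⟨le_rfl, fun a b ha hb hab => ?_⟩
  rw [one_mul] at hab ⊢
  rw [one_mul]
  have := decr_of hf (a := 0) (b := 1) (c := m) le_rfl le_rfl h (q := a) (p := a + b) ha
    (by linarith) hab
  linarith

theorem sub_of_pow {m β c C : ℝ} (hm : 0 < m) (hβ : 0 < β) (hc : 0 < c)
    (h : ∀ s ∈ Icc (0:ℝ) 1, c * s ^ (1 + β) ≤ m * s - f s ∧ m * s - f s ≤ C * s ^ (1 + β)) :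
    ∃ A, SubA f m A := by
  have hcC : c ≤ C := by
    have := h 1 ⟨zero_le_one, le_rfl⟩
    rw [Real.one_rpow] at this
    linarith [this.1, this.2]
  have hC : 0 < C := hc.trans_le hcC
  have hA : 1 ≤ (C / c) ^ (1 / β) :=
    Real.one_le_rpow ((one_le_div hc).mpr hcC) (by positivity)
  set A : ℝ := (C / c) ^ (1 / β) with hAdef
  have hA0 : 0 < A := by linarith
  have hAβ : A ^ β = C / c := by
    rw [hAdef, ← Real.rpow_mul (by positivity), one_div, inv_mul_cancel₀ hβ.ne', Real.rpow_one]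
  refine ⟨A, hA, fun a b ha hb hab => ?_⟩
  have hs : 0 ≤ a + b := by linarith
  have hAs : 0 ≤ A * (a + b) := by positivity
  have ha1 : a ≤ 1 := by nlinarith
  have e1 := (h (A * (a + b)) ⟨hAs, hab⟩).1
  have e2 := (h a ⟨ha, ha1⟩).2
  have e3 : (A * (a + b)) ^ (1 + β) = A * (C / c) * (a + b) ^ (1 + β) := by
    rw [Real.mul_rpow hA0.le hs, Real.rpow_add hA0, Real.rpow_one, hAβ]
  have e4 : a ^ (1 + β) ≤ (a + b) ^ (1 + β) :=
    Real.rpow_le_rpow ha (by linarith) (by linarith)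
  rw [e3] at e1
  have e5 : c * (A * (C / c) * (a + b) ^ (1 + β)) = A * (C * (a + b) ^ (1 + β)) := by
    field_simp
  rw [e5] at e1
  have e6 : A * (C * a ^ (1 + β)) ≤ A * (C * (a + b) ^ (1 + β)) := by gcongr
  have e7 : A * (m * a - f a) ≤ A * (C * a ^ (1 + β)) := by gcongr
  nlinarith

end

end Pool.Agent.AP157
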