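import Pool.Agent.AP157.Defs

/-!
# Approximate rays

-/

set_option autoImplicit false

open MeasureTheory Real Set Filter Topology
open scoped ENNReal

namespace Pool.Agent.AP157

open Pool.Agent.X297.KP

noncomputable section

variable {N : ℕ} {f : ℝ → ℝ} {M : ℝ} {z : Set (E N) → ℝ → E N → ℝ} {α δ ω : ℝ}

/-- Strict convexity of the ball: two steps `p`, `q` which are almost aligned. -/
theorem ray_G {V : Type*} [NormedAddCommGroup V] [InnerProductSpace ℝ V] {p q : V} {P Q ε : ℝ}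
    (hP : 0 < P) (hQ : 0 < Q) (hε : 0 ≤ ε) (hp : ‖p‖ ≤ P) (hq : ‖q‖ ≤ Q)
    (h : P + Q - ε ≤ ‖p + q‖) :
    ‖(P + Q)⁻¹ • (p + q) - P⁻¹ • p‖ ^ 2 ≤ 2 * ε * Q / (P * (P + Q)) := by
  have hPQ : 0 < P + Q := by positivity
  have h1 : (P + Q)⁻¹ • (p + q) - P⁻¹ • p = (P * (P + Q))⁻¹ • (P • q - Q • p) := by
    match_scalars
    · field_simp
      ring
    · field_simp
  have h2 : ‖P • q - Q • p‖ ^ 2 = P * (P + Q) * ‖q‖ ^ 2 + Q * (P + Q) * ‖p‖ ^ 2 -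
      P * Q * ‖p + q‖ ^ 2 := by
    rw [norm_sub_sq_real, norm_add_sq_real, norm_smul, norm_smul, real_inner_smul_left,
      real_inner_smul_right, Real.norm_of_nonneg hP.le, Real.norm_of_nonneg hQ.le,
      real_inner_comm q p]
    ring
  have h3 : (P + Q) ^ 2 - 2 * ε * (P + Q) ≤ ‖p + q‖ ^ 2 := by
    rcases le_or_gt ε (P + Q) with h4 | h4
    · have h5 : (P + Q - ε) ^ 2 ≤ ‖p + q‖ ^ 2 := pow_le_pow_left₀ (by linarith) h 2
      nlinarith [sq_nonneg ε]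
    · have : 0 ≤ ‖p + q‖ ^ 2 := by positivity
      nlinarith
  have h4 : ‖p‖ ^ 2 ≤ P ^ 2 := pow_le_pow_left₀ (norm_nonneg _) hp 2
  have h5 : ‖q‖ ^ 2 ≤ Q ^ 2 := pow_le_pow_left₀ (norm_nonneg _) hq 2
  have h6 : ‖P • q - Q • p‖ ^ 2 ≤ P * Q * (2 * ε * (P + Q)) := by
    rw [h2]
    have h7 := mul_le_mul_of_nonneg_left h5 (by positivity : 0 ≤ P * (P + Q))
    have h8 := mul_le_mul_of_nonneg_left h4 (by positivity : 0 ≤ Q * (P + Q))
    have h9 := mul_le_mul_of_nonneg_left h3 (by positivity : 0 ≤ P * Q)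
    nlinarith
  rw [h1, norm_smul, mul_pow, Real.norm_eq_abs, sq_abs]
  calc (P * (P + Q))⁻¹ ^ 2 * ‖P • q - Q • p‖ ^ 2
      ≤ (P * (P + Q))⁻¹ ^ 2 * (P * Q * (2 * ε * (P + Q))) :=
        mul_le_mul_of_nonneg_left h6 (by positivity)
    _ = 2 * ε * Q / (P * (P + Q)) := by
        field_simp

/-- the scale function -/
def rayu (t : ℝ) : ℝ := t ^ (-(1/4) : ℝ)

theorem rayu_nonneg {t : ℝ} (ht : 0 < t) : 0 ≤ rayu t := Real.rpow_nonneg ht.le _

theorem rayu_sq {t : ℝ} (ht : 0 < t) : rayu t ^ 2 = (√t)⁻¹ := by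
  unfold rayu
  rw [← Real.rpow_natCast, ← Real.rpow_mul ht.le, Real.sqrt_eq_rpow, ← Real.rpow_neg ht.le]
  norm_num

theorem rayu_two {t : ℝ} (ht : 0 < t) : rayu (2 * t) ≤ 7 / 8 * rayu t := by
  unfold rayu
  rw [Real.mul_rpow (by norm_num) ht.le]
  refine mul_le_mul_of_nonneg_right ?_ (Real.rpow_nonneg ht.le _)
  have h1 : ((2:ℝ) ^ (-(1/4) : ℝ)) ^ 4 = 1 / 2 := by
    rw [← Real.rpow_natCast, ← Real.rpow_mul (by norm_num)]
    norm_num [Real.rpow_neg]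
  by_contra h
  push Not at h
  have h2 : (7 / 8 : ℝ) ^ 4 < ((2:ℝ) ^ (-(1/4) : ℝ)) ^ 4 := pow_lt_pow_left₀ h (by norm_num)
    (by norm_num)
  rw [h1] at h2
  norm_num at h2

theorem rayu_anti {s t : ℝ} (hs : 0 < s) (hst : s ≤ t) : rayu t ≤ rayu s := by
  unfold rayu
  exact Real.rpow_le_rpow_of_nonpos hs hst (by norm_num)

/-- from a bound on the square to a bound on the norm -/
theorem ray_sq {a c t : ℝ} (hc : 0 ≤ c) (ht : 0 < t) (h : a ^ 2 ≤ c / √t) :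
    a ≤ √c * rayu t := by
  have h1 : a ^ 2 ≤ (√c * rayu t) ^ 2 := by
    rw [mul_pow, Real.sq_sqrt hc, rayu_sq ht]
    exact h
  exact le_of_sq_le_sq h1 (mul_nonneg (Real.sqrt_nonneg _) (rayu_nonneg ht))

theorem ray_one_add {R : ℝ} (hR : 1 ≤ R) : 1 + √R ≤ 2 * √R := by
  have : 1 ≤ √R := Real.one_le_sqrt.2 hR
  linarith

theorem ray_double {κ C ts D₂ : ℝ} (hκ : 0 < κ) (hC : 0 ≤ C)
    (hD₂ : D₂ = √((7 * C / κ) * √2)) {K : Set (E N)} {τ : E N → ℝ}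
    (hA : Arr κ C ts K τ) {x y : E N} {r₀ d : ℝ} (hr₀ : 1 ≤ r₀)
    (hd : d = Metric.infDist x K) (hbig : ts + C * (1 + √(2 * d)) ≤ κ * d / 2)
    (hxy : ‖x - y‖ ≤ r₀) (hτ : τ y ≤ τ x - κ * r₀ + C * (1 + √r₀)) :
    ∀ j : ℕ, 2 ^ j * r₀ ≤ d / 8 → ∃ y' : E N, ‖x - y'‖ ≤ 2 ^ j * r₀ ∧
      τ y' ≤ τ x - κ * (2 ^ j * r₀) + 5 * C * √(2 ^ j * r₀) ∧
      ‖(2 ^ j * r₀)⁻¹ • (x - y') - r₀⁻¹ • (x - y)‖ ≤
        8 * D₂ * (rayu r₀ - rayu (2 ^ j * r₀)) := by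
  intro j
  induction j with
  | zero =>
    intro _
    refine ⟨y, by simpa using hxy, ?_, by simp⟩
    have h1 := mul_le_mul_of_nonneg_left (ray_one_add hr₀) hC
    have h2 : 0 ≤ C * √r₀ := by positivity
    simp only [pow_zero, one_mul]
    linarith
  | succ j ih =>
    intro hj
    set R : ℝ := 2 ^ j * r₀ with hR
    have h2R : (2:ℝ) ^ (j + 1) * r₀ = 2 * R := by rw [hR, pow_succ]; ring
    rw [h2R] at hj ⊢
    have hR1 : 1 ≤ R := one_le_mul_of_one_le_of_one_le (one_le_pow₀ (by norm_num)) hr₀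
    have hR0 : 0 < R := by linarith
    obtain ⟨y₁, hy1, hy2, hy3⟩ := ih (by linarith)
    have hd1 : Metric.infDist x K ≤ Metric.infDist y₁ K + R :=
      (Metric.infDist_le_infDist_add_dist (y := y₁)).trans (by
        rw [dist_eq_norm]
        linarith)
    have hd2 : Metric.infDist y₁ K ≤ Metric.infDist x K + R :=
      (Metric.infDist_le_infDist_add_dist (y := x)).trans (by
        rw [dist_eq_norm, norm_sub_rev]
        linarith)
    rw [← hd] at hd1 hd2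
    have hs1 : √(Metric.infDist y₁ K) ≤ √(2 * d) := Real.sqrt_le_sqrt (by linarith)
    have hl := hA.lower y₁
    have hhole : ts + κ * R ≤ τ y₁ := by
      have h1 := mul_le_mul_of_nonneg_left hs1 hC
      have h2 := mul_le_mul_of_nonneg_left (by linarith : d - R ≤ Metric.infDist y₁ K) hκ.le
      have h3 := mul_le_mul_of_nonneg_left (by linarith : R ≤ d / 16) hκ.le
      have h4 : 0 ≤ κ * d := mul_nonneg hκ.le (by linarith)
      linarith
    obtain ⟨y₂, hz1, hz2⟩ := hA.hole y₁ R hR0.le hhole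
    have hsR : √(2 * R) = √2 * √R := Real.sqrt_mul (by norm_num : (0:ℝ) ≤ 2) R
    have hsq2 : (7 / 5 : ℝ) ≤ √2 := Real.le_sqrt_of_sq_le (by norm_num)
    have hsRpos : 0 ≤ √R := Real.sqrt_nonneg R
    have hxy2 : ‖x - y₂‖ ≤ 2 * R := by
      calc ‖x - y₂‖ = ‖(x - y₁) + (y₁ - y₂)‖ := by rw [sub_add_sub_cancel]
        _ ≤ ‖x - y₁‖ + ‖y₁ - y₂‖ := norm_add_le _ _
        _ ≤ 2 * R := by linarith
    have hτ2 : τ y₂ ≤ τ x - κ * (2 * R) + 5 * C * √(2 * R) := by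
      have h1 := mul_le_mul_of_nonneg_left (ray_one_add hR1) hC
      have h2 : 5 * C * √R + C * (2 * √R) ≤ 5 * C * √(2 * R) := by
        rw [hsR]
        have h3 := mul_le_mul_of_nonneg_right hsq2 (mul_nonneg hC hsRpos)
        linarith
      linarith
    refine ⟨y₂, hxy2, hτ2, ?_⟩
    -- the lower bound for the distance
    have hlip := hA.lip y₂ x
    rw [norm_sub_rev] at hlip
    have hs3 : √‖x - y₂‖ ≤ √(2 * R) := Real.sqrt_le_sqrt hxy2
    have hε : 2 * R - (7 * C / κ) * √(2 * R) ≤ ‖x - y₂‖ := by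
      have h1 := mul_le_mul_of_nonneg_left hs3 hC
      have h2 := mul_le_mul_of_nonneg_left (ray_one_add (by linarith : 1 ≤ 2 * R)) hC
      have h3 : κ * (2 * R) - 7 * C * √(2 * R) ≤ κ * ‖x - y₂‖ := by linarith
      have h4 : κ * (2 * R - (7 * C / κ) * √(2 * R)) = κ * (2 * R) - 7 * C * √(2 * R) := by
        field_simp
      rw [← h4] at h3
      exact le_of_mul_le_mul_left h3 hκ
    have hG := ray_G hR0 hR0 (ε := (7 * C / κ) * √(2 * R)) (by positivity) hy1 hz1 (by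
      rw [sub_add_sub_cancel]
      linarith)
    rw [sub_add_sub_cancel, ← two_mul] at hG
    have hG2 : ‖(2 * R)⁻¹ • (x - y₂) - R⁻¹ • (x - y₁)‖ ≤ D₂ * rayu R := by
      rw [hD₂]
      apply ray_sq (by positivity) hR0
      refine hG.trans (le_of_eq ?_)
      rw [hsR]
      have h1 : √R * √R = R := Real.mul_self_sqrt hR0.le
      have h2 : 0 < √R := by positivity
      rw [div_eq_div_iff (by positivity) h2.ne']
      linear_combination (2 * (7 * C / κ) * √2 * R) * h1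
    have hu := rayu_two hR0
    have hD₂0 : 0 ≤ D₂ := by rw [hD₂]; positivity
    have h8 : D₂ * rayu R ≤ 8 * D₂ * (rayu R - rayu (2 * R)) := by
      have := mul_le_mul_of_nonneg_left hu hD₂0
      linarith
    calc ‖(2 * R)⁻¹ • (x - y₂) - r₀⁻¹ • (x - y)‖
        = ‖((2 * R)⁻¹ • (x - y₂) - R⁻¹ • (x - y₁)) + (R⁻¹ • (x - y₁) - r₀⁻¹ • (x - y))‖ := by
          rw [sub_add_sub_cancel]
      _ ≤ ‖(2 * R)⁻¹ • (x - y₂) - R⁻¹ • (x - y₁)‖ + ‖R⁻¹ • (x - y₁) - r₀⁻¹ • (x - y)‖ :=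
          norm_add_le _ _
      _ ≤ 8 * D₂ * (rayu R - rayu (2 * R)) + 8 * D₂ * (rayu r₀ - rayu R) :=
          add_le_add (hG2.trans h8) hy3
      _ = 8 * D₂ * (rayu r₀ - rayu (2 * R)) := by ring

theorem ray_large {κ C ts : ℝ} (hκ : 0 < κ) (hC : 0 ≤ C) :
    ∃ d₁ : ℝ, ∀ d, d₁ ≤ d → 1 ≤ d → ts + C * (1 + √(2 * d)) ≤ κ * d / 2 := by
  -- `√(2 d) ≤ 1 + η d` with `η` small
  refine ⟨2 * (2 * (ts + C) / κ) + (8 * C / κ) ^ 2 * 2, fun d hd h1 => ?_⟩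
  have h2 : √(2 * d) * (8 * C) ≤ κ * (2 * d) + κ * ((8 * C / κ) ^ 2) := by
    have h3 : 0 ≤ (√(2 * d) - 8 * C / κ) ^ 2 := sq_nonneg _
    have h4 : √(2 * d) ^ 2 = 2 * d := Real.sq_sqrt (by linarith)
    have h5 : 8 * C = κ * (8 * C / κ) := by field_simp
    have h6 : 2 * (√(2 * d) * (8 * C / κ)) ≤ 2 * d + (8 * C / κ) ^ 2 := by linarith
    have h7 : √(2 * d) * (8 * C / κ) ≤ 2 * d + (8 * C / κ) ^ 2 := by
      have : 0 ≤ √(2 * d) * (8 * C / κ) := by positivity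
      linarith
    have h8 := mul_le_mul_of_nonneg_left h7 hκ.le
    calc √(2 * d) * (8 * C) = κ * (√(2 * d) * (8 * C / κ)) := by field_simp
      _ ≤ _ := by rw [← mul_add]; exact h8
  have h3 := mul_le_mul_of_nonneg_left hd hκ.le
  have h4 : κ * (2 * (2 * (ts + C) / κ) + (8 * C / κ) ^ 2 * 2) =
      4 * (ts + C) + 2 * (κ * (8 * C / κ) ^ 2) := by
    field_simp
    ring
  rw [h4] at h3
  have h5 : 0 ≤ κ * (8 * C / κ) ^ 2 := by positivity
  linarith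

theorem ray {κ C ts : ℝ} (hκ : 0 < κ) (hC : 0 ≤ C) (hts : 0 ≤ ts) : ∃ D : ℝ, 0 < D ∧
    ∀ r₀ : ℝ, 1 ≤ r₀ → ∃ d₀ : ℝ, 0 < d₀ ∧ ∀ (K : Set (E N)) (τ : E N → ℝ), K.Nonempty →
      Arr κ C ts K τ → ∀ x y : E N, d₀ ≤ Metric.infDist x K → ‖x - y‖ ≤ r₀ →
      τ y ≤ τ x - κ * r₀ + C * (1 + √r₀) →
      ∃ ξ ∈ K, ‖x - ξ‖ ≤ Metric.infDist x K + D * √(Metric.infDist x K) ∧
        ‖(Metric.infDist x K)⁻¹ • (x - ξ) - r₀⁻¹ • (x - y)‖ ≤ D * r₀ ^ (-(1/4) : ℝ) := by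
  obtain ⟨d₁, hd₁⟩ := ray_large (ts := ts) hκ hC
  set D₂ : ℝ := √((7 * C / κ) * √2) with hD₂
  set D₇ : ℝ := 10 * C / κ + 1 with hD₇
  have hD₂0 : 0 ≤ D₂ := Real.sqrt_nonneg _
  have hD₇0 : 1 ≤ D₇ := by
    have : 0 ≤ 10 * C / κ := by positivity
    linarith
  refine ⟨D₇ + √(32 * D₇) + 8 * D₂, by positivity, fun r₀ hr₀ =>
    ⟨max (16 * r₀) d₁, lt_of_lt_of_le (by linarith) (le_max_left _ _), ?_⟩⟩
  intro K τ hK hA x y hd hxy hτ
  set d : ℝ := Metric.infDist x K with hdd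
  have hd16 : 16 * r₀ ≤ d := (le_max_left _ _).trans hd
  have hdpos : 0 < d := by linarith
  have hbig := hd₁ d ((le_max_right _ _).trans hd) (by linarith)
  -- the number of steps
  obtain ⟨j, hj1, hj2⟩ := exists_nat_pow_near (x := d / (8 * r₀)) (y := (2:ℝ)) (by
    rw [le_div_iff₀ (by linarith)]
    linarith) (by norm_num)
  have hr8 : 0 < 8 * r₀ := by linarith
  rw [le_div_iff₀ hr8] at hj1
  rw [div_lt_iff₀ hr8, pow_succ] at hj2
  obtain ⟨y', h1, h2, h3⟩ := ray_double hκ hC hD₂ hA hr₀ hdd hbig hxy hτ j (by linarith)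
  set R : ℝ := 2 ^ j * r₀ with hR
  have hR8 : R ≤ d / 8 := by rw [hR]; linarith
  have hR16 : d / 16 < R := by rw [hR]; linarith
  have hR0 : 0 < R := by linarith
  have hRr : r₀ ≤ R := by
    have : (1:ℝ) ≤ 2 ^ j := one_le_pow₀ (by norm_num)
    linarith
  -- the point of `K`
  obtain ⟨ξ, hξK, hξ⟩ := (Metric.infDist_lt_iff hK).1
    (lt_add_one (Metric.infDist y' K))
  rw [dist_eq_norm] at hξ
  have hd2 : Metric.infDist y' K ≤ d + R :=
    (Metric.infDist_le_infDist_add_dist (y := x)).trans (by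
      rw [dist_eq_norm, norm_sub_rev]
      linarith)
  have hs1 : √(Metric.infDist y' K) ≤ 2 * √d := by
    have : 2 * √d = √(4 * d) := by
      rw [Real.sqrt_mul (by norm_num), show (4:ℝ) = 2 ^ 2 by norm_num,
        Real.sqrt_sq (by norm_num)]
    rw [this]
    exact Real.sqrt_le_sqrt (by linarith)
  have hsd1 : 1 ≤ √d := Real.one_le_sqrt.2 (by linarith)
  have hsR : √R ≤ √d := Real.sqrt_le_sqrt (by linarith)
  have hlow := hA.lower y'
  have hup := hA.upper x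
  rw [← hdd] at hup
  have hdist : Metric.infDist y' K ≤ d - R + (10 * C / κ) * √d := by
    have e1 := mul_le_mul_of_nonneg_left hs1 hC
    have e2 := mul_le_mul_of_nonneg_left hsR hC
    have e3 := mul_le_mul_of_nonneg_left hsd1 hC
    have e4 : κ * Metric.infDist y' K ≤ κ * (d - R) + 10 * C * √d := by linarith
    have e5 : κ * (d - R) + 10 * C * √d = κ * (d - R + (10 * C / κ) * √d) := by
      field_simp
    rw [e5] at e4
    exact le_of_mul_le_mul_left e4 hκ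
  have hq : ‖y' - ξ‖ ≤ d - R + D₇ * √d := by
    rw [hD₇]
    linarith
  have hsd0 : 0 < √d := by linarith
  have hDs : 0 ≤ D₇ * √d := by positivity
  have hxξ1 : ‖x - ξ‖ ≤ d + D₇ * √d := by
    calc ‖x - ξ‖ = ‖(x - y') + (y' - ξ)‖ := by rw [sub_add_sub_cancel]
      _ ≤ ‖x - y'‖ + ‖y' - ξ‖ := norm_add_le _ _
      _ ≤ d + D₇ * √d := by linarith
  have hxξ2 : d ≤ ‖x - ξ‖ := by
    rw [← dist_eq_norm]
    exact Metric.infDist_le_dist_of_mem hξK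
  refine ⟨ξ, hξK, ?_, ?_⟩
  · refine hxξ1.trans ?_
    have : 0 ≤ (√(32 * D₇) + 8 * D₂) * √d := by positivity
    linarith
  -- the direction
  have hQ : 0 < d - R + D₇ * √d := by linarith
  have hG := ray_G hR0 hQ hDs h1 hq (by
    rw [sub_add_sub_cancel]
    linarith)
  have hPQ : R + (d - R + D₇ * √d) = d + D₇ * √d := by ring
  rw [sub_add_sub_cancel, hPQ] at hG
  have hT0 : 0 < d + D₇ * √d := by linarith
  have hss : √d * √d = d := Real.mul_self_sqrt hdpos.le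
  have hud : rayu d ≤ rayu r₀ := rayu_anti (by linarith) (by linarith)
  have hG2 : ‖(d + D₇ * √d)⁻¹ • (x - ξ) - R⁻¹ • (x - y')‖ ≤ √(32 * D₇) * rayu d := by
    apply ray_sq (by positivity) hdpos
    refine hG.trans ?_
    have e1 : 2 * (D₇ * √d) * (d - R + D₇ * √d) / (R * (d + D₇ * √d)) ≤
        2 * (D₇ * √d) * (d + D₇ * √d) / (R * (d + D₇ * √d)) := by
      apply div_le_div_of_nonneg_right _ (by positivity)
      apply mul_le_mul_of_nonneg_left (by linarith) (by positivity)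
    refine e1.trans ?_
    rw [mul_div_mul_right _ _ hT0.ne', div_le_div_iff₀ hR0 hsd0]
    have e2 := mul_le_mul_of_nonneg_left hR16.le (by linarith : 0 ≤ 32 * D₇)
    calc 2 * (D₇ * √d) * √d = 2 * D₇ * (√d * √d) := by ring
      _ = 32 * D₇ * (d / 16) := by rw [hss]; ring
      _ ≤ 32 * D₇ * R := e2
  have hG3 : ‖d⁻¹ • (x - ξ) - (d + D₇ * √d)⁻¹ • (x - ξ)‖ ≤ D₇ * rayu d := by
    rw [← sub_smul, norm_smul]
    have e1 : d⁻¹ - (d + D₇ * √d)⁻¹ = (D₇ * √d) / (d * (d + D₇ * √d)) := by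
      field_simp
      ring
    rw [e1, Real.norm_of_nonneg (by positivity)]
    have e2 : (D₇ * √d) / (d * (d + D₇ * √d)) * ‖x - ξ‖ ≤
        (D₇ * √d) / (d * (d + D₇ * √d)) * (d + D₇ * √d) :=
      mul_le_mul_of_nonneg_left hxξ1 (by positivity)
    refine e2.trans ?_
    have e3 : (D₇ * √d) / (d * (d + D₇ * √d)) * (d + D₇ * √d) = D₇ * (√d)⁻¹ := by
      rw [div_mul_eq_mul_div, mul_div_mul_right _ _ hT0.ne', ← div_eq_mul_inv,
        div_eq_div_iff hdpos.ne' hsd0.ne', mul_assoc, hss]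
    rw [e3]
    refine mul_le_mul_of_nonneg_left ?_ (by linarith)
    rw [← rayu_sq hdpos]
    have e4 : rayu d ≤ 1 := by
      unfold rayu
      exact Real.rpow_le_one_of_one_le_of_nonpos (by linarith) (by norm_num)
    nlinarith [rayu_nonneg hdpos]
  have hur : 0 ≤ rayu R := rayu_nonneg hR0
  change _ ≤ (D₇ + √(32 * D₇) + 8 * D₂) * rayu r₀
  calc ‖d⁻¹ • (x - ξ) - r₀⁻¹ • (x - y)‖
      = ‖(d⁻¹ • (x - ξ) - (d + D₇ * √d)⁻¹ • (x - ξ)) +
          ((d + D₇ * √d)⁻¹ • (x - ξ) - R⁻¹ • (x - y')) +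
          (R⁻¹ • (x - y') - r₀⁻¹ • (x - y))‖ := by
        rw [sub_add_sub_cancel, sub_add_sub_cancel]
    _ ≤ ‖d⁻¹ • (x - ξ) - (d + D₇ * √d)⁻¹ • (x - ξ)‖ +
          ‖(d + D₇ * √d)⁻¹ • (x - ξ) - R⁻¹ • (x - y')‖ +
          ‖R⁻¹ • (x - y') - r₀⁻¹ • (x - y)‖ := norm_add₃_le
    _ ≤ D₇ * rayu d + √(32 * D₇) * rayu d + 8 * D₂ * (rayu r₀ - rayu R) :=
        add_le_add (add_le_add hG3 hG2) h3
    _ ≤ (D₇ + √(32 * D₇) + 8 * D₂) * rayu r₀ := by
        have e1 := mul_le_mul_of_nonneg_left hud (by linarith : 0 ≤ D₇)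
        have e2 := mul_le_mul_of_nonneg_left hud (Real.sqrt_nonneg (32 * D₇))
        have e3 : 0 ≤ 8 * D₂ * rayu R := by positivity
        linarith

end

end Pool.Agent.AP157
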