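import Pool.Agent.AP157.Defs
import Pool.Agent.AP157.Kern

/-!
# Growth of full balls of seeds: planar comparison

Proof.  Constants: ε₀, R₀, C₇ from Z.robust, L' from Z.ps_shift, Cl, cl from Z.loc.  A ≥ 1 is chosen below depending on L, M, cl, N only; s₁ ≥ 1 large depending on A.
Let y ∈ E N with ‖y‖ ≤ R+s.  If ‖y‖ ≤ R use Z.seed_mono.  Otherwise e = y/‖y‖, R < ‖y‖ ≤ R+s, P = {p | ⟪p,e⟫ ≤ R - A²}, and ⟪y,e⟫ = ‖y‖ ≤ (R-A²) + (s+A²).
PS z (s+A²) (T'+L'(1+A²)) by Z.ps_shift, so Seed z P t y with t = T'+L'(1+A²) ≤ L(1+s)+L'(1+A²) ≤ 3 L s for s ≥ s₁.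
Geometry: if p ∈ P and ‖p-y‖ ≤ A s then ‖p‖ ≤ R: ⟪p,e⟫ ≥ ‖y‖ - A s ≥ R - A s ≥ s²-As ≥ 0 (s ≥ A), the component of p orthogonal to e has norm ≤ A s, so ‖p‖² ≤ (R-A²)² + A²s² ≤ (R-A²)²+A²R ≤ R² when R ≥ A².
Z.loc with K = P, K' = closedBall 0 R =: Q, x = y, radius A s: z P 0 y' ≤ z Q 0 y' + Cl exp(-cl A² s²) for ‖y'-y‖ ≤ A s/2.  By S_err with D = Cl exp(-cl A²s²) + 1_{‖y'-y‖>As/2} and P_tail:
for ‖y'-y‖ ≤ A s/4: z P t y' ≤ z Q t y' + e^{2Mt}(Cl exp(-cl A² s²) + 2^{N/2} exp(-(As/4)²/(8t))), t ≤ 3Ls; with A large (A²/(384 L) > 6ML + 1 and so on) this is ≤ z Q t y' + ε₀ for s ≥ s₁ (also As/4 ≥ R₀).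
So w = z Q t satisfies z {y} 0 - ε₀ ≤ z P t - ε₀ ≤ w on ‖y'-y‖ ≤ R₀; Z.robust: Seed z Q (t+C₇) y.  Finally seeds at all points of Q for {0} at time T: Z.seed_comp gives Seed z {0} (T+t+C₇) y.
C = L'(1+A²)+C₇.
-/

set_option autoImplicit false

open MeasureTheory Real Set Filter Topology
open scoped ENNReal

namespace Pool.Agent.AP157

open Pool.Agent.X297.KP

noncomputable section

variable {N : ℕ} {f : ℝ → ℝ} {M : ℝ} {z : Set (E N) → ℝ → E N → ℝ} {α δ ω : ℝ}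

/-! ## Auxiliary lemmas -/

theorem sb_geom {p y : E N} {R A s : ℝ} (hA : 1 ≤ A) (hs : A ≤ s) (hR : s ^ 2 ≤ R)
    (hy : R < ‖y‖) (hp : inner ℝ p (‖y‖⁻¹ • y) ≤ R - A ^ 2) (hpy : ‖p - y‖ ≤ A * s) :
    ‖p‖ ≤ R := by
  have hs1 : 1 ≤ s := hA.trans hs
  have hR0 : 0 < R := lt_of_lt_of_le (by positivity) hR
  have hn : 0 < ‖y‖ := hR0.trans hy
  set n := ‖y‖ with hnd
  set a := inner ℝ p (n⁻¹ • y) with ha
  have h1 : inner ℝ p y = n * a := by
    rw [ha, inner_smul_right]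
    field_simp
  have he : ‖n⁻¹ • y‖ = 1 := by
    rw [norm_smul, norm_inv, Real.norm_eq_abs, abs_of_pos hn, ← hnd]
    field_simp
  have hye : inner ℝ y (n⁻¹ • y) = n := by
    rw [inner_smul_right, real_inner_self_eq_norm_sq, ← hnd]
    field_simp
  have h2 : n - a ≤ A * s := by
    have h3 := real_inner_le_norm (y - p) (n⁻¹ • y)
    rw [inner_sub_left, hye, he, mul_one, norm_sub_rev] at h3
    linarith
  have h3 : ‖p - y‖ ^ 2 = ‖p‖ ^ 2 - 2 * (n * a) + n ^ 2 := by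
    rw [norm_sub_sq_real, h1]
  have h4 : 0 ≤ a := by nlinarith
  have h5 : a ^ 2 ≤ (R - A ^ 2) ^ 2 := pow_le_pow_left₀ h4 hp 2
  have h6 : ‖p - y‖ ^ 2 ≤ (A * s) ^ 2 := pow_le_pow_left₀ (norm_nonneg _) hpy 2
  have h7 : A ^ 2 * s ^ 2 ≤ A ^ 2 * R := mul_le_mul_of_nonneg_left hR (by positivity)
  have h8 : A ^ 2 ≤ R := (pow_le_pow_left₀ (by linarith) hs 2).trans hR
  have h9 : A ^ 2 * A ^ 2 ≤ A ^ 2 * R := mul_le_mul_of_nonneg_left h8 (by positivity)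
  have h10 : ‖p‖ ^ 2 ≤ R ^ 2 := by nlinarith [sq_nonneg (n - a)]
  exact (pow_le_pow_iff_left₀ (norm_nonneg _) hR0.le two_ne_zero).1 h10

theorem sb_err (N : ℕ) {Cl c L M A s t ε₀ : ℝ} (hCl : 0 ≤ Cl) (hM : 0 ≤ M) (hL : 0 < L)
    (ht : 0 < t) (htL : t ≤ 3 * L * s) (hs : 1 ≤ s) (hA1 : 384 * L * (6 * M * L + 1) ≤ A ^ 2)
    (hA2 : 6 * M * L + 1 ≤ c * A ^ 2) (hε : Cl + 2 ^ ((N : ℝ) / 2) ≤ ε₀ * s) :
    Real.exp (2 * M * t) * (Cl * Real.exp (-(c * (A * s) ^ 2)) +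
      2 ^ ((N : ℝ) / 2) * Real.exp (-((A * s / 4) ^ 2 / (8 * t)))) ≤ ε₀ := by
  have hB : 0 ≤ 6 * M * L + 1 := by positivity
  have h2M : 2 * M * t ≤ 6 * M * L * s := by nlinarith
  have hc2 : (0 : ℝ) < 2 ^ ((N : ℝ) / 2) := by positivity
  have h1 : 2 * M * t + -(c * (A * s) ^ 2) ≤ -s := by
    have e1 : c * (A * s) ^ 2 = (c * A ^ 2) * s ^ 2 := by ring
    have e2 : (6 * M * L + 1) * s ^ 2 ≤ (c * A ^ 2) * s ^ 2 :=
      mul_le_mul_of_nonneg_right hA2 (by positivity)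
    have e3 : (6 * M * L + 1) * s ≤ (6 * M * L + 1) * s ^ 2 :=
      mul_le_mul_of_nonneg_left (by nlinarith) hB
    rw [e1]
    nlinarith
  have h2 : 2 * M * t + -((A * s / 4) ^ 2 / (8 * t)) ≤ -s := by
    have e1 : (6 * M * L + 1) * s ≤ (A * s / 4) ^ 2 / (8 * t) := by
      rw [le_div_iff₀ (by positivity)]
      have e2 : (6 * M * L + 1) * s * (8 * t) ≤ (6 * M * L + 1) * s * (8 * (3 * L * s)) :=
        mul_le_mul_of_nonneg_left (by linarith) (by positivity)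
      have e3 : 384 * L * (6 * M * L + 1) * (s ^ 2 / 16) ≤ A ^ 2 * (s ^ 2 / 16) :=
        mul_le_mul_of_nonneg_right hA1 (by positivity)
      nlinarith
    nlinarith
  have h3 : s * Real.exp (-s) ≤ 1 := by
    have e1 := Real.add_one_le_exp s
    have e2 : Real.exp s * Real.exp (-s) = 1 := by rw [← Real.exp_add]; simp
    have e3 : s * Real.exp (-s) ≤ Real.exp s * Real.exp (-s) :=
      mul_le_mul_of_nonneg_right (by linarith) (Real.exp_nonneg _)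
    linarith
  have hε0 : 0 ≤ ε₀ := by
    by_contra hcon
    push Not at hcon
    have : ε₀ * s < 0 := mul_neg_of_neg_of_pos hcon (by linarith)
    linarith
  calc Real.exp (2 * M * t) * (Cl * Real.exp (-(c * (A * s) ^ 2)) +
      2 ^ ((N : ℝ) / 2) * Real.exp (-((A * s / 4) ^ 2 / (8 * t))))
      = Cl * Real.exp (2 * M * t + -(c * (A * s) ^ 2)) +
        2 ^ ((N : ℝ) / 2) * Real.exp (2 * M * t + -((A * s / 4) ^ 2 / (8 * t))) := by
        rw [Real.exp_add, Real.exp_add]; ring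
    _ ≤ Cl * Real.exp (-s) + 2 ^ ((N : ℝ) / 2) * Real.exp (-s) := by
        apply add_le_add
        · exact mul_le_mul_of_nonneg_left (Real.exp_le_exp.2 h1) hCl
        · exact mul_le_mul_of_nonneg_left (Real.exp_le_exp.2 h2) hc2.le
    _ = (Cl + 2 ^ ((N : ℝ) / 2)) * Real.exp (-s) := by ring
    _ ≤ (ε₀ * s) * Real.exp (-s) := mul_le_mul_of_nonneg_right hε (Real.exp_nonneg _)
    _ = ε₀ * (s * Real.exp (-s)) := by ring
    _ ≤ ε₀ * 1 := mul_le_mul_of_nonneg_left h3 hε0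
    _ = ε₀ := mul_one _

/-- comparison of the solutions from two sets that agree in a large ball -/
theorem sb_comp (Z : ZFam f M z) {Cl c : ℝ} (hCl : 0 < Cl) {K K' : Set (E N)} {y : E N} {B t : ℝ}
    (hB : 0 ≤ B) (ht : 0 < t)
    (hloc : ∀ y', ‖y' - y‖ ≤ B / 2 → z K 0 y' ≤ z K' 0 y' + Cl * Real.exp (-(c * B ^ 2)))
    {y' : E N} (hy' : ‖y' - y‖ ≤ B / 4) :
    z K t y' ≤ z K' t y' + Real.exp (2 * M * t) * (Cl * Real.exp (-(c * B ^ 2)) +
      2 ^ ((N : ℝ) / 2) * Real.exp (-((B / 4) ^ 2 / (8 * t)))) := by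
  have hf := Z.nl
  set W : Set (E N) := {w | B / 2 < ‖w - y‖} with hW
  have hWm : MeasurableSet W := measurableSet_lt measurable_const (by fun_prop)
  set κ := Cl * Real.exp (-(c * B ^ 2)) with hκ
  have hκ0 : 0 ≤ κ := by positivity
  have hind : ∀ w, 0 ≤ W.indicator (1 : E N → ℝ) w ∧ W.indicator (1 : E N → ℝ) w ≤ 1 := by
    intro w
    by_cases hw : w ∈ W <;> simp [hw]
  have hDm : Measurable (fun w => κ + W.indicator (1 : E N → ℝ) w) :=
    measurable_const.add (measurable_one.indicator hWm)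
  have h0 : ∀ w, z K 0 w ≤ z K' 0 w + (κ + W.indicator (1 : E N → ℝ) w) := by
    intro w
    by_cases hw : w ∈ W
    · have h1 := ((Z.dat K 0).mem w).2
      have h2 := ((Z.dat K' 0).mem w).1
      rw [indicator_of_mem hw]
      simp only [Pi.one_apply]
      linarith
    · have h1 : ‖w - y‖ ≤ B / 2 := by
        simp only [hW, mem_ofPred_eq, not_lt] at hw
        exact hw
      have h2 := hloc w h1
      rw [indicator_of_notMem hw]
      linarith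
  have h1 := S_err hf (Z.dat K 0) (Z.dat K' 0) hDm (fun w => add_nonneg hκ0 (hind w).1)
    (C := κ + 1) (fun w => by linarith [(hind w).2]) h0 ht y'
  have e1 : z K t y' = S f M t (z K 0) y' := by
    have := Z.flow K 0 t le_rfl ht.le y'
    rwa [zero_add] at this
  have e2 : z K' t y' = S f M t (z K' 0) y' := by
    have := Z.flow K' 0 t le_rfl ht.le y'
    rwa [zero_add] at this
  rw [e1, e2]
  refine h1.trans ?_
  gcongr
  rw [P_add ht measurable_const (measurable_one.indicator hWm) (C := κ + 1)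
    (fun _ => by rw [abs_of_nonneg hκ0]; linarith)
    (fun w => by rw [abs_of_nonneg (hind w).1]; linarith [(hind w).2]), P_const ht]
  gcongr
  apply P_tail ht y' (by positivity) hWm
  intro w hw
  have h3 : B / 2 < ‖w - y‖ := hw
  have h4 : ‖w - y‖ ≤ ‖y' - w‖ + ‖y' - y‖ := by
    have : w - y = (y' - y) - (y' - w) := by abel
    rw [this]
    refine (norm_sub_le _ _).trans ?_
    linarith
  linarith

theorem stepB (Z : ZFam f M z) {L : ℝ} (hL : 0 < L) : ∃ C s₁ : ℝ, 0 ≤ C ∧ 1 ≤ s₁ ∧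
    ∀ s R T T', s₁ ≤ s → s ^ 2 ≤ R → 0 ≤ T → 0 ≤ T' → T' ≤ L * (1 + s) → PS z s T' →
      (∀ y : E N, ‖y‖ ≤ R → Seed z {0} T y) →
      ∀ y : E N, ‖y‖ ≤ R + s → Seed z {0} (T + T' + C) y := by
  have hM := Z.nl.nn
  obtain ⟨ε₀, R₀, C₇, hε₀, hR₀, hC₇, hrob⟩ := Z.robust
  obtain ⟨L', hL', hps⟩ := Z.ps_shift
  obtain ⟨Cl, c, hCl, hc, hloc⟩ := Z.loc
  set B : ℝ := 6 * M * L + 1 with hBd
  have hB : 1 ≤ B := by
    have : 0 ≤ 6 * M * L := by positivity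
    linarith
  set A : ℝ := 1 + 384 * L * B + B / c with hAd
  have hA0 : 0 ≤ 384 * L * B := by positivity
  have hA0' : 0 ≤ B / c := by positivity
  have hA : 1 ≤ A := by linarith
  have hAA : A ≤ A ^ 2 := by nlinarith
  have hA1 : 384 * L * (6 * M * L + 1) ≤ A ^ 2 := by
    rw [← hBd]; linarith
  have hA2 : 6 * M * L + 1 ≤ c * A ^ 2 := by
    rw [← hBd]
    have h1 : B / c ≤ A ^ 2 := by linarith
    rw [div_le_iff₀ hc] at h1
    linarith
  set G : ℝ := L' * (1 + A ^ 2) with hG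
  have hG0 : 0 < G := by positivity
  have hN2 : (0 : ℝ) < 2 ^ ((N : ℝ) / 2) := by positivity
  refine ⟨G + C₇, 1 + A + G / L + (Cl + 2 ^ ((N : ℝ) / 2)) / ε₀ + 4 * R₀, by positivity, ?_, ?_⟩
  · have h1 : 0 ≤ G / L := by positivity
    have h2 : 0 ≤ (Cl + 2 ^ ((N : ℝ) / 2)) / ε₀ := by positivity
    linarith
  intro s R T T' hs hsR hT hT' hT'L hPS hseed y hy
  have h1 : 0 ≤ G / L := by positivity
  have h2 : 0 ≤ (Cl + 2 ^ ((N : ℝ) / 2)) / ε₀ := by positivity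
  have hs1 : 1 ≤ s := by linarith
  have hsA : A ≤ s := by linarith
  have hsG : G ≤ L * s := by
    have h3 : G / L ≤ s := by linarith
    rw [div_le_iff₀ hL] at h3
    linarith
  have hsε : Cl + 2 ^ ((N : ℝ) / 2) ≤ ε₀ * s := by
    have h3 : (Cl + 2 ^ ((N : ℝ) / 2)) / ε₀ ≤ s := by linarith
    rw [div_le_iff₀ hε₀] at h3
    linarith
  have hsR₀ : R₀ ≤ A * s / 4 := by
    have h3 : 4 * R₀ ≤ s := by linarith
    nlinarith
  by_cases hyR : ‖y‖ ≤ R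
  · exact Z.seed_mono hT (by linarith) (hseed y hyR)
  push Not at hyR
  have hR0 : 0 < R := lt_of_lt_of_le (by positivity) hsR
  have hn : 0 < ‖y‖ := hR0.trans hyR
  have he : ‖‖y‖⁻¹ • y‖ = 1 := by
    rw [norm_smul, norm_inv, norm_norm]
    field_simp
  have hye : inner ℝ y (‖y‖⁻¹ • y) = ‖y‖ := by
    rw [inner_smul_right, real_inner_self_eq_norm_sq]
    field_simp
  set t := T' + G with ht
  have ht0 : 0 < t := by linarith
  have htL : t ≤ 3 * L * s := by nlinarith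
  set K : Set (E N) := {p : E N | inner ℝ p (‖y‖⁻¹ • y) ≤ R - A ^ 2} with hK
  set Q : Set (E N) := {p : E N | ‖p‖ ≤ R} with hQ
  have hPS' : Seed z K t y := by
    have h3 := hps s T' (A ^ 2) hT' (by positivity) hPS
    exact h3 (‖y‖⁻¹ • y) he (R - A ^ 2) y (by rw [hye]; linarith)
  have hKQ : ∀ p ∈ K, ‖p - y‖ ≤ A * s → p ∈ Q := fun p hp hpy => sb_geom hA hsA hsR hyR hp hpy
  have hloc' := hloc K Q y (A * s) (by positivity) hKQ
  have hcomp : ∀ y', ‖y' - y‖ ≤ R₀ → z {y} 0 y' - ε₀ ≤ z Q t y' := by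
    intro y' hy'
    have h3 := sb_comp Z hCl (by positivity : 0 ≤ A * s) ht0 hloc' (hy'.trans hsR₀)
    have h4 := sb_err N hCl.le hM hL ht0 htL hs1 hA1 hA2 hsε
    have h5 := hPS' y'
    linarith
  have hseedQ : Seed z Q (t + C₇) y := by
    intro y'
    rw [Z.flow Q t C₇ ht0.le hC₇]
    exact hrob (z Q t) (Z.dat Q t) y hcomp y'
  have hfin := Z.seed_comp (K := {0}) (K' := Q) hT (by linarith : 0 ≤ t + C₇) (fun p hp => hseed p hp)
    hseedQ
  have e : T + T' + (G + C₇) = T + (t + C₇) := by rw [ht]; ring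
  rw [e]
  exact hfin

end

end Pool.Agent.AP157
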