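import Pool.Agent.AP157.ZF
import Pool.Agent.AP157.FMa
import Pool.Agent.AP157.TFour
import Pool.Agent.AP157.Ulim
import Pool.Agent.AP157.EntC
import Pool.Agent.AP157.Mild
import Pool.Agent.AP157.C2
import Pool.Agent.AP157.Dir
import Pool.Agent.AP157.Ray
import Pool.Agent.AP157.Comb
import Pool.Agent.AP157.StepB
import Pool.Agent.AP157.StepX

/-!
# The class of the limit functions seen in the direction `e`
-/

set_option autoImplicit false

open MeasureTheory Real Set Filter Topology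
open scoped ENNReal

namespace Pool.Agent.AP157

open Pool.Agent.X297.KP

noncomputable section

variable {N : ℕ} {f : ℝ → ℝ} {M : ℝ} {z : Set (E N) → ℝ → E N → ℝ} {α δ ω : ℝ}

/-- Two-sided comparison of a solution with the reference solution `z K`. -/
structure Ub (z : Set (E N) → ℝ → E N → ℝ) (K : Set (E N)) (u : ℝ → E N → ℝ)
    (Ta Tc C γ : ℝ) : Prop where
  Ta0 : 0 ≤ Ta
  Tc0 : 0 ≤ Tc
  γ0 : 0 < γ
  lo : ∀ t x, Ta ≤ t → z K (t - Ta) x ≤ u t x
  hi : ∀ t x, 0 ≤ t → u t x ≤ z K (t + Tc) x + C * Real.exp (-(γ * t))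

theorem bb_dat (ρ : ℝ) : Dat (bb N ρ) := by
  refine ⟨measurable_one.indicator Metric.isOpen_ball.measurableSet, fun x => ?_⟩
  unfold bb
  by_cases h : x ∈ Metric.ball (0 : E N) ρ <;> simp [h]

theorem ind_dat {U : Set (E N)} (hU : MeasurableSet U) : Dat (U.indicator (1 : E N → ℝ)) := by
  refine ⟨measurable_one.indicator hU, fun x => ?_⟩
  by_cases h : x ∈ U <;> simp [h]

/-- The solution is trapped between two time-shifts of the reference solution. -/
theorem exists_ub (Z : ZFam f M z) (B : Bst f α δ ω) {Ta ρ : ℝ} (hTa : 0 ≤ Ta)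
    (hz : ∀ (K : Set (E N)) (w : E N → ℝ), Dat w → (∀ y ∈ K, ∀ x, bb N ρ (x - y) ≤ w x) →
      ∀ x, z K 0 x ≤ S f M Ta w x)
    {K : Set (E N)} {g : E N → ℝ} (hg : Dat g) (h1 : ∀ y ∈ K, ∀ x, bb N ρ (x - y) ≤ g x)
    {H : ℝ} (h2 : ∀ x, g x ≠ 0 → ∃ y ∈ K, ‖x - y‖ ≤ H) :
    ∃ Tc C γ : ℝ, Ub z K (fun t => S f M t g) Ta Tc C γ := by
  have hf := Z.nl
  obtain ⟨C, γ, q₀, t₀, hC, hγ, hq, ht₀, hFM⟩ := FM Z B
  obtain ⟨T, hT0, hT⟩ := Z.fill H q₀ hq
  set a := max T t₀ with ha
  have ha0 : 0 ≤ a := le_max_of_le_left hT0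
  refine ⟨a + C * q₀, C * q₀, γ, hTa, by positivity, hγ, ?_, ?_⟩
  · intro t x ht
    have hz0 := hz K g hg h1
    have e1 : z K (t - Ta) x = S f M (t - Ta) (z K 0) x := by
      have := Z.flow K 0 (t - Ta) le_rfl (by linarith) x
      rwa [zero_add] at this
    have e2 : S f M t g x = S f M (t - Ta) (S f M Ta g) x := by
      have := S_add hf hg (s := Ta) (t := t - Ta) hTa (by linarith)
      rw [add_sub_cancel] at this
      rw [this]
    rw [e1, e2]
    exact S_mono hf (Z.dat K 0) (S_dat hf hg Ta) hz0 _ x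
  · intro t x ht
    have h3 : ∀ x, g x ≤ z K a x + q₀ := by
      intro x
      by_cases hx : g x = 0
      · rw [hx]
        have := ((Z.dat K a).mem x).1
        linarith
      · obtain ⟨y, hy, hxy⟩ := h2 x hx
        have h4 := hT K x y a hy hxy (le_max_left _ _)
        have h5 := (hg.mem x).2
        linarith
    have h6 := hFM K a q₀ g hg (le_max_right _ _) hq.le le_rfl h3 t ht x
    have e3 : t + (a + C * q₀) = a + t + C * q₀ := by ring
    rw [e3]
    exact h6

/-- The functions `ψ(t,x) = lim u(t_i + t, x_i + x)`, where `t_i → ∞` and the set `K` is seen from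
`x_i` in the direction `-e`, from afar. -/
def Om (K : Set (E N)) (e : E N) (u : ℝ → E N → ℝ) : Set (ℝ → E N → ℝ) :=
  {ψ | ∃ G : Ultrafilter (ℝ × E N),
    (∀ C : ℝ, 0 < C → ∀ᶠ p in (G : Filter (ℝ × E N)), C ≤ p.1 ∧ Qdir K e C p.2) ∧
    ∀ t x, Tendsto (fun p : ℝ × E N => u (p.1 + t) (p.2 + x)) G (𝓝 (ψ t x))}

theorem Qdir_mono {K : Set (E N)} {e : E N} {C C' : ℝ} (hC : 0 < C) (h : C ≤ C') {x : E N}
    (hx : Qdir K e C' x) : Qdir K e C x := by
  refine ⟨h.trans hx.1, fun x' hx' ξ hξ hd => ?_⟩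
  refine (hx.2 x' (hx'.trans h) ξ hξ (hd.trans ?_)).trans ?_
  · have := mul_le_mul_of_nonneg_right h (Real.sqrt_nonneg (Metric.infDist x' K))
    linarith
  · exact one_div_le_one_div_of_le hC h

theorem Qdir_shift {K : Set (E N)} {e : E N} {C : ℝ} (hC : 0 < C) {x h : E N}
    (hx : Qdir K e (C + ‖h‖) x) : Qdir K e C (x + h) := by
  have hn := norm_nonneg h
  refine ⟨?_, fun x' hx' ξ hξ hd => ?_⟩
  · have h1 := hx.1
    have h2 : Metric.infDist x K ≤ Metric.infDist (x + h) K + dist x (x + h) :=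
      Metric.infDist_le_infDist_add_dist
    rw [dist_self_add_right] at h2
    linarith
  · have h1 : ‖x' - x‖ ≤ C + ‖h‖ := by
      have e1 : x' - x = (x' - (x + h)) + h := by abel
      rw [e1]
      exact (norm_add_le _ _).trans (by linarith)
    refine (hx.2 x' h1 ξ hξ (hd.trans ?_)).trans ?_
    · have := mul_le_mul_of_nonneg_right (by linarith : C ≤ C + ‖h‖)
        (Real.sqrt_nonneg (Metric.infDist x' K))
      linarith
    · exact one_div_le_one_div_of_le hC (by linarith)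

/-- The class is invariant under translations in space and time. -/
theorem Om_shift {K : Set (E N)} {e : E N} {u : ℝ → E N → ℝ} {ψ : ℝ → E N → ℝ}
    (hψ : ψ ∈ Om K e u) (s : ℝ) (h : E N) : (fun t x => ψ (s + t) (h + x)) ∈ Om K e u := by
  obtain ⟨G, hG1, hG2⟩ := hψ
  refine ⟨G.map (fun p => (p.1 + s, p.2 + h)), ?_, ?_⟩
  · intro C hC
    rw [Ultrafilter.coe_map, Filter.eventually_map]
    have hpos : 0 < C + ‖h‖ + |s| := by positivity
    filter_upwards [hG1 _ hpos] with p hp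
    constructor
    · have := neg_abs_le s
      have := norm_nonneg h
      linarith [hp.1]
    · apply Qdir_shift hC
      exact Qdir_mono (by positivity) (by linarith [abs_nonneg s]) hp.2
  · intro t x
    rw [Ultrafilter.coe_map, tendsto_map'_iff]
    refine (hG2 (s + t) (h + x)).congr (fun p => ?_)
    simp only [Function.comp_apply]
    rw [add_assoc, add_assoc]

/-- The class is closed under pointwise limits along ultrafilters. -/
theorem Om_closed {K : Set (E N)} {e : E N} {u : ℝ → E N → ℝ} {ι : Type*} (F : Ultrafilter ι)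
    {Ψ : ι → ℝ → E N → ℝ} (hΨ : ∀ i, Ψ i ∈ Om K e u) {ψ : ℝ → E N → ℝ}
    (h : ∀ t x, Tendsto (fun i => Ψ i t x) F (𝓝 (ψ t x))) : ψ ∈ Om K e u := by
  choose G hG1 hG2 using hΨ
  refine ⟨F.bind G, ?_, ?_⟩
  · intro C hC
    show {p : ℝ × E N | C ≤ p.1 ∧ Qdir K e C p.2} ∈ F.bind G
    have h1 : ∀ i, {p : ℝ × E N | C ≤ p.1 ∧ Qdir K e C p.2} ∈ G i := fun i => hG1 i C hC
    show {p : ℝ × E N | C ≤ p.1 ∧ Qdir K e C p.2} ∈ Filter.bind (F : Filter ι) (fun i => (G i : Filter (ℝ × E N)))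
    rw [Filter.mem_bind']
    exact Eventually.of_forall h1
  · intro t x
    rw [Metric.tendsto_nhds]
    intro ε hε
    show {p : ℝ × E N | dist (u (p.1 + t) (p.2 + x)) (ψ t x) < ε} ∈
      Filter.bind (F : Filter ι) (fun i => (G i : Filter (ℝ × E N)))
    rw [Filter.mem_bind']
    have h2 := Metric.tendsto_nhds.mp (h t x) (ε / 2) (by positivity)
    filter_upwards [h2] with i hi
    have h3 := Metric.tendsto_nhds.mp (hG2 i t x) (ε / 2) (by positivity)
    show {p : ℝ × E N | dist (u (p.1 + t) (p.2 + x)) (ψ t x) < ε} ∈ G i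
    filter_upwards [h3] with p hp
    calc dist (u (p.1 + t) (p.2 + x)) (ψ t x) ≤ dist (u (p.1 + t) (p.2 + x)) (Ψ i t x) +
          dist (Ψ i t x) (ψ t x) := dist_triangle _ _ _
      _ < ε := by linarith

/-- The elements of the class are entire solutions. -/
theorem Om_ent (hf : Nl f M) {g : E N → ℝ} (hg : Dat g) {K : Set (E N)} {e : E N}
    {ψ : ℝ → E N → ℝ} (hψ : ψ ∈ Om K e (fun t => S f M t g)) : Ent f M ψ := by
  obtain ⟨G, hG1, hG2⟩ := hψ
  obtain ⟨v, hv, hv2⟩ := ulim hf G (fun p t x => S f M (p.1 + t) g (p.2 + x)) (by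
      intro t
      refine Eventually.of_forall (fun p s _ => ?_)
      have := dat_trans (S_dat hf hg (p.1 + s)) p.2
      simpa [add_comm] using this) (by
      intro t
      have hpos : 0 < |t| + 1 := by positivity
      filter_upwards [hG1 _ hpos] with p hp s r hs hr x
      have h0 : 0 ≤ p.1 + s := by
        have := neg_abs_le t
        linarith [hp.1]
      have e1 := S_add hf hg (s := p.1 + s) (t := r) h0 hr
      have e2 := S_trans hf (S_dat hf hg (p.1 + s)) r p.2 x
      rw [← add_assoc, e1, add_comm p.2 x, ← e2]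
      congr 1
      funext y
      rw [add_comm y p.2])
  have e : ψ = v := by
    funext t x
    exact tendsto_nhds_unique (hG2 t x) (hv2 t x)
  rw [e]
  exact hv

/-- Quasi-translation property of the class. -/
theorem Om_quasi (Z : ZFam f M z) {K : Set (E N)} {e : E N} {u : ℝ → E N → ℝ}
    {Ta Tc C γ : ℝ} (hu : Ub z K u Ta Tc C γ) : ∃ L, 0 < L ∧ ∀ ψ ∈ Om K e u, ∀ t x h T,
      L * (1 + ‖h‖) ≤ T → ψ t (x - h) ≤ ψ (t + T) x := by
  obtain ⟨L, hL, hs⟩ := Z.shift
  have h1 := hu.Ta0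
  have h2 := hu.Tc0
  refine ⟨L + Tc + Ta, by positivity, ?_⟩
  rintro ψ ⟨G, hG1, hG2⟩ t x h T hT
  have hn := norm_nonneg h
  have hT1 : L * (1 + ‖h‖) ≤ T - Tc - Ta := by nlinarith
  have hG3 : Tendsto (fun p : ℝ × E N => p.1) G atTop := by
    rw [tendsto_atTop]
    intro b
    have hpos : 0 < |b| + 1 := by positivity
    filter_upwards [hG1 _ hpos] with p hp
    linarith [hp.1, le_abs_self b]
  have hlim : Tendsto (fun p : ℝ × E N => u (p.1 + (t + T)) (p.2 + x) +
      C * Real.exp (-(γ * (p.1 + t)))) G (𝓝 (ψ (t + T) x + C * 0)) := by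
    apply (hG2 (t + T) x).add
    apply Tendsto.const_mul
    have h3 : Tendsto (fun p : ℝ × E N => γ * (p.1 + t)) G atTop :=
      Tendsto.const_mul_atTop hu.γ0 (tendsto_atTop_add_const_right _ _ hG3)
    exact Real.tendsto_exp_neg_atTop_nhds_zero.comp h3
  rw [mul_zero, add_zero] at hlim
  refine le_of_tendsto_of_tendsto (hG2 t (x - h)) hlim ?_
  have hpos : 0 < |t| + 1 := by positivity
  filter_upwards [hG1 _ hpos] with p hp
  have h0 : 0 ≤ p.1 + t := by
    have := neg_abs_le t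
    linarith [hp.1]
  have hT2 : 0 ≤ T - Tc - Ta := le_trans (by positivity) hT1
  have a1 := hu.hi (p.1 + t) (p.2 + (x - h)) h0
  have a2 := hs K (p.1 + t + Tc) h (T - Tc - Ta) (p.2 + x) (by linarith) hT1
  have a3 := hu.lo (p.1 + (t + T)) (p.2 + x) (by linarith)
  have e1 : p.2 + (x - h) = p.2 + x - h := by abel
  have e2 : p.1 + t + Tc + (T - Tc - Ta) = p.1 + (t + T) - Ta := by ring
  rw [e2] at a2
  rw [e1] at a1 ⊢
  linarith

end

end Pool.Agent.AP157
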