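import Pool.Agent.AP157.TLe
import Pool.Agent.AP157.FMw
import Pool.Agent.AP157.Om

/-!
# Two-sided bounds and the class of the limit functions, for the wider class of nonlinearities
-/

set_option autoImplicit false

open MeasureTheory Real Set Filter Topology
open scoped ENNReal

namespace Pool.Agent.AP157

open Pool.Agent.X297.KP

noncomputable section

variable {N : ℕ} {f : ℝ → ℝ} {M : ℝ} {z : Set (E N) → ℝ → E N → ℝ} {α μ d₁ δ κ₁ C₁ l : ℝ}

/-- Two-sided comparison of a solution with the reference solution `z K`, and decay of the solution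
ahead of the seeds. -/
structure Ub2 (z : Set (E N) → ℝ → E N → ℝ) (K : Set (E N)) (u : ℝ → E N → ℝ)
    (Ta Tc ν C₂ : ℝ) : Prop where
  Ta0 : 0 ≤ Ta
  Tc0 : 0 ≤ Tc
  lo : ∀ t x, Ta ≤ t → z K (t - Ta) x ≤ u t x
  hi : ∀ ε, 0 < ε → ∃ t₁, 0 ≤ t₁ ∧ ∀ t x, t₁ ≤ t → u t x ≤ z K (t + Tc) x + ε
  tail : ∀ t x, 0 ≤ t → u t x ≤ C₂ * Wt z K ν t x

theorem exists_ub2 (Z : ZFam f M z) (H : Cls f α μ d₁ δ) (Q : Par z μ κ₁ C₁ l) {Ta ρ : ℝ}
    (hTa : 0 ≤ Ta)
    (hz : ∀ (K : Set (E N)) (w : E N → ℝ), Dat w → (∀ y ∈ K, ∀ x, bb N ρ (x - y) ≤ w x) →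
      ∀ x, z K 0 x ≤ S f M Ta w x)
    {K : Set (E N)} (hK : K.Nonempty) {g : E N → ℝ} (hg : Dat g)
    (h1 : ∀ y ∈ K, ∀ x, bb N ρ (x - y) ≤ g x)
    {R : ℝ} (h2 : ∀ x, g x ≠ 0 → ∃ y ∈ K, ‖x - y‖ ≤ R) :
    ∃ Tc C₂ : ℝ, Ub2 z K (fun t => S f M t g) Ta Tc (l / κ₁) C₂ := by
  have hf := Z.nl
  have hν := Q.nu_pos
  obtain ⟨C, γ, q₀, t₀, hC, hγ, hq, ht₀, hFM⟩ := FMw Z H Q
  obtain ⟨T, hT0, hT⟩ := Z.fill R q₀ hq
  obtain ⟨Cw, hCw, hW⟩ := TLw Z H Q
  set ν := l / κ₁ with hνd
  set a := max (max T t₀) (κ₁ * R + C₁) with ha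
  have ha1 : T ≤ a := (le_max_left _ _).trans (le_max_left _ _)
  have ha2 : t₀ ≤ a := (le_max_right _ _).trans (le_max_left _ _)
  have ha3 : κ₁ * R + C₁ ≤ a := le_max_right _ _
  have ha0 : 0 ≤ a := hT0.trans ha1
  have h3 : ∀ x, g x ≤ z K a x + q₀ * Wt z K ν a x := by
    intro x
    have hw := Wt_pos (z := z) K ν a x
    by_cases hx : g x = 0
    · rw [hx]
      have := ((Z.dat K a).mem x).1
      have := mul_pos hq hw
      linarith
    · obtain ⟨y, hy, hxy⟩ := h2 x hx
      have h4 := hT K x y a hy hxy ha1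
      have h5 := (hg.mem x).2
      have h6 : 1 ≤ Wt z K ν a x := by
        unfold Wt
        rw [Real.one_le_exp_iff]
        apply mul_nonneg hν.le
        have h7 := Q.tau_lip Z hK y x
        rw [Z.tau_mem hy, norm_sub_rev] at h7
        have h8 := mul_le_mul_of_nonneg_left hxy Q.κ_pos.le
        linarith
      have h9 := mul_le_mul_of_nonneg_left h6 hq.le
      linarith
  have key : ∀ t, 0 ≤ t → ∀ x, S f M t g x ≤ z K (a + t + C * q₀) x +
      C * q₀ * Real.exp (-(γ * t)) * Wt z K ν (a + t) x :=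
    hFM K a q₀ g hK hg ha2 hq.le le_rfl h3
  refine ⟨a + C * q₀, Cw * Real.exp (ν * (a + C * q₀)) + C * q₀ * Real.exp (ν * a),
    hTa, by positivity, ?_, ?_, ?_⟩
  · intro t x ht
    have hz0 := hz K g hg h1
    have e1 : z K (t - Ta) x = S f M (t - Ta) (z K 0) x := by
      have := Z.flow K 0 (t - Ta) le_rfl (by linarith) x
      rwa [zero_add] at this
    have e2 : S f M t g x = S f M (t - Ta) (S f M Ta g) x := by
      have := S_add hf hg (s := Ta) (t := t - Ta) hTa (by linarith)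
      rw [add_sub_cancel] at this
      rw [this]
    rw [e1, e2]
    exact S_mono hf (Z.dat K 0) (S_dat hf hg Ta) hz0 _ x
  · intro ε hε
    obtain ⟨Tf, hTf0, hTf⟩ := Z.seed_fill 0 hε
    have hlim : Tendsto (fun t : ℝ => C * q₀ * Real.exp (-(γ / 2 * t))) atTop (𝓝 (C * q₀ * 0)) :=
      (Real.tendsto_exp_neg_atTop_nhds_zero.comp
        (Tendsto.const_mul_atTop (by positivity) tendsto_id)).const_mul _
    rw [mul_zero] at hlim
    obtain ⟨t₁, ht₁⟩ := (hlim.eventually_le_const hε).exists_forall_of_atTop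
    refine ⟨max (max 0 t₁) (Tf * (2 * ν) / γ), le_max_of_le_left (le_max_left _ _), ?_⟩
    intro t x ht
    have ht0 : 0 ≤ t := le_trans (le_max_of_le_left (le_max_left _ _)) ht
    have ht1 : t₁ ≤ t := le_trans (le_max_of_le_left (le_max_right _ _)) ht
    have ht2 : Tf * (2 * ν) / γ ≤ t := le_trans (le_max_right _ _) ht
    have e3 : t + (a + C * q₀) = a + t + C * q₀ := by ring
    rw [e3]
    by_cases hcase : ν * (a + t - tau (Seed z) K x) ≤ γ / 2 * t
    · refine (key t ht0 x).trans ?_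
      have h4 : C * q₀ * Real.exp (-(γ * t)) * Wt z K ν (a + t) x ≤ ε := by
        refine le_trans ?_ (ht₁ t ht1)
        rw [mul_assoc]
        apply mul_le_mul_of_nonneg_left _ (by positivity)
        unfold Wt
        rw [← Real.exp_add]
        apply Real.exp_le_exp.mpr
        linarith
      linarith
    · push Not at hcase
      have hγν : γ / 2 * t = ν * (γ * t / (2 * ν)) := by
        field_simp
      have h5 : tau (Seed z) K x < a + t - γ * t / (2 * ν) := by
        rw [hγν] at hcase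
        have := lt_of_mul_lt_mul_left hcase hν.le
        linarith
      have h6 := Z.tau_lt hK h5
      have h7 := tau_nn (z := z) K x
      have h8 : Tf ≤ γ * t / (2 * ν) := by
        rw [div_le_iff₀ hγ] at ht2
        rw [le_div_iff₀ (by positivity)]
        linarith
      have h9 := hTf K _ (a + t + C * q₀) x x (by linarith) h6 (by simp) (by
        have := mul_pos hC hq
        linarith)
      have h10 := (S_mem hf hg t x).2
      linarith
  · intro t x ht
    refine (key t ht x).trans ?_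
    have h4 := hW K (a + t + C * q₀) x hK (by positivity)
    have h5 : Wt z K ν (a + t + C * q₀) x = Real.exp (ν * (a + C * q₀)) * Wt z K ν t x := by
      rw [← Wt_add]
      congr 1
      ring
    have h6 : Wt z K ν (a + t) x = Real.exp (ν * a) * Wt z K ν t x := by
      rw [← Wt_add]
      congr 1
      ring
    rw [h5] at h4
    rw [h6]
    have h7 : Real.exp (-(γ * t)) ≤ 1 := by
      rw [Real.exp_le_one_iff]
      have := mul_nonneg hγ.le ht
      linarith
    have h8 : C * q₀ * Real.exp (-(γ * t)) * (Real.exp (ν * a) * Wt z K ν t x) ≤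
        C * q₀ * 1 * (Real.exp (ν * a) * Wt z K ν t x) := by
      apply mul_le_mul_of_nonneg_right
      · exact mul_le_mul_of_nonneg_left h7 (by positivity)
      · have := Wt_pos (z := z) K ν t x
        positivity
    calc _ ≤ Cw * (Real.exp (ν * (a + C * q₀)) * Wt z K ν t x) +
          C * q₀ * 1 * (Real.exp (ν * a) * Wt z K ν t x) := add_le_add h4 h8
      _ = _ := by ring

/-- Time tends to infinity along the filters of the class. -/
theorem Om_time {K : Set (E N)} {e : E N} {G : Ultrafilter (ℝ × E N)}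
    (hG1 : ∀ C : ℝ, 0 < C → ∀ᶠ p in (G : Filter (ℝ × E N)), C ≤ p.1 ∧ Qdir K e C p.2) :
    Tendsto (fun p : ℝ × E N => p.1) G atTop := by
  rw [tendsto_atTop]
  intro b
  have hpos : 0 < |b| + 1 := by positivity
  filter_upwards [hG1 _ hpos] with p hp
  linarith [hp.1, le_abs_self b]

/-- Quasi-translation property of the class. -/
theorem Om_quasi2 (Z : ZFam f M z) {K : Set (E N)} {e : E N} {u : ℝ → E N → ℝ}
    {Ta Tc ν C₂ : ℝ} (hu : Ub2 z K u Ta Tc ν C₂) : ∃ L, 0 < L ∧ ∀ ψ ∈ Om K e u, ∀ t x h T,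
      L * (1 + ‖h‖) ≤ T → ψ t (x - h) ≤ ψ (t + T) x := by
  obtain ⟨L, hL, hs⟩ := Z.shift
  have h1 := hu.Ta0
  have h2 := hu.Tc0
  refine ⟨L + Tc + Ta, by positivity, ?_⟩
  rintro ψ ⟨G, hG1, hG2⟩ t x h T hT
  have hn := norm_nonneg h
  have hT1 : L * (1 + ‖h‖) ≤ T - Tc - Ta := by nlinarith
  have hG3 := Om_time hG1
  apply le_of_forall_pos_le_add
  intro ε hε
  obtain ⟨t₁, ht₁, hhi⟩ := hu.hi ε hε
  refine le_of_tendsto_of_tendsto (hG2 t (x - h)) ((hG2 (t + T) x).add_const ε) ?_
  filter_upwards [hG3.eventually_ge_atTop (|t| + t₁)] with p hp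
  have h0 : t₁ ≤ p.1 + t := by
    have := neg_abs_le t
    linarith
  have hT2 : 0 ≤ T - Tc - Ta := le_trans (by positivity) hT1
  have a1 := hhi (p.1 + t) (p.2 + (x - h)) h0
  have a2 := hs K (p.1 + t + Tc) h (T - Tc - Ta) (p.2 + x) (by linarith) hT1
  have a3 := hu.lo (p.1 + (t + T)) (p.2 + x) (by linarith)
  have e1 : p.2 + (x - h) = p.2 + x - h := by abel
  have e2 : p.1 + t + Tc + (T - Tc - Ta) = p.1 + (t + T) - Ta := by ring
  rw [e2] at a2
  rw [e1] at a1 ⊢
  linarith

/-- Either the limit is `0` or `1`, or it decays exponentially ahead of a front given by a function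
`θ`. -/
theorem Om_tail (Z : ZFam f M z) (Q : Par z μ κ₁ C₁ l) {K : Set (E N)} (hK : K.Nonempty) {e : E N}
    {u : ℝ → E N → ℝ} (hu01 : ∀ t x, u t x ∈ Icc (0:ℝ) 1) {Ta Tc C₂ : ℝ}
    (hu : Ub2 z K u Ta Tc (l / κ₁) C₂) {ψ : ℝ → E N → ℝ} (hψ : ψ ∈ Om K e u) :
    (∀ t x, ψ t x = 0) ∨ (∀ t x, ψ t x = 1) ∨ ∃ θ : E N → ℝ,
      (∀ x y, θ y ≤ θ x + κ₁ * ‖x - y‖ + C₁) ∧
      ∀ t x, ψ t x ≤ C₂ * Real.exp (l / κ₁ * (t - θ x)) := by
  obtain ⟨G, hG1, hG2⟩ := hψ
  have hν := Q.nu_pos
  have hκ := Q.κ_pos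
  have hG3 := Om_time hG1
  set ϑ : ℝ × E N → E N → ℝ := fun p x => tau (Seed z) K (p.2 + x) - p.1 with hϑ
  have hlip : ∀ p x y, ϑ p y ≤ ϑ p x + κ₁ * ‖x - y‖ + C₁ := by
    intro p x y
    have := Q.tau_lip Z hK (p.2 + x) (p.2 + y)
    rw [add_sub_add_left_eq_sub] at this
    simp only [hϑ]
    linarith
  have htail : ∀ t x, ∀ᶠ p in (G : Filter (ℝ × E N)),
      u (p.1 + t) (p.2 + x) ≤ C₂ * Real.exp (l / κ₁ * (t - ϑ p x)) := by
    intro t x
    filter_upwards [hG3.eventually_ge_atTop (|t|)] with p hp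
    have h0 : 0 ≤ p.1 + t := by
      have := neg_abs_le t
      linarith
    refine (hu.tail (p.1 + t) (p.2 + x) h0).trans (le_of_eq ?_)
    unfold Wt
    congr 3
    simp only [hϑ]
    ring
  by_cases hb : ∃ R, ∀ᶠ p in (G : Filter (ℝ × E N)), |ϑ p 0| ≤ R
  · right; right
    obtain ⟨R, hR⟩ := hb
    have hbd : ∀ x, ∀ᶠ p in (G : Filter (ℝ × E N)),
        ϑ p x ∈ Icc (-(R + κ₁ * ‖x‖ + C₁)) (R + κ₁ * ‖x‖ + C₁) := by
      intro x
      filter_upwards [hR] with p hp
      obtain ⟨h1, h2⟩ := abs_le.mp hp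
      have h3 := hlip p 0 x
      have h4 := hlip p x 0
      rw [zero_sub, norm_neg] at h3
      rw [sub_zero] at h4
      constructor <;> linarith
    have hex : ∀ x, ∃ θx, Tendsto (fun p => ϑ p x) G (𝓝 θx) := by
      intro x
      have h1 := (isCompact_Icc (a := -(R + κ₁ * ‖x‖ + C₁)) (b := R + κ₁ * ‖x‖ + C₁)).ultrafilter_le_nhds
        (G.map (fun p => ϑ p x)) (by
          rw [le_principal_iff]
          exact hbd x)
      obtain ⟨θx, _, h2⟩ := h1
      exact ⟨θx, h2⟩
    choose θ hθ using hex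
    refine ⟨θ, fun x y => ?_, fun t x => ?_⟩
    · exact le_of_tendsto_of_tendsto (hθ y) (((hθ x).add_const _).add_const _)
        (Eventually.of_forall fun p => hlip p x y)
    · have h1 : Tendsto (fun p => C₂ * Real.exp (l / κ₁ * (t - ϑ p x))) G
          (𝓝 (C₂ * Real.exp (l / κ₁ * (t - θ x)))) := by
        apply Tendsto.const_mul
        apply (Real.continuous_exp.tendsto _).comp
        exact ((hθ x).const_sub t).const_mul _
      exact le_of_tendsto_of_tendsto (hG2 t x) h1 (htail t x)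
  · push Not at hb
    have hb' : ∀ R, ∀ᶠ p in (G : Filter (ℝ × E N)), R < |ϑ p 0| := by
      intro R
      exact hb R
    by_cases hs : ∀ᶠ p in (G : Filter (ℝ × E N)), 0 ≤ ϑ p 0
    · left
      have hinf : Tendsto (fun p => ϑ p 0) G atTop := by
        rw [tendsto_atTop]
        intro b
        filter_upwards [hs, hb' b] with p h1 h2
        rw [abs_of_nonneg h1] at h2
        exact h2.le
      intro t x
      have hinf2 : Tendsto (fun p => ϑ p x) G atTop := by
        refine tendsto_atTop_mono (f := fun p => ϑ p 0 - (κ₁ * ‖x‖ + C₁)) (fun p => ?_)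
          (tendsto_atTop_add_const_right _ _ hinf)
        have h4 := hlip p x 0
        rw [sub_zero] at h4
        linarith
      have h1 : Tendsto (fun p => C₂ * Real.exp (l / κ₁ * (t - ϑ p x))) G (𝓝 (C₂ * 0)) := by
        apply Tendsto.const_mul
        apply Real.tendsto_exp_atBot.comp
        apply Tendsto.const_mul_atBot hν
        have := tendsto_neg_atTop_atBot.comp hinf2
        exact tendsto_atBot_add_const_left _ t this
      rw [mul_zero] at h1
      apply le_antisymm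
      · exact le_of_tendsto_of_tendsto (hG2 t x) h1 (htail t x)
      · exact ge_of_tendsto (hG2 t x) (Eventually.of_forall fun p => (hu01 _ _).1)
    · right; left
      have hs' : ∀ᶠ p in (G : Filter (ℝ × E N)), ϑ p 0 < 0 := by
        have := Ultrafilter.eventually_not.mpr hs
        filter_upwards [this] with p hp
        exact not_le.mp hp
      intro t x
      apply le_antisymm
      · exact le_of_tendsto (hG2 t x) (Eventually.of_forall fun p => (hu01 _ _).2)
      · apply le_of_forall_pos_le_add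
        intro ε hε
        obtain ⟨Tf, hTf0, hTf⟩ := Z.seed_fill 0 hε
        suffices h : 1 - ε ≤ ψ t x by linarith
        refine ge_of_tendsto (hG2 t x) ?_
        have h0 := hu.Ta0
        filter_upwards [hs', hb' (|t| + Ta + Tf + κ₁ * ‖x‖ + C₁)] with p h1 h2
        rw [abs_of_neg h1] at h2
        have h3 := hlip p 0 x
        rw [zero_sub, norm_neg] at h3
        have h4 : tau (Seed z) K (p.2 + x) < p.1 + t - Ta - Tf := by
          have := neg_abs_le t
          simp only [hϑ] at h2 h3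
          linarith
        have h5 := tau_nn (z := z) K (p.2 + x)
        have h6 := hTf K _ (p.1 + t - Ta) (p.2 + x) (p.2 + x) (by linarith) (Z.tau_lt hK h4)
          (by simp) (by linarith)
        have h7 := hu.lo (p.1 + t) (p.2 + x) (by linarith)
        linarith

end

end Pool.Agent.AP157
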