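import Pool.Agent.AP157.Wk
import Pool.Agent.AP157.Reg

/-!
# Reflection comparison

-/

set_option autoImplicit false

open MeasureTheory Real Set Filter Topology
open scoped ENNReal

namespace Pool.Agent.AP157

open Pool.Agent.X297.KP

noncomputable section

variable {N : ℕ} {f : ℝ → ℝ} {M m : ℝ}

/-! ## Auxiliary lemmas -/

theorem rfl_inner {v : E N} (hv : ‖v‖ = 1) (b : ℝ) (y : E N) :
    inner ℝ (refl v b y) v = 2 * b - inner ℝ y v := by
  unfold refl
  rw [inner_add_left, inner_smul_left, real_inner_self_eq_norm_sq, hv]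
  simp
  ring

theorem rfl_inv {v : E N} (hv : ‖v‖ = 1) (b : ℝ) (y : E N) :
    refl v b (refl v b y) = y := by
  have h := rfl_inner hv b y
  have e : refl v b (refl v b y) = refl v b y + (2 * (b - inner ℝ (refl v b y) v)) • v := rfl
  rw [e, h]
  unfold refl
  rw [add_assoc, ← add_smul]
  have : 2 * (b - inner ℝ y v) + 2 * (b - (2 * b - inner ℝ y v)) = 0 := by ring
  rw [this, zero_smul, add_zero]

theorem rfl_iso {v : E N} (hv : ‖v‖ = 1) (b : ℝ) (x y : E N) :
    ‖refl v b x - refl v b y‖ = ‖x - y‖ := by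
  have e : refl v b x - refl v b y = (x - y) - (2 * inner ℝ (x - y) v) • v := by
    unfold refl
    rw [inner_sub_left]
    module
  have h : ‖refl v b x - refl v b y‖ ^ 2 = ‖x - y‖ ^ 2 := by
    rw [e, norm_sub_sq_real, norm_smul, hv, inner_smul_right, mul_one, Real.norm_eq_abs, sq_abs]
    ring
  exact (sq_eq_sq₀ (norm_nonneg _) (norm_nonneg _)).mp h

theorem rfl_near {v : E N} (hv : ‖v‖ = 1) (b : ℝ) {x y : E N} (hx : inner ℝ x v ≤ b)
    (hy : inner ℝ y v ≤ b) : ‖x - y‖ ≤ ‖x - refl v b y‖ := by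
  have e : x - refl v b y = (x - y) - (2 * (b - inner ℝ y v)) • v := by
    unfold refl
    abel
  have h : ‖x - y‖ ^ 2 ≤ ‖x - refl v b y‖ ^ 2 := by
    rw [e, norm_sub_sq_real (x - y), norm_smul, hv, inner_smul_right, mul_one, Real.norm_eq_abs,
      sq_abs, inner_sub_left]
    nlinarith [mul_nonneg (sub_nonneg.mpr hx) (sub_nonneg.mpr hy)]
  exact (sq_le_sq₀ (norm_nonneg _) (norm_nonneg _)).mp h

theorem rfl_mp {v : E N} (hv : ‖v‖ = 1) (b : ℝ) :
    MeasurePreserving (refl v b) volume volume := by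
  set T : E N ≃ₗᵢ[ℝ] E N := (ℝ ∙ v)ᗮ.reflection with hT
  have e : refl v b = fun y => T y + (2 * b) • v := by
    funext y
    rw [hT, Submodule.reflection_orthogonal_apply, Submodule.reflection_singleton_apply]
    unfold refl
    simp only [hv]
    rw [real_inner_comm]
    simp
    module
  rw [e]
  exact (measurePreserving_add_right volume ((2 * b) • v)).comp T.measurePreserving

theorem rfl_rearr {a a' c c' : ℝ≥0∞} (h1 : a' ≤ a) (h2 : c' ≤ c) :
    a' * c + a * c' ≤ a * c + a' * c' := by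
  obtain ⟨d, rfl⟩ := exists_add_of_le h1
  obtain ⟨e, rfl⟩ := exists_add_of_le h2
  have : (a' + d) * (c' + e) + a' * c' = (a' * (c' + e) + (a' + d) * c') + d * e := by ring
  rw [this]
  exact le_self_add

theorem rfl_kern {r : ℝ} (hr : 0 < r) {x y : E N} (h : ‖x‖ ≤ ‖y‖) : heatK r y ≤ heatK r x := by
  unfold heatK
  have h1 : ‖x‖ ^ 2 ≤ ‖y‖ ^ 2 := pow_le_pow_left₀ (norm_nonneg _) h 2
  have h2 : Real.exp (-(‖y‖ ^ 2 / (4 * r))) ≤ Real.exp (-(‖x‖ ^ 2 / (4 * r))) := by
    apply Real.exp_le_exp.2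
    apply neg_le_neg
    gcongr
  have h3 : 0 ≤ (4 * π * r) ^ (-((N : ℝ) / 2)) := by positivity
  exact mul_le_mul_of_nonneg_left h2 h3

theorem rfl_conv {v : E N} (hv : ‖v‖ = 1) (b : ℝ) {F : E N → ℝ≥0∞} (hF : Measurable F)
    (h : ∀ y, inner ℝ y v ≤ b → F (refl v b y) ≤ F y) {r : ℝ} (hr : 0 < r) {x : E N}
    (hx : inner ℝ x v ≤ b) :
    ∫⁻ y, ENNReal.ofReal (heatK r (refl v b x - y)) * F y ≤
      ∫⁻ y, ENNReal.ofReal (heatK r (x - y)) * F y := by
  set R := refl v b with hR
  have hRm : Measurable R := (rfl_mp hv b).measurable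
  set k1 : E N → ℝ≥0∞ := fun y => ENNReal.ofReal (heatK r (x - y)) with hk1
  set k2 : E N → ℝ≥0∞ := fun y => ENNReal.ofReal (heatK r (R x - y)) with hk2
  have m1 : Measurable k1 := kmeas x r
  have m2 : Measurable k2 := kmeas (R x) r
  have e12 : ∀ y, k2 (R y) = k1 y := by
    intro y
    simp only [hk1, hk2]
    rw [heatK_congr (rfl_iso hv b x y)]
  have e21 : ∀ y, k1 (R y) = k2 y := by
    intro y
    rw [← e12 (R y), hR, rfl_inv hv b y]
  have le : ∀ y, inner ℝ y v ≤ b → k2 y ≤ k1 y := by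
    intro y hy
    rw [← e21 y]
    simp only [hk1]
    exact ENNReal.ofReal_le_ofReal (rfl_kern hr (rfl_near hv b hx hy))
  have point : ∀ y, k2 y * F y + k1 y * F (R y) ≤ k1 y * F y + k2 y * F (R y) := by
    intro y
    by_cases hy : inner ℝ y v ≤ b
    · exact rfl_rearr (le y hy) (h y hy)
    · have hy' : inner ℝ (R y) v ≤ b := by
        rw [hR, rfl_inner hv]
        linarith [not_le.mp hy]
      have h1 := rfl_rearr (le _ hy') (h _ hy')
      have h2 : R (R y) = y := rfl_inv hv b y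
      rw [h2, e12, e21] at h1
      calc k2 y * F y + k1 y * F (R y) = k1 y * F (R y) + k2 y * F y := add_comm _ _
        _ ≤ k2 y * F (R y) + k1 y * F y := h1
        _ = _ := add_comm _ _
  have mm1 : Measurable (fun y => k1 y * F y) := m1.mul hF
  have mm2 : Measurable (fun y => k2 y * F y) := m2.mul hF
  have i2 : ∫⁻ y, k1 y * F (R y) = ∫⁻ y, k2 y * F y := by
    have h0 := (rfl_mp hv b).lintegral_comp mm2
    rw [← h0]
    apply lintegral_congr
    intro y
    show k1 y * F (R y) = k2 (R y) * F (R y)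
    rw [e12]
  have i1 : ∫⁻ y, k2 y * F (R y) = ∫⁻ y, k1 y * F y := by
    have h0 := (rfl_mp hv b).lintegral_comp mm1
    rw [← h0]
    apply lintegral_congr
    intro y
    show k2 y * F (R y) = k1 (R y) * F (R y)
    rw [e21]
  have key := lintegral_mono (μ := volume) point
  rw [lintegral_add_left mm2, lintegral_add_left mm1, i1, i2, ← two_mul, ← two_mul] at key
  exact (ENNReal.mul_le_mul_iff_right two_ne_zero ENNReal.ofNat_ne_top).mp key

theorem rfl_it (hf : Nl f M) {v : E N} (hv : ‖v‖ = 1) (b : ℝ) {g : E N → ℝ≥0∞}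
    (hg : Measurable g) (h : ∀ y, inner ℝ y v ≤ b → g (refl v b y) ≤ g y) (n : ℕ) (t : ℝ)
    (ht : 0 < t) (x : E N) (hx : inner ℝ x v ≤ b) :
    it f M g n t (refl v b x) ≤ it f M g n t x := by
  induction n generalizing t x with
  | zero => exact le_rfl
  | succ n ih =>
    show Phi f M _ _ t _ ≤ Phi f M _ _ t x
    unfold Phi
    apply add_le_add
    · exact mul_le_mul_right (rfl_conv hv b hg h ht hx) _
    · apply setLIntegral_mono' measurableSet_Ioo
      intro s hs
      have h2 : Measurable (fun y => Gt f M (it f M g n s y)) :=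
        (Gt_cont hf).measurable.comp ((it_meas hf hg n).comp (f := fun y : E N => (s, y))
          (by fun_prop))
      exact mul_le_mul_right (rfl_conv hv b h2
        (fun y hy => Gt_mono hf (ih s hs.1 y hy)) (by linarith [hs.2]) hx) _

theorem S_refl (hf : Nl f M) {v : E N} (hv : ‖v‖ = 1) (b : ℝ) {g : E N → ℝ} (hg : Dat g)
    (h : ∀ y, inner ℝ y v ≤ b → g (refl v b y) ≤ g y) (t : ℝ) {x : E N} (hx : inner ℝ x v ≤ b) :
    S f M t g (refl v b x) ≤ S f M t g x := by
  by_cases ht : t ≤ 0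
  · unfold S
    rw [if_pos ht, if_pos ht]
    exact h x hx
  · push Not at ht
    rw [S_pos_eq ht, S_pos_eq ht]
    apply ENNReal.toReal_mono (uu_ne_top hf hg ht x)
    unfold uu
    exact iSup_mono (fun n => rfl_it hf hv b (ofR_meas hg)
      (fun y hy => ENNReal.ofReal_le_ofReal (h y hy)) n t ht x hx)

end

end Pool.Agent.AP157
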