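import Pool.Agent.AP157.Wk
import Pool.Agent.AP157.Har
import Pool.Agent.AP157.Hair
import Pool.Agent.AP157.Gro
import Pool.Agent.AP157.Reg

/-!
# Growth of the ratio for entire solutions

T₁ := with 2 e^{-m T₁} ≤ 1/2 (ent_growth with ε = 1): if ψ (t+T₁) x ≤ δ₁ then ψ t x ≤ (1/2) ψ (t+T₁) x.  WLOG δ₁ ≤ 1.  L from ent_reg (Lipschitz in space): if ψ t' x > δ₁ then ψ t' ≥ δ₁/2 on the ball of radius δ₁/(2L), and `hair` (c = √m, η = δ₁/2, r = δ₁/(2L), ε = δ) gives T_p > 0 with ψ (t'+s) x ≥ 1-δ for all s ≥ T_p (Ent.flow).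
C from ent_harnack (a = 0 is an entire solution: S_const_eq; τ ∈ [T_p, T_p+T₁], R = 0): ψ (t-τ) x ≤ C ψ t x.
Given T ≥ T₀: if ψ t' x > δ₁ for some t' ∈ [t, t+T-T_p] then ψ (t+T) x ≥ 1-δ.  Otherwise let j = ⌊(T-T_p)/T₁⌋; ψ t x ≤ 2^{-j} ψ (t+jT₁) x (growth, all the values are ≤ δ₁) and ψ (t+jT₁) x ≤ C ψ (t+T) x (T - jT₁ ∈ [T_p, T_p+T₁)); A C 2^{-j} ≤ 1 for T₀ large.
-/

set_option autoImplicit false

open MeasureTheory Real Set Filter Topology
open scoped ENNReal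

namespace Pool.Agent.AP157

open Pool.Agent.X297.KP

noncomputable section

variable {N : ℕ} {f : ℝ → ℝ} {M m : ℝ}

theorem rat_ent_zero (N : ℕ) (hf : Nl f M) : Ent f M (fun (_ : ℝ) (_ : E N) => (0:ℝ)) :=
  ⟨fun _ => dat_const ⟨le_rfl, zero_le_one⟩, fun _ s _ x =>
    (S_const_eq hf ⟨le_rfl, zero_le_one⟩ hf.zero s x).symm⟩

theorem ent_ratio (N : ℕ) (hf : Nl f M) (H : Mn f m) {A δ : ℝ} (hA : 0 < A) (hδ : 0 < δ) :
    ∃ T₀ : ℝ, 0 < T₀ ∧ ∀ T, T₀ ≤ T → ∀ ψ : ℝ → E N → ℝ, Ent f M ψ → ∀ t x,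
      min (A * ψ t x) (1 - δ) ≤ ψ (t + T) x := by
  have hm := H.m_pos
  set T₁ : ℝ := Real.log 4 / m with hT₁
  have hT₁0 : 0 < T₁ := div_pos (Real.log_pos (by norm_num)) hm
  have hexp : Real.exp (-(m * T₁)) = 1 / 4 := by
    rw [hT₁, mul_div_cancel₀ _ hm.ne', Real.exp_neg, Real.exp_log (by norm_num)]
    norm_num
  obtain ⟨δ₁, hδ₁, hgr⟩ := ent_growth N hf H hT₁0 one_pos
  obtain ⟨L, hL, hreg⟩ := ent_reg N hf
  have hsm : 0 < √m := Real.sqrt_pos.2 hm
  obtain ⟨Tp, hTp, hhair⟩ := hair N hf H (c := √m) (η := δ₁ / 2) (r := δ₁ / (2 * L)) (ε := δ)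
    hsm (by linarith) (by positivity) (by positivity) hδ
  obtain ⟨C, hC1, hhar⟩ := ent_harnack N hf (τ₁ := Tp) (τ₂ := Tp + T₁) hTp (by linarith) 0
  have hC0 : 0 < C := lt_of_lt_of_le one_pos hC1
  obtain ⟨n₀, hn₀⟩ := pow_unbounded_of_one_lt (A * C) (one_lt_two)
  refine ⟨Tp + (n₀ + 1) * T₁, by positivity, ?_⟩
  intro T hT ψ hψ t x
  have hψ0 : ∀ t x, 0 ≤ ψ t x := fun t x => ((hψ.dat t).mem x).1
  by_cases hcase : ∃ t', t ≤ t' ∧ t' ≤ t + T - Tp ∧ δ₁ < ψ t' x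
  · obtain ⟨t', h1, h2, h3⟩ := hcase
    refine le_trans (min_le_right _ _) ?_
    have h4 : ∀ y, ‖y - x‖ ≤ δ₁ / (2 * L) → δ₁ / 2 ≤ ψ t' y := by
      intro y hy
      have h5 := (hreg ψ hψ).1 t' x y
      rw [norm_sub_rev] at h5
      have h6 : L * ‖y - x‖ ≤ δ₁ / 2 := by
        calc L * ‖y - x‖ ≤ L * (δ₁ / (2 * L)) := by gcongr
          _ = δ₁ / 2 := by field_simp
      have h7 := (abs_le.1 (h5.trans h6)).2
      linarith
    have h5 := hhair (t + T - t') (by linarith) (ψ t') (hψ.dat t') x h4 x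
      (by rw [sub_self, norm_zero]; exact mul_nonneg hsm.le (by linarith))
    rw [← hψ.flow t' (t + T - t') (by linarith) x] at h5
    have e : t' + (t + T - t') = t + T := by ring
    rwa [e] at h5
  · push Not at hcase
    refine le_trans (min_le_left _ _) ?_
    set j : ℕ := ⌊(T - Tp) / T₁⌋₊ with hj
    have hTT : 0 ≤ (T - Tp) / T₁ := by
      apply div_nonneg _ hT₁0.le
      have : 0 ≤ ((n₀:ℝ) + 1) * T₁ := by positivity
      linarith
    have hj1 : (j : ℝ) * T₁ ≤ T - Tp := by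
      have := Nat.floor_le hTT
      rw [← hj] at this
      calc (j : ℝ) * T₁ ≤ (T - Tp) / T₁ * T₁ := by gcongr
        _ = T - Tp := by field_simp
    have hj2 : T - Tp < ((j : ℝ) + 1) * T₁ := by
      have := Nat.lt_floor_add_one ((T - Tp) / T₁)
      rw [← hj] at this
      calc T - Tp = (T - Tp) / T₁ * T₁ := by field_simp
        _ < ((j : ℝ) + 1) * T₁ := by gcongr
    have hjn : n₀ ≤ j := by
      rw [hj]
      apply Nat.le_floor
      rw [le_div_iff₀ hT₁0]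
      nlinarith
    have hind : ∀ i : ℕ, i ≤ j → 2 ^ i * ψ t x ≤ ψ (t + i * T₁) x := by
      intro i
      induction i with
      | zero => intro _; simp
      | succ i ih =>
        intro hi
        have h1 := ih (by omega)
        have h2 : ((i:ℝ) + 1) * T₁ ≤ T - Tp := by
          refine le_trans ?_ hj1
          have : ((i:ℝ) + 1) ≤ j := by exact_mod_cast hi
          gcongr
        have h3 : ψ (t + i * T₁ + T₁) x ≤ δ₁ := by
          apply hcase
          · have : 0 ≤ (i:ℝ) * T₁ := by positivity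
            linarith
          · linarith
        have h4 := hgr ψ hψ (t + i * T₁) x h3
        rw [hexp] at h4
        have e : t + ((i + 1 : ℕ) : ℝ) * T₁ = t + i * T₁ + T₁ := by push_cast; ring
        rw [e, pow_succ]
        linarith
    have h1 := hind j le_rfl
    have h2 := hhar (fun _ _ => 0) ψ (rat_ent_zero N hf) hψ (fun t x => hψ0 t x) (T - j * T₁)
      ⟨by linarith, by linarith⟩ (t + T) x x (by simp)
    simp only [sub_zero] at h2
    have e : t + T - (T - j * T₁) = t + j * T₁ := by ring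
    rw [e] at h2
    have h3 : A * C ≤ 2 ^ j := by
      refine hn₀.le.trans ?_
      exact pow_le_pow_right₀ one_le_two hjn
    have h4 : 2 ^ j * ψ t x ≤ C * ψ (t + T) x := h1.trans h2
    have h5 : (A * C) * ψ t x ≤ C * ψ (t + T) x :=
      le_trans (mul_le_mul_of_nonneg_right h3 (hψ0 t x)) h4
    have h6 : C * (A * ψ t x) ≤ C * ψ (t + T) x := by linarith
    exact le_of_mul_le_mul_left h6 hC0

end

end Pool.Agent.AP157
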