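import Pool.Agent.AP157.Reach

/-!
# The sliding argument
-/

set_option autoImplicit false

open MeasureTheory Real Set Filter Topology
open scoped ENNReal

namespace Pool.Agent.AP157

open Pool.Agent.X297.KP

noncomputable section

variable {N : ℕ} {f : ℝ → ℝ} {M : ℝ} {z : Set (E N) → ℝ → E N → ℝ} {α δ ω : ℝ}

theorem Ent.shift (hf : Nl f M) {v : ℝ → E N → ℝ} (hv : Ent f M v) (s : ℝ) (h : E N) :
    Ent f M (fun t x => v (t + s) (x + h)) := by
  refine ⟨fun t => dat_trans (hv.dat _) h, fun t r hr x => ?_⟩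
  rw [S_trans hf (hv.dat _) r h x, ← hv.flow _ _ hr]
  congr 1
  ring

/-- The sliding argument: `ψ(t, x - h) ≤ ψ(t + T, x)` for `T ≥ κ ⟨e, h⟩`. -/
theorem slide (Z : ZFam f M z) (B : Bst f α δ ω) {K : Set (E N)} (hK : K.Nonempty)
    {κ C ts : ℝ} (hκ : 0 < κ) (hC : 0 ≤ C) (hts : 0 ≤ ts) (A : Arr κ C ts K (tau (Seed z) K))
    {e : E N} (he : ‖e‖ = 1) {g : E N → ℝ} (hg : Dat g) {Ta Tc C₁ γ : ℝ}
    (hu : Ub z K (fun t => S f M t g) Ta Tc C₁ γ)
    {ψ : ℝ → E N → ℝ} (hψ : ψ ∈ Om K e (fun t => S f M t g)) (t : ℝ) (x h : E N) {T : ℝ}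
    (hT : κ * inner ℝ e h ≤ T) : ψ t (x - h) ≤ ψ (t + T) x := by
  have hf := Z.nl
  set O := Om K e (fun t => S f M t g) with hO
  obtain ⟨L, hL, hLs⟩ := ent_reg N hf
  obtain ⟨L', hL', hq⟩ := Om_quasi Z hu (e := e)
  have hent : ∀ ψ ∈ O, Ent f M ψ := fun ψ hψ => Om_ent hf hg hψ
  set 𝒯 : Set ℝ := {T | ∀ T', T ≤ T' → ∀ ψ ∈ O, ∀ t x, ψ t (x - h) ≤ ψ (t + T') x} with h𝒯
  suffices hmain : κ * inner ℝ e h ∈ 𝒯 from hmain T hT ψ hψ t x
  by_contra hcon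
  have hne : 𝒯.Nonempty := ⟨L' * (1 + ‖h‖), fun T' hT' ψ hψ t x => hq ψ hψ t x h T' hT'⟩
  have hup : ∀ T ∈ 𝒯, ∀ T', T ≤ T' → T' ∈ 𝒯 := fun T hT T' hTT' T'' hT'' =>
    hT T'' (hTT'.trans hT'')
  have hbd : ∀ T ∈ 𝒯, κ * inner ℝ e h ≤ T := by
    intro T hT
    by_contra hlt
    push Not at hlt
    exact hcon (hup T hT _ hlt.le)
  set Q := sInf 𝒯 with hQ
  have hQT : Q ∈ 𝒯 := by
    intro T' hT' ψ hψ t x
    -- approximate from above
    have h1 : ∀ r ∈ Ioc (0:ℝ) 1, ψ t (x - h) ≤ ψ (t + T') x + L * √r := by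
      intro r hr
      obtain ⟨T'', hT'', hlt⟩ := exists_lt_of_csInf_lt hne (by linarith [hr.1] : sInf 𝒯 < T' + r)
      have h2 := hT'' (T' + r) hlt.le ψ hψ t x
      have h3 := (abs_le.mp ((hLs ψ (hent ψ hψ)).2 (t + T') r ⟨hr.1.le, hr.2⟩ x)).2
      have e1 : t + (T' + r) = t + T' + r := by ring
      rw [e1] at h2
      linarith
    have h2 : Tendsto (fun r : ℝ => ψ (t + T') x + L * √r) (𝓝[>] 0)
        (𝓝 (ψ (t + T') x + L * √0)) := by
      apply Tendsto.mono_left _ nhdsWithin_le_nhds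
      exact ((Real.continuous_sqrt.tendsto 0).const_mul L).const_add _
    rw [Real.sqrt_zero, mul_zero, add_zero] at h2
    refine ge_of_tendsto h2 ?_
    filter_upwards [Ioc_mem_nhdsGT (zero_lt_one' ℝ)] with r hr
    exact h1 r hr
  have hQlt : κ * inner ℝ e h < Q := by
    refine lt_of_le_of_ne (hbd Q hQT) (fun heq => hcon ?_)
    rw [heq]
    exact hQT
  -- failures just below `Q`
  have hfail : ∀ n : ℕ, ∃ φ ∈ O, 2 * δ ≤ φ 0 (-h) ∧ φ 0 (-h) ≤ 1 - 2 * δ + L * √(1 / ((n:ℝ) + 1)) ∧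
      φ Q 0 ≤ φ 0 (-h) + L * √(1 / ((n:ℝ) + 1)) := by
    intro n
    have hn0 : 0 < 1 / ((n:ℝ) + 1) := by positivity
    have hn1 : 1 / ((n:ℝ) + 1) ≤ 1 := by
      rw [div_le_one (by positivity)]
      have : (0:ℝ) ≤ n := by positivity
      linarith
    have h1 : Q - 1 / ((n:ℝ) + 1) ∉ 𝒯 := by
      intro hmem
      have := csInf_le ⟨_, fun T hT => hbd T hT⟩ hmem
      linarith
    rw [h𝒯, mem_ofPred_eq] at h1
    push Not at h1
    obtain ⟨T', hT', ψ₁, hψ₁, t₁, x₁, hlt⟩ := h1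
    have hT'Q : T' < Q := by
      by_contra hge
      push Not at hge
      exact absurd (hQT T' hge ψ₁ hψ₁ t₁ x₁) (not_le.mpr hlt)
    have hE := hent ψ₁ hψ₁
    have hmod : ∀ t x, ψ₁ (t + Q) x ≤ ψ₁ (t + T') x + L * √(1 / ((n:ℝ) + 1)) := by
      intro t x
      have h2 := (abs_le.mp ((hLs ψ₁ hE).2 (t + T') (Q - T') ⟨by linarith, by linarith⟩ x)).2
      have e1 : t + T' + (Q - T') = t + Q := by ring
      rw [e1] at h2
      have h3 : L * √(Q - T') ≤ L * √(1 / ((n:ℝ) + 1)) :=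
        mul_le_mul_of_nonneg_left (Real.sqrt_le_sqrt (by linarith)) hL.le
      linarith
    have hEa : Ent f M (fun t x => ψ₁ t (x - h)) := by
      have := hE.shift hf 0 (-h)
      simpa [sub_eq_add_neg] using this
    have hEb : Ent f M (fun t x => ψ₁ (t + T') x) := by
      have := hE.shift hf T' 0
      simpa using this
    obtain ⟨t₂, x₂, h3, h4, h5⟩ : ∃ t₂ x₂, ψ₁ (t₂ + T') x₂ < ψ₁ t₂ (x₂ - h) ∧
        2 * δ < ψ₁ t₂ (x₂ - h) ∧ ψ₁ (t₂ + T') x₂ < 1 - 2 * δ := by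
      by_contra hno
      push Not at hno
      have := ent_comp hf B hEa hEb (by
        intro t x hlt
        by_contra hor
        push Not at hor
        exact absurd (hno t x hlt hor.1) (not_le.mpr hor.2)) t₁ x₁
      exact absurd this (not_le.mpr hlt)
    refine ⟨fun t x => ψ₁ (t₂ + t) (x₂ + x), Om_shift hψ₁ t₂ x₂, ?_, ?_, ?_⟩
    · simp only [add_zero, ← sub_eq_add_neg]
      exact h4.le
    · simp only [add_zero, ← sub_eq_add_neg]
      have h6 := hQT Q le_rfl ψ₁ hψ₁ t₂ x₂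
      have h7 := hmod t₂ x₂
      linarith
    · simp only [add_zero, ← sub_eq_add_neg]
      have h7 := hmod t₂ x₂
      linarith
  choose φ hφO hφ1 hφ2 hφ3 using hfail
  obtain ⟨ψ', hψ'E, hψ'⟩ := ulim hf (hyperfilter ℕ) φ
    (fun t => Eventually.of_forall fun i s _ => (hent _ (hφO i)).dat s)
    (fun t => Eventually.of_forall fun i s r _ hr x => (hent _ (hφO i)).flow s r hr x)
  have hψ'O : ψ' ∈ O := Om_closed (hyperfilter ℕ) hφO hψ'
  have hsm : Tendsto (fun n : ℕ => L * √(1 / ((n:ℝ) + 1))) (hyperfilter ℕ) (𝓝 0) := by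
    have h1 : Tendsto (fun n : ℕ => L * √(1 / ((n:ℝ) + 1))) atTop (𝓝 (L * √0)) :=
      ((Real.continuous_sqrt.tendsto 0).comp tendsto_one_div_add_atTop_nhds_zero_nat).const_mul L
    rw [Real.sqrt_zero, mul_zero] at h1
    exact h1.mono_left Nat.hyperfilter_le_atTop
  have g1 : 2 * δ ≤ ψ' 0 (-h) := ge_of_tendsto (hψ' 0 (-h)) (Eventually.of_forall hφ1)
  have g2 : ψ' 0 (-h) ≤ 1 - 2 * δ := by
    have h1 : Tendsto (fun n : ℕ => 1 - 2 * δ + L * √(1 / ((n:ℝ) + 1))) (hyperfilter ℕ)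
        (𝓝 (1 - 2 * δ + 0)) := hsm.const_add _
    rw [add_zero] at h1
    exact le_of_tendsto_of_tendsto (hψ' 0 (-h)) h1 (Eventually.of_forall hφ2)
  have g3 : ψ' Q 0 ≤ ψ' 0 (-h) := by
    have h1 := (hψ' 0 (-h)).add hsm
    rw [add_zero] at h1
    exact le_of_tendsto_of_tendsto (hψ' Q 0) h1 (Eventually.of_forall hφ3)
  have g4 : ∀ t x, ψ' t (x - h) ≤ ψ' (t + Q) x := hQT Q le_rfl ψ' hψ'O
  have g5 : ψ' 0 (-h) = ψ' Q 0 := by
    apply le_antisymm _ g3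
    have := g4 0 0
    simpa using this
  have hEa : Ent f M (fun t x => ψ' t (x - h)) := by
    have := hψ'E.shift hf 0 (-h)
    simpa [sub_eq_add_neg] using this
  have hEb : Ent f M (fun t x => ψ' (t + Q) x) := by
    have := hψ'E.shift hf Q 0
    simpa using this
  have g6 : ∀ t x, ψ' t (x - h) = ψ' (t + Q) x :=
    ent_touch hf hEa hEb g4 (t₀ := 0) (x₀ := 0) (by simpa using g5)
  have g7 : ∀ k : ℕ, ψ' (k * Q) (((k:ℝ) - 1) • h) = ψ' 0 (-h) := by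
    intro k
    induction k with
    | zero => simp
    | succ k ih =>
      have := g6 (k * Q) ((k:ℝ) • h)
      push_cast
      have e1 : ((k:ℝ) + 1) * Q = k * Q + Q := by ring
      have e2 : (k:ℝ) + 1 - 1 = k := by ring
      have e3 : (k:ℝ) • h - h = ((k:ℝ) - 1) • h := by rw [sub_smul, one_smul]
      rw [e1, e2, ← this, e3, ih]
  obtain ⟨k, hk⟩ := reach Z B hK hκ hC hts A he hu hψ'O (p := 2 * δ) (by linarith [B.δ_pos]) g1
    hQlt (ε := δ) B.δ_pos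
  rw [g7 k] at hk
  linarith [B.δ_pos]

end

end Pool.Agent.AP157
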