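import Pool.Agent.AP157.Hair
import Pool.Agent.AP157.Gro
import Pool.Agent.AP157.Har
import Pool.Agent.AP157.Rat
import Pool.Agent.AP157.Blk
import Pool.Agent.AP157.Slide
import Pool.Agent.AP157.EntC
import Pool.Agent.AP157.Ulim

/-!
# The sliding argument for monostable nonlinearities

`O` is a class of entire solutions, invariant under translations in space and time and closed under
limits, such that `ψ(t, x + k h) ≤ A ψ(t, x)` for all `k`.  Then `ψ(t, x + h) ≤ ψ(t + σ, x)` for all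
`σ ≥ 0`.
-/

set_option autoImplicit false

open MeasureTheory Real Set Filter Topology
open scoped ENNReal

namespace Pool.Agent.AP157

open Pool.Agent.X297.KP

noncomputable section

variable {N : ℕ} {f : ℝ → ℝ} {M m : ℝ}

theorem ent_zero (hf : Nl f M) : Ent f M (fun (_ : ℝ) (_ : E N) => (0:ℝ)) := by
  refine ⟨fun _ => dat_const ⟨le_rfl, zero_le_one⟩, fun t s _ x => ?_⟩
  exact (S_const_eq hf ⟨le_rfl, zero_le_one⟩ hf.zero _ _).symm

theorem Ent.nonneg {v : ℝ → E N → ℝ} (hv : Ent f M v) (t : ℝ) (x : E N) : 0 ≤ v t x :=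
  ((hv.dat t).mem x).1

theorem Ent.le_one {v : ℝ → E N → ℝ} (hv : Ent f M v) (t : ℝ) (x : E N) : v t x ≤ 1 :=
  ((hv.dat t).mem x).2

/-- An entire solution which is positive somewhere is positive everywhere. -/
theorem Ent.pos_of (hf : Nl f M) {v : ℝ → E N → ℝ} (hv : Ent f M v) {t₀ : ℝ} {x₀ : E N}
    (h : 0 < v t₀ x₀) (t : ℝ) (x : E N) : 0 < v t x := by
  refine lt_of_le_of_ne (hv.nonneg t x) (fun h0 => ?_)
  have := ent_touch hf (ent_zero hf) hv (fun t x => hv.nonneg t x) (t₀ := t) (x₀ := x) h0 t₀ x₀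
  linarith

/-- Positive values spread. -/
theorem Ent.spread (hf : Nl f M) (H : Mn f m) {v : ℝ → E N → ℝ} (hv : Ent f M v) {t₀ : ℝ}
    {x₀ : E N} (h : 0 < v t₀ x₀) {ε : ℝ} (hε : 0 < ε) : ∃ T : ℝ, 0 < T ∧ ∀ s, T ≤ s →
      1 - ε ≤ v (t₀ + s) x₀ := by
  obtain ⟨L, hL, hLs⟩ := ent_reg N hf
  have hm := Real.sqrt_pos.mpr H.m_pos
  obtain ⟨T, hT, hTs⟩ := hair N hf H (c := √m) (η := v t₀ x₀ / 2) (r := v t₀ x₀ / (2 * L)) (ε := ε)
    hm (by linarith) (by positivity) (by positivity) hε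
  refine ⟨T, hT, fun s hs => ?_⟩
  rw [hv.flow t₀ s (hT.le.trans hs)]
  refine hTs s hs (v t₀) (hv.dat t₀) x₀ (fun y hy => ?_) x₀ ?_
  · have h1 := (abs_le.mp ((hLs v hv).1 t₀ y x₀)).1
    have h2 : L * ‖y - x₀‖ ≤ v t₀ x₀ / 2 := by
      calc L * ‖y - x₀‖ ≤ L * (v t₀ x₀ / (2 * L)) := mul_le_mul_of_nonneg_left hy hL.le
        _ = v t₀ x₀ / 2 := by field_simp
    linarith
  · rw [sub_self, norm_zero]
    have := hT.le.trans hs
    positivity

theorem slide3 (hf : Nl f M) (H : Mn f m) {A : ℝ} (hA : 1 ≤ A) {O : Set (ℝ → E N → ℝ)}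
    (hE : ∀ ψ ∈ O, Ent f M ψ)
    (hsh : ∀ ψ ∈ O, ∀ s y, (fun t x => ψ (s + t) (y + x)) ∈ O)
    (hcl : ∀ Ψ : ℕ → ℝ → E N → ℝ, (∀ i, Ψ i ∈ O) → ∀ ψ : ℝ → E N → ℝ,
      (∀ t x, Tendsto (fun i => Ψ i t x) (hyperfilter ℕ) (𝓝 (ψ t x))) → ψ ∈ O)
    {h : E N} (hb : ∀ ψ ∈ O, ∀ k : ℕ, ∀ t x, ψ t (x + (k:ℝ) • h) ≤ A * ψ t x)
    {ψ : ℝ → E N → ℝ} (hψ : ψ ∈ O) (t : ℝ) (x : E N) {σ : ℝ} (hσ : 0 ≤ σ) :
    ψ t (x + h) ≤ ψ (t + σ) x := by
  have hA0 : 0 < A := by linarith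
  obtain ⟨L, hL, hLs⟩ := ent_reg N hf
  obtain ⟨δ, hδ, hδ2, hbulk⟩ := ent_bulk N hf H
  have hEa : ∀ ψ ∈ O, Ent f M (fun t x => ψ t (x + h)) := fun ψ hψ => by
    have := (hE ψ hψ).shift hf 0 h
    simpa using this
  have hEb : ∀ ψ ∈ O, ∀ T, Ent f M (fun t x => ψ (t + T) x) := fun ψ hψ T => by
    have := (hE ψ hψ).shift hf T 0
    simpa using this
  have hb1 : ∀ ψ ∈ O, ∀ t x, ψ t (x + h) ≤ A * ψ t x := fun ψ hψ t x => by
    simpa using hb ψ hψ 1 t x
  set 𝒯 : Set ℝ := {T | 0 ≤ T ∧ ∀ T', T ≤ T' → ∀ ψ ∈ O, ∀ t x, ψ t (x + h) ≤ ψ (t + T') x}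
    with h𝒯
  suffices hmain : (0:ℝ) ∈ 𝒯 from hmain.2 σ hσ ψ hψ t x
  have hne : 𝒯.Nonempty := by
    obtain ⟨T₀, hT₀, hr⟩ := ent_ratio N hf H hA0 hδ
    refine ⟨T₀, hT₀.le, fun T' hT' ψ hψ t x => ?_⟩
    refine hbulk (fun t x => ψ t (x + h)) (fun t x => ψ (t + T') x) (hEa ψ hψ) (hEb ψ hψ T')
      (fun t x hlt => ?_) t x
    have h1 := hr T' hT' ψ (hE ψ hψ) t x
    rcases min_le_iff.mp h1 with h2 | h2
    · exact absurd hlt (not_lt.mpr ((hb1 ψ hψ t x).trans h2))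
    · exact h2
  have hbd : ∀ T ∈ 𝒯, 0 ≤ T := fun T hT => hT.1
  by_contra hcon
  set Q := sInf 𝒯 with hQ
  have hQT : Q ∈ 𝒯 := by
    refine ⟨le_csInf hne hbd, ?_⟩
    intro T' hT' ψ hψ t x
    have h1 : ∀ r ∈ Ioc (0:ℝ) 1, ψ t (x + h) ≤ ψ (t + T') x + L * √r := by
      intro r hr
      obtain ⟨T'', hT'', hlt⟩ := exists_lt_of_csInf_lt hne (by linarith [hr.1] : sInf 𝒯 < T' + r)
      have h2 := hT''.2 (T' + r) hlt.le ψ hψ t x
      have h3 := (abs_le.mp ((hLs ψ (hE ψ hψ)).2 (t + T') r ⟨hr.1.le, hr.2⟩ x)).2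
      have e1 : t + (T' + r) = t + T' + r := by ring
      rw [e1] at h2
      linarith
    have h2 : Tendsto (fun r : ℝ => ψ (t + T') x + L * √r) (𝓝[>] 0)
        (𝓝 (ψ (t + T') x + L * √0)) := by
      apply Tendsto.mono_left _ nhdsWithin_le_nhds
      exact ((Real.continuous_sqrt.tendsto 0).const_mul L).const_add _
    rw [Real.sqrt_zero, mul_zero, add_zero] at h2
    refine ge_of_tendsto h2 ?_
    filter_upwards [Ioc_mem_nhdsGT (zero_lt_one' ℝ)] with r hr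
    exact h1 r hr
  have hQ0 : 0 < Q := by
    refine lt_of_le_of_ne (hbd Q hQT) (fun heq => hcon ?_)
    rw [heq]
    exact hQT
  -- failures just below `Q`
  have hfail : ∀ n : ℕ, ∃ φ ∈ O, ∃ s, Q / 2 ≤ s ∧ s < Q ∧ Q - s ≤ 1 / ((n:ℝ) + 1) ∧
      φ s 0 < φ 0 h ∧ φ s 0 < 1 - δ := by
    intro n
    have hn0 : 0 < 1 / ((n:ℝ) + 1) := by positivity
    have h1 : max (Q - 1 / ((n:ℝ) + 1)) (Q / 2) ∉ 𝒯 := by
      intro hmem
      have h2 := csInf_le ⟨0, fun T hT => hbd T hT⟩ hmem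
      have h3 : max (Q - 1 / ((n:ℝ) + 1)) (Q / 2) < Q := max_lt (by linarith) (by linarith)
      exact absurd h3 (not_lt.mpr h2)
    have h0 : 0 ≤ max (Q - 1 / ((n:ℝ) + 1)) (Q / 2) := le_max_of_le_right (by linarith)
    rw [h𝒯, mem_ofPred_eq] at h1
    push Not at h1
    obtain ⟨T', hT', ψ₁, hψ₁, t₁, x₁, hlt⟩ := h1 h0
    have hT'Q : T' < Q := by
      by_contra hge
      push Not at hge
      exact absurd (hQT.2 T' hge ψ₁ hψ₁ t₁ x₁) (not_le.mpr hlt)
    have hT'1 : Q - 1 / ((n:ℝ) + 1) ≤ T' := (le_max_left _ _).trans hT'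
    have hT'2 : Q / 2 ≤ T' := (le_max_right _ _).trans hT'
    obtain ⟨t₂, x₂, h3, h4⟩ : ∃ t₂ x₂, ψ₁ (t₂ + T') x₂ < ψ₁ t₂ (x₂ + h) ∧
        ψ₁ (t₂ + T') x₂ < 1 - δ := by
      by_contra hno
      push Not at hno
      exact absurd (hbulk (fun t x => ψ₁ t (x + h)) (fun t x => ψ₁ (t + T') x) (hEa ψ₁ hψ₁)
        (hEb ψ₁ hψ₁ T') (fun t x hlt => hno t x hlt) t₁ x₁) (not_le.mpr hlt)
    refine ⟨fun t x => ψ₁ (t₂ + t) (x₂ + x), hsh ψ₁ hψ₁ t₂ x₂, T', hT'2, hT'Q, by linarith, ?_, ?_⟩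
    · simpa using h3
    · simpa using h4
  choose φ hφO s hs1 hs2 hs3 hφ1 hφ2 using hfail
  obtain ⟨ψ', hψ'E, hψ'⟩ := ulim hf (hyperfilter ℕ) φ
    (fun t => Eventually.of_forall fun i s _ => (hE _ (hφO i)).dat s)
    (fun t => Eventually.of_forall fun i s r _ hr x => (hE _ (hφO i)).flow s r hr x)
  have hψ'O : ψ' ∈ O := hcl φ hφO ψ' hψ'
  have hsm0 : Tendsto (fun n : ℕ => 1 / ((n:ℝ) + 1)) (hyperfilter ℕ) (𝓝 0) :=
    tendsto_one_div_add_atTop_nhds_zero_nat.mono_left Nat.hyperfilter_le_atTop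
  have hsm : Tendsto (fun n : ℕ => L * √(1 / ((n:ℝ) + 1))) (hyperfilter ℕ) (𝓝 0) := by
    have h1 : Tendsto (fun n : ℕ => L * √(1 / ((n:ℝ) + 1))) (hyperfilter ℕ) (𝓝 (L * √0)) :=
      ((Real.continuous_sqrt.tendsto 0).comp hsm0).const_mul L
    rwa [Real.sqrt_zero, mul_zero] at h1
  have hmod : ∀ n, φ n Q 0 ≤ φ n (s n) 0 + L * √(1 / ((n:ℝ) + 1)) := by
    intro n
    have hn1 : 1 / ((n:ℝ) + 1) ≤ 1 := by
      rw [div_le_one (by positivity)]
      have : (0:ℝ) ≤ n := by positivity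
      linarith
    have h2 := (abs_le.mp ((hLs (φ n) (hE _ (hφO n))).2 (s n) (Q - s n)
      ⟨by linarith [hs2 n], by linarith [hs3 n]⟩ 0)).2
    rw [add_sub_cancel] at h2
    have h3 : L * √(Q - s n) ≤ L * √(1 / ((n:ℝ) + 1)) :=
      mul_le_mul_of_nonneg_left (Real.sqrt_le_sqrt (hs3 n)) hL.le
    linarith
  by_cases hpos : 0 < ψ' 0 h
  · -- the limit is nontrivial
    have g2 : ψ' Q 0 ≤ 1 - δ := by
      have h1 : Tendsto (fun n : ℕ => 1 - δ + L * √(1 / ((n:ℝ) + 1))) (hyperfilter ℕ)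
          (𝓝 (1 - δ + 0)) := hsm.const_add _
      rw [add_zero] at h1
      refine le_of_tendsto_of_tendsto (hψ' Q 0) h1 (Eventually.of_forall fun n => ?_)
      have := hmod n
      have := hφ2 n
      simp only
      linarith
    have g3 : ψ' Q 0 ≤ ψ' 0 h := by
      have h1 := (hψ' 0 h).add hsm
      rw [add_zero] at h1
      refine le_of_tendsto_of_tendsto (hψ' Q 0) h1 (Eventually.of_forall fun n => ?_)
      have := hmod n
      have := hφ1 n
      simp only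
      linarith
    have g4 : ∀ t x, ψ' t (x + h) ≤ ψ' (t + Q) x := hQT.2 Q le_rfl ψ' hψ'O
    have g5 : ψ' 0 h = ψ' Q 0 := by
      apply le_antisymm _ g3
      have := g4 0 0
      simpa using this
    have g6 : ∀ t x, ψ' t (x + h) = ψ' (t + Q) x :=
      ent_touch hf (hEa ψ' hψ'O) (hEb ψ' hψ'O Q) g4 (t₀ := 0) (x₀ := 0) (by simpa using g5)
    have g7 : ∀ k : ℕ, ∀ t x, ψ' (t + k * Q) x = ψ' t (x + (k:ℝ) • h) := by
      intro k
      induction k with
      | zero => intro t x; simp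
      | succ k ih =>
        intro t x
        have e1 : t + ((k + 1 : ℕ) : ℝ) * Q = t + k * Q + Q := by push_cast; ring
        have e2 : x + ((k + 1 : ℕ) : ℝ) • h = x + h + (k:ℝ) • h := by
          push_cast
          rw [add_smul, one_smul]
          abel
        rw [e1, ← g6, ih, e2]
    have g8 : ∀ t x, 1 / (2 * A) ≤ ψ' t x := by
      intro t x
      obtain ⟨T, hT, hTs⟩ := hψ'E.spread hf H (hψ'E.pos_of hf hpos t x) (ε := 1 / 2) (by norm_num)
      obtain ⟨k, hk⟩ := exists_nat_ge (T / Q)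
      rw [div_le_iff₀ hQ0] at hk
      have h1 := hTs (k * Q) hk
      rw [g7 k t x] at h1
      have h2 := hb ψ' hψ'O k t x
      rw [div_le_iff₀ (by positivity)]
      linarith
    obtain ⟨T, hT, hTs⟩ := hair N hf H (c := √m) (η := 1 / (2 * A)) (r := 1) (ε := δ / 2)
      (Real.sqrt_pos.mpr H.m_pos) (by have := Real.sqrt_pos.mpr H.m_pos; linarith)
      (by positivity) one_pos (by positivity)
    have h1 := hTs T le_rfl (ψ' (Q - T)) (hψ'E.dat _) 0 (fun y _ => g8 _ y) 0 (by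
      rw [sub_self, norm_zero]; positivity)
    rw [← hψ'E.flow _ _ hT.le, sub_add_cancel] at h1
    linarith
  · -- the limit is zero
    have hz : ψ' 0 h = 0 := le_antisymm (not_lt.mp hpos) (hψ'E.nonneg _ _)
    have hm := H.m_pos
    obtain ⟨C₀, hC₀, hH₀⟩ := ent_harnack N hf (τ₁ := Q / 2) (τ₂ := Q) (by linarith) (by linarith) 0
    -- choice of `k`
    obtain ⟨k, hk⟩ : ∃ k : ℕ, 2 * A * C₀ * Real.exp (-(m * (k * Q))) ≤ 1 / 2 := by
      have h1 : Tendsto (fun k : ℕ => 2 * A * C₀ * Real.exp (-(m * (k * Q)))) atTop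
          (𝓝 (2 * A * C₀ * 0)) := by
        apply Tendsto.const_mul
        apply Real.tendsto_exp_neg_atTop_nhds_zero.comp
        apply Tendsto.const_mul_atTop hm
        exact Tendsto.atTop_mul_const hQ0 tendsto_natCast_atTop_atTop
      rw [mul_zero] at h1
      exact (h1.eventually_le_const (by norm_num : (0:ℝ) < 1 / 2)).exists
    have hk0 : 0 < k := by
      rcases Nat.eq_zero_or_pos k with h0 | h0
      · rw [h0] at hk
        simp at hk
        nlinarith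
      · exact h0
    have hk1 : (1:ℝ) ≤ k := by exact_mod_cast hk0
    have hkQ : 0 < k * Q := by positivity
    obtain ⟨C₁, hC₁, hH₁⟩ := ent_harnack N hf (τ₁ := Q / 2) (τ₂ := k * Q) (by linarith)
      (by nlinarith) (k * ‖h‖)
    set ε₁ : ℝ := 1 / (4 * k * C₁) with hε₁
    have hε₁0 : 0 < ε₁ := by positivity
    obtain ⟨h₀, hh₀, hcont⟩ := ent_cont N hf (τ₁ := Q / 2) (τ₂ := Q) (by linarith) (by linarith)
      ‖h‖ hε₁0
    obtain ⟨δ₁, hδ₁, hgr⟩ := ent_growth N hf H hkQ one_pos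
    -- choice of `n`
    have hev1 : ∀ᶠ n : ℕ in (hyperfilter ℕ : Filter ℕ), 1 / ((n:ℝ) + 1) ≤ h₀ :=
      hsm0.eventually_le_const hh₀
    have hev2 : ∀ᶠ n in (hyperfilter ℕ : Filter ℕ), C₀ * φ n 0 h ≤ δ₁ := by
      have h1 := (hψ' 0 h).const_mul C₀
      rw [hz, mul_zero] at h1
      exact h1.eventually_le_const hδ₁
    obtain ⟨n, hn1, hn2⟩ := (hev1.and hev2).exists
    have hEn := hE _ (hφO n)
    set w := φ n with hw
    set σ := s n with hσd
    have hσ1 : Q / 2 ≤ σ := hs1 n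
    have hσ2 : σ < Q := hs2 n
    have hσ3 : Q - σ ≤ h₀ := (hs3 n).trans hn1
    have hlt : w σ 0 < w 0 h := hφ1 n
    have hμ : 0 < w σ 0 := by
      apply hEn.pos_of hf (t₀ := 0) (x₀ := h)
      exact lt_of_le_of_lt (hEn.nonneg σ 0) hlt
    set μ := w σ 0 with hμd
    -- first estimate
    have a1 : w 0 h ≤ w (σ - Q) h + ε₁ * μ := by
      have := hcont w hEn σ ⟨hσ1, hσ2.le⟩ (Q - σ) ⟨by linarith, hσ3⟩ σ 0 h (by simp)
      rw [sub_self, zero_sub, neg_sub] at this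
      exact this
    -- Harnack chain
    have hab : ∀ t x, w t (x + h) ≤ w (t + Q) x := hQT.2 Q le_rfl w (hφO n)
    have a2 : ∀ j : ℕ, 1 ≤ j → j ≤ k →
        w (-(j * Q) + Q) ((j:ℝ) • h) - w (-(j * Q)) ((j:ℝ) • h + h) ≤ C₁ * (ε₁ * μ) := by
      intro j hj hjk
      have hj1 : (1:ℝ) ≤ j := by exact_mod_cast hj
      have hj2 : (j:ℝ) ≤ k := by exact_mod_cast hjk
      have h1 := hH₁ (fun t x => w t (x + h)) (fun t x => w (t + Q) x) (hEa _ (hφO n))
        (hEb _ (hφO n) Q) hab ((j - 1) * Q + σ) ⟨by nlinarith, by nlinarith⟩ (σ - Q) 0 ((j:ℝ) • h)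
        (by
          rw [sub_zero, norm_smul, Real.norm_eq_abs, abs_of_nonneg (by positivity)]
          exact mul_le_mul_of_nonneg_right hj2 (norm_nonneg _))
      have e1 : σ - Q - ((j - 1) * Q + σ) = -(j * Q) := by ring
      have e2 : σ - Q + Q = σ := by ring
      rw [e1, e2, zero_add] at h1
      refine h1.trans (mul_le_mul_of_nonneg_left ?_ (by linarith))
      linarith
    have a3 : ∀ j : ℕ, j ≤ k → w 0 h - j * (C₁ * (ε₁ * μ)) ≤ w (-(j * Q)) ((j:ℝ) • h + h) := by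
      intro j
      induction j with
      | zero => intro _; simp
      | succ j ih =>
        intro hj
        have h1 := ih (by omega)
        have h2 := a2 (j + 1) (by omega) hj
        push_cast at h2 ⊢
        have e1 : -(((j:ℝ) + 1) * Q) + Q = -(j * Q) := by ring
        have e2 : ((j:ℝ) + 1) • h = (j:ℝ) • h + h := by rw [add_smul, one_smul]
        rw [e1, e2] at h2
        rw [e2]
        linarith
    have a4 := a3 k le_rfl
    have a5 : k * (C₁ * (ε₁ * μ)) = μ / 4 := by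
      rw [hε₁]
      field_simp
    rw [a5] at a4
    -- upper bound
    have b1 : w (-(k * Q)) ((k:ℝ) • h + h) ≤ A * w (-(k * Q)) 0 := by
      have := hb w (hφO n) (k + 1) (-(k * Q)) 0
      rw [zero_add] at this
      push_cast at this
      rwa [add_smul, one_smul] at this
    have b2 : w 0 0 ≤ C₀ * μ := by
      have h1 := hH₀ _ w (ent_zero hf) hEn (fun t x => hEn.nonneg t x) σ ⟨hσ1, hσ2.le⟩ σ 0 0
        (by simp)
      simpa using h1
    have b3 : w (-(k * Q)) 0 ≤ (1 + 1) * Real.exp (-(m * (k * Q))) * w 0 0 := by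
      have h1 := hgr w hEn (-(k * Q)) 0 (by
        rw [neg_add_cancel]
        refine b2.trans (le_trans ?_ hn2)
        exact mul_le_mul_of_nonneg_left hlt.le (by linarith))
      rwa [neg_add_cancel] at h1
    have b4 : A * w (-(k * Q)) 0 ≤ μ / 2 := by
      have hexp := Real.exp_pos (-(m * (k * Q)))
      calc A * w (-(k * Q)) 0 ≤ A * ((1 + 1) * Real.exp (-(m * (k * Q))) * (C₀ * μ)) := by
            apply mul_le_mul_of_nonneg_left _ hA0.le
            refine b3.trans ?_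
            apply mul_le_mul_of_nonneg_left b2 (by positivity)
        _ = 2 * A * C₀ * Real.exp (-(m * (k * Q))) * μ := by ring
        _ ≤ 1 / 2 * μ := mul_le_mul_of_nonneg_right hk hμ.le
        _ = μ / 2 := by ring
    linarith

end

end Pool.Agent.AP157
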