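import Pool.Agent.AP157.Wk
import Pool.Agent.AP157.Reg

/-!
# Subadditivity up to the constant A

w t y := min 1 (A (S_t g₁ y + e^{mt} P_t g₂ y)) is a supersolution: with a = S_s g₁ y, q = e^{ms} P_s g₂ y:
Fe(min 1 (A(a+q))) ≤ A (Fe a + (M+m) q).  (If A(a+q) ≤ 1: Fe_eq and hA.2 a q.  If A(a+q) > 1: put a' = a/(A(a+q)), q' = q/(A(a+q)), so A(a'+q') = 1 and hA.2 gives 0 = f 1 ≤ A(f a' + m q'), i.e. Fe 1 = M ≤ A(Fe a' + (M+m) q')
≤ A (Fe a + (M+m) q) by Fe_mono.)  Hence e^{-Mt} P_t g + ∫_0^t e^{-M(t-s)} P_{t-s} Fe(w s) ds ≤ A [e^{-Mt} P_t g₁ + ∫ e^{-M(t-s)} P_{t-s} Fe(S_s g₁)] + A [e^{-Mt} P_t g₂ + ∫ e^{-M(t-s)} (M+m) e^{ms} P_t g₂ ds] = A (S_t g₁ + e^{mt} P_t g₂)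
(duhamel; semigroup property P_{t-s} P_s = P_t), and it is ≤ 1 (Phi_le).  So Phi(w) ≤ w and `comp_mono` in FlowE.lean (w := uu of g as subsolution, w' := ofReal w as supersolution) gives S_t g ≤ w.  Work in ENNReal as in FlowE/Semi, or adapt the
real-valued Gronwall route: D = (S_t g - w)⁺ satisfies D t ≤ ∫_0^t P_{t-s} (2M D s) ds, use `gron_src` (Gsrc.lean).
-/

set_option autoImplicit false

open MeasureTheory Real Set Filter Topology
open scoped ENNReal

namespace Pool.Agent.AP157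

open Pool.Agent.X297.KP

noncomputable section

variable {N : ℕ} {f : ℝ → ℝ} {M m : ℝ}

/-! ## Auxiliary lemmas -/

/-- The pointwise inequality: `A (a + q)`, cut off at `1`, is a supersolution for the nonlinearity. -/
theorem sub_pt (hf : Nl f M) (hm : 0 ≤ m) {A : ℝ} (hA : SubA f m A) {a q : ℝ}
    (ha : a ∈ Icc (0:ℝ) 1) (hq : 0 ≤ q) :
    f (min (A * (a + q)) 1) + M * min (A * (a + q)) 1 ≤ A * (f a + M * a + (M + m) * q) := by
  have hA1 : 1 ≤ A := hA.1
  have hA0 : 0 < A := lt_of_lt_of_le one_pos hA1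
  have hM := hf.pos
  rcases le_or_gt (A * (a + q)) 1 with h | h
  · rw [min_eq_left h]
    have := hA.2 a q ha.1 hq h
    nlinarith
  · rw [min_eq_right h.le, hf.one]
    set l : ℝ := (A * (a + q))⁻¹ with hl
    have hl0 : 0 < l := inv_pos.mpr (by linarith)
    have hl1 : l ≤ 1 := inv_le_one_of_one_le₀ h.le
    have hll : A * (l * a + l * q) = 1 := by
      have h1 : A * (l * a + l * q) = l * (A * (a + q)) := by ring
      rw [h1, hl]
      exact inv_mul_cancel₀ (by linarith)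
    have hla : l * a ≤ a := by
      have := mul_le_mul_of_nonneg_right hl1 ha.1
      linarith
    have hlq : l * q ≤ q := by
      have := mul_le_mul_of_nonneg_right hl1 hq
      linarith
    have hla0 : 0 ≤ l * a := mul_nonneg hl0.le ha.1
    have h2 := hA.2 (l * a) (l * q) hla0 (mul_nonneg hl0.le hq) hll.le
    rw [hll, hf.one] at h2
    have h3 := Fs_mono hf (a := l * a) (b := a) ⟨hla0, hla.trans ha.2⟩ ha hla
    have h4 : (M + m) * (l * q) ≤ (M + m) * q :=
      mul_le_mul_of_nonneg_left hlq (by linarith)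
    have h5 : A * (f (l * a) + M * (l * a) + (M + m) * (l * q)) ≤
        A * (f a + M * a + (M + m) * q) := mul_le_mul_of_nonneg_left (by linarith) hA0.le
    have h6 : A * (f (l * a) + M * (l * a) + (M + m) * (l * q)) =
        A * (f (l * a) + m * (l * q)) + M * (A * (l * a + l * q)) := by ring
    rw [h6, hll] at h5
    linarith

/-- The same inequality for `Gt`. -/
theorem sub_Gt (hf : Nl f M) (hm : 0 ≤ m) {A : ℝ} (hA : SubA f m A) {a q : ℝ≥0∞}
    (ha : a ≤ 1) (hq : q ≠ ⊤) :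
    Gt f M (ENNReal.ofReal A * (a + q)) ≤
      ENNReal.ofReal A * (Gt f M a + ENNReal.ofReal (M + m) * q) := by
  have hA0 : 0 < A := lt_of_lt_of_le one_pos hA.1
  have hM := hf.pos
  have hat : a ≠ ⊤ := ne_of_lt (lt_of_le_of_lt ha ENNReal.one_lt_top)
  have ha0 : 0 ≤ a.toReal := ENNReal.toReal_nonneg
  have hq0 : 0 ≤ q.toReal := ENNReal.toReal_nonneg
  have ha1 : a.toReal ∈ Icc (0:ℝ) 1 := by
    refine ⟨ha0, ?_⟩
    have := ENNReal.toReal_mono ENNReal.one_ne_top ha
    simpa using this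
  have ea : cl a = a.toReal := by unfold cl; rw [min_eq_left ha]
  have e1 : ENNReal.ofReal A * (a + q) = ENNReal.ofReal (A * (a.toReal + q.toReal)) := by
    rw [ENNReal.ofReal_mul hA0.le, ENNReal.ofReal_add ha0 hq0, ENNReal.ofReal_toReal hat,
      ENNReal.ofReal_toReal hq]
  have e2 : cl (ENNReal.ofReal (A * (a.toReal + q.toReal))) =
      min (A * (a.toReal + q.toReal)) 1 := by
    unfold cl
    rw [← ENNReal.ofReal_one, ← ENNReal.ofReal_min, ENNReal.toReal_ofReal]
    exact le_min (by positivity) zero_le_one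
  have e3 : ENNReal.ofReal A * (Gt f M a + ENNReal.ofReal (M + m) * q) =
      ENNReal.ofReal (A * (f a.toReal + M * a.toReal + (M + m) * q.toReal)) := by
    unfold Gt
    rw [ea, ENNReal.ofReal_mul hA0.le, ENNReal.ofReal_add (Fs_nonneg hf ha1)
      (mul_nonneg (by linarith) hq0), ENNReal.ofReal_mul (by linarith : 0 ≤ M + m),
      ENNReal.ofReal_toReal hq]
  rw [e1, e3]
  unfold Gt
  rw [e2]
  exact ENNReal.ofReal_le_ofReal (sub_pt hf hm hA ha1 hq0)

/-- The heat flow with growth rate `m`, extended-real version. -/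
def subQ (m : ℝ) (G : E N → ℝ≥0∞) (t : ℝ) (x : E N) : ℝ≥0∞ :=
  ENNReal.ofReal (Real.exp (m * t)) * ∫⁻ y, ENNReal.ofReal (heatK t (x - y)) * G y

theorem subQ_meas (m : ℝ) {G : E N → ℝ≥0∞} (hG : Measurable G) :
    Measurable (Function.uncurry (subQ m G)) := by
  have h1 := meas_conv0 hG
  have h5 : Measurable (fun p : ℝ × E N => ENNReal.ofReal (Real.exp (m * p.1))) := by fun_prop
  exact h5.mul h1

theorem subQ_ne_top (m : ℝ) {G : E N → ℝ≥0∞} (hG1 : ∀ x, G x ≤ 1) {t : ℝ} (ht : 0 < t) (x : E N) :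
    subQ m G t x ≠ ⊤ := by
  unfold subQ
  apply ENNReal.mul_ne_top ENNReal.ofReal_ne_top
  apply ne_of_lt
  refine lt_of_le_of_lt ?_ ENNReal.one_lt_top
  rw [← lint_heatK ht x]
  apply lintegral_mono
  intro y
  exact mul_le_of_le_one_right' (hG1 y)

/-- The linear part: `subQ` solves the shifted Duhamel formula with the nonlinearity `m b`. -/
theorem subQ_fix (hf : Nl f M) (hm : 0 ≤ m) {G : E N → ℝ≥0∞} (hG : Measurable G) {t : ℝ}
    (ht : 0 < t) (x : E N) :
    ENNReal.ofReal (Real.exp (-(M * t))) * (∫⁻ y, ENNReal.ofReal (heatK t (x - y)) * G y) +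
    (∫⁻ s in Ioo 0 t, ENNReal.ofReal (Real.exp (-(M * (t - s)))) *
      ∫⁻ y, ENNReal.ofReal (heatK (t - s) (x - y)) * (ENNReal.ofReal (M + m) * subQ m G s y)) =
    subQ m G t x := by
  have hM := hf.pos
  have hMm : 0 ≤ M + m := by linarith
  set I : ℝ≥0∞ := ∫⁻ y, ENNReal.ofReal (heatK t (x - y)) * G y with hI
  have e1 : ∫⁻ s in Ioo 0 t, ENNReal.ofReal (Real.exp (-(M * (t - s)))) *
      ∫⁻ y, ENNReal.ofReal (heatK (t - s) (x - y)) * (ENNReal.ofReal (M + m) * subQ m G s y) =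
      ∫⁻ s in Ioo 0 t, ENNReal.ofReal ((M + m) * Real.exp ((M + m) * s - M * t)) * I := by
    apply setLIntegral_congr_fun measurableSet_Ioo
    intro s hs
    have hts : 0 < t - s := by linarith [hs.2]
    have h2 : ∀ y, ENNReal.ofReal (heatK (t - s) (x - y)) *
        (ENNReal.ofReal (M + m) * subQ m G s y) =
        (ENNReal.ofReal (M + m) * ENNReal.ofReal (Real.exp (m * s))) *
          (ENNReal.ofReal (heatK (t - s) (x - y)) *
            ∫⁻ z, ENNReal.ofReal (heatK s (y - z)) * G z) := by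
      intro y
      unfold subQ
      ring
    simp only
    simp_rw [h2]
    rw [lintegral_const_mul' _ _ (ENNReal.mul_ne_top ENNReal.ofReal_ne_top
      ENNReal.ofReal_ne_top), conv_conv hG hts hs.1]
    have e5 : t - s + s = t := by ring
    rw [e5, ← hI, ← mul_assoc]
    congr 1
    rw [← ENNReal.ofReal_mul hMm, ← ENNReal.ofReal_mul (Real.exp_nonneg _)]
    congr 1
    have e6 : (M + m) * s - M * t = -(M * (t - s)) + m * s := by ring
    rw [e6, Real.exp_add]
    ring
  have e2 : ∫⁻ s in Ioo 0 t, ENNReal.ofReal ((M + m) * Real.exp ((M + m) * s - M * t)) =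
      ENNReal.ofReal (Real.exp (m * t) - Real.exp (-(M * t))) := by
    rw [lint_ftc' (g := fun s => (M + m) * Real.exp ((M + m) * s - M * t))
      (G := fun s => Real.exp ((M + m) * s - M * t)) (by fun_prop) ht.le
      (fun s _ _ => mul_nonneg hMm (Real.exp_nonneg _))
      (fun s => by
        have := (((hasDerivAt_id' s).const_mul (M + m)).sub_const (M * t)).exp
        refine this.congr_deriv ?_
        ring)]
    congr 3
    · ring
    · ring
  have e3 : Real.exp (-(M * t)) ≤ Real.exp (m * t) := by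
    apply Real.exp_le_exp.mpr
    have h1 : 0 ≤ M * t := by positivity
    have h2 : 0 ≤ m * t := by positivity
    linarith
  rw [e1, lintegral_mul_const _ (by fun_prop), e2, ← add_mul,
    ← ENNReal.ofReal_add (Real.exp_nonneg _) (by linarith)]
  unfold subQ
  rw [← hI]
  congr 2
  ring

/-- `A (a + b)` is a supersolution. -/
theorem sub_super (hf : Nl f M) (hm : 0 ≤ m) {A : ℝ} (hA : SubA f m A) {G₁ G₂ : E N → ℝ≥0∞}
    (hG₁ : Measurable G₁) (hG₂ : Measurable G₂) (h1 : ∀ x, G₁ x ≤ 1) (h2 : ∀ x, G₂ x ≤ 1)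
    {t : ℝ} (ht : 0 < t) (x : E N) :
    Phi f M (fun y => ENNReal.ofReal A * (G₁ y + G₂ y))
      (fun s y => ENNReal.ofReal A * (uu f M G₁ s y + subQ m G₂ s y)) t x ≤
      ENNReal.ofReal A * (uu f M G₁ t x + subQ m G₂ t x) := by
  have hM := hf.pos
  have hu := uu_meas hf hG₁
  have hGu : Measurable (Function.uncurry (fun s y => Gt f M (uu f M G₁ s y))) :=
    (Gt_cont hf).measurable.comp hu
  have hq := subQ_meas m hG₂
  have hd : ∫⁻ y, ENNReal.ofReal (heatK t (x - y)) * (ENNReal.ofReal A * (G₁ y + G₂ y)) =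
      ENNReal.ofReal A * ((∫⁻ y, ENNReal.ofReal (heatK t (x - y)) * G₁ y) +
        ∫⁻ y, ENNReal.ofReal (heatK t (x - y)) * G₂ y) := by
    have hm0 : Measurable (fun y : E N => ENNReal.ofReal (heatK t (x - y)) * G₁ y) :=
      (kmeas x t).mul hG₁
    rw [← lintegral_add_left hm0, ← lintegral_const_mul' _ _ ENNReal.ofReal_ne_top]
    apply lintegral_congr
    intro y
    ring
  have hn : ∫⁻ s in Ioo 0 t, ENNReal.ofReal (Real.exp (-(M * (t - s)))) *
      ∫⁻ y, ENNReal.ofReal (heatK (t - s) (x - y)) *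
        Gt f M (ENNReal.ofReal A * (uu f M G₁ s y + subQ m G₂ s y)) ≤
      ENNReal.ofReal A * ((∫⁻ s in Ioo 0 t, ENNReal.ofReal (Real.exp (-(M * (t - s)))) *
        ∫⁻ y, ENNReal.ofReal (heatK (t - s) (x - y)) * Gt f M (uu f M G₁ s y)) +
        ∫⁻ s in Ioo 0 t, ENNReal.ofReal (Real.exp (-(M * (t - s)))) *
        ∫⁻ y, ENNReal.ofReal (heatK (t - s) (x - y)) *
          (ENNReal.ofReal (M + m) * subQ m G₂ s y)) := by
    have hm1 : Measurable (fun s : ℝ => ENNReal.ofReal (Real.exp (-(M * (t - s)))) *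
        ∫⁻ y, ENNReal.ofReal (heatK (t - s) (x - y)) * Gt f M (uu f M G₁ s y)) := by
      apply Measurable.mul (by fun_prop)
      exact (meas_inner hGu).comp (f := fun r : ℝ => ((t, x), r)) (by fun_prop)
    rw [← lintegral_add_left hm1, ← lintegral_const_mul' _ _ ENNReal.ofReal_ne_top]
    apply setLIntegral_mono' measurableSet_Ioo
    intro s hs
    have hts : 0 < t - s := by linarith [hs.2]
    have hm2 : Measurable (fun y : E N => ENNReal.ofReal (heatK (t - s) (x - y)) *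
        Gt f M (uu f M G₁ s y)) :=
      (kmeas x _).mul (hGu.comp (f := fun y : E N => (s, y)) (by fun_prop))
    rw [← mul_add, ← lintegral_add_left hm2, mul_left_comm,
      ← lintegral_const_mul' (ENNReal.ofReal A) _ ENNReal.ofReal_ne_top]
    refine mul_le_mul_right (lintegral_mono fun y => ?_) _
    calc ENNReal.ofReal (heatK (t - s) (x - y)) *
          Gt f M (ENNReal.ofReal A * (uu f M G₁ s y + subQ m G₂ s y))
        ≤ ENNReal.ofReal (heatK (t - s) (x - y)) *
          (ENNReal.ofReal A * (Gt f M (uu f M G₁ s y) +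
            ENNReal.ofReal (M + m) * subQ m G₂ s y)) := by
          gcongr
          exact sub_Gt hf hm hA (uu_le hf h1 hs.1 y) (subQ_ne_top m h2 hs.1 y)
      _ = _ := by ring
  calc Phi f M (fun y => ENNReal.ofReal A * (G₁ y + G₂ y))
        (fun s y => ENNReal.ofReal A * (uu f M G₁ s y + subQ m G₂ s y)) t x
      ≤ ENNReal.ofReal (Real.exp (-(M * t))) * (ENNReal.ofReal A *
        ((∫⁻ y, ENNReal.ofReal (heatK t (x - y)) * G₁ y) +
        ∫⁻ y, ENNReal.ofReal (heatK t (x - y)) * G₂ y)) +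
        ENNReal.ofReal A * ((∫⁻ s in Ioo 0 t, ENNReal.ofReal (Real.exp (-(M * (t - s)))) *
        ∫⁻ y, ENNReal.ofReal (heatK (t - s) (x - y)) * Gt f M (uu f M G₁ s y)) +
        ∫⁻ s in Ioo 0 t, ENNReal.ofReal (Real.exp (-(M * (t - s)))) *
        ∫⁻ y, ENNReal.ofReal (heatK (t - s) (x - y)) *
          (ENNReal.ofReal (M + m) * subQ m G₂ s y)) := by
        unfold Phi
        rw [hd]
        gcongr
    _ = ENNReal.ofReal A * (Phi f M G₁ (uu f M G₁) t x +
        (ENNReal.ofReal (Real.exp (-(M * t))) *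
          (∫⁻ y, ENNReal.ofReal (heatK t (x - y)) * G₂ y) +
        (∫⁻ s in Ioo 0 t, ENNReal.ofReal (Real.exp (-(M * (t - s)))) *
        ∫⁻ y, ENNReal.ofReal (heatK (t - s) (x - y)) *
          (ENNReal.ofReal (M + m) * subQ m G₂ s y)))) := by
        unfold Phi
        ring
    _ = _ := by
        rw [← uu_fix hf hG₁ t x, subQ_fix hf hm hG₂ ht x]

theorem S_sub (hf : Nl f M) (hm : 0 ≤ m) {A : ℝ} (hA : SubA f m A) {g g₁ g₂ : E N → ℝ}
    (hg : Dat g) (hg₁ : Dat g₁) (hg₂ : Dat g₂) (h : ∀ x, g x ≤ A * (g₁ x + g₂ x)) {t : ℝ}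
    (ht : 0 < t) (x : E N) :
    S f M t g x ≤ A * (S f M t g₁ x + Real.exp (m * t) * P t g₂ x) := by
  have hA0 : 0 < A := lt_of_lt_of_le one_pos hA.1
  have hu := uu_meas hf (ofR_meas hg)
  have hu1 := uu_meas hf (ofR_meas hg₁)
  have hq := subQ_meas (N := N) m (ofR_meas hg₂)
  have hw' : Measurable (Function.uncurry (fun s y => ENNReal.ofReal A *
      (uu f M (fun y => ENNReal.ofReal (g₁ y)) s y +
        subQ m (fun y => ENNReal.ofReal (g₂ y)) s y))) :=
    Measurable.const_mul (hu1.add hq) (ENNReal.ofReal A)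
  have key := comp_mono hf
    (g := fun y => ENNReal.ofReal (g y))
    (g' := fun y => ENNReal.ofReal A * (ENNReal.ofReal (g₁ y) + ENNReal.ofReal (g₂ y)))
    (((ofR_meas hg₁).add (ofR_meas hg₂)).const_mul _)
    (fun y => by
      rw [← ENNReal.ofReal_add (hg₁.mem y).1 (hg₂.mem y).1, ← ENNReal.ofReal_mul hA0.le]
      exact ENNReal.ofReal_le_ofReal (h y))
    hu hw' (fun t ht x => uu_le hf (ofR_le hg) ht x)
    (fun t _ x => (uu_fix hf (ofR_meas hg) t x).le)
    (fun t ht x => sub_super hf hm hA (ofR_meas hg₁) (ofR_meas hg₂) (ofR_le hg₁) (ofR_le hg₂)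
      ht x) t ht x
  have e2 : subQ m (fun y => ENNReal.ofReal (g₂ y)) t x =
      ENNReal.ofReal (Real.exp (m * t) * P t g₂ x) := by
    unfold subQ
    rw [ENNReal.ofReal_mul (Real.exp_nonneg _),
      P_ofReal ht hg₂.meas (fun y => (hg₂.mem y).1) (fun y => (hg₂.mem y).2)]
  have h0 : 0 ≤ Real.exp (m * t) * P t g₂ x :=
    mul_nonneg (Real.exp_nonneg _) (P_nonneg ht (fun y => (hg₂.mem y).1) x)
  have h1 := (S_mem hf hg₁ t x).1
  rw [← ofR_S hf hg ht, ← ofR_S hf hg₁ ht, e2, ← ENNReal.ofReal_add h1 h0,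
    ← ENNReal.ofReal_mul hA0.le] at key
  exact (ENNReal.ofReal_le_ofReal_iff (mul_nonneg hA0.le (add_nonneg h1 h0))).mp key

end

end Pool.Agent.AP157
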