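import Pool.Agent.AP157.Lin
import Pool.Agent.AP157.Sub
import Pool.Agent.AP157.Rfl
import Pool.Agent.AP157.Om
import Pool.Agent.AP157.SlideC

/-!
# The class of the limit functions in the weak KPP case, and the bound `ψ(t, x + h) ≤ A ψ(t, x)`
-/

set_option autoImplicit false

open MeasureTheory Real Set Filter Topology
open scoped ENNReal

namespace Pool.Agent.AP157

open Pool.Agent.X297.KP

noncomputable section

variable {N : ℕ} {f : ℝ → ℝ} {M m : ℝ}

/-- The functions `ψ(t,x) = lim u(t_i + t, x_i + x)`, where `t_i → ∞` and `U` is seen from `x_i` in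
the direction `-e`, from afar. -/
def Oc (U : Set (E N)) (e : E N) (u : ℝ → E N → ℝ) : Set (ℝ → E N → ℝ) :=
  {ψ | ∃ G : Ultrafilter (ℝ × E N),
    (∀ C : ℝ, 0 < C → ∀ᶠ p in (G : Filter (ℝ × E N)), C ≤ p.1 ∧ Gdir U e C p.2) ∧
    ∀ t x, Tendsto (fun p : ℝ × E N => u (p.1 + t) (p.2 + x)) G (𝓝 (ψ t x))}

theorem Gdir_mono {U : Set (E N)} {e : E N} {C C' : ℝ} (hC : 0 < C) (h : C ≤ C') {x : E N}
    (hx : Gdir U e C' x) : Gdir U e C x :=
  ⟨h.trans hx.1, fun x' hx' y hy v hv hve hyv =>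
    hx.2 x' (hx'.trans h) y hy v hv ((one_div_le_one_div_of_le hC h).trans hve) hyv⟩

theorem Gdir_shift {U : Set (E N)} {e : E N} {C : ℝ} (hC : 0 < C) {x h : E N}
    (hx : Gdir U e (C + ‖h‖) x) : Gdir U e C (x + h) := by
  have hn := norm_nonneg h
  refine ⟨?_, fun x' hx' y hy v hv hve hyv => ?_⟩
  · have h1 := hx.1
    have h2 : Metric.infDist x U ≤ Metric.infDist (x + h) U + dist x (x + h) :=
      Metric.infDist_le_infDist_add_dist
    rw [dist_self_add_right] at h2
    linarith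
  · have h1 : ‖x' - x‖ ≤ C + ‖h‖ := by
      have e1 : x' - x = (x' - (x + h)) + h := by abel
      rw [e1]
      exact (norm_add_le _ _).trans (by linarith)
    exact hx.2 x' h1 y hy v hv ((one_div_le_one_div_of_le hC (by linarith)).trans hve) hyv

/-- The class is invariant under translations in space and time. -/
theorem Oc_shift {U : Set (E N)} {e : E N} {u : ℝ → E N → ℝ} {ψ : ℝ → E N → ℝ}
    (hψ : ψ ∈ Oc U e u) (s : ℝ) (h : E N) : (fun t x => ψ (s + t) (h + x)) ∈ Oc U e u := by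
  obtain ⟨G, hG1, hG2⟩ := hψ
  refine ⟨G.map (fun p => (p.1 + s, p.2 + h)), ?_, ?_⟩
  · intro C hC
    rw [Ultrafilter.coe_map, Filter.eventually_map]
    have hpos : 0 < C + ‖h‖ + |s| := by positivity
    filter_upwards [hG1 _ hpos] with p hp
    constructor
    · have := neg_abs_le s
      have := norm_nonneg h
      linarith [hp.1]
    · apply Gdir_shift hC
      exact Gdir_mono (by positivity) (by linarith [abs_nonneg s]) hp.2
  · intro t x
    rw [Ultrafilter.coe_map, tendsto_map'_iff]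
    refine (hG2 (s + t) (h + x)).congr (fun p => ?_)
    simp only [Function.comp_apply]
    rw [add_assoc, add_assoc]

/-- The class is closed under pointwise limits along ultrafilters. -/
theorem Oc_closed {U : Set (E N)} {e : E N} {u : ℝ → E N → ℝ} {ι : Type*} (F : Ultrafilter ι)
    {Ψ : ι → ℝ → E N → ℝ} (hΨ : ∀ i, Ψ i ∈ Oc U e u) {ψ : ℝ → E N → ℝ}
    (h : ∀ t x, Tendsto (fun i => Ψ i t x) F (𝓝 (ψ t x))) : ψ ∈ Oc U e u := by
  choose G hG1 hG2 using hΨ
  refine ⟨F.bind G, ?_, ?_⟩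
  · intro C hC
    show {p : ℝ × E N | C ≤ p.1 ∧ Gdir U e C p.2} ∈ F.bind G
    have h1 : ∀ i, {p : ℝ × E N | C ≤ p.1 ∧ Gdir U e C p.2} ∈ G i := fun i => hG1 i C hC
    show {p : ℝ × E N | C ≤ p.1 ∧ Gdir U e C p.2} ∈ Filter.bind (F : Filter ι) (fun i => (G i : Filter (ℝ × E N)))
    rw [Filter.mem_bind']
    exact Eventually.of_forall h1
  · intro t x
    rw [Metric.tendsto_nhds]
    intro ε hε
    show {p : ℝ × E N | dist (u (p.1 + t) (p.2 + x)) (ψ t x) < ε} ∈
      Filter.bind (F : Filter ι) (fun i => (G i : Filter (ℝ × E N)))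
    rw [Filter.mem_bind']
    have h2 := Metric.tendsto_nhds.mp (h t x) (ε / 2) (by positivity)
    filter_upwards [h2] with i hi
    have h3 := Metric.tendsto_nhds.mp (hG2 i t x) (ε / 2) (by positivity)
    show {p : ℝ × E N | dist (u (p.1 + t) (p.2 + x)) (ψ t x) < ε} ∈ G i
    filter_upwards [h3] with p hp
    calc dist (u (p.1 + t) (p.2 + x)) (ψ t x) ≤ dist (u (p.1 + t) (p.2 + x)) (Ψ i t x) +
          dist (Ψ i t x) (ψ t x) := dist_triangle _ _ _
      _ < ε := by linarith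

/-- The elements of the class are entire solutions. -/
theorem Oc_ent (hf : Nl f M) {g : E N → ℝ} (hg : Dat g) {U : Set (E N)} {e : E N}
    {ψ : ℝ → E N → ℝ} (hψ : ψ ∈ Oc U e (fun t => S f M t g)) : Ent f M ψ := by
  obtain ⟨G, hG1, hG2⟩ := hψ
  obtain ⟨v, hv, hv2⟩ := ulim hf G (fun p t x => S f M (p.1 + t) g (p.2 + x)) (by
      intro t
      refine Eventually.of_forall (fun p s _ => ?_)
      have := dat_trans (S_dat hf hg (p.1 + s)) p.2
      simpa [add_comm] using this) (by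
      intro t
      have hpos : 0 < |t| + 1 := by positivity
      filter_upwards [hG1 _ hpos] with p hp s r hs hr x
      have h0 : 0 ≤ p.1 + s := by
        have := neg_abs_le t
        linarith [hp.1]
      have e1 := S_add hf hg (s := p.1 + s) (t := r) h0 hr
      have e2 := S_trans hf (S_dat hf hg (p.1 + s)) r p.2 x
      rw [← add_assoc, e1, add_comm p.2 x, ← e2]
      congr 1
      funext y
      rw [add_comm y p.2])
  have e : ψ = v := by
    funext t x
    exact tendsto_nhds_unique (hG2 t x) (hv2 t x)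
  rw [e]
  exact hv

/-- Every point of `U` is at distance at most `R₀` from the centre of a closed ball of radius `ρ`
contained in `U`. -/
def Thick (U : Set (E N)) (ρ R₀ : ℝ) : Prop :=
  0 < ρ ∧ ∀ y ∈ U, ∃ k : E N, ‖y - k‖ ≤ R₀ ∧ ∀ w, ‖w - k‖ ≤ ρ → w ∈ U

/-- The solution is close to `1` at distance less than `c t - R₀` from `U`. -/
theorem far_speed (hf : Nl f M) (H : Mn f m) {U : Set (E N)} (hU : MeasurableSet U)
    (hUn : U.Nonempty) {ρ R₀ : ℝ} (hT : Thick U ρ R₀) {c ε : ℝ} (hc : 0 < c) (hc2 : c < 2 * √m)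
    (hε : 0 < ε) : ∃ T : ℝ, 0 < T ∧ ∀ t, T ≤ t → ∀ x, S f M t (U.indicator 1) x < 1 - ε →
      c * t - R₀ ≤ Metric.infDist x U := by
  obtain ⟨T, hT0, hTs⟩ := hair N hf H hc hc2 (η := 1) (r := ρ) one_pos hT.1 hε
  refine ⟨T, hT0, fun t ht x hx => ?_⟩
  by_contra hcon
  push Not at hcon
  obtain ⟨y, hy, hxy⟩ := (Metric.infDist_lt_iff hUn).mp hcon
  obtain ⟨k, hk1, hk2⟩ := hT.2 y hy
  have h1 := hTs t ht (U.indicator 1) (ind_dat hU) k (fun y hy => by
    rw [indicator_of_mem (hk2 y hy)]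
    simp) x (by
    have e1 : x - k = (x - y) + (y - k) := by abel
    rw [e1]
    rw [dist_eq_norm] at hxy
    exact (norm_add_le _ _).trans (by linarith))
  linarith

theorem refl_inner {v : E N} (hv : ‖v‖ = 1) (b : ℝ) (y : E N) :
    inner ℝ (refl v b y) v = 2 * b - inner ℝ y v := by
  unfold refl
  rw [inner_add_left, inner_smul_left, real_inner_self_eq_norm_sq, hv]
  simp
  ring

/-- The reflection step: an estimate for `u (t', x' + h)`. -/
theorem refl_step (hf : Nl f M) (H : Mn f m) {A : ℝ} (hA : SubA f m A) {U : Set (E N)}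
    (hU : MeasurableSet U) {h x' : E N} (hh : h ≠ 0) {t' : ℝ} (ht' : 0 < t') :
    S f M t' (U.indicator 1) (x' + h) ≤ A * (S f M t' (U.indicator 1) x' +
      Real.exp (m * t') *
        P t' ((U ∩ {y | ‖h‖ / 2 < inner ℝ (y - x') (‖h‖⁻¹ • h)}).indicator 1) (x' + h)) := by
  have hn : 0 < ‖h‖ := norm_pos_iff.mpr hh
  set v : E N := ‖h‖⁻¹ • h with hv
  have hv1 : ‖v‖ = 1 := by
    rw [hv, norm_smul, norm_inv, norm_norm, inv_mul_cancel₀ hn.ne']
  have hvh : ‖h‖ • v = h := by
    rw [hv, smul_smul, mul_inv_cancel₀ hn.ne', one_smul]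
  set b : ℝ := inner ℝ x' v + ‖h‖ / 2 with hb
  set F : Set (E N) := U ∩ {y | ‖h‖ / 2 < inner ℝ (y - x') v} with hF
  set G : Set (E N) := U ∩ {y | inner ℝ y v ≤ b} with hG
  have hmF : MeasurableSet F := by
    apply hU.inter
    exact measurableSet_lt measurable_const (by fun_prop)
  have hmG : MeasurableSet G := by
    apply hU.inter
    exact measurableSet_le (by fun_prop) measurable_const
  have hgU := ind_dat hU
  have hgF := ind_dat hmF
  have hgG := ind_dat hmG
  have h1 : ∀ x, U.indicator (1 : E N → ℝ) x ≤ A * (G.indicator 1 x + F.indicator 1 x) := by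
    intro x
    have hA1 := hA.1
    have hF0 := (hgF.mem x).1
    have hG0 := (hgG.mem x).1
    by_cases hx : x ∈ U
    · rw [indicator_of_mem hx]
      by_cases hxG : inner ℝ x v ≤ b
      · have : x ∈ G := ⟨hx, hxG⟩
        rw [indicator_of_mem this]
        simp only [Pi.one_apply]
        nlinarith
      · have : x ∈ F := by
          refine ⟨hx, ?_⟩
          simp only [mem_ofPred_eq]
          rw [inner_sub_left]
          push Not at hxG
          linarith
        rw [indicator_of_mem this]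
        simp only [Pi.one_apply]
        nlinarith
    · rw [indicator_of_notMem hx]
      positivity
  have h2 := S_sub hf H.m_pos.le hA hgU hgG hgF h1 ht' (x' + h)
  refine h2.trans ?_
  apply mul_le_mul_of_nonneg_left _ (by linarith [hA.1])
  have h3 : S f M t' (G.indicator 1) (x' + h) ≤ S f M t' (U.indicator 1) x' := by
    have e1 : refl v b x' = x' + h := by
      unfold refl
      rw [hb]
      have : 2 * (inner ℝ x' v + ‖h‖ / 2 - inner ℝ x' v) = ‖h‖ := by ring
      rw [this, hvh]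
    rw [← e1]
    refine (S_refl hf hv1 b hgG ?_ t' (x := x') (by rw [hb]; linarith)).trans ?_
    · intro y hy
      by_cases hyG : refl v b y ∈ G
      · have h4 : inner ℝ (refl v b y) v ≤ b := hyG.2
        rw [refl_inner hv1] at h4
        have h5 : b - inner ℝ y v = 0 := by linarith
        have h6 : refl v b y = y := by
          unfold refl
          rw [h5]
          simp
        rw [h6]
      · rw [indicator_of_notMem hyG]
        exact (hgG.mem y).1
    · apply S_mono hf hgG hgU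
      intro y
      apply indicator_le_indicator_of_subset inter_subset_left
      intro _
      simp
  linarith

/-- The far term tends to zero. -/
theorem far_lim {a B C θ m : ℝ} (h : m < (1 - θ) * a ^ 2 / 4) (hC : 0 ≤ C) (hθ : θ < 1) :
    Tendsto (fun s : ℝ => Real.exp (m * s) * (C * Real.exp (-((1 - θ) * (a * s - B) ^ 2 / (4 * s)))))
      atTop (𝓝 0) := by
  set γ := (1 - θ) * a ^ 2 / 4 - m with hγ
  have hγ0 : 0 < γ := by linarith
  have hlim : Tendsto (fun s : ℝ => C * Real.exp ((1 - θ) * (a * B) / 2) * Real.exp (-(γ * s)))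
      atTop (𝓝 (C * Real.exp ((1 - θ) * (a * B) / 2) * 0)) := by
    apply Tendsto.const_mul
    exact Real.tendsto_exp_neg_atTop_nhds_zero.comp (Tendsto.const_mul_atTop hγ0 tendsto_id)
  rw [mul_zero] at hlim
  refine squeeze_zero' (Eventually.of_forall fun s => by positivity) ?_ hlim
  filter_upwards [eventually_gt_atTop (0:ℝ)] with s hs
  have h1 : a ^ 2 * s / 4 - a * B / 2 ≤ (a * s - B) ^ 2 / (4 * s) := by
    rw [le_div_iff₀ (by positivity)]
    nlinarith [sq_nonneg B]
  have h2 : m * s - (1 - θ) * ((a * s - B) ^ 2 / (4 * s)) ≤ (1 - θ) * (a * B) / 2 - γ * s := by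
    have := mul_le_mul_of_nonneg_left h1 (by linarith : 0 ≤ 1 - θ)
    rw [hγ]
    linarith
  have e1 : Real.exp (m * s) * (C * Real.exp (-((1 - θ) * (a * s - B) ^ 2 / (4 * s)))) =
      C * Real.exp (m * s - (1 - θ) * ((a * s - B) ^ 2 / (4 * s))) := by
    rw [mul_left_comm, ← Real.exp_add, mul_div_assoc, ← sub_eq_add_neg]
  have e2 : C * Real.exp ((1 - θ) * (a * B) / 2) * Real.exp (-(γ * s)) =
      C * Real.exp ((1 - θ) * (a * B) / 2 - γ * s) := by
    rw [mul_assoc, ← Real.exp_add, ← sub_eq_add_neg]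
  rw [e1, e2]
  exact mul_le_mul_of_nonneg_left (Real.exp_le_exp.mpr h2) hC

/-- The bound `ψ(t, x + h) ≤ A ψ(t, x)` for `⟪h, e⟫ > 0`. -/
theorem Oc_bound_pos (hf : Nl f M) (H : Mn f m) {A : ℝ} (hA : SubA f m A) {U : Set (E N)}
    (hU : MeasurableSet U) (hUn : U.Nonempty) {ρ R₀ : ℝ} (hT : Thick U ρ R₀) {e : E N}
    {ψ : ℝ → E N → ℝ} (hψ : ψ ∈ Oc U e (fun t => S f M t (U.indicator 1)))
    {h : E N} (hh : 0 < inner ℝ h e) (t : ℝ) (x : E N) : ψ t (x + h) ≤ A * ψ t x := by
  have hE := Oc_ent hf (ind_dat hU) hψ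
  have hA1 := hA.1
  by_cases h1 : 1 ≤ ψ t x
  · have h2 := hE.le_one t (x + h)
    nlinarith
  push Not at h1
  obtain ⟨G, hG1, hG2⟩ := hψ
  have hh0 : h ≠ 0 := by
    rintro rfl
    simp at hh
  have hn : 0 < ‖h‖ := norm_pos_iff.mpr hh0
  set v : E N := ‖h‖⁻¹ • h with hv
  have hv1 : ‖v‖ = 1 := by
    rw [hv, norm_smul, norm_inv, norm_norm, inv_mul_cancel₀ hn.ne']
  set η : ℝ := inner ℝ v e with hη
  have hη0 : 0 < η := by
    rw [hη, hv, inner_smul_left]
    simp
    positivity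
  -- constants
  set κ : ℝ := min (η ^ 2 / 16) 1 with hκ
  have hκ0 : 0 < κ := by positivity
  have hκ1 : κ ≤ 1 := min_le_right _ _
  have hκη : κ ≤ η ^ 2 / 16 := min_le_left _ _
  set θ : ℝ := κ / 8 with hθ
  have hθ0 : 0 < θ := by positivity
  have hθ1 : θ < 1 := by linarith
  have hm := H.m_pos
  have hsm := Real.sqrt_pos.mpr hm
  set c : ℝ := 2 * √m * (1 - θ) with hc
  have hc0 : 0 < c := by
    have : 0 < 1 - θ := by linarith
    positivity
  have hc2 : c < 2 * √m := by
    rw [hc]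
    nlinarith
  set q : ℝ := √(1 + κ) with hq
  have hq0 : 0 < q := Real.sqrt_pos.mpr (by linarith)
  have hq2 : q ^ 2 = 1 + κ := Real.sq_sqrt (by linarith)
  set a : ℝ := q * c with ha
  set B : ℝ := q * R₀ + ‖h‖ with hB
  have hrate : m < (1 - θ) * a ^ 2 / 4 := by
    have e1 : (1 - θ) * a ^ 2 / 4 = m * ((1 - θ) ^ 3 * (1 + κ)) := by
      rw [ha, hc, mul_pow, hq2, mul_pow, mul_pow, Real.sq_sqrt hm.le]
      ring
    rw [e1]
    have h3 : 1 < (1 - θ) ^ 3 * (1 + κ) := by
      have h4 : 1 - 3 * θ ≤ (1 - θ) ^ 3 := by nlinarith [sq_nonneg θ]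
      have h5 : (1 - 3 * θ) * (1 + κ) ≤ (1 - θ) ^ 3 * (1 + κ) :=
        mul_le_mul_of_nonneg_right h4 (by linarith)
      have h6 : 1 < (1 - 3 * θ) * (1 + κ) := by
        rw [hθ]
        nlinarith
      linarith
    nlinarith
  obtain ⟨C, hC1, hCt⟩ := P_tail2 N hθ0 hθ1
  set ε : ℝ := (1 - ψ t x) / 2 with hε
  have hε0 : 0 < ε := by linarith
  obtain ⟨T, hT0, hTs⟩ := far_speed hf H hU hUn hT hc0 hc2 hε0
  have htime : Tendsto (fun p : ℝ × E N => p.1 + t) G atTop := by
    apply tendsto_atTop_add_const_right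
    rw [tendsto_atTop]
    intro b
    have hpos : 0 < |b| + 1 := by positivity
    filter_upwards [hG1 _ hpos] with p hp
    linarith [hp.1, le_abs_self b]
  have hlim := (far_lim (B := B) (C := C) hrate (by linarith) hθ1).comp htime
  have hlim2 : Tendsto (fun p : ℝ × E N => A * (S f M (p.1 + t) (U.indicator 1) (p.2 + x) +
      Real.exp (m * (p.1 + t)) * (C * Real.exp (-((1 - θ) * (a * (p.1 + t) - B) ^ 2 /
        (4 * (p.1 + t))))))) G (𝓝 (A * (ψ t x + 0))) :=
    ((hG2 t x).add hlim).const_mul A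
  rw [add_zero] at hlim2
  refine le_of_tendsto_of_tendsto (hG2 t (x + h)) hlim2 ?_
  have hCpos : 0 < ‖x‖ + 1 / η := by positivity
  have hlt : ∀ᶠ p in (G : Filter (ℝ × E N)),
      S f M (p.1 + t) (U.indicator 1) (p.2 + x) < 1 - ε :=
    (hG2 t x).eventually_lt_const (by linarith)
  have ha0 : 0 < a := by positivity
  filter_upwards [hG1 _ hCpos, hlt, htime.eventually_ge_atTop T, htime.eventually_gt_atTop 0,
    htime.eventually_ge_atTop (B / a)] with p hp1 hp2 hp3 hp4 hp5
  have h5 := hTs (p.1 + t) hp3 (p.2 + x) hp2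
  have h6 := refl_step hf H hA hU hh0 (x' := p.2 + x) hp4
  have e1 : p.2 + (x + h) = p.2 + x + h := by abel
  rw [e1]
  refine h6.trans ?_
  apply mul_le_mul_of_nonneg_left _ (by linarith)
  apply add_le_add le_rfl
  apply mul_le_mul_of_nonneg_left _ (Real.exp_nonneg _)
  have h7 : 0 ≤ a * (p.1 + t) - B := by
    rw [div_le_iff₀ ha0] at hp5
    linarith
  refine hCt (p.1 + t) (p.2 + x + h) (a * (p.1 + t) - B) _ hp4 h7 ?_ ?_
  · apply hU.inter
    exact measurableSet_lt measurable_const (by fun_prop)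
  · rintro y ⟨hyU, hy⟩
    simp only [mem_ofPred_eq] at hy
    have h8 := hp1.2.2 (p.2 + x) (by
      rw [add_sub_cancel_left]
      have : 0 < 1 / η := by positivity
      linarith) y hyU v hv1 (by
      rw [div_le_iff₀ hCpos]
      have : η * (1 / η) = 1 := by field_simp
      have := mul_nonneg hη0.le (norm_nonneg x)
      rw [← hη]
      linarith [mul_add η ‖x‖ (1 / η)]) (by
      rw [← hv] at hy
      linarith)
    set d := Metric.infDist (p.2 + x) U with hd
    have hd0 : 0 ≤ d := Metric.infDist_nonneg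
    have h9 : q * d ≤ ‖y - (p.2 + x)‖ := by
      apply le_of_sq_le_sq _ (norm_nonneg _)
      rw [mul_pow, hq2]
      refine le_trans ?_ h8
      apply mul_le_mul_of_nonneg_right _ (sq_nonneg d)
      linarith
    have h10 : ‖y - (p.2 + x)‖ ≤ ‖p.2 + x + h - y‖ + ‖h‖ := by
      have e2 : y - (p.2 + x) = h - (p.2 + x + h - y) := by abel
      rw [e2, add_comm ‖p.2 + x + h - y‖]
      exact norm_sub_le _ _
    have h11 : q * (c * (p.1 + t) - R₀) ≤ q * d := mul_le_mul_of_nonneg_left h5 hq0.le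
    rw [ha, hB]
    linarith [mul_sub q (c * (p.1 + t)) R₀, mul_assoc q c (p.1 + t)]

/-- The bound `ψ(t, x + h) ≤ A ψ(t, x)` for `⟪h, e⟫ ≥ 0`. -/
theorem Oc_bound (hf : Nl f M) (H : Mn f m) {A : ℝ} (hA : SubA f m A) {U : Set (E N)}
    (hU : MeasurableSet U) (hUn : U.Nonempty) {ρ R₀ : ℝ} (hT : Thick U ρ R₀) {e : E N}
    (he : ‖e‖ = 1) {ψ : ℝ → E N → ℝ} (hψ : ψ ∈ Oc U e (fun t => S f M t (U.indicator 1)))
    {h : E N} (hh : 0 ≤ inner ℝ h e) (t : ℝ) (x : E N) : ψ t (x + h) ≤ A * ψ t x := by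
  have hE := Oc_ent hf (ind_dat hU) hψ
  have hcont := entc_cont hf hE t
  have h1 : Tendsto (fun r : ℝ => ψ t (x + (h + r • e))) (𝓝[>] 0) (𝓝 (ψ t (x + (h + (0:ℝ) • e)))) := by
    apply Tendsto.mono_left _ nhdsWithin_le_nhds
    apply Continuous.tendsto
    fun_prop
  rw [zero_smul, add_zero] at h1
  refine le_of_tendsto h1 ?_
  filter_upwards [self_mem_nhdsWithin] with r hr
  apply Oc_bound_pos hf H hA hU hUn hT hψ
  rw [inner_add_left, inner_smul_left, real_inner_self_eq_norm_sq, he]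
  simp
  have : 0 < r := hr
  linarith

/-- The sliding argument for the class. -/
theorem Oc_slide (hf : Nl f M) (H : Mn f m) {A : ℝ} (hA : SubA f m A) {U : Set (E N)}
    (hU : MeasurableSet U) (hUn : U.Nonempty) {ρ R₀ : ℝ} (hT : Thick U ρ R₀) {e : E N}
    (he : ‖e‖ = 1) {ψ : ℝ → E N → ℝ} (hψ : ψ ∈ Oc U e (fun t => S f M t (U.indicator 1)))
    {h : E N} (hh : 0 ≤ inner ℝ h e) (t : ℝ) (x : E N) {σ : ℝ} (hσ : 0 ≤ σ) :
    ψ t (x + h) ≤ ψ (t + σ) x := by
  refine slide3 hf H hA.1 (O := Oc U e (fun t => S f M t (U.indicator 1)))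
    (fun ψ hψ => Oc_ent hf (ind_dat hU) hψ) (fun ψ hψ s y => Oc_shift hψ s y)
    (fun Ψ hΨ ψ hlim => Oc_closed (hyperfilter ℕ) hΨ hlim) (h := h) (fun ψ hψ k t x => ?_) hψ t x hσ
  apply Oc_bound hf H hA hU hUn hT he hψ
  rw [inner_smul_left]
  simp
  positivity

end

end Pool.Agent.AP157
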