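import Pool.Agent.AP157.Defs

/-!
# The definitions used in the statements of the results on MP_609556_an
-/

set_option autoImplicit false

open MeasureTheory Real Set Filter Topology
open scoped ENNReal

namespace Pool.Agent.AP157

open Pool.Agent.X297.KP

noncomputable section

variable {N : ℕ}

/-- `u` is a classical solution of `∂_t u = Δu + f(u)` on `(0,∞) × ℝ^N` (`u`, `∂_t u`, `D_x u` and
`D²_x u` exist and are continuous), with values in `[0,1]`, and `u(t,·) → 1_U` in `L¹_loc` as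
`t → 0+`. -/
structure Classical (f : ℝ → ℝ) (U : Set (E N)) (u : ℝ → E N → ℝ) : Prop where
  mem : ∀ t, 0 < t → ∀ x, u t x ∈ Icc (0:ℝ) 1
  diff_t : ∀ t, 0 < t → ∀ x, DifferentiableAt ℝ (fun s => u s x) t
  diff_x : ∀ t, 0 < t → ContDiff ℝ 2 (u t)
  cont : ContinuousOn (fun p : ℝ × E N => u p.1 p.2) (Ioi 0 ×ˢ univ)
  cont_t : ContinuousOn (fun p : ℝ × E N => deriv (fun s => u s p.2) p.1) (Ioi 0 ×ˢ univ)
  cont_x : ContinuousOn (fun p : ℝ × E N => fderiv ℝ (u p.1) p.2) (Ioi 0 ×ˢ univ)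
  cont_xx : ContinuousOn (fun p : ℝ × E N => iteratedFDeriv ℝ 2 (u p.1) p.2) (Ioi 0 ×ˢ univ)
  eq : ∀ t, 0 < t → ∀ x, deriv (fun s => u s x) t = (Laplacian.laplacian (u t) : E N → ℝ) x + f (u t x)
  init : ∀ R : ℝ, Tendsto (fun t => ∫ x in Metric.ball (0 : E N) R, |u t x - U.indicator 1 x|)
    (𝓝[>] 0) (𝓝 0)

/-- `U_δ`, the points of `U` at distance at least `δ` from the boundary of `U`. -/
def shrink (U : Set (E N)) (δ : ℝ) : Set (E N) :=
  {x | x ∈ U ∧ ENNReal.ofReal δ ≤ Metric.infEDist x (frontier U)}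

/-- The set `π_x` of the points of the closure of `U` nearest to `x`. -/
def nearest (U : Set (E N)) (x : E N) : Set (E N) :=
  {ξ | ξ ∈ closure U ∧ dist x ξ = Metric.infDist x U}

/-- The opening function `O(x)`, the supremum of the cosines of the angles between `x - ξ` and
`y - ξ`, where `ξ` is a nearest point and `y ∈ U`, `y ≠ ξ` (`-∞` if there are no such pairs). -/
def opening (U : Set (E N)) (x : E N) : EReal :=
  ⨆ ξ ∈ nearest U x, ⨆ y ∈ U \ {ξ},
    ((inner ℝ (‖x - ξ‖⁻¹ • (x - ξ)) (‖y - ξ‖⁻¹ • (y - ξ)) : ℝ) : EReal)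

/-- Condition (C): the supremum of the opening function over the points at distance `R` from `U`
has a limit `≤ 0` as `R → ∞`. -/
def CondC (U : Set (E N)) : Prop := ∃ L : EReal, L ≤ 0 ∧
  Tendsto (fun R : ℝ => ⨆ x ∈ {x : E N | Metric.infDist x U = R}, opening U x) atTop (𝓝 L)

/-- The set `Ω(u)` of the functions `ψ ∈ L^∞` such that `u(t_n, x_n + ·) → ψ` in `L^∞_loc` for some
sequences `t_n → ∞` and `x_n`. -/
def OmegaLimit (u : ℝ → E N → ℝ) : Set (E N → ℝ) :=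
  {ψ | MemLp ψ ⊤ volume ∧ ∃ (t : ℕ → ℝ) (x : ℕ → E N), Tendsto t atTop atTop ∧
    ∀ R : ℝ, Tendsto (fun n => eLpNorm (fun y => u (t n) (x n + y) - ψ y) ⊤
      (volume.restrict (Metric.ball 0 R))) atTop (𝓝 0)}

/-- `ψ` is one-dimensional, `ψ(x) = Ψ(x·e)` for almost every `x`, where `e` is a unit vector and
`Ψ` is of class `C²` and either constant or strictly monotone. -/
def OneDimMono (ψ : E N → ℝ) : Prop :=
  ∃ e : E N, ‖e‖ = 1 ∧ ∃ Ψ : ℝ → ℝ, ContDiff ℝ 2 Ψ ∧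
    ((∃ c, ∀ s, Ψ s = c) ∨ StrictMono Ψ ∨ StrictAnti Ψ) ∧ ψ =ᵐ[volume] fun x => Ψ (inner ℝ x e)

/-- The invasion property for `ρ`: the solution with initial datum `1_{B_ρ}` converges to `1`
locally uniformly. -/
def Invasion (N : ℕ) (f : ℝ → ℝ) (ρ : ℝ) : Prop :=
  ∃ v : ℝ → E N → ℝ, Classical f (Metric.ball (0 : E N) ρ) v ∧
    ∀ R : ℝ, TendstoUniformlyOn v (fun _ => 1) atTop (Metric.closedBall 0 R)

end

end Pool.Agent.AP157
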