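import Pool.Agent.AP157.OmB
import Pool.Agent.AP157.Reach

/-!
# The seeds arrive in time, for the wider class of nonlinearities
-/

set_option autoImplicit false

open MeasureTheory Real Set Filter Topology
open scoped ENNReal

namespace Pool.Agent.AP157

open Pool.Agent.X297.KP

noncomputable section

variable {N : ℕ} {f : ℝ → ℝ} {M : ℝ} {z : Set (E N) → ℝ → E N → ℝ} {α μ d₁ δ κ₁ C₁ l : ℝ}

/-- The key estimate. -/
theorem reach2 (Z : ZFam f M z) (H : Cls f α μ d₁ δ) (Q₁ : Par z μ κ₁ C₁ l) {K : Set (E N)} (hK : K.Nonempty)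
    {κ C ts : ℝ} (hκ : 0 < κ) (hC : 0 ≤ C) (hts : 0 ≤ ts) (A : Arr κ C ts K (tau (Seed z) K))
    {e : E N} (he : ‖e‖ = 1) {u : ℝ → E N → ℝ} {Ta Tc ν C₂ : ℝ} (hu : Ub2 z K u Ta Tc ν C₂)
    {ψ : ℝ → E N → ℝ} (hψ : ψ ∈ Om K e u) {h : E N} {p : ℝ} (hp : 0 < p) (hph : p ≤ ψ 0 (-h))
    {Q : ℝ} (hQ : κ * inner ℝ e h < Q) {ε : ℝ} (hε : 0 < ε) :
    ∃ k : ℕ, 1 - ε ≤ ψ (k * Q) (((k : ℝ) - 1) • h) := by
  obtain ⟨G, hG1, hG2⟩ := hψ
  obtain ⟨C₄, hC₄, hT4⟩ := T4d Z H Q₁ (d := p / 4) (by positivity)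
  obtain ⟨t₄, ht₄, hhi⟩ := hu.hi (p / 4) (by positivity)
  obtain ⟨D, hD, hray⟩ := ray (N := N) hκ hC hts
  obtain ⟨Tf, hTf0, hTf⟩ := Z.fill 0 ε hε
  have hTa := hu.Ta0
  have hTc := hu.Tc0
  set gap := Q - κ * inner ℝ e h with hgap
  have hgap0 : 0 < gap := by linarith
  -- the size of the first step
  obtain ⟨b, hb1, hb2⟩ : ∃ b : ℝ, 1 ≤ b ∧ κ * ‖h‖ ^ 2 / (2 * b) ≤ gap / 4 := by
    refine ⟨max 1 (2 * κ * ‖h‖ ^ 2 / gap), le_max_left _ _, ?_⟩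
    have h1 : (0:ℝ) < max 1 (2 * κ * ‖h‖ ^ 2 / gap) := lt_of_lt_of_le one_pos (le_max_left _ _)
    rw [div_le_iff₀ (by positivity)]
    have h2 : 2 * κ * ‖h‖ ^ 2 / gap ≤ max 1 (2 * κ * ‖h‖ ^ 2 / gap) := le_max_right _ _
    rw [div_le_iff₀ hgap0] at h2
    linarith
  have hb0 : 0 < b := by linarith
  obtain ⟨m, hm1, hm2, hm3⟩ := exists_pow (a := Tc + C₄ + 2 * C)
    (b := C * √b + C * √(b + ‖h‖)) (c := κ * ((D + 1) * b ^ (3/4 : ℝ)))
    (g := gap / 4) (T := (1 + Ta + Tf) / 2) (by positivity)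
  have hm1' : (1:ℝ) ≤ m := by exact_mod_cast hm1
  set k : ℕ := m ^ 4 with hk
  have hkm : (k : ℝ) = (m:ℝ) ^ 4 := by rw [hk]; push_cast; ring
  have hk1 : (1:ℝ) ≤ k := by rw [hkm]; exact one_le_pow₀ hm1'
  set r : ℝ := b * k with hr
  have hr1 : 1 ≤ r := by
    calc (1:ℝ) = 1 * 1 := by ring
      _ ≤ b * k := mul_le_mul hb1 hk1 zero_le_one hb0.le
  have hr0 : 0 < r := by linarith
  refine ⟨k, ?_⟩
  obtain ⟨d₀, hd₀, hray2⟩ := hray r hr1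
  -- it suffices to bound `u`
  refine ge_of_tendsto (hG2 (k * Q) (((k:ℝ) - 1) • h)) ?_
  -- large parameter
  have hsq : Tendsto (fun d : ℝ => κ * d - C * (1 + √d)) atTop atTop := by
    have h1 : Tendsto (fun d : ℝ => √d * (κ * √d - C) - C) atTop atTop := by
      apply tendsto_atTop_add_const_right
      apply Tendsto.atTop_mul_atTop₀ Real.tendsto_sqrt_atTop
      apply tendsto_atTop_add_const_right
      exact Tendsto.const_mul_atTop hκ Real.tendsto_sqrt_atTop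
    refine h1.congr' ?_
    filter_upwards [eventually_ge_atTop 0] with d hd
    have := Real.mul_self_sqrt hd
    linear_combination κ * this
  obtain ⟨d₁, hd₁⟩ := (hsq.eventually_ge_atTop (ts + κ * r)).exists_forall_of_atTop
  obtain ⟨q, hq1, hq2⟩ : ∃ q : ℝ, 0 < q ∧ r ^ (1/4 : ℝ) ≤ q ∧ ‖h‖ ≤ q ∧ D ≤ q ∧ d₀ + ‖h‖ ≤ q ∧
      |d₁| + ‖h‖ ≤ q ∧ t₄ ≤ q ∧ |(k:ℝ) * Q| ≤ q := by
    refine ⟨r ^ (1/4 : ℝ) + ‖h‖ + D + (d₀ + ‖h‖) + (|d₁| + ‖h‖) + t₄ + |(k:ℝ) * Q|, ?_, ?_⟩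
    · have := Real.rpow_pos_of_pos hr0 (1/4 : ℝ)
      positivity
    · have a1 := Real.rpow_pos_of_pos hr0 (1/4 : ℝ)
      have a2 := norm_nonneg h
      have a3 := abs_nonneg d₁
      have a4 := abs_nonneg ((k:ℝ) * Q)
      refine ⟨?_, ?_, ?_, ?_, ?_, ?_, ?_⟩ <;> linarith
  obtain ⟨hq2, hq3, hq4, hq5, hq6, hq7, hq8⟩ := hq2
  have hG3 : Tendsto (fun p : ℝ × E N => p.1) G atTop := by
    rw [tendsto_atTop]
    intro b
    have hpos : 0 < |b| + 1 := by positivity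
    filter_upwards [hG1 _ hpos] with p hp
    linarith [hp.1, le_abs_self b]
  have hval : ∀ᶠ v in (G : Filter (ℝ × E N)), p / 2 < u (v.1 + 0) (v.2 + -h) :=
    (hG2 0 (-h)).eventually_const_lt (by linarith)
  filter_upwards [hG1 q hq1, hval, hG1 (q + |(k:ℝ) * Q| + Ta) (by positivity)]
    with v hv1 hv3 hv4
  obtain ⟨t, x⟩ := v
  simp only at hv1 hv3 hv4 ⊢
  obtain ⟨htq, hxq⟩ := hv1
  rw [add_zero, ← sub_eq_add_neg] at hv3
  have ht0 : 0 ≤ t := by linarith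
  -- seed near `x`
  have s1 : Seed z K (t + Tc + C₄) (x - h) := by
    apply hT4 K (t + Tc) (x - h) (by linarith)
    have := hhi t (x - h) (by linarith)
    linarith
  have s2 : tau (Seed z) K (x - h) ≤ t + Tc + C₄ := ZFam.tau_le (by linarith) s1
  set d := Metric.infDist (x - h) K with hd
  have hdd : Metric.infDist x K ≤ d + ‖h‖ := by
    have := Metric.infDist_le_infDist_add_dist (s := K) (x := x) (y := x - h)
    rw [dist_eq_norm, sub_sub_cancel] at this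
    exact this
  have hdq : q - ‖h‖ ≤ d := by linarith [hxq.1]
  have hd1 : d₁ ≤ d := by linarith [le_abs_self d₁]
  have hd0 : 0 < d := by linarith
  obtain ⟨y, hy1, hy2⟩ := A.hole (x - h) r hr0.le (le_trans (hd₁ d hd1) (A.lower (x - h)))
  obtain ⟨ξ, hξ, hξ1, hξ2⟩ := hray2 K _ hK A (x - h) y (by linarith) hy1 hy2
  have hξ3 : ‖d⁻¹ • (x - h - ξ) - e‖ ≤ 1 / q := by
    apply hxq.2 (x - h) (by simpa using hq3) ξ hξ
    have h1 : D * √d ≤ q * √d := mul_le_mul_of_nonneg_right hq4 (Real.sqrt_nonneg _)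
    linarith
  have hrq : 1 / q ≤ r ^ (-(1/4) : ℝ) := by
    rw [Real.rpow_neg hr0.le, ← one_div]
    exact one_div_le_one_div_of_le (Real.rpow_pos_of_pos hr0 _) hq2
  have hdir : ‖r⁻¹ • (x - h - y) - e‖ ≤ (D + 1) * r ^ (-(1/4) : ℝ) := by
    have e1 : r⁻¹ • (x - h - y) - e = (d⁻¹ • (x - h - ξ) - e) -
        (d⁻¹ • (x - h - ξ) - r⁻¹ • (x - h - y)) := by abel
    rw [e1]
    calc _ ≤ ‖d⁻¹ • (x - h - ξ) - e‖ + ‖d⁻¹ • (x - h - ξ) - r⁻¹ • (x - h - y)‖ := norm_sub_le _ _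
      _ ≤ 1 / q + D * r ^ (-(1/4) : ℝ) := add_le_add hξ3 hξ2
      _ ≤ _ := by linarith
  -- the point reached
  set P : E N := x + ((k:ℝ) - 1) • h with hP
  have hPy : P - y = (r • e + (k:ℝ) • h) + r • (r⁻¹ • (x - h - y) - e) := by
    rw [smul_sub, smul_smul, mul_inv_cancel₀ hr0.ne', one_smul, hP, sub_smul, one_smul]
    abel
  have hr34 : r * r ^ (-(1/4) : ℝ) = r ^ (3/4 : ℝ) := by
    conv_lhs => rw [← Real.rpow_one r, ← Real.rpow_mul hr0.le, ← Real.rpow_add hr0]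
    norm_num
  have n1 : ‖P - y‖ ≤ r + k * inner ℝ e h + k * (‖h‖ ^ 2 / (2 * b)) + (D + 1) * r ^ (3/4 : ℝ) := by
    rw [hPy]
    have h1 := norm_ray he hr0 (v := (k:ℝ) • h)
    rw [inner_smul_right, norm_smul, Real.norm_eq_abs, abs_of_nonneg (by positivity : (0:ℝ) ≤ k),
      mul_pow] at h1
    have h2 : (k:ℝ) ^ 2 * ‖h‖ ^ 2 / (2 * r) = k * (‖h‖ ^ 2 / (2 * b)) := by
      rw [hr]
      field_simp
    rw [h2] at h1
    have h3 : ‖r • (r⁻¹ • (x - h - y) - e)‖ ≤ (D + 1) * r ^ (3/4 : ℝ) := by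
      rw [norm_smul, Real.norm_eq_abs, abs_of_pos hr0]
      calc _ ≤ r * ((D + 1) * r ^ (-(1/4) : ℝ)) := mul_le_mul_of_nonneg_left hdir hr0.le
        _ = (D + 1) * (r * r ^ (-(1/4) : ℝ)) := by ring
        _ = _ := by rw [hr34]
    exact (norm_add_le _ _).trans (add_le_add h1 h3)
  have n2 : ‖P - y‖ ≤ r + k * ‖h‖ := by
    have e1 : P - y = (x - h - y) + (k:ℝ) • h := by
      rw [hP, sub_smul, one_smul]; abel
    rw [e1]
    refine (norm_add_le _ _).trans ?_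
    rw [norm_smul, Real.norm_eq_abs, abs_of_nonneg (by positivity : (0:ℝ) ≤ k)]
    linarith
  have hsk : ∀ c : ℝ, 0 ≤ c → √(c * k) = √c * (m:ℝ) ^ 2 := by
    intro c hc
    rw [Real.sqrt_mul hc, hkm, show ((m:ℝ) ^ 4) = ((m:ℝ) ^ 2) ^ 2 by ring,
      Real.sqrt_sq (by positivity)]
  have hr34' : r ^ (3/4 : ℝ) = b ^ (3/4 : ℝ) * (m:ℝ) ^ 3 := by
    rw [hr, Real.mul_rpow hb0.le (by positivity), hkm, ← Real.rpow_natCast (m:ℝ) 4,
      ← Real.rpow_mul (by positivity)]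
    norm_num
  have htauP : tau (Seed z) K P ≤ t + k * Q - k * (gap / 2) := by
    have h1 := A.lip y P
    rw [norm_sub_rev] at h1
    have h2 : √‖P - y‖ ≤ √(b + ‖h‖) * (m:ℝ) ^ 2 := by
      rw [← hsk _ (by positivity)]
      apply Real.sqrt_le_sqrt
      calc ‖P - y‖ ≤ r + k * ‖h‖ := n2
        _ = (b + ‖h‖) * k := by rw [hr]; ring
    have h3 : √r = √b * (m:ℝ) ^ 2 := by rw [hr, hsk b hb0.le]
    have h4 : κ * ‖P - y‖ ≤ κ * r + k * (κ * inner ℝ e h) + k * (κ * ‖h‖ ^ 2 / (2 * b)) +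
        κ * ((D + 1) * b ^ (3/4 : ℝ)) * (m:ℝ) ^ 3 := by
      calc κ * ‖P - y‖ ≤ κ * (r + k * inner ℝ e h + k * (‖h‖ ^ 2 / (2 * b)) +
            (D + 1) * r ^ (3/4 : ℝ)) := mul_le_mul_of_nonneg_left n1 hκ.le
        _ = _ := by rw [hr34']; ring
    have h5 : (k:ℝ) * (κ * ‖h‖ ^ 2 / (2 * b)) ≤ k * (gap / 4) :=
      mul_le_mul_of_nonneg_left hb2 (by positivity)
    have h6 : C * √‖P - y‖ ≤ C * (√(b + ‖h‖) * (m:ℝ) ^ 2) := mul_le_mul_of_nonneg_left h2 hC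
    rw [h3] at hy2
    have h7 : gap / 4 * (m:ℝ) ^ 4 = k * (gap / 4) := by rw [hkm]; ring
    rw [h7] at hm2
    have h8 : (k:ℝ) * gap = k * Q - k * (κ * inner ℝ e h) := by rw [hgap]; ring
    linarith
  have hkg : 1 + Ta + Tf ≤ k * (gap / 2) := by
    have h7 : gap / 4 * (m:ℝ) ^ 4 = k * (gap / 4) := by rw [hkm]; ring
    rw [h7] at hm3
    linarith
  set s := t + k * Q - k * (gap / 2) + 1 with hs
  have hs0 : 0 ≤ s := by linarith [A.nonneg P]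
  have s3 : Seed z K s P := Z.tau_spec hK (by linarith)
  have hkq : -(|(k:ℝ) * Q|) ≤ k * Q := neg_abs_le _
  have u1 := hu.lo (t + k * Q) P (by linarith [hv4.1])
  have u2 : z {P} (t + k * Q - Ta - s) P ≤ z K (t + k * Q - Ta) P := by
    have := Z.comp K {P} s (t + k * Q - Ta - s) hs0 (by rw [hs]; linarith)
      (by rintro _ rfl; exact s3) P
    rwa [add_sub_cancel] at this
  have u3 := hTf {P} P P (t + k * Q - Ta - s) rfl (by simp) (by rw [hs]; linarith)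
  linarith

end

end Pool.Agent.AP157
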