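import Pool.Agent.AP157.FlowE

/-!
# The semiflow: semigroup property, invariance, and the real-valued interface
-/

set_option autoImplicit false

open MeasureTheory Real Set Filter Topology
open scoped ENNReal

namespace Pool.Agent.AP157

open Pool.Agent.X297.KP

noncomputable section

variable {N : ℕ} {f : ℝ → ℝ} {M : ℝ}

theorem split_time {h : ℝ → ℝ≥0∞} (_hh : Measurable h) {s t : ℝ} (hs : 0 < s) (ht : 0 < t) :
    ∫⁻ r in Ioo 0 (s + t), h r = (∫⁻ r in Ioo 0 s, h r) + ∫⁻ r in Ioo 0 t, h (s + r) := by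
  have e1 : ∫⁻ r in Ioo 0 t, h (s + r) = ∫⁻ r in Ioo s (s + t), h r := by
    rw [← lintegral_indicator measurableSet_Ioo, ← lintegral_indicator measurableSet_Ioo,
      ← lintegral_add_left_eq_self ((Ioo s (s + t)).indicator h) s]
    congr 1
    funext r
    by_cases hr : r ∈ Ioo 0 t
    · have hr' : s + r ∈ Ioo s (s + t) := ⟨by linarith [hr.1], by linarith [hr.2]⟩
      rw [indicator_of_mem hr, indicator_of_mem hr']
    · have hr' : s + r ∉ Ioo s (s + t) := fun h' => hr ⟨by linarith [h'.1], by linarith [h'.2]⟩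
      rw [indicator_of_notMem hr, indicator_of_notMem hr']
  have e2 : ∫⁻ r in Ioo 0 s, h r = ∫⁻ r in Ioc 0 s, h r := by
    rw [Measure.restrict_congr_set Ioo_ae_eq_Ioc]
  have e3 : Ioo 0 (s + t) = Ioc 0 s ∪ Ioo s (s + t) := by
    rw [Ioc_union_Ioo_eq_Ioo hs.le (by linarith)]
  rw [e1, e2, e3, lintegral_union measurableSet_Ioo]
  rw [Set.disjoint_left]
  intro r h1 h2
  linarith [h1.2, h2.1]

theorem kmeas (x : E N) (r : ℝ) : Measurable (fun y : E N => ENNReal.ofReal (heatK r (x - y))) := by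
  have := heatK_cont (N := N) (t := r)
  fun_prop

theorem ofr_exp (a b : ℝ) : ENNReal.ofReal (Real.exp (-(M * a))) *
    ENNReal.ofReal (Real.exp (-(M * b))) = ENNReal.ofReal (Real.exp (-(M * (a + b)))) := by
  rw [← ENNReal.ofReal_mul (Real.exp_nonneg _), ← Real.exp_add]
  congr 2
  ring

theorem semi_aux (hf : Nl f M) {g : E N → ℝ≥0∞} (hg : Measurable g) {s t : ℝ} (hs : 0 < s)
    (ht : 0 < t) (x : E N) :
    ENNReal.ofReal (Real.exp (-(M * t))) *
      (∫⁻ y, ENNReal.ofReal (heatK t (x - y)) * uu f M g s y) =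
    ENNReal.ofReal (Real.exp (-(M * (s + t)))) *
      (∫⁻ y, ENNReal.ofReal (heatK (s + t) (x - y)) * g y) +
    ∫⁻ r in Ioo 0 s, ENNReal.ofReal (Real.exp (-(M * (s + t - r)))) *
      ∫⁻ z, ENNReal.ofReal (heatK (s + t - r) (x - z)) * Gt f M (uu f M g r z) := by
  set φ : ℝ → E N → ℝ≥0∞ := fun r z => Gt f M (uu f M g r z) with hφd
  have hφ : Measurable (Function.uncurry φ) := (Gt_cont hf).measurable.comp (uu_meas hf hg)
  have e0 : ∀ y, ENNReal.ofReal (heatK t (x - y)) * uu f M g s y =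
      ENNReal.ofReal (Real.exp (-(M * s))) * (ENNReal.ofReal (heatK t (x - y)) *
        ∫⁻ z, ENNReal.ofReal (heatK s (y - z)) * g z) +
      ∫⁻ r in Ioo 0 s, ENNReal.ofReal (heatK t (x - y)) *
        (ENNReal.ofReal (Real.exp (-(M * (s - r)))) *
        ∫⁻ z, ENNReal.ofReal (heatK (s - r) (y - z)) * φ r z) := by
    intro y
    rw [uu_fix hf hg s y]
    unfold Phi
    rw [mul_add]
    congr 1
    · ring
    · rw [lintegral_const_mul' _ _ ENNReal.ofReal_ne_top]
  simp_rw [e0]
  have m1 : Measurable (fun y : E N => ENNReal.ofReal (Real.exp (-(M * s))) *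
      (ENNReal.ofReal (heatK t (x - y)) * ∫⁻ z, ENNReal.ofReal (heatK s (y - z)) * g z)) := by
    apply Measurable.const_mul
    apply (kmeas x t).mul
    exact (meas_conv0 hg).comp (f := fun y : E N => (s, y)) (by fun_prop)
  have m1' : Measurable (fun y : E N =>
      (ENNReal.ofReal (heatK t (x - y)) * ∫⁻ z, ENNReal.ofReal (heatK s (y - z)) * g z)) := by
    apply (kmeas x t).mul
    exact (meas_conv0 hg).comp (f := fun y : E N => (s, y)) (by fun_prop)
  rw [lintegral_add_left m1, lintegral_const_mul _ m1', conv_conv hg ht hs, mul_add, ← mul_assoc,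
    ofr_exp, add_comm t s]
  congr 1
  rw [lintegral_lintegral_swap]
  · rw [← lintegral_const_mul' _ _ ENNReal.ofReal_ne_top]
    apply setLIntegral_congr_fun measurableSet_Ioo
    intro r hr
    have hsr : 0 < s - r := by linarith [hr.2]
    have e2 : ∀ y : E N, ENNReal.ofReal (heatK t (x - y)) *
        (ENNReal.ofReal (Real.exp (-(M * (s - r)))) *
        ∫⁻ z, ENNReal.ofReal (heatK (s - r) (y - z)) * φ r z) =
        ENNReal.ofReal (Real.exp (-(M * (s - r)))) *
        (ENNReal.ofReal (heatK t (x - y)) *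
        ∫⁻ z, ENNReal.ofReal (heatK (s - r) (y - z)) * φ r z) := by
      intro y; ring
    simp only
    simp_rw [e2]
    rw [lintegral_const_mul' _ _ ENNReal.ofReal_ne_top,
      conv_conv (D := φ r) (hφ.comp (f := fun y : E N => (r, y)) (by fun_prop)) ht hsr,
      ← mul_assoc, ofr_exp]
    have e5 : t + (s - r) = s + t - r := by ring
    rw [e5]
  · apply Measurable.aemeasurable
    have h1 := (meas_conv hφ s).comp (f := fun q : E N × ℝ => (q.2, q.1)) (by fun_prop)
    have h2 : Measurable (fun q : E N × ℝ => ENNReal.ofReal (heatK t (x - q.1))) := by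
      have := heatK_cont (N := N) (t := t)
      fun_prop
    have h3 : Measurable (fun q : E N × ℝ =>
        ENNReal.ofReal (Real.exp (-(M * (s - q.2))))) := by fun_prop
    exact h2.mul (h3.mul h1)

theorem shift_fix (hf : Nl f M) {g : E N → ℝ≥0∞} (hg : Measurable g) {s t : ℝ} (hs : 0 < s)
    (ht : 0 < t) (x : E N) :
    Phi f M (uu f M g s) (fun r y => uu f M g (s + r) y) t x = uu f M g (s + t) x := by
  set φ : ℝ → E N → ℝ≥0∞ := fun r z => Gt f M (uu f M g r z) with hφd
  have hφ : Measurable (Function.uncurry φ) := (Gt_cont hf).measurable.comp (uu_meas hf hg)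
  have hh : Measurable (fun r : ℝ => ENNReal.ofReal (Real.exp (-(M * (s + t - r)))) *
      ∫⁻ z, ENNReal.ofReal (heatK (s + t - r) (x - z)) * φ r z) := by
    apply Measurable.mul (by fun_prop)
    exact (meas_inner hφ).comp (f := fun r : ℝ => ((s + t, x), r)) (by fun_prop)
  rw [uu_fix hf hg (s + t) x]
  unfold Phi
  rw [semi_aux hf hg hs ht x, split_time hh hs ht, add_assoc]
  congr 2
  apply lintegral_congr
  intro r
  have e5 : s + t - (s + r) = t - r := by ring
  rw [e5]

theorem uu_semi (hf : Nl f M) {g : E N → ℝ≥0∞} (hg : Measurable g) (hg1 : ∀ x, g x ≤ 1)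
    {s t : ℝ} (hs : 0 < s) (ht : 0 < t) (x : E N) :
    uu f M (uu f M g s) t x = uu f M g (s + t) x := by
  have hgs : Measurable (uu f M g s) :=
    (uu_meas hf hg).comp (f := fun y : E N => (s, y)) (by fun_prop)
  have hgs1 : ∀ y, uu f M g s y ≤ 1 := fun y => uu_le hf hg1 hs y
  have hw : Measurable (Function.uncurry (fun r y => uu f M g (s + r) y)) :=
    (uu_meas hf hg).comp (f := fun p : ℝ × E N => (s + p.1, p.2)) (by fun_prop)
  have hu := uu_meas hf hgs
  apply le_antisymm
  · exact comp_mono hf hgs (fun _ => le_rfl) hu hw (fun t ht x => uu_le hf hgs1 ht x)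
      (fun t ht x => (uu_fix hf hgs t x).le) (fun t ht x => (shift_fix hf hg hs ht x).le) t ht x
  · exact comp_mono hf hgs (fun _ => le_rfl) hw hu
      (fun t ht x => uu_le hf hg1 (by linarith) x)
      (fun t ht x => (shift_fix hf hg hs ht x).ge) (fun t ht x => (uu_fix hf hgs t x).ge) t ht x

theorem heatK_congr {t : ℝ} {x y : E N} (h : ‖x‖ = ‖y‖) : heatK t x = heatK t y := by
  unfold heatK
  rw [h]

/-- Invariance under isometries. -/
theorem it_comp (hf : Nl f M) {T : E N → E N} (hT : MeasurePreserving T volume volume)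
    (hiso : ∀ x y, ‖T x - T y‖ = ‖x - y‖) {g : E N → ℝ≥0∞} (hg : Measurable g) (n : ℕ) (t : ℝ)
    (x : E N) : it f M (fun y => g (T y)) n t x = it f M g n t (T x) := by
  induction n generalizing t x with
  | zero => rfl
  | succ n ih =>
    have key : ∀ (r : ℝ) (h : E N → ℝ≥0∞), Measurable h →
        ∫⁻ y, ENNReal.ofReal (heatK r (x - y)) * h (T y) =
          ∫⁻ y, ENNReal.ofReal (heatK r (T x - y)) * h y := by
      intro r h hh
      have hm : Measurable (fun y => ENNReal.ofReal (heatK r (T x - y)) * h y) :=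
        (kmeas (T x) r).mul hh
      rw [← hT.lintegral_comp hm]
      apply lintegral_congr
      intro y
      rw [heatK_congr (hiso x y).symm]
    show Phi f M _ _ t x = Phi f M _ _ t (T x)
    unfold Phi
    rw [key t g hg]
    congr 1
    apply lintegral_congr
    intro s
    congr 1
    have h2 : Measurable (fun y => Gt f M (it f M g n s y)) :=
      (Gt_cont hf).measurable.comp ((it_meas hf hg n).comp (f := fun y : E N => (s, y))
        (by fun_prop))
    rw [← key (t - s) _ h2]
    apply lintegral_congr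
    intro y
    rw [ih]

theorem uu_comp (hf : Nl f M) {T : E N → E N} (hT : MeasurePreserving T volume volume)
    (hiso : ∀ x y, ‖T x - T y‖ = ‖x - y‖) {g : E N → ℝ≥0∞} (hg : Measurable g) (t : ℝ)
    (x : E N) : uu f M (fun y => g (T y)) t x = uu f M g t (T x) := by
  unfold uu
  congr 1
  funext n
  exact it_comp hf hT hiso hg n t x

/-! ### Real-valued interface -/

/-- Admissible data: measurable functions with values in `[0,1]`. -/
structure Dat (g : E N → ℝ) : Prop where
  meas : Measurable g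
  mem : ∀ x, g x ∈ Icc (0:ℝ) 1

/-- The semiflow. -/
def S (f : ℝ → ℝ) (M : ℝ) (t : ℝ) (g : E N → ℝ) (x : E N) : ℝ :=
  if t ≤ 0 then g x else (uu f M (fun y => ENNReal.ofReal (g y)) t x).toReal

/-- The heat semigroup. -/
def P (t : ℝ) (g : E N → ℝ) (x : E N) : ℝ := ∫ y, heatK t (x - y) * g y

/-- The shifted nonlinearity, extended continuously. -/
def Fe (f : ℝ → ℝ) (M : ℝ) (a : ℝ) : ℝ := f (max 0 (min 1 a)) + M * max 0 (min 1 a)

theorem clamp_mem (a : ℝ) : max 0 (min 1 a) ∈ Icc (0:ℝ) 1 :=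
  ⟨le_max_left _ _, max_le zero_le_one (min_le_left _ _)⟩

theorem clamp_eq {a : ℝ} (ha : a ∈ Icc (0:ℝ) 1) : max 0 (min 1 a) = a := by
  rw [min_eq_right ha.2, max_eq_right ha.1]

theorem Fe_eq {a : ℝ} (ha : a ∈ Icc (0:ℝ) 1) : Fe f M a = f a + M * a := by
  unfold Fe
  rw [clamp_eq ha]

theorem Fe_cont (hf : Nl f M) : Continuous (Fe f M) := by
  unfold Fe
  have h1 : Continuous (fun v : ℝ => f (max 0 (min 1 v))) :=
    hf.cont.comp_continuous (by fun_prop) clamp_mem
  exact h1.add (by fun_prop)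

theorem Fe_nonneg (hf : Nl f M) (a : ℝ) : 0 ≤ Fe f M a := Fs_nonneg hf (clamp_mem a)

theorem Fe_mono (hf : Nl f M) : Monotone (Fe f M) := by
  intro a b hab
  apply Fs_mono hf (clamp_mem a) (clamp_mem b)
  gcongr

theorem Fe_le (hf : Nl f M) (a : ℝ) : Fe f M a ≤ M := by
  have := Fs_mono hf (clamp_mem a) ⟨zero_le_one, le_rfl⟩ (clamp_mem a).2
  rw [hf.one] at this
  unfold Fe
  linarith

theorem Fe_lip (hf : Nl f M) {a b : ℝ} (ha : a ∈ Icc (0:ℝ) 1) (hb : b ∈ Icc (0:ℝ) 1)
    (hab : a ≤ b) : Fe f M b - Fe f M a ≤ 2 * M * (b - a) := by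
  rw [Fe_eq ha, Fe_eq hb]
  have h4 := hf.lip _ hb _ ha
  rw [abs_of_nonneg (by linarith : 0 ≤ b - a)] at h4
  have h5 := (abs_le.mp h4).2
  linarith

theorem ofR_le {g : E N → ℝ} (hg : Dat g) (x : E N) : ENNReal.ofReal (g x) ≤ 1 := by
  rw [ENNReal.ofReal_le_one]
  exact (hg.mem x).2

theorem ofR_meas {g : E N → ℝ} (hg : Dat g) : Measurable (fun x => ENNReal.ofReal (g x)) :=
  hg.meas.ennreal_ofReal

theorem S_zero (g : E N → ℝ) : S f M 0 g = g := by
  funext x
  simp [S]

theorem S_pos_eq {t : ℝ} (ht : 0 < t) (g : E N → ℝ) (x : E N) :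
    S f M t g x = (uu f M (fun y => ENNReal.ofReal (g y)) t x).toReal := by
  unfold S
  rw [if_neg (not_le.mpr ht)]

theorem uu_ne_top (hf : Nl f M) {g : E N → ℝ} (hg : Dat g) {t : ℝ} (ht : 0 < t) (x : E N) :
    uu f M (fun y => ENNReal.ofReal (g y)) t x ≠ ⊤ :=
  ne_of_lt (lt_of_le_of_lt (uu_le hf (ofR_le hg) ht x) ENNReal.one_lt_top)

theorem ofR_S (hf : Nl f M) {g : E N → ℝ} (hg : Dat g) {t : ℝ} (ht : 0 < t) (x : E N) :
    ENNReal.ofReal (S f M t g x) = uu f M (fun y => ENNReal.ofReal (g y)) t x := by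
  rw [S_pos_eq ht, ENNReal.ofReal_toReal (uu_ne_top hf hg ht x)]

theorem S_mem (hf : Nl f M) {g : E N → ℝ} (hg : Dat g) (t : ℝ) (x : E N) :
    S f M t g x ∈ Icc (0:ℝ) 1 := by
  by_cases ht : t ≤ 0
  · unfold S
    rw [if_pos ht]
    exact hg.mem x
  · push Not at ht
    rw [S_pos_eq ht]
    refine ⟨ENNReal.toReal_nonneg, ?_⟩
    have := ENNReal.toReal_mono ENNReal.one_ne_top (uu_le hf (ofR_le hg) ht x)
    simpa using this

theorem S_meas (hf : Nl f M) {g : E N → ℝ} (hg : Dat g) :
    Measurable (Function.uncurry (fun t x => S f M t g x)) := by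
  have h1 : Function.uncurry (fun t x => S f M t g x) = fun p : ℝ × E N =>
      if p.1 ≤ 0 then g p.2 else (uu f M (fun y => ENNReal.ofReal (g y)) p.1 p.2).toReal := rfl
  rw [h1]
  apply Measurable.ite (measurableSet_le (by fun_prop) (by fun_prop))
  · exact hg.meas.comp (by fun_prop)
  · exact (uu_meas hf (ofR_meas hg)).ennreal_toReal

theorem S_dat (hf : Nl f M) {g : E N → ℝ} (hg : Dat g) (t : ℝ) : Dat (S f M t g) :=
  ⟨(S_meas hf hg).comp (f := fun y : E N => (t, y)) (by fun_prop), S_mem hf hg t⟩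

theorem S_add (hf : Nl f M) {g : E N → ℝ} (hg : Dat g) {s t : ℝ} (hs : 0 ≤ s) (ht : 0 ≤ t) :
    S f M (s + t) g = S f M t (S f M s g) := by
  funext x
  rcases eq_or_lt_of_le hs with h | h
  · rw [← h, S_zero, zero_add]
  rcases eq_or_lt_of_le ht with h' | h'
  · rw [← h', S_zero, add_zero]
  rw [S_pos_eq (by linarith), S_pos_eq h', ← uu_semi hf (ofR_meas hg) (ofR_le hg) h h']
  have e : (fun y => ENNReal.ofReal (S f M s g y)) =
      uu f M (fun y => ENNReal.ofReal (g y)) s := by
    funext y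
    exact ofR_S hf hg h y
  rw [e]

theorem P_ofReal {t : ℝ} (ht : 0 < t) {g : E N → ℝ} (hg : Measurable g) {C : ℝ}
    (hg0 : ∀ y, 0 ≤ g y) (hC : ∀ y, g y ≤ C) (x : E N) :
    ENNReal.ofReal (P t g x) = ∫⁻ y, ENNReal.ofReal (heatK t (x - y)) * ENNReal.ofReal (g y) := by
  unfold P
  rw [ofReal_integral_eq_lintegral_ofReal]
  · apply lintegral_congr
    intro y
    rw [ENNReal.ofReal_mul (heatK_nonneg ht _)]
  · apply (heatK_integrable' ht x).mul_bdd (c := C) hg.aestronglyMeasurable
    refine Eventually.of_forall (fun y => ?_)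
    rw [Real.norm_eq_abs, abs_of_nonneg (hg0 y)]
    exact hC y
  · exact Eventually.of_forall fun y => mul_nonneg (heatK_nonneg ht _) (hg0 y)

theorem P_nonneg {t : ℝ} (ht : 0 < t) {g : E N → ℝ} (hg0 : ∀ y, 0 ≤ g y) (x : E N) :
    0 ≤ P t g x := integral_nonneg fun y => mul_nonneg (heatK_nonneg ht _) (hg0 y)

theorem P_int {t : ℝ} (ht : 0 < t) {g : E N → ℝ} (hg : Measurable g) {C : ℝ}
    (hC : ∀ y, |g y| ≤ C) (x : E N) : Integrable (fun y => heatK t (x - y) * g y) := by
  apply (heatK_integrable' ht x).mul_bdd (c := C) hg.aestronglyMeasurable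
  exact Eventually.of_forall hC

theorem P_const {t : ℝ} (ht : 0 < t) (c : ℝ) (x : E N) : P t (fun _ => c) x = c := by
  unfold P
  rw [integral_mul_const, heatK_int1' ht, one_mul]

theorem P_mono {t : ℝ} (ht : 0 < t) {g g' : E N → ℝ} (hg : Measurable g) (hg' : Measurable g')
    {C : ℝ} (hC : ∀ y, |g y| ≤ C) (hC' : ∀ y, |g' y| ≤ C) (h : ∀ y, g y ≤ g' y) (x : E N) :
    P t g x ≤ P t g' x := by
  apply integral_mono (P_int ht hg hC x) (P_int ht hg' hC' x)
  intro y
  exact mul_le_mul_of_nonneg_left (h y) (heatK_nonneg ht _)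

theorem P_le {t : ℝ} (ht : 0 < t) {g : E N → ℝ} (hg : Measurable g)
    {C : ℝ} (hC : ∀ y, |g y| ≤ C) {c : ℝ} (h : ∀ y, g y ≤ c) (x : E N) :
    P t g x ≤ c := by
  rw [← P_const ht c x]
  refine P_mono ht hg measurable_const (C := max C |c|) (fun y => (hC y).trans (le_max_left _ _))
    (fun y => le_max_right _ _) h x

theorem P_abs_le {t : ℝ} (ht : 0 < t) {g : E N → ℝ} (hg : Measurable g)
    {C : ℝ} (hC : ∀ y, |g y| ≤ C) (x : E N) :
    |P t g x| ≤ C := by
  rw [abs_le]
  constructor
  · rw [← P_const ht (-C) x]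
    exact P_mono ht measurable_const hg (C := C) (fun y => by
      rw [abs_neg, abs_of_nonneg ((abs_nonneg _).trans (hC y))]) hC
      (fun y => neg_le_of_abs_le (hC y)) x
  · exact P_le ht hg hC (fun y => le_of_abs_le (hC y)) x

/-- Shifted Duhamel formula. -/
theorem duhamel (hf : Nl f M) {g : E N → ℝ} (hg : Dat g) {t : ℝ} (ht : 0 < t) (x : E N) :
    S f M t g x = Real.exp (-(M * t)) * P t g x +
      ∫ s in (0:ℝ)..t, Real.exp (-(M * (t - s))) *
        P (t - s) (fun y => Fe f M (S f M s g y)) x := by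
  have hM0 := hf.nn
  have hFm : Measurable (Function.uncurry (fun s y => Fe f M (S f M s g y))) :=
    (Fe_cont hf).measurable.comp (S_meas hf hg)
  have hFs : ∀ s, Measurable (fun y => Fe f M (S f M s g y)) := fun s =>
    hFm.comp (f := fun y : E N => (s, y)) (by fun_prop)
  have hPm : StronglyMeasurable (fun s => P (t - s) (fun y => Fe f M (S f M s g y)) x) := by
    apply StronglyMeasurable.integral_prod_right
      (f := fun s y => heatK (t - s) (x - y) * Fe f M (S f M s g y))
    apply Measurable.stronglyMeasurable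
    apply Measurable.mul
    · exact heatK_meas.comp (f := fun q : ℝ × E N => (t - q.1, x - q.2)) (by fun_prop)
    · exact hFm
  have hP0 : ∀ s, s < t → 0 ≤ P (t - s) (fun y => Fe f M (S f M s g y)) x := fun s hs =>
    P_nonneg (by linarith) (fun y => Fe_nonneg hf _) x
  have hPle : ∀ s, s < t → P (t - s) (fun y => Fe f M (S f M s g y)) x ≤ M := fun s hs =>
    P_le (by linarith) (hFs s) (C := M) (fun y => by
      rw [abs_of_nonneg (Fe_nonneg hf _)]; exact Fe_le hf _) (fun y => Fe_le hf _) x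
  have hRHS0 : 0 ≤ ∫ s in (0:ℝ)..t, Real.exp (-(M * (t - s))) *
        P (t - s) (fun y => Fe f M (S f M s g y)) x := by
    rw [intervalIntegral.integral_of_le ht.le, integral_Ioc_eq_integral_Ioo]
    apply setIntegral_nonneg measurableSet_Ioo
    intro s hs
    exact mul_nonneg (Real.exp_nonneg _) (hP0 s hs.2)
  have hP00 : 0 ≤ P t g x := P_nonneg ht (fun y => (hg.mem y).1) x
  have e1 : ENNReal.ofReal (Real.exp (-(M * t)) * P t g x +
      ∫ s in (0:ℝ)..t, Real.exp (-(M * (t - s))) *
        P (t - s) (fun y => Fe f M (S f M s g y)) x) =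
      uu f M (fun y => ENNReal.ofReal (g y)) t x := by
    rw [ENNReal.ofReal_add (mul_nonneg (Real.exp_nonneg _) hP00) hRHS0,
      ENNReal.ofReal_mul (Real.exp_nonneg _),
      P_ofReal ht hg.meas (fun y => (hg.mem y).1) (fun y => (hg.mem y).2),
      uu_fix hf (ofR_meas hg) t x]
    unfold Phi
    congr 1
    rw [intervalIntegral.integral_of_le ht.le, integral_Ioc_eq_integral_Ioo,
      ofReal_integral_eq_lintegral_ofReal]
    · apply setLIntegral_congr_fun measurableSet_Ioo
      intro s hs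
      have hts : 0 < t - s := by linarith [hs.2]
      simp only
      rw [ENNReal.ofReal_mul (Real.exp_nonneg _),
        P_ofReal hts (hFs s) (fun y => Fe_nonneg hf _) (fun y => Fe_le hf _)]
      congr 1
      apply lintegral_congr
      intro y
      congr 1
      unfold Gt
      rw [← ofR_S hf hg hs.1]
      have hc : cl (ENNReal.ofReal (S f M s g y)) = S f M s g y := by
        unfold cl
        rw [min_eq_left (by rw [ENNReal.ofReal_le_one]; exact (S_mem hf hg s y).2),
          ENNReal.toReal_ofReal (S_mem hf hg s y).1]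
      rw [hc, Fe_eq (S_mem hf hg s y)]
    · apply Measure.integrableOn_of_bounded (M := M) (by simp)
      · exact ((by fun_prop : Measurable (fun s : ℝ => Real.exp (-(M * (t - s)))))
          |>.aestronglyMeasurable).mul hPm.aestronglyMeasurable
      · filter_upwards [ae_restrict_mem measurableSet_Ioo] with s hs
        rw [norm_mul, Real.norm_eq_abs, Real.norm_eq_abs, abs_of_nonneg (Real.exp_nonneg _),
          abs_of_nonneg (hP0 s hs.2)]
        have h3 : Real.exp (-(M * (t - s))) ≤ 1 := by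
          apply Real.exp_le_one_iff.mpr
          have : 0 ≤ M * (t - s) := mul_nonneg hM0 (by linarith [hs.2])
          linarith
        calc _ ≤ 1 * M := mul_le_mul h3 (hPle s hs.2) (hP0 s hs.2) zero_le_one
          _ = M := one_mul M
    · filter_upwards [ae_restrict_mem measurableSet_Ioo] with s hs
      exact mul_nonneg (Real.exp_nonneg _) (hP0 s hs.2)
  rw [S_pos_eq ht, ← e1, ENNReal.toReal_ofReal
    (add_nonneg (mul_nonneg (Real.exp_nonneg _) hP00) hRHS0)]

end

end Pool.Agent.AP157
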