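import Pool.Agent.AP157.SlideC

/-!
# The sliding argument for monostable nonlinearities, with a time shift in the bound

`O` is a class of entire solutions, invariant under translations in space and time and closed under
limits, such that `ψ(t, x + k h) ≤ A ψ(t + a₀, x)` for all `k`.  Then `ψ(t, x + h) ≤ ψ(t + σ, x)` for
all `σ ≥ 0`.  Consequently an entire solution with `ψ(t, x + h) ≤ A ψ(t + a₀, x)` for all `h`
orthogonal to `e` does not depend on the coordinates orthogonal to `e`.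
-/

set_option autoImplicit false

open MeasureTheory Real Set Filter Topology
open scoped ENNReal

namespace Pool.Agent.AP157

open Pool.Agent.X297.KP

noncomputable section

variable {N : ℕ} {f : ℝ → ℝ} {M m : ℝ}

/-- The sliding argument, with a time shift in the bound. -/
theorem slide4 (hf : Nl f M) (H : Mn f m) {A a₀ : ℝ} (hA : 1 ≤ A) (ha₀ : 0 ≤ a₀)
    {O : Set (ℝ → E N → ℝ)}
    (hE : ∀ ψ ∈ O, Ent f M ψ)
    (hsh : ∀ ψ ∈ O, ∀ s y, (fun t x => ψ (s + t) (y + x)) ∈ O)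
    (hcl : ∀ Ψ : ℕ → ℝ → E N → ℝ, (∀ i, Ψ i ∈ O) → ∀ ψ : ℝ → E N → ℝ,
      (∀ t x, Tendsto (fun i => Ψ i t x) (hyperfilter ℕ) (𝓝 (ψ t x))) → ψ ∈ O)
    {h : E N} (hb : ∀ ψ ∈ O, ∀ k : ℕ, ∀ t x, ψ t (x + (k:ℝ) • h) ≤ A * ψ (t + a₀) x)
    {ψ : ℝ → E N → ℝ} (hψ : ψ ∈ O) (t : ℝ) (x : E N) {σ : ℝ} (hσ : 0 ≤ σ) :
    ψ t (x + h) ≤ ψ (t + σ) x := by
  have hA0 : 0 < A := by linarith
  obtain ⟨L, hL, hLs⟩ := ent_reg N hf
  obtain ⟨δ, hδ, hδ2, hbulk⟩ := ent_bulk N hf H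
  have hEa : ∀ ψ ∈ O, Ent f M (fun t x => ψ t (x + h)) := fun ψ hψ => by
    have := (hE ψ hψ).shift hf 0 h
    simpa using this
  have hEb : ∀ ψ ∈ O, ∀ T, Ent f M (fun t x => ψ (t + T) x) := fun ψ hψ T => by
    have := (hE ψ hψ).shift hf T 0
    simpa using this
  have hb1 : ∀ ψ ∈ O, ∀ t x, ψ t (x + h) ≤ A * ψ (t + a₀) x := fun ψ hψ t x => by
    simpa using hb ψ hψ 1 t x
  set 𝒯 : Set ℝ := {T | 0 ≤ T ∧ ∀ T', T ≤ T' → ∀ ψ ∈ O, ∀ t x, ψ t (x + h) ≤ ψ (t + T') x}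
    with h𝒯
  suffices hmain : (0:ℝ) ∈ 𝒯 from hmain.2 σ hσ ψ hψ t x
  have hne : 𝒯.Nonempty := by
    obtain ⟨T₀, hT₀, hr⟩ := ent_ratio N hf H hA0 hδ
    refine ⟨T₀ + a₀, by linarith, fun T' hT' ψ hψ t x => ?_⟩
    refine hbulk (fun t x => ψ t (x + h)) (fun t x => ψ (t + T') x) (hEa ψ hψ) (hEb ψ hψ T')
      (fun t x hlt => ?_) t x
    have h1 := hr (T' - a₀) (by linarith) ψ (hE ψ hψ) (t + a₀) x
    rw [add_assoc, add_sub_cancel] at h1
    rcases min_le_iff.mp h1 with h2 | h2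
    · exact absurd hlt (not_lt.mpr ((hb1 ψ hψ t x).trans h2))
    · exact h2
  have hbd : ∀ T ∈ 𝒯, 0 ≤ T := fun T hT => hT.1
  by_contra hcon
  set Q := sInf 𝒯 with hQ
  have hQT : Q ∈ 𝒯 := by
    refine ⟨le_csInf hne hbd, ?_⟩
    intro T' hT' ψ hψ t x
    have h1 : ∀ r ∈ Ioc (0:ℝ) 1, ψ t (x + h) ≤ ψ (t + T') x + L * √r := by
      intro r hr
      obtain ⟨T'', hT'', hlt⟩ := exists_lt_of_csInf_lt hne (by linarith [hr.1] : sInf 𝒯 < T' + r)
      have h2 := hT''.2 (T' + r) hlt.le ψ hψ t x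
      have h3 := (abs_le.mp ((hLs ψ (hE ψ hψ)).2 (t + T') r ⟨hr.1.le, hr.2⟩ x)).2
      have e1 : t + (T' + r) = t + T' + r := by ring
      rw [e1] at h2
      linarith
    have h2 : Tendsto (fun r : ℝ => ψ (t + T') x + L * √r) (𝓝[>] 0)
        (𝓝 (ψ (t + T') x + L * √0)) := by
      apply Tendsto.mono_left _ nhdsWithin_le_nhds
      exact ((Real.continuous_sqrt.tendsto 0).const_mul L).const_add _
    rw [Real.sqrt_zero, mul_zero, add_zero] at h2
    refine ge_of_tendsto h2 ?_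
    filter_upwards [Ioc_mem_nhdsGT (zero_lt_one' ℝ)] with r hr
    exact h1 r hr
  have hQ0 : 0 < Q := by
    refine lt_of_le_of_ne (hbd Q hQT) (fun heq => hcon ?_)
    rw [heq]
    exact hQT
  -- failures just below `Q`
  have hfail : ∀ n : ℕ, ∃ φ ∈ O, ∃ s, Q / 2 ≤ s ∧ s < Q ∧ Q - s ≤ 1 / ((n:ℝ) + 1) ∧
      φ s 0 < φ 0 h ∧ φ s 0 < 1 - δ := by
    intro n
    have hn0 : 0 < 1 / ((n:ℝ) + 1) := by positivity
    have h1 : max (Q - 1 / ((n:ℝ) + 1)) (Q / 2) ∉ 𝒯 := by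
      intro hmem
      have h2 := csInf_le ⟨0, fun T hT => hbd T hT⟩ hmem
      have h3 : max (Q - 1 / ((n:ℝ) + 1)) (Q / 2) < Q := max_lt (by linarith) (by linarith)
      exact absurd h3 (not_lt.mpr h2)
    have h0 : 0 ≤ max (Q - 1 / ((n:ℝ) + 1)) (Q / 2) := le_max_of_le_right (by linarith)
    rw [h𝒯, mem_ofPred_eq] at h1
    push Not at h1
    obtain ⟨T', hT', ψ₁, hψ₁, t₁, x₁, hlt⟩ := h1 h0
    have hT'Q : T' < Q := by
      by_contra hge
      push Not at hge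
      exact absurd (hQT.2 T' hge ψ₁ hψ₁ t₁ x₁) (not_le.mpr hlt)
    have hT'1 : Q - 1 / ((n:ℝ) + 1) ≤ T' := (le_max_left _ _).trans hT'
    have hT'2 : Q / 2 ≤ T' := (le_max_right _ _).trans hT'
    obtain ⟨t₂, x₂, h3, h4⟩ : ∃ t₂ x₂, ψ₁ (t₂ + T') x₂ < ψ₁ t₂ (x₂ + h) ∧
        ψ₁ (t₂ + T') x₂ < 1 - δ := by
      by_contra hno
      push Not at hno
      exact absurd (hbulk (fun t x => ψ₁ t (x + h)) (fun t x => ψ₁ (t + T') x) (hEa ψ₁ hψ₁)
        (hEb ψ₁ hψ₁ T') (fun t x hlt => hno t x hlt) t₁ x₁) (not_le.mpr hlt)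
    refine ⟨fun t x => ψ₁ (t₂ + t) (x₂ + x), hsh ψ₁ hψ₁ t₂ x₂, T', hT'2, hT'Q, by linarith, ?_, ?_⟩
    · simpa using h3
    · simpa using h4
  choose φ hφO s hs1 hs2 hs3 hφ1 hφ2 using hfail
  obtain ⟨ψ', hψ'E, hψ'⟩ := ulim hf (hyperfilter ℕ) φ
    (fun t => Eventually.of_forall fun i s _ => (hE _ (hφO i)).dat s)
    (fun t => Eventually.of_forall fun i s r _ hr x => (hE _ (hφO i)).flow s r hr x)
  have hψ'O : ψ' ∈ O := hcl φ hφO ψ' hψ'
  have hsm0 : Tendsto (fun n : ℕ => 1 / ((n:ℝ) + 1)) (hyperfilter ℕ) (𝓝 0) :=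
    tendsto_one_div_add_atTop_nhds_zero_nat.mono_left Nat.hyperfilter_le_atTop
  have hsm : Tendsto (fun n : ℕ => L * √(1 / ((n:ℝ) + 1))) (hyperfilter ℕ) (𝓝 0) := by
    have h1 : Tendsto (fun n : ℕ => L * √(1 / ((n:ℝ) + 1))) (hyperfilter ℕ) (𝓝 (L * √0)) :=
      ((Real.continuous_sqrt.tendsto 0).comp hsm0).const_mul L
    rwa [Real.sqrt_zero, mul_zero] at h1
  have hmod : ∀ n, φ n Q 0 ≤ φ n (s n) 0 + L * √(1 / ((n:ℝ) + 1)) := by
    intro n
    have hn1 : 1 / ((n:ℝ) + 1) ≤ 1 := by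
      rw [div_le_one (by positivity)]
      have : (0:ℝ) ≤ n := by positivity
      linarith
    have h2 := (abs_le.mp ((hLs (φ n) (hE _ (hφO n))).2 (s n) (Q - s n)
      ⟨by linarith [hs2 n], by linarith [hs3 n]⟩ 0)).2
    rw [add_sub_cancel] at h2
    have h3 : L * √(Q - s n) ≤ L * √(1 / ((n:ℝ) + 1)) :=
      mul_le_mul_of_nonneg_left (Real.sqrt_le_sqrt (hs3 n)) hL.le
    linarith
  by_cases hpos : 0 < ψ' 0 h
  · -- the limit is nontrivial
    have g2 : ψ' Q 0 ≤ 1 - δ := by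
      have h1 : Tendsto (fun n : ℕ => 1 - δ + L * √(1 / ((n:ℝ) + 1))) (hyperfilter ℕ)
          (𝓝 (1 - δ + 0)) := hsm.const_add _
      rw [add_zero] at h1
      refine le_of_tendsto_of_tendsto (hψ' Q 0) h1 (Eventually.of_forall fun n => ?_)
      have := hmod n
      have := hφ2 n
      simp only
      linarith
    have g3 : ψ' Q 0 ≤ ψ' 0 h := by
      have h1 := (hψ' 0 h).add hsm
      rw [add_zero] at h1
      refine le_of_tendsto_of_tendsto (hψ' Q 0) h1 (Eventually.of_forall fun n => ?_)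
      have := hmod n
      have := hφ1 n
      simp only
      linarith
    have g4 : ∀ t x, ψ' t (x + h) ≤ ψ' (t + Q) x := hQT.2 Q le_rfl ψ' hψ'O
    have g5 : ψ' 0 h = ψ' Q 0 := by
      apply le_antisymm _ g3
      have := g4 0 0
      simpa using this
    have g6 : ∀ t x, ψ' t (x + h) = ψ' (t + Q) x :=
      ent_touch hf (hEa ψ' hψ'O) (hEb ψ' hψ'O Q) g4 (t₀ := 0) (x₀ := 0) (by simpa using g5)
    have g7 : ∀ k : ℕ, ∀ t x, ψ' (t + k * Q) x = ψ' t (x + (k:ℝ) • h) := by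
      intro k
      induction k with
      | zero => intro t x; simp
      | succ k ih =>
        intro t x
        have e1 : t + ((k + 1 : ℕ) : ℝ) * Q = t + k * Q + Q := by push_cast; ring
        have e2 : x + ((k + 1 : ℕ) : ℝ) • h = x + h + (k:ℝ) • h := by
          push_cast
          rw [add_smul, one_smul]
          abel
        rw [e1, ← g6, ih, e2]
    have g8 : ∀ t x, 1 / (2 * A) ≤ ψ' t x := by
      intro t x
      obtain ⟨T, hT, hTs⟩ := hψ'E.spread hf H (hψ'E.pos_of hf hpos (t - a₀) x) (ε := 1 / 2)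
        (by norm_num)
      obtain ⟨k, hk⟩ := exists_nat_ge (T / Q)
      rw [div_le_iff₀ hQ0] at hk
      have h1 := hTs (k * Q) hk
      rw [g7 k (t - a₀) x] at h1
      have h2 := hb ψ' hψ'O k (t - a₀) x
      rw [sub_add_cancel] at h2
      rw [div_le_iff₀ (by positivity)]
      linarith
    obtain ⟨T, hT, hTs⟩ := hair N hf H (c := √m) (η := 1 / (2 * A)) (r := 1) (ε := δ / 2)
      (Real.sqrt_pos.mpr H.m_pos) (by have := Real.sqrt_pos.mpr H.m_pos; linarith)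
      (by positivity) one_pos (by positivity)
    have h1 := hTs T le_rfl (ψ' (Q - T)) (hψ'E.dat _) 0 (fun y _ => g8 _ y) 0 (by
      rw [sub_self, norm_zero]; positivity)
    rw [← hψ'E.flow _ _ hT.le, sub_add_cancel] at h1
    linarith
  · -- the limit is zero
    have hz : ψ' 0 h = 0 := le_antisymm (not_lt.mp hpos) (hψ'E.nonneg _ _)
    have hm := H.m_pos
    obtain ⟨C₀, hC₀, hH₀⟩ := ent_harnack N hf (τ₁ := Q / 2) (τ₂ := Q) (by linarith) (by linarith) 0
    -- choice of `k`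
    obtain ⟨k, hk, hka⟩ : ∃ k : ℕ, 2 * A * C₀ * Real.exp (-(m * (k * Q - a₀))) ≤ 1 / 2 ∧
        a₀ < k * Q := by
      have h0 : Tendsto (fun k : ℕ => (k:ℝ) * Q) atTop atTop :=
        Tendsto.atTop_mul_const hQ0 tendsto_natCast_atTop_atTop
      have h1 : Tendsto (fun k : ℕ => 2 * A * C₀ * Real.exp (-(m * (k * Q - a₀)))) atTop
          (𝓝 (2 * A * C₀ * 0)) := by
        apply Tendsto.const_mul
        apply Real.tendsto_exp_neg_atTop_nhds_zero.comp
        apply Tendsto.const_mul_atTop hm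
        exact tendsto_atTop_add_const_right _ _ h0
      rw [mul_zero] at h1
      exact ((h1.eventually_le_const (by norm_num : (0:ℝ) < 1 / 2)).and
        (h0.eventually_gt_atTop a₀)).exists
    have hk0 : 0 < k := by
      rcases Nat.eq_zero_or_pos k with h0 | h0
      · rw [h0] at hka
        simp at hka
        linarith
      · exact h0
    have hk1 : (1:ℝ) ≤ k := by exact_mod_cast hk0
    have hkQ : 0 < k * Q := by positivity
    obtain ⟨C₁, hC₁, hH₁⟩ := ent_harnack N hf (τ₁ := Q / 2) (τ₂ := k * Q) (by linarith)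
      (by nlinarith) (k * ‖h‖)
    set ε₁ : ℝ := 1 / (4 * k * C₁) with hε₁
    have hε₁0 : 0 < ε₁ := by positivity
    obtain ⟨h₀, hh₀, hcont⟩ := ent_cont N hf (τ₁ := Q / 2) (τ₂ := Q) (by linarith) (by linarith)
      ‖h‖ hε₁0
    obtain ⟨δ₁, hδ₁, hgr⟩ := ent_growth N hf H (T := k * Q - a₀) (by linarith) one_pos
    -- choice of `n`
    have hev1 : ∀ᶠ n : ℕ in (hyperfilter ℕ : Filter ℕ), 1 / ((n:ℝ) + 1) ≤ h₀ :=
      hsm0.eventually_le_const hh₀
    have hev2 : ∀ᶠ n in (hyperfilter ℕ : Filter ℕ), C₀ * φ n 0 h ≤ δ₁ := by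
      have h1 := (hψ' 0 h).const_mul C₀
      rw [hz, mul_zero] at h1
      exact h1.eventually_le_const hδ₁
    obtain ⟨n, hn1, hn2⟩ := (hev1.and hev2).exists
    have hEn := hE _ (hφO n)
    set w := φ n with hw
    set σ := s n with hσd
    have hσ1 : Q / 2 ≤ σ := hs1 n
    have hσ2 : σ < Q := hs2 n
    have hσ3 : Q - σ ≤ h₀ := (hs3 n).trans hn1
    have hlt : w σ 0 < w 0 h := hφ1 n
    have hμ : 0 < w σ 0 := by
      apply hEn.pos_of hf (t₀ := 0) (x₀ := h)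
      exact lt_of_le_of_lt (hEn.nonneg σ 0) hlt
    set μ := w σ 0 with hμd
    -- first estimate
    have a1 : w 0 h ≤ w (σ - Q) h + ε₁ * μ := by
      have := hcont w hEn σ ⟨hσ1, hσ2.le⟩ (Q - σ) ⟨by linarith, hσ3⟩ σ 0 h (by simp)
      rw [sub_self, zero_sub, neg_sub] at this
      exact this
    -- Harnack chain
    have hab : ∀ t x, w t (x + h) ≤ w (t + Q) x := hQT.2 Q le_rfl w (hφO n)
    have a2 : ∀ j : ℕ, 1 ≤ j → j ≤ k →
        w (-(j * Q) + Q) ((j:ℝ) • h) - w (-(j * Q)) ((j:ℝ) • h + h) ≤ C₁ * (ε₁ * μ) := by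
      intro j hj hjk
      have hj1 : (1:ℝ) ≤ j := by exact_mod_cast hj
      have hj2 : (j:ℝ) ≤ k := by exact_mod_cast hjk
      have h1 := hH₁ (fun t x => w t (x + h)) (fun t x => w (t + Q) x) (hEa _ (hφO n))
        (hEb _ (hφO n) Q) hab ((j - 1) * Q + σ) ⟨by nlinarith, by nlinarith⟩ (σ - Q) 0 ((j:ℝ) • h)
        (by
          rw [sub_zero, norm_smul, Real.norm_eq_abs, abs_of_nonneg (by positivity)]
          exact mul_le_mul_of_nonneg_right hj2 (norm_nonneg _))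
      have e1 : σ - Q - ((j - 1) * Q + σ) = -(j * Q) := by ring
      have e2 : σ - Q + Q = σ := by ring
      rw [e1, e2, zero_add] at h1
      refine h1.trans (mul_le_mul_of_nonneg_left ?_ (by linarith))
      linarith
    have a3 : ∀ j : ℕ, j ≤ k → w 0 h - j * (C₁ * (ε₁ * μ)) ≤ w (-(j * Q)) ((j:ℝ) • h + h) := by
      intro j
      induction j with
      | zero => intro _; simp
      | succ j ih =>
        intro hj
        have h1 := ih (by omega)
        have h2 := a2 (j + 1) (by omega) hj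
        push_cast at h2 ⊢
        have e1 : -(((j:ℝ) + 1) * Q) + Q = -(j * Q) := by ring
        have e2 : ((j:ℝ) + 1) • h = (j:ℝ) • h + h := by rw [add_smul, one_smul]
        rw [e1, e2] at h2
        rw [e2]
        linarith
    have a4 := a3 k le_rfl
    have a5 : k * (C₁ * (ε₁ * μ)) = μ / 4 := by
      rw [hε₁]
      field_simp
    rw [a5] at a4
    -- upper bound
    have b1 : w (-(k * Q)) ((k:ℝ) • h + h) ≤ A * w (-(k * Q) + a₀) 0 := by
      have := hb w (hφO n) (k + 1) (-(k * Q)) 0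
      rw [zero_add] at this
      push_cast at this
      rwa [add_smul, one_smul] at this
    have b2 : w 0 0 ≤ C₀ * μ := by
      have h1 := hH₀ _ w (ent_zero hf) hEn (fun t x => hEn.nonneg t x) σ ⟨hσ1, hσ2.le⟩ σ 0 0
        (by simp)
      simpa using h1
    have b3 : w (-(k * Q) + a₀) 0 ≤ (1 + 1) * Real.exp (-(m * (k * Q - a₀))) * w 0 0 := by
      have e1 : -(k * Q) + a₀ + (k * Q - a₀) = 0 := by ring
      have h1 := hgr w hEn (-(k * Q) + a₀) 0 (by
        rw [e1]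
        refine b2.trans (le_trans ?_ hn2)
        exact mul_le_mul_of_nonneg_left hlt.le (by linarith))
      rwa [e1] at h1
    have b4 : A * w (-(k * Q) + a₀) 0 ≤ μ / 2 := by
      have hexp := Real.exp_pos (-(m * (k * Q - a₀)))
      calc A * w (-(k * Q) + a₀) 0 ≤ A * ((1 + 1) * Real.exp (-(m * (k * Q - a₀))) * (C₀ * μ)) := by
            apply mul_le_mul_of_nonneg_left _ hA0.le
            refine b3.trans ?_
            apply mul_le_mul_of_nonneg_left b2 (by positivity)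
        _ = 2 * A * C₀ * Real.exp (-(m * (k * Q - a₀))) * μ := by ring
        _ ≤ 1 / 2 * μ := mul_le_mul_of_nonneg_right hk hμ.le
        _ = μ / 2 := by ring
    linarith

/-- The ultralimits of entire solutions are entire solutions. -/
theorem Ent.ulim (hf : Nl f M) {ι : Type*} (F : Ultrafilter ι) {Ψ : ι → ℝ → E N → ℝ}
    (hΨ : ∀ i, Ent f M (Ψ i)) {ψ : ℝ → E N → ℝ}
    (h : ∀ t x, Tendsto (fun i => Ψ i t x) F (𝓝 (ψ t x))) : Ent f M ψ := by
  obtain ⟨v, hv, hv2⟩ := Pool.Agent.AP157.ulim hf F Ψ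
    (fun t => Eventually.of_forall fun i s _ => (hΨ i).dat s)
    (fun t => Eventually.of_forall fun i s r _ hr x => (hΨ i).flow s r hr x)
  have e : ψ = v := by
    funext t x
    exact tendsto_nhds_unique (h t x) (hv2 t x)
  rw [e]
  exact hv

/-- An entire solution which is nonincreasing in the directions of a cone up to a constant and a time
shift is nonincreasing in these directions. -/
theorem ent_slide (hf : Nl f M) (H : Mn f m) {A a₀ : ℝ} (hA : 1 ≤ A) (ha₀ : 0 ≤ a₀)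
    {ψ : ℝ → E N → ℝ} (hψ : Ent f M ψ) {h : E N}
    (hb : ∀ k : ℕ, ∀ t x, ψ t (x + (k:ℝ) • h) ≤ A * ψ (t + a₀) x) (t : ℝ) (x : E N) {σ : ℝ}
    (hσ : 0 ≤ σ) : ψ t (x + h) ≤ ψ (t + σ) x := by
  refine slide4 hf H hA ha₀ (O := {φ | Ent f M φ ∧
    ∀ k : ℕ, ∀ t x, φ t (x + (k:ℝ) • h) ≤ A * φ (t + a₀) x}) (fun φ hφ => hφ.1) ?_ ?_
    (h := h) (fun φ hφ => hφ.2) ⟨hψ, hb⟩ t x hσ
  · rintro φ ⟨h1, h2⟩ s y
    refine ⟨?_, fun k t x => ?_⟩
    · have := h1.shift hf s y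
      simpa [add_comm] using this
    · have := h2 k (s + t) (y + x)
      rwa [add_assoc, add_assoc] at this
  · intro Ψ hΨ φ hlim
    refine ⟨Ent.ulim hf (hyperfilter ℕ) (fun i => (hΨ i).1) hlim, fun k t x => ?_⟩
    exact le_of_tendsto_of_tendsto (hlim t (x + (k:ℝ) • h)) ((hlim (t + a₀) x).const_mul A)
      (Eventually.of_forall fun i => (hΨ i).2 k t x)

/-- An entire solution with `ψ(t, x + h) ≤ A ψ(t + a₀, x)` for all `h` in a subgroup stable under
negation is invariant. -/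
theorem ent_inv (hf : Nl f M) (H : Mn f m) {A a₀ : ℝ} (hA : 1 ≤ A) (ha₀ : 0 ≤ a₀)
    {ψ : ℝ → E N → ℝ} (hψ : Ent f M ψ) {e : E N}
    (hb : ∀ h : E N, inner ℝ h e = 0 → ∀ t x, ψ t (x + h) ≤ A * ψ (t + a₀) x) {h : E N}
    (hh : inner ℝ h e = 0) (t : ℝ) (x : E N) : ψ t (x + h) = ψ t x := by
  have key : ∀ h : E N, inner ℝ h e = 0 → ∀ t x, ψ t (x + h) ≤ ψ t x := by
    intro h hh t x
    have := ent_slide hf H hA ha₀ hψ (h := h) (fun k t x => hb _ (by
      rw [inner_smul_left, hh, mul_zero]) t x) t x (σ := 0) le_rfl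
    rwa [add_zero] at this
  apply le_antisymm (key h hh t x)
  have := key (-h) (by rw [inner_neg_left, hh, neg_zero]) t (x + h)
  rwa [add_neg_cancel_right] at this

end

end Pool.Agent.AP157
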