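import Pool.Agent.AP157.Prob

/-!
# Spreading speed, as used in the statements of the results on MP_609556_an
-/

set_option autoImplicit false

open MeasureTheory Real Set Filter Topology

namespace Pool.Agent.AP157

open Pool.Agent.X297.KP

noncomputable section

/-- The spreading speed from the ball `B_ρ` is larger than `s`: for some `c > s`, a classical
solution `v` with initial datum `1_{B_ρ}` satisfies
`inf {v t x | ‖x‖ ≤ c t} → 1` as `t → ∞`. -/
def SpeedGt (N : ℕ) (f : ℝ → ℝ) (ρ s : ℝ) : Prop :=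
  ∃ c, s < c ∧ ∃ v : ℝ → E N → ℝ, Classical f (Metric.ball (0 : E N) ρ) v ∧
    ∀ ε : ℝ, 0 < ε → ∃ T : ℝ, ∀ t, T ≤ t → ∀ x : E N, ‖x‖ ≤ c * t → 1 - ε ≤ v t x

end

end Pool.Agent.AP157
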