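import Pool.Agent.AP157.SlideD
import Pool.Agent.AP157.FinC
import Pool.Agent.AP157.KTwo

/-!
# Stability of the asymptotic planarity under bounded perturbations of the initial set
-/

set_option autoImplicit false

open MeasureTheory Real Set Filter Topology
open scoped ENNReal

namespace Pool.Agent.AP157

open Pool.Agent.X297.KP

noncomputable section

variable {N : ℕ} {f : ℝ → ℝ} {M m : ℝ}

/-- `f(s) ≤ f'(0) s` if `f(s)/s` is nonincreasing. -/
theorem ratio_le (hf : ContDiffOn ℝ 1 f (Icc 0 1)) (h0 : f 0 = 0)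
    (hr : ∀ a b : ℝ, 0 < a → a ≤ b → b ≤ 1 → f b / b ≤ f a / a) {a : ℝ} (ha : 0 < a) (ha1 : a ≤ 1) :
    f a ≤ derivWithin f (Icc 0 1) 0 * a := by
  have hd : HasDerivWithinAt f (derivWithin f (Icc 0 1) 0) (Icc 0 1) 0 :=
    ((hf.differentiableOn (by norm_num)) 0 (left_mem_Icc.mpr zero_le_one)).hasDerivWithinAt
  rw [hasDerivWithinAt_iff_tendsto_slope] at hd
  have h1 : 𝓝[Ioo 0 a] (0:ℝ) ≤ 𝓝[Icc 0 1 \ {0}] 0 := by
    apply nhdsWithin_mono
    intro x hx
    exact ⟨⟨hx.1.le, hx.2.le.trans ha1⟩, by simpa using hx.1.ne'⟩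
  have : (𝓝[Ioo 0 a] (0:ℝ)).NeBot := by
    rw [nhdsWithin_Ioo_eq_nhdsGT ha]
    infer_instance
  have h2 : f a / a ≤ derivWithin f (Icc 0 1) 0 := by
    refine ge_of_tendsto (hd.mono_left h1) ?_
    filter_upwards [self_mem_nhdsWithin] with x hx
    rw [slope_def_field, h0, sub_zero, sub_zero]
    exact hr x a hx.1 hx.2.le ha1
  rwa [div_le_iff₀ ha] at h2

theorem sub_of_ratio (hf : ContDiffOn ℝ 1 f (Icc 0 1)) (h0 : f 0 = 0)
    (hr : ∀ a b : ℝ, 0 < a → a ≤ b → b ≤ 1 → f b / b ≤ f a / a) {A : ℝ} (hA : 1 ≤ A) :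
    SubA f (derivWithin f (Icc 0 1) 0) A := by
  set m := derivWithin f (Icc 0 1) 0 with hm
  refine ⟨hA, fun a b ha hb hab => ?_⟩
  have hA0 : 0 < A := by linarith
  rcases eq_or_lt_of_le (add_nonneg ha hb) with h | h
  · have ha' : a = 0 := by linarith
    have hb' : b = 0 := by linarith
    rw [ha', hb', add_zero, mul_zero, h0]
    simp
  have hs1 : a + b ≤ 1 := by nlinarith
  -- `f (A s) ≤ A f s`
  have h1 : f (A * (a + b)) ≤ A * f (a + b) := by
    have := hr (a + b) (A * (a + b)) h (by nlinarith) hab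
    rw [div_le_div_iff₀ (by positivity) h] at this
    have e1 : f (A * (a + b)) * (a + b) ≤ A * f (a + b) * (a + b) := by linarith
    exact le_of_mul_le_mul_right e1 h
  have h2 : f (a + b) ≤ f a + m * b := by
    rcases eq_or_lt_of_le ha with h' | h'
    · rw [← h', zero_add, h0, zero_add]
      rw [← h', zero_add] at h hs1
      exact ratio_le hf h0 hr h hs1
    · have h3 := hr a (a + b) h' (by linarith) hs1
      rw [div_le_div_iff₀ h h'] at h3
      have h4 := ratio_le hf h0 hr h' (by linarith)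
      rw [← hm] at h4
      have e1 : f (a + b) * a ≤ (f a + m * b) * a := by nlinarith
      exact le_of_mul_le_mul_right e1 h'
  exact h1.trans (mul_le_mul_of_nonneg_left h2 hA0.le)

/-- If every point of `V` is at bounded distance from a ball of radius `ρ` contained in `U`, then
`1_V ≤ C S_1 1_U`. -/
theorem cover (hf : Nl f M) (H : Mn f m) {U V : Set (E N)} (hU : MeasurableSet U) {ρ R : ℝ}
    (hρ : 0 < ρ) (h : ∀ y ∈ V, ∃ k : E N, ‖y - k‖ ≤ R ∧ ∀ w, ‖w - k‖ ≤ ρ → w ∈ U) :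
    ∃ C : ℝ, 1 ≤ C ∧ ∀ x, V.indicator (1 : E N → ℝ) x ≤ C * S f M 1 (U.indicator 1) x := by
  obtain ⟨c, hc, hcs⟩ := heat_lower (N := N) (a := 1) (b := 1) one_pos le_rfl (R + ρ)
  set v := (volume (Metric.closedBall (0 : E N) ρ)).toReal with hv
  have hv0 : 0 < v := hair_vol hρ 0
  refine ⟨max 1 (1 / (c * v)), le_max_left _ _, fun x => ?_⟩
  have hS := S_mem hf (ind_dat hU) 1 x
  by_cases hx : x ∈ V
  · rw [indicator_of_mem hx, Pi.one_apply]
    obtain ⟨k, hk1, hk2⟩ := h x hx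
    have h1 := hair_P_b (a := 1) (r := ρ) (c := c) (t := 1) zero_le_one le_rfl one_pos k x
      (fun z hz => hcs 1 ⟨le_rfl, le_rfl⟩ _ (by
        have e1 : x - z = (x - k) - (z - k) := by abel
        rw [e1]
        exact (norm_sub_le _ _).trans (by linarith)))
    rw [mul_one, hair_vol_eq] at h1
    have h2 : P 1 (hair_b 1 ρ k) x ≤ P 1 (U.indicator 1) x := by
      have hd1 := hair_b_dat (r := ρ) zero_le_one le_rfl k
      have hd2 := ind_dat hU
      apply P_mono one_pos hd1.meas hd2.meas (C := 1)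
        (fun y => abs_le.mpr ⟨by linarith [(hd1.mem y).1], (hd1.mem y).2⟩)
        (fun y => abs_le.mpr ⟨by linarith [(hd2.mem y).1], (hd2.mem y).2⟩)
      apply hair_b_le zero_le_one (fun y => (hd2.mem y).1)
      intro y hy
      rw [indicator_of_mem (hk2 y hy), Pi.one_apply]
    have h3 := hair_P_le_S hf H (ind_dat hU) one_pos x
    have h4 : c * v ≤ S f M 1 (U.indicator 1) x := h1.trans (h2.trans h3)
    have hcv : 0 < c * v := by positivity
    calc (1:ℝ) = 1 / (c * v) * (c * v) := by field_simp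
      _ ≤ max 1 (1 / (c * v)) * S f M 1 (U.indicator 1) x :=
        mul_le_mul (le_max_right _ _) h4 hcv.le (by positivity)
  · rw [indicator_of_notMem hx]
    have : 0 ≤ max 1 (1 / (c * v)) := le_trans zero_le_one (le_max_left _ _)
    exact mul_nonneg this hS.1

/-- Comparison of the solutions. -/
theorem cover_sol (hf : Nl f M) (H : Mn f m) {U V : Set (E N)} (hU : MeasurableSet U)
    (hV : MeasurableSet V) {C : ℝ} (hC : SubA f m C)
    (h : ∀ x, V.indicator (1 : E N → ℝ) x ≤ C * S f M 1 (U.indicator 1) x) {t : ℝ} (ht : 0 < t)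
    (x : E N) : S f M t (V.indicator 1) x ≤ C * S f M (t + 1) (U.indicator 1) x := by
  have hdU := ind_dat hU
  have hdV := ind_dat hV
  have hz : Dat (N := N) (fun _ => (0:ℝ)) := dat_const ⟨le_rfl, zero_le_one⟩
  have h1 := S_sub hf H.m_pos.le hC hdV (S_dat hf hdU 1) hz (fun x => by
    rw [add_zero]; exact h x) ht x
  rw [P_const ht, mul_zero, add_zero, ← S_add hf hdU zero_le_one ht.le] at h1
  rwa [add_comm t 1]

/-- Bounded Hausdorff distance. -/
theorem near_thick {U V : Set (E N)} (hUV : Metric.hausdorffEDist V U < ⊤) {ρ R₀ : ℝ}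
    (hT : Thick U ρ R₀) : ∃ R : ℝ, ∀ y ∈ V, ∃ k : E N, ‖y - k‖ ≤ R ∧ ∀ w, ‖w - k‖ ≤ ρ → w ∈ U := by
  refine ⟨(Metric.hausdorffEDist V U).toReal + 1 + R₀, fun y hy => ?_⟩
  have h1 : Metric.hausdorffEDist V U < ENNReal.ofReal ((Metric.hausdorffEDist V U).toReal + 1) := by
    rw [ENNReal.ofReal_add ENNReal.toReal_nonneg zero_le_one, ENNReal.ofReal_toReal hUV.ne]
    exact ENNReal.lt_add_right hUV.ne (by simp)
  obtain ⟨w, hw, hyw⟩ := Metric.exists_edist_lt_of_hausdorffEDist_lt hy h1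
  obtain ⟨k, hk1, hk2⟩ := hT.2 w hw
  refine ⟨k, ?_, hk2⟩
  rw [edist_dist] at hyw
  have h2 := (ENNReal.ofReal_lt_ofReal_iff (by positivity)).mp hyw
  rw [dist_eq_norm] at h2
  have e1 : y - k = (y - w) + (w - k) := by abel
  rw [e1]
  exact (norm_add_le _ _).trans (by linarith)

/-- `ψ` is one-dimensional, with a profile of class `C²`. -/
def OneDimC2 (ψ : E N → ℝ) : Prop :=
  ∃ e : E N, ‖e‖ = 1 ∧ ∃ Ψ : ℝ → ℝ, ContDiff ℝ 2 Ψ ∧ ψ =ᵐ[volume] fun x => Ψ (inner ℝ x e)

/-- A continuous one-dimensional function is invariant under translations orthogonal to `e`. -/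
theorem oneDim_inv {ψ : E N → ℝ} (hψ : OneDimC2 ψ) (hc : Continuous ψ) : ∃ e : E N, ‖e‖ = 1 ∧
    ∀ h, inner ℝ h e = 0 → ∀ x, ψ (x + h) = ψ x := by
  obtain ⟨e, he, Ψ, hΨ, hae⟩ := hψ
  have h1 : ψ = fun x => Ψ (inner ℝ x e) := by
    apply Continuous.ae_eq_iff_eq volume hc _ |>.mp hae
    exact hΨ.continuous.comp (by fun_prop)
  refine ⟨e, he, fun h hh x => ?_⟩
  rw [h1]
  simp only
  rw [inner_add_left, hh, add_zero]

/-- The ultralimits of the translates of a solution at a given time belong to `Ω`. -/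
theorem ulim_omega (hf : Nl f M) {U : Set (E N)} (hU : MeasurableSet U) {u : ℝ → E N → ℝ}
    (hu : Classical f U u) {t : ℕ → ℝ} {x : ℕ → E N} (ht : Tendsto t atTop atTop)
    {v : ℝ → E N → ℝ} (hv : Ent f M v)
    (hlim : ∀ s y, Tendsto (fun n => S f M (t n + s) (U.indicator 1) (x n + y)) (hyperfilter ℕ)
      (𝓝 (v s y))) (s : ℝ) : v s ∈ OmegaLimit u := by
  have hg := ind_dat hU
  obtain ⟨L, hL, hreg, -⟩ := S_reg N hf
  obtain ⟨L', hL', hreg'⟩ := ent_reg N hf
  have htF : Tendsto t (hyperfilter ℕ) atTop := ht.mono_left Nat.hyperfilter_le_atTop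
  have hlv : ∀ x y, |v s x - v s y| ≤ (L + L') * ‖x - y‖ := fun x y => by
    refine ((hreg' v hv).1 s x y).trans ?_
    exact mul_le_mul_of_nonneg_right (by linarith) (norm_nonneg _)
  have hev : ∀ j : ℕ, ∃ n : ℕ, j ≤ n ∧ (j:ℝ) ≤ t n + s ∧ 0 < t n + s ∧ ∀ y, ‖y‖ ≤ j →
      |S f M (t n + s) (U.indicator 1) (x n + y) - v s y| ≤ 1 / ((j:ℝ) + 1) := by
    intro j
    have h1 := ulim_unif (hyperfilter ℕ)
      (fun n y => S f M (t n + s) (U.indicator 1) (x n + y)) (v s) (L := L + L') (by positivity) (by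
        filter_upwards [htF.eventually_ge_atTop (1 - s)] with n hn a b
        have := hreg _ hg (t n + s) (by linarith) (x n + a) (x n + b)
        rw [add_sub_add_left_eq_sub] at this
        refine this.trans ?_
        exact mul_le_mul_of_nonneg_right (by linarith) (norm_nonneg _)) hlv (hlim s) j
      (ε := 1 / ((j:ℝ) + 1)) (by positivity)
    have h2 : ∀ᶠ n in (hyperfilter ℕ : Filter ℕ), j ≤ n :=
      Nat.hyperfilter_le_atTop (eventually_ge_atTop j)
    obtain ⟨n, hn1, hn2, hn3, hn4⟩ := (h1.and (h2.and ((htF.eventually_ge_atTop ((j:ℝ) - s)).and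
      (htF.eventually_gt_atTop (-s))))).exists
    exact ⟨n, hn2, by linarith, by linarith, hn1⟩
  choose n hn1 hn2 hn3 hn4 using hev
  refine ⟨?_, fun j => t (n j) + s, fun j => x (n j), ?_, ?_⟩
  · apply memLp_top_of_bound (entc_cont hf hv s).aestronglyMeasurable 1
    refine Eventually.of_forall fun y => ?_
    rw [Real.norm_eq_abs, abs_of_nonneg (hv.nonneg s y)]
    exact hv.le_one s y
  · exact tendsto_atTop_mono hn2 tendsto_natCast_atTop_atTop
  · intro R
    rw [ENNReal.tendsto_nhds_zero]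
    intro ε hε
    by_cases hεt : ε = ⊤
    · exact Eventually.of_forall fun _ => by rw [hεt]; exact le_top
    have hε' : 0 < ε.toReal := ENNReal.toReal_pos hε.ne' hεt
    have h1 : ∀ᶠ j : ℕ in atTop, 1 / ((j:ℝ) + 1) ≤ ε.toReal :=
      tendsto_one_div_add_atTop_nhds_zero_nat.eventually_le_const hε'
    obtain ⟨j₀, hj₀⟩ := exists_nat_ge R
    filter_upwards [h1, eventually_ge_atTop j₀] with j hj1 hj2
    rw [eLpNorm_exponent_top]
    refine (eLpNormEssSup_le_of_ae_bound (C := ε.toReal) ?_).trans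
      (le_of_eq (ENNReal.ofReal_toReal hεt))
    rw [ae_restrict_iff' Metric.isOpen_ball.measurableSet]
    refine Eventually.of_forall fun y hy => ?_
    rw [Real.norm_eq_abs, classical_eq hf hU hu _ (hn3 j)]
    have hy' : ‖y‖ ≤ j := by
      rw [mem_ball_zero_iff] at hy
      have : (j₀:ℝ) ≤ j := by exact_mod_cast hj2
      linarith
    exact (hn4 j y hy').trans hj1

/-- One direction for all times. -/
theorem one_dir (hf : Nl f M) {v : ℝ → E N → ℝ} (hv : Ent f M v)
    (h : ∀ s, OneDimC2 (v s)) : ∃ e : E N, ‖e‖ = 1 ∧ ∀ h, inner ℝ h e = 0 → ∀ t x,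
      v t (x + h) = v t x := by
  have h1 := fun n : ℕ => oneDim_inv (h (-(n:ℝ))) (entc_cont hf hv _)
  choose e he hinv using h1
  have hsph : ∀ᶠ n in (hyperfilter ℕ : Filter ℕ), e n ∈ Metric.sphere (0 : E N) 1 :=
    Eventually.of_forall fun n => by simpa using he n
  obtain ⟨e', he', hlim⟩ := (isCompact_sphere (0 : E N) 1).ultrafilter_le_nhds
    ((hyperfilter ℕ).map e) (by rw [le_principal_iff]; exact hsph)
  have hlim' : Tendsto e (hyperfilter ℕ) (𝓝 e') := hlim
  refine ⟨e', by simpa using he', fun h hh t x => ?_⟩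
  -- approximating vectors
  have h2 : Tendsto (fun n => h - (inner ℝ h (e n) : ℝ) • e n) (hyperfilter ℕ) (𝓝 h) := by
    have h3 : Tendsto (fun n => (inner ℝ h (e n) : ℝ)) (hyperfilter ℕ) (𝓝 (inner ℝ h e')) :=
      (Continuous.tendsto (by fun_prop : Continuous fun y : E N => (inner ℝ h y : ℝ)) e').comp hlim'
    have h4 := (h3.smul hlim').const_sub h
    rwa [hh, zero_smul, sub_zero] at h4
  have h5 : Tendsto (fun n => v t (x + (h - (inner ℝ h (e n) : ℝ) • e n))) (hyperfilter ℕ)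
      (𝓝 (v t (x + h))) :=
    ((entc_cont hf hv t).tendsto _).comp (h2.const_add x)
  refine tendsto_nhds_unique h5 ?_
  have h6 : ∀ᶠ n in (hyperfilter ℕ : Filter ℕ), v t x = v t (x + (h - (inner ℝ h (e n) : ℝ) • e n)) := by
    obtain ⟨n₀, hn₀⟩ := exists_nat_ge (-t)
    have h7 : ∀ᶠ n in (hyperfilter ℕ : Filter ℕ), n₀ ≤ n :=
      Nat.hyperfilter_le_atTop (eventually_ge_atTop n₀)
    filter_upwards [h7] with n hn
    have hnt : 0 ≤ t - (-(n:ℝ)) := by
      have : (n₀:ℝ) ≤ n := by exact_mod_cast hn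
      linarith
    set k := h - (inner ℝ h (e n) : ℝ) • e n with hk
    have hke : inner ℝ k (e n) = 0 := by
      rw [hk, inner_sub_left, inner_smul_left, real_inner_self_eq_norm_sq, he n]
      simp
    have e1 := hv.flow (-(n:ℝ)) (t - (-(n:ℝ))) hnt x
    have e2 := hv.flow (-(n:ℝ)) (t - (-(n:ℝ))) hnt (x + k)
    rw [add_sub_cancel] at e1 e2
    have e3 := S_trans hf (hv.dat (-(n:ℝ))) (t - (-(n:ℝ))) k x
    have e4 : (fun y => v (-(n:ℝ)) (y + k)) = v (-(n:ℝ)) := by
      funext y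
      exact hinv n k hke y
    rw [e4] at e3
    rw [e1, e2, e3]
  exact tendsto_const_nhds.congr' h6

/-- The stability theorem in terms of entire limits. -/
theorem stab (hf : Nl f M) (H : Mn f m) (hS : ∀ A : ℝ, 1 ≤ A → SubA f m A)
    {U V : Set (E N)} (hU : MeasurableSet U) (hV : MeasurableSet V) {ρ ρ' : ℝ} (hρ : 0 < ρ)
    (hρ' : 0 < ρ') (hUρ : Metric.hausdorffEDist U (shrink U ρ) < ⊤)
    (hVρ : Metric.hausdorffEDist V (shrink V ρ') < ⊤) (hUV : Metric.hausdorffEDist U V < ⊤)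
    {u : ℝ → E N → ℝ} (hu : Classical f U u) (h1 : ∀ ψ ∈ OmegaLimit u, OneDimC2 ψ)
    {t : ℕ → ℝ} {x : ℕ → E N} (ht : Tendsto t atTop atTop) {ψ : E N → ℝ}
    (hψ : ∀ᵐ y, Tendsto (fun n => S f M (t n) (V.indicator 1) (x n + y)) atTop (𝓝 (ψ y))) :
    OneDimC2 ψ := by
  have hgU := ind_dat hU
  have hgV := ind_dat hV
  set F := hyperfilter ℕ with hF
  have htF : Tendsto t F atTop := ht.mono_left Nat.hyperfilter_le_atTop
  have hul : ∀ W : Set (E N), MeasurableSet W → ∃ v : ℝ → E N → ℝ, Ent f M v ∧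
      ∀ s y, Tendsto (fun n => S f M (t n + s) (W.indicator 1) (x n + y)) F (𝓝 (v s y)) := by
    intro W hW
    have hg := ind_dat hW
    refine ulim hf F (fun n s y => S f M (t n + s) (W.indicator 1) (x n + y)) (by
      intro T
      refine Eventually.of_forall (fun n s _ => ?_)
      have := dat_trans (S_dat hf hg (t n + s)) (x n)
      simpa [add_comm] using this) (by
      intro T
      filter_upwards [htF.eventually_ge_atTop (|T|)] with n hn s r hs hr y
      have h0 : 0 ≤ t n + s := by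
        have := neg_abs_le T
        linarith
      have e1 := S_add hf hg (s := t n + s) (t := r) h0 hr
      have e2 := S_trans hf (S_dat hf hg (t n + s)) r (x n) y
      rw [← add_assoc, e1, add_comm (x n) y, ← e2]
      congr 1
      funext w
      rw [add_comm w])
  obtain ⟨v, hv, hvl⟩ := hul U hU
  obtain ⟨w, hw, hwl⟩ := hul V hV
  have hae : ψ =ᵐ[volume] w 0 := by
    filter_upwards [hψ] with y hy
    have h1 := hy.mono_left Nat.hyperfilter_le_atTop
    have h2 := hwl 0 y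
    simp only [add_zero] at h2
    exact tendsto_nhds_unique h1 h2
  obtain ⟨R₀, hT⟩ := thick_of hρ hUρ
  obtain ⟨R₀', hT'⟩ := thick_of hρ' hVρ
  obtain ⟨R₁, hR₁⟩ := near_thick (by rwa [Metric.hausdorffEDist_comm]) hT (V := V)
  obtain ⟨R₂, hR₂⟩ := near_thick hUV hT'
  obtain ⟨C₁, hC₁, hc₁⟩ := cover hf H hU hT.1 hR₁
  obtain ⟨C₂, hC₂, hc₂⟩ := cover hf H hV hT'.1 hR₂
  have hwv : ∀ s y, w s y ≤ C₁ * v (s + 1) y := by
    intro s y
    refine le_of_tendsto_of_tendsto (hwl s y) ((hvl (s + 1) y).const_mul C₁) ?_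
    filter_upwards [htF.eventually_gt_atTop (-s)] with n hn
    have := cover_sol hf H hU hV (hS C₁ hC₁) hc₁ (t := t n + s) (by linarith) (x n + y)
    rwa [add_assoc (t n)] at this
  have hvw : ∀ s y, v s y ≤ C₂ * w (s + 1) y := by
    intro s y
    refine le_of_tendsto_of_tendsto (hvl s y) ((hwl (s + 1) y).const_mul C₂) ?_
    filter_upwards [htF.eventually_gt_atTop (-s)] with n hn
    have := cover_sol hf H hV hU (hS C₂ hC₂) hc₂ (t := t n + s) (by linarith) (x n + y)
    rwa [add_assoc (t n)] at this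
  obtain ⟨e, he, hinv⟩ := one_dir hf hv (fun s => h1 _ (ulim_omega hf hU hu ht hv hvl s))
  have hb : ∀ h : E N, inner ℝ h e = 0 → ∀ t x, w t (x + h) ≤ C₁ * C₂ * w (t + 2) x := by
    intro h hh t x
    have a1 := hwv t (x + h)
    rw [hinv h hh] at a1
    have a2 := mul_le_mul_of_nonneg_left (hvw (t + 1) x) (by linarith : 0 ≤ C₁)
    have e1 : t + 1 + 1 = t + 2 := by ring
    rw [e1] at a2
    linarith
  have hA : 1 ≤ C₁ * C₂ := by nlinarith
  have hwi := fun h hh t x => ent_inv hf H hA (a₀ := 2) (by norm_num) hw hb (h := h) hh t x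
  refine ⟨e, he, fun s => w 0 (s • e), ?_, ?_⟩
  · have h1 : (fun s : ℝ => w 0 (s • e)) = fun s : ℝ => S f M 2 (w (-2)) (s • e) := by
      funext s
      have := hw.flow (-2) 2 (by norm_num) (s • e)
      norm_num at this
      exact this
    rw [h1]
    exact S_C2 hf (hw.dat _) e
  · filter_upwards [hae] with y hy
    rw [hy]
    have e1 : inner ℝ (y - (inner ℝ y e : ℝ) • e) e = 0 := by
      rw [inner_sub_left, inner_smul_left, real_inner_self_eq_norm_sq, he]
      simp
    have := hwi _ e1 0 ((inner ℝ y e : ℝ) • e)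
    rw [add_sub_cancel] at this
    exact this

end

end Pool.Agent.AP157
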