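import Pool.Agent.AP157.Geom
import Pool.Agent.AP157.Kern

/-!
# Monostable nonlinearities with `f(s) ≤ f'(0) s`: definitions
-/

set_option autoImplicit false

open MeasureTheory Real Set Filter Topology
open scoped ENNReal

namespace Pool.Agent.AP157

open Pool.Agent.X297.KP

noncomputable section

variable {N : ℕ}

/-- Monostable nonlinearity with `f'(0) = m > 0`: `f > 0` on `(0,1)`, the slopes of `f` near `0` are
close to `m`, and the slopes of `f` near `1` are at most `ε`, for every `ε > 0`. -/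
structure Mn (f : ℝ → ℝ) (m : ℝ) : Prop where
  pos : ∀ q ∈ Ioo (0:ℝ) 1, 0 < f q
  m_pos : 0 < m
  at0 : ∀ ε : ℝ, 0 < ε → ∃ d : ℝ, 0 < d ∧ d ≤ 1 ∧ ∀ a b, 0 ≤ a → a ≤ b → b ≤ d →
    (m - ε) * (b - a) ≤ f b - f a ∧ f b - f a ≤ (m + ε) * (b - a)
  at1 : ∀ ε : ℝ, 0 < ε → ∃ d : ℝ, 0 < d ∧ d ≤ 1 ∧ ∀ a b, 1 - d ≤ a → a ≤ b → b ≤ 1 →
    f b - f a ≤ ε * (b - a)

/-- `A (a + b)` is a supersolution when `a` is a solution and `b` solves `∂_t b = Δb + m b`. -/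
def SubA (f : ℝ → ℝ) (m A : ℝ) : Prop :=
  1 ≤ A ∧ ∀ a b : ℝ, 0 ≤ a → 0 ≤ b → A * (a + b) ≤ 1 → f (A * (a + b)) ≤ A * (f a + m * b)

/-- The reflection across the hyperplane `{y | ⟪y, v⟫ = b}`, `v` a unit vector. -/
def refl (v : E N) (b : ℝ) (y : E N) : E N := y + (2 * (b - inner ℝ y v)) • v

/-- Seen from the points `x'` near `x`, the points of `U` in the half-spaces
`{⟪y - x', v⟫ ≥ 0}`, where the angle between `v` and `e` is less than `π/2`, are far away compared to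
the distance of `x'` to `U`. -/
def Gdir (U : Set (E N)) (e : E N) (C : ℝ) (x : E N) : Prop :=
  C ≤ Metric.infDist x U ∧ ∀ x', ‖x' - x‖ ≤ C → ∀ y ∈ U, ∀ v : E N, ‖v‖ = 1 →
    1 / C ≤ inner ℝ v e → 0 ≤ inner ℝ (y - x') v →
    (1 + inner ℝ v e ^ 2 / 16) * Metric.infDist x' U ^ 2 ≤ ‖y - x'‖ ^ 2

end

end Pool.Agent.AP157
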